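import Pool.Agent.COB.Stmts

/-!
Squad COB, module BAR: a barrier at a boundary point (MP_71cfa6_an).
-/

set_option autoImplicit false

namespace Pool.Agent.COB

open MeasureTheory Set Metric Filter Topology

namespace BAR_

variable {m : ℕ}

theorem isOpen_Sd {F : E m → ℝ} (hF : Continuous F) {B : Set (E m)} (hB : IsOpen B) :
    IsOpen (Sd F B) := hB.inter (isOpen_lt continuous_const hF)

theorem isClosed_Sc {F : E m → ℝ} (hF : Continuous F) {B : Set (E m)} (hB : IsClosed B) :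
    IsClosed (Sc F B) := hB.inter (isClosed_le continuous_const hF)

/-- the numerical inequality for the Laplacian of the barrier -/
theorem num {L R K2 K3 M lF lφ Fx g2 d : ℝ} (hL : 1 ≤ L) (hR : 0 < R)
    (hRL : R * L ≤ 1 / 1000) (hK2 : K2 = 2 * M * K3 + L) (hK2' : 0 ≤ K2) (h1 : |lF| ≤ L)
    (h2 : |lφ| ≤ L) (h3 : 0 ≤ Fx) (h4 : Fx ≤ 1001 / 1000 * d) (h5 : d ≤ R / 2)
    (h6 : (999 / 1000) ^ 2 ≤ g2) :
    lφ + (K2 * R * lF + ((-K2) * (Fx * lF + 2 * g2 + Fx * lF) + K3 * (2 * M))) ≤ 0 := by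
  have a1 : lF ≤ L := (abs_le.1 h1).2
  have a1' : -L ≤ lF := (abs_le.1 h1).1
  have a2 : lφ ≤ L := (abs_le.1 h2).2
  have b1 : K2 * R * lF ≤ K2 * (1 / 1000) := by
    have : R * lF ≤ R * L := by nlinarith
    nlinarith
  have b2 : K2 * (-(2 * (Fx * lF))) ≤ K2 * (2 / 1000) := by
    apply mul_le_mul_of_nonneg_left _ hK2'
    have e1 : -(Fx * lF) ≤ Fx * L := by nlinarith
    have e2 : Fx * L ≤ (1001 / 1000 * (R / 2)) * L := by
      apply mul_le_mul_of_nonneg_right _ (by linarith)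
      linarith
    nlinarith
  have b3 : K2 * (-(2 * g2)) ≤ K2 * (-(199 / 100)) := by
    apply mul_le_mul_of_nonneg_left _ hK2'
    norm_num at h6
    linarith
  have e : lφ + (K2 * R * lF + ((-K2) * (Fx * lF + 2 * g2 + Fx * lF) + K3 * (2 * M)))
      = lφ + K2 * R * lF + K2 * (-(2 * (Fx * lF))) + K2 * (-(2 * g2)) + 2 * M * K3 := by ring
  rw [e]
  nlinarith

end BAR_

open BAR_ in
theorem bar_proof (hWBA : Stmt_WBA) (hWEX : Stmt_WEX) (hWIT : Stmt_WIT) (hCMP : Stmt_CMP)
    (hLPC : Stmt_LPC) (hGEF : Stmt_GEF) : Stmt_BAR := by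
  intro m F φ p R L i f df hm hG hf hcf hle
  have hR := hG.hR
  have hL := hG.hL
  have cF := hG.cF
  have cφ := hG.cφ
  have kF : Continuous F := cF.continuous
  have kφ : Continuous φ := cφ.continuous
  obtain ⟨-, G1, -, G3, -, -⟩ := hGEF m F φ p R L i hG
  have hm1 : (1 : ℝ) ≤ m := by exact_mod_cast hm
  have hRL : R * L ≤ 1 / 1000 := by
    have h1 := hG.sm
    have h2 : (0 : ℝ) ≤ L * R := by positivity
    nlinarith
  -- the compact set and the bound
  set S : Set (E m) := Sc F (closedBall p (R / 2)) with hS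
  have hScl : IsClosed S := isClosed_Sc kF isClosed_closedBall
  have hScp : IsCompact S :=
    (isCompact_closedBall p (R / 2)).of_isClosed_subset hScl (fun x hx => hx.1)
  have hbb : closedBall p (R / 2) ⊆ ball p R := closedBall_subset_ball (by linarith)
  have hSS : S ⊆ Sc F (ball p R) := fun x hx => ⟨hbb hx.1, hx.2⟩
  obtain ⟨M0, hM0⟩ := hScp.exists_bound_of_continuousOn
    ((hcf.mono hSS).sub kφ.continuousOn)
  set M : ℝ := max M0 0 with hM
  have hMn : 0 ≤ M := le_max_right _ _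
  have hMb : ∀ x ∈ S, f x - φ x ≤ M := by
    intro x hx
    have h1 := hM0 x hx
    have h2 : f x - φ x ≤ ‖(f - φ) x‖ := by
      rw [Real.norm_eq_abs]
      exact le_abs_self _
    exact h2.trans (h1.trans (le_max_left _ _))
  set K3 : ℝ := M / (R / 2) ^ 2 with hK3
  have hK3n : 0 ≤ K3 := by positivity
  set K2 : ℝ := 2 * m * K3 + L with hK2
  have hK2n : 0 ≤ K2 := by positivity
  -- the barrier
  obtain ⟨-, LPadd, LPc, LPr, -⟩ := hLPC m
  have cFF : ContDiff ℝ 2 (fun x => F x * F x) := cF.mul cF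
  have hid : ContDiff ℝ 2 (fun y : E m => ‖y - p‖ ^ 2) ∧ ∀ x : E m,
      gradient (fun y : E m => ‖y - p‖ ^ 2) x = (2 * (1 : ℝ)) • (x - p) ∧
      lp (fun y : E m => ‖y - p‖ ^ 2) x = 2 * m := by
    have h := LPr p (fun s => s) univ isOpen_univ (subset_univ _) contDiffOn_id
    refine ⟨h.1, fun x => ⟨?_, ?_⟩⟩
    · rw [(h.2 x).1]; simp
    · rw [(h.2 x).2]; simp
  obtain ⟨cN, hN⟩ := hid
  have c1 : ContDiff ℝ 2 (fun x => (-K2) * (F x * F x)) := contDiff_const.mul cFF
  have c2 : ContDiff ℝ 2 (fun x : E m => K3 * ‖x - p‖ ^ 2) := contDiff_const.mul cN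
  have c3 : ContDiff ℝ 2 (fun x => (-K2) * (F x * F x) + K3 * ‖x - p‖ ^ 2) := c1.add c2
  have c4 : ContDiff ℝ 2 (fun x => (K2 * R) * F x) := contDiff_const.mul cF
  have c5 : ContDiff ℝ 2
      (fun x => (K2 * R) * F x + ((-K2) * (F x * F x) + K3 * ‖x - p‖ ^ 2)) := c4.add c3
  have cψ : ContDiff ℝ 2
      (fun x => φ x + ((K2 * R) * F x + ((-K2) * (F x * F x) + K3 * ‖x - p‖ ^ 2))) := cφ.add c5
  set ψ : E m → ℝ :=
    fun x => φ x + ((K2 * R) * F x + ((-K2) * (F x * F x) + K3 * ‖x - p‖ ^ 2)) with hψ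
  have lpψ : ∀ x, lp ψ x = lp φ x + ((K2 * R) * lp F x +
      ((-K2) * (F x * lp F x + 2 * inner ℝ (gradient F x) (gradient F x) + F x * lp F x)
        + K3 * (2 * m))) := by
    intro x
    rw [hψ, (LPadd _ _ cφ c5 x).2.1, (LPadd _ _ c4 c3 x).2.1, (LPadd _ _ c1 c2 x).2.1,
      (LPc _ _ cF x).2, (LPc _ _ cFF x).2, (LPc _ _ cN x).2, (LPadd _ _ cF cF x).2.2.2,
      (hN x).2]
  -- the domain
  set D : Set (E m) := Sd F (ball p (R / 2)) with hD
  have hDo : IsOpen D := isOpen_Sd kF isOpen_ball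
  have hbb2 : ball p (R / 2) ⊆ ball p R := ball_subset_ball (by linarith)
  have hDA : D ⊆ Sd F (ball p R) := fun x hx => ⟨hbb2 hx.1, hx.2⟩
  have hAo : IsOpen (Sd F (ball p R)) := isOpen_Sd kF isOpen_ball
  have hDb : Bornology.IsBounded D := isBounded_ball.subset (fun x hx => hx.1)
  have hDS : closure D ⊆ S :=
    closure_minimal (fun x hx => ⟨ball_subset_closedBall hx.1, hx.2.le⟩) hScl
  have lpneg : ∀ x ∈ D, lp ψ x ≤ 0 := by
    intro x hx
    have hxR : x ∈ ball p R := hbb2 hx.1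
    rw [lpψ x]
    have h3 := (G3 x hxR).1
    have h4 := (G1 x hxR).2.2.1
    have h5 : ‖x - p‖ < R / 2 := by
      have := hx.1
      rwa [mem_ball, dist_eq_norm] at this
    refine num (d := ‖x - p‖) hL hR hRL hK2 hK2n (hG.lF x hxR) (hG.lφ x hxR) hx.2.le
      ((le_abs_self _).trans h3) h5.le ?_
    rw [real_inner_self_eq_norm_sq]
    exact pow_le_pow_left₀ (by norm_num) h4 2
  -- the comparison function
  have hwψ : HasWG D ψ (gradient ψ) :=
    ((hWBA m D hDo).2.2.2.2.1) ψ ((cψ.of_le (by norm_num)).contDiffOn)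
  have hwψ' := (hWBA m D hDo).2.2.1 (-1) ψ (gradient ψ) hwψ
  have hwf : HasWG D f df := (hWBA m _ hAo).1 D f df hDo hDA hf.1
  have hwg := (hWBA m D hDo).2.1 f _ df _ hwf hwψ'
  have hsub : WSub D 0 (fun x => f x + (-1) * ψ x)
      (fun x => df x + (-1 : ℝ) • gradient ψ x) := by
    refine ⟨hwg, ?_⟩
    intro ξ dξ hξ hnn
    obtain ⟨-, -, -, E4, E5⟩ := hWEX m D ξ dξ hDo hξ
    obtain ⟨I1, I2, I3⟩ := hWIT m D ψ ξ dξ hDo cψ hξ
    have J1 := E5 f df hwf
    have z := hf.2 _ _ (E4 _ hAo hDA)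
    have z2 : ∫ x in D, inner ℝ (df x) (dξ x) = 0 := by
      rw [← z]
      have e : ∀ x, inner ℝ (df x) (D.indicator dξ x)
          = D.indicator (fun x => inner ℝ (df x) (dξ x)) x := by
        intro x
        by_cases hx : x ∈ D
        · simp [hx]
        · simp [hx]
      simp only [e]
      rw [setIntegral_indicator hDo.measurableSet, inter_eq_self_of_subset_right hDA]
    have e2 : ∀ x, inner ℝ (df x + (-1 : ℝ) • gradient ψ x) (dξ x)
        = inner ℝ (df x) (dξ x) - inner ℝ (gradient ψ x) (dξ x) := by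
      intro x
      rw [inner_add_left, inner_smul_left]
      simp [sub_eq_add_neg]
    simp only [e2]
    rw [integral_sub J1 I1, z2, I3, zero_mul, zero_sub, neg_neg]
    apply setIntegral_nonpos hDo.measurableSet
    intro x hx
    exact mul_nonpos_of_nonpos_of_nonneg (lpneg x hx) (hnn x hx)
  have hFb : ∀ x ∈ S, F x ≤ R := by
    intro x hx
    have h3 := (G3 x (hbb hx.1)).1
    have h5 : ‖x - p‖ ≤ R / 2 := by
      have := hx.1
      rwa [mem_closedBall, dist_eq_norm] at this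
    have := le_abs_self (F x)
    linarith
  have hFpos : ∀ x ∈ S, 0 ≤ K2 * R * F x + -K2 * (F x * F x) := by
    intro x hx
    have h1 := hFb x hx
    have h2 : 0 ≤ F x := hx.2
    have e : K2 * R * F x + -K2 * (F x * F x) = K2 * (F x * (R - F x)) := by ring
    rw [e]
    exact mul_nonneg hK2n (mul_nonneg h2 (by linarith))
  have hfr : ∀ x ∈ frontier D, f x + (-1) * ψ x ≤ 0 := by
    intro x hx
    have hxS : x ∈ S := hDS hx.1
    have hxD : x ∉ D := by
      have := hx.2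
      rwa [hDo.interior_eq] at this
    have hp := hFpos x hxS
    have hψx : ψ x = φ x + ((K2 * R) * F x + ((-K2) * (F x * F x) + K3 * ‖x - p‖ ^ 2)) := rfl
    rcases (show 0 ≤ F x from hxS.2).lt_or_eq with hlt | heq
    · have hxb : x ∉ ball p (R / 2) := fun h => hxD ⟨h, hlt⟩
      have hn : R / 2 ≤ ‖x - p‖ := by
        rw [mem_ball, dist_eq_norm, not_lt] at hxb
        exact hxb
      have h1 := hMb x hxS
      have h2 : M ≤ K3 * ‖x - p‖ ^ 2 := by
        have e : M = K3 * (R / 2) ^ 2 := by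
          rw [hK3]; field_simp
        calc M = K3 * (R / 2) ^ 2 := e
          _ ≤ K3 * ‖x - p‖ ^ 2 :=
            mul_le_mul_of_nonneg_left (pow_le_pow_left₀ (by positivity) hn 2) hK3n
      rw [hψx]
      linarith
    · have h1 := hle x (hbb hxS.1) heq.symm
      have h2 : 0 ≤ K3 * ‖x - p‖ ^ 2 := by positivity
      rw [hψx]
      linarith
  have main := hCMP m D (fun x => f x + (-1) * ψ x) _ hm hDo hDb
    (((hcf.mono (hDS.trans hSS))).add ((continuous_const.mul cψ.continuous).continuousOn))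
    hsub hfr
  -- conclusion
  refine ⟨1001 / 1000 * (K2 * R) + K3 * R, by positivity, ?_⟩
  intro x hx
  rcases (show 0 ≤ F x from hx.2).lt_or_eq with hlt | heq
  · have h1 := main x ⟨hx.1, hlt⟩
    have hψx : ψ x = φ x + ((K2 * R) * F x + ((-K2) * (F x * F x) + K3 * ‖x - p‖ ^ 2)) := rfl
    have h3 := (G3 x (hbb2 hx.1)).1
    have h3' := (le_abs_self (F x)).trans h3
    have h5 : ‖x - p‖ < R / 2 := by
      have := hx.1
      rwa [mem_ball, dist_eq_norm] at this
    have hn : 0 ≤ ‖x - p‖ := norm_nonneg _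
    have a1 : K2 * R * F x ≤ K2 * R * (1001 / 1000 * ‖x - p‖) :=
      mul_le_mul_of_nonneg_left h3' (by positivity)
    have a2 : 0 ≤ K2 * (F x * F x) := by positivity
    have a3 : K3 * ‖x - p‖ ^ 2 ≤ K3 * (R * ‖x - p‖) := by
      apply mul_le_mul_of_nonneg_left _ hK3n
      rw [pow_two]
      exact mul_le_mul_of_nonneg_right (by linarith) hn
    simp only [hψx] at h1
    nlinarith
  · have h1 := hle x (hbb2 hx.1) heq.symm
    have : 0 ≤ (1001 / 1000 * (K2 * R) + K3 * R) * ‖x - p‖ := by positivity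
    linarith

end Pool.Agent.COB
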