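import Pool.Agent.COB.Stmts

/-!
# Module BOO of squad COB: bootstrap over scales
-/

set_option autoImplicit false

namespace Pool.Agent.COB

open MeasureTheory Set Metric Filter Topology

namespace BOO_

theorem int_const {f : ℝ → ℝ} {ρ b D : ℝ} (hρ : 0 < ρ) (hb : ρ ≤ b) (hD : 0 ≤ D)
    (hf : IntervalIntegrable f volume ρ b) (h : ∀ s ∈ Icc ρ b, f s ≤ D) :
    ∫ s in ρ..b, f s ≤ D * b := by
  have h1 := intervalIntegral.integral_mono_on hb hf
    (intervalIntegrable_const (c := D)) h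
  rw [intervalIntegral.integral_const, smul_eq_mul] at h1
  nlinarith

theorem int_cube {f : ℝ → ℝ} {ρ b D : ℝ} (hρ : 0 < ρ) (hb : ρ ≤ b) (hD : 0 ≤ D)
    (hf : IntervalIntegrable f volume ρ b) (h : ∀ s ∈ Icc ρ b, f s ≤ D * (s ^ 3)⁻¹) :
    ∫ s in ρ..b, f s ≤ D * (ρ ^ 2)⁻¹ := by
  have hb0 : 0 < b := hρ.trans_le hb
  have hz : (0 : ℝ) ∉ uIcc ρ b := by
    rw [uIcc_of_le hb]
    exact fun h0 => absurd h0.1 (not_le.2 hρ)
  have hc : ContinuousOn (fun s : ℝ => D * (s ^ 3)⁻¹) (uIcc ρ b) := by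
    refine continuousOn_const.mul (ContinuousOn.inv₀ (by fun_prop) ?_)
    intro s hs h0
    have h0' : s = 0 := by simpa using h0
    rw [h0'] at hs
    exact hz hs
  have h1 := intervalIntegral.integral_mono_on hb hf hc.intervalIntegrable h
  rw [intervalIntegral.integral_const_mul] at h1
  have h2 : ∫ s in ρ..b, (s ^ 3)⁻¹ = ((ρ ^ 2)⁻¹ - (b ^ 2)⁻¹) / 2 := by
    have h3 : ∀ s : ℝ, (s ^ 3)⁻¹ = s ^ (-3 : ℤ) := fun s => by
      rw [zpow_neg]; norm_cast
    simp only [h3]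
    rw [integral_zpow (Or.inr ⟨by norm_num, hz⟩)]
    have h4 : ∀ s : ℝ, s ^ ((-3 : ℤ) + 1) = (s ^ 2)⁻¹ := fun s => by
      rw [show ((-3 : ℤ) + 1) = -2 by norm_num, zpow_neg]; norm_cast
    rw [h4, h4]
    norm_num
    ring
  rw [h2] at h1
  have h5 : 0 < (b ^ 2)⁻¹ := by positivity
  have h6 : 0 < (ρ ^ 2)⁻¹ := by positivity
  nlinarith

end BOO_

open BOO_ in
theorem boo_proof (_hGEF : Stmt_GEF) (hHMO : Stmt_HMO) (hGL1 : Stmt_GL1) (hTON : Stmt_TON)
    (hODD : Stmt_ODD) : Stmt_BOO := by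
  intro m F φ p R L i G dG H dH hm hGeo hO hY
  obtain ⟨Ch, hCh, hHM⟩ := hHMO m hm
  obtain ⟨Cg, hCg, κ, hκ, hGL⟩ := hGL1 m hm
  obtain ⟨c, hc, Co, hCo, hOD⟩ := hODD m hm
  have hR := hGeo.hR
  have hL : 0 < L := lt_of_lt_of_le one_pos hGeo.hL
  have hCh0 : 0 < Ch := lt_of_lt_of_le one_pos hCh
  have hmR : (0 : ℝ) < m := by exact_mod_cast hm
  -- the choice of the radius
  set q : ℝ := 2 ^ (m + 1) / c * Ch * (Co * (2 * m) * Ch) * L with hq
  have hq0 : 0 < q := by positivity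
  obtain ⟨r₀, hr₀, h32, hLκ, hL1, hq1⟩ : ∃ r₀ : ℝ, 0 < r₀ ∧ 32 * r₀ ≤ R ∧ L * r₀ ≤ κ ∧ L * r₀ ≤ 1 ∧
      q * r₀ ≤ 1 / 2 := by
    refine ⟨min (min (R / 32) (κ / L)) (min (1 / L) (1 / 2 / q)), by positivity, ?_, ?_, ?_, ?_⟩
    · have : min (min (R / 32) (κ / L)) (min (1 / L) (1 / 2 / q)) ≤ R / 32 :=
        (min_le_left _ _).trans (min_le_left _ _)
      linarith
    · have : min (min (R / 32) (κ / L)) (min (1 / L) (1 / 2 / q)) ≤ κ / L :=
        (min_le_left _ _).trans (min_le_right _ _)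
      calc _ ≤ L * (κ / L) := mul_le_mul_of_nonneg_left this hL.le
        _ = κ := by field_simp
    · have : min (min (R / 32) (κ / L)) (min (1 / L) (1 / 2 / q)) ≤ 1 / L :=
        (min_le_right _ _).trans (min_le_left _ _)
      calc _ ≤ L * (1 / L) := mul_le_mul_of_nonneg_left this hL.le
        _ = 1 := by field_simp
    · have : min (min (R / 32) (κ / L)) (min (1 / L) (1 / 2 / q)) ≤ 1 / 2 / q :=
        (min_le_right _ _).trans (min_le_right _ _)
      calc _ ≤ q * (1 / 2 / q) := mul_le_mul_of_nonneg_left this hq0.le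
        _ = 1 / 2 := by field_simp
  have hr₀R : r₀ < R := by linarith
  have hFc : Continuous F := hGeo.cF.continuous
  -- the functions
  set M : ℝ → ℝ := fun s => G (pN F p s) / s with hM
  set IG : ℝ → ℝ := fun s => ∫ x in Sd F (ball p s), G x with hIG
  set IH : ℝ → ℝ := fun s => ∫ x in Sd (fun x => -F x) (ball p s), H x with hIH
  have hMpos : ∀ s, 0 < s → s ≤ r₀ → 0 < M s := fun s hs hs' =>
    div_pos (hY s hs (by linarith)) hs
  have hMM : ∀ s r, 0 < s → s ≤ r → r ≤ r₀ → M r ≤ Ch * M s := fun s r hs hsr hr =>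
    hHM F φ p R L i G dG hGeo hO.hG hO.cG hO.nG s r hs hsr (by linarith)
  have hGi : IntegrableOn G (Sd F (ball p r₀)) :=
    (hGL F φ p R L i G dG hGeo hO.hG hO.eG hO.cG hO.nG r₀ hr₀ (by linarith) hLκ).1
  have hIGb : ∀ s, 0 < s → s ≤ r₀ → IG s ≤ Cg * s ^ (m + 1) * M s := by
    intro s hs hs'
    have h1 : L * s ≤ κ := (mul_le_mul_of_nonneg_left hs' hL.le).trans hLκ
    have h := (hGL F φ p R L i G dG hGeo hO.hG hO.eG hO.cG hO.nG s hs (by linarith) h1).2
    have e : Cg * s ^ (m + 1) * M s = Cg * s ^ m * G (pN F p s) := by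
      simp only [hM]
      rw [pow_succ]
      field_simp
    rw [e]
    exact h
  -- sets
  have hAm : MeasurableSet (Sd F (ball p r₀)) := by
    have : IsOpen (Sd F (ball p r₀)) := isOpen_ball.inter (isOpen_lt continuous_const hFc)
    exact this.measurableSet
  have hA'm : MeasurableSet (Sd (fun x => -F x) (ball p r₀)) := by
    have : IsOpen (Sd (fun x => -F x) (ball p r₀)) :=
      isOpen_ball.inter (isOpen_lt continuous_const hFc.neg)
    exact this.measurableSet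
  have hAb : Sd F (ball p r₀) ⊆ ball p r₀ := fun x hx => hx.1
  have hA'b : Sd (fun x => -F x) (ball p r₀) ⊆ ball p r₀ := fun x hx => hx.1
  have hballR : ball p r₀ ⊆ ball p R := ball_subset_ball hr₀R.le
  have hG0 : ∀ x ∈ Sd F (ball p r₀), 0 ≤ G x := fun x hx =>
    hO.nG x ⟨hballR hx.1, hx.2.le⟩
  have hH0 : ∀ x ∈ Sd (fun x => -F x) (ball p r₀), 0 ≤ H x := fun x hx =>
    hO.nH x ⟨hballR hx.1, hx.2.le⟩
  have hHi : IntegrableOn H (Sd (fun x => -F x) (ball p r₀)) := by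
    have hK : IsCompact {x | x ∈ closedBall p r₀ ∧ 0 ≤ -F x} :=
      (isCompact_closedBall p r₀).of_isClosed_subset
        (isClosed_closedBall.inter (isClosed_le continuous_const hFc.neg)) (fun x hx => hx.1)
    have hcont : ContinuousOn H {x | x ∈ closedBall p r₀ ∧ 0 ≤ -F x} :=
      hO.cH.mono fun x hx => ⟨closedBall_subset_ball hr₀R hx.1, hx.2⟩
    exact (hcont.integrableOn_compact hK).mono_set fun x hx =>
      ⟨ball_subset_closedBall hx.1, hx.2.le⟩
  have hcapS : ∀ (F' : E m → ℝ) (s : ℝ), s ≤ r₀ → Sd F' (ball p r₀) ∩ ball p s = Sd F' (ball p s) := by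
    intro F' s hs
    ext x
    constructor
    · rintro ⟨h1, h2⟩
      exact ⟨h2, h1.2⟩
    · rintro ⟨h1, h2⟩
      exact ⟨⟨ball_subset_ball hs h1, h2⟩, h1⟩
  have hcapL : ∀ (F' : E m → ℝ) (s : ℝ), r₀ ≤ s → Sd F' (ball p r₀) ∩ ball p s = Sd F' (ball p r₀) := by
    intro F' s hs
    exact inter_eq_left.2 fun x hx => ball_subset_ball hs hx.1
  have hIH0 : ∀ s, s ≤ r₀ → 0 ≤ IH s := by
    intro s hs
    have : MeasurableSet (Sd (fun x => -F x) (ball p s)) := by
      have h2 : IsOpen (Sd (fun x => -F x) (ball p s)) :=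
        isOpen_ball.inter (isOpen_lt continuous_const hFc.neg)
      exact h2.measurableSet
    exact setIntegral_nonneg this fun x hx => hH0 x ⟨ball_subset_ball hs hx.1, hx.2⟩
  have hIHmono : ∀ s, s ≤ r₀ → IH s ≤ IH r₀ := by
    intro s hs
    refine setIntegral_mono_set hHi ?_ ?_
    · filter_upwards [ae_restrict_mem hA'm] with x hx
      exact hH0 x hx
    · exact Eventually.of_forall fun x hx => ⟨ball_subset_ball hs hx.1, hx.2⟩
  obtain ⟨K, hKO⟩ := hOD F φ p R L i G dG H dH hGeo hO r₀ hr₀ (by linarith)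
  set a : ℝ := Cg * Ch with ha
  have ha0 : 0 < a := by positivity
  set K₃ : ℝ := m * (2 * r₀ * ((r₀ ^ (m + 1))⁻¹ * IH r₀)) + ((2 * r₀) ^ m)⁻¹ * IH r₀ with hK₃
  have hIHr : 0 ≤ IH r₀ := hIH0 r₀ le_rfl
  have hK₃0 : 0 ≤ K₃ := by positivity
  set K₄ : ℝ := Co * L * K₃ + |K| with hK₄
  have hK₄0 : 0 ≤ K₄ := by positivity
  set K₅ : ℝ := K₄ * Ch / M r₀ with hK₅
  have hMr : 0 < M r₀ := hMpos r₀ hr₀ le_rfl
  have hK₅0 : 0 ≤ K₅ := by positivity
  set B : ℝ := 2 ^ (m + 1) / c * Ch * (Co * (3 * m + 5) * a + K₅) with hB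
  have hB0 : 0 ≤ B := by positivity
  -- the main estimate
  have hmain : ∀ ρ N : ℝ, 0 < ρ → 2 * ρ ≤ r₀ → 0 ≤ N →
      (∀ s, ρ ≤ s → s ≤ r₀ → IH s ≤ N * (s ^ (m + 1) * M s)) →
      IH (ρ / 2) ≤ (B + N / 2) * ((ρ / 2) ^ (m + 1) * M (ρ / 2)) := by
    intro ρ N hρ hρr hN hind
    have hρr0 : ρ ≤ r₀ := by linarith
    have hρ2 : ρ ≤ 2 * r₀ := by linarith
    have hMρ : 0 < M ρ := hMpos ρ hρ hρr0
    -- bound of the integrals of `G`
    have hGs : ∀ s ∈ Icc ρ (2 * r₀), ∫ x in Sd F (ball p r₀) ∩ ball p s, G x ≤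
        a * M ρ * s ^ (m + 1) := by
      intro s hs
      have hs0 : 0 < s := hρ.trans_le hs.1
      rcases le_total s r₀ with h | h
      · rw [hcapS F s h]
        have h1 := hIGb s hs0 h
        have h2 := hMM ρ s hρ hs.1 h
        have h3 : 0 < Cg * s ^ (m + 1) := by positivity
        calc IG s ≤ Cg * s ^ (m + 1) * M s := h1
          _ ≤ Cg * s ^ (m + 1) * (Ch * M ρ) := mul_le_mul_of_nonneg_left h2 h3.le
          _ = a * M ρ * s ^ (m + 1) := by rw [ha]; ring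
      · rw [hcapL F s h]
        have h1 := hIGb r₀ hr₀ le_rfl
        have h2 := hMM ρ r₀ hρ hρr0 le_rfl
        have h3 : 0 < Cg * r₀ ^ (m + 1) := by positivity
        have h4 : r₀ ^ (m + 1) ≤ s ^ (m + 1) := pow_le_pow_left₀ hr₀.le h _
        calc IG r₀ ≤ Cg * r₀ ^ (m + 1) * M r₀ := h1
          _ ≤ Cg * r₀ ^ (m + 1) * (Ch * M ρ) := mul_le_mul_of_nonneg_left h2 h3.le
          _ = a * M ρ * r₀ ^ (m + 1) := by rw [ha]; ring
          _ ≤ a * M ρ * s ^ (m + 1) := mul_le_mul_of_nonneg_left h4 (by positivity)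
    have hGr : IG r₀ ≤ a * M ρ * r₀ ^ (m + 1) := by
      have h := hGs r₀ ⟨hρr0, by linarith⟩
      rwa [hcapL F r₀ le_rfl] at h
    -- E1
    have hE1 : ρ ^ 2 * ∫ x in Sd F (ball p r₀), G x * (J ρ p x ^ (m + 3))⁻¹ ≤ (m + 4) * (a * M ρ) := by
      obtain ⟨-, h2, h3⟩ := hTON m (m + 3) p r₀ ρ (Sd F (ball p r₀)) G hρ hρr0 hAm hAb hG0 hGi
      have h4 := int_cube hρ hρ2 (D := a * M ρ) (by positivity) h2 (by
        intro s hs
        have hs0 : 0 < s := hρ.trans_le hs.1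
        calc (s ^ (m + 3 + 1))⁻¹ * ∫ x in Sd F (ball p r₀) ∩ ball p s, G x
            ≤ (s ^ (m + 3 + 1))⁻¹ * (a * M ρ * s ^ (m + 1)) :=
              mul_le_mul_of_nonneg_left (hGs s hs) (by positivity)
          _ = a * M ρ * (s ^ 3)⁻¹ := by
              rw [show m + 3 + 1 = (m + 1) + 3 by ring, pow_add]
              field_simp)
      have h5 : ((2 * r₀) ^ (m + 3))⁻¹ * IG r₀ ≤ a * M ρ * (ρ ^ 2)⁻¹ := by
        calc ((2 * r₀) ^ (m + 3))⁻¹ * IG r₀ ≤ ((2 * r₀) ^ (m + 3))⁻¹ * (a * M ρ * r₀ ^ (m + 1)) :=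
              mul_le_mul_of_nonneg_left hGr (by positivity)
          _ ≤ (r₀ ^ (m + 3))⁻¹ * (a * M ρ * r₀ ^ (m + 1)) := by
              refine mul_le_mul_of_nonneg_right ?_ (by positivity)
              refine inv_anti₀ (by positivity) (pow_le_pow_left₀ hr₀.le (by linarith) _)
          _ = a * M ρ * (r₀ ^ 2)⁻¹ := by
              rw [show m + 3 = (m + 1) + 2 by ring, pow_add]
              field_simp
          _ ≤ a * M ρ * (ρ ^ 2)⁻¹ := by
              refine mul_le_mul_of_nonneg_left ?_ (by positivity)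
              exact inv_anti₀ (by positivity) (pow_le_pow_left₀ hρ.le hρr0 _)
      have h6 : ∫ x in Sd F (ball p r₀), G x * (J ρ p x ^ (m + 3))⁻¹ ≤
          (m + 4) * (a * M ρ * (ρ ^ 2)⁻¹) := by
        refine h3.trans ?_
        have h7 : (0 : ℝ) ≤ ((m + 3 : ℕ) : ℝ) := Nat.cast_nonneg _
        have h8 := mul_le_mul_of_nonneg_left h4 h7
        have h9 : ((m + 3 : ℕ) : ℝ) = m + 3 := by push_cast; ring
        rw [h9] at h8 ⊢
        have h10 := add_le_add h8 h5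
        refine h10.trans (le_of_eq ?_)
        ring
      calc ρ ^ 2 * ∫ x in Sd F (ball p r₀), G x * (J ρ p x ^ (m + 3))⁻¹
          ≤ ρ ^ 2 * ((m + 4) * (a * M ρ * (ρ ^ 2)⁻¹)) := mul_le_mul_of_nonneg_left h6 (by positivity)
        _ = (m + 4) * (a * M ρ) := by field_simp
    -- E2
    have hE2 : ∫ x in Sd F (ball p r₀), G x * (J ρ p x ^ m)⁻¹ ≤ (2 * m + 1) * r₀ * (a * M ρ) := by
      obtain ⟨-, h2, h3⟩ := hTON m m p r₀ ρ (Sd F (ball p r₀)) G hρ hρr0 hAm hAb hG0 hGi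
      have h4 := int_const hρ hρ2 (D := a * M ρ) (by positivity) h2 (by
        intro s hs
        have hs0 : 0 < s := hρ.trans_le hs.1
        calc (s ^ (m + 1))⁻¹ * ∫ x in Sd F (ball p r₀) ∩ ball p s, G x
            ≤ (s ^ (m + 1))⁻¹ * (a * M ρ * s ^ (m + 1)) :=
              mul_le_mul_of_nonneg_left (hGs s hs) (by positivity)
          _ = a * M ρ := by field_simp)
      have h5 : ((2 * r₀) ^ m)⁻¹ * IG r₀ ≤ r₀ * (a * M ρ) := by
        calc ((2 * r₀) ^ m)⁻¹ * IG r₀ ≤ ((2 * r₀) ^ m)⁻¹ * (a * M ρ * r₀ ^ (m + 1)) :=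
              mul_le_mul_of_nonneg_left hGr (by positivity)
          _ ≤ (r₀ ^ m)⁻¹ * (a * M ρ * r₀ ^ (m + 1)) := by
              refine mul_le_mul_of_nonneg_right ?_ (by positivity)
              refine inv_anti₀ (by positivity) (pow_le_pow_left₀ hr₀.le (by linarith) _)
          _ = r₀ * (a * M ρ) := by
              rw [pow_succ]
              field_simp
      have h8 := mul_le_mul_of_nonneg_left h4 hmR.le
      refine h3.trans ((add_le_add h8 h5).trans (le_of_eq ?_))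
      ring
    -- E3
    have hE3 : ∫ x in Sd (fun x => -F x) (ball p r₀), H x * (J ρ p x ^ m)⁻¹ ≤
        2 * m * r₀ * (N * (Ch * M ρ)) + K₃ := by
      obtain ⟨-, h2, h3⟩ := hTON m m p r₀ ρ (Sd (fun x => -F x) (ball p r₀)) H hρ hρr0 hA'm hA'b hH0 hHi
      have h4 := int_const hρ hρ2 (D := N * (Ch * M ρ) + (r₀ ^ (m + 1))⁻¹ * IH r₀) (by positivity) h2 (by
        intro s hs
        have hs0 : 0 < s := hρ.trans_le hs.1
        rcases le_total s r₀ with h | h
        · rw [hcapS _ s h]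
          have h5 := hind s hs.1 h
          have h6 := hMM ρ s hρ hs.1 h
          calc (s ^ (m + 1))⁻¹ * IH s ≤ (s ^ (m + 1))⁻¹ * (N * (s ^ (m + 1) * M s)) :=
                mul_le_mul_of_nonneg_left h5 (by positivity)
            _ = N * M s := by field_simp
            _ ≤ N * (Ch * M ρ) := mul_le_mul_of_nonneg_left h6 hN
            _ ≤ _ := le_add_of_nonneg_right (by positivity)
        · rw [hcapL _ s h]
          calc (s ^ (m + 1))⁻¹ * IH r₀ ≤ (r₀ ^ (m + 1))⁻¹ * IH r₀ := by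
                refine mul_le_mul_of_nonneg_right ?_ hIHr
                exact inv_anti₀ (by positivity) (pow_le_pow_left₀ hr₀.le h _)
            _ ≤ _ := le_add_of_nonneg_left (by positivity))
      have h8 := mul_le_mul_of_nonneg_left h4 hmR.le
      refine h3.trans ((add_le_add h8 le_rfl).trans (le_of_eq ?_))
      rw [hK₃]
      ring
    have hodd := hKO ρ hρ hρr
    have hK5 : K₄ ≤ K₅ * M ρ := by
      have h1 := hMM ρ r₀ hρ hρr0 le_rfl
      have h2 : K₅ * M ρ = K₄ * (Ch * M ρ / M r₀) := by rw [hK₅]; ring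
      rw [h2]
      refine le_mul_of_one_le_right hK₄0 ?_
      rwa [one_le_div hMr]
    have hsum : c * (ρ ^ (m + 1))⁻¹ * IH (ρ / 2) ≤
        (Co * (3 * m + 5) * a + K₅ + (Co * (2 * m) * Ch) * L * r₀ * N) * M ρ := by
      have h1 : Co * (ρ ^ 2 * ∫ x in Sd F (ball p r₀), G x * (J ρ p x ^ (m + 3))⁻¹) ≤
          Co * ((m + 4) * (a * M ρ)) := mul_le_mul_of_nonneg_left hE1 hCo.le
      have h2 : Co * L * ((∫ x in Sd F (ball p r₀), G x * (J ρ p x ^ m)⁻¹) +
          ∫ x in Sd (fun x => -F x) (ball p r₀), H x * (J ρ p x ^ m)⁻¹) ≤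
          Co * L * ((2 * m + 1) * r₀ * (a * M ρ) + (2 * m * r₀ * (N * (Ch * M ρ)) + K₃)) :=
        mul_le_mul_of_nonneg_left (add_le_add hE2 hE3) (by positivity)
      have h3 : Co * L * ((2 * m + 1) * r₀ * (a * M ρ)) ≤ Co * ((2 * m + 1) * (a * M ρ)) := by
        have h4 : Co * L * ((2 * m + 1) * r₀ * (a * M ρ)) = (L * r₀) * (Co * ((2 * m + 1) * (a * M ρ))) := by
          ring
        rw [h4]
        exact mul_le_of_le_one_left (by positivity) hL1
      have h5 : K ≤ |K| := le_abs_self K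
      have h6 : c * (ρ ^ (m + 1))⁻¹ * IH (ρ / 2) ≤ Co * ((m + 4) * (a * M ρ)) +
          (Co * ((2 * m + 1) * (a * M ρ)) + Co * L * (2 * m * r₀ * (N * (Ch * M ρ)))) + K₄ := by
        rw [hK₄]
        have h7 : Co * L * ((2 * m + 1) * r₀ * (a * M ρ) + (2 * m * r₀ * (N * (Ch * M ρ)) + K₃)) =
            Co * L * ((2 * m + 1) * r₀ * (a * M ρ)) + Co * L * (2 * m * r₀ * (N * (Ch * M ρ))) +
            Co * L * K₃ := by ring
        rw [h7] at h2
        linarith
      refine h6.trans ?_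
      have h8 : (Co * (3 * m + 5) * a + K₅ + (Co * (2 * m) * Ch) * L * r₀ * N) * M ρ =
          Co * ((m + 4) * (a * M ρ)) + (Co * ((2 * m + 1) * (a * M ρ)) +
            Co * L * (2 * m * r₀ * (N * (Ch * M ρ)))) + K₅ * M ρ := by ring
      rw [h8]
      linarith
    have hMhalf : M ρ ≤ Ch * M (ρ / 2) := hMM (ρ / 2) ρ (by positivity) (by linarith) hρr0
    have hMhpos : 0 < M (ρ / 2) := hMpos _ (by positivity) (by linarith)
    have hco0 : 0 ≤ Co * (3 * m + 5) * a + K₅ + (Co * (2 * m) * Ch) * L * r₀ * N := by positivity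
    have h1 : c * (ρ ^ (m + 1))⁻¹ * IH (ρ / 2) ≤
        (Co * (3 * m + 5) * a + K₅ + (Co * (2 * m) * Ch) * L * r₀ * N) * (Ch * M (ρ / 2)) :=
      hsum.trans (mul_le_mul_of_nonneg_left hMhalf hco0)
    have h2 : IH (ρ / 2) = (ρ / 2) ^ (m + 1) * (2 ^ (m + 1) / c) * (c * (ρ ^ (m + 1))⁻¹ * IH (ρ / 2)) := by
      rw [div_pow]
      field_simp
    have h3 : (ρ / 2) ^ (m + 1) * (2 ^ (m + 1) / c) * (c * (ρ ^ (m + 1))⁻¹ * IH (ρ / 2)) ≤
        (ρ / 2) ^ (m + 1) * (2 ^ (m + 1) / c) *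
        ((Co * (3 * m + 5) * a + K₅ + (Co * (2 * m) * Ch) * L * r₀ * N) * (Ch * M (ρ / 2))) :=
      mul_le_mul_of_nonneg_left h1 (by positivity)
    rw [h2]
    refine h3.trans ?_
    have h4 : (ρ / 2) ^ (m + 1) * (2 ^ (m + 1) / c) *
        ((Co * (3 * m + 5) * a + K₅ + (Co * (2 * m) * Ch) * L * r₀ * N) * (Ch * M (ρ / 2))) =
        (B + (q * r₀) * N) * ((ρ / 2) ^ (m + 1) * M (ρ / 2)) := by
      rw [hB, hq]
      ring
    rw [h4]
    refine mul_le_mul_of_nonneg_right ?_ (by positivity)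
    have h5 : (q * r₀) * N ≤ 1 / 2 * N := mul_le_mul_of_nonneg_right hq1 hN
    linarith
  -- the start
  set N₀ : ℝ := ((r₀ / 4) ^ (m + 1))⁻¹ * IH r₀ * Ch / M r₀ with hN₀
  have hN₀0 : 0 ≤ N₀ := by positivity
  have hstart : ∀ s, r₀ / 4 ≤ s → s ≤ r₀ → IH s ≤ N₀ * (s ^ (m + 1) * M s) := by
    intro s hs hs'
    have hs0 : 0 < s := lt_of_lt_of_le (by positivity) hs
    have h1 := hIHmono s hs'
    have h2 := hMM s r₀ hs0 hs' le_rfl
    have h3 : (r₀ / 4) ^ (m + 1) ≤ s ^ (m + 1) := pow_le_pow_left₀ (by positivity) hs _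
    have hMs := hMpos s hs0 hs'
    have h4 : N₀ * (s ^ (m + 1) * M s) =
        IH r₀ * ((s ^ (m + 1) * ((r₀ / 4) ^ (m + 1))⁻¹) * (Ch * M s / M r₀)) := by
      rw [hN₀]; ring
    rw [h4]
    refine h1.trans (le_mul_of_one_le_right hIHr ?_)
    have h5 : 1 ≤ s ^ (m + 1) * ((r₀ / 4) ^ (m + 1))⁻¹ := by
      rw [← div_eq_mul_inv, one_le_div (by positivity)]
      exact h3
    have h6 : 1 ≤ Ch * M s / M r₀ := by rwa [one_le_div hMr]
    exact one_le_mul_of_one_le_of_one_le h5 h6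
  set N : ℝ := max N₀ (2 * B) with hN
  have hNN₀ : N₀ ≤ N := le_max_left _ _
  have hNB : 2 * B ≤ N := le_max_right _ _
  have hN0 : 0 ≤ N := hN₀0.trans hNN₀
  have hall : ∀ k : ℕ, ∀ s, r₀ / 2 ^ (k + 2) ≤ s → s ≤ r₀ → IH s ≤ N * (s ^ (m + 1) * M s) := by
    intro k
    induction k with
    | zero =>
      intro s hs hs'
      have hs0 : 0 < s := lt_of_lt_of_le (by positivity) hs
      have h1 := hstart s (by norm_num at hs; exact hs) hs'
      have hMs := hMpos s hs0 hs'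
      exact h1.trans (mul_le_mul_of_nonneg_right hNN₀ (by positivity))
    | succ k ih =>
      intro s hs hs'
      have hs0 : 0 < s := lt_of_lt_of_le (by positivity) hs
      by_cases hcase : r₀ / 2 ^ (k + 2) ≤ s
      · exact ih s hcase hs'
      · push Not at hcase
        have h4 : r₀ / 2 ^ (k + 2) ≤ r₀ / 4 := by
          refine div_le_div_of_nonneg_left hr₀.le (by norm_num) ?_
          calc (4 : ℝ) = 2 ^ 2 := by norm_num
            _ ≤ 2 ^ (k + 2) := pow_le_pow_right₀ (by norm_num) (by omega)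
        have h5 : r₀ / 2 ^ (k + 2) ≤ 2 * s := by
          have h6 : r₀ / 2 ^ (k + 1 + 2) = r₀ / 2 ^ (k + 2) / 2 := by
            rw [show k + 1 + 2 = (k + 2) + 1 by ring, pow_succ]
            field_simp
          rw [h6] at hs
          linarith
        have h6 := hmain (2 * s) N (by positivity) (by linarith) hN0
          (fun t ht ht' => ih t (h5.trans ht) ht')
        have h7 : 2 * s / 2 = s := by ring
        rw [h7] at h6
        have hMs := hMpos s hs0 hs'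
        refine h6.trans (mul_le_mul_of_nonneg_right ?_ (by positivity))
        linarith
  have hfin : ∀ s, 0 < s → s ≤ r₀ → IH s ≤ N * (s ^ (m + 1) * M s) := by
    intro s hs hs'
    obtain ⟨k, hk⟩ := exists_pow_lt_of_lt_one (div_pos hs hr₀) (by norm_num : (1 / 2 : ℝ) < 1)
    refine hall k s ?_ hs'
    have h1 : r₀ * (1 / 2) ^ k < s := by
      rw [lt_div_iff₀ hr₀] at hk
      linarith
    have h2 : r₀ / 2 ^ (k + 2) ≤ r₀ * (1 / 2) ^ k := by
      rw [one_div, inv_pow, ← div_eq_mul_inv]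
      refine div_le_div_of_nonneg_left hr₀.le (by positivity) ?_
      exact pow_le_pow_right₀ (by norm_num) (by omega)
    linarith
  refine ⟨max (Ch / M r₀) N, lt_max_of_lt_left (by positivity), r₀, hr₀, h32, fun r hr hr' => ⟨?_, ?_⟩⟩
  · have hYr : 0 < G (pN F p r) := hY r hr (by linarith)
    have h1 := hMM r r₀ hr hr' le_rfl
    have h2 : r ≤ Ch / M r₀ * G (pN F p r) := by
      have h3 : Ch / M r₀ * G (pN F p r) = r * (Ch * M r / M r₀) := by
        simp only [hM]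
        field_simp
      rw [h3]
      refine le_mul_of_one_le_right hr.le ?_
      rwa [one_le_div hMr]
    exact h2.trans (mul_le_mul_of_nonneg_right (le_max_left _ _) hYr.le)
  · have hYr : 0 < G (pN F p r) := hY r hr (by linarith)
    have h1 := hfin r hr hr'
    have h2 : N * (r ^ (m + 1) * M r) = N * (r ^ m * G (pN F p r)) := by
      simp only [hM]
      rw [pow_succ]
      field_simp
    rw [h2] at h1
    calc IH r ≤ N * (r ^ m * G (pN F p r)) := h1
      _ ≤ max (Ch / M r₀) N * (r ^ m * G (pN F p r)) :=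
          mul_le_mul_of_nonneg_right (le_max_right _ _) (by positivity)
      _ = _ := by ring

end Pool.Agent.COB
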