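import Pool.Agent.COB.Stmts

set_option autoImplicit false

namespace Pool.Agent.COB

open MeasureTheory Set Metric Filter Topology
open scoped ENNReal

namespace BR2_

lemma mono_eq {Q : ℕ} {a b : Fin Q → ℝ} (ha : Monotone a) (hb : Monotone b)
    (h : Multiset.map a Finset.univ.val = Multiset.map b Finset.univ.val) : a = b := by
  have key : ∀ c : Fin Q → ℝ, Multiset.map c Finset.univ.val = (List.ofFn c : Multiset ℝ) := by
    intro c
    rw [List.ofFn_eq_map]
    rfl
  rw [key a, key b] at h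
  have hp : (List.ofFn a).Perm (List.ofFn b) := Multiset.coe_eq_coe.mp h
  exact List.ofFn_injective (hp.eq_of_sortedLE ha.sortedLE_ofFn hb.sortedLE_ofFn)

lemma srt_tup (hS : Stmt_SRT) {Q : ℕ} (a : Fin Q → ℝ) (ha : Monotone a) : srt (tup a) = a := by
  obtain ⟨h1, h2, -⟩ := (hS Q).1 (tup a)
  exact mono_eq h1 ha (congrArg (fun s : Sym ℝ Q => s.1) h2)

/-- distance function of the sorted sheets -/
noncomputable def fT {Q : ℕ} (u : Fin Q → ℝ) (T : Fin Q → ℝ) : ℝ :=
  Real.sqrt (∑ i, (u i - T i) ^ 2)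

lemma fT_sq {Q : ℕ} (u T : Fin Q → ℝ) : fT u T ^ 2 = ∑ i, (u i - T i) ^ 2 := by
  unfold fT
  exact Real.sq_sqrt (Finset.sum_nonneg fun i _ => sq_nonneg _)

lemma GG_eq (hS : Stmt_SRT) {Q : ℕ} (S : Sym ℝ Q) (T : Fin Q → ℝ) (hT : Monotone T) :
    GG S (tup T) = fT (srt S) T := by
  rw [(hS Q).2.1 S (tup T), srt_tup hS T hT]
  rfl

lemma fd_sq {n : ℕ} (T y : Fin n → ℝ) (i : Fin n) :
    fderiv ℝ (fun y : Fin n → ℝ => ∑ l, (y l - T l) ^ 2) y (Pi.single i 1) = 2 * (y i - T i) := by
  have h : HasFDerivAt (fun y : Fin n → ℝ => ∑ l, (y l - T l) ^ 2)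
      (∑ l, (2 * (y l - T l)) • (ContinuousLinearMap.proj l : (Fin n → ℝ) →L[ℝ] ℝ)) y := by
    apply HasFDerivAt.fun_sum
    intro l _
    have h1 : HasFDerivAt (fun y : Fin n → ℝ => y l - T l)
        (ContinuousLinearMap.proj l : (Fin n → ℝ) →L[ℝ] ℝ) y :=
      (ContinuousLinearMap.proj l : (Fin n → ℝ) →L[ℝ] ℝ).hasFDerivAt.sub_const _
    have h2 := h1.pow 2
    simpa using h2
  rw [h.fderiv]
  simp [Pi.single_apply]

lemma cd_sq {n : ℕ} (T : Fin n → ℝ) :
    ContDiffOn ℝ 1 (fun y : Fin n → ℝ => ∑ l, (y l - T l) ^ 2) univ := by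
  apply ContDiff.contDiffOn
  fun_prop

/-- pointwise algebra -/
lemma pointwise {Q : ℕ} (u p : Fin Q → ℝ) (H : ℝ) (hu : Monotone u)
    (h1 : ∀ T : Fin Q → ℝ, Monotone T → |∑ i, (u i - T i) * p i| ≤ H * fT u T)
    (h2 : ∀ i l, u i = u l → p i = p l) : ∑ i, p i ^ 2 ≤ H ^ 2 := by
  -- small tau
  obtain ⟨τ, hτ, hmono⟩ : ∃ τ : ℝ, 0 < τ ∧ Monotone (fun i => u i - τ * p i) := by
    have hex : ∀ q : Fin Q × Fin Q, ∃ τ : ℝ, 0 < τ ∧ ∀ t, 0 < t → t ≤ τ → q.1 ≤ q.2 →
        u q.1 - t * p q.1 ≤ u q.2 - t * p q.2 := by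
      rintro ⟨i, l⟩
      by_cases hil : i ≤ l
      · rcases (hu hil).eq_or_lt with he | hlt
        · refine ⟨1, one_pos, fun t _ _ _ => ?_⟩
          simp only
          rw [h2 i l he, he]
        · refine ⟨(u l - u i) / (|p l - p i| + 1), by
            apply div_pos (by linarith) (by positivity), fun t ht htt _ => ?_⟩
          simp only
          have hpos : 0 < |p l - p i| + 1 := by positivity
          have h3 : t * (|p l - p i| + 1) ≤ u l - u i := by
            rwa [le_div_iff₀ hpos] at htt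
          have h4 : t * (p l - p i) ≤ t * |p l - p i| :=
            mul_le_mul_of_nonneg_left (le_abs_self _) ht.le
          nlinarith
      · exact ⟨1, one_pos, fun t _ _ h => absurd h hil⟩
    choose τ0 hτ0 hτ1 using hex
    rcases isEmpty_or_nonempty (Fin Q × Fin Q) with hE | hN
    · refine ⟨1, one_pos, fun i l _ => ?_⟩
      exact (hE.false (i, l)).elim
    · obtain ⟨q0, hq0⟩ := Finite.exists_min τ0
      refine ⟨τ0 q0, hτ0 q0, fun i l hil => ?_⟩
      exact hτ1 (i, l) _ (hτ0 q0) (hq0 _) hil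
  have h3 := h1 _ hmono
  have e1 : ∑ i, (u i - (u i - τ * p i)) * p i = τ * ∑ i, p i ^ 2 := by
    rw [Finset.mul_sum]
    exact Finset.sum_congr rfl fun i _ => by ring
  have hnn : 0 ≤ ∑ i, p i ^ 2 := Finset.sum_nonneg fun i _ => sq_nonneg _
  have e2 : fT u (fun i => u i - τ * p i) = τ * Real.sqrt (∑ i, p i ^ 2) := by
    unfold fT
    have : ∑ i, (u i - (u i - τ * p i)) ^ 2 = τ ^ 2 * ∑ i, p i ^ 2 := by
      rw [Finset.mul_sum]
      exact Finset.sum_congr rfl fun i _ => by ring
    rw [this, Real.sqrt_mul (sq_nonneg _), Real.sqrt_sq hτ.le]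
  rw [e1, e2, abs_of_nonneg (mul_nonneg hτ.le hnn)] at h3
  set s := Real.sqrt (∑ i, p i ^ 2) with hs
  have hs0 : 0 ≤ s := Real.sqrt_nonneg _
  have hss : ∑ i, p i ^ 2 = s ^ 2 := (Real.sq_sqrt hnn).symm
  rw [hss] at h3 ⊢
  have h4 : s ^ 2 ≤ H * s := by
    have : τ * s ^ 2 ≤ τ * (H * s) := by linarith
    exact le_of_mul_le_mul_left this hτ
  rcases hs0.eq_or_lt with h0 | h0
  · rw [← h0]
    nlinarith [sq_nonneg H]
  · have h5 : s ≤ H := by
      have : s * s ≤ H * s := by nlinarith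
      exact le_of_mul_le_mul_right this h0
    nlinarith

/-- density of the rational sorted tuples -/
lemma dense_step {Q : ℕ} (u p : Fin Q → ℝ) (H : ℝ)
    (h1 : ∀ (N : ℕ) (z : Fin Q → ℤ), Monotone z →
      |∑ i, (u i - (z i : ℝ) / (N + 1)) * p i| ≤ H * fT u (fun i => (z i : ℝ) / (N + 1))) :
    ∀ T : Fin Q → ℝ, Monotone T → |∑ i, (u i - T i) * p i| ≤ H * fT u T := by
  intro T hT
  have hz : ∀ N : ℕ, Monotone (fun i => ⌊(N + 1 : ℝ) * T i⌋) := by
    intro N i l hil
    apply Int.floor_mono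
    exact mul_le_mul_of_nonneg_left (hT hil) (by positivity)
  have hlim : Tendsto (fun N : ℕ => fun i => ((⌊(N + 1 : ℝ) * T i⌋ : ℤ) : ℝ) / (N + 1)) atTop
      (𝓝 T) := by
    rw [tendsto_pi_nhds]
    intro i
    have h2 : Tendsto (fun N : ℕ => (1 : ℝ) / ((N : ℝ) + 1)) atTop (𝓝 0) :=
      tendsto_one_div_add_atTop_nhds_zero_nat
    have h3 : Tendsto (fun N : ℕ => T i - (1 : ℝ) / ((N : ℝ) + 1)) atTop (𝓝 (T i)) := by
      simpa using tendsto_const_nhds.sub h2
    apply tendsto_of_tendsto_of_tendsto_of_le_of_le h3 tendsto_const_nhds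
    · intro N
      have hp : (0 : ℝ) < (N : ℝ) + 1 := by positivity
      have := Int.sub_one_lt_floor ((N + 1 : ℝ) * T i)
      simp only
      rw [le_div_iff₀ hp, sub_mul, div_mul_cancel₀ _ hp.ne']
      linarith
    · intro N
      have hp : (0 : ℝ) < (N : ℝ) + 1 := by positivity
      have := Int.floor_le ((N + 1 : ℝ) * T i)
      simp only
      rw [div_le_iff₀ hp]
      linarith
  have hL : Continuous (fun T : Fin Q → ℝ => |∑ i, (u i - T i) * p i|) := by fun_prop
  have hR : Continuous (fun T : Fin Q → ℝ => H * fT u T) := by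
    unfold fT
    fun_prop
  exact le_of_tendsto_of_tendsto' ((hL.tendsto T).comp hlim) ((hR.tendsto T).comp hlim)
    (fun N => h1 N _ (hz N))

end BR2_

open BR2_

theorem br2_proof (hSRT : Stmt_SRT) (hDBW : Stmt_DBW) (hWBA : Stmt_WBA) (hWUN : Stmt_WUN)
    (hWCH : Stmt_WCH) (hWPP : Stmt_WPP) : Stmt_BR2 := by
  intro m Q U g hU hg hfin
  obtain ⟨hcu, hcG⟩ := (hSRT Q).2.2.2.1 m U g hg
  have hmonou : ∀ x, Monotone (srt (g x)) := fun x => ((hSRT Q).1 (g x)).1
  -- weak gradients of the distance functions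
  have hD : ∀ h : Fin m → E m → ℝ≥0∞, Adm U g h → ∫⁻ x in U, ∑ j, h j x ^ 2 < ⊤ →
      ∀ T : Fin Q → ℝ, Monotone T → ∃ G : E m → E m,
        HasWG U (fun x => fT (srt (g x)) T) G ∧
        ∀ᵐ x : E m, x ∈ U → ∀ j, ENNReal.ofReal |G x j| ≤ h j x := by
    intro h hA hf T hT
    obtain ⟨G, hG1, -, hG3⟩ := hDBW m U (fun x => GG (g x) (tup T)) h hU (hcG (tup T)) hA.1 hf
      (fun j => hA.2 (tup T) j)
    refine ⟨G, ?_, hG3⟩
    have : (fun x => GG (g x) (tup T)) = (fun x => fT (srt (g x)) T) := by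
      funext x
      exact GG_eq hSRT _ _ hT
    rwa [this] at hG1
  -- an admissible family with finite energy
  obtain ⟨h0, hA0, hf0⟩ : ∃ h, Adm U g h ∧ ∫⁻ x in U, ∑ j, h j x ^ 2 < ⊤ := by
    unfold energy at hfin
    simp only [iInf_lt_iff] at hfin
    obtain ⟨h, hA, hf⟩ := hfin
    exact ⟨h, hA, hf⟩
  -- weak gradients of the sheets
  have hsheet : ∀ i, ∃ dgi : E m → E m, HasWG U (fun x => srt (g x) i) dgi := by
    intro i
    have hT1 : Monotone (fun l : Fin Q => if i ≤ l then (1 : ℝ) else 0) := by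
      intro a b hab
      simp only
      split_ifs with h1 h2 h2
      · exact le_refl _
      · exact absurd (h1.trans hab) h2
      · norm_num
      · exact le_refl _
    have hT2 : Monotone (fun l : Fin Q => if i < l then (1 : ℝ) else 0) := by
      intro a b hab
      simp only
      split_ifs with h1 h2 h2
      · exact le_refl _
      · exact absurd (h1.trans_le hab) h2
      · norm_num
      · exact le_refl _
    obtain ⟨G1, hG1, -⟩ := hD h0 hA0 hf0 _ hT1
    obtain ⟨G2, hG2, -⟩ := hD h0 hA0 hf0 _ hT2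
    have hc := hWCH m 2 U ![fun x => fT (srt (g x)) (fun l : Fin Q => if i ≤ l then (1 : ℝ) else 0),
      fun x => fT (srt (g x)) (fun l : Fin Q => if i < l then (1 : ℝ) else 0)] ![G1, G2] univ
      (fun y => (1 + y 1 ^ 2 - y 0 ^ 2) / 2) hU isOpen_univ (by
        apply ContDiff.contDiffOn
        fun_prop) (by
        intro l
        fin_cases l
        · exact hG1
        · exact hG2) (fun _ _ => mem_univ _)
    refine ⟨_, ((hWBA m U hU).2.2.2.1 _ _ _ _ hc ?_ (EventuallyEq.refl _ _))⟩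
    intro x _
    simp only [Matrix.cons_val_zero, Matrix.cons_val_one]
    rw [fT_sq, fT_sq]
    have e : ∑ l, (srt (g x) l - (if i < l then (1 : ℝ) else 0)) ^ 2 -
        ∑ l, (srt (g x) l - (if i ≤ l then (1 : ℝ) else 0)) ^ 2 = 2 * srt (g x) i - 1 := by
      rw [← Finset.sum_sub_distrib, Finset.sum_eq_single i]
      · simp
        ring
      · intro b _ hb
        by_cases h1 : i < b
        · simp [h1, h1.le]
        · have h2 : ¬ i ≤ b := fun h2 => h1 (lt_of_le_of_ne h2 (Ne.symm hb))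
          simp [h1, h2]
      · intro h
        exact absurd (Finset.mem_univ _) h
    linarith
  choose dg hdg using hsheet
  -- the key estimate
  have hkey : ∀ h : Fin m → E m → ℝ≥0∞, Adm U g h → ∫⁻ x in U, ∑ j, h j x ^ 2 < ⊤ →
      ∀ᵐ x : E m, x ∈ U → ENNReal.ofReal (∑ i, ‖dg i x‖ ^ 2) ≤ ∑ j, h j x ^ 2 := by
    intro h hA hf
    have hhfin : ∀ᵐ x : E m, x ∈ U → ∑ j, h j x ^ 2 < ⊤ := by
      have := ae_lt_top (μ := volume.restrict U) (f := fun x => ∑ j, h j x ^ 2)
        (Finset.measurable_sum _ fun j _ => (hA.1 j).pow_const 2) hf.ne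
      rwa [ae_restrict_iff' hU.measurableSet] at this
    have hT : ∀ T : Fin Q → ℝ, Monotone T → ∀ᵐ x : E m, x ∈ U → ∀ j,
        |∑ i, (srt (g x) i - T i) * dg i x j| ≤ (h j x).toReal * fT (srt (g x)) T := by
      intro T hTm
      obtain ⟨G, hG, hGb⟩ := hD h hA hf T hTm
      have hc1 := hWCH m 1 U (fun _ x => fT (srt (g x)) T) (fun _ => G) univ
        (fun y => ∑ l, (y l - (0 : Fin 1 → ℝ) l) ^ 2) hU isOpen_univ (cd_sq 0) (fun _ => hG)
        (fun _ _ => mem_univ _)
      have hc2 := hWCH m Q U (fun i x => srt (g x) i) dg univ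
        (fun y => ∑ l, (y l - T l) ^ 2) hU isOpen_univ (cd_sq T) hdg
        (fun _ _ => mem_univ _)
      have he := hWUN m U _ _ _ _ hU hc1 hc2 (by
        intro x _
        have : ∑ l : Fin 1, (fT (srt (g x)) T - (0 : Fin 1 → ℝ) l) ^ 2 =
            fT (srt (g x)) T ^ 2 := by simp
        simp only [this]
        exact fT_sq _ _)
      rw [Filter.EventuallyEq, ae_restrict_iff' hU.measurableSet] at he
      filter_upwards [he, hGb, hhfin] with x h1 h2 h3 hx j
      have h1 := h1 hx
      have h2 := h2 hx j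
      have h3 := h3 hx
      simp only [fd_sq] at h1
      have h1j := congrArg (fun v : E m => v j) h1
      simp only [Fin.sum_univ_one, Pi.zero_apply, sub_zero] at h1j
      have hsum : (∑ i, (2 * (srt (g x) i - T i)) • dg i x) j =
          ∑ i, (2 * (srt (g x) i - T i)) * dg i x j := by
        simp
      rw [hsum] at h1j
      have h1k : 2 * fT (srt (g x)) T * G x j =
          2 * ∑ i, (srt (g x) i - T i) * dg i x j := by
        rw [Finset.mul_sum]
        have e3 : ((2 * fT (srt (g x)) T) • G x) j = 2 * fT (srt (g x)) T * G x j := by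
          simp
        rw [← e3, h1j]
        exact Finset.sum_congr rfl fun i _ => by ring
      have h1l : ∑ i, (srt (g x) i - T i) * dg i x j = fT (srt (g x)) T * G x j := by linarith
      have hjt : h j x ≠ ⊤ := by
        intro hj
        have : h j x ^ 2 ≤ ∑ j, h j x ^ 2 :=
          Finset.single_le_sum (f := fun j => h j x ^ 2) (fun _ _ => zero_le) (Finset.mem_univ j)
        rw [hj, ENNReal.top_pow two_ne_zero] at this
        exact h3.ne (top_le_iff.mp this)
      have h2' : |G x j| ≤ (h j x).toReal := by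
        exact (ENNReal.ofReal_le_iff_le_toReal hjt).mp h2
      rw [h1l, abs_mul, mul_comm (h j x).toReal]
      have hfn : 0 ≤ fT (srt (g x)) T := Real.sqrt_nonneg _
      rw [abs_of_nonneg hfn]
      exact mul_le_mul_of_nonneg_left h2' hfn
    have hTall : ∀ᵐ x : E m, ∀ (N : ℕ) (z : Fin Q → ℤ), Monotone z → x ∈ U → ∀ j,
        |∑ i, (srt (g x) i - (z i : ℝ) / (N + 1)) * dg i x j| ≤
          (h j x).toReal * fT (srt (g x)) (fun i => (z i : ℝ) / (N + 1)) := by
      rw [ae_all_iff]
      intro N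
      rw [ae_all_iff]
      intro z
      by_cases hz : Monotone z
      · have hm : Monotone (fun i => (z i : ℝ) / ((N : ℝ) + 1)) := by
          intro a b hab
          have h5 : (z a : ℝ) ≤ z b := by exact_mod_cast hz hab
          exact div_le_div_of_nonneg_right h5 (by positivity)
        filter_upwards [hT _ hm] with x hx _
        exact hx
      · exact Eventually.of_forall fun x h => absurd h hz
    have hEq : ∀ᵐ x : E m, ∀ i l, x ∈ U → srt (g x) i = srt (g x) l → dg i x = dg l x := by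
      rw [ae_all_iff]
      intro i
      rw [ae_all_iff]
      intro l
      have hd := (hWBA m U hU).2.1 _ _ _ _ (hdg i) ((hWBA m U hU).2.2.1 (-1) _ _ (hdg l))
      have hp := (hWPP m U _ _ hU hd).2
      filter_upwards [hp] with x hx hxU he
      have := hx hxU (by rw [he]; ring)
      have h6 : dg i x - dg l x = 0 := by
        rw [← this]
        simp [sub_eq_add_neg]
      exact sub_eq_zero.mp h6
    filter_upwards [hTall, hEq, hhfin] with x h1 h2 h3 hx
    have h3 := h3 hx
    have hj : ∀ j, ∑ i, (dg i x j) ^ 2 ≤ (h j x).toReal ^ 2 := by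
      intro j
      apply pointwise (fun i => srt (g x) i) (fun i => dg i x j) _ (hmonou x)
      · apply dense_step
        intro N z hz
        exact h1 N z hz hx j
      · intro i l hil
        simp only
        rw [h2 i l hx hil]
    have hjt : ∀ j, h j x ≠ ⊤ := by
      intro j hj
      have : h j x ^ 2 ≤ ∑ j, h j x ^ 2 :=
        Finset.single_le_sum (f := fun j => h j x ^ 2) (fun _ _ => zero_le) (Finset.mem_univ j)
      rw [hj, ENNReal.top_pow two_ne_zero] at this
      exact h3.ne (top_le_iff.mp this)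
    have e1 : ∑ i, ‖dg i x‖ ^ 2 = ∑ j, ∑ i, (dg i x j) ^ 2 := by
      rw [Finset.sum_comm]
      refine Finset.sum_congr rfl fun i _ => ?_
      rw [EuclideanSpace.real_norm_sq_eq]
    rw [e1]
    calc ENNReal.ofReal (∑ j, ∑ i, (dg i x j) ^ 2) ≤
        ENNReal.ofReal (∑ j, (h j x).toReal ^ 2) :=
          ENNReal.ofReal_le_ofReal (Finset.sum_le_sum fun j _ => hj j)
      _ = ∑ j, h j x ^ 2 := by
          rw [ENNReal.ofReal_sum_of_nonneg fun j _ => sq_nonneg _]
          refine Finset.sum_congr rfl fun j _ => ?_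
          rw [ENNReal.ofReal_pow ENNReal.toReal_nonneg, ENNReal.ofReal_toReal (hjt j)]
  -- integrability
  have hint : ∀ i, IntegrableOn (fun x => ‖dg i x‖ ^ 2) U := by
    intro i
    refine ⟨((hdg i).meas.norm.pow 2), ?_⟩
    rw [hasFiniteIntegral_iff_ofReal (Eventually.of_forall fun x => sq_nonneg _)]
    refine lt_of_le_of_lt ?_ hf0
    apply lintegral_mono_ae
    rw [ae_restrict_iff' hU.measurableSet]
    filter_upwards [hkey h0 hA0 hf0] with x hx hxU
    refine le_trans (ENNReal.ofReal_le_ofReal ?_) (hx hxU)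
    exact Finset.single_le_sum (f := fun i => ‖dg i x‖ ^ 2) (fun _ _ => sq_nonneg _)
      (Finset.mem_univ i)
  refine ⟨dg, hdg, hint, ?_⟩
  unfold energy
  refine le_iInf₂ fun h hA => ?_
  by_cases hf : ∫⁻ x in U, ∑ j, h j x ^ 2 < ⊤
  · rw [← integral_finsetSum _ (fun i _ => hint i)]
    rw [ofReal_integral_eq_lintegral_ofReal]
    · apply lintegral_mono_ae
      rw [ae_restrict_iff' hU.measurableSet]
      filter_upwards [hkey h hA hf] with x hx hxU
      exact hx hxU
    · exact integrable_finsetSum _ fun i _ => hint i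
    · exact Eventually.of_forall fun x => Finset.sum_nonneg fun i _ => sq_nonneg _
  · rw [not_lt, top_le_iff] at hf
    rw [hf]
    exact le_top

end Pool.Agent.COB
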