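import Pool.Agent.COB.Stmts

/-!
COB / BR3: the energy of a tuple of real functions with weak gradients is at most the sum of their
Dirichlet energies.
-/

set_option autoImplicit false
set_option linter.unusedSectionVars false
set_option linter.unusedSimpArgs false

namespace Pool.Agent.COB

open MeasureTheory Set Metric Filter Topology
open scoped ENNReal

namespace BR3_

variable {m Q : ℕ}

/-- Euclidean length -/
noncomputable def nr (u : Fin Q → ℝ) : ℝ := Real.sqrt (∑ i, u i ^ 2)

lemma nr_eq (u : Fin Q → ℝ) : nr u = ‖(WithLp.toLp 2 u : EuclideanSpace ℝ (Fin Q))‖ := by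
  rw [EuclideanSpace.norm_eq]
  unfold nr
  congr 1
  apply Finset.sum_congr rfl
  intro i _
  simp

lemma nr_nonneg (u : Fin Q → ℝ) : 0 ≤ nr u := Real.sqrt_nonneg _

lemma nr_add_le (u v : Fin Q → ℝ) : nr (fun i => u i + v i) ≤ nr u + nr v := by
  rw [nr_eq, nr_eq, nr_eq]
  exact norm_add_le (WithLp.toLp 2 u : EuclideanSpace ℝ (Fin Q)) (WithLp.toLp 2 v)

lemma nr_smul (c : ℝ) (u : Fin Q → ℝ) : nr (fun i => c * u i) = |c| * nr u := by
  rw [nr_eq, nr_eq, ← Real.norm_eq_abs, ← norm_smul]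
  rfl

lemma nr_sub_comm (u v : Fin Q → ℝ) : nr (fun i => u i - v i) = nr (fun i => v i - u i) := by
  unfold nr
  congr 1
  apply Finset.sum_congr rfl
  intro i _
  ring

lemma continuous_nr : Continuous (nr : (Fin Q → ℝ) → ℝ) := by
  unfold nr
  fun_prop

lemma nr_le_sum (u : Fin Q → ℝ) : nr u ≤ ∑ i, |u i| := by
  unfold nr
  rw [Real.sqrt_le_left (Finset.sum_nonneg fun i _ => abs_nonneg _)]
  have h : ∀ s : Finset (Fin Q), ∑ i ∈ s, u i ^ 2 ≤ (∑ i ∈ s, |u i|) ^ 2 := by
    intro s
    induction s using Finset.induction_on with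
    | empty => simp
    | insert a s ha ih =>
      rw [Finset.sum_insert ha, Finset.sum_insert ha]
      have h1 : 0 ≤ ∑ i ∈ s, |u i| := Finset.sum_nonneg fun i _ => abs_nonneg _
      have h2 : 0 ≤ |u a| * ∑ i ∈ s, |u i| := mul_nonneg (abs_nonneg _) h1
      have h3 : u a ^ 2 = |u a| ^ 2 := (sq_abs _).symm
      nlinarith
  exact h _

lemma nr_sq (u : Fin Q → ℝ) : nr u ^ 2 = ∑ i, u i ^ 2 := by
  unfold nr
  exact Real.sq_sqrt (Finset.sum_nonneg fun i _ => sq_nonneg _)

lemma gg_tri (hS : Stmt_SRT) (S S' T : Sym ℝ Q) : |GG S T - GG S' T| ≤ GG S S' := by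
  obtain ⟨-, h2, -⟩ := hS Q
  rw [h2, h2, h2]
  have h := abs_norm_sub_norm_le
    (WithLp.toLp 2 (fun i => srt S i - srt T i) : EuclideanSpace ℝ (Fin Q))
    (WithLp.toLp 2 (fun i => srt S' i - srt T i))
  have e : (WithLp.toLp 2 (fun i => srt S i - srt T i) : EuclideanSpace ℝ (Fin Q))
      - WithLp.toLp 2 (fun i => srt S' i - srt T i)
      = WithLp.toLp 2 (fun i => srt S i - srt S' i) := by
    ext i
    simp
  rw [e] at h
  have h1 := nr_eq (fun i => srt S i - srt T i)
  have h2 := nr_eq (fun i => srt S' i - srt T i)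
  have h3 := nr_eq (fun i => srt S i - srt S' i)
  rw [← h1, ← h2, ← h3] at h
  exact h

lemma gg_lip (hS : Stmt_SRT) (a b : Fin Q → ℝ) (T : Sym ℝ Q) :
    |GG (tup a) T - GG (tup b) T| ≤ nr (fun i => a i - b i) :=
  (gg_tri hS _ _ _).trans ((hS Q).2.2.1 a b)

/-! ### Step 1: compactly supported smooth sheets -/

lemma lineDeriv_le (hS : Stmt_SRT) (T : Sym ℝ Q) (Ψ : Fin Q → E m → ℝ)
    (hΨ : ∀ i, Differentiable ℝ (Ψ i)) (x v : E m) :
    |lineDeriv ℝ (fun y => GG (tup fun i => Ψ i y) T) x v|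
      ≤ nr (fun i => fderiv ℝ (Ψ i) x v) := by
  by_cases hd : LineDifferentiableAt ℝ (fun y => GG (tup fun i => Ψ i y) T) x v
  · have h1 := hd.hasLineDerivAt.tendsto_slope_zero
    have h2 : ∀ i, Tendsto (fun t : ℝ => t⁻¹ * (Ψ i (x + t • v) - Ψ i x)) (𝓝[≠] 0)
        (𝓝 (fderiv ℝ (Ψ i) x v)) := by
      intro i
      have h3 : HasLineDerivAt ℝ (Ψ i) (fderiv ℝ (Ψ i) x v) x v :=
        (hΨ i x).hasFDerivAt.hasLineDerivAt v
      simpa [smul_eq_mul] using h3.tendsto_slope_zero
    have h3 : Tendsto (fun t : ℝ => nr (fun i => t⁻¹ * (Ψ i (x + t • v) - Ψ i x))) (𝓝[≠] 0)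
        (𝓝 (nr (fun i => fderiv ℝ (Ψ i) x v))) :=
      (continuous_nr.tendsto _).comp (tendsto_pi_nhds.2 h2)
    refine le_of_tendsto_of_tendsto h1.abs h3 ?_
    filter_upwards with t
    rw [nr_smul, smul_eq_mul, abs_mul]
    exact mul_le_mul_of_nonneg_left (gg_lip hS _ _ T) (abs_nonneg _)
  · rw [lineDeriv_zero_of_not_lineDifferentiableAt hd, abs_zero]
    exact nr_nonneg _

lemma lip_F (hS : Stmt_SRT) (T : Sym ℝ Q) (Ψ : Fin Q → E m → ℝ)
    (hΨ : ∀ i, ContDiff ℝ 1 (Ψ i)) (hc : ∀ i, HasCompactSupport (Ψ i)) :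
    ∃ C, LipschitzWith C (fun y => GG (tup fun i => Ψ i y) T) := by
  have h : ∀ i, ∃ C, LipschitzWith C (Ψ i) := fun i =>
    (hΨ i).lipschitzWith_of_hasCompactSupport (hc i) (by norm_num)
  choose C hC using h
  refine ⟨∑ i, C i, ?_⟩
  apply LipschitzWith.of_dist_le_mul
  intro x y
  rw [Real.dist_eq]
  refine (gg_lip hS _ _ T).trans ((nr_le_sum _).trans ?_)
  push_cast
  rw [Finset.sum_mul]
  apply Finset.sum_le_sum
  intro i _
  rw [← Real.dist_eq]
  exact (hC i).dist_le_mul x y

lemma step2 (hS : Stmt_SRT) (T : Sym ℝ Q) (Ψ : Fin Q → E m → ℝ)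
    (hΨ : ∀ i, ContDiff ℝ 1 (Ψ i)) (hc : ∀ i, HasCompactSupport (Ψ i)) (ζ : E m → ℝ)
    (hζ : ContDiff ℝ 1 ζ) (hζc : HasCompactSupport ζ) (v : E m) :
    |∫ x, GG (tup fun i => Ψ i x) T * fderiv ℝ ζ x v|
      ≤ ∫ x, nr (fun i => fderiv ℝ (Ψ i) x v) * |ζ x| := by
  obtain ⟨C, hC⟩ := lip_F hS T Ψ hΨ hc
  obtain ⟨D, hD⟩ := hζ.lipschitzWith_of_hasCompactSupport hζc (by norm_num)
  have h1 := LipschitzWith.integral_lineDeriv_mul_eq (μ := (volume : Measure (E m))) hC hD hζc v
  have h2 : ∀ x, lineDeriv ℝ ζ x (-v) = -fderiv ℝ ζ x v := by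
    intro x
    have h3 : HasLineDerivAt ℝ ζ (fderiv ℝ ζ x (-v)) x (-v) :=
      (hζ.differentiable (by norm_num) x).hasFDerivAt.hasLineDerivAt (-v)
    rw [h3.lineDeriv, map_neg]
  have h4 : ∫ x, GG (tup fun i => Ψ i x) T * fderiv ℝ ζ x v
      = -∫ x, lineDeriv ℝ (fun y => GG (tup fun i => Ψ i y) T) x v * ζ x := by
    rw [h1, ← integral_neg]
    apply integral_congr_ae
    filter_upwards with x
    rw [h2]; ring
  rw [h4, abs_neg, ← Real.norm_eq_abs]
  have hcont : Continuous fun x => nr (fun i => fderiv ℝ (Ψ i) x v) := by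
    apply continuous_nr.comp
    apply continuous_pi
    intro i
    exact ((hΨ i).continuous_fderiv (by norm_num)).clm_apply continuous_const
  have hint : Integrable (fun x => nr (fun i => fderiv ℝ (Ψ i) x v) * |ζ x|) := by
    apply Continuous.integrable_of_hasCompactSupport
    · exact hcont.mul hζ.continuous.abs
    · exact hζc.comp_left (g := fun t : ℝ => |t|) abs_zero |>.mul_left
  apply norm_integral_le_of_norm_le hint
  filter_upwards with x
  rw [norm_mul, Real.norm_eq_abs, Real.norm_eq_abs]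
  exact mul_le_mul_of_nonneg_right
    (lineDeriv_le hS T Ψ (fun i => (hΨ i).differentiable (by norm_num)) x v) (abs_nonneg _)

/-! ### Step 3: smooth sheets -/

lemma step3 (hS : Stmt_SRT) (T : Sym ℝ Q) (Φ : Fin Q → E m → ℝ)
    (hΦ : ∀ i, ContDiff ℝ 1 (Φ i)) (ζ : E m → ℝ)
    (hζ : ContDiff ℝ 1 ζ) (hζc : HasCompactSupport ζ) (v : E m) :
    |∫ x, GG (tup fun i => Φ i x) T * fderiv ℝ ζ x v|
      ≤ ∫ x, nr (fun i => fderiv ℝ (Φ i) x v) * |ζ x| := by
  obtain ⟨N, hN0, hN⟩ : ∃ N : ℝ, 0 < N ∧ tsupport ζ ⊆ ball 0 N := by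
    obtain ⟨N, hN⟩ := hζc.isBounded.subset_ball (0 : E m)
    exact ⟨max N 1, by positivity, hN.trans (ball_subset_ball (le_max_left _ _))⟩
  let χ : ContDiffBump (0 : E m) := ⟨N, N + 1, hN0, by linarith⟩
  have hχ : ContDiff ℝ 1 χ := χ.contDiff
  have hχc : HasCompactSupport χ := χ.hasCompactSupport
  have h := step2 hS T (fun i x => χ x * Φ i x) (fun i => hχ.mul (hΦ i))
    (fun i => hχc.mul_right) ζ hζ hζc v
  have e1 : ∀ x ∈ ball (0 : E m) N, ∀ i, χ x * Φ i x = Φ i x := by
    intro x hx i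
    rw [χ.one_of_mem_closedBall (ball_subset_closedBall hx), one_mul]
  have e2 : ∀ x ∈ ball (0 : E m) N, ∀ i, fderiv ℝ (fun y => χ y * Φ i y) x = fderiv ℝ (Φ i) x := by
    intro x hx i
    apply Filter.EventuallyEq.fderiv_eq
    filter_upwards [isOpen_ball.mem_nhds hx] with y hy
    exact e1 y hy i
  have z1 : ∀ x, x ∉ ball (0 : E m) N → ζ x = 0 := fun x hx =>
    image_eq_zero_of_notMem_tsupport (fun h => hx (hN h))
  have z2 : ∀ x, x ∉ ball (0 : E m) N → fderiv ℝ ζ x v = 0 := by
    intro x hx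
    have : fderiv ℝ ζ x = 0 :=
      image_eq_zero_of_notMem_tsupport (fun h => hx (hN (tsupport_fderiv_subset ℝ h)))
    rw [this]; rfl
  have i1 : ∫ x, GG (tup fun i => χ x * Φ i x) T * fderiv ℝ ζ x v
      = ∫ x, GG (tup fun i => Φ i x) T * fderiv ℝ ζ x v := by
    apply integral_congr_ae
    filter_upwards with x
    by_cases hx : x ∈ ball (0 : E m) N
    · have : (fun i => χ x * Φ i x) = fun i => Φ i x := funext fun i => e1 x hx i
      rw [this]
    · rw [z2 x hx, mul_zero, mul_zero]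
  have i2 : ∫ x, nr (fun i => fderiv ℝ (fun y => χ y * Φ i y) x v) * |ζ x|
      = ∫ x, nr (fun i => fderiv ℝ (Φ i) x v) * |ζ x| := by
    apply integral_congr_ae
    filter_upwards with x
    by_cases hx : x ∈ ball (0 : E m) N
    · have : (fun i => fderiv ℝ (fun y => χ y * Φ i y) x v) = fun i => fderiv ℝ (Φ i) x v :=
        funext fun i => by rw [e2 x hx i]
      rw [this]
    · rw [z1 x hx, abs_zero, mul_zero, mul_zero]
  rw [i1, i2] at h
  exact h

/-! ### Step 4: passage to the limit -/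

lemma cont_F (hS : Stmt_SRT) (T : Sym ℝ Q) (A : Set (E m)) (a : Fin Q → E m → ℝ)
    (ha : ∀ i, ContinuousOn (a i) A) : ContinuousOn (fun x => GG (tup fun i => a i x) T) A :=
  ((hS Q).2.2.2.1 m A _ ((hS Q).2.2.2.2 m A a ha)).2 T

lemma inner_gradient (Φ : E m → ℝ) (x v : E m) :
    inner ℝ (gradient Φ x) v = fderiv ℝ Φ x v := by
  unfold gradient
  rw [InnerProductSpace.toDual_symm_apply]

lemma aesm_nr (C : Set (E m)) (D : Fin Q → E m → E m)
    (hD : ∀ i, AEStronglyMeasurable (D i) (volume.restrict C)) (v : E m) :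
    AEStronglyMeasurable (fun x => nr (fun i => inner ℝ (D i x) v)) (volume.restrict C) := by
  have h : AEStronglyMeasurable (fun x => (fun i => inner ℝ (D i x) v : Fin Q → ℝ))
      (volume.restrict C) := by
    apply AEMeasurable.aestronglyMeasurable
    rw [aemeasurable_pi_iff]
    intro i
    exact ((hD i).inner aestronglyMeasurable_const).aemeasurable
  exact continuous_nr.comp_aestronglyMeasurable h

lemma int_nr {C : Set (E m)} (hC : IsCompact C) (D : Fin Q → E m → E m)
    (hD : ∀ i, AEStronglyMeasurable (D i) (volume.restrict C))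
    (hI : ∀ i, IntegrableOn (fun x => ‖D i x‖ ^ 2) C) (v : E m) {ζ : E m → ℝ}
    (hζ : Continuous ζ) {M : ℝ} (hM : ∀ x, |ζ x| ≤ M) :
    IntegrableOn (fun x => nr (fun i => inner ℝ (D i x) v) * |ζ x|) C := by
  have hb : IntegrableOn (fun x => (∑ i, (1 + ‖D i x‖ ^ 2) * ‖v‖) * M) C := by
    apply Integrable.mul_const
    apply integrable_finsetSum
    intro i _
    apply Integrable.mul_const
    exact ((continuous_const.continuousOn).integrableOn_compact hC).add (hI i)
  apply Integrable.mono' hb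
  · exact (aesm_nr C D hD v).mul hζ.abs.aestronglyMeasurable
  · filter_upwards with x
    rw [norm_mul, Real.norm_eq_abs, Real.norm_eq_abs, abs_abs, abs_of_nonneg (nr_nonneg _)]
    have h1 : nr (fun i => inner ℝ (D i x) v) ≤ ∑ i, (1 + ‖D i x‖ ^ 2) * ‖v‖ := by
      refine (nr_le_sum _).trans (Finset.sum_le_sum fun i _ => ?_)
      refine (abs_real_inner_le_norm _ _).trans ?_
      apply mul_le_mul_of_nonneg_right _ (norm_nonneg _)
      nlinarith [sq_nonneg (‖D i x‖ - 1), norm_nonneg (D i x)]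
    exact mul_le_mul h1 (hM x) (abs_nonneg _) ((nr_nonneg _).trans h1)

lemma step4 (hS : Stmt_SRT) (hW : Stmt_WMO) (T : Sym ℝ Q) {U : Set (E m)} (hU : IsOpen U)
    (a : Fin Q → E m → ℝ) (da : Fin Q → E m → E m) (hWG : ∀ i, HasWG U (a i) (da i))
    (ζ : E m → ℝ) (hζ : ContDiff ℝ 1 ζ) (hζc : HasCompactSupport ζ) (hζU : tsupport ζ ⊆ U)
    (v : E m) :
    |∫ x, GG (tup fun i => a i x) T * fderiv ℝ ζ x v|
      ≤ ∫ x in tsupport ζ, nr (fun i => inner ℝ (da i x) v) * |ζ x| := by
  set C := tsupport ζ with hCdef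
  have hC : IsCompact C := hζc
  obtain ⟨M, hM⟩ : ∃ M, ∀ x, |ζ x| ≤ M := by
    obtain ⟨M, hM⟩ := hζ.continuous.bounded_above_of_compact_support hζc
    exact ⟨M, fun x => hM x⟩
  have hdζ : Continuous fun x => fderiv ℝ ζ x v :=
    (hζ.continuous_fderiv (by norm_num)).clm_apply continuous_const
  have hzero : ∀ x, x ∉ C → fderiv ℝ ζ x v = 0 := by
    intro x hx
    have : fderiv ℝ ζ x = 0 :=
      image_eq_zero_of_notMem_tsupport (fun h => hx (tsupport_fderiv_subset ℝ h))
    rw [this]; rfl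
  have hzero' : ∀ x, x ∉ C → ζ x = 0 := fun x hx => image_eq_zero_of_notMem_tsupport hx
  obtain ⟨M', hM'⟩ : ∃ M', ∀ x, |fderiv ℝ ζ x v| ≤ M' := by
    have hcs : HasCompactSupport fun x => fderiv ℝ ζ x v :=
      HasCompactSupport.of_support_subset_isCompact hC (fun x hx => by
        by_contra h
        exact hx (hzero x h))
    obtain ⟨M, hM⟩ := hdζ.bounded_above_of_compact_support hcs
    exact ⟨M, fun x => hM x⟩
  have hM0 : 0 ≤ M := (abs_nonneg _).trans (hM 0)
  have hM'0 : 0 ≤ M' := (abs_nonneg _).trans (hM' 0)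
  have vC : volume C < ⊤ := hC.measure_lt_top
  set vol := (volume C).toReal with hvol
  have hvol0 : 0 ≤ vol := ENNReal.toReal_nonneg
  have hDm : ∀ i, AEStronglyMeasurable (da i) (volume.restrict C) := fun i =>
    (hWG i).meas.mono_measure (Measure.restrict_mono hζU le_rfl)
  have hDi : ∀ i, IntegrableOn (fun x => ‖da i x‖ ^ 2) C := fun i => (hWG i).loc C hζU hC
  have hac : ∀ i, ContinuousOn (a i) C := fun i => (hWG i).cont.mono hζU
  set B := ∫ x in C, nr (fun i => inner ℝ (da i x) v) * |ζ x| with hB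
  have hBint := int_nr hC da hDm hDi v hζ.continuous hM
  have key : ∀ δ : ℝ, 0 < δ → δ ≤ 1 →
      |∫ x, GG (tup fun i => a i x) T * fderiv ℝ ζ x v|
        ≤ B + δ * (Q * M' * vol + M * ‖v‖ * Q * (vol + 1)) := by
    intro δ hδ hδ1
    have hex : ∀ i, ∃ Φ : E m → ℝ, ContDiff ℝ (⊤ : ℕ∞) Φ ∧ (∀ x ∈ C, |Φ x - a i x| ≤ δ ^ 2) ∧
        IntegrableOn (fun x => ‖gradient Φ x - da i x‖ ^ 2) C ∧
        ∫ x in C, ‖gradient Φ x - da i x‖ ^ 2 ≤ δ ^ 2 :=
      fun i => hW m U C (a i) (da i) hU hζU hC (hWG i) (δ ^ 2) (by positivity)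
    choose Φ hΦ hΦ1 hΦ2 hΦ3 using hex
    have hΦ' : ∀ i, ContDiff ℝ 1 (Φ i) := fun i => (hΦ i).of_le (by exact_mod_cast le_top)
    have h3 := step3 hS T Φ hΦ' ζ hζ hζc v
    -- all integrals over `C`
    have r0 : ∫ x, GG (tup fun i => a i x) T * fderiv ℝ ζ x v
        = ∫ x in C, GG (tup fun i => a i x) T * fderiv ℝ ζ x v :=
      (setIntegral_eq_integral_of_forall_compl_eq_zero (fun x hx => by
        rw [hzero x hx, mul_zero])).symm
    have r1 : ∫ x, GG (tup fun i => Φ i x) T * fderiv ℝ ζ x v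
        = ∫ x in C, GG (tup fun i => Φ i x) T * fderiv ℝ ζ x v :=
      (setIntegral_eq_integral_of_forall_compl_eq_zero (fun x hx => by
        rw [hzero x hx, mul_zero])).symm
    have r2 : ∫ x, nr (fun i => fderiv ℝ (Φ i) x v) * |ζ x|
        = ∫ x in C, nr (fun i => fderiv ℝ (Φ i) x v) * |ζ x| :=
      (setIntegral_eq_integral_of_forall_compl_eq_zero (fun x hx => by
        rw [hzero' x hx, abs_zero, mul_zero])).symm
    rw [r1, r2] at h3
    rw [r0]
    have j0 : IntegrableOn (fun x => GG (tup fun i => a i x) T * fderiv ℝ ζ x v) C :=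
      ((cont_F hS T C a hac).mul hdζ.continuousOn).integrableOn_compact hC
    have j1 : IntegrableOn (fun x => GG (tup fun i => Φ i x) T * fderiv ℝ ζ x v) C :=
      ((cont_F hS T C Φ fun i => (hΦ i).continuous.continuousOn).mul
        hdζ.continuousOn).integrableOn_compact hC
    have s1 : |(∫ x in C, GG (tup fun i => a i x) T * fderiv ℝ ζ x v)
        - ∫ x in C, GG (tup fun i => Φ i x) T * fderiv ℝ ζ x v| ≤ (Q * δ * M') * vol := by
      rw [← integral_sub j0 j1, ← Real.norm_eq_abs]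
      apply norm_setIntegral_le_of_norm_le_const vC
      intro x hx
      rw [← sub_mul, norm_mul, Real.norm_eq_abs, Real.norm_eq_abs]
      apply mul_le_mul _ (hM' x) (abs_nonneg _) (by positivity)
      refine (gg_lip hS _ _ T).trans ((nr_le_sum _).trans ?_)
      calc ∑ i, |a i x - Φ i x| ≤ ∑ _i : Fin Q, δ := by
            apply Finset.sum_le_sum
            intro i _
            rw [abs_sub_comm]
            refine (hΦ1 i x hx).trans ?_
            nlinarith
        _ = Q * δ := by simp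
    have s2 : ∫ x in C, nr (fun i => fderiv ℝ (Φ i) x v) * |ζ x|
        ≤ ∫ x in C, (nr (fun i => inner ℝ (da i x) v) * |ζ x|
            + M * ‖v‖ * ∑ i, (δ + δ⁻¹ * ‖gradient (Φ i) x - da i x‖ ^ 2)) := by
      apply integral_mono_of_nonneg
      · filter_upwards with x
        exact mul_nonneg (nr_nonneg _) (abs_nonneg _)
      · apply hBint.add
        apply Integrable.const_mul
        apply integrable_finsetSum
        intro i _
        exact ((continuous_const.continuousOn).integrableOn_compact hC).add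
          ((hΦ2 i).const_mul _)
      · filter_upwards with x
        have t1 : nr (fun i => fderiv ℝ (Φ i) x v)
            ≤ nr (fun i => inner ℝ (da i x) v)
              + ∑ i, (‖v‖ * (δ + δ⁻¹ * ‖gradient (Φ i) x - da i x‖ ^ 2)) := by
          have e : (fun i => fderiv ℝ (Φ i) x v) = fun i => inner ℝ (da i x) v
              + inner ℝ (gradient (Φ i) x - da i x) v := by
            funext i
            rw [inner_sub_left, inner_gradient]; ring
          rw [e]
          refine (nr_add_le _ _).trans (add_le_add le_rfl ((nr_le_sum _).trans ?_))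
          apply Finset.sum_le_sum
          intro i _
          refine (abs_real_inner_le_norm _ _).trans ?_
          rw [mul_comm]
          apply mul_le_mul_of_nonneg_left _ (norm_nonneg _)
          set t := ‖gradient (Φ i) x - da i x‖ with ht
          have ht0 : 0 ≤ t := norm_nonneg _
          have h5 : 0 ≤ δ⁻¹ * (t - δ) ^ 2 := by positivity
          have h6 : δ⁻¹ * (t - δ) ^ 2 = δ⁻¹ * t ^ 2 - 2 * t + δ := by
            field_simp
            ring
          nlinarith
        calc nr (fun i => fderiv ℝ (Φ i) x v) * |ζ x|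
            ≤ (nr (fun i => inner ℝ (da i x) v)
              + ∑ i, (‖v‖ * (δ + δ⁻¹ * ‖gradient (Φ i) x - da i x‖ ^ 2))) * |ζ x| :=
              mul_le_mul_of_nonneg_right t1 (abs_nonneg _)
          _ = nr (fun i => inner ℝ (da i x) v) * |ζ x|
              + |ζ x| * ‖v‖ * ∑ i, (δ + δ⁻¹ * ‖gradient (Φ i) x - da i x‖ ^ 2) := by
              rw [← Finset.mul_sum]; ring
          _ ≤ _ := by
              apply add_le_add le_rfl
              apply mul_le_mul_of_nonneg_right
              · exact mul_le_mul_of_nonneg_right (hM x) (norm_nonneg _)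
              · exact Finset.sum_nonneg fun i _ => by positivity
    have s3 : ∫ x in C, (nr (fun i => inner ℝ (da i x) v) * |ζ x|
            + M * ‖v‖ * ∑ i, (δ + δ⁻¹ * ‖gradient (Φ i) x - da i x‖ ^ 2))
        = B + M * ‖v‖ * ∑ i, (δ * vol + δ⁻¹ * ∫ x in C, ‖gradient (Φ i) x - da i x‖ ^ 2) := by
      have jj : ∀ i ∈ (Finset.univ : Finset (Fin Q)),
          Integrable (fun x => δ + δ⁻¹ * ‖gradient (Φ i) x - da i x‖ ^ 2)
            (volume.restrict C) := by
        intro i _
        exact ((continuous_const.continuousOn).integrableOn_compact hC).add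
          ((hΦ2 i).const_mul _)
      rw [integral_add hBint ((integrable_finsetSum _ jj).const_mul _), integral_const_mul,
        integral_finsetSum _ jj]
      congr 2
      apply Finset.sum_congr rfl
      intro i _
      rw [integral_add ((continuous_const.continuousOn).integrableOn_compact hC)
        ((hΦ2 i).const_mul _), integral_const_mul, setIntegral_const, smul_eq_mul]
      rw [mul_comm]
      rfl
    have s4 : ∑ i, (δ * vol + δ⁻¹ * ∫ x in C, ‖gradient (Φ i) x - da i x‖ ^ 2)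
        ≤ Q * (δ * (vol + 1)) := by
      calc ∑ i, (δ * vol + δ⁻¹ * ∫ x in C, ‖gradient (Φ i) x - da i x‖ ^ 2)
          ≤ ∑ _i : Fin Q, δ * (vol + 1) := by
            apply Finset.sum_le_sum
            intro i _
            have h7 : δ⁻¹ * ∫ x in C, ‖gradient (Φ i) x - da i x‖ ^ 2 ≤ δ⁻¹ * δ ^ 2 :=
              mul_le_mul_of_nonneg_left (hΦ3 i) (by positivity)
            have h8 : δ⁻¹ * δ ^ 2 = δ := by field_simp
            rw [h8] at h7
            linarith
        _ = Q * (δ * (vol + 1)) := by simp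
    have s5 : M * ‖v‖ * ∑ i, (δ * vol + δ⁻¹ * ∫ x in C, ‖gradient (Φ i) x - da i x‖ ^ 2)
        ≤ M * ‖v‖ * (Q * (δ * (vol + 1))) :=
      mul_le_mul_of_nonneg_left s4 (by positivity)
    have s6 := abs_le.1 s1
    have s7 := abs_le.1 h3
    rw [abs_le]
    constructor <;> nlinarith [s6.1, s6.2, s7.1, s7.2, s2, s3, s5]
  by_contra hlt
  push Not at hlt
  set A := |∫ x, GG (tup fun i => a i x) T * fderiv ℝ ζ x v| with hA
  set K := (Q * M' * vol + M * ‖v‖ * Q * (vol + 1)) with hK
  have hK0 : 0 ≤ K := by positivity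
  have hpos : 0 < (A - B) / (2 * (K + 1)) := by
    apply div_pos (by linarith) (by positivity)
  have h1 := key (min 1 ((A - B) / (2 * (K + 1)))) (lt_min one_pos hpos) (min_le_left _ _)
  have h2 : min 1 ((A - B) / (2 * (K + 1))) * K ≤ (A - B) / (2 * (K + 1)) * (K + 1) := by
    apply mul_le_mul (min_le_right _ _) (by linarith) hK0 hpos.le
  have h3 : (A - B) / (2 * (K + 1)) * (K + 1) = (A - B) / 2 := by
    field_simp
  linarith

end BR3_

/-- BR3 -/
theorem br3_proof (hSRT : Stmt_SRT) (hWMO : Stmt_WMO) : Stmt_BR3 := by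
  intro m Q U a da hU hWG hI
  classical
  -- measurable representatives
  let D : Fin Q → E m → E m := fun i => (hWG i).meas.mk (da i)
  have hDm : ∀ i, StronglyMeasurable (D i) := fun i => (hWG i).meas.stronglyMeasurable_mk
  have hDe : ∀ i, da i =ᵐ[volume.restrict U] D i := fun i => (hWG i).meas.ae_eq_mk
  let h : Fin m → E m → ℝ≥0∞ := fun j x => ENNReal.ofReal (BR3_.nr (fun i => D i x j))
  have hcoord : ∀ (x : E m) (j : Fin m), inner ℝ x (bs j) = x j := by
    intro x j
    rw [EuclideanSpace.inner_single_right]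
    simp
  have hmj : ∀ (i : Fin Q) (j : Fin m), Measurable fun x => D i x j := by
    intro i j
    have h1 : Continuous fun y : E m => y j := by fun_prop
    exact h1.measurable.comp (hDm i).measurable
  have hmnr : ∀ j, Measurable fun x => BR3_.nr (fun i => D i x j) := by
    intro j
    exact BR3_.continuous_nr.measurable.comp (measurable_pi_lambda _ fun i => hmj i j)
  have hadm : Adm U (fun x => tup fun i => a i x) h := by
    refine ⟨fun j => (hmnr j).ennreal_ofReal, ?_⟩
    intro T j ζ hζ hζc hζU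
    have hζ1 : ContDiff ℝ 1 ζ := hζ.of_le (by exact_mod_cast le_top)
    have h4 := BR3_.step4 hSRT hWMO T hU a da hWG ζ hζ1 hζc hζU (bs j)
    obtain ⟨M, hM⟩ : ∃ M, ∀ x, |ζ x| ≤ M := by
      obtain ⟨M, hM⟩ := hζ.continuous.bounded_above_of_compact_support hζc
      exact ⟨M, fun x => hM x⟩
    have hC : IsCompact (tsupport ζ) := hζc
    have hint := BR3_.int_nr hC da
      (fun i => (hWG i).meas.mono_measure (Measure.restrict_mono hζU le_rfl))
      (fun i => (hWG i).loc _ hζU hC) (bs j) hζ.continuous hM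
    refine (ENNReal.ofReal_le_ofReal h4).trans ?_
    rw [ofReal_integral_eq_lintegral_ofReal hint
      (by filter_upwards with x; exact mul_nonneg (BR3_.nr_nonneg _) (abs_nonneg _))]
    calc ∫⁻ x in tsupport ζ, ENNReal.ofReal (BR3_.nr (fun i => inner ℝ (da i x) (bs j)) * |ζ x|)
        = ∫⁻ x in tsupport ζ, h j x * ENNReal.ofReal |ζ x| := by
          apply lintegral_congr_ae
          have h5 : ∀ᵐ x ∂(volume.restrict (tsupport ζ)), ∀ i, da i x = D i x := by
            rw [ae_all_iff]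
            intro i
            exact (Measure.absolutelyContinuous_of_le
              (Measure.restrict_mono hζU le_rfl)).ae_le (hDe i)
          filter_upwards [h5] with x hx
          have e : (fun i => inner ℝ (da i x) (bs j)) = fun i => D i x j := by
            funext i
            rw [hcoord, hx i]
          rw [e, ENNReal.ofReal_mul (BR3_.nr_nonneg _)]
      _ ≤ ∫⁻ x, h j x * ENNReal.ofReal |ζ x| := setLIntegral_le_lintegral _ _
  have hle : energy U (fun x => tup fun i => a i x) ≤ ∫⁻ x in U, ∑ j, h j x ^ 2 :=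
    iInf₂_le h hadm
  refine hle.trans (le_of_eq ?_)
  have hDI : ∀ i, IntegrableOn (fun x => ‖D i x‖ ^ 2) U := by
    intro i
    apply (hI i).congr
    filter_upwards [hDe i] with x hx
    rw [hx]
  have e1 : ∀ x, ∑ j, h j x ^ 2 = ENNReal.ofReal (∑ i, ‖D i x‖ ^ 2) := by
    intro x
    have e2 : ∀ j, h j x ^ 2 = ENNReal.ofReal (∑ i, (D i x j) ^ 2) := by
      intro j
      show ENNReal.ofReal _ ^ 2 = _
      rw [← ENNReal.ofReal_pow (BR3_.nr_nonneg _), BR3_.nr_sq]
    simp only [e2]
    rw [← ENNReal.ofReal_sum_of_nonneg (fun j _ => Finset.sum_nonneg fun i _ => sq_nonneg _),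
      Finset.sum_comm]
    congr 1
    apply Finset.sum_congr rfl
    intro i _
    rw [EuclideanSpace.norm_sq_eq]
    apply Finset.sum_congr rfl
    intro j _
    rw [Real.norm_eq_abs, sq_abs]
  simp only [e1]
  rw [← ofReal_integral_eq_lintegral_ofReal (integrable_finsetSum _ fun i _ => hDI i)
    (by filter_upwards with x; exact Finset.sum_nonneg fun i _ => sq_nonneg _),
    integral_finsetSum _ fun i _ => hDI i]
  congr 1
  apply Finset.sum_congr rfl
  intro i _
  apply integral_congr_ae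
  filter_upwards [hDe i] with x hx
  rw [hx]

end Pool.Agent.COB
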