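import Pool.Agent.COB.Stmts

/-!
Squad COB: the local configuration of a minimiser.
-/

set_option autoImplicit false

namespace Pool.Agent.COB

open MeasureTheory Set Metric Filter Topology
open scoped ENNReal

namespace BR4_

variable {m : ℕ}

theorem isOpen_Sd {F : E m → ℝ} {B : Set (E m)} (hB : IsOpen B) (hF : Continuous F) :
    IsOpen (Sd F B) :=
  hB.inter (isOpen_lt continuous_const hF)

theorem ml_tup {Q : ℕ} (a : Fin Q → ℝ) : (tup a).1 = ml a := rfl

/-- the extension by zero of a one sided test function has a weak gradient -/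
theorem ext_wg (hWBA : Stmt_WBA) (hWLO : Stmt_WLO) (hWUN : Stmt_WUN) (O ga B : Set (E m))
    (F : E m → ℝ) (hO : IsOpen O) (hB : IsOpen B) (hF : Continuous F)
    (h1 : ∀ x ∈ B, (x ∈ O ↔ 0 < F x)) (a : E m → ℝ) (da : E m → E m)
    (hPT : PT F B a da) :
    HasWG O ((Sc F B).indicator a) ((Sd F B).indicator da) := by
  obtain ⟨C, hCB, hCc, hC0⟩ := hPT.cs
  have hSd : IsOpen (Sd F B) := isOpen_Sd hB hF
  have hSdO : Sd F B ⊆ O := fun x hx => (h1 x hx.1).2 hx.2
  refine hWLO m O _ _ hO fun x hx => ?_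
  by_cases hxB : x ∈ B
  · refine ⟨Sd F B, hSd, ⟨hxB, (h1 x hxB).1 hx⟩, hSdO, ?_⟩
    refine (hWBA m (Sd F B) hSd).2.2.2.1 a _ da _ hPT.wg ?_ ?_
    · intro y hy
      exact indicator_of_mem (show y ∈ Sc F B from ⟨hy.1, hy.2.le⟩) a
    · rw [Filter.EventuallyEq, ae_restrict_iff' hSd.measurableSet]
      exact Eventually.of_forall fun y hy => indicator_of_mem hy da
  · have hV : IsOpen (O \ C) := hO.sdiff hCc.isClosed
    refine ⟨O \ C, hV, ⟨hx, fun h => hxB (hCB h)⟩, diff_subset, ?_⟩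
    have hz := (hWBA m (O \ C) hV).2.2.2.2.2 0
    refine (hWBA m (O \ C) hV).2.2.2.1 (fun _ => 0) _ (fun _ => 0) _ hz ?_ ?_
    · intro y hy
      by_cases hy2 : y ∈ Sc F B
      · rw [indicator_of_mem hy2]
        exact hC0 y ⟨hy2, hy.2⟩
      · rw [indicator_of_notMem hy2]
    · have hV2 : IsOpen (Sd F B \ C) := hSd.sdiff hCc.isClosed
      have h3 := (hWBA m (Sd F B) hSd).1 (Sd F B \ C) a da hV2 diff_subset hPT.wg
      have h4 := (hWBA m (Sd F B \ C) hV2).2.2.2.2.2 0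
      have h5 := hWUN m (Sd F B \ C) a (fun _ => 0) da (fun _ => 0) hV2 h3 h4
        (fun y hy => hC0 y ⟨⟨hy.1.1, hy.1.2.le⟩, hy.2⟩)
      rw [Filter.EventuallyEq, ae_restrict_iff' hV2.measurableSet] at h5
      rw [Filter.EventuallyEq, ae_restrict_iff' hV.measurableSet]
      filter_upwards [h5] with y hy hyV
      by_cases hy2 : y ∈ Sd F B
      · rw [indicator_of_mem hy2]
        exact hy ⟨hy2, hyV.2⟩
      · rw [indicator_of_notMem hy2]

/-- the extension by zero of a one sided test function is continuous -/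
theorem ext_cont (O ga B : Set (E m)) (F : E m → ℝ) (hB : IsOpen B)
    (h2 : ∀ x ∈ B, (x ∈ O ∪ ga ↔ 0 ≤ F x)) (a : E m → ℝ) (da : E m → E m)
    (hPT : PT F B a da) : ContinuousOn ((Sc F B).indicator a) (O ∪ ga) := by
  obtain ⟨C, hCB, hCc, hC0⟩ := hPT.cs
  intro x hx
  by_cases hxB : x ∈ B
  · have hxS : x ∈ Sc F B := ⟨hxB, (h2 x hxB).1 hx⟩
    have h3 : ContinuousWithinAt a (Sc F B) x := hPT.cont x hxS
    have h4 : ContinuousWithinAt ((Sc F B).indicator a) (Sc F B) x :=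
      h3.congr (fun y hy => indicator_of_mem hy a) (indicator_of_mem hxS a)
    have h5 : 𝓝[O ∪ ga] x ≤ 𝓝[Sc F B] x := by
      rw [nhdsWithin_le_iff]
      have h6 : (O ∪ ga) ∩ B ∈ 𝓝[O ∪ ga] x :=
        inter_mem self_mem_nhdsWithin (mem_nhdsWithin_of_mem_nhds (hB.mem_nhds hxB))
      filter_upwards [h6] with y hy
      exact ⟨hy.2, (h2 y hy.2).1 hy.1⟩
    exact h4.mono_left h5
  · have hxC : x ∉ C := fun h => hxB (hCB h)
    have hx0 : (Sc F B).indicator a x = 0 := indicator_of_notMem (fun h => hxB h.1) a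
    have h3 : Cᶜ ∈ 𝓝[O ∪ ga] x :=
      mem_nhdsWithin_of_mem_nhds (hCc.isClosed.isOpen_compl.mem_nhds hxC)
    have h4 : ∀ᶠ y in 𝓝[O ∪ ga] x, (Sc F B).indicator a y = 0 := by
      filter_upwards [h3] with y hy
      by_cases hy2 : y ∈ Sc F B
      · rw [indicator_of_mem hy2]
        exact hC0 y ⟨hy2, hy⟩
      · rw [indicator_of_notMem hy2]
    rw [ContinuousWithinAt, hx0]
    exact tendsto_const_nhds.congr' (h4.mono fun y hy => hy.symm)

/-- the expansion of the energy -/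
theorem expand (O S : Set (E m)) (hO : MeasurableSet O) (hS : MeasurableSet S) (hSO : S ⊆ O)
    (g d : E m → E m) (hgm : AEStronglyMeasurable g (volume.restrict O))
    (hdm : AEStronglyMeasurable d (volume.restrict S))
    (hg : IntegrableOn (fun x => ‖g x‖ ^ 2) O) (hd : IntegrableOn (fun x => ‖d x‖ ^ 2) S) :
    IntegrableOn (fun x => ‖g x + S.indicator d x‖ ^ 2) O ∧
    ∫ x in O, ‖g x + S.indicator d x‖ ^ 2 =
      (∫ x in O, ‖g x‖ ^ 2) + ∫ x in S, (2 * inner ℝ (g x) (d x) + ‖d x‖ ^ 2) := by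
  have hgS : IntegrableOn (fun x => ‖g x‖ ^ 2) S := hg.mono_set hSO
  have hgmS : AEStronglyMeasurable g (volume.restrict S) :=
    hgm.mono_measure (Measure.restrict_mono hSO le_rfl)
  have hin : IntegrableOn (fun x => inner ℝ (g x) (d x)) S := by
    refine Integrable.mono' (hgS.add hd) (hgmS.inner hdm) (Eventually.of_forall fun x => ?_)
    have h3 := norm_inner_le_norm (𝕜 := ℝ) (g x) (d x)
    refine h3.trans ?_
    show ‖g x‖ * ‖d x‖ ≤ ‖g x‖ ^ 2 + ‖d x‖ ^ 2
    nlinarith [sq_nonneg (‖g x‖ - ‖d x‖), norm_nonneg (g x), norm_nonneg (d x)]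
  have hs : IntegrableOn (fun x => 2 * inner ℝ (g x) (d x) + ‖d x‖ ^ 2) S :=
    (hin.const_mul 2).add hd
  have hpt : ∀ x, ‖g x + S.indicator d x‖ ^ 2 =
      ‖g x‖ ^ 2 + S.indicator (fun x => 2 * inner ℝ (g x) (d x) + ‖d x‖ ^ 2) x := by
    intro x
    by_cases hx : x ∈ S
    · rw [indicator_of_mem hx, indicator_of_mem hx, @norm_add_sq_real]
      ring
    · rw [indicator_of_notMem hx, indicator_of_notMem hx]
      simp
  have hsi : IntegrableOn (S.indicator (fun x => 2 * inner ℝ (g x) (d x) + ‖d x‖ ^ 2)) O :=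
    ((integrable_indicator_iff hS).2 hs).integrableOn
  constructor
  · have h3 := hg.add hsi
    refine h3.congr (Eventually.of_forall fun x => ?_)
    simp only [Pi.add_apply]
    exact (hpt x).symm
  · rw [integral_congr_ae (Eventually.of_forall fun x => hpt x), integral_add hg hsi]
    congr 1
    rw [setIntegral_indicator hS, inter_eq_self_of_subset_right hSO]

theorem half (hSRT : Stmt_SRT) (hBR3 : Stmt_BR3) (hWBA : Stmt_WBA) (hWLO : Stmt_WLO)
    (hWUN : Stmt_WUN) {Q : ℕ} (O ga B : Set (E m)) (F : E m → ℝ) (hO : IsOpen O) (hB : IsOpen B)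
    (hF : Continuous F) (h1 : ∀ x ∈ B, (x ∈ O ↔ 0 < F x))
    (h2 : ∀ x ∈ B, (x ∈ O ∪ ga ↔ 0 ≤ F x)) (g : E m → Sym ℝ Q) (hc : ContQ (O ∪ ga) g)
    (dg : Fin Q → E m → E m) (hdg : ∀ i, HasWG O (fun x => srt (g x) i) (dg i))
    (hen : ∀ i, IntegrableOn (fun x => ‖dg i x‖ ^ 2) O) (a : Fin Q → E m → ℝ)
    (da : Fin Q → E m → E m) (hPT : ∀ i, PT F B (a i) (da i)) :
    ContQ (O ∪ ga) (fun x => tup fun i => srt (g x) i + (Sc F B).indicator (a i) x) ∧
    (∃ C ⊆ B, IsCompact C ∧ ∀ x ∈ (O ∪ ga) \ C,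
      (tup fun i => srt (g x) i + (Sc F B).indicator (a i) x) = g x) ∧
    energy O (fun x => tup fun i => srt (g x) i + (Sc F B).indicator (a i) x) ≤
      ENNReal.ofReal ((∑ i, ∫ x in O, ‖dg i x‖ ^ 2) +
        ∑ i, ∫ x in Sd F B, (2 * inner ℝ (dg i x) (da i x) + ‖da i x‖ ^ 2)) := by
  obtain ⟨s1, s2, s3, s4, s5⟩ := hSRT Q
  have hSd : IsOpen (Sd F B) := isOpen_Sd hB hF
  have hSdO : Sd F B ⊆ O := fun x hx => (h1 x hx.1).2 hx.2
  refine ⟨?_, ?_, ?_⟩
  · refine s5 m (O ∪ ga) (fun i x => srt (g x) i + (Sc F B).indicator (a i) x) fun i => ?_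
    exact ((s4 m (O ∪ ga) g hc).1 i).add (ext_cont O ga B F hB h2 (a i) (da i) (hPT i))
  · choose C hCB hCc hC0 using fun i => (hPT i).cs
    refine ⟨⋃ i, C i, iUnion_subset hCB, isCompact_iUnion hCc, fun x hx => ?_⟩
    have h3 : (fun i => srt (g x) i + (Sc F B).indicator (a i) x) = srt (g x) := by
      funext i
      by_cases hxS : x ∈ Sc F B
      · rw [indicator_of_mem hxS, hC0 i x ⟨hxS, fun h => hx.2 (mem_iUnion.2 ⟨i, h⟩)⟩, add_zero]
      · rw [indicator_of_notMem hxS, add_zero]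
    rw [h3]
    exact (s1 (g x)).2.1
  · have hwg : ∀ i, HasWG O (fun x => srt (g x) i + (Sc F B).indicator (a i) x)
        (fun x => dg i x + (Sd F B).indicator (da i) x) := fun i =>
      (hWBA m O hO).2.1 _ _ _ _ (hdg i)
        (ext_wg hWBA hWLO hWUN O ga B F hO hB hF h1 (a i) (da i) (hPT i))
    have hex := fun i => expand O (Sd F B) hO.measurableSet hSd.measurableSet hSdO (dg i) (da i)
      (hdg i).meas (hPT i).wg.meas (hen i) (hPT i).en
    have h3 := hBR3 m Q O (fun i x => srt (g x) i + (Sc F B).indicator (a i) x)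
      (fun i x => dg i x + (Sd F B).indicator (da i) x) hO hwg fun i => (hex i).1
    refine h3.trans (le_of_eq ?_)
    congr 1
    rw [← Finset.sum_add_distrib]
    exact Finset.sum_congr rfl fun i _ => (hex i).2

end BR4_

open BR4_ in
theorem br4_proof (hSRT : Stmt_SRT) (hBR2 : Stmt_BR2) (hBR3 : Stmt_BR3) (hWBA : Stmt_WBA)
    (hWLO : Stmt_WLO) (hWUN : Stmt_WUN) : Stmt_BR4 := by
  intro m k Om Op Omi ga φ ψ gp gm F p R hsp hmin hF hR hBO hloc hφψ
  obtain ⟨hpair, hmin⟩ := hmin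
  have hFn : Continuous (fun x => -F x) := hF.neg
  set B : Set (E m) := ball p R with hBdef
  have hB : IsOpen B := isOpen_ball
  have p1 : ∀ x ∈ B, (x ∈ Op ↔ 0 < F x) := fun x hx => (hloc x hx).1
  have p2 : ∀ x ∈ B, (x ∈ Op ∪ ga ↔ 0 ≤ F x) := by
    intro x hx
    obtain ⟨q1, q2, q3⟩ := hloc x hx
    rw [mem_union, q1, q3, le_iff_lt_or_eq]
    exact ⟨fun h => h.imp id Eq.symm, fun h => h.imp id Eq.symm⟩
  have n1 : ∀ x ∈ B, (x ∈ Omi ↔ 0 < -F x) := by
    intro x hx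
    rw [(hloc x hx).2.1, neg_pos]
  have n2 : ∀ x ∈ B, (x ∈ Omi ∪ ga ↔ 0 ≤ -F x) := by
    intro x hx
    obtain ⟨q1, q2, q3⟩ := hloc x hx
    rw [mem_union, q2, q3, neg_nonneg, le_iff_lt_or_eq]
  obtain ⟨dg, dg1, dg2, dg3⟩ := hBR2 m (k + 1) Op gp hsp.openOp
    (fun x hx => (hpair.cp x (Or.inl hx)).mono_left (nhdsWithin_mono _ subset_union_left)) hpair.fp
  obtain ⟨dh, dh1, dh2, dh3⟩ := hBR2 m k Omi gm hsp.openOmi
    (fun x hx => (hpair.cm x (Or.inl hx)).mono_left (nhdsWithin_mono _ subset_union_left)) hpair.fm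
  have hSp : Sd F B ⊆ Op := fun x hx => (p1 x hx.1).2 hx.2
  have hSn : Sd (fun x => -F x) B ⊆ Omi := fun x hx => (n1 x hx.1).2 hx.2
  have hScp : Sc F B ⊆ Op ∪ ga := fun x hx => (p2 x hx.1).2 hx.2
  have hScn : Sc (fun x => -F x) B ⊆ Omi ∪ ga := fun x hx => (n2 x hx.1).2 hx.2
  have htr : ∀ x ∈ B, F x = 0 →
      ml (fun i => srt (gp x) i) = ψ x ::ₘ ml (fun j => srt (gm x) j) := by
    intro x hx hFx
    have hga : x ∈ ga := (hloc x hx).2.2.2 hFx
    have h3 := hpair.bd x hga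
    have h4 : (gp x).1 = φ x ::ₘ (gm x).1 := by rw [h3]; rfl
    rw [((hSRT (k + 1)).1 (gp x)).2.2, ((hSRT k).1 (gm x)).2.2, hφψ x ⟨hga, hx⟩] at h4
    exact h4
  refine ⟨dg, dh, ?_, ?_, ?_, ?_, ?_, ?_, ?_, ?_, htr, ?_⟩
  · exact fun i => (((hSRT (k + 1)).2.2.2.1 m (Op ∪ ga) gp hpair.cp).1 i).mono hScp
  · exact fun j => (((hSRT k).2.2.2.1 m (Omi ∪ ga) gm hpair.cm).1 j).mono hScn
  · exact fun i => (hWBA m Op hsp.openOp).1 _ _ _ (isOpen_Sd hB hF) hSp (dg1 i)
  · exact fun j => (hWBA m Omi hsp.openOmi).1 _ _ _ (isOpen_Sd hB hFn) hSn (dh1 j)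
  · exact fun i => (dg2 i).mono_set hSp
  · exact fun j => (dh2 j).mono_set hSn
  · exact fun x _ => ((hSRT (k + 1)).1 (gp x)).1
  · exact fun x _ => ((hSRT k).1 (gm x)).1
  · intro a da b db hPa hPb hab
    obtain ⟨c1, ⟨C, hCB, hCc, hCe⟩, c3⟩ := half hSRT hBR3 hWBA hWLO hWUN Op ga B F hsp.openOp hB hF
      p1 p2 gp hpair.cp dg dg1 dg2 a da hPa
    obtain ⟨e1, ⟨D, hDB, hDc, hDe⟩, e3⟩ := half hSRT hBR3 hWBA hWLO hWUN Omi ga B (fun x => -F x)
      hsp.openOmi hB hFn n1 n2 gm hpair.cm dh dh1 dh2 b db hPb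
    set hp : E m → Sym ℝ (k + 1) := fun x =>
      tup fun i => srt (gp x) i + (Sc F B).indicator (a i) x with hhp
    set hm : E m → Sym ℝ k := fun x =>
      tup fun j => srt (gm x) j + (Sc (fun x => -F x) B).indicator (b j) x with hhm
    have hbd : ∀ x ∈ ga, hp x = φ x ::ₛ hm x := by
      intro x hx
      apply Subtype.ext
      have hgoal : (φ x ::ₛ hm x).1 = φ x ::ₘ (hm x).1 := rfl
      rw [hgoal]
      by_cases hxB : x ∈ B
      · have hFx : F x = 0 := (hloc x hxB).2.2.1 hx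
        have hx1 : x ∈ Sc F B := ⟨hxB, hFx.ge⟩
        have hx2 : x ∈ Sc (fun x => -F x) B := ⟨hxB, by
          show 0 ≤ -F x
          rw [hFx, neg_zero]⟩
        have h3 := hab x hxB hFx
        simp only [hhp, hhm]
        rw [ml_tup, ml_tup]
        simp only [indicator_of_mem hx1, indicator_of_mem hx2]
        rw [hφψ x ⟨hx, hxB⟩]
        exact h3
      · have hx1 : x ∉ Sc F B := fun h => hxB h.1
        have hx2 : x ∉ Sc (fun x => -F x) B := fun h => hxB h.1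
        simp only [hhp, hhm]
        rw [ml_tup, ml_tup]
        simp only [indicator_of_notMem hx1, indicator_of_notMem hx2, add_zero]
        have h3 := hpair.bd x hx
        have h4 : (gp x).1 = φ x ::ₘ (gm x).1 := by rw [h3]; rfl
        rw [((hSRT (k + 1)).1 (gp x)).2.2, ((hSRT k).1 (gm x)).2.2] at h4
        exact h4
    have hpair' : IsPair Op Omi ga φ hp hm :=
      ⟨c1, e1, hbd, c3.trans_lt ENNReal.ofReal_lt_top, e3.trans_lt ENNReal.ofReal_lt_top⟩
    have hle := hmin hp hm hpair' ⟨C ∪ D, (union_subset hCB hDB).trans hBO, hCc.union hDc,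
      fun x hx => hCe x ⟨hx.1, fun h => hx.2 (Or.inl h)⟩,
      fun x hx => hDe x ⟨hx.1, fun h => hx.2 (Or.inr h)⟩⟩
    set X := ∑ i, ∫ x in Op, ‖dg i x‖ ^ 2 with hX
    set Y := ∑ j, ∫ x in Omi, ‖dh j x‖ ^ 2 with hY
    set X' := ∑ i, ∫ x in Sd F B, (2 * inner ℝ (dg i x) (da i x) + ‖da i x‖ ^ 2) with hX'
    set Y' := ∑ j, ∫ x in Sd (fun x => -F x) B,
      (2 * inner ℝ (dh j x) (db j x) + ‖db j x‖ ^ 2) with hY'
    have hX0 : 0 ≤ X := Finset.sum_nonneg fun i _ => integral_nonneg fun x => sq_nonneg _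
    have hY0 : 0 ≤ Y := Finset.sum_nonneg fun i _ => integral_nonneg fun x => sq_nonneg _
    have key : ENNReal.ofReal X + ENNReal.ofReal Y ≤
        ENNReal.ofReal (X + X') + ENNReal.ofReal (Y + Y') :=
      (add_le_add dg3 dh3).trans (hle.trans (add_le_add c3 e3))
    have hXX : 0 ≤ X + X' := by
      have hex : X + X' = ∑ i, ∫ x in Op, ‖dg i x + (Sd F B).indicator (da i) x‖ ^ 2 := by
        rw [hX, hX', ← Finset.sum_add_distrib]
        exact Finset.sum_congr rfl fun i _ => (expand Op (Sd F B) hsp.openOp.measurableSet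
          (isOpen_Sd hB hF).measurableSet hSp (dg i) (da i) (dg1 i).meas (hPa i).wg.meas (dg2 i)
          (hPa i).en).2.symm
      rw [hex]
      exact Finset.sum_nonneg fun i _ => integral_nonneg fun x => sq_nonneg _
    have hYY : 0 ≤ Y + Y' := by
      have hex : Y + Y' = ∑ j, ∫ x in Omi,
          ‖dh j x + (Sd (fun x => -F x) B).indicator (db j) x‖ ^ 2 := by
        rw [hY, hY', ← Finset.sum_add_distrib]
        exact Finset.sum_congr rfl fun j _ => (expand Omi (Sd (fun x => -F x) B)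
          hsp.openOmi.measurableSet (isOpen_Sd hB hFn).measurableSet hSn (dh j) (db j)
          (dh1 j).meas (hPb j).wg.meas (dh2 j) (hPb j).en).2.symm
      rw [hex]
      exact Finset.sum_nonneg fun i _ => integral_nonneg fun x => sq_nonneg _
    rw [← ENNReal.ofReal_add hX0 hY0, ← ENNReal.ofReal_add hXX hYY,
      ENNReal.ofReal_le_ofReal_iff (add_nonneg hXX hYY)] at key
    show 0 ≤ X' + Y'
    linarith

end Pool.Agent.COB
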