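import Pool.Agent.COB.Stmts

set_option autoImplicit false

namespace Pool.Agent.COB

open MeasureTheory Set Metric Filter Topology

namespace CHT_

variable {m : ℕ}

lemma glob (W : Set (E m)) (hW : IsOpen W) (p₀ : E m) (χ : ContDiffBump p₀)
    (hχ : closedBall p₀ χ.rOut ⊆ W) (f : E m → ℝ) (hf : ContDiffOn ℝ 2 f W) :
    ContDiff ℝ 2 (fun y => χ y * f y) := by
  rw [contDiff_iff_contDiffAt]
  intro x
  by_cases hx1 : x ∈ tsupport (χ : E m → ℝ)
  · rw [χ.tsupport_eq] at hx1
    have hxW : x ∈ W := hχ hx1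
    exact χ.contDiff.contDiffAt.mul (hf.contDiffAt (hW.mem_nhds hxW))
  · have h1 : (fun y => χ y * f y) =ᶠ[𝓝 x] fun _ => (0 : ℝ) := by
      filter_upwards [(isClosed_tsupport (χ : E m → ℝ)).isOpen_compl.mem_nhds hx1] with y hy
      have : χ y = 0 := image_eq_zero_of_notMem_tsupport hy
      rw [this, zero_mul]
    exact contDiffAt_const.congr_of_eventuallyEq h1

lemma grad_diff (f : E m → ℝ) (hf : ContDiff ℝ 2 f) :
    ContDiff ℝ 1 (gradient f) := by
  have h1 : ContDiff ℝ 1 (fderiv ℝ f) := hf.fderiv_right (by norm_num)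
  have h2 : gradient f = fun x => (InnerProductSpace.toDual ℝ (E m)).symm (fderiv ℝ f x) := rfl
  rw [h2]
  exact (InnerProductSpace.toDual ℝ (E m)).symm.contDiff.comp h1

lemma grad_lip (f : E m → ℝ) (hf : ContDiff ℝ 2 f) (p₀ : E m) (R : ℝ) :
    ∃ M : ℝ, 0 ≤ M ∧ ∀ x ∈ closedBall p₀ R, ∀ y ∈ closedBall p₀ R,
      ‖gradient f x - gradient f y‖ ≤ M * ‖x - y‖ := by
  have h1 := grad_diff f hf
  have h2 : Continuous (fderiv ℝ (gradient f)) := h1.continuous_fderiv (by norm_num)
  obtain ⟨C, hC⟩ := (isCompact_closedBall p₀ R).exists_bound_of_continuousOn h2.continuousOn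
  refine ⟨max C 0, le_max_right _ _, ?_⟩
  intro x hx y hy
  have h3 := (convex_closedBall p₀ R).norm_image_sub_le_of_norm_fderiv_le (𝕜 := ℝ)
    (f := gradient f) (C := max C 0)
    (fun z _ => (h1.differentiable (by norm_num)) z)
    (fun z hz => (hC z hz).trans (le_max_left _ _)) hy hx
  exact h3

lemma bdd (g : E m → ℝ) (hg : Continuous g) (p₀ : E m) (R : ℝ) :
    ∃ M : ℝ, 0 ≤ M ∧ ∀ x ∈ closedBall p₀ R, |g x| ≤ M := by
  obtain ⟨C, hC⟩ := (isCompact_closedBall p₀ R).exists_bound_of_continuousOn hg.continuousOn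
  refine ⟨max C 0, le_max_right _ _, fun x hx => ?_⟩
  have := hC x hx
  rw [Real.norm_eq_abs] at this
  exact this.trans (le_max_left _ _)

lemma lip (f : E m → ℝ) (hf : ContDiff ℝ 2 f) (p₀ : E m) (R : ℝ) :
    ∃ M : ℝ, 0 ≤ M ∧ ∀ x ∈ closedBall p₀ R, ∀ y ∈ closedBall p₀ R,
      |f x - f y| ≤ M * ‖x - y‖ := by
  have h2 : Continuous (fderiv ℝ f) := hf.continuous_fderiv (by norm_num)
  obtain ⟨C, hC⟩ := (isCompact_closedBall p₀ R).exists_bound_of_continuousOn h2.continuousOn
  refine ⟨max C 0, le_max_right _ _, ?_⟩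
  intro x hx y hy
  have h3 := (convex_closedBall p₀ R).norm_image_sub_le_of_norm_fderiv_le (𝕜 := ℝ)
    (f := f) (C := max C 0)
    (fun z _ => (hf.differentiable (by norm_num)) z)
    (fun z hz => (hC z hz).trans (le_max_left _ _)) hy hx
  rw [Real.norm_eq_abs] at h3
  exact h3

/-- lower bound along the coordinate `i` -/
lemma low (f : E m → ℝ) (hf : ContDiff ℝ 2 f) (p₀ : E m) (R c : ℝ) (i : Fin m)
    (hc : ∀ x ∈ closedBall p₀ R, c ≤ |fderiv ℝ f x (bs i)|) (x z : E m)
    (hx : x ∈ closedBall p₀ R) (hz : z ∈ closedBall p₀ R) (σ : ℝ) (hσ : z - x = σ • bs i) :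
    c * |σ| ≤ |f z - f x| := by
  obtain ⟨w, hw, hw2⟩ := domain_mvt (f := f) (s := closedBall p₀ R) (x := x) (y := z)
    (f' := fun y => fderiv ℝ f y)
    (fun y _ => ((hf.differentiable (by norm_num)) y).hasFDerivAt.hasFDerivWithinAt)
    (convex_closedBall p₀ R) hx hz
  have hwB : w ∈ closedBall p₀ R := (convex_closedBall p₀ R).segment_subset hx hz hw
  rw [hw2, hσ, map_smul, smul_eq_mul, abs_mul, mul_comm]
  exact mul_le_mul_of_nonneg_left (hc w hwB) (abs_nonneg _)

lemma exists_dir (l : E m →L[ℝ] ℝ) (hl : l ≠ 0) : ∃ i : Fin m, l (bs i) ≠ 0 := by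
  by_contra hcon
  push Not at hcon
  apply hl
  ext x
  have hx : x = ∑ i, x i • bs i := by
    ext j
    simp [Finset.sum_apply, Pi.single_apply]
  rw [hx]
  simp [map_sum, hcon]

lemma norm_le_sup {d : ℕ} (i : Fin (d + 1)) (x y z : E (d + 1)) (hz : ∀ j, z (i.succAbove j) = x (i.succAbove j))
    (hzi : z i = y i) : ‖z - y‖ ≤ ((d : ℝ) + 1) * dist (pj i x) (pj i y) := by
  have h1 : ‖z - y‖ ≤ ∑ j, |(z - y) j| := by
    have h2 : z - y = ∑ j, (z - y) j • bs j := by
      ext l
      simp [Finset.sum_apply, Pi.single_apply]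
    calc ‖z - y‖ = ‖∑ j, (z - y) j • bs j‖ := by rw [← h2]
      _ ≤ ∑ j, ‖(z - y) j • bs j‖ := norm_sum_le _ _
      _ = ∑ j, |(z - y) j| := by
          apply Finset.sum_congr rfl
          intro j _
          rw [norm_smul, Real.norm_eq_abs]
          simp
  have h3 : ∀ j : Fin (d + 1), |(z - y) j| ≤ dist (pj i x) (pj i y) := by
    intro j
    rcases Fin.eq_self_or_eq_succAbove i j with h | ⟨l, h⟩
    · rw [h]
      simp only [PiLp.sub_apply, hzi, sub_self, abs_zero]
      exact dist_nonneg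
    · rw [h]
      simp only [PiLp.sub_apply, hz l]
      have h4 := dist_le_pi_dist (pj i x) (pj i y) l
      rw [Real.dist_eq] at h4
      exact h4
  calc ‖z - y‖ ≤ ∑ j, |(z - y) j| := h1
    _ ≤ ∑ _j : Fin (d + 1), dist (pj i x) (pj i y) := Finset.sum_le_sum fun j _ => h3 j
    _ = ((d : ℝ) + 1) * dist (pj i x) (pj i y) := by
        rw [Finset.sum_const, Finset.card_univ, Fintype.card_fin, nsmul_eq_mul]
        push_cast
        ring

end CHT_

open CHT_ in
theorem cht_proof (hLPC : Stmt_LPC) : Stmt_CHT := by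
  intro d Om Op Omi ga φ p₀ hS hφ hp₀
  obtain ⟨U, hU, hpU, f, hf, hf0, hsg⟩ := hS.loc p₀ hp₀
  obtain ⟨U', hU', hpU', ψ0, hψ0, hψe⟩ := hφ p₀ hp₀
  obtain ⟨lpc1, lpc2, lpc3, lpc4, lpc5⟩ := hLPC (d + 1)
  have hpOm : p₀ ∈ Om := by rw [hS.union]; exact Or.inl (Or.inr hp₀)
  set W : Set (E (d + 1)) := (U ∩ U') ∩ Om with hWd
  have hW : IsOpen W := (hU.inter hU').inter hS.openOm
  have hpW : p₀ ∈ W := ⟨⟨hpU, hpU'⟩, hpOm⟩
  obtain ⟨ε, hε, hεW⟩ := Metric.isOpen_iff.1 hW p₀ hpW
  let χ : ContDiffBump p₀ := ⟨ε / 4, ε / 2, by positivity, by linarith⟩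
  have hχW : closedBall p₀ χ.rOut ⊆ W := by
    refine Subset.trans ?_ hεW
    exact closedBall_subset_ball (by show ε / 2 < ε; linarith)
  set f1 : E (d + 1) → ℝ := fun y => χ y * f y with hf1d
  set ψ1 : E (d + 1) → ℝ := fun y => χ y * ψ0 y with hψ1d
  have hf1 : ContDiff ℝ 2 f1 :=
    glob W hW p₀ χ hχW f (hf.mono fun x hx => hx.1.1)
  have hψ1 : ContDiff ℝ 2 ψ1 :=
    glob W hW p₀ χ hχW ψ0 (hψ0.mono fun x hx => hx.1.2)
  have hone : ∀ x ∈ closedBall p₀ (ε / 4), χ x = 1 := fun x hx => χ.one_of_mem_closedBall hx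
  have hf1e : ∀ x ∈ closedBall p₀ (ε / 4), f1 x = f x := fun x hx => by
    simp only [hf1d, hone x hx, one_mul]
  have hψ1e : ∀ x ∈ closedBall p₀ (ε / 4), ψ1 x = ψ0 x := fun x hx => by
    simp only [hψ1d, hone x hx, one_mul]
  -- derivative at p₀
  have hfd : fderiv ℝ f1 p₀ = fderiv ℝ f p₀ := by
    apply Filter.EventuallyEq.fderiv_eq
    filter_upwards [closedBall_mem_nhds p₀ (show (0 : ℝ) < ε / 4 by positivity)] with x hx
    exact hf1e x hx
  have hne : fderiv ℝ f1 p₀ ≠ 0 := by rw [hfd]; exact hf0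
  obtain ⟨i, hi⟩ := exists_dir (fderiv ℝ f1 p₀) hne
  set c0 : ℝ := |fderiv ℝ f1 p₀ (bs i)| with hc0
  have hc0p : 0 < c0 := abs_pos.2 hi
  set c : ℝ := c0 / 2 with hcd
  have hcp : 0 < c := by positivity
  have hcont : Continuous fun x => |fderiv ℝ f1 x (bs i)| := by
    have h2 : Continuous (fderiv ℝ f1) := hf1.continuous_fderiv (by norm_num)
    exact (h2.clm_apply continuous_const).abs
  have hev : ∀ᶠ x in 𝓝 p₀, c < |fderiv ℝ f1 x (bs i)| := by
    apply hcont.continuousAt.eventually_const_lt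
    show c < c0
    linarith
  obtain ⟨δ, hδ, hδc⟩ := Metric.eventually_nhds_iff_ball.1 hev
  set R1 : ℝ := min (δ / 2) (ε / 4) with hR1
  have hR1p : 0 < R1 := by positivity
  have hR1δ : ∀ x ∈ closedBall p₀ R1, c ≤ |fderiv ℝ f1 x (bs i)| := by
    intro x hx
    apply le_of_lt
    apply hδc
    rw [mem_closedBall] at hx
    rw [mem_ball]
    have : R1 ≤ δ / 2 := min_le_left _ _
    linarith
  have hR1ε : closedBall p₀ R1 ⊆ closedBall p₀ (ε / 4) := closedBall_subset_closedBall (min_le_right _ _)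
  obtain ⟨M1, hM1, hM1b⟩ := lip f1 hf1 p₀ R1
  obtain ⟨M2, hM2, hM2b⟩ := grad_lip f1 hf1 p₀ R1
  obtain ⟨M3, hM3, hM3b⟩ := bdd (lp f1) (lpc1 f1 hf1).1 p₀ R1
  obtain ⟨M4, hM4, hM4b⟩ := bdd (lp ψ1) (lpc1 ψ1 hψ1).1 p₀ R1
  have hga0 : ∀ x ∈ ga, x ∈ closedBall p₀ (ε / 4) → f1 x = 0 := by
    intro x hx hxb
    have hxU : x ∈ U := by
      have : x ∈ ball p₀ ε := closedBall_subset_ball (by linarith) hxb
      exact (hεW this).1.1
    rw [hf1e x hxb]
    exact (hsg x hxU).2.2.1 hx
  refine ⟨i, R1 / 3, (M1 / c + 1) * ((d : ℝ) + 1), by positivity, ?_, ?_, ?_⟩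
  · intro x hx
    have hx1 : x ∈ ball p₀ ε := by
      rw [mem_closedBall] at hx
      rw [mem_ball]
      have : R1 ≤ ε / 4 := min_le_right _ _
      linarith
    exact (hεW hx1).2
  · intro x hx y hy
    set σ : ℝ := y i - x i with hσ
    set z : E (d + 1) := x + σ • bs i with hz
    have hxb : x ∈ closedBall p₀ R1 := closedBall_subset_closedBall (by linarith) hx.2
    have hyb : y ∈ closedBall p₀ R1 := closedBall_subset_closedBall (by linarith) hy.2
    have hσle : |σ| ≤ ‖y - x‖ := by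
      have h1 := PiLp.norm_apply_le (y - x) i
      rw [Real.norm_eq_abs] at h1
      simpa using h1
    have hyx : ‖y - x‖ ≤ 2 * (R1 / 3) := by
      have h1 := hx.2
      have h2 := hy.2
      rw [mem_closedBall] at h1 h2
      have h3 : ‖y - x‖ = dist y x := (dist_eq_norm y x).symm
      rw [h3]
      have := dist_triangle_right y x p₀
      linarith
    have hnbs : ‖(bs i : E (d + 1))‖ = 1 := by simp
    have hzb : z ∈ closedBall p₀ R1 := by
      rw [mem_closedBall, dist_eq_norm]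
      have h1 := hx.2
      rw [mem_closedBall, dist_eq_norm] at h1
      have h2 : z - p₀ = (x - p₀) + σ • bs i := by rw [hz]; abel
      rw [h2]
      calc ‖(x - p₀) + σ • bs i‖ ≤ ‖x - p₀‖ + ‖σ • (bs i : E (d + 1))‖ := norm_add_le _ _
        _ = ‖x - p₀‖ + |σ| := by rw [norm_smul, hnbs, Real.norm_eq_abs, mul_one]
        _ ≤ R1 / 3 + 2 * (R1 / 3) := by linarith
        _ = R1 := by ring
    have hzx : z - x = σ • bs i := by rw [hz]; abel
    have hlow := low f1 hf1 p₀ R1 c i hR1δ x z hxb hzb σ hzx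
    have hx0 : f1 x = 0 := hga0 x hx.1 (hR1ε hxb)
    have hy0 : f1 y = 0 := hga0 y hy.1 (hR1ε hyb)
    have hlip := hM1b z hzb y hyb
    rw [hx0, sub_zero] at hlow
    rw [hy0, sub_zero] at hlip
    have hns := norm_le_sup i x y z
      (by
        intro j
        simp [hz, Fin.succAbove_ne])
      (by
        simp [hz, hσ])
    have h5 : |σ| ≤ (M1 / c) * ‖z - y‖ := by
      rw [div_mul_eq_mul_div, le_div_iff₀ hcp]
      linarith
    have h6 : ‖x - y‖ ≤ |σ| + ‖z - y‖ := by
      have h7 : x - y = (z - y) - (z - x) := by abel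
      rw [h7]
      calc ‖(z - y) - (z - x)‖ ≤ ‖z - y‖ + ‖z - x‖ := norm_sub_le _ _
        _ = |σ| + ‖z - y‖ := by
            rw [hzx, norm_smul, hnbs, Real.norm_eq_abs, mul_one, add_comm]
    have h8 : 0 ≤ M1 / c + 1 := by positivity
    calc ‖x - y‖ ≤ |σ| + ‖z - y‖ := h6
      _ ≤ (M1 / c) * ‖z - y‖ + ‖z - y‖ := by linarith
      _ = (M1 / c + 1) * ‖z - y‖ := by ring
      _ ≤ (M1 / c + 1) * (((d : ℝ) + 1) * dist (pj i x) (pj i y)) :=
          mul_le_mul_of_nonneg_left hns h8
      _ = (M1 / c + 1) * ((d : ℝ) + 1) * dist (pj i x) (pj i y) := by ring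
  · intro p hp
    have hpb : p ∈ closedBall p₀ R1 := by
      have := hp.2
      rw [mem_ball] at this
      rw [mem_closedBall]
      linarith
    set a : ℝ := ‖gradient f1 p‖ with ha
    have hap : 0 < a := by
      have h1 := hR1δ p hpb
      have h2 : fderiv ℝ f1 p (bs i) = inner ℝ (gradient f1 p) (bs i) := (lpc5 f1 p (bs i)).symm
      rw [h2] at h1
      have h3 := abs_real_inner_le_norm (gradient f1 p) (bs i : E (d + 1))
      have hnbs : ‖(bs i : E (d + 1))‖ = 1 := by simp
      rw [hnbs, mul_one] at h3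
      linarith
    set L : ℝ := 1 + M2 / a + M3 / a + M4 + a / c with hL
    have hL1 : 1 ≤ L := by
      have h1 : 0 ≤ M2 / a := by positivity
      have h2 : 0 ≤ M3 / a := by positivity
      have h3 : 0 ≤ a / c := by positivity
      rw [hL]; linarith
    have hLp : 0 < L := by linarith
    set R : ℝ := min (R1 / 3 - dist p p₀) (1 / (1000 * ((d + 1 : ℕ) : ℝ) * L)) with hR
    have hdp : 0 < R1 / 3 - dist p p₀ := by
      have := hp.2
      rw [mem_ball] at this
      linarith
    have hmp : (0 : ℝ) < 1000 * ((d + 1 : ℕ) : ℝ) * L := by positivity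
    have hRp : 0 < R := lt_min hdp (by positivity)
    have hsub : ball p R ⊆ ball p₀ (R1 / 3) := by
      apply ball_subset_ball'
      have : R ≤ R1 / 3 - dist p p₀ := min_le_left _ _
      linarith
    have hsub1 : ∀ x ∈ ball p R, x ∈ closedBall p₀ R1 := by
      intro x hx
      have := hsub hx
      rw [mem_ball] at this
      rw [mem_closedBall]
      linarith
    have hgF : ∀ x, gradient (fun y => a⁻¹ * f1 y) x = a⁻¹ • gradient f1 x :=
      fun x => (lpc3 a⁻¹ f1 hf1 x).1
    have hlF : ∀ x, lp (fun y => a⁻¹ * f1 y) x = a⁻¹ * lp f1 x :=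
      fun x => (lpc3 a⁻¹ f1 hf1 x).2
    refine ⟨fun y => a⁻¹ * f1 y, ψ1, R, L, ?_, hsub, ?_, ?_⟩
    · refine
        { hR := hRp
          hL := hL1
          sm := ?_
          cF := contDiff_const.mul hf1
          cφ := hψ1
          Fp := ?_
          gp := ?_
          gl := ?_
          lF := ?_
          lφ := ?_
          di := ?_ }
      · have h1 : R ≤ 1 / (1000 * ((d + 1 : ℕ) : ℝ) * L) := min_le_right _ _
        calc 1000 * ((d + 1 : ℕ) : ℝ) * L * R
            ≤ 1000 * ((d + 1 : ℕ) : ℝ) * L * (1 / (1000 * ((d + 1 : ℕ) : ℝ) * L)) :=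
              mul_le_mul_of_nonneg_left h1 hmp.le
          _ = 1 := by field_simp
      · simp only [hga0 p hp.1 (hR1ε hpb), mul_zero]
      · rw [hgF, norm_smul, norm_inv, norm_norm, ← ha]
        exact inv_mul_cancel₀ hap.ne'
      · intro x hx
        rw [hgF, hgF, ← smul_sub, norm_smul, norm_inv, norm_norm, ← ha]
        have h1 := hM2b x (hsub1 x hx) p hpb
        calc a⁻¹ * ‖gradient f1 x - gradient f1 p‖ ≤ a⁻¹ * (M2 * ‖x - p‖) :=
              mul_le_mul_of_nonneg_left h1 (by positivity)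
          _ = (M2 / a) * ‖x - p‖ := by ring
          _ ≤ L * ‖x - p‖ := by
              apply mul_le_mul_of_nonneg_right _ (norm_nonneg _)
              have h2 : 0 ≤ M3 / a := by positivity
              have h3 : 0 ≤ a / c := by positivity
              rw [hL]; linarith
      · intro x hx
        rw [hlF, abs_mul, abs_inv, abs_of_pos hap]
        have h1 := hM3b x (hsub1 x hx)
        calc a⁻¹ * |lp f1 x| ≤ a⁻¹ * M3 := mul_le_mul_of_nonneg_left h1 (by positivity)
          _ = M3 / a := by ring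
          _ ≤ L := by
              have h2 : 0 ≤ M2 / a := by positivity
              have h3 : 0 ≤ a / c := by positivity
              rw [hL]; linarith
      · intro x hx
        have h1 := hM4b x (hsub1 x hx)
        have h2 : 0 ≤ M2 / a := by positivity
        have h3 : 0 ≤ M3 / a := by positivity
        have h4 : 0 ≤ a / c := by positivity
        rw [hL]; linarith
      · intro x hx
        have h1 := hR1δ x (hsub1 x hx)
        have h2 : fderiv ℝ (fun y => a⁻¹ * f1 y) x (bs i) = a⁻¹ * fderiv ℝ f1 x (bs i) := by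
          rw [← lpc5, ← lpc5, hgF, inner_smul_left]
          simp
        rw [h2, abs_mul, abs_inv, abs_of_pos hap]
        have h3 : a / c ≤ L := by
          have h2 : 0 ≤ M2 / a := by positivity
          have h3 : 0 ≤ M3 / a := by positivity
          rw [hL]; linarith
        have h4 : 0 ≤ a⁻¹ * |fderiv ℝ f1 x (bs i)| := by positivity
        calc (1 : ℝ) = a / c * (a⁻¹ * c) := by field_simp
          _ ≤ a / c * (a⁻¹ * |fderiv ℝ f1 x (bs i)|) := by
              apply mul_le_mul_of_nonneg_left _ (by positivity)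
              exact mul_le_mul_of_nonneg_left h1 (by positivity)
          _ ≤ L * (a⁻¹ * |fderiv ℝ f1 x (bs i)|) := mul_le_mul_of_nonneg_right h3 h4
    · intro x hx
      have hxb := hR1ε (hsub1 x hx)
      have hxU : x ∈ U := by
        have : x ∈ ball p₀ ε := closedBall_subset_ball (by linarith) hxb
        exact (hεW this).1.1
      have hs := hsg x hxU
      rw [← hf1e x hxb] at hs
      have hai : 0 < a⁻¹ := by positivity
      refine ⟨hs.1.trans ?_, hs.2.1.trans ?_, hs.2.2.trans ?_⟩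
      · exact (mul_pos_iff_of_pos_left hai).symm
      · constructor
        · intro h; exact mul_neg_of_pos_of_neg hai h
        · intro h
          by_contra hcon
          push Not at hcon
          have := mul_nonneg hai.le hcon
          linarith
      · constructor
        · intro h; show a⁻¹ * f1 x = 0; rw [h, mul_zero]
        · intro h
          exact (mul_eq_zero.1 h).resolve_left hai.ne'
    · intro x hx
      have hxb := hR1ε (hsub1 x hx.2)
      have hxU : x ∈ U' := by
        have : x ∈ ball p₀ ε := closedBall_subset_ball (by linarith) hxb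
        exact (hεW this).1.2
      rw [hψe x ⟨hxU, hx.1⟩, hψ1e x hxb]

end Pool.Agent.COB
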