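import Pool.Agent.COB.Stmts

/-!
Squad COB, module CLS: passing to the sheets `a ≤ j < a + n`.
-/

set_option autoImplicit false

namespace Pool.Agent.COB

open MeasureTheory Set Metric Filter Topology

namespace CLS_

theorem ml_eq_sum {n : ℕ} (v : Fin n → ℝ) : ml v = ∑ i, ({v i} : Multiset ℝ) := by
  unfold ml
  rw [← Multiset.sum_map_singleton (Multiset.map v Finset.univ.val), Multiset.map_map]
  rfl

theorem trace_iff {k : ℕ} (v : Fin (k + 1) → ℝ) (w : Fin k → ℝ) (c : ℝ) (a n : ℕ)
    (hn : a + n ≤ k)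
    (h1 : ∀ j : Fin k, (j : ℕ) < a → v j.castSucc = w j)
    (h2 : ∀ j : Fin k, a + n ≤ (j : ℕ) → v j.succ = w j) :
    ml v = c ::ₘ ml w ↔
      ml (fun l : Fin (n + 1) => v ⟨a + l, by omega⟩) =
        c ::ₘ ml (fun l : Fin n => w ⟨a + l, by omega⟩) := by
  obtain ⟨r, rfl⟩ := Nat.exists_eq_add_of_le hn
  set g : ℕ → Multiset ℝ := fun t => if h : t < a + n + r + 1 then {v ⟨t, h⟩} else 0 with hg
  set g' : ℕ → Multiset ℝ := fun t => if h : t < a + n + r then {w ⟨t, h⟩} else 0 with hg'
  have gv : ∀ (t : ℕ) (h : t < a + n + r + 1), g t = {v ⟨t, h⟩} := fun t h => dif_pos h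
  have gw : ∀ (t : ℕ) (h : t < a + n + r), g' t = {w ⟨t, h⟩} := fun t h => dif_pos h
  have e1 : ml v = ∑ t ∈ Finset.range (a + ((n + 1) + r)), g t := by
    rw [ml_eq_sum, show a + ((n + 1) + r) = a + n + r + 1 by ring, ← Fin.sum_univ_eq_sum_range g]
    exact Finset.sum_congr rfl (fun i _ => (gv i i.2).symm)
  have e2 : ml w = ∑ t ∈ Finset.range (a + (n + r)), g' t := by
    rw [ml_eq_sum, show a + (n + r) = a + n + r by ring, ← Fin.sum_univ_eq_sum_range g']
    exact Finset.sum_congr rfl (fun i _ => (gw i i.2).symm)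
  have e3 : ml (fun l : Fin (n + 1) => v ⟨a + l, by omega⟩) =
      ∑ t ∈ Finset.range (n + 1), g (a + t) := by
    rw [ml_eq_sum, ← Fin.sum_univ_eq_sum_range (fun t => g (a + t))]
    exact Finset.sum_congr rfl (fun i _ => (gv (a + i) (by omega)).symm)
  have e4 : ml (fun l : Fin n => w ⟨a + l, by omega⟩) =
      ∑ t ∈ Finset.range n, g' (a + t) := by
    rw [ml_eq_sum, ← Fin.sum_univ_eq_sum_range (fun t => g' (a + t))]
    exact Finset.sum_congr rfl (fun i _ => (gw (a + i) (by omega)).symm)
  have e5 : ∑ t ∈ Finset.range a, g t = ∑ t ∈ Finset.range a, g' t := by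
    refine Finset.sum_congr rfl (fun t ht => ?_)
    have ht' : t < a := Finset.mem_range.mp ht
    rw [gv t (by omega), gw t (by omega), ← h1 ⟨t, by omega⟩ ht']
    rfl
  have e6 : ∑ t ∈ Finset.range r, g (a + ((n + 1) + t)) =
      ∑ t ∈ Finset.range r, g' (a + (n + t)) := by
    refine Finset.sum_congr rfl (fun t ht => ?_)
    have ht' : t < r := Finset.mem_range.mp ht
    have h3 := h2 ⟨a + (n + t), by omega⟩ (by simp only; omega)
    rw [gw (a + (n + t)) (by omega), ← h3, gv (a + ((n + 1) + t)) (by omega)]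
    congr 2
    apply Fin.ext
    simp only [Fin.val_succ]
    omega
  rw [e1, e2, e3, e4, Finset.sum_range_add g, Finset.sum_range_add (fun x => g (a + x)),
    Finset.sum_range_add g', Finset.sum_range_add (fun x => g' (a + x)), e5, e6,
    ← Multiset.singleton_add, ← Multiset.singleton_add]
  set X := ∑ t ∈ Finset.range a, g' t
  set Y := ∑ t ∈ Finset.range (n + 1), g (a + t)
  set Z := ∑ t ∈ Finset.range r, g' (a + (n + t))
  set Y' := ∑ t ∈ Finset.range n, g' (a + t)
  constructor
  · intro h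
    have h3 : (X + Z) + Y = (X + Z) + ({c} + Y') := by
      calc (X + Z) + Y = X + (Y + Z) := by abel
        _ = {c} + (X + (Y' + Z)) := h
        _ = (X + Z) + ({c} + Y') := by abel
    exact add_left_cancel h3
  · intro h
    rw [h]
    abel

/-- extension of a family to a longer index range -/
def ext {α : Type*} (a N K : ℕ) (z : α) (u : Fin N → α) : Fin K → α :=
  fun i => if h : a ≤ (i : ℕ) ∧ (i : ℕ) < a + N then u ⟨i - a, by omega⟩ else z

theorem ext_in {α : Type*} {a N K : ℕ} (z : α) (u : Fin N → α) (l : Fin N) (h : a + (l : ℕ) < K) :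
    ext a N K z u ⟨a + l, h⟩ = u l := by
  have hl := l.2
  unfold ext
  rw [dif_pos ⟨by simp, by simp⟩]
  congr 1
  apply Fin.ext
  simp

theorem ext_out {α : Type*} {a N K : ℕ} (z : α) (u : Fin N → α) (i : Fin K)
    (h : ¬ (a ≤ (i : ℕ) ∧ (i : ℕ) < a + N)) : ext a N K z u i = z := by
  unfold ext
  rw [dif_neg h]

theorem ext_cases {α : Type*} {a N K : ℕ} (z : α) (u : Fin N → α) (i : Fin K) (P : α → Prop)
    (hz : P z) (hu : ∀ l, P (u l)) : P (ext a N K z u i) := by
  unfold ext
  split_ifs with h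
  · exact hu _
  · exact hz

theorem sum_ext {M : Type*} [AddCommMonoid M] {a N K : ℕ} (hK : a + N ≤ K)
    (f : Fin K → M) (g : Fin N → M)
    (h0 : ∀ i : Fin K, ¬ (a ≤ (i : ℕ) ∧ (i : ℕ) < a + N) → f i = 0)
    (h1 : ∀ l : Fin N, f ⟨a + l, by omega⟩ = g l) : ∑ i, f i = ∑ l, g l := by
  symm
  refine Fintype.sum_of_injective (fun l : Fin N => (⟨a + l, by omega⟩ : Fin K)) ?_ g f ?_ ?_
  · intro l l' h
    have h' := congrArg Fin.val h
    simp only at h'
    apply Fin.ext
    omega
  · intro i hi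
    apply h0
    rintro ⟨h2, h3⟩
    apply hi
    refine ⟨⟨i - a, by omega⟩, ?_⟩
    apply Fin.ext
    simp only
    omega
  · intro l
    exact (h1 l).symm

variable {m : ℕ}

theorem Sd_inter (F : E m → ℝ) {B B' : Set (E m)} (h : B' ⊆ B) : Sd F B ∩ B' = Sd F B' := by
  ext x
  constructor
  · rintro ⟨h1, h2⟩
    exact ⟨h2, h1.2⟩
  · rintro ⟨h1, h2⟩
    exact ⟨⟨h h1, h2⟩, h1⟩

theorem int_ind (F : E m → ℝ) {B B' : Set (E m)} (hB' : IsOpen B') (h : B' ⊆ B)
    (G : E m → E m) (d : E m → E m) :
    ∫ x in Sd F B, (2 * inner ℝ (G x) (B'.indicator d x) + ‖B'.indicator d x‖ ^ 2) =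
      ∫ x in Sd F B', (2 * inner ℝ (G x) (d x) + ‖d x‖ ^ 2) := by
  have e : (fun x => 2 * inner ℝ (G x) (B'.indicator d x) + ‖B'.indicator d x‖ ^ 2) =
      B'.indicator (fun x => 2 * inner ℝ (G x) (d x) + ‖d x‖ ^ 2) := by
    funext x
    by_cases hx : x ∈ B'
    · rw [indicator_of_mem hx, indicator_of_mem hx]
    · rw [indicator_of_notMem hx, indicator_of_notMem hx]
      simp
  rw [e, setIntegral_indicator hB'.measurableSet, Sd_inter F h]

theorem Sd_mono (F : E m → ℝ) {B B' : Set (E m)} (h : B' ⊆ B) : Sd F B' ⊆ Sd F B :=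
  fun _ hx => ⟨h hx.1, hx.2⟩

theorem Sc_mono (F : E m → ℝ) {B B' : Set (E m)} (h : B' ⊆ B) : Sc F B' ⊆ Sc F B :=
  fun _ hx => ⟨h hx.1, hx.2⟩

end CLS_

open CLS_ in
theorem cls_proof (hWBA : Stmt_WBA) (hTBA : Stmt_TBA) (hTPT : Stmt_TPT) (hGEF : Stmt_GEF)
    (hSTR : Stmt_STR) : Stmt_CLS := by
  intro m k F φ p R L i v gv w gw a n hn hgeo hcfg hlow hhigh
  have hFc : Continuous F := hgeo.cF.continuous
  have hφc : Continuous φ := hgeo.cφ.continuous
  have hpB : p ∈ Sc (fun x => -F x) (ball p R) := by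
    refine ⟨mem_ball_self hgeo.hR, ?_⟩
    simp [hgeo.Fp]
  -- choice of the radius
  have hev : ∀ j : Fin k, ∀ᶠ x in 𝓝[Sc (fun x => -F x) (ball p R)] p,
      ((j : ℕ) < a → w j x < φ x) ∧ (a + n ≤ (j : ℕ) → φ x < w j x) := by
    intro j
    have hc := hcfg.cw j p hpB
    have hcφ : ContinuousWithinAt φ (Sc (fun x => -F x) (ball p R)) p :=
      hφc.continuousWithinAt
    refine Filter.Eventually.and ?_ ?_
    · by_cases h : (j : ℕ) < a
      · exact (hc.eventually_lt hcφ (hlow j h)).mono (fun x hx _ => hx)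
      · exact Eventually.of_forall (fun x h' => absurd h' h)
    · by_cases h : a + n ≤ (j : ℕ)
      · exact (hcφ.eventually_lt hc (hhigh j h)).mono (fun x hx _ => hx)
      · exact Eventually.of_forall (fun x h' => absurd h' h)
  have hev2 := Filter.eventually_all.mpr hev
  obtain ⟨ρ0, hρ0, hsub⟩ := Metric.mem_nhdsWithin_iff.mp hev2
  refine ⟨min ρ0 R, lt_min hρ0 hgeo.hR, min_le_right _ _, ?_⟩
  set ρ := min ρ0 R with hρdef
  have hρ : 0 < ρ := lt_min hρ0 hgeo.hR
  have hρR : ρ ≤ R := min_le_right _ _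
  have hBB : ball p ρ ⊆ ball p R := ball_subset_ball hρR
  have hoB : IsOpen (ball p R) := isOpen_ball
  have hoB' : IsOpen (ball p ρ) := isOpen_ball
  have hstrict : ∀ x ∈ ball p ρ, F x = 0 → ∀ j : Fin k,
      ((j : ℕ) < a → w j x < φ x) ∧ (a + n ≤ (j : ℕ) → φ x < w j x) := by
    intro x hx h0
    have hx0 : x ∈ ball p ρ0 := ball_subset_ball (min_le_left _ _) hx
    exact hsub ⟨hx0, hBB hx, by simp [h0]⟩
  have hgeo' : Geo F φ p ρ L i :=
    { hR := hρ
      hL := hgeo.hL
      sm := by
        have h1 := hgeo.sm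
        have h2 : (0 : ℝ) ≤ 1000 * m * L := by
          have := hgeo.hL
          positivity
        nlinarith [mul_le_mul_of_nonneg_left hρR h2]
      cF := hgeo.cF
      cφ := hgeo.cφ
      Fp := hgeo.Fp
      gp := hgeo.gp
      gl := fun x hx => hgeo.gl x (hBB hx)
      lF := fun x hx => hgeo.lF x (hBB hx)
      lφ := fun x hx => hgeo.lφ x (hBB hx)
      di := fun x hx => hgeo.di x (hBB hx) }
  -- the trace facts
  have htrace : ∀ x ∈ ball p ρ, F x = 0 →
      (∀ j : Fin k, (j : ℕ) < a → v j.castSucc x = w j x ∧ w j x < φ x) ∧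
      (∀ j : Fin k, a + n ≤ (j : ℕ) → v j.succ x = w j x ∧ φ x < w j x) := by
    intro x hx h0
    have hxB := hBB hx
    have hmv := hcfg.mv x ⟨hxB, by rw [h0]⟩
    have hmw := hcfg.mw x ⟨hxB, by simp [h0]⟩
    obtain ⟨_, _, h3, _⟩ := hSTR k (fun i => v i x) (fun j => w j x) (φ x) hmv hmw
      (hcfg.tr x hxB h0)
    refine ⟨fun j hj => ?_, fun j hj => ?_⟩
    · have h4 := (hstrict x hx h0 j).1 hj
      exact ⟨(h3 j).1 h4.le, h4⟩
    · have h4 := (hstrict x hx h0 j).2 hj
      exact ⟨(h3 j).2.1 h4.le, h4⟩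
  refine ⟨hgeo', ?_, htrace⟩
  have hoSd : IsOpen (Sd F (ball p R)) := hoB.inter (isOpen_lt continuous_const hFc)
  have hoSm : IsOpen (Sd (fun x => -F x) (ball p R)) :=
    hoB.inter (isOpen_lt continuous_const hFc.neg)
  have hoSd' : IsOpen (Sd F (ball p ρ)) := hoB'.inter (isOpen_lt continuous_const hFc)
  have hoSm' : IsOpen (Sd (fun x => -F x) (ball p ρ)) :=
    hoB'.inter (isOpen_lt continuous_const hFc.neg)
  refine
    { cv := fun l => (hcfg.cv _).mono (Sc_mono F hBB)
      cw := fun l => (hcfg.cw _).mono (Sc_mono (fun x => -F x) hBB)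
      hv := fun l => (hWBA m _ hoSd).1 _ _ _ hoSd' (Sd_mono F hBB) (hcfg.hv _)
      hw := fun l => (hWBA m _ hoSm).1 _ _ _ hoSm' (Sd_mono (fun x => -F x) hBB) (hcfg.hw _)
      ev := fun l => (hcfg.ev _).mono_set (Sd_mono F hBB)
      ew := fun l => (hcfg.ew _).mono_set (Sd_mono (fun x => -F x) hBB)
      mv := ?_
      mw := ?_
      tr := ?_
      mn := ?_ }
  · intro x hx l l' hl
    apply hcfg.mv x (Sc_mono F hBB hx)
    rw [Fin.le_def] at hl ⊢
    simp only
    omega
  · intro x hx l l' hl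
    apply hcfg.mw x (Sc_mono (fun x => -F x) hBB hx)
    rw [Fin.le_def] at hl ⊢
    simp only
    omega
  · intro x hx h0
    have h1 := hcfg.tr x (hBB hx) h0
    exact (trace_iff (fun i => v i x) (fun j => w j x) (φ x) a n hn
      (fun j hj => ((htrace x hx h0).1 j hj).1) (fun j hj => ((htrace x hx h0).2 j hj).1)).mp h1
  · intro α dα β dβ hα hβ htr
    obtain ⟨_, hG1, _⟩ := hGEF m F φ p R L i hgeo
    have hne : ∀ x ∈ ball p R, F x = 0 → fderiv ℝ F x ≠ 0 := fun x hx _ => (hG1 x hx).2.2.2
    have hnem : ∀ x ∈ ball p R, (fun x => -F x) x = 0 → fderiv ℝ (fun x => -F x) x ≠ 0 := by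
      intro x hx _
      have h1 := (hG1 x hx).2.2.2
      have h2 : fderiv ℝ (fun x => -F x) x = -fderiv ℝ F x := fderiv_fun_neg
      rw [h2]
      exact neg_ne_zero.mpr h1
    have hext := (hTPT m (ball p R) F hoB hgeo.cF hne).2.2.2.2
    have hextm := (hTPT m (ball p R) (fun x => -F x) hoB hgeo.cF.neg hnem).2.2.2.2
    have hz : PT F (ball p R) (fun _ => 0) (fun _ => 0) :=
      (hTBA m (ball p R) F hoB hFc).2.1
    have hzm : PT (fun x => -F x) (ball p R) (fun _ => 0) (fun _ => 0) :=
      (hTBA m (ball p R) (fun x => -F x) hoB hFc.neg).2.1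
    -- extended perturbations
    set A : Fin (k + 1) → E m → ℝ :=
      ext a (n + 1) (k + 1) (fun _ => 0) (fun l => (ball p ρ).indicator (α l)) with hA
    set dA : Fin (k + 1) → E m → E m :=
      ext a (n + 1) (k + 1) (fun _ => 0) (fun l => (ball p ρ).indicator (dα l)) with hdA
    set Bb : Fin k → E m → ℝ :=
      ext a n k (fun _ => 0) (fun l => (ball p ρ).indicator (β l)) with hBb
    set dB : Fin k → E m → E m :=
      ext a n k (fun _ => 0) (fun l => (ball p ρ).indicator (dβ l)) with hdB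
    have hPA : ∀ i, PT F (ball p R) (A i) (dA i) := by
      intro i
      by_cases h : a ≤ (i : ℕ) ∧ (i : ℕ) < a + (n + 1)
      · have hi : i = ⟨a + ((⟨i - a, by omega⟩ : Fin (n + 1)) : ℕ), by simp only; omega⟩ := by
          apply Fin.ext
          simp only
          omega
        rw [hi, hA, hdA, ext_in, ext_in]
        exact hext _ _ _ hoB' hBB (hα _)
      · rw [hA, hdA, ext_out _ _ i h, ext_out _ _ i h]
        exact hz
    have hPB : ∀ j, PT (fun x => -F x) (ball p R) (Bb j) (dB j) := by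
      intro i
      by_cases h : a ≤ (i : ℕ) ∧ (i : ℕ) < a + n
      · have hi : i = ⟨a + ((⟨i - a, by omega⟩ : Fin n) : ℕ), by simp only; omega⟩ := by
          apply Fin.ext
          simp only
          omega
        rw [hi, hBb, hdB, ext_in, ext_in]
        exact hextm _ _ _ hoB' hBB (hβ _)
      · rw [hBb, hdB, ext_out _ _ i h, ext_out _ _ i h]
        exact hzm
    have hmain := hcfg.mn A dA Bb dB hPA hPB ?_
    · have s1 : ∑ i, ∫ x in Sd F (ball p R), (2 * inner ℝ (gv i x) (dA i x) + ‖dA i x‖ ^ 2) =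
          ∑ l : Fin (n + 1), ∫ x in Sd F (ball p ρ),
            (2 * inner ℝ (gv ⟨a + l, by omega⟩ x) (dα l x) + ‖dα l x‖ ^ 2) := by
        refine sum_ext (a := a) (by omega) _ _ ?_ ?_
        · intro i hi
          rw [hdA, ext_out _ _ i hi]
          simp
        · intro l
          rw [hdA, ext_in]
          exact int_ind F hoB' hBB _ _
      have s2 : ∑ j, ∫ x in Sd (fun x => -F x) (ball p R),
            (2 * inner ℝ (gw j x) (dB j x) + ‖dB j x‖ ^ 2) =
          ∑ l : Fin n, ∫ x in Sd (fun x => -F x) (ball p ρ),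
            (2 * inner ℝ (gw ⟨a + l, by omega⟩ x) (dβ l x) + ‖dβ l x‖ ^ 2) := by
        refine sum_ext (a := a) (by omega) _ _ ?_ ?_
        · intro i hi
          rw [hdB, ext_out _ _ i hi]
          simp
        · intro l
          rw [hdB, ext_in]
          exact int_ind (fun x => -F x) hoB' hBB _ _
      rw [s1, s2] at hmain
      exact hmain
    · intro x hx h0
      by_cases hxρ : x ∈ ball p ρ
      · obtain ⟨t1, t2⟩ := htrace x hxρ h0
        refine (trace_iff (fun i => v i x + A i x) (fun j => w j x + Bb j x) (φ x) a n hn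
          ?_ ?_).mpr ?_
        · intro j hj
          have o1 : A j.castSucc = fun _ => 0 := by
            rw [hA]
            apply ext_out
            simp only [Fin.val_castSucc]
            omega
          have o2 : Bb j = fun _ => 0 := by
            rw [hBb]
            apply ext_out
            omega
          simp only [o1, o2, add_zero]
          exact (t1 j hj).1
        · intro j hj
          have o1 : A j.succ = fun _ => 0 := by
            rw [hA]
            apply ext_out
            simp only [Fin.val_succ]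
            omega
          have o2 : Bb j = fun _ => 0 := by
            rw [hBb]
            apply ext_out
            omega
          simp only [o1, o2, add_zero]
          exact (t2 j hj).1
        · have h5 := htr x hxρ h0
          have f1 : (fun l : Fin (n + 1) => v ⟨a + l, by omega⟩ x + A ⟨a + l, by omega⟩ x) =
              fun l : Fin (n + 1) => v ⟨a + l, by omega⟩ x + α l x := by
            funext l
            rw [hA, ext_in, indicator_of_mem hxρ]
          have f2 : (fun l : Fin n => w ⟨a + l, by omega⟩ x + Bb ⟨a + l, by omega⟩ x) =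
              fun l : Fin n => w ⟨a + l, by omega⟩ x + β l x := by
            funext l
            rw [hBb, ext_in, indicator_of_mem hxρ]
          rw [f1, f2]
          exact h5
      · have o1 : ∀ i, A i x = 0 := by
          intro i
          rw [hA]
          exact ext_cases (fun _ => 0) _ i (fun f => f x = 0) rfl
            (fun l => indicator_of_notMem hxρ _)
        have o2 : ∀ j, Bb j x = 0 := by
          intro j
          rw [hBb]
          exact ext_cases (fun _ => 0) _ j (fun f => f x = 0) rfl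
            (fun l => indicator_of_notMem hxρ _)
        simp only [o1, o2, add_zero]
        exact hcfg.tr x hx h0

end Pool.Agent.COB
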