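import Pool.Agent.COB.Stmts

/-!
# Squad COB (MP_71cfa6_an), module CMP: the comparison principle
-/

set_option autoImplicit false

namespace Pool.Agent.COB

open MeasureTheory Set Metric Filter Topology
open scoped ENNReal

theorem cmp_proof (hWBA : Stmt_WBA) (hWPP : Stmt_WPP) (hWEX : Stmt_WEX) (hWCZ : Stmt_WCZ) :
    Stmt_CMP := by
  intro m D f g hm hD hbd hcont hsub hfr
  obtain ⟨hwg, hS⟩ := hsub
  have key : ∀ ε : ℝ, 0 < ε → ∀ x ∈ D, f x ≤ ε := by
    intro ε hε
    obtain ⟨-, wadd, -, wcongr, -, wconst⟩ := hWBA m D hD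
    have h1 : HasWG D (fun x => f x - ε) g := by
      refine wcongr _ _ _ _ (wadd f (fun _ => -ε) g (fun _ => 0) hwg (wconst (-ε))) ?_ ?_
      · intro x _
        ring
      · exact Eventually.of_forall fun x => (add_zero (g x)).symm
    obtain ⟨h2, -⟩ := hWPP m D (fun x => f x - ε) g hD h1
    have hK : IsCompact (closure D) := hbd.isCompact_closure
    have hfrD : ∀ x ∈ closure D, ε ≤ f x → x ∈ D := by
      intro x hx hfx
      by_contra hxD
      have h3 : x ∈ frontier D := by
        rw [hD.frontier_eq]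
        exact ⟨hx, hxD⟩
      have := hfr x h3
      linarith
    have hC : IsCompact (closure D ∩ f ⁻¹' (Ici ε)) := by
      refine hK.of_isClosed_subset ?_ inter_subset_left
      exact hcont.preimage_isClosed_of_isClosed hK.isClosed isClosed_Ici
    have hTB : TB D (fun x => max (f x - ε) 0) ({x | 0 < f x - ε}.indicator g) := by
      refine ⟨h2, closure D ∩ f ⁻¹' (Ici ε), ?_, hC, ?_⟩
      · rintro x ⟨hx1, hx2⟩
        exact hfrD x hx1 hx2
      · rintro x ⟨hx1, hx2⟩
        refine max_eq_right ?_
        by_contra hcon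
        push Not at hcon
        exact hx2 ⟨subset_closure hx1, by
          show ε ≤ f x
          linarith⟩
    have h4 := hS _ _ hTB (fun x _ => le_max_right _ _)
    rw [zero_mul] at h4
    have h5 : ∀ x, inner ℝ (g x) (({x | 0 < f x - ε}.indicator g) x) =
        ‖({x | 0 < f x - ε}.indicator g) x‖ ^ 2 := by
      intro x
      by_cases hx : x ∈ {x | 0 < f x - ε}
      · rw [indicator_of_mem hx, real_inner_self_eq_norm_sq]
      · rw [indicator_of_notMem hx, inner_zero_right, norm_zero]
        norm_num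
    simp only [h5] at h4
    obtain ⟨h6, -, -, -, -⟩ := hWEX m D _ _ hD hTB
    have h7 : ∫ x in D, ‖({x | 0 < f x - ε}.indicator g) x‖ ^ 2 = 0 :=
      le_antisymm h4 (integral_nonneg fun x => by positivity)
    rw [integral_eq_zero_iff_of_nonneg (fun x => by positivity) h6] at h7
    have h8 : ∀ᵐ x : E m, x ∈ D → ({x | 0 < f x - ε}.indicator g) x = 0 := by
      rw [Filter.EventuallyEq, ae_restrict_iff' hD.measurableSet] at h7
      filter_upwards [h7] with x hx hxD
      have h9 := hx hxD
      have h10 : ‖({x | 0 < f x - ε}.indicator g) x‖ ^ 2 = 0 := h9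
      exact norm_eq_zero.mp (pow_eq_zero_iff (two_ne_zero)|>.mp h10)
    intro x hx
    have h11 := hWCZ m D _ _ hD hm hTB h8 x hx
    have h12 := le_max_left (f x - ε) 0
    have h13 : max (f x - ε) 0 = 0 := h11
    linarith
  intro x hx
  refine le_of_forall_pos_le_add fun ε hε => ?_
  rw [zero_add]
  exact key ε hε x hx

end Pool.Agent.COB
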