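import Pool.Agent.COB.Stmts

/-!
Squad COB, module CO0: the energy inequality from the two competitors.
-/

set_option autoImplicit false

namespace Pool.Agent.COB

open MeasureTheory Set Metric Filter Topology

namespace CO0_

variable {m : ℕ}

/-- square integrable fields -/
def L2 (μ : Measure (E m)) (f : E m → E m) : Prop :=
  AEStronglyMeasurable f μ ∧ Integrable (fun x => ‖f x‖ ^ 2) μ

theorem L2.add {μ : Measure (E m)} {f g : E m → E m} (hf : L2 μ f) (hg : L2 μ g) :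
    L2 μ (fun x => f x + g x) := by
  refine ⟨hf.1.add hg.1, ?_⟩
  refine ((hf.2.const_mul 2).add (hg.2.const_mul 2)).mono'
    ((hf.1.add hg.1).norm.pow 2) (ae_of_all _ fun x => ?_)
  have h1 : ‖f x + g x‖ ≤ ‖f x‖ + ‖g x‖ := norm_add_le _ _
  rw [Real.norm_of_nonneg (by positivity)]
  simp only [Pi.add_apply]
  nlinarith [norm_nonneg (f x + g x), norm_nonneg (f x), norm_nonneg (g x),
    sq_nonneg (‖f x‖ - ‖g x‖)]

theorem L2.smul {μ : Measure (E m)} {f : E m → E m} (c : ℝ) (hf : L2 μ f) :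
    L2 μ (fun x => c • f x) := by
  refine ⟨hf.1.const_smul c, ?_⟩
  have : (fun x => ‖c • f x‖ ^ 2) = fun x => c ^ 2 * ‖f x‖ ^ 2 := by
    funext x
    rw [norm_smul, mul_pow, Real.norm_eq_abs, sq_abs]
  rw [this]
  exact hf.2.const_mul _

theorem L2.sub {μ : Measure (E m)} {f g : E m → E m} (hf : L2 μ f) (hg : L2 μ g) :
    L2 μ (fun x => f x - g x) := by
  have h := hf.add (hg.smul (-1))
  have e : (fun x => f x + (-1 : ℝ) • g x) = fun x => f x - g x := by
    funext x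
    rw [neg_one_smul, sub_eq_add_neg]
  rwa [e] at h

theorem L2.inner {μ : Measure (E m)} {f g : E m → E m} (hf : L2 μ f) (hg : L2 μ g) :
    Integrable (fun x => inner ℝ (f x) (g x)) μ := by
  refine (hf.2.add hg.2).mono' (hf.1.inner hg.1) (ae_of_all _ fun x => ?_)
  have h1 := abs_real_inner_le_norm (f x) (g x)
  rw [Real.norm_eq_abs]
  simp only [Pi.add_apply]
  nlinarith [norm_nonneg (f x), norm_nonneg (g x), sq_nonneg (‖f x‖ - ‖g x‖)]

theorem pt_L2 {F : E m → ℝ} {B : Set (E m)} {a : E m → ℝ} {da : E m → E m}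
    (h : PT F B a da) : L2 (volume.restrict (Sd F B)) da := ⟨h.wg.meas, h.en⟩

/-- a competitor which changes two sheets above and one sheet below -/
theorem comp {k : ℕ} {F φ : E m → ℝ} {B : Set (E m)}
    {v : Fin (k + 1) → E m → ℝ} {gv : Fin (k + 1) → E m → E m}
    {w : Fin k → E m → ℝ} {gw : Fin k → E m → E m} (hc : Cfg F φ B v gv w gw) (j : Fin k)
    (h0 : PT F B (fun _ => 0) (fun _ => 0))
    (h0' : PT (fun x => -F x) B (fun _ => 0) (fun _ => 0))
    (α γ η : E m → ℝ) (dα dγ dη : E m → E m) (hα : PT F B α dα) (hγ : PT F B γ dγ)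
    (hη : PT (fun x => -F x) B η dη)
    (htr : ∀ x ∈ B, F x = 0 →
      ml (Function.update (Function.update (fun i => v i x) j.castSucc
        (v j.castSucc x + α x)) j.succ (v j.succ x + γ x)) =
      φ x ::ₘ ml (Function.update (fun l => w l x) j (w j x + η x))) :
    0 ≤ (∫ x in Sd F B, (2 * inner ℝ (gv j.castSucc x) (dα x) + ‖dα x‖ ^ 2)) +
      (∫ x in Sd F B, (2 * inner ℝ (gv j.succ x) (dγ x) + ‖dγ x‖ ^ 2)) +
      ∫ x in Sd (fun x => -F x) B, (2 * inner ℝ (gw j x) (dη x) + ‖dη x‖ ^ 2) := by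
  have hne : j.castSucc ≠ j.succ := (Fin.castSucc_lt_succ (i := j)).ne
  set a : Fin (k + 1) → E m → ℝ := Function.update (Function.update (fun _ _ => 0) j.castSucc α)
    j.succ γ with ha
  set da : Fin (k + 1) → E m → E m := Function.update
    (Function.update (fun _ _ => 0) j.castSucc dα) j.succ dγ with hda
  set b : Fin k → E m → ℝ := Function.update (fun _ _ => 0) j η with hb
  set db : Fin k → E m → E m := Function.update (fun _ _ => 0) j dη with hdb
  have a1 : a j.castSucc = α := by rw [ha, Function.update_of_ne hne, Function.update_self]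
  have a2 : a j.succ = γ := by rw [ha, Function.update_self]
  have a3 : ∀ i, i ≠ j.castSucc → i ≠ j.succ → a i = fun _ => 0 := by
    intro i h1 h2
    rw [ha, Function.update_of_ne h2, Function.update_of_ne h1]
  have d1 : da j.castSucc = dα := by rw [hda, Function.update_of_ne hne, Function.update_self]
  have d2 : da j.succ = dγ := by rw [hda, Function.update_self]
  have d3 : ∀ i, i ≠ j.castSucc → i ≠ j.succ → da i = fun _ => 0 := by
    intro i h1 h2
    rw [hda, Function.update_of_ne h2, Function.update_of_ne h1]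
  have b1 : b j = η := by rw [hb, Function.update_self]
  have b3 : ∀ i, i ≠ j → b i = fun _ => 0 := by
    intro i h1
    rw [hb, Function.update_of_ne h1]
  have e1 : db j = dη := by rw [hdb, Function.update_self]
  have e3 : ∀ i, i ≠ j → db i = fun _ => 0 := by
    intro i h1
    rw [hdb, Function.update_of_ne h1]
  have h := hc.mn a da b db ?_ ?_ ?_
  · rw [Finset.sum_eq_add j.castSucc j.succ hne, Finset.sum_eq_single j] at h
    · rw [d1, d2, e1] at h
      exact h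
    · intro i _ hi
      rw [e3 i hi]
      simp
    · intro hi
      exact absurd (Finset.mem_univ _) hi
    · intro i _ hi
      rw [d3 i hi.1 hi.2]
      simp
    · intro hi
      exact absurd (Finset.mem_univ _) hi
    · intro hi
      exact absurd (Finset.mem_univ _) hi
  · intro i
    by_cases h2 : i = j.succ
    · rw [h2, a2, d2]
      exact hγ
    · by_cases h1 : i = j.castSucc
      · rw [h1, a1, d1]
        exact hα
      · rw [a3 i h1 h2, d3 i h1 h2]
        exact h0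
  · intro i
    by_cases h1 : i = j
    · rw [h1, b1, e1]
      exact hη
    · rw [b3 i h1, e3 i h1]
      exact h0'
  · intro x hx hF
    have g1 : (fun i => v i x + a i x) = Function.update (Function.update (fun i => v i x)
        j.castSucc (v j.castSucc x + α x)) j.succ (v j.succ x + γ x) := by
      funext i
      by_cases h2 : i = j.succ
      · rw [h2, a2, Function.update_self]
      · rw [Function.update_of_ne h2]
        by_cases h1 : i = j.castSucc
        · rw [h1, a1, Function.update_self]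
        · rw [Function.update_of_ne h1, a3 i h1 h2, add_zero]
    have g2 : (fun l => w l x + b l x) = Function.update (fun l => w l x) j (w j x + η x) := by
      funext l
      by_cases h1 : l = j
      · rw [h1, b1, Function.update_self]
      · rw [Function.update_of_ne h1, b3 l h1, add_zero]
    rw [g1, g2]
    exact htr x hx hF

/-- pointwise identity for the two competitors -/
theorem pw (u1 u2 t b c : E m) :
    (2 * inner ℝ u1 b + ‖b‖ ^ 2) + (2 * inner ℝ u2 (t + (-1 : ℝ) • b) +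
      ‖t + (-1 : ℝ) • b‖ ^ 2) +
      ((2 * inner ℝ u1 (c + (-1 : ℝ) • t) + ‖c + (-1 : ℝ) • t‖ ^ 2) +
      (2 * inner ℝ u2 ((-1 : ℝ) • c) + ‖(-1 : ℝ) • c‖ ^ 2)) ≤
    2 * inner ℝ (u2 - u1) (t - b - c) + (4 * ‖t‖ ^ 2 + 3 * ‖b‖ ^ 2 + 3 * ‖c‖ ^ 2) := by
  have n1 : ‖t + (-1 : ℝ) • b‖ ^ 2 = ‖t‖ ^ 2 - 2 * inner ℝ t b + ‖b‖ ^ 2 := by
    rw [neg_one_smul, ← sub_eq_add_neg, norm_sub_sq_real]
  have n2 : ‖c + (-1 : ℝ) • t‖ ^ 2 = ‖c‖ ^ 2 - 2 * inner ℝ c t + ‖t‖ ^ 2 := by
    rw [neg_one_smul, ← sub_eq_add_neg, norm_sub_sq_real]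
  have n3 : ‖(-1 : ℝ) • c‖ ^ 2 = ‖c‖ ^ 2 := by rw [neg_one_smul, norm_neg]
  have n4 : 0 ≤ ‖t + b‖ ^ 2 := sq_nonneg _
  have n5 : 0 ≤ ‖c + t‖ ^ 2 := sq_nonneg _
  rw [norm_add_sq_real] at n4 n5
  rw [n1, n2, n3]
  simp only [inner_add_right, inner_sub_right, inner_sub_left, inner_smul_right]
  nlinarith

/-- pointwise identity for the truncation -/
theorem pz (g t : E m) (P : Prop) [Decidable P] :
    ‖(if P then t - g else 0 : E m)‖ ^ 2 + 2 * inner ℝ g (if P then t - g else 0 : E m) ≤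
      ‖t‖ ^ 2 := by
  by_cases hP : P
  · rw [if_pos hP, norm_sub_sq_real, inner_sub_right, real_inner_self_eq_norm_sq,
      real_inner_comm]
    nlinarith [sq_nonneg ‖g‖]
  · rw [if_neg hP, norm_zero, inner_zero_right]
    nlinarith [sq_nonneg ‖t‖]

end CO0_

open CO0_ in
theorem co0_proof (hWBA : Stmt_WBA) (_hWUN : Stmt_WUN) (_hWMM : Stmt_WMM) (hWEX : Stmt_WEX)
    (hTBA : Stmt_TBA) (hTPT : Stmt_TPT) (hH0L : Stmt_H0L) (hGEF : Stmt_GEF)
    (_hSTR : Stmt_STR) (hTRP : Stmt_TRP) (hEUL : Stmt_EUL) : Stmt_CO0 := by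
  intro m k F φ p R L i v gv w gw j θ β β' dθ dβ dβ' hm hG hc hθ hβ hβ' hθ0 hΓ
  classical
  set B := ball p R with hB
  have hBo : IsOpen B := isOpen_ball
  have hFc : Continuous F := hG.cF.continuous
  have hFd : ∀ x ∈ B, F x = 0 → fderiv ℝ F x ≠ 0 := fun x hx _ =>
    ((hGEF m F φ p R L i hG).2.1 x hx).2.2.2
  have hUo : IsOpen (Sd F B) := by
    have : Sd F B = B ∩ {x | 0 < F x} := rfl
    rw [this]
    exact hBo.inter (isOpen_lt continuous_const hFc)
  have hU'o : IsOpen (Sd (fun x => -F x) B) := by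
    have : Sd (fun x => -F x) B = B ∩ {x | 0 < -F x} := rfl
    rw [this]
    exact hBo.inter (isOpen_lt continuous_const hFc.neg)
  have hUB : Sd F B ⊆ B := fun x hx => hx.1
  have hU'B : Sd (fun x => -F x) B ⊆ B := fun x hx => hx.1
  have hdisj : Disjoint (Sd F B) (Sd (fun x => -F x) B) := by
    rw [Set.disjoint_left]
    rintro x ⟨_, h1⟩ ⟨_, h2⟩
    simp only [Left.neg_pos_iff] at h2
    linarith
  obtain ⟨_, T0, Tadd, Tsm, _, _, _, _, Padd, Psm, Pmax⟩ := hTBA m B F hBo hFc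
  obtain ⟨_, T0', _, _, _, _, _, _, _, _, _⟩ := hTBA m B (fun x => -F x) hBo hFc.neg
  obtain ⟨_, hTP, _, _, _⟩ := hTPT m B F hBo hG.cF hFd
  -- the pieces
  have Tup := Tadd _ _ _ _ hθ (Tsm (-1) _ _ hβ)
  have Tdn1 := Tadd _ _ _ _ hβ' (Tsm (-1) _ _ hθ)
  have Tdn2 := Tsm (-1) _ _ hβ'
  have Tdn3 := Tsm (-1) _ _ hθ
  have up := comp hc j T0 T0' β (fun x => θ x + (-1) * β x) θ dβ (fun x => dθ x + (-1 : ℝ) • dβ x)
    dθ (hTP _ _ hβ).1 (hTP _ _ Tup).1 (hTP _ _ hθ).2 (by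
      intro x hx hF
      have h1 := (hTRP k (fun i => v i x) (fun l => w l x) (φ x) (θ x) j
        (hc.mv x ⟨hx, hF.ge⟩) (hc.mw x ⟨hx, by simp [hF]⟩) (hc.tr x hx hF) (hθ0 x hx)).1
      beta_reduce at h1
      rw [← (hΓ x hx hF).1] at h1
      have e : v j.succ x + (θ x + (-1) * β x) = v j.succ x + (θ x - β x) := by ring
      rw [e]
      exact h1)
  have dn := comp hc j T0 T0' (fun x => β' x + (-1) * θ x) (fun x => (-1) * β' x)
    (fun x => (-1) * θ x) (fun x => dβ' x + (-1 : ℝ) • dθ x) (fun x => (-1 : ℝ) • dβ' x)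
    (fun x => (-1 : ℝ) • dθ x) (hTP _ _ Tdn1).1 (hTP _ _ Tdn2).1 (hTP _ _ Tdn3).2 (by
      intro x hx hF
      have h1 := (hTRP k (fun i => v i x) (fun l => w l x) (φ x) (θ x) j
        (hc.mv x ⟨hx, hF.ge⟩) (hc.mw x ⟨hx, by simp [hF]⟩) (hc.tr x hx hF) (hθ0 x hx)).2.1
      beta_reduce at h1
      rw [← (hΓ x hx hF).2] at h1
      have e1 : v j.castSucc x + (β' x + (-1) * θ x) = v j.castSucc x - (θ x - β' x) := by ring
      have e2 : v j.succ x + (-1) * β' x = v j.succ x - β' x := by ring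
      have e3 : w j x + (-1) * θ x = w j x - θ x := by ring
      rw [e1, e2, e3]
      exact h1)
  -- square integrability
  set U := Sd F B with hU
  set U' := Sd (fun x => -F x) B with hU'
  have lθ : L2 (volume.restrict B) dθ := ⟨hθ.wg.meas, (hWEX m B θ dθ hBo hθ).1⟩
  have lβ : L2 (volume.restrict B) dβ := ⟨hβ.wg.meas, (hWEX m B β dβ hBo hβ).1⟩
  have lβ' : L2 (volume.restrict B) dβ' := ⟨hβ'.wg.meas, (hWEX m B β' dβ' hBo hβ').1⟩
  have res : ∀ (f : E m → E m), L2 (volume.restrict B) f →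
      L2 (volume.restrict U) f ∧ L2 (volume.restrict U') f := fun f hf =>
    ⟨⟨hf.1.mono_measure (Measure.restrict_mono hUB le_rfl), hf.2.mono_measure
      (Measure.restrict_mono hUB le_rfl)⟩,
      ⟨hf.1.mono_measure (Measure.restrict_mono hU'B le_rfl), hf.2.mono_measure
      (Measure.restrict_mono hU'B le_rfl)⟩⟩
  have lθU := (res _ lθ).1
  have lβU := (res _ lβ).1
  have lβ'U := (res _ lβ').1
  have lθU' := (res _ lθ).2
  have lg1 : L2 (volume.restrict U) (gv j.castSucc) := ⟨(hc.hv _).meas, hc.ev _⟩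
  have lg2 : L2 (volume.restrict U) (gv j.succ) := ⟨(hc.hv _).meas, hc.ev _⟩
  have lw : L2 (volume.restrict U') (gw j) := ⟨(hc.hw _).meas, hc.ew _⟩
  have ldG : L2 (volume.restrict U) (fun x => gv j.succ x - gv j.castSucc x) := lg2.sub lg1
  -- the difference of the sheets
  obtain ⟨_, Wadd, Wsm, Wcongr, _, _⟩ := hWBA m U hUo
  have hGw : HasWG U (fun x => v j.succ x - v j.castSucc x)
      (fun x => gv j.succ x - gv j.castSucc x) := by
    refine Wcongr _ _ _ _ (Wadd _ _ _ _ (hc.hv j.succ) (Wsm (-1) _ _ (hc.hv j.castSucc)))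
      (fun x _ => by ring) (ae_of_all _ fun x => ?_)
    simp only
    rw [neg_one_smul, sub_eq_add_neg]
  have hGh : WHar U (fun x => v j.succ x - v j.castSucc x)
      (fun x => gv j.succ x - gv j.castSucc x) := by
    refine ⟨hGw, fun ξ dξ hξ => ?_⟩
    obtain ⟨E1, _, _⟩ := hEUL m k F φ p R L i v gv w gw hG hc
    have i1 := (hWEX m U ξ dξ hUo hξ).2.2.2.2 _ _ (hc.hv j.succ)
    have i2 := (hWEX m U ξ dξ hUo hξ).2.2.2.2 _ _ (hc.hv j.castSucc)
    have e : (fun x => inner ℝ (gv j.succ x - gv j.castSucc x) (dξ x)) =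
        fun x => inner ℝ (gv j.succ x) (dξ x) - inner ℝ (gv j.castSucc x) (dξ x) := by
      funext x
      rw [inner_sub_left]
    rw [e, integral_sub i1 i2, (E1 j.succ).2 ξ dξ hξ, (E1 j.castSucc).2 ξ dξ hξ, sub_zero]
  have hGc : ContinuousOn (fun x => v j.succ x - v j.castSucc x) (Sc F B) :=
    (hc.cv j.succ).sub (hc.cv j.castSucc)
  have hG0 : ∀ x ∈ Sc F B, 0 ≤ v j.succ x - v j.castSucc x := by
    intro x hx
    have := hc.mv x hx (Fin.castSucc_lt_succ (i := j)).le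
    simp only at this
    linarith
  have hz := Pmax θ dθ (fun x => v j.succ x - v j.castSucc x)
    (fun x => gv j.succ x - gv j.castSucc x) (hTP _ _ hθ).1 hGc hGw ldG.2 hG0
  set dz : E m → E m := {x | v j.succ x - v j.castSucc x < θ x}.indicator
    (fun x => dθ x - (gv j.succ x - gv j.castSucc x)) with hdz
  have ldz : L2 (volume.restrict U) dz := pt_L2 hz
  refine ⟨dz, hz, ?_⟩
  -- the test function which vanishes on the interface
  have hξ : PT F B (fun x => (θ x + (-1) * β x) + (-1) * β' x +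
      (-1) * max (θ x - (v j.succ x - v j.castSucc x)) 0)
      (fun x => (dθ x + (-1 : ℝ) • dβ x) + (-1 : ℝ) • dβ' x + (-1 : ℝ) • dz x) :=
    Padd _ _ _ _ (Padd _ _ _ _ (hTP _ _ Tup).1 (hTP _ _ Tdn2).1) (Psm (-1) _ _ hz)
  have h0 := hH0L m B F (fun x => v j.succ x - v j.castSucc x) _
    (fun x => gv j.succ x - gv j.castSucc x) _ hBo hFc hGh ldG.2 hξ (by
      intro x hx hF
      have h1 := (hTRP k (fun i => v i x) (fun l => w l x) (φ x) (θ x) j
        (hc.mv x ⟨hx, hF.ge⟩) (hc.mw x ⟨hx, by simp [hF]⟩) (hc.tr x hx hF) (hθ0 x hx)).2.2.1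
      beta_reduce at h1
      rw [← (hΓ x hx hF).1, ← (hΓ x hx hF).2] at h1
      rw [← h1]
      ring)
  have iz0 : Integrable (fun x => inner ℝ (gv j.succ x - gv j.castSucc x)
      (dθ x - dβ x - dβ' x)) (volume.restrict U) := ldG.inner ((lθU.sub lβU).sub lβ'U)
  have iz : Integrable (fun x => inner ℝ (gv j.succ x - gv j.castSucc x) (dz x))
      (volume.restrict U) := ldG.inner ldz
  have h1 : ∫ x in U, inner ℝ (gv j.succ x - gv j.castSucc x) (dθ x - dβ x - dβ' x) =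
      ∫ x in U, inner ℝ (gv j.succ x - gv j.castSucc x) (dz x) := by
    have e : (fun x => inner ℝ (gv j.succ x - gv j.castSucc x)
        ((dθ x + (-1 : ℝ) • dβ x) + (-1 : ℝ) • dβ' x + (-1 : ℝ) • dz x)) =
        fun x => inner ℝ (gv j.succ x - gv j.castSucc x) (dθ x - dβ x - dβ' x) -
          inner ℝ (gv j.succ x - gv j.castSucc x) (dz x) := by
      funext x
      rw [← inner_sub_right]
      congr 1
      simp only [neg_one_smul]
      abel
    rw [e, integral_sub iz0 iz] at h0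
    linarith
  -- add up the two competitors
  have q1 : Integrable (fun x => 2 * inner ℝ (gv j.castSucc x) (dβ x) + ‖dβ x‖ ^ 2)
      (volume.restrict U) := ((lg1.inner lβU).const_mul 2).add lβU.2
  have s2 := lθU.add (lβU.smul (-1))
  have q2 : Integrable (fun x => 2 * inner ℝ (gv j.succ x) (dθ x + (-1 : ℝ) • dβ x) +
      ‖dθ x + (-1 : ℝ) • dβ x‖ ^ 2) (volume.restrict U) :=
    ((lg2.inner s2).const_mul 2).add s2.2
  have s3 := lβ'U.add (lθU.smul (-1))
  have q3 : Integrable (fun x => 2 * inner ℝ (gv j.castSucc x) (dβ' x + (-1 : ℝ) • dθ x) +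
      ‖dβ' x + (-1 : ℝ) • dθ x‖ ^ 2) (volume.restrict U) :=
    ((lg1.inner s3).const_mul 2).add s3.2
  have s4 := lβ'U.smul (-1)
  have q4 : Integrable (fun x => 2 * inner ℝ (gv j.succ x) ((-1 : ℝ) • dβ' x) +
      ‖(-1 : ℝ) • dβ' x‖ ^ 2) (volume.restrict U) :=
    ((lg2.inner s4).const_mul 2).add s4.2
  have q5 : Integrable (fun x => 2 * inner ℝ (gw j x) (dθ x) + ‖dθ x‖ ^ 2)
      (volume.restrict U') := ((lw.inner lθU').const_mul 2).add lθU'.2
  have s6 := lθU'.smul (-1)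
  have q6 : Integrable (fun x => 2 * inner ℝ (gw j x) ((-1 : ℝ) • dθ x) +
      ‖(-1 : ℝ) • dθ x‖ ^ 2) (volume.restrict U') :=
    ((lw.inner s6).const_mul 2).add s6.2
  have hsum : 0 ≤ (∫ x in U, ((2 * inner ℝ (gv j.castSucc x) (dβ x) + ‖dβ x‖ ^ 2) +
      (2 * inner ℝ (gv j.succ x) (dθ x + (-1 : ℝ) • dβ x) + ‖dθ x + (-1 : ℝ) • dβ x‖ ^ 2) +
      ((2 * inner ℝ (gv j.castSucc x) (dβ' x + (-1 : ℝ) • dθ x) +
        ‖dβ' x + (-1 : ℝ) • dθ x‖ ^ 2) +
      (2 * inner ℝ (gv j.succ x) ((-1 : ℝ) • dβ' x) + ‖(-1 : ℝ) • dβ' x‖ ^ 2)))) +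
      ∫ x in U', 2 * ‖dθ x‖ ^ 2 := by
    have e5 : (∫ x in U', 2 * ‖dθ x‖ ^ 2) =
        (∫ x in U', (2 * inner ℝ (gw j x) (dθ x) + ‖dθ x‖ ^ 2)) +
        ∫ x in U', (2 * inner ℝ (gw j x) ((-1 : ℝ) • dθ x) + ‖(-1 : ℝ) • dθ x‖ ^ 2) := by
      rw [← integral_add q5 q6]
      apply integral_congr_ae
      refine ae_of_all _ fun x => ?_
      simp only [neg_one_smul, inner_neg_right, norm_neg]
      ring
    rw [e5]
    have e6 := integral_add (q1.add q2) (q3.add q4)
    simp only [Pi.add_apply] at e6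
    rw [e6]
    have e7 := integral_add q1 q2
    have e8 := integral_add q3 q4
    rw [e7, e8]
    linarith
  have hle : (∫ x in U, ((2 * inner ℝ (gv j.castSucc x) (dβ x) + ‖dβ x‖ ^ 2) +
      (2 * inner ℝ (gv j.succ x) (dθ x + (-1 : ℝ) • dβ x) + ‖dθ x + (-1 : ℝ) • dβ x‖ ^ 2) +
      ((2 * inner ℝ (gv j.castSucc x) (dβ' x + (-1 : ℝ) • dθ x) +
        ‖dβ' x + (-1 : ℝ) • dθ x‖ ^ 2) +
      (2 * inner ℝ (gv j.succ x) ((-1 : ℝ) • dβ' x) + ‖(-1 : ℝ) • dβ' x‖ ^ 2)))) ≤
      ∫ x in U, (2 * inner ℝ (gv j.succ x - gv j.castSucc x) (dθ x - dβ x - dβ' x) +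
        (4 * ‖dθ x‖ ^ 2 + 3 * ‖dβ x‖ ^ 2 + 3 * ‖dβ' x‖ ^ 2)) := by
    apply integral_mono_ae ((q1.add q2).add (q3.add q4))
    · exact (iz0.const_mul 2).add (((lθU.2.const_mul 4).add (lβU.2.const_mul 3)).add
        (lβ'U.2.const_mul 3))
    · exact ae_of_all _ fun x => pw _ _ _ _ _
  have hsplit : ∫ x in U, (2 * inner ℝ (gv j.succ x - gv j.castSucc x) (dθ x - dβ x - dβ' x) +
        (4 * ‖dθ x‖ ^ 2 + 3 * ‖dβ x‖ ^ 2 + 3 * ‖dβ' x‖ ^ 2)) =
      2 * (∫ x in U, inner ℝ (gv j.succ x - gv j.castSucc x) (dθ x - dβ x - dβ' x)) +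
        (4 * (∫ x in U, ‖dθ x‖ ^ 2) + 3 * (∫ x in U, ‖dβ x‖ ^ 2) +
          3 * ∫ x in U, ‖dβ' x‖ ^ 2) := by
    have e1 := integral_add (iz0.const_mul 2) (((lθU.2.const_mul 4).add
      (lβU.2.const_mul 3)).add (lβ'U.2.const_mul 3))
    simp only [Pi.add_apply] at e1
    rw [e1]
    have e2 := integral_add ((lθU.2.const_mul 4).add (lβU.2.const_mul 3)) (lβ'U.2.const_mul 3)
    simp only [Pi.add_apply] at e2
    rw [e2]
    have e3 := integral_add (lθU.2.const_mul 4) (lβU.2.const_mul 3)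
    rw [e3]
    simp only [integral_const_mul]
  have hzle : (∫ x in U, ‖dz x‖ ^ 2) +
      2 * (∫ x in U, inner ℝ (gv j.succ x - gv j.castSucc x) (dz x)) ≤
      ∫ x in U, ‖dθ x‖ ^ 2 := by
    have e1 := integral_add ldz.2 (iz.const_mul 2)
    rw [integral_const_mul] at e1
    rw [← e1]
    apply integral_mono_ae (ldz.2.add (iz.const_mul 2)) lθU.2
    refine ae_of_all _ fun x => ?_
    have h2 := pz (gv j.succ x - gv j.castSucc x) (dθ x)
      (x ∈ {x | v j.succ x - v j.castSucc x < θ x})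
    have h3 : dz x = if x ∈ {x | v j.succ x - v j.castSucc x < θ x} then
        dθ x - (gv j.succ x - gv j.castSucc x) else 0 := by
      rw [hdz, Set.indicator_apply]
    show ‖dz x‖ ^ 2 + 2 * inner ℝ (gv j.succ x - gv j.castSucc x) (dz x) ≤ ‖dθ x‖ ^ 2
    rw [h3]
    exact h2
  have mU : MeasurableSet U := hUo.measurableSet
  have mU' : MeasurableSet U' := hU'o.measurableSet
  have mono : ∀ f : E m → ℝ, (∀ x, 0 ≤ f x) → Integrable f (volume.restrict B) →
      (∫ x in U, f x) + (∫ x in U', f x) ≤ ∫ x in B, f x := by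
    intro f hf hfi
    rw [← setIntegral_union hdisj mU' (hfi.mono_measure (Measure.restrict_mono hUB le_rfl))
      (hfi.mono_measure (Measure.restrict_mono hU'B le_rfl))]
    exact setIntegral_mono_set hfi (ae_of_all _ hf)
      (HasSubset.Subset.eventuallyLE (Set.union_subset hUB hU'B))
  have m1 := mono (fun x => ‖dθ x‖ ^ 2) (fun x => sq_nonneg _) lθ.2
  have m2 := mono (fun x => ‖dβ x‖ ^ 2) (fun x => sq_nonneg _) lβ.2
  have m3 := mono (fun x => ‖dβ' x‖ ^ 2) (fun x => sq_nonneg _) lβ'.2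
  have p1 : 0 ≤ ∫ x in U, ‖dθ x‖ ^ 2 := integral_nonneg fun x => sq_nonneg _
  have p2 : 0 ≤ ∫ x in U', ‖dθ x‖ ^ 2 := integral_nonneg fun x => sq_nonneg _
  have p3 : 0 ≤ ∫ x in U', ‖dβ x‖ ^ 2 := integral_nonneg fun x => sq_nonneg _
  have p4 : 0 ≤ ∫ x in U', ‖dβ' x‖ ^ 2 := integral_nonneg fun x => sq_nonneg _
  have p5 : 0 ≤ ∫ x in U, ‖dβ x‖ ^ 2 := integral_nonneg fun x => sq_nonneg _
  have p6 : 0 ≤ ∫ x in U, ‖dβ' x‖ ^ 2 := integral_nonneg fun x => sq_nonneg _
  have e9 : (∫ x in U', 2 * ‖dθ x‖ ^ 2) = 2 * ∫ x in U', ‖dθ x‖ ^ 2 :=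
    integral_const_mul _ _
  rw [e9] at hsum
  rw [hsplit, h1] at hle
  linarith

end Pool.Agent.COB
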