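import Pool.Agent.COB.Stmts

/-!
Squad COB, module CO1: the two competitors.
-/

set_option autoImplicit false

namespace Pool.Agent.COB

open MeasureTheory Set Metric Filter Topology

namespace CO1_

/-- a smooth bump at scale `r` with controlled energy -/
theorem bump (m : ℕ) : ∃ C > 0, ∀ (p : E m) (r : ℝ), 0 < r → ∃ η : E m → ℝ,
    ContDiff ℝ 1 η ∧ HasCompactSupport η ∧ tsupport η ⊆ closedBall p (r / 2) ∧
    (∀ x, 0 ≤ η x ∧ η x ≤ 1) ∧ (∀ x, ‖x - p‖ < r / 4 → η x = 1) ∧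
    (∀ x, r / 2 ≤ ‖x - p‖ → η x = 0) ∧
    ∀ U : Set (E m), ∫ x in U, ‖gradient η x‖ ^ 2 ≤ C * (r ^ m / r ^ 2) := by
  let f : ContDiffBump (0 : E m) := ⟨1 / 4, 1 / 2, by norm_num, by norm_num⟩
  have hfc : ContDiff ℝ 1 f := f.contDiff
  have hfs : HasCompactSupport f := f.hasCompactSupport
  have hft : tsupport f = closedBall 0 (1 / 2) := f.tsupport_eq
  -- bound of the derivative
  have hdc : Continuous (fderiv ℝ f) := hfc.continuous_fderiv (by norm_num)
  have hds : HasCompactSupport (fderiv ℝ f) := hfs.fderiv ℝ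
  obtain ⟨C0, hC0⟩ := hds.exists_bound_of_continuous hdc
  set V0 : ℝ := (volume : Measure (E m)).real (ball (0 : E m) 1) with hV0
  have hV0n : 0 ≤ V0 := measureReal_nonneg
  refine ⟨(|C0| + 1) ^ 2 * (V0 + 1), by positivity, fun p r hr => ?_⟩
  have hri : 0 < r⁻¹ := inv_pos.2 hr
  let η : E m → ℝ := fun x => f (r⁻¹ • (x - p))
  have hlin : ContDiff ℝ 1 (fun x : E m => r⁻¹ • (x - p)) :=
    (contDiff_id.sub contDiff_const).const_smul _
  have hηc : ContDiff ℝ 1 η := hfc.comp hlin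
  have hnorm : ∀ x : E m, ‖r⁻¹ • (x - p)‖ = r⁻¹ * ‖x - p‖ := by
    intro x
    rw [norm_smul, Real.norm_of_nonneg hri.le]
  have hη0 : ∀ x, r / 2 ≤ ‖x - p‖ → η x = 0 := by
    intro x hx
    apply f.zero_of_le_dist
    rw [dist_zero_right, hnorm]
    change (1 / 2 : ℝ) ≤ _
    calc (1 / 2 : ℝ) = r⁻¹ * (r / 2) := by field_simp
      _ ≤ r⁻¹ * ‖x - p‖ := by gcongr
  have hsupp : Function.support η ⊆ closedBall p (r / 2) := by
    intro x hx
    rw [mem_closedBall, dist_eq_norm]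
    by_contra h
    exact hx (hη0 x (not_le.1 h).le)
  have hts : tsupport η ⊆ closedBall p (r / 2) :=
    closure_minimal hsupp isClosed_closedBall
  have hcs : HasCompactSupport η :=
    HasCompactSupport.of_support_subset_isCompact (isCompact_closedBall p (r / 2)) hsupp
  refine ⟨η, hηc, hcs, hts, fun x => ⟨f.nonneg, f.le_one⟩, ?_, hη0, fun U => ?_⟩
  · intro x hx
    apply f.one_of_mem_closedBall
    rw [mem_closedBall, dist_zero_right, hnorm]
    change _ ≤ (1 / 4 : ℝ)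
    calc r⁻¹ * ‖x - p‖ ≤ r⁻¹ * (r / 4) := by gcongr
      _ = 1 / 4 := by field_simp
  · -- the energy
    have hgn : ∀ x, ‖gradient η x‖ = ‖fderiv ℝ η x‖ := fun x => by
      rw [gradient, LinearIsometryEquiv.norm_map]
    have hderiv : ∀ x, ‖fderiv ℝ η x‖ ≤ (|C0| + 1) * r⁻¹ := by
      intro x
      have h1 : HasFDerivAt (fun y : E m => r⁻¹ • (y - p)) (r⁻¹ • ContinuousLinearMap.id ℝ (E m))
          x := by
        have h0 : HasFDerivAt (fun y : E m => y - p) (ContinuousLinearMap.id ℝ (E m)) x :=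
          (hasFDerivAt_id x).sub_const p
        exact h0.const_smul r⁻¹
      have h2 : HasFDerivAt f (fderiv ℝ f (r⁻¹ • (x - p))) (r⁻¹ • (x - p)) :=
        ((hfc.differentiable (by norm_num)) _).hasFDerivAt
      have h3 := (h2.comp x h1).fderiv
      change fderiv ℝ η x = _ at h3
      rw [h3]
      refine (ContinuousLinearMap.opNorm_comp_le _ _).trans ?_
      have h4 : ‖r⁻¹ • ContinuousLinearMap.id ℝ (E m)‖ ≤ r⁻¹ := by
        rw [norm_smul, Real.norm_of_nonneg hri.le]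
        calc r⁻¹ * ‖ContinuousLinearMap.id ℝ (E m)‖ ≤ r⁻¹ * 1 := by
              gcongr
              exact ContinuousLinearMap.norm_id_le
          _ = r⁻¹ := mul_one _
      have h5 : ‖fderiv ℝ f (r⁻¹ • (x - p))‖ ≤ |C0| + 1 :=
        (hC0 _).trans ((le_abs_self C0).trans (by linarith))
      exact mul_le_mul h5 h4 (norm_nonneg _) (by positivity)
    have hzero : ∀ x, x ∉ closedBall p (r / 2) → ‖gradient η x‖ ^ 2 = 0 := by
      intro x hx
      have h1 : fderiv ℝ η x = 0 := by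
        have h2 : x ∉ tsupport η := fun h => hx (hts h)
        by_contra h3
        exact h2 (support_fderiv_subset ℝ h3)
      rw [hgn, h1, norm_zero]
      norm_num
    have hcont : Continuous (fun x => ‖gradient η x‖ ^ 2) := by
      have h1 : Continuous (fun x => ‖fderiv ℝ η x‖ ^ 2) :=
        (hηc.continuous_fderiv (by norm_num)).norm.pow 2
      have h2 : (fun x => ‖gradient η x‖ ^ 2) = fun x => ‖fderiv ℝ η x‖ ^ 2 := by
        funext x
        rw [hgn]
      rw [h2]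
      exact h1
    have hint : Integrable (fun x => ‖gradient η x‖ ^ 2) := by
      refine hcont.integrable_of_hasCompactSupport ?_
      exact HasCompactSupport.intro (isCompact_closedBall p (r / 2)) hzero
    have h1 : ∫ x in U, ‖gradient η x‖ ^ 2 ≤ ∫ x, ‖gradient η x‖ ^ 2 :=
      setIntegral_le_integral hint (Eventually.of_forall fun x => by positivity)
    have h2 : ∫ x, ‖gradient η x‖ ^ 2 = ∫ x in closedBall p (r / 2), ‖gradient η x‖ ^ 2 := by
      rw [setIntegral_eq_integral_of_forall_compl_eq_zero hzero]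
    have h3 : ‖∫ x in closedBall p (r / 2), ‖gradient η x‖ ^ 2‖ ≤
        ((|C0| + 1) * r⁻¹) ^ 2 * (volume : Measure (E m)).real (closedBall p (r / 2)) := by
      apply norm_setIntegral_le_of_norm_le_const
      · exact (isCompact_closedBall p (r / 2)).measure_lt_top
      · intro x _
        rw [Real.norm_of_nonneg (by positivity), hgn]
        gcongr
        exact hderiv x
    have h4 : (volume : Measure (E m)).real (closedBall p (r / 2)) = (r / 2) ^ m * V0 := by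
      rw [Measure.addHaar_real_closedBall _ _ (by positivity), finrank_euclideanSpace,
        Fintype.card_fin]
    rw [h4] at h3
    calc ∫ x in U, ‖gradient η x‖ ^ 2 ≤ ‖∫ x in closedBall p (r / 2), ‖gradient η x‖ ^ 2‖ := by
          rw [← h2]
          exact h1.trans (le_abs_self _)
      _ ≤ ((|C0| + 1) * r⁻¹) ^ 2 * ((r / 2) ^ m * V0) := h3
      _ ≤ ((|C0| + 1) * r⁻¹) ^ 2 * (r ^ m * (V0 + 1)) := by
          have h5 : (r / 2) ^ m ≤ r ^ m := by
            gcongr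
            linarith
          gcongr
          linarith
      _ = (|C0| + 1) ^ 2 * (V0 + 1) * (r ^ m / r ^ 2) := by
          field_simp

/-- pointwise bound for a square of a sum of three vectors -/
theorem sq3 {m : ℕ} (a b c : E m) :
    ‖a + (b + c)‖ ^ 2 ≤ 3 * (‖a‖ ^ 2 + ‖b‖ ^ 2 + ‖c‖ ^ 2) := by
  have h1 : ‖a + (b + c)‖ ≤ ‖a‖ + (‖b‖ + ‖c‖) :=
    (norm_add_le _ _).trans (by gcongr; exact norm_add_le _ _)
  have h2 : ‖a + (b + c)‖ ^ 2 ≤ (‖a‖ + (‖b‖ + ‖c‖)) ^ 2 := by gcongr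
  nlinarith [sq_nonneg (‖a‖ - ‖b‖), sq_nonneg (‖a‖ - ‖c‖), sq_nonneg (‖b‖ - ‖c‖)]

theorem sq2 {m : ℕ} (a b : E m) : ‖a + b‖ ^ 2 ≤ 2 * (‖a‖ ^ 2 + ‖b‖ ^ 2) := by
  have h1 : ‖a + b‖ ≤ ‖a‖ + ‖b‖ := norm_add_le _ _
  have h2 : ‖a + b‖ ^ 2 ≤ (‖a‖ + ‖b‖) ^ 2 := by gcongr
  nlinarith [sq_nonneg (‖a‖ - ‖b‖)]

theorem indicator_sq {m : ℕ} (s : Set (E m)) (g : E m → E m) (x : E m) :
    ‖s.indicator g x‖ ^ 2 ≤ ‖g x‖ ^ 2 := by
  have h := norm_indicator_le_norm_self g (s := s) x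
  gcongr

/-- combination of the integrals -/
theorem int_le3 {m : ℕ} {B : Set (E m)} (hB : MeasurableSet B) {f a b c : E m → ℝ} (K : ℝ)
    (hf : IntegrableOn f B) (ha : IntegrableOn a B) (hb : IntegrableOn b B)
    (hc : IntegrableOn c B)
    (h : ∀ x ∈ B, f x ≤ K * (a x + b x + c x)) :
    ∫ x in B, f x ≤ K * ((∫ x in B, a x) + (∫ x in B, b x) + ∫ x in B, c x) := by
  have h1 : ∫ x in B, f x ≤ ∫ x in B, K * (a x + b x + c x) :=
    setIntegral_mono_on hf (((ha.add hb).add hc).const_mul K) hB h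
  rw [integral_const_mul] at h1
  have h2 : ∫ x in B, (a x + b x + c x) =
      (∫ x in B, a x) + (∫ x in B, b x) + ∫ x in B, c x := by
    have h3 := integral_add (ha.add hb) hc
    have h4 := integral_add ha hb
    simp only [Pi.add_apply] at h3
    rw [h3, h4]
  rw [h2] at h1
  exact h1

/-- the difference function `β` (or `β'`) -/
theorem beta {m : ℕ} {B : Set (E m)} {F : E m → ℝ} (hTBA : Stmt_TBA) (hWEX : Stmt_WEX)
    (hB : IsOpen B) (hF : Continuous F) (a b θ : E m → ℝ) (da db dθ : E m → E m)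
    (ha : TB B a da) (hb : TB B b db) (hθ : TB B θ dθ) (hθ0 : ∀ x ∈ B, 0 ≤ θ x) :
    ∃ dβ, TB B (fun x => min (max (a x - b x) 0) (θ x)) dβ ∧
      ∫ x in B, ‖dβ x‖ ^ 2 ≤ 2 * ((∫ x in B, ‖da x‖ ^ 2) + (∫ x in B, ‖db x‖ ^ 2) +
        ∫ x in B, ‖dθ x‖ ^ 2) := by
  obtain ⟨_, _, hadd, hsm, _, hpos, hmin, _⟩ := hTBA m B F hB hF
  have h1 := hadd _ _ _ _ ha (hsm (-1) _ _ hb)
  have h2 := hpos _ _ h1
  obtain ⟨dn, hdn, hdn'⟩ := hmin _ _ _ _ h2 hθ.wg hθ0
  have hfun : (fun x => min (max (a x + -1 * b x) 0) (θ x)) =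
      fun x => min (max (a x - b x) 0) (θ x) := by
    funext x
    rw [neg_one_mul, ← sub_eq_add_neg]
  rw [hfun] at hdn
  refine ⟨dn, hdn, ?_⟩
  refine int_le3 hB.measurableSet 2 (hWEX m B _ _ hB hdn).1 (hWEX m B _ _ hB ha).1
    (hWEX m B _ _ hB hb).1 (hWEX m B _ _ hB hθ).1 (fun x _ => ?_)
  rcases lt_or_ge (max (a x + -1 * b x) 0) (θ x) with h | h
  · rw [(hdn' x).1 h]
    refine (indicator_sq _ _ _).trans ((sq2 _ _).trans ?_)
    rw [neg_one_smul, norm_neg]
    nlinarith [sq_nonneg ‖dθ x‖]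
  · rw [(hdn' x).2 h]
    nlinarith [sq_nonneg ‖dθ x‖, sq_nonneg ‖da x‖, sq_nonneg ‖db x‖]

end CO1_

open CO1_ in
theorem co1_proof (_hWBA : Stmt_WBA) (_hWUN : Stmt_WUN) (_hWPP : Stmt_WPP) (_hWMM : Stmt_WMM)
    (hWEX : Stmt_WEX) (hTBA : Stmt_TBA) (_hGEF : Stmt_GEF) (hSTR : Stmt_STR)
    (hCO0 : Stmt_CO0) : Stmt_CO1 := by
  intro d
  obtain ⟨C1, hC1, hbump⟩ := bump (d + 1)
  refine ⟨20 * (15 * C1 + 50), by positivity, ?_⟩
  intro k F φ p R L i v gv w gw j r t e fP fR dP dR hGeo hCfg hr hrR ht hTB hbd hval hen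
  set B : Set (E (d + 1)) := ball p R with hBdef
  have hB : IsOpen B := isOpen_ball
  have hF : Continuous F := hGeo.cF.continuous
  obtain ⟨η, hηc, hηs, hηt, hη01, hη1, hη0, hηe⟩ := hbump p r hr
  have hηB : tsupport η ⊆ B := by
    refine hηt.trans (closedBall_subset_ball ?_)
    linarith
  obtain ⟨hz0, _, hadd, hsm, _, hpos, hmin, hsmooth, _⟩ := hTBA (d + 1) B F hB hF
  have hηTB : TB B η (gradient η) := hsmooth η hηc hηs hηB
  -- the function `θ`
  set l0 : Fin (k + 1) := 0 with hl0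
  set l1 : Fin (k + 1) := Fin.last k with hl1
  have hs1 := hsm t _ _ hηTB
  have hs2 := hsm (-1) _ _ (hTB l1).2
  have hs3 := hsm (-1) _ _ (hTB l0).1
  have hs := hpos _ _ (hadd _ _ _ _ hs1 (hadd _ _ _ _ hs2 hs3))
  set θ : E (d + 1) → ℝ := fun x => max (t * η x + (-1 * fR l1 x + -1 * fP l0 x)) 0 with hθdef
  set dθ : E (d + 1) → E (d + 1) := {x | 0 < t * η x + (-1 * fR l1 x + -1 * fP l0 x)}.indicator
    (fun x => t • gradient η x + ((-1 : ℝ) • dR l1 x + (-1 : ℝ) • dP l0 x)) with hdθdef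
  have hθTB : TB B θ dθ := hs
  have hθ0 : ∀ x ∈ B, 0 ≤ θ x := fun x _ => le_max_right _ _
  have hθt : ∀ x ∈ B, θ x ≤ t := by
    intro x hx
    refine max_le ?_ ht.le
    have h1 := (hη01 x).2
    have h2 := (hbd l1 x hx).2.2.1
    have h3 := (hbd l0 x hx).1
    nlinarith
  have hθout : ∀ x ∈ B, r / 2 ≤ ‖x - p‖ → θ x = 0 := by
    intro x hx hxr
    have h1 := hη0 x hxr
    have h2 := (hbd l1 x hx).2.2.1
    have h3 := (hbd l0 x hx).1
    simp only [hθdef]
    rw [h1, max_eq_right]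
    linarith
  have hθE : ∫ x in B, ‖dθ x‖ ^ 2 ≤ 3 * (t ^ 2 * (C1 * (r ^ (d + 1) / r ^ 2)) + e + e) := by
    have hI1 := (hWEX (d + 1) B _ _ hB hηTB).1
    have hI2 := (hWEX (d + 1) B _ _ hB (hTB l1).2).1
    have hI3 := (hWEX (d + 1) B _ _ hB (hTB l0).1).1
    have h1 : ∫ x in B, ‖dθ x‖ ^ 2 ≤ 3 * ((∫ x in B, t ^ 2 * ‖gradient η x‖ ^ 2) +
        (∫ x in B, ‖dR l1 x‖ ^ 2) + ∫ x in B, ‖dP l0 x‖ ^ 2) := by
      refine int_le3 hB.measurableSet 3 (hWEX (d + 1) B _ _ hB hθTB).1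
        (hI1.const_mul (t ^ 2)) hI2 hI3 (fun x _ => ?_)
      refine (indicator_sq _ _ _).trans ((sq3 _ _ _).trans ?_)
      rw [norm_smul, neg_one_smul, neg_one_smul, norm_neg, norm_neg, mul_pow,
        Real.norm_eq_abs, sq_abs]
    rw [integral_const_mul] at h1
    have h2 := (hen l1).2
    have h3 := (hen l0).1
    have h4 := hηe B
    have h5 : t ^ 2 * ∫ x in B, ‖gradient η x‖ ^ 2 ≤ t ^ 2 * (C1 * (r ^ (d + 1) / r ^ 2)) := by
      gcongr
    linarith
  -- trace identities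
  have htr : ∀ x ∈ B, F x = 0 → 0 < θ x →
      (∀ l, fP l x = max (φ x - w l x) 0) ∧ (∀ l, fR l x = max (w l x - φ x) 0) := by
    intro x hx hFx hθx
    have hxr : ‖x - p‖ < r / 2 := by
      by_contra h
      exact absurd (hθout x hx (not_lt.1 h)) hθx.ne'
    have hSc : x ∈ Sc F B := ⟨hx, hFx.ge⟩
    have hSc' : x ∈ Sc (fun x => -F x) B := ⟨hx, by show 0 ≤ -F x; rw [hFx]; norm_num⟩
    have hstr := hSTR (k + 1) (fun i => v i x) (fun j => w j x) (φ x) (hCfg.mv x hSc)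
      (hCfg.mw x hSc') (hCfg.tr x hx hFx)
    have hPP : ∀ l, PP F φ v w l x = max (φ x - w l x) 0 := by
      intro l
      unfold PP
      rw [if_pos hFx.ge]
      exact (hstr.2.2.1 l).2.2.2.2.1
    have hRR : ∀ l, RR F φ v w l x = max (w l x - φ x) 0 := by
      intro l
      unfold RR
      rw [if_pos hFx.ge]
      exact (hstr.2.2.1 l).2.2.2.2.2
    have hmw := hCfg.mw x hSc'
    have hpos' : 0 < t * η x + (-1 * fR l1 x + -1 * fP l0 x) := by
      by_contra h
      have h1 : θ x = 0 := max_eq_right (not_lt.1 h)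
      exact hθx.ne' h1
    have hηle : t * η x ≤ t := by
      have h1 := (hη01 x).2
      nlinarith
    have hb1 := (hbd l1 x hx).2.2.1
    have hb0 := (hbd l0 x hx).1
    have hP0 : max (φ x - w l0 x) 0 < t := by
      have h1 := (hval l0 x hx hFx hxr).1
      rw [hPP] at h1
      by_contra h
      rw [min_eq_right (not_lt.1 h)] at h1
      linarith
    have hR1 : max (w l1 x - φ x) 0 < t := by
      have h1 := (hval l1 x hx hFx hxr).2
      rw [hRR] at h1
      by_contra h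
      rw [min_eq_right (not_lt.1 h)] at h1
      linarith
    refine ⟨fun l => ?_, fun l => ?_⟩
    · rw [(hval l x hx hFx hxr).1, hPP]
      apply min_eq_left
      refine le_trans ?_ hP0.le
      have h1 : w l0 x ≤ w l x := hmw (Fin.zero_le l)
      gcongr
    · rw [(hval l x hx hFx hxr).2, hRR]
      apply min_eq_left
      refine le_trans ?_ hR1.le
      have h1 : w l x ≤ w l1 x := hmw (Fin.le_last l)
      gcongr
  -- the functions `β` and `β'`
  obtain ⟨β, dβ, hβTB, hβE, hβtr⟩ : ∃ (β : E (d + 1) → ℝ) (dβ : E (d + 1) → E (d + 1)),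
      TB B β dβ ∧ ∫ x in B, ‖dβ x‖ ^ 2 ≤ 2 * (e + e + ∫ x in B, ‖dθ x‖ ^ 2) ∧
      ∀ x ∈ B, F x = 0 → β x = min (v j.succ x - w j x) (θ x) := by
    by_cases hj : (j : ℕ) + 1 < k + 1
    · obtain ⟨dβ, h1, h2⟩ := beta hTBA hWEX hB hF (fP j) (fP ⟨(j : ℕ) + 1, hj⟩) θ _ _ _
        (hTB j).1 (hTB ⟨(j : ℕ) + 1, hj⟩).1 hθTB hθ0
      refine ⟨_, dβ, h1, ?_, fun x hx hFx => ?_⟩
      · have h3 := (hen j).1
        have h4 := (hen ⟨(j : ℕ) + 1, hj⟩).1
        linarith
      · have hSc : x ∈ Sc F B := ⟨hx, hFx.ge⟩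
        have hSc' : x ∈ Sc (fun x => -F x) B := ⟨hx, by show 0 ≤ -F x; rw [hFx]; norm_num⟩
        have hstr := hSTR (k + 1) (fun i => v i x) (fun j => w j x) (φ x) (hCfg.mv x hSc)
          (hCfg.mw x hSc') (hCfg.tr x hx hFx)
        have hle := (hstr.2.2.1 j).2.2.2.1
        have heq := hstr.2.2.2.1 j hj
        try simp only at hle heq
        rcases (hθ0 x hx).eq_or_lt with h | h
        · rw [← h, min_eq_right (le_max_right _ _), min_eq_right (by linarith)]
        · obtain ⟨hP, _⟩ := htr x hx hFx h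
          rw [hP, hP, ← heq, max_eq_left (by linarith)]
    · have hj' : (j : ℕ) + 1 = k + 1 := by
        have := j.isLt
        omega
      obtain ⟨dβ, h1, h2⟩ := beta hTBA hWEX hB hF (fP j) (fun _ => 0) θ _ _ _
        (hTB j).1 hz0 hθTB hθ0
      refine ⟨_, dβ, h1, ?_, fun x hx hFx => ?_⟩
      · have h3 := (hen j).1
        have h4 : 0 ≤ e := le_trans (integral_nonneg fun x => by positivity) h3
        have h5 : ∫ x in B, ‖(fun _ => (0 : E (d + 1))) x‖ ^ 2 = 0 := by simp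
        rw [h5] at h2
        linarith
      · have hSc : x ∈ Sc F B := ⟨hx, hFx.ge⟩
        have hSc' : x ∈ Sc (fun x => -F x) B := ⟨hx, by show 0 ≤ -F x; rw [hFx]; norm_num⟩
        have hstr := hSTR (k + 1) (fun i => v i x) (fun j => w j x) (φ x) (hCfg.mv x hSc)
          (hCfg.mw x hSc') (hCfg.tr x hx hFx)
        have hle := (hstr.2.2.1 j).2.2.2.1
        have heq := hstr.2.2.2.2.1 j hj'
        try simp only at hle heq
        rcases (hθ0 x hx).eq_or_lt with h | h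
        · rw [← h, min_eq_right (le_max_right _ _), min_eq_right (by linarith)]
        · obtain ⟨hP, _⟩ := htr x hx hFx h
          rw [hP, ← heq, sub_zero, max_eq_left (by linarith)]
  obtain ⟨β', dβ', hβ'TB, hβ'E, hβ'tr⟩ : ∃ (β : E (d + 1) → ℝ) (dβ : E (d + 1) → E (d + 1)),
      TB B β dβ ∧ ∫ x in B, ‖dβ x‖ ^ 2 ≤ 2 * (e + e + ∫ x in B, ‖dθ x‖ ^ 2) ∧
      ∀ x ∈ B, F x = 0 → β x = min (w j x - v j.castSucc x) (θ x) := by
    by_cases hj : 0 < (j : ℕ)
    · obtain ⟨dβ, h1, h2⟩ := beta hTBA hWEX hB hF (fR j) (fR ⟨(j : ℕ) - 1, by omega⟩) θ _ _ _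
        (hTB j).2 (hTB ⟨(j : ℕ) - 1, by omega⟩).2 hθTB hθ0
      refine ⟨_, dβ, h1, ?_, fun x hx hFx => ?_⟩
      · have h3 := (hen j).2
        have h4 := (hen ⟨(j : ℕ) - 1, by omega⟩).2
        linarith
      · have hSc : x ∈ Sc F B := ⟨hx, hFx.ge⟩
        have hSc' : x ∈ Sc (fun x => -F x) B := ⟨hx, by show 0 ≤ -F x; rw [hFx]; norm_num⟩
        have hstr := hSTR (k + 1) (fun i => v i x) (fun j => w j x) (φ x) (hCfg.mv x hSc)
          (hCfg.mw x hSc') (hCfg.tr x hx hFx)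
        have hle := (hstr.2.2.1 j).2.2.1
        have heq := hstr.2.2.2.2.2.1 j hj
        try simp only at hle heq
        rcases (hθ0 x hx).eq_or_lt with h | h
        · rw [← h, min_eq_right (le_max_right _ _), min_eq_right (by linarith)]
        · obtain ⟨_, hR⟩ := htr x hx hFx h
          rw [hR, hR, ← heq, max_eq_left (by linarith)]
    · have hj' : (j : ℕ) = 0 := by omega
      obtain ⟨dβ, h1, h2⟩ := beta hTBA hWEX hB hF (fR j) (fun _ => 0) θ _ _ _
        (hTB j).2 hz0 hθTB hθ0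
      refine ⟨_, dβ, h1, ?_, fun x hx hFx => ?_⟩
      · have h3 := (hen j).2
        have h4 : 0 ≤ e := le_trans (integral_nonneg fun x => by positivity) h3
        have h5 : ∫ x in B, ‖(fun _ => (0 : E (d + 1))) x‖ ^ 2 = 0 := by simp
        rw [h5] at h2
        linarith
      · have hSc : x ∈ Sc F B := ⟨hx, hFx.ge⟩
        have hSc' : x ∈ Sc (fun x => -F x) B := ⟨hx, by show 0 ≤ -F x; rw [hFx]; norm_num⟩
        have hstr := hSTR (k + 1) (fun i => v i x) (fun j => w j x) (φ x) (hCfg.mv x hSc)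
          (hCfg.mw x hSc') (hCfg.tr x hx hFx)
        have hle := (hstr.2.2.1 j).2.2.1
        have heq := hstr.2.2.2.2.2.2.1 j hj'
        try simp only at hle heq
        rcases (hθ0 x hx).eq_or_lt with h | h
        · rw [← h, min_eq_right (le_max_right _ _), min_eq_right (by linarith)]
        · obtain ⟨_, hR⟩ := htr x hx hFx h
          rw [hR, ← heq, sub_zero, max_eq_left (by linarith)]
  -- conclusion
  obtain ⟨dz, hzPT, hzE⟩ := hCO0 (d + 1) (k + 1) F φ p R L i v gv w gw j θ β β' dθ dβ dβ'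
    (Nat.succ_pos d) hGeo hCfg hθTB hβTB hβ'TB hθ0
    (fun x hx hFx => ⟨hβtr x hx hFx, hβ'tr x hx hFx⟩)
  refine ⟨θ, dz, fun x hx => ⟨hθ0 x hx, hθt x hx⟩, hθout, ?_, hzPT, ?_⟩
  · intro x hx hFx hall hxr
    have hxr' : ‖x - p‖ < r / 2 := by linarith
    have hSc : x ∈ Sc F B := ⟨hx, hFx.ge⟩
    have hSc' : x ∈ Sc (fun x => -F x) B := ⟨hx, by show 0 ≤ -F x; rw [hFx]; norm_num⟩
    have hstr := hSTR (k + 1) (fun i => v i x) (fun j => w j x) (φ x) (hCfg.mv x hSc)
      (hCfg.mw x hSc') (hCfg.tr x hx hFx)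
    have h1 : fP l0 x = 0 := by
      rw [(hval l0 x hx hFx hxr').1]
      unfold PP
      rw [if_pos hFx.ge]
      have h2 := (hstr.2.2.1 l0).2.2.2.2.1
      try simp only at h2
      rw [h2, hall l0, sub_self, max_self, min_eq_left ht.le]
    have h2 : fR l1 x = 0 := by
      rw [(hval l1 x hx hFx hxr').2]
      unfold RR
      rw [if_pos hFx.ge]
      have h2 := (hstr.2.2.1 l1).2.2.2.2.2
      try simp only at h2
      rw [h2, hall l1, sub_self, max_self, min_eq_left ht.le]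
    simp only [hθdef]
    rw [hη1 x hxr, h1, h2, mul_one, mul_zero, add_zero, add_zero, max_eq_left ht.le]
  · have he : 0 ≤ e := le_trans (integral_nonneg fun x => by positivity) (hen l0).1
    have hq : 0 ≤ r ^ (d + 1) / r ^ 2 := by positivity
    have h6 : ∫ x in Sd F B, ‖dz x‖ ^ 2 ≤ 20 * (15 * (t ^ 2 * (C1 * (r ^ (d + 1) / r ^ 2)))
        + 38 * e) := by
      nlinarith
    have h7 : 0 ≤ t ^ 2 * (r ^ (d + 1) / r ^ 2) := by positivity
    have h8 : t ^ 2 * r ^ (d + 1) / r ^ 2 = t ^ 2 * (r ^ (d + 1) / r ^ 2) := by ring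
    rw [h8]
    nlinarith [mul_nonneg hC1.le he, mul_nonneg hC1.le h7]

end Pool.Agent.COB
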