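import Pool.Agent.COB.Stmts

/-!
Squad COB, module CON: a density point of the collapsed set is locally collapsed.
-/

set_option autoImplicit false

namespace Pool.Agent.COB

open MeasureTheory Set Metric Filter Topology

namespace CON_

/-- the difference of two weakly harmonic functions is weakly harmonic -/
theorem whar_sub (hWBA : Stmt_WBA) (hWEX : Stmt_WEX) {m : ℕ} {V : Set (E m)} (hV : IsOpen V)
    {f h : E m → ℝ} {df dh : E m → E m} (hf : WHar V f df) (hh : WHar V h dh) :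
    WHar V (fun x => f x - h x) (fun x => df x - dh x) := by
  obtain ⟨_, hadd, hmul, _, _, _⟩ := hWBA m V hV
  refine ⟨?_, ?_⟩
  · have h1 := hadd f (fun x => (-1 : ℝ) * h x) df (fun x => (-1 : ℝ) • dh x) hf.1
      (hmul (-1) h dh hh.1)
    have e1 : (fun x => f x + (-1 : ℝ) * h x) = fun x => f x - h x := by
      funext x; ring
    have e2 : (fun x => df x + (-1 : ℝ) • dh x) = fun x => df x - dh x := by
      funext x; simp [sub_eq_add_neg]
    rwa [e1, e2] at h1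
  · intro ξ dξ hξ
    have i1 : IntegrableOn (fun x => inner ℝ (df x) (dξ x)) V :=
      (hWEX m V ξ dξ hV hξ).2.2.2.2 f df hf.1
    have i2 : IntegrableOn (fun x => inner ℝ (dh x) (dξ x)) V :=
      (hWEX m V ξ dξ hV hξ).2.2.2.2 h dh hh.1
    have e : (fun x => inner ℝ (df x - dh x) (dξ x)) =
        fun x => inner ℝ (df x) (dξ x) - inner ℝ (dh x) (dξ x) := by
      funext x; rw [inner_sub_left]
    rw [e, integral_sub i1 i2, hf.2 ξ dξ hξ, hh.2 ξ dξ hξ, sub_zero]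

/-- one of the consecutive differences is large -/
theorem exists_j {k : ℕ} (a : Fin (k + 1 + 1) → ℝ) :
    ∃ j : Fin (k + 1), (a (Fin.last (k + 1)) - a 0) / ((k : ℝ) + 1) ≤ a j.succ - a j.castSucc := by
  by_contra hcon
  push Not at hcon
  have h1 : ∑ j : Fin (k + 1), (a j.succ - a j.castSucc) = a (Fin.last (k + 1)) - a 0 := by
    rw [Finset.sum_sub_distrib]
    have h2 := Fin.sum_univ_succ a
    have h3 := Fin.sum_univ_castSucc a
    linarith
  have h2 : ∑ j : Fin (k + 1), (a j.succ - a j.castSucc) <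
      ∑ _j : Fin (k + 1), (a (Fin.last (k + 1)) - a 0) / ((k : ℝ) + 1) :=
    Finset.sum_lt_sum_of_nonempty Finset.univ_nonempty (fun j _ => hcon j)
  have hk : ((k : ℝ) + 1) ≠ 0 := by positivity
  have h3 : ∑ _j : Fin (k + 1), (a (Fin.last (k + 1)) - a 0) / ((k : ℝ) + 1) =
      a (Fin.last (k + 1)) - a 0 := by
    rw [Finset.sum_const, Finset.card_univ, Fintype.card_fin, nsmul_eq_mul]
    push_cast
    field_simp
  rw [h1, h3] at h2
  exact lt_irrefl _ h2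

/-- the first alternative of the dichotomy -/
theorem caseA (hGEF : Stmt_GEF) {d k : ℕ} {F φ : E (d + 1) → ℝ} {p : E (d + 1)} {R L : ℝ}
    {i : Fin (d + 1)} {v : Fin (k + 1 + 1) → E (d + 1) → ℝ}
    {gv : Fin (k + 1 + 1) → E (d + 1) → E (d + 1)} {w : Fin (k + 1) → E (d + 1) → ℝ}
    {gw : Fin (k + 1) → E (d + 1) → E (d + 1)} (geo : Geo F φ p R L i)
    (cfg : Cfg F φ (ball p R) v gv w gw)
    (h0 : ∀ x ∈ Sd F (ball p (R / 16)), v (Fin.last (k + 1)) x - v 0 x = 0) :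
    ∀ x ∈ Sc F (ball p (R / 16)), ∀ l, v l x = v 0 x := by
  have hR := geo.hR
  have hsub : ball p (R / 16) ⊆ ball p R := ball_subset_ball (by linarith)
  have hS : ∀ x ∈ Sd F (ball p (R / 16)), ∀ l, v l x = v 0 x := by
    intro x hx l
    have hx' : x ∈ Sc F (ball p R) := ⟨hsub hx.1, hx.2.le⟩
    have hm := cfg.mv x hx'
    have h1 : v 0 x ≤ v l x := hm (Fin.zero_le l)
    have h2 : v l x ≤ v (Fin.last (k + 1)) x := hm (Fin.le_last l)
    have h3 := h0 x hx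
    linarith
  intro x hx l
  rcases hx.2.lt_or_eq with hpos | hzero
  · exact hS x ⟨hx.1, hpos⟩ l
  have hxR : x ∈ Sc F (ball p R) := ⟨hsub hx.1, hx.2⟩
  set N := gradient F p with hN
  have hcont : Continuous (fun s : ℝ => x + s • N) := by fun_prop
  have hev : ∀ᶠ s in 𝓝[>] (0 : ℝ), x + s • N ∈ ball p (R / 16) := by
    have h1 : ∀ᶠ s in 𝓝 (0 : ℝ), x + s • N ∈ ball p (R / 16) := by
      apply hcont.continuousAt.eventually
      apply isOpen_ball.mem_nhds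
      simpa using hx.1
    exact h1.filter_mono nhdsWithin_le_nhds
  have hevS : ∀ᶠ s in 𝓝[>] (0 : ℝ), x + s • N ∈ Sd F (ball p (R / 16)) := by
    filter_upwards [hev, self_mem_nhdsWithin] with s hs hs0
    refine ⟨hs, ?_⟩
    have h1 := (hGEF (d + 1) F φ p R L i geo).2.2.2.2.1 x (hsub hx.1) s (le_of_lt hs0) (hsub hs)
    have h2 : (0 : ℝ) < s := hs0
    have h3 : F x = 0 := hzero.symm
    rw [h3] at h1
    nlinarith
  have ht : Tendsto (fun s : ℝ => x + s • N) (𝓝[>] (0 : ℝ)) (𝓝[Sc F (ball p R)] x) := by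
    rw [tendsto_nhdsWithin_iff]
    refine ⟨?_, ?_⟩
    · have h1 : Tendsto (fun s : ℝ => x + s • N) (𝓝 (0 : ℝ)) (𝓝 (x + (0 : ℝ) • N)) :=
        hcont.tendsto 0
      rw [zero_smul, add_zero] at h1
      exact h1.mono_left nhdsWithin_le_nhds
    · filter_upwards [hevS] with s hs
      exact ⟨hsub hs.1, hs.2.le⟩
  have t1 : Tendsto (fun s : ℝ => v l (x + s • N)) (𝓝[>] (0 : ℝ)) (𝓝 (v l x)) :=
    (cfg.cv l x hxR).tendsto.comp ht
  have t2 : Tendsto (fun s : ℝ => v 0 (x + s • N)) (𝓝[>] (0 : ℝ)) (𝓝 (v 0 x)) :=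
    (cfg.cv 0 x hxR).tendsto.comp ht
  have t3 : Tendsto (fun s : ℝ => v l (x + s • N)) (𝓝[>] (0 : ℝ)) (𝓝 (v 0 x)) := by
    refine t2.congr' ?_
    filter_upwards [hevS] with s hs
    exact (hS _ hs l).symm
  exact tendsto_nhds_unique t1 t3

/-- squaring the lower bound -/
theorem arith1 {q r X t K I ε κ b : ℝ} (hq : 0 < q) (hr : 0 < r) (hX : 0 < X) (ht : 0 < t)
    (hI : 0 ≤ I) (_hK : 0 < K) (hε : 0 < ε) (hκ : 0 < κ) (hb : b ≤ q / 4 * (r * X))
    (hmain : t * (q * (r * X) - b) ≤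
      K * (Real.sqrt (ε * κ * r * (r * X)) * Real.sqrt I + 4 * (t * (ε * κ) * (r * X))))
    (hsm : K * 4 * (ε * κ) ≤ q / 4) :
    t ^ 2 * X * (q ^ 2 / 4) ≤ K ^ 2 * (ε * κ) * I := by
  have hrX : 0 < r * X := by positivity
  have h0 : t * (q * (r * X) - q / 4 * (r * X)) ≤ t * (q * (r * X) - b) :=
    mul_le_mul_of_nonneg_left (by linarith) ht.le
  have h00 : K * (4 * (t * (ε * κ) * (r * X))) ≤ q / 4 * (t * (r * X)) := by
    have h := mul_le_mul_of_nonneg_right hsm (by positivity : 0 ≤ t * (r * X))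
    calc K * (4 * (t * (ε * κ) * (r * X))) = K * 4 * (ε * κ) * (t * (r * X)) := by ring
      _ ≤ _ := h
  have h1 : t * (r * X) * (q / 2) ≤
      K * (Real.sqrt (ε * κ * r * (r * X)) * Real.sqrt I) := by
    have e1 : t * (q * (r * X) - q / 4 * (r * X)) = 3 / 4 * (q * (t * (r * X))) := by ring
    have e2 : K * (Real.sqrt (ε * κ * r * (r * X)) * Real.sqrt I +
        4 * (t * (ε * κ) * (r * X))) =
        K * (Real.sqrt (ε * κ * r * (r * X)) * Real.sqrt I) +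
          K * (4 * (t * (ε * κ) * (r * X))) := by ring
    rw [e2] at hmain
    rw [e1] at h0
    linarith
  have h2 : (t * (r * X) * (q / 2)) ^ 2 ≤
      (K * (Real.sqrt (ε * κ * r * (r * X)) * Real.sqrt I)) ^ 2 :=
    pow_le_pow_left₀ (by positivity) h1 2
  have h3 : (K * (Real.sqrt (ε * κ * r * (r * X)) * Real.sqrt I)) ^ 2 =
      K ^ 2 * ((ε * κ * r * (r * X)) * I) := by
    rw [mul_pow, mul_pow, Real.sq_sqrt (by positivity), Real.sq_sqrt hI]
  rw [h3] at h2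
  have h4 : r ^ 2 * X * (t ^ 2 * X * (q ^ 2 / 4)) ≤ r ^ 2 * X * (K ^ 2 * (ε * κ) * I) := by
    calc r ^ 2 * X * (t ^ 2 * X * (q ^ 2 / 4)) = (t * (r * X) * (q / 2)) ^ 2 := by ring
      _ ≤ K ^ 2 * ((ε * κ * r * (r * X)) * I) := h2
      _ = _ := by ring
  exact le_of_mul_le_mul_left h4 (by positivity)

/-- the final contradiction between the constants -/
theorem arith2 {q r X Y K I ε κ δ σ A C1 CE L2 bd : ℝ} (hq : 0 < q) (hr : 0 < r) (hr1 : r ≤ 1)
    (hX : 0 < X) (hY : 0 < Y) (_hK : 0 < K) (hε : 0 < ε) (hκ : 0 < κ) (hδ : 0 < δ)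
    (hA : 0 < A) (hC1 : 0 < C1) (hCE : 0 < CE) (hL2 : 0 < L2) (hrY : r ≤ A * Y)
    (hbd : bd ≤ σ * (r * X))
    (hlow : (ε * Y) ^ 2 * X * (q ^ 2 / 4) ≤ K ^ 2 * (ε * κ) * I)
    (hI : I ≤ C1 * (CE * L2 * (A * Y * (ε * Y) / (δ * r) * bd + ε * Y * δ * (r ^ 2 * X) +
      A * Y * (ε * Y) * (r * X) + A * Y * (ε * Y) * δ * X) + (ε * Y) ^ 2 * X))
    (h1 : K ^ 2 * κ * C1 * ε ≤ q ^ 2 / 16)
    (h2 : K ^ 2 * κ * C1 * CE * L2 * A * (2 * δ) ≤ q ^ 2 / 32)
    (h3 : K ^ 2 * κ * C1 * CE * L2 * A * (σ / δ) ≤ q ^ 2 / 64)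
    (h4 : K ^ 2 * κ * C1 * CE * L2 * A * r ≤ q ^ 2 / 64) : False := by
  have e1 : A * Y * (ε * Y) / (δ * r) * bd ≤ Y ^ 2 * X * ε * (A * (σ / δ)) := by
    have h := mul_le_mul_of_nonneg_left hbd (by positivity : 0 ≤ A * Y * (ε * Y) / (δ * r))
    calc A * Y * (ε * Y) / (δ * r) * bd ≤ A * Y * (ε * Y) / (δ * r) * (σ * (r * X)) := h
      _ = Y ^ 2 * X * ε * (A * (σ / δ)) := by field_simp
  have e2 : ε * Y * δ * (r ^ 2 * X) ≤ Y ^ 2 * X * ε * (A * δ) := by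
    have ha : r ^ 2 ≤ A * Y := by
      calc r ^ 2 = r * r := by ring
        _ ≤ 1 * r := mul_le_mul_of_nonneg_right hr1 hr.le
        _ = r := one_mul r
        _ ≤ A * Y := hrY
    have h := mul_le_mul_of_nonneg_left ha (by positivity : 0 ≤ ε * Y * δ * X)
    calc ε * Y * δ * (r ^ 2 * X) = ε * Y * δ * X * r ^ 2 := by ring
      _ ≤ ε * Y * δ * X * (A * Y) := h
      _ = _ := by ring
  have e3 : A * Y * (ε * Y) * (r * X) = Y ^ 2 * X * ε * (A * r) := by ring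
  have e4 : A * Y * (ε * Y) * δ * X = Y ^ 2 * X * ε * (A * δ) := by ring
  have e5 : (ε * Y) ^ 2 * X = Y ^ 2 * X * ε * ε := by ring
  have hB : I ≤ C1 * (Y ^ 2 * X * ε * (CE * L2 * (A * (σ / δ + 2 * δ + r)) + ε)) := by
    refine hI.trans ?_
    apply mul_le_mul_of_nonneg_left _ hC1.le
    rw [e3, e4, e5]
    have h := mul_le_mul_of_nonneg_left (add_le_add e1 e2) (by positivity : 0 ≤ CE * L2)
    calc CE * L2 * (A * Y * (ε * Y) / (δ * r) * bd + ε * Y * δ * (r ^ 2 * X) +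
          Y ^ 2 * X * ε * (A * r) + Y ^ 2 * X * ε * (A * δ)) + Y ^ 2 * X * ε * ε
        = CE * L2 * (A * Y * (ε * Y) / (δ * r) * bd + ε * Y * δ * (r ^ 2 * X)) +
          (CE * L2 * (Y ^ 2 * X * ε * (A * r) + Y ^ 2 * X * ε * (A * δ)) +
            Y ^ 2 * X * ε * ε) := by ring
      _ ≤ CE * L2 * (Y ^ 2 * X * ε * (A * (σ / δ)) + Y ^ 2 * X * ε * (A * δ)) +
          (CE * L2 * (Y ^ 2 * X * ε * (A * r) + Y ^ 2 * X * ε * (A * δ)) +
            Y ^ 2 * X * ε * ε) := by linarith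
      _ = _ := by ring
  have hC : (Y ^ 2 * X * ε * ε) * (q ^ 2 / 4) ≤ (Y ^ 2 * X * ε * ε) *
      (K ^ 2 * κ * C1 * CE * L2 * A * (σ / δ + 2 * δ + r) + K ^ 2 * κ * C1 * ε) := by
    calc (Y ^ 2 * X * ε * ε) * (q ^ 2 / 4) = (ε * Y) ^ 2 * X * (q ^ 2 / 4) := by ring
      _ ≤ K ^ 2 * (ε * κ) * I := hlow
      _ ≤ K ^ 2 * (ε * κ) * (C1 * (Y ^ 2 * X * ε * (CE * L2 * (A * (σ / δ + 2 * δ + r)) + ε))) :=
        mul_le_mul_of_nonneg_left hB (by positivity)
      _ = _ := by ring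
  have hD := le_of_mul_le_mul_left hC (by positivity)
  have e6 : K ^ 2 * κ * C1 * CE * L2 * A * (σ / δ + 2 * δ + r) =
      K ^ 2 * κ * C1 * CE * L2 * A * (σ / δ) + K ^ 2 * κ * C1 * CE * L2 * A * (2 * δ) +
      K ^ 2 * κ * C1 * CE * L2 * A * r := by ring
  rw [e6] at hD
  have hq2 : 0 < q ^ 2 := by positivity
  linarith

/-- `bad` is small at small scales -/
theorem bad_small {d : ℕ} {i : Fin (d + 1)} {Z : Set (E (d + 1))} {p : E (d + 1)}
    (hD : Dn i Z p) {σ : ℝ} (hσ : 0 < σ) :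
    ∃ r₂ > 0, ∀ r : ℝ, 0 < r → r < r₂ → bad i Z p r ≤ σ * r ^ d := by
  have h1 : ∀ᶠ r in 𝓝[>] (0 : ℝ), bad i Z p r / r ^ d < σ :=
    hD.eventually (gt_mem_nhds hσ)
  rw [eventually_nhdsWithin_iff] at h1
  obtain ⟨η, hη, h2⟩ := Metric.eventually_nhds_iff.1 h1
  refine ⟨η, hη, fun r hr hr2 => ?_⟩
  have h3 := h2 (y := r) (by rw [Real.dist_eq, sub_zero, abs_of_pos hr]; exact hr2) hr
  have h4 : 0 < r ^ d := by positivity
  rw [div_lt_iff₀ h4] at h3
  exact h3.le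

/-- choice of the constants -/
theorem consts {q K κ C1 CE L2 A : ℝ} (hq : 0 < q) (hK : 0 < K) (hκ : 0 < κ) (hC1 : 0 < C1)
    (hCE : 0 < CE) (hL2 : 0 < L2) (hA : 0 < A) :
    ∃ ε > 0, ∃ δ > 0, ∃ σ > 0, ∃ r₃ > 0, δ ≤ 1 ∧ ε * κ ≤ 1 / 4 ∧ K * 4 * (ε * κ) ≤ q / 4 ∧
      K ^ 2 * κ * C1 * ε ≤ q ^ 2 / 16 ∧
      K ^ 2 * κ * C1 * CE * L2 * A * (2 * δ) ≤ q ^ 2 / 32 ∧
      K ^ 2 * κ * C1 * CE * L2 * A * (σ / δ) ≤ q ^ 2 / 64 ∧
      ∀ r : ℝ, r ≤ r₃ → K ^ 2 * κ * C1 * CE * L2 * A * r ≤ q ^ 2 / 64 := by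
  set M := K ^ 2 * κ * C1 * CE * L2 * A with hM
  have hM0 : 0 < M := by positivity
  have key : ∀ a b : ℝ, 0 < a → 0 < b → ∃ c > 0, ∀ s : ℝ, s ≤ c → a * s ≤ b := by
    intro a b ha hb
    refine ⟨b / a, by positivity, fun s hs => ?_⟩
    calc a * s ≤ a * (b / a) := mul_le_mul_of_nonneg_left hs ha.le
      _ = b := by field_simp
  obtain ⟨a1, ha1, h1⟩ := key κ (1 / 4) hκ (by norm_num)
  obtain ⟨a2, ha2, h2⟩ := key (K * 4 * κ) (q / 4) (by positivity) (by positivity)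
  obtain ⟨a3, ha3, h3⟩ := key (K ^ 2 * κ * C1) (q ^ 2 / 16) (by positivity) (by positivity)
  obtain ⟨a4, ha4, h4⟩ := key (M * 2) (q ^ 2 / 32) (by positivity) (by positivity)
  obtain ⟨a5, ha5, h5⟩ := key M (q ^ 2 / 64) hM0 (by positivity)
  refine ⟨min a1 (min a2 a3), by positivity, min a4 1, by positivity, a5 * min a4 1,
    by positivity, a5, ha5, min_le_right _ _, ?_, ?_, ?_, ?_, ?_, ?_⟩
  · rw [mul_comm]; exact h1 _ (min_le_left _ _)
  · have := h2 (min a1 (min a2 a3)) ((min_le_right _ _).trans (min_le_left _ _))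
    calc K * 4 * (min a1 (min a2 a3) * κ) = K * 4 * κ * min a1 (min a2 a3) := by ring
      _ ≤ _ := this
  · exact h3 _ ((min_le_right _ _).trans (min_le_right _ _))
  · have := h4 (min a4 1) (min_le_left _ _)
    calc M * (2 * min a4 1) = M * 2 * min a4 1 := by ring
      _ ≤ _ := this
  · have e : a5 * min a4 1 / min a4 1 = a5 := by
      have : (0 : ℝ) < min a4 1 := by positivity
      field_simp
    rw [e]
    exact h5 a5 le_rfl
  · intro r hr
    exact h5 r hr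

end CON_

theorem con_proof (hWBA : Stmt_WBA) (hGEF : Stmt_GEF) (hDCH : Stmt_DCH) (hHOP : Stmt_HOP)
    (_hHMO : Stmt_HMO) (_hFUB : Stmt_FUB) (hVLB : Stmt_VLB) (hENF : Stmt_ENF)
    (hSTR : Stmt_STR) (hEUL : Stmt_EUL) (hPRS : Stmt_PRS) (hSIZ : Stmt_SIZ)
    (hCO1 : Stmt_CO1) (hWEX : Stmt_WEX) : Stmt_CON := by
  intro d k F φ p R L i v gv w gw geo cfg hwp hD
  have hR := geo.hR
  have hL := geo.hL
  have hm : 0 < d + 1 := Nat.succ_pos d
  obtain ⟨hR1, _, _, _, _, hpN⟩ := hGEF (d + 1) F φ p R L i geo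
  obtain ⟨hHv, hHw, _⟩ := hEUL (d + 1) (k + 1) F φ p R L i v gv w gw geo cfg
  have hFc : Continuous F := geo.cF.continuous
  have hopen : IsOpen (Sd F (ball p R)) := by
    have : Sd F (ball p R) = ball p R ∩ {x | 0 < F x} := rfl
    rw [this]
    exact isOpen_ball.inter (isOpen_lt continuous_const hFc)
  have hdiff : ∀ a b : Fin (k + 1 + 1), WHar (Sd F (ball p R)) (fun x => v a x - v b x)
      (fun x => gv a x - gv b x) := fun a b => CON_.whar_sub hWBA hWEX hopen (hHv a) (hHv b)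
  have hdc : ∀ a b : Fin (k + 1 + 1), ContinuousOn (fun x => v a x - v b x)
      (Sc F (ball p R)) := fun a b => (cfg.cv a).sub (cfg.cv b)
  have hdn : ∀ a b : Fin (k + 1 + 1), b ≤ a → ∀ x ∈ Sc F (ball p R), 0 ≤ v a x - v b x :=
    fun a b hab x hx => sub_nonneg.2 (cfg.mv x hx hab)
  rcases hDCH (d + 1) F φ p R L i _ _ hm geo (hdiff (Fin.last (k + 1)) 0)
    (fun x hx => hdn _ _ (Fin.zero_le _) x ⟨hx.1, hx.2.le⟩) with hzero | hpos
  · exact CON_.caseA hGEF geo cfg hzero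
  exfalso
  obtain ⟨A, hA, r₁, hr₁, hr₁R, hsiz⟩ := hSIZ d k F φ p R L i v gv w gw geo cfg hpos
  obtain ⟨cH, hcH, hhop⟩ := hHOP (d + 1) hm
  obtain ⟨cV, hcV, CV, hCV, hvlb⟩ := hVLB d
  obtain ⟨CE, hCE, henf⟩ := hENF d
  obtain ⟨C1, hC1, hco1⟩ := hCO1 d
  have hL0 : 0 < L := by linarith
  -- constants
  set q := cV / (4 * L) ^ d with hqdef
  have hq : 0 < q := by positivity
  set K := CV * L ^ 2 with hKdef
  have hK : 0 < K := by positivity
  set κ := ((k : ℝ) + 1) / cH with hκdef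
  have hκ : 0 < κ := by positivity
  obtain ⟨ε, hε, δ, hδ, σ, hσ, r₃, hr₃, hδ1, hc1, hc2, hc3, hc4, hc5, hc6⟩ :=
    CON_.consts (q := q) (K := K) (κ := κ) (C1 := C1) (CE := CE) (L2 := L ^ 2) (A := A)
      hq hK hκ hC1 hCE (by positivity) hA
  set Z := ZZ F φ (ball p R) w univ with hZ
  obtain ⟨r₂, hr₂, hbad⟩ := CON_.bad_small hD hσ
  obtain ⟨r₄, hr₄, hbad4⟩ := CON_.bad_small hD (σ := q / 4) (by positivity)
  -- the scale
  obtain ⟨r, hr, hrr₁, hrr₂, hrr₃, hrr₄⟩ : ∃ r > 0, r ≤ r₁ ∧ r < r₂ ∧ r ≤ r₃ ∧ r < r₄ := by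
    refine ⟨min (min r₁ (r₂ / 2)) (min r₃ (r₄ / 2)), by positivity, ?_, ?_, ?_, ?_⟩
    · exact (min_le_left _ _).trans (min_le_left _ _)
    · exact lt_of_le_of_lt ((min_le_left _ _).trans (min_le_right _ _)) (by linarith)
    · exact (min_le_right _ _).trans (min_le_left _ _)
    · exact lt_of_le_of_lt ((min_le_right _ _).trans (min_le_right _ _)) (by linarith)
  have hrR : 32 * r ≤ R := by linarith
  have hr1 : r ≤ 1 := by linarith
  obtain ⟨hrY, hsize⟩ := hsiz r hr hrr₁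
  set Y := v (Fin.last (k + 1)) (pN F p r) - v 0 (pN F p r) with hYdef
  have hY : 0 < Y := hpos r hr (by linarith)
  have ht : 0 < ε * Y := by positivity
  have hS : 0 < A * Y := by positivity
  set bd := bad i Z p r with hbddef
  have hbd : bd ≤ σ * r ^ d := hbad r hr hrr₂
  -- Z
  have hZ1 : ∀ x ∈ Z, x ∈ ball p R ∧ F x = 0 := fun x hx => ⟨hx.1, hx.2.1⟩
  have hstr : ∀ x ∈ Z, ∀ j : Fin (k + 1), v j.castSucc x = φ x ∧ v j.succ x = φ x := by
    intro x hx j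
    have hxc : x ∈ Sc F (ball p R) := ⟨hx.1, hx.2.1.ge⟩
    have hxc' : x ∈ Sc (fun x => -F x) (ball p R) := ⟨hx.1, by
      have := hx.2.1
      simp [this]⟩
    exact (hSTR (k + 1) (fun i => v i x) (fun j => w j x) (φ x) (cfg.mv x hxc)
      (cfg.mw x hxc') (cfg.tr x hx.1 hx.2.1)).2.2.2.2.2.2.2 j
      (fun l => hx.2.2 l (mem_univ l))
  have hZP : ∀ l, ∀ x ∈ Z, PP F φ v w l x = 0 := by
    intro l x hx
    simp only [PP]
    rw [if_pos hx.2.1.ge, (hstr x hx l).1, sub_self, max_self]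
  have hZR : ∀ l, ∀ x ∈ Z, RR F φ v w l x = 0 := by
    intro l x hx
    simp only [RR]
    rw [if_pos hx.2.1.ge, (hstr x hx l).2, sub_self, max_self]
  -- truncated functions
  have hprs : ∀ l, ∃ dP dR, SH (ball p R) L (PP F φ v w l) dP ∧
      SH (ball p R) L (RR F φ v w l) dR :=
    fun l => hPRS (d + 1) (k + 1) F φ p R L i v gv w gw l hm geo cfg
  set e := CE * L ^ 2 * (A * Y * (ε * Y) / (δ * r) * bd + ε * Y * δ * r ^ (d + 1) +
    A * Y * (ε * Y) * r ^ d + A * Y * (ε * Y) * δ * r ^ (d + 1) / r ^ 2) with hedef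
  have hP : ∀ l, ∃ (f : E (d + 1) → ℝ) (df : E (d + 1) → E (d + 1)), TB (ball p R) f df ∧
      (∀ x ∈ ball p R, 0 ≤ f x ∧ f x ≤ ε * Y) ∧
      (∀ x ∈ ball p R, F x = 0 → ‖x - p‖ < r / 2 → f x = min (PP F φ v w l x) (ε * Y)) ∧
      ∫ x in ball p R, ‖df x‖ ^ 2 ≤ e := by
    intro l
    obtain ⟨dP, dR, hSP, hSR⟩ := hprs l
    exact henf F φ p R L i Z (PP F φ v w l) dP (A * Y) (ε * Y) δ r geo hZ1 hSP (hZP l) hr
      (by linarith) hS (fun x hx => (hsize x hx l).1) ht hδ hδ1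
  have hRR : ∀ l, ∃ (f : E (d + 1) → ℝ) (df : E (d + 1) → E (d + 1)), TB (ball p R) f df ∧
      (∀ x ∈ ball p R, 0 ≤ f x ∧ f x ≤ ε * Y) ∧
      (∀ x ∈ ball p R, F x = 0 → ‖x - p‖ < r / 2 → f x = min (RR F φ v w l x) (ε * Y)) ∧
      ∫ x in ball p R, ‖df x‖ ^ 2 ≤ e := by
    intro l
    obtain ⟨dP, dR, hSP, hSR⟩ := hprs l
    exact henf F φ p R L i Z (RR F φ v w l) dR (A * Y) (ε * Y) δ r geo hZ1 hSR (hZR l) hr
      (by linarith) hS (fun x hx => (hsize x hx l).2) ht hδ hδ1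
  choose fP dfP hfP1 hfP2 hfP3 hfP4 using hP
  choose fR dfR hfR1 hfR2 hfR3 hfR4 using hRR
  obtain ⟨j, hj⟩ := CON_.exists_j (fun l => v l (pN F p r))
  obtain ⟨θ, dz, hθ1, hθ2, hθ3, hz, hI⟩ := hco1 k F φ p R L i v gv w gw j r (ε * Y) e fP fR
    dfP dfR geo cfg hr (by linarith) ht (fun l => ⟨hfP1 l, hfR1 l⟩)
    (fun l x hx => ⟨(hfP2 l x hx).1, (hfP2 l x hx).2, (hfR2 l x hx).1, (hfR2 l x hx).2⟩)
    (fun l x hx h0 h1 => ⟨hfP3 l x hx h0 h1, hfR3 l x hx h0 h1⟩)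
    (fun l => ⟨hfP4 l, hfR4 l⟩)
  set I := ∫ x in Sd F (ball p R), ‖dz x‖ ^ 2 with hIdef
  have hI0 : 0 ≤ I := integral_nonneg fun x => by positivity
  -- the layer
  have hGj : ∀ x ∈ Sc F (ball p R), 0 ≤ v j.succ x - v j.castSucc x :=
    hdn _ _ (Fin.castSucc_lt_succ (i := j)).le
  have hv := hvlb F φ p R L i Z (fun x => max (θ x - (v j.succ x - v j.castSucc x)) 0) dz
    (ε * Y) (r / 4) (ε * κ * r) geo hZ1 hz ht
    (fun x hx => ⟨le_max_right _ _, max_le (by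
      have h1 := (hθ1 x hx.1).2
      have h2 := hGj x hx
      linarith) ht.le⟩)
    (by positivity) (by linarith)
    (fun x hx hxr => by
      have h1 : θ x = ε * Y := hθ3 x hx.1 hx.2.1 (fun l => hx.2.2 l (mem_univ l)) hxr
      show max (θ x - (v j.succ x - v j.castSucc x)) 0 = ε * Y
      rw [h1, (hstr x hx j).1, (hstr x hx j).2, sub_self, sub_zero, max_eq_left ht.le])
    (by positivity)
    (by
      have h1 := mul_le_mul_of_nonneg_right hc1 hr.le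
      linarith)
    (fun x hx hxr hFx => by
      have h1 := hhop F φ p R L i _ _ geo (hdiff j.succ j.castSucc) (hdc _ _) hGj r hr
        (by linarith) x ⟨by rw [mem_ball, dist_eq_norm]; linarith, hx.2⟩
      have h2 : ε * Y ≤ v j.succ x - v j.castSucc x := by
        refine le_trans ?_ h1
        have h3 : cH * (Y / ((k : ℝ) + 1) / r) * (ε * κ * r) = ε * Y := by
          rw [hκdef]
          field_simp
        rw [← h3]
        apply mul_le_mul _ hFx (by positivity)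
        · apply mul_nonneg hcH.le
          apply div_nonneg _ hr.le
          have hpm := hpN r hr (by linarith)
          exact hGj _ ⟨hpm.1.1, hpm.1.2.le⟩
        · apply mul_le_mul_of_nonneg_left _ hcH.le
          exact div_le_div_of_nonneg_right hj hr.le
      have h4 := (hθ1 x hx.1).2
      show max (θ x - (v j.succ x - v j.castSucc x)) 0 = 0
      apply max_eq_right
      linarith)
  -- arithmetic
  set X := r ^ (d + 1) / r ^ 2 with hXdef
  have hX : 0 < X := by positivity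
  have eX1 : r ^ d = r * X := by
    rw [hXdef]
    field_simp
    ring
  have eX2 : r ^ (d + 1) = r ^ 2 * X := by
    rw [hXdef]
    field_simp
  have hr4d : (r / 4) ^ d ≤ r * X := by
    rw [← eX1]
    exact pow_le_pow_left₀ (by positivity) (by linarith) d
  have hb4 : bad i Z p (r / 4) ≤ q / 4 * (r * X) := by
    refine (hbad4 (r / 4) (by positivity) (by linarith)).trans ?_
    exact mul_le_mul_of_nonneg_left hr4d (by positivity)
  have hqe : cV * (r / 4 / L) ^ d = q * (r * X) := by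
    rw [hqdef, ← eX1, div_div, div_pow]
    ring
  have hmain : ε * Y * (q * (r * X) - bad i Z p (r / 4)) ≤
      K * (Real.sqrt (ε * κ * r * (r * X)) * Real.sqrt I +
        4 * (ε * Y * (ε * κ) * (r * X))) := by
    rw [← hqe]
    refine hv.trans ?_
    rw [← hKdef]
    apply mul_le_mul_of_nonneg_left _ hK.le
    apply add_le_add
    · apply mul_le_mul_of_nonneg_right _ (Real.sqrt_nonneg _)
      apply Real.sqrt_le_sqrt
      exact mul_le_mul_of_nonneg_left hr4d (by positivity)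
    · calc ε * Y * (ε * κ * r) * (r / 4) ^ d / (r / 4)
          = 4 * (ε * Y * (ε * κ)) * (r / 4) ^ d := by field_simp
        _ ≤ 4 * (ε * Y * (ε * κ)) * (r * X) :=
            mul_le_mul_of_nonneg_left hr4d (by positivity)
        _ = _ := by ring
  have hlow := CON_.arith1 hq hr hX ht hI0 hK hε hκ hb4 hmain hc2
  have hI' : I ≤ C1 * (CE * L ^ 2 * (A * Y * (ε * Y) / (δ * r) * bd +
      ε * Y * δ * (r ^ 2 * X) + A * Y * (ε * Y) * (r * X) + A * Y * (ε * Y) * δ * X) +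
      (ε * Y) ^ 2 * X) := by
    have e1 : e = CE * L ^ 2 * (A * Y * (ε * Y) / (δ * r) * bd +
      ε * Y * δ * (r ^ 2 * X) + A * Y * (ε * Y) * (r * X) + A * Y * (ε * Y) * δ * X) := by
      rw [hedef, ← eX1, ← eX2, hXdef]
      ring
    have e2 : (ε * Y) ^ 2 * r ^ (d + 1) / r ^ 2 = (ε * Y) ^ 2 * X := by
      rw [hXdef]; ring
    rw [← e1, ← e2]
    exact hI
  rw [eX1] at hbd
  exact CON_.arith2 hq hr hr1 hX hY hK hε hκ hδ hA hC1 hCE (by positivity) hrY hbd hlow hI'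
    hc3 hc4 hc5 (hc6 r hrr₃)

end Pool.Agent.COB
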