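import Pool.Agent.COB.Stmts

set_option autoImplicit false

namespace Pool.Agent.COB

open MeasureTheory Set Metric Filter Topology
open scoped ENNReal

noncomputable section

namespace DBW_

variable {m : ℕ}

/-- smooth test functions -/
def TF (U : Set (E m)) : Submodule ℝ (E m → ℝ) where
  carrier := {ζ | ContDiff ℝ (⊤ : ℕ∞) ζ ∧ HasCompactSupport ζ ∧ tsupport ζ ⊆ U}
  add_mem' := by
    rintro a b ⟨ha, ha', ha''⟩ ⟨hb, hb', hb''⟩
    exact ⟨ha.add hb, ha'.add hb', (tsupport_add a b).trans (union_subset ha'' hb'')⟩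
  zero_mem' := by
    refine ⟨contDiff_const, HasCompactSupport.zero, ?_⟩
    have : tsupport (0 : E m → ℝ) = ∅ := by simp [tsupport]
    rw [this]; exact empty_subset _
  smul_mem' := by
    rintro c a ⟨ha, ha', ha''⟩
    refine ⟨contDiff_const.smul ha, ha'.smul_left (f := fun _ => c), ?_⟩
    exact (tsupport_smul_subset_right (fun _ => c) a).trans ha''

lemma int_mul {U C : Set (E m)} {f ψ : E m → ℝ} (hf : ContinuousOn f U) (hC : IsCompact C)
    (hCU : C ⊆ U) (hψ : Continuous ψ) (h0 : ∀ x, x ∉ C → ψ x = 0) :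
    Integrable (fun x => f x * ψ x) := by
  have h1 : IntegrableOn (fun x => f x * ψ x) C :=
    ((hf.mono hCU).mul hψ.continuousOn).integrableOn_compact hC
  rw [integrableOn_iff_integrable_of_support_subset] at h1
  · exact h1
  · intro x hx
    by_contra hxC
    exact hx (by simp [h0 x hxC])

lemma fd_zero {ζ : E m → ℝ} {v : E m} {x : E m} (hx : x ∉ tsupport ζ) : fderiv ℝ ζ x v = 0 := by
  have h1 : ζ =ᶠ[𝓝 x] 0 := notMem_tsupport_iff_eventuallyEq.mp hx
  have h2 : fderiv ℝ ζ x = 0 := by
    rw [h1.fderiv_eq]; simp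
  rw [h2]; rfl

lemma int_fd {U : Set (E m)} {f ζ : E m → ℝ} (hf : ContinuousOn f U) (hζ : ContDiff ℝ 1 ζ)
    (hc : HasCompactSupport ζ) (hU : tsupport ζ ⊆ U) (v : E m) :
    Integrable (fun x => f x * fderiv ℝ ζ x v) :=
  int_mul hf hc hU ((hζ.continuous_fderiv (by simp)).clm_apply continuous_const)
    (fun _ hx => fd_zero hx)

def T (U : Set (E m)) : TF U →ₗ[ℝ] Lp ℝ 2 ((volume : Measure (E m)).restrict U) where
  toFun ζ := MemLp.toLp (ζ : E m → ℝ)
    ((ζ.2.1.continuous).memLp_of_hasCompactSupport ζ.2.2.1)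
  map_add' a b := by
    rw [← MemLp.toLp_add]; rfl
  map_smul' c a := by
    rw [RingHom.id_apply, ← MemLp.toLp_const_smul]; rfl

def Lm (U : Set (E m)) (f : E m → ℝ) (hf : ContinuousOn f U) (v : E m) : TF U →ₗ[ℝ] ℝ where
  toFun ζ := ∫ x, f x * fderiv ℝ (ζ : E m → ℝ) x v
  map_add' a b := by
    rw [← integral_add (int_fd hf (a.2.1.of_le (by exact_mod_cast le_top)) a.2.2.1 a.2.2.2 v)
      (int_fd hf (b.2.1.of_le (by exact_mod_cast le_top)) b.2.2.1 b.2.2.2 v)]
    congr 1
    ext x
    have h1 : DifferentiableAt ℝ (a : E m → ℝ) x := (a.2.1.differentiable (by simp)) x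
    have h2 : DifferentiableAt ℝ (b : E m → ℝ) x := (b.2.1.differentiable (by simp)) x
    have : fderiv ℝ ((a + b : TF U) : E m → ℝ) x = fderiv ℝ (a : E m → ℝ) x + fderiv ℝ (b : E m → ℝ) x :=
      fderiv_add h1 h2
    rw [this, add_apply, mul_add]
  map_smul' c a := by
    rw [RingHom.id_apply, smul_eq_mul, ← integral_const_mul]
    congr 1
    ext x
    have h1 : DifferentiableAt ℝ (a : E m → ℝ) x := (a.2.1.differentiable (by simp)) x
    have : fderiv ℝ ((c • a : TF U) : E m → ℝ) x = c • fderiv ℝ (a : E m → ℝ) x :=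
      fderiv_const_smul h1 c
    rw [this, smul_apply, smul_eq_mul]; ring

lemma bound {U : Set (E m)} {f : E m → ℝ} (hf : ContinuousOn f U) {v : E m} {h : E m → ℝ≥0∞}
    (hU : IsOpen U) (hm : Measurable h) (hfin : ∫⁻ x in U, h x ^ 2 < ⊤) (hb : DerivBound U v f h) :
    ∀ ζ : TF U, ‖Lm U f hf v ζ‖ ≤ ((∫⁻ x in U, h x ^ 2) ^ (1 / 2 : ℝ)).toReal * ‖T U ζ‖ := by
  intro ζ
  have h1 := hb ζ ζ.2.1 ζ.2.2.1 ζ.2.2.2
  have h2 : ∫⁻ x, h x * ENNReal.ofReal |(ζ : E m → ℝ) x| = ∫⁻ x in U, h x * ENNReal.ofReal |(ζ : E m → ℝ) x| := by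
    rw [← lintegral_indicator hU.measurableSet]
    congr 1
    ext x
    by_cases hx : x ∈ U
    · simp [hx]
    · have : (ζ : E m → ℝ) x = 0 := image_eq_zero_of_notMem_tsupport (fun h' => hx (ζ.2.2.2 h'))
      simp [hx, this]
  have h3 : ∫⁻ x in U, h x * ENNReal.ofReal |(ζ : E m → ℝ) x| ≤
      (∫⁻ x in U, h x ^ (2 : ℝ)) ^ (1 / 2 : ℝ) *
      (∫⁻ x in U, (ENNReal.ofReal |(ζ : E m → ℝ) x|) ^ (2 : ℝ)) ^ (1 / 2 : ℝ) := by
    apply ENNReal.lintegral_mul_le_Lp_mul_Lq _ (Real.HolderConjugate.two_two) hm.aemeasurable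
    exact (ENNReal.measurable_ofReal.comp (ζ.2.1.continuous.measurable.abs)).aemeasurable
  have h4 : (∫⁻ x in U, (ENNReal.ofReal |(ζ : E m → ℝ) x|) ^ (2 : ℝ)) ^ (1 / 2 : ℝ) =
      ENNReal.ofReal ‖T U ζ‖ := by
    have : ‖T U ζ‖ = (eLpNorm (ζ : E m → ℝ) 2 (volume.restrict U)).toReal := by
      exact Lp.norm_toLp (ζ : E m → ℝ) ((ζ.2.1.continuous).memLp_of_hasCompactSupport ζ.2.2.1)
    rw [this, ENNReal.ofReal_toReal]
    · rw [eLpNorm_eq_lintegral_rpow_enorm_toReal (by norm_num) (by norm_num)]
      simp only [ENNReal.toReal_ofNat]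
      congr 1
      apply lintegral_congr
      intro x
      rw [Real.enorm_eq_ofReal_abs]
    · exact ((ζ.2.1.continuous).memLp_of_hasCompactSupport ζ.2.2.1).2.ne
  have h5 : (∫⁻ x in U, h x ^ (2 : ℝ)) = ∫⁻ x in U, h x ^ 2 := by
    congr 1; ext x; exact ENNReal.rpow_ofNat (h x) 2
  rw [h2] at h1
  have h6 := h1.trans h3
  rw [h4, h5] at h6
  have hC : (∫⁻ x in U, h x ^ 2) ^ (1 / 2 : ℝ) ≠ ⊤ :=
    ENNReal.rpow_ne_top_of_nonneg (by norm_num) hfin.ne
  have h7 := ENNReal.toReal_mono (ENNReal.mul_ne_top hC ENNReal.ofReal_ne_top) h6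
  rw [ENNReal.toReal_mul, ENNReal.toReal_ofReal (abs_nonneg _),
    ENNReal.toReal_ofReal (norm_nonneg _)] at h7
  exact h7

/-- Riesz -/
lemma riesz {U : Set (E m)} {f : E m → ℝ} (hf : ContinuousOn f U) {v : E m} {h : E m → ℝ≥0∞}
    (hU : IsOpen U) (hm : Measurable h) (hfin : ∫⁻ x in U, h x ^ 2 < ⊤) (hb : DerivBound U v f h) :
    ∃ G : Lp ℝ 2 ((volume : Measure (E m)).restrict U), ∀ ζ : TF U,
      Lm U f hf v ζ = ∫ x in U, G x * (ζ : E m → ℝ) x := by
  set C := ((∫⁻ x in U, h x ^ 2) ^ (1 / 2 : ℝ)).toReal with hCdef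
  have hbd := bound hf hU hm hfin hb
  have hker : LinearMap.ker (T U) ≤ LinearMap.ker (Lm U f hf v) := by
    intro ζ hζ
    rw [LinearMap.mem_ker] at hζ ⊢
    have := hbd ζ
    rw [hζ, norm_zero, mul_zero] at this
    exact norm_le_zero_iff.mp this
  let Λ' : LinearMap.range (T U) →ₗ[ℝ] ℝ :=
    ((LinearMap.ker (T U)).liftQ (Lm U f hf v) hker).comp
      ((T U).quotKerEquivRange.symm : LinearMap.range (T U) →ₗ[ℝ] _)
  have hΛ : ∀ ζ : TF U, Λ' ⟨T U ζ, LinearMap.mem_range_self _ ζ⟩ = Lm U f hf v ζ := by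
    intro ζ
    have : (T U).quotKerEquivRange.symm ⟨T U ζ, LinearMap.mem_range_self _ ζ⟩ =
        (LinearMap.ker (T U)).mkQ ζ := by
      rw [LinearEquiv.symm_apply_eq]
      rfl
    show ((LinearMap.ker (T U)).liftQ (Lm U f hf v) hker) _ = _
    rw [LinearEquiv.coe_coe, this, Submodule.mkQ_apply, Submodule.liftQ_apply]
  let Λc : LinearMap.range (T U) →L[ℝ] ℝ := Λ'.mkContinuous C (by
    rintro ⟨y, ζ, rfl⟩
    rw [hΛ]
    exact hbd ζ)
  obtain ⟨g, hg, -⟩ := exists_extension_norm_eq (𝕜 := ℝ) (LinearMap.range (T U)) Λc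
  refine ⟨(InnerProductSpace.toDual ℝ _).symm g, fun ζ => ?_⟩
  have h1 : g (T U ζ) = Lm U f hf v ζ := by
    have := hg ⟨T U ζ, LinearMap.mem_range_self _ ζ⟩
    rw [← hΛ ζ]
    exact this
  rw [← h1, ← InnerProductSpace.toDual_symm_apply, L2.inner_def]
  apply integral_congr_ae
  have h2 : (T U ζ : E m → ℝ) =ᵐ[volume.restrict U] (ζ : E m → ℝ) :=
    MemLp.coeFn_toLp ((ζ.2.1.continuous).memLp_of_hasCompactSupport ζ.2.2.1)
  filter_upwards [h2] with x hx
  rw [hx]
  simp [mul_comm]

/-- positivity of a distribution -/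
lemma ae_le_of_test {U : Set (E m)} (hU : IsOpen U) {D : E m → ℝ}
    (hD : ∀ K : Set (E m), K ⊆ U → IsCompact K → IntegrableOn D K)
    (hm : AEStronglyMeasurable D (volume.restrict U))
    (hnt : ∀ ζ : E m → ℝ, ContDiff ℝ (⊤ : ℕ∞) ζ → HasCompactSupport ζ → tsupport ζ ⊆ U →
      (∀ x, 0 ≤ ζ x) → ∫ x in U, D x * ζ x ≤ 0) :
    ∀ᵐ x : E m, x ∈ U → D x ≤ 0 := by
  -- integrals over compact sets
  have hK : ∀ s : Set (E m), s ⊆ U → IsCompact s → ∫ x in s, D x ≤ 0 := by
    intro s hsU hs
    obtain ⟨δ, δpos, hδU⟩ := hs.exists_cthickening_subset_open hU hsU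
    have hδ : IsCompact (cthickening δ s) := hs.cthickening
    obtain ⟨u, -, u_pos, u_lim⟩ : ∃ u, StrictAnti u ∧ (∀ (n : ℕ), u n ∈ Ioo 0 δ)
      ∧ Tendsto u atTop (𝓝 0) := exists_seq_strictAnti_tendsto' δpos
    let v : ℕ → Set (E m) := fun n ↦ thickening (u n) s
    have vK : ∀ n, v n ⊆ cthickening δ s :=
      fun n ↦ thickening_subset_cthickening_of_le (u_pos n).2.le _
    have : ∀ n, ∃ (g : E m → ℝ), Function.support g = v n ∧ ContDiff ℝ (⊤ : ℕ∞) g ∧
        Set.range g ⊆ Set.Icc 0 1 ∧ ∀ x ∈ s, g x = 1 := by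
      intro n
      rcases exists_contMDiff_support_eq_eq_one_iff (n := (⊤ : ℕ∞))
        (modelWithCornersSelf ℝ (E m)) isOpen_thickening
        hs.isClosed (self_subset_thickening (u_pos n).1 s) with ⟨g, g_smooth, g_range, g_supp, hg⟩
      exact ⟨g, g_supp, g_smooth.contDiff, g_range, fun x hx ↦ (hg x).1 hx⟩
    choose g g_supp g_diff g_range hg using this
    have g0 : ∀ n x, 0 ≤ g n x := fun n x => (g_range n (mem_range_self x)).1
    have g1 : ∀ n x, g n x ≤ 1 := fun n x => (g_range n (mem_range_self x)).2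
    have gz : ∀ n x, x ∉ cthickening δ s → g n x = 0 := by
      intro n x hx
      rw [← Function.notMem_support, g_supp]
      exact fun h' => hx (vK n h')
    have hIoU : ∀ n, ∫ x in cthickening δ s, D x * g n x ≤ 0 := by
      intro n
      have h1 : ∫ x in cthickening δ s, D x * g n x = ∫ x in U, D x * g n x := by
        symm
        apply setIntegral_eq_of_subset_of_forall_sdiff_eq_zero hU.measurableSet hδU
        intro x hx
        rw [gz n x hx.2, mul_zero]
      rw [h1]
      have hts : tsupport (g n) ⊆ cthickening δ s := by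
        apply closure_minimal _ hδ.isClosed
        rw [g_supp]; exact vK n
      exact hnt (g n) (g_diff n) (HasCompactSupport.of_support_subset_isCompact hδ
        (by rw [g_supp]; exact vK n)) (hts.trans hδU) (g0 n)
    have L : Tendsto (fun n ↦ ∫ x in cthickening δ s, D x * g n x) atTop
        (𝓝 (∫ x in cthickening δ s, s.indicator D x)) := by
      have hDi := hD _ hδU hδ
      apply tendsto_integral_of_dominated_convergence (fun x => ‖D x‖)
      · exact fun n => hDi.1.mul (g_diff n).continuous.aestronglyMeasurable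
      · exact hDi.norm
      · intro n
        filter_upwards with x
        rw [norm_mul, Real.norm_of_nonneg (g0 n x)]
        exact mul_le_of_le_one_right (norm_nonneg _) (g1 n x)
      · filter_upwards with x
        by_cases hxs : x ∈ s
        · have : ∀ n, g n x = 1 := fun n ↦ hg n x hxs
          simp [this, indicator_of_mem hxs D]
        · rw [indicator_of_notMem hxs D]
          apply tendsto_const_nhds.congr'
          suffices H : ∀ᶠ n in atTop, g n x = 0 by
            filter_upwards [H] with n hn using by simp [hn]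
          obtain ⟨ε, εpos, hε⟩ : ∃ ε, 0 < ε ∧ x ∉ thickening ε s := by
            rw [← hs.isClosed.closure_eq, closure_eq_iInter_thickening s] at hxs
            simpa using hxs
          filter_upwards [(tendsto_order.1 u_lim).2 _ εpos] with n hn
          rw [← Function.notMem_support, g_supp]
          contrapose hε
          exact thickening_mono hn.le s hε
    have h2 : ∫ x in cthickening δ s, s.indicator D x = ∫ x in s, D x := by
      rw [setIntegral_indicator hs.measurableSet, inter_eq_right.mpr (self_subset_cthickening s)]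
    rw [← h2]
    exact le_of_tendsto' L hIoU
  -- a strongly measurable representative
  obtain ⟨D', hD'm, hD'e⟩ := hm
  have h3 : ∀ᵐ x : E m, x ∈ U → D x = D' x := (ae_restrict_iff' hU.measurableSet).mp hD'e
  let S : Set (E m) := {x | x ∈ U ∧ 0 < D' x}
  have hS : MeasurableSet S :=
    hU.measurableSet.inter (measurableSet_lt measurable_const hD'm.measurable)
  have hS0 : volume S = 0 := by
    by_contra hne
    have hpos : 0 < volume S := pos_iff_ne_zero.mpr hne
    obtain ⟨K, hKS, hKc, hKpos⟩ := hS.exists_lt_isCompact hpos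
    have hKU : K ⊆ U := fun x hx => (hKS hx).1
    have h4 := hK K hKU hKc
    have h5 : ∫ x in K, D x = ∫ x in K, D' x := by
      apply setIntegral_congr_ae hKc.measurableSet
      filter_upwards [h3] with x hx hxK using hx (hKU hxK)
    have h6 : IntegrableOn D' K := by
      apply (hD K hKU hKc).congr_fun_ae
      rw [EventuallyEq, ae_restrict_iff' hKc.measurableSet]
      filter_upwards [h3] with x hx hxK using hx (hKU hxK)
    have h7 : 0 < ∫ x in K, D' x := by
      rw [setIntegral_pos_iff_support_of_nonneg_ae _ h6]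
      · have : Function.support D' ∩ K = K := by
          apply inter_eq_right.mpr
          intro x hx
          exact (hKS hx).2.ne'
        rw [this]; exact hKpos
      · rw [EventuallyLE, ae_restrict_iff' hKc.measurableSet]
        filter_upwards with x hx using (hKS hx).2.le
    linarith
  have h8 : ∀ᵐ x : E m, x ∉ S := measure_eq_zero_iff_ae_notMem.mp hS0
  filter_upwards [h3, h8] with x hx hx' hxU
  rw [hx hxU]
  by_contra hne
  exact hx' ⟨hxU, not_le.mp hne⟩

/-- smooth approximation of a `C¹` test function -/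
lemma approx {U : Set (E m)} (hU : IsOpen U) {η : E m → ℝ} (hη : ContDiff ℝ 1 η)
    (hc : HasCompactSupport η) (hs : tsupport η ⊆ U) (v : E m) :
    ∃ C : Set (E m), IsCompact C ∧ C ⊆ U ∧ tsupport η ⊆ C ∧ ∀ ε > 0, ∃ ζ : E m → ℝ,
      ContDiff ℝ (⊤ : ℕ∞) ζ ∧ HasCompactSupport ζ ∧ tsupport ζ ⊆ C ∧
      ∀ x, |ζ x - η x| ≤ ε ∧ |fderiv ℝ ζ x v - fderiv ℝ η x v| ≤ ε := by
  obtain ⟨δ, δpos, hδU⟩ := IsCompact.exists_cthickening_subset_open hc hU hs
  have hδ : IsCompact (cthickening δ (tsupport η)) := IsCompact.cthickening hc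
  refine ⟨cthickening δ (tsupport η), hδ, hδU, self_subset_cthickening _, fun ε hε => ?_⟩
  have hu1 : UniformContinuous η := hc.uniformContinuous_of_continuous hη.continuous
  have hcd : Continuous (fun x => fderiv ℝ η x v) :=
    (hη.continuous_fderiv (by simp)).clm_apply continuous_const
  have hcs : HasCompactSupport (fun x => fderiv ℝ η x v) := by
    apply HasCompactSupport.intro (K := tsupport η) hc
    intro x hx
    exact fd_zero hx
  have hu2 : UniformContinuous (fun x => fderiv ℝ η x v) :=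
    hcs.uniformContinuous_of_continuous hcd
  obtain ⟨δ1, hδ1, h1⟩ := Metric.uniformContinuous_iff.mp hu1 ε hε
  obtain ⟨δ2, hδ2, h2⟩ := Metric.uniformContinuous_iff.mp hu2 ε hε
  have hr : 0 < min δ (min δ1 δ2) := lt_min δpos (lt_min hδ1 hδ2)
  let φ : ContDiffBump (0 : E m) := ⟨min δ (min δ1 δ2) / 2, min δ (min δ1 δ2), by positivity,
    by linarith⟩
  have hφ : φ.rOut = min δ (min δ1 δ2) := rfl
  refine ⟨convolution (φ.normed volume) η (ContinuousLinearMap.lsmul ℝ ℝ) volume, ?_, ?_, ?_, ?_⟩
  · exact φ.hasCompactSupport_normed.contDiff_convolution_left _ φ.contDiff_normed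
      hη.continuous.locallyIntegrable
  · exact HasCompactSupport.convolution _ φ.hasCompactSupport_normed hc
  · apply closure_minimal _ hδ.isClosed
    intro x hx
    have := support_convolution_subset _ hx
    obtain ⟨a, ha, b, hb, hab⟩ := this
    rw [φ.support_normed_eq, mem_ball, dist_zero_right, hφ] at ha
    apply mem_cthickening_of_dist_le x b δ _ (subset_tsupport _ hb)
    have : x - b = a := by rw [← hab]; simp
    rw [dist_eq_norm, this]
    exact (ha.le.trans (min_le_left _ _))
  · intro x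
    constructor
    · have := φ.dist_normed_convolution_le (μ := volume) (x₀ := x) (ε := ε)
        hη.continuous.aestronglyMeasurable (g := η) (fun y hy => by
          rw [hφ, mem_ball] at hy
          exact (h1 (lt_of_lt_of_le hy ((min_le_right _ _).trans (min_le_left _ _)))).le)
      exact this
    · have hli : LocallyIntegrable (φ.normed (volume : Measure (E m))) volume :=
        (φ.continuous_normed (μ := (volume : Measure (E m)))).locallyIntegrable
      have hd := (HasCompactSupport.hasFDerivAt_convolution_right (μ := (volume : Measure (E m)))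
        (ContinuousLinearMap.lsmul ℝ ℝ) hc hli hη x).fderiv
      rw [hd, convolution_precompR_apply _ hli (hc.fderiv ℝ) (hη.continuous_fderiv (by simp))]
      have := φ.dist_normed_convolution_le (μ := volume) (x₀ := x) (ε := ε)
        hcd.aestronglyMeasurable (g := fun x => fderiv ℝ η x v) (fun y hy => by
          rw [hφ, mem_ball] at hy
          exact (h2 (lt_of_lt_of_le hy ((min_le_right _ _).trans (min_le_right _ _)))).le)
      exact this

theorem dbw_aux (m : ℕ) (U : Set (E m)) (f : E m → ℝ) (h : Fin m → E m → ℝ≥0∞)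
    (hU : IsOpen U) (hf : ContinuousOn f U) (hm : ∀ j, Measurable (h j))
    (hfin : ∫⁻ x in U, ∑ j, h j x ^ 2 < ⊤) (hb : ∀ j, DerivBound U (bs j) f (h j)) :
    ∃ g : E m → E m, HasWG U f g ∧
    IntegrableOn (fun x => ‖g x‖ ^ 2) U ∧ ∀ᵐ x : E m, x ∈ U → ∀ j, ENNReal.ofReal |g x j| ≤ h j x := by
  have hfj : ∀ j, ∫⁻ x in U, h j x ^ 2 < ⊤ := by
    intro j
    apply lt_of_le_of_lt _ hfin
    apply lintegral_mono
    intro x
    exact Finset.single_le_sum (f := fun j => h j x ^ 2) (fun _ _ => zero_le) (Finset.mem_univ j)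
  have hex := fun j => riesz hf hU (hm j) (hfj j) (hb j)
  choose G hG using hex
  -- `G j` is square integrable on `U`
  have hG2 : ∀ j, MemLp (G j) 2 ((volume : Measure (E m)).restrict U) := fun j => Lp.memLp (G j)
  have hGK : ∀ j, ∀ K : Set (E m), K ⊆ U → IsCompact K → IntegrableOn (G j : E m → ℝ) K := by
    intro j K hKU hK
    have h1 : MemLp (G j) 2 ((volume : Measure (E m)).restrict K) :=
      (hG2 j).mono_measure (Measure.restrict_mono hKU le_rfl)
    have : IsFiniteMeasure ((volume : Measure (E m)).restrict K) :=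
      ⟨by rw [Measure.restrict_apply_univ]; exact hK.measure_lt_top⟩
    exact h1.integrable (by norm_num)
  -- real version of `h`
  have hfinae : ∀ j, ∀ᵐ x ∂((volume : Measure (E m)).restrict U), h j x < ⊤ := by
    intro j
    have h1 := ae_lt_top ((hm j).pow_const 2) (hfj j).ne
    filter_upwards [h1] with x hx
    by_contra hne
    rw [not_lt, top_le_iff] at hne
    rw [hne] at hx
    simp at hx
  have hr2 : ∀ j, MemLp (fun x => (h j x).toReal) 2 ((volume : Measure (E m)).restrict U) := by
    intro j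
    refine ⟨(hm j).ennreal_toReal.aestronglyMeasurable, ?_⟩
    rw [eLpNorm_lt_top_iff_lintegral_rpow_enorm_lt_top (by norm_num) (by norm_num)]
    refine lt_of_le_of_lt (le_of_eq ?_) (hfj j)
    apply lintegral_congr_ae
    filter_upwards [hfinae j] with x hx
    simp only [ENNReal.toReal_ofNat]
    rw [ENNReal.rpow_ofNat, Real.enorm_eq_ofReal ENNReal.toReal_nonneg, ENNReal.ofReal_toReal hx.ne]
  have hrK : ∀ j, ∀ K : Set (E m), K ⊆ U → IsCompact K →
      IntegrableOn (fun x => (h j x).toReal) K := by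
    intro j K hKU hK
    have h1 : MemLp (fun x => (h j x).toReal) 2 ((volume : Measure (E m)).restrict K) :=
      (hr2 j).mono_measure (Measure.restrict_mono hKU le_rfl)
    have : IsFiniteMeasure ((volume : Measure (E m)).restrict K) :=
      ⟨by rw [Measure.restrict_apply_univ]; exact hK.measure_lt_top⟩
    exact h1.integrable (by norm_num)
  -- key inequality for test functions
  have hkey : ∀ j, ∀ ζ : E m → ℝ, ContDiff ℝ (⊤ : ℕ∞) ζ → HasCompactSupport ζ → tsupport ζ ⊆ U →
      (∀ x, 0 ≤ ζ x) → |∫ x in U, (G j : E m → ℝ) x * ζ x| ≤ ∫ x in U, (h j x).toReal * ζ x := by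
    intro j ζ h1 h2 h3 h4
    have h5 := hb j ζ h1 h2 h3
    have h6 := hG j ⟨ζ, h1, h2, h3⟩
    have h6' : ∫ x, f x * fderiv ℝ ζ x (bs j) = ∫ x in U, (G j : E m → ℝ) x * ζ x := h6
    rw [h6'] at h5
    have h7 : ∫⁻ x, h j x * ENNReal.ofReal |ζ x| = ∫⁻ x in U, h j x * ENNReal.ofReal |ζ x| := by
      rw [← lintegral_indicator hU.measurableSet]
      congr 1
      ext x
      by_cases hx : x ∈ U
      · simp [hx]
      · have : ζ x = 0 := image_eq_zero_of_notMem_tsupport (fun h' => hx (h3 h'))
        simp [hx, this]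
    have h8 : ∫⁻ x in U, h j x * ENNReal.ofReal |ζ x| =
        ENNReal.ofReal (∫ x in U, (h j x).toReal * ζ x) := by
      rw [ofReal_integral_eq_lintegral_ofReal]
      · apply lintegral_congr_ae
        filter_upwards [hfinae j] with x hx
        rw [ENNReal.ofReal_mul ENNReal.toReal_nonneg, ENNReal.ofReal_toReal hx.ne,
          abs_of_nonneg (h4 x)]
      · exact (hr2 j).integrable_mul (q := 2) (h1.continuous.memLp_of_hasCompactSupport h2)
      · filter_upwards with x
        exact mul_nonneg ENNReal.toReal_nonneg (h4 x)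
    rw [h7, h8] at h5
    have h9 : 0 ≤ ∫ x in U, (h j x).toReal * ζ x :=
      integral_nonneg (fun x => mul_nonneg ENNReal.toReal_nonneg (h4 x))
    exact (ENNReal.ofReal_le_ofReal_iff h9).mp h5
  have hnt : ∀ (H : E m → ℝ), MemLp H 2 ((volume : Measure (E m)).restrict U) →
      ∀ ζ : E m → ℝ, ContDiff ℝ (⊤ : ℕ∞) ζ → HasCompactSupport ζ →
      Integrable (fun x => H x * ζ x) ((volume : Measure (E m)).restrict U) :=
    fun H hH ζ h1 h2 => hH.integrable_mul (q := 2) (h1.continuous.memLp_of_hasCompactSupport h2)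
  have hbound : ∀ j, ∀ᵐ x : E m, x ∈ U → |(G j : E m → ℝ) x| ≤ (h j x).toReal := by
    intro j
    have hA := ae_le_of_test (D := fun x => (G j : E m → ℝ) x - (h j x).toReal) hU
      (fun K h1 h2 => (hGK j K h1 h2).sub (hrK j K h1 h2))
      ((hG2 j).1.sub (hr2 j).1) (fun ζ h1 h2 h3 h4 => by
        have := hkey j ζ h1 h2 h3 h4
        have h5 := (abs_le.mp this).2
        have h6 : ∫ x in U, ((G j : E m → ℝ) x - (h j x).toReal) * ζ x =
            (∫ x in U, (G j : E m → ℝ) x * ζ x) - ∫ x in U, (h j x).toReal * ζ x := by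
          rw [← integral_sub (hnt _ (hG2 j) ζ h1 h2) (hnt _ (hr2 j) ζ h1 h2)]
          congr 1; ext x; ring
        rw [h6]; linarith)
    have hB := ae_le_of_test (D := fun x => -(G j : E m → ℝ) x - (h j x).toReal) hU
      (fun K h1 h2 => (hGK j K h1 h2).neg.sub (hrK j K h1 h2))
      ((hG2 j).1.neg.sub (hr2 j).1) (fun ζ h1 h2 h3 h4 => by
        have := hkey j ζ h1 h2 h3 h4
        have h5 := (abs_le.mp this).1
        have h6 : ∫ x in U, (-(G j : E m → ℝ) x - (h j x).toReal) * ζ x =
            (-∫ x in U, (G j : E m → ℝ) x * ζ x) - ∫ x in U, (h j x).toReal * ζ x := by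
          have i1 : Integrable (fun x => -((G j : E m → ℝ) x * ζ x)) (volume.restrict U) :=
            (hnt _ (hG2 j) ζ h1 h2).neg
          rw [← integral_neg, ← integral_sub i1 (hnt _ (hr2 j) ζ h1 h2)]
          congr 1; ext x; ring
        rw [h6]; linarith)
    filter_upwards [hA, hB] with x h1 h2 hx
    rw [abs_le]
    constructor
    · linarith [h2 hx]
    · linarith [h1 hx]
  -- C¹ test functions
  have hibp : ∀ j, ∀ η : E m → ℝ, ContDiff ℝ 1 η → HasCompactSupport η → tsupport η ⊆ U →
      ∫ x, f x * fderiv ℝ η x (bs j) = ∫ x in U, (G j : E m → ℝ) x * η x := by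
    intro j η h1 h2 h3
    obtain ⟨C, hC, hCU, hCη, hap⟩ := approx hU h1 h2 h3 (bs j)
    have hfC : IntegrableOn (fun x => |f x|) C :=
      (hf.mono hCU).abs.integrableOn_compact hC
    have hGC : IntegrableOn (fun x => |(G j : E m → ℝ) x|) C := (hGK j C hCU hC).abs
    have hηL : MemLp η 2 ((volume : Measure (E m)).restrict U) :=
      h1.continuous.memLp_of_hasCompactSupport h2
    have hle : ∀ ε > 0, |(∫ x, f x * fderiv ℝ η x (bs j)) - ∫ x in U, (G j : E m → ℝ) x * η x| ≤
        ε * ((∫ x in C, |f x|) + ∫ x in C, |(G j : E m → ℝ) x|) := by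
      intro ε hε
      obtain ⟨ζ, z1, z2, z3, z4⟩ := hap ε hε
      have hz := hG j ⟨ζ, z1, z2, z3.trans hCU⟩
      have hz' : ∫ x, f x * fderiv ℝ ζ x (bs j) = ∫ x in U, (G j : E m → ℝ) x * ζ x := hz
      have e1 : (∫ x, f x * fderiv ℝ η x (bs j)) - ∫ x, f x * fderiv ℝ ζ x (bs j) =
          ∫ x in C, f x * (fderiv ℝ η x (bs j) - fderiv ℝ ζ x (bs j)) := by
        rw [← integral_sub (int_fd hf h1 h2 h3 _)
          (int_fd hf (z1.of_le (by exact_mod_cast le_top)) z2 (z3.trans hCU) _)]
        rw [← setIntegral_eq_integral_of_forall_compl_eq_zero (s := C)]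
        · congr 1; ext x; ring
        · intro x hx
          rw [fd_zero (fun h' => hx (hCη h')), fd_zero (fun h' => hx (z3 h'))]; simp
      have e2 : (∫ x in U, (G j : E m → ℝ) x * ζ x) - ∫ x in U, (G j : E m → ℝ) x * η x =
          ∫ x in C, (G j : E m → ℝ) x * (ζ x - η x) := by
        have i1 : Integrable (fun x => (G j : E m → ℝ) x * ζ x) (volume.restrict U) :=
          hnt _ (hG2 j) ζ z1 z2
        have i2 : Integrable (fun x => (G j : E m → ℝ) x * η x) (volume.restrict U) :=
          (hG2 j).integrable_mul (q := 2) hηL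
        rw [← integral_sub i1 i2]
        rw [← setIntegral_eq_of_subset_of_forall_sdiff_eq_zero hU.measurableSet hCU]
        · congr 1; ext x; ring
        · intro x hx
          rw [image_eq_zero_of_notMem_tsupport (fun h' => hx.2 (hCη h')),
            image_eq_zero_of_notMem_tsupport (fun h' => hx.2 (z3 h'))]; simp
      have b1 : |∫ x in C, f x * (fderiv ℝ η x (bs j) - fderiv ℝ ζ x (bs j))| ≤
          ε * ∫ x in C, |f x| := by
        rw [← integral_const_mul]
        apply (abs_integral_le_integral_abs).trans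
        apply integral_mono_of_nonneg
        · filter_upwards with x using abs_nonneg _
        · exact hfC.const_mul ε
        · filter_upwards with x
          rw [abs_mul, mul_comm ε]
          apply mul_le_mul_of_nonneg_left _ (abs_nonneg _)
          rw [abs_sub_comm]
          exact (z4 x).2
      have b2 : |∫ x in C, (G j : E m → ℝ) x * (ζ x - η x)| ≤
          ε * ∫ x in C, |(G j : E m → ℝ) x| := by
        rw [← integral_const_mul]
        apply (abs_integral_le_integral_abs).trans
        apply integral_mono_of_nonneg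
        · filter_upwards with x using abs_nonneg _
        · exact hGC.const_mul ε
        · filter_upwards with x
          rw [abs_mul, mul_comm ε]
          exact mul_le_mul_of_nonneg_left (z4 x).1 (abs_nonneg _)
      have : (∫ x, f x * fderiv ℝ η x (bs j)) - ∫ x in U, (G j : E m → ℝ) x * η x =
          (∫ x in C, f x * (fderiv ℝ η x (bs j) - fderiv ℝ ζ x (bs j))) +
          ∫ x in C, (G j : E m → ℝ) x * (ζ x - η x) := by
        rw [← e1, ← e2, hz']; ring
      rw [this, mul_add]
      exact (abs_add_le _ _).trans (add_le_add b1 b2)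
    have h0 : |(∫ x, f x * fderiv ℝ η x (bs j)) - ∫ x in U, (G j : E m → ℝ) x * η x| ≤ 0 := by
      have hM : 0 ≤ (∫ x in C, |f x|) + ∫ x in C, |(G j : E m → ℝ) x| :=
        add_nonneg (integral_nonneg fun _ => abs_nonneg _) (integral_nonneg fun _ => abs_nonneg _)
      apply le_of_forall_pos_le_add
      intro δ hδ
      have := hle (δ / (((∫ x in C, |f x|) + ∫ x in C, |(G j : E m → ℝ) x|) + 1))
        (div_pos hδ (by linarith))
      refine this.trans ?_
      rw [div_mul_eq_mul_div, zero_add, div_le_iff₀ (by linarith)]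
      nlinarith
    have := abs_nonpos_iff.mp h0
    linarith
  have hsq : IntegrableOn (fun x => ‖(WithLp.toLp 2 (fun j => -(G j : E m → ℝ) x) : E m)‖ ^ 2) U := by
    have h1 : (fun x => ‖(WithLp.toLp 2 (fun j => -(G j : E m → ℝ) x) : E m)‖ ^ 2) =
        fun x => ∑ j, (G j : E m → ℝ) x ^ 2 := by
      ext x
      rw [EuclideanSpace.norm_sq_eq]
      apply Finset.sum_congr rfl
      intro j _
      simp
    rw [h1]
    exact integrable_finsetSum _ (fun j _ => (hG2 j).integrable_sq)
  refine ⟨fun x => WithLp.toLp 2 (fun j => -(G j : E m → ℝ) x), ⟨hf, ?_, ?_, ?_⟩, hsq, ?_⟩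
  · have h1 : Measurable (fun x => fun j => -(G j : E m → ℝ) x) :=
      measurable_pi_lambda _ (fun j => (Lp.stronglyMeasurable (G j)).measurable.neg)
    exact ((PiLp.continuous_toLp 2 _).measurable.comp h1).aestronglyMeasurable
  · intro C hC _
    exact hsq.mono_set hC
  · intro η h1 h2 h3 v
    have hv : v = ∑ j, v j • bs j := by
      ext i
      simp [Finset.sum_apply, Pi.single_apply]
    have hfd : ∀ x, fderiv ℝ η x v = ∑ j, v j * fderiv ℝ η x (bs j) := by
      intro x
      conv_lhs => rw [hv]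
      rw [map_sum]
      apply Finset.sum_congr rfl
      intro j _
      rw [map_smul, smul_eq_mul]
    have hηL : MemLp η 2 ((volume : Measure (E m)).restrict U) :=
      h1.continuous.memLp_of_hasCompactSupport h2
    have e1 : ∫ x, f x * fderiv ℝ η x v = ∑ j, v j * ∫ x, f x * fderiv ℝ η x (bs j) := by
      have : (fun x => f x * fderiv ℝ η x v) =
          fun x => ∑ j, v j * (f x * fderiv ℝ η x (bs j)) := by
        ext x
        rw [hfd x, Finset.mul_sum]
        apply Finset.sum_congr rfl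
        intro j _
        ring
      rw [this, integral_finsetSum]
      · simp_rw [integral_const_mul]
      · intro j _
        exact (int_fd hf h1 h2 h3 _).const_mul _
    have e2 : ∫ x, inner ℝ (WithLp.toLp 2 (fun j => -(G j : E m → ℝ) x) : E m) v * η x =
        ∫ x in U, inner ℝ (WithLp.toLp 2 (fun j => -(G j : E m → ℝ) x) : E m) v * η x := by
      symm
      apply setIntegral_eq_integral_of_forall_compl_eq_zero
      intro x hx
      rw [image_eq_zero_of_notMem_tsupport (fun h' => hx (h3 h')), mul_zero]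
    have e3 : ∫ x in U, inner ℝ (WithLp.toLp 2 (fun j => -(G j : E m → ℝ) x) : E m) v * η x =
        ∑ j, v j * -(∫ x in U, (G j : E m → ℝ) x * η x) := by
      have : (fun x => inner ℝ (WithLp.toLp 2 (fun j => -(G j : E m → ℝ) x) : E m) v * η x) =
          fun x => ∑ j, v j * (-((G j : E m → ℝ) x * η x)) := by
        ext x
        rw [PiLp.inner_apply, Finset.sum_mul]
        apply Finset.sum_congr rfl
        intro j _
        simp
        ring
      rw [this, integral_finsetSum]
      · simp_rw [integral_const_mul, integral_neg]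
      · intro j _
        have i2 : Integrable (fun x => (G j : E m → ℝ) x * η x) (volume.restrict U) :=
          (hG2 j).integrable_mul (q := 2) hηL
        exact i2.neg.const_mul _
    rw [e1, e2, e3, ← Finset.sum_neg_distrib]
    apply Finset.sum_congr rfl
    intro j _
    rw [hibp j η h1 h2 h3]; ring
  · have hall : ∀ᵐ x : E m, ∀ j, x ∈ U → |(G j : E m → ℝ) x| ≤ (h j x).toReal :=
      ae_all_iff.mpr hbound
    filter_upwards [hall] with x hx hxU j
    have h1 := hx j hxU
    show ENNReal.ofReal |-(G j : E m → ℝ) x| ≤ h j x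
    rw [abs_neg]
    exact (ENNReal.ofReal_le_ofReal h1).trans ENNReal.ofReal_toReal_le

end DBW_

theorem dbw_proof : Stmt_DBW := DBW_.dbw_aux

end

end Pool.Agent.COB
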