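import Pool.Agent.COB.Stmts

/-! Squad COB, module DCH (helper68): dichotomy for nonnegative harmonic functions. -/

set_option autoImplicit false

namespace Pool.Agent.COB

open MeasureTheory Set Metric Filter Topology
open scoped ENNReal

theorem dch_proof (hSMP : Stmt_SMP) (hGEF : Stmt_GEF) : Stmt_DCH := by
  intro m F φ p R L i G dG hm geo hW hG0
  obtain ⟨_, _, g2, _, g4, g5⟩ := hGEF m F φ p R L i geo
  have hR := geo.hR
  set N := gradient F p with hN
  have hN1 : ‖N‖ = 1 := geo.gp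
  by_cases hcase : ∀ r : ℝ, 0 < r → r ≤ R / 8 → 0 < G (pN F p r)
  · exact Or.inr hcase
  left
  push Not at hcase
  obtain ⟨r, hr, hrR, hGr⟩ := hcase
  have hr0 : G (pN F p r) = 0 := le_antisymm hGr (hG0 _ (g5 r hr (by linarith)).1)
  rintro x ⟨hx, hFx⟩
  have hxp : ‖x - p‖ < R / 16 := by rwa [mem_ball, dist_eq_norm] at hx
  set q : E m := p + (R / 8) • N with hq
  have hqp : ‖q - p‖ = R / 8 := by
    rw [hq, add_sub_cancel_left, norm_smul, hN1, mul_one, Real.norm_eq_abs, abs_of_pos (by linarith)]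
  have hqb : q ∈ ball p R := by rw [mem_ball, dist_eq_norm, hqp]; linarith
  have hopen : IsOpen (Sd F (ball p R)) := by
    have : Sd F (ball p R) = ball p R ∩ {x | 0 < F x} := rfl
    rw [this]
    exact isOpen_ball.inter (isOpen_lt continuous_const geo.cF.continuous)
  set A1 : Set (E m) := (fun s : ℝ => p + s • N) '' Ioc 0 (R / 8) with hA1
  set A2 : Set (E m) := ball q (R / 16) with hA2
  set A3 : Set (E m) := (fun s : ℝ => x + s • N) '' Icc 0 (R / 8) with hA3
  have c1 : IsPreconnected A1 := isPreconnected_Ioc.image _ (by fun_prop)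
  have c2 : IsPreconnected A2 := (convex_ball q (R / 16)).isPreconnected
  have c3 : IsPreconnected A3 := isPreconnected_Icc.image _ (by fun_prop)
  have q1 : q ∈ A1 := ⟨R / 8, ⟨by linarith, le_rfl⟩, rfl⟩
  have q2 : q ∈ A2 := mem_ball_self (by linarith)
  have c12 : IsPreconnected (A1 ∪ A2) := c1.union q q1 q2 c2
  have y3 : x + (R / 8) • N ∈ A3 := ⟨R / 8, ⟨by linarith, le_rfl⟩, rfl⟩
  have y2 : x + (R / 8) • N ∈ A2 := by
    rw [hA2, mem_ball, dist_eq_norm, hq]
    have : x + (R / 8) • N - (p + (R / 8) • N) = x - p := by abel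
    rw [this]; exact hxp
  have c : IsPreconnected (A1 ∪ A2 ∪ A3) := c12.union _ (Or.inr y2) y3 c3
  have hs : A1 ∪ A2 ∪ A3 ⊆ Sd F (ball p R) := by
    rintro y ((⟨s, hs, rfl⟩ | hy) | ⟨s, hs, rfl⟩)
    · exact (g5 s hs.1 (by linarith [hs.2])).1
    · have hyq : ‖y - q‖ < R / 16 := by rwa [hA2, mem_ball, dist_eq_norm] at hy
      have hyp : ‖y - p‖ < R := by
        have e : y - p = (y - q) + (q - p) := by abel
        rw [e]
        refine (norm_add_le _ _).trans_lt ?_
        rw [hqp]; linarith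
      have hyb : y ∈ ball p R := by rw [mem_ball, dist_eq_norm]; exact hyp
      refine ⟨hyb, ?_⟩
      have h1 := (g2 y hyb q hqb).2
      have h2 := (g5 (R / 8) (by linarith) (by linarith)).2
      change 999 / 1000 * (R / 8) ≤ F q at h2
      rw [abs_le] at h1
      nlinarith [h1.1, norm_nonneg (y - q)]
    · have hb : x + s • N ∈ ball p R := by
        rw [mem_ball, dist_eq_norm]
        have e : x + s • N - p = (x - p) + s • N := by abel
        rw [e]
        refine (norm_add_le _ _).trans_lt ?_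
        rw [norm_smul, hN1, mul_one, Real.norm_eq_abs, abs_of_nonneg hs.1]
        linarith [hs.2]
      refine ⟨hb, ?_⟩
      have hxb : x ∈ ball p R := by rw [mem_ball, dist_eq_norm]; linarith
      have := g4 x hxb s hs.1 hb
      have h0 := hs.1
      change 0 < F (x + s • N)
      linarith
  have hmem : pN F p r ∈ A1 ∪ A2 ∪ A3 := Or.inl (Or.inl ⟨r, ⟨hr, hrR⟩, rfl⟩)
  have hx3 : x ∈ A1 ∪ A2 ∪ A3 := Or.inr ⟨0, ⟨le_rfl, by linarith⟩, by simp⟩
  exact hSMP m (Sd F (ball p R)) _ G dG (pN F p r) hm hopen hW hG0 hs c hmem hr0 x hx3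

end Pool.Agent.COB
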