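import Pool.Agent.COB.Thm

/-!
Squad COB, internal definitions: weak gradients, test functions, weakly (sub)harmonic functions,
local charts and local configurations.
-/

set_option autoImplicit false

namespace Pool.Agent.COB

open MeasureTheory Set Metric Filter Topology
open scoped ENNReal

noncomputable section

variable {m : ℕ}

/-! ### weak gradients -/

/-- `f` is continuous on `U` and has the weak gradient `g ∈ L²_loc(U)`. -/
structure HasWG (U : Set (E m)) (f : E m → ℝ) (g : E m → E m) : Prop where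
  cont : ContinuousOn f U
  meas : AEStronglyMeasurable g (volume.restrict U)
  loc : ∀ C : Set (E m), C ⊆ U → IsCompact C → IntegrableOn (fun x => ‖g x‖ ^ 2) C
  ibp : ∀ η : E m → ℝ, ContDiff ℝ 1 η → HasCompactSupport η → tsupport η ⊆ U → ∀ v : E m,
    ∫ x, f x * fderiv ℝ η x v = -∫ x, inner ℝ (g x) v * η x

/-- test function: weak gradient on `B`, zero off a compact subset of `B` -/
structure TB (B : Set (E m)) (ξ : E m → ℝ) (dξ : E m → E m) : Prop where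
  wg : HasWG B ξ dξ
  cs : ∃ C ⊆ B, IsCompact C ∧ ∀ x ∈ B \ C, ξ x = 0

/-- the open side `{F > 0}` of `B` -/
def Sd (F : E m → ℝ) (B : Set (E m)) : Set (E m) := {x | x ∈ B ∧ 0 < F x}

/-- the side `{F ≥ 0}` of `B` -/
def Sc (F : E m → ℝ) (B : Set (E m)) : Set (E m) := {x | x ∈ B ∧ 0 ≤ F x}

/-- one sided test function (no condition on `{F = 0}`), zero off a compact subset of `B` -/
structure PT (F : E m → ℝ) (B : Set (E m)) (a : E m → ℝ) (da : E m → E m) : Prop where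
  cont : ContinuousOn a (Sc F B)
  wg : HasWG (Sd F B) a da
  en : IntegrableOn (fun x => ‖da x‖ ^ 2) (Sd F B)
  cs : ∃ C ⊆ B, IsCompact C ∧ ∀ x ∈ Sc F B \ C, a x = 0

/-- weakly subharmonic up to the constant `K`: `Δ f ≥ -K` -/
def WSub (V : Set (E m)) (K : ℝ) (f : E m → ℝ) (g : E m → E m) : Prop :=
  HasWG V f g ∧ ∀ ξ dξ, TB V ξ dξ → (∀ x ∈ V, 0 ≤ ξ x) →
    ∫ x in V, inner ℝ (g x) (dξ x) ≤ K * ∫ x in V, ξ x

/-- weakly harmonic -/
def WHar (V : Set (E m)) (f : E m → ℝ) (g : E m → E m) : Prop :=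
  HasWG V f g ∧ ∀ ξ dξ, TB V ξ dξ → ∫ x in V, inner ℝ (g x) (dξ x) = 0

/-- nonnegative, finite energy, `Δ f ≥ -K` -/
structure SH (B : Set (E m)) (K : ℝ) (f : E m → ℝ) (g : E m → E m) : Prop where
  sub : WSub B K f g
  en : IntegrableOn (fun x => ‖g x‖ ^ 2) B
  nn : ∀ x ∈ B, 0 ≤ f x

/-- Laplacian of a `C²` function -/
def lp (f : E m → ℝ) (x : E m) : ℝ :=
  ∑ j, fderiv ℝ (fun y => fderiv ℝ f y (bs j)) x (bs j)

/-- divergence of a `C¹` vector field -/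
def dv (X : E m → E m) (x : E m) : ℝ := ∑ j, fderiv ℝ (fun y => X y j) x (bs j)

/-! ### charts -/

/-- local defining function `F` of the interface and extension `φ` of the boundary datum on
the ball `ball p R` (`L` bounds all constants, `R` is small compared with `1 / L`) -/
structure Geo (F φ : E m → ℝ) (p : E m) (R L : ℝ) (i : Fin m) : Prop where
  hR : 0 < R
  hL : 1 ≤ L
  sm : 1000 * m * L * R ≤ 1
  cF : ContDiff ℝ 2 F
  cφ : ContDiff ℝ 2 φ
  Fp : F p = 0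
  gp : ‖gradient F p‖ = 1
  gl : ∀ x ∈ ball p R, ‖gradient F x - gradient F p‖ ≤ L * ‖x - p‖
  lF : ∀ x ∈ ball p R, |lp F x| ≤ L
  lφ : ∀ x ∈ ball p R, |lp φ x| ≤ L
  di : ∀ x ∈ ball p R, 1 ≤ L * |fderiv ℝ F x (bs i)|

/-- the point `p + r N`, `N` the unit normal at `p` -/
def pN (F : E m → ℝ) (p : E m) (r : ℝ) : E m := p + r • gradient F p

/-- `√(|x - p|² + ρ²)` -/
def J (ρ : ℝ) (p x : E m) : ℝ := Real.sqrt (‖x - p‖ ^ 2 + ρ ^ 2)

/-- cubic bump `(1 - |x - p|² / ρ²)₊³` -/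
def bmp (ρ : ℝ) (p x : E m) : ℝ := (max 0 (1 - ‖x - p‖ ^ 2 / ρ ^ 2)) ^ 3

/-- the kernel `(1 - |y|²)₊²` -/
def om (y : E m) : ℝ := (max 0 (1 - ‖y‖ ^ 2)) ^ 2

/-- projection along the coordinate `i` -/
def pj {d : ℕ} (i : Fin (d + 1)) (x : E (d + 1)) : Fin d → ℝ := fun j => x (i.succAbove j)

/-- the point with `i`-th coordinate `s` and projection `y` -/
def ins {d : ℕ} (i : Fin (d + 1)) (s : ℝ) (y : Fin d → ℝ) : E (d + 1) :=
  WithLp.toLp 2 (i.insertNth s y)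

/-- the part of the projected ball that is not covered by `Z` -/
def bad {d : ℕ} (i : Fin (d + 1)) (Z : Set (E (d + 1))) (p : E (d + 1)) (r : ℝ) : ℝ :=
  (volume (closedBall (pj i p) r \ pj i '' Z)).toReal

/-- `p` is a density point of `Z` (in the projection) -/
def Dn {d : ℕ} (i : Fin (d + 1)) (Z : Set (E (d + 1))) (p : E (d + 1)) : Prop :=
  Tendsto (fun r : ℝ => bad i Z p r / r ^ d) (𝓝[>] 0) (𝓝 0)

/-! ### configurations -/

variable {k : ℕ}

/-- entries of a labelled tuple as a multiset -/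
def ml {n : ℕ} (a : Fin n → ℝ) : Multiset ℝ := Multiset.map a Finset.univ.val

/-- sorted sheets `v` on `{F ≥ 0}`, `w` on `{F ≤ 0}` with their weak gradients; minimality -/
structure Cfg (F φ : E m → ℝ) (B : Set (E m)) (v : Fin (k + 1) → E m → ℝ)
    (gv : Fin (k + 1) → E m → E m) (w : Fin k → E m → ℝ) (gw : Fin k → E m → E m) : Prop where
  cv : ∀ i, ContinuousOn (v i) (Sc F B)
  cw : ∀ j, ContinuousOn (w j) (Sc (fun x => -F x) B)
  hv : ∀ i, HasWG (Sd F B) (v i) (gv i)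
  hw : ∀ j, HasWG (Sd (fun x => -F x) B) (w j) (gw j)
  ev : ∀ i, IntegrableOn (fun x => ‖gv i x‖ ^ 2) (Sd F B)
  ew : ∀ j, IntegrableOn (fun x => ‖gw j x‖ ^ 2) (Sd (fun x => -F x) B)
  mv : ∀ x ∈ Sc F B, Monotone fun i => v i x
  mw : ∀ x ∈ Sc (fun x => -F x) B, Monotone fun j => w j x
  tr : ∀ x ∈ B, F x = 0 → ml (fun i => v i x) = φ x ::ₘ ml (fun j => w j x)
  mn : ∀ (a : Fin (k + 1) → E m → ℝ) (da : Fin (k + 1) → E m → E m) (b : Fin k → E m → ℝ)
    (db : Fin k → E m → E m), (∀ i, PT F B (a i) (da i)) →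
    (∀ j, PT (fun x => -F x) B (b j) (db j)) →
    (∀ x ∈ B, F x = 0 → ml (fun i => v i x + a i x) = φ x ::ₘ ml (fun j => w j x + b j x)) →
    0 ≤ (∑ i, ∫ x in Sd F B, (2 * inner ℝ (gv i x) (da i x) + ‖da i x‖ ^ 2)) +
      (∑ j, ∫ x in Sd (fun x => -F x) B, (2 * inner ℝ (gw j x) (db j x) + ‖db j x‖ ^ 2))

/-- `(φ - v_j)₊` above, `(φ - w_j)₊` below -/
def PP (F φ : E m → ℝ) (v : Fin (k + 1) → E m → ℝ) (w : Fin k → E m → ℝ) (j : Fin k)
    (x : E m) : ℝ :=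
  if 0 ≤ F x then max (φ x - v j.castSucc x) 0 else max (φ x - w j x) 0

/-- `(v_{j+1} - φ)₊` above, `(w_j - φ)₊` below -/
def RR (F φ : E m → ℝ) (v : Fin (k + 1) → E m → ℝ) (w : Fin k → E m → ℝ) (j : Fin k)
    (x : E m) : ℝ :=
  if 0 ≤ F x then max (v j.succ x - φ x) 0 else max (w j x - φ x) 0

/-- the collapsed set of the sheets `j ∈ S` -/
def ZZ (F φ : E m → ℝ) (B : Set (E m)) (w : Fin k → E m → ℝ) (S : Set (Fin k)) : Set (E m) :=
  {x | x ∈ B ∧ F x = 0 ∧ ∀ j ∈ S, w j x = φ x}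

end

end Pool.Agent.COB
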