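import Pool.Agent.COB.Stmts

/-!
Squad COB, module ENF: test functions with small energy.
-/

set_option autoImplicit false

namespace Pool.Agent.COB

open MeasureTheory Set Metric Filter Topology
open scoped ENNReal

namespace ENF_

variable {m : ℕ}

/-- inner product with an indicator -/
theorem int_ind (g h : E m → E m) (W B : Set (E m)) (hB : MeasurableSet B) :
    ∫ x in W, inner ℝ (g x) (B.indicator h x) = ∫ x in W ∩ B, inner ℝ (g x) (h x) := by
  have e : (fun x => inner ℝ (g x) (B.indicator h x)) =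
      B.indicator (fun x => inner ℝ (g x) (h x)) := by
    funext x
    by_cases hx : x ∈ B
    · rw [indicator_of_mem hx, indicator_of_mem hx]
    · rw [indicator_of_notMem hx, indicator_of_notMem hx, inner_zero_right]
  rw [e, setIntegral_indicator hB]

/-- the integral over `B` is the sum of the integrals over the two sides -/
theorem int_split (F : E m → ℝ) (B : Set (E m)) (hF : Continuous F) (hB : MeasurableSet B)
    (h0 : volume {x | x ∈ B ∧ F x = 0} = 0) (g : E m → ℝ) (hg : IntegrableOn g B) :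
    ∫ x in B, g x = (∫ x in Sd F B, g x) + ∫ x in Sd (fun x => -F x) B, g x := by
  have m1 : MeasurableSet (Sd F B) := by
    have : Sd F B = B ∩ {x | 0 < F x} := rfl
    rw [this]
    exact hB.inter (measurableSet_lt measurable_const hF.measurable)
  have m2 : MeasurableSet (Sd (fun x => -F x) B) := by
    have : Sd (fun x => -F x) B = B ∩ {x | 0 < -F x} := rfl
    rw [this]
    exact hB.inter (measurableSet_lt measurable_const hF.measurable.neg)
  have s1 : Sd F B ⊆ B := fun x hx => hx.1
  have s2 : Sd (fun x => -F x) B ⊆ B := fun x hx => hx.1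
  have hd : Disjoint (Sd F B) (Sd (fun x => -F x) B) := by
    rw [Set.disjoint_left]
    intro x hx hx'
    have a1 : 0 < F x := hx.2
    have a2 : 0 < -F x := hx'.2
    linarith
  rw [← setIntegral_union hd m2 (hg.mono_set s1) (hg.mono_set s2)]
  apply setIntegral_congr_set
  have hle : (Sd F B ∪ Sd (fun x => -F x) B : Set (E m)) ≤ᵐ[volume] B :=
    Eventually.of_forall fun x hx => by
      rcases hx with hx | hx
      · exact hx.1
      · exact hx.1
  have hge : B ≤ᵐ[volume] (Sd F B ∪ Sd (fun x => -F x) B : Set (E m)) := by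
    have hz : ∀ᵐ x ∂(volume : Measure (E m)), x ∉ {x | x ∈ B ∧ F x = 0} :=
      measure_eq_zero_iff_ae_notMem.1 h0
    filter_upwards [hz] with x hx hxB
    rcases lt_trichotomy (F x) 0 with h | h | h
    · exact Or.inr ⟨hxB, by linarith⟩
    · exact absurd ⟨hxB, h⟩ hx
    · exact Or.inl ⟨hxB, h⟩
  exact hge.antisymm hle

end ENF_

open ENF_ in
theorem enf_proof (hWBA : Stmt_WBA) (_hWUN : Stmt_WUN) (hWPP : Stmt_WPP) (hWMM : Stmt_WMM)
    (hWEX : Stmt_WEX) (hWIT : Stmt_WIT) (_hTBA : Stmt_TBA) (_hTPT : Stmt_TPT) (_hGEF : Stmt_GEF)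
    (hFUB : Stmt_FUB) (hLAY : Stmt_LAY) (hTHE : Stmt_THE) : Stmt_ENF := by
  intro d
  obtain ⟨CL, hCL, hL⟩ := hLAY d
  obtain ⟨CT, hCT, hT⟩ := hTHE (d + 1)
  refine ⟨CL + 2 ^ (d + 1) * (2 + CT), by positivity, ?_⟩
  intro F φ p R L i Z P dP S t δ r hG hZ hSH hPZ hr hrR hS hPS ht hδ hδ1
  obtain ⟨Θ, hΘ1, hΘ2, hΘ3, hΘ4, hΘ5⟩ := hT p r S hr hS
  have hL1 := hG.hL
  have hFc : Continuous F := hG.cF.continuous
  set Λ : ℝ := S / (δ * r) with hΛ
  have hΛ0 : 0 < Λ := by positivity
  have hδr : 0 < δ * r := by positivity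
  have hΛe : Λ * (δ * r) = S := by rw [hΛ]; field_simp
  have hB0o : IsOpen (ball p r) := isOpen_ball
  have hB0R : ball p r ⊆ ball p R := ball_subset_ball (by linarith)
  have hB0m : MeasurableSet (ball p r) := measurableSet_ball
  have W := hWBA (d + 1) (ball p r) hB0o
  obtain ⟨_, Wadd, Wmul, _, WC1, Wc⟩ := W
  have hP0 : HasWG (ball p r) P dP :=
    (hWBA (d + 1) (ball p R) isOpen_ball).1 (ball p r) P dP hB0o hB0R hSH.sub.1
  have hF0 : HasWG (ball p r) F (gradient F) :=
    WC1 F ((hG.cF.of_le (by norm_num)).contDiffOn)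
  have hF1 := Wmul (-1) F (gradient F) hF0
  obtain ⟨⟨dM, hM, hMx⟩, _, _⟩ := hWMM (d + 1) (ball p r) F (fun x => (-1) * F x) (gradient F)
    (fun x => (-1 : ℝ) • gradient F x) hB0o hF0 hF1
  have hM2 := Wmul (-Λ) _ _ hM
  have hΘ0 : HasWG (ball p r) Θ (gradient Θ) :=
    WC1 Θ ((hΘ1.of_le (by norm_num)).contDiffOn)
  have hΘn := Wmul (-1) Θ (gradient Θ) hΘ0
  have hu := Wadd _ _ _ _ (Wadd _ _ _ _ hP0 hM2) hΘn
  set u : E (d + 1) → ℝ := fun x => (P x + (-Λ) * max (F x) ((-1) * F x)) + (-1) * Θ x with hudef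
  set du : E (d + 1) → E (d + 1) := fun x => (dP x + (-Λ) • dM x) + (-1 : ℝ) • gradient Θ x
    with hdudef
  have hup := (hWPP (d + 1) (ball p r) u du hB0o hu).1
  have hct := Wc t
  obtain ⟨_, ⟨dN, hN, hNx⟩, _⟩ := hWMM (d + 1) (ball p r) (fun x => max (u x) 0) (fun _ => t)
    ({x | 0 < u x}.indicator du) (fun _ => 0) hB0o hup hct
  set f0 : E (d + 1) → ℝ := fun x => min (max (u x) 0) t with hf0
  have habs : ∀ x, max (F x) ((-1) * F x) = |F x| := by
    intro x
    rw [neg_one_mul]
    rfl
  have hu_out : ∀ x ∈ ball p r, δ * r ≤ |F x| → u x ≤ 0 := by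
    intro x hx hFx
    rw [hudef]
    simp only
    rw [habs]
    have h1 := hPS x hx
    have h2 := hΘ2 x
    have h3 : S ≤ Λ * |F x| := by
      rw [← hΛe]
      exact mul_le_mul_of_nonneg_left hFx hΛ0.le
    linarith
  have hu_out2 : ∀ x ∈ ball p r, 3 / 4 * r ≤ ‖x - p‖ → u x ≤ 0 := by
    intro x hx hFx
    rw [hudef]
    simp only
    rw [habs]
    have h1 := hPS x hx
    have h2 := hΘ4 x hFx
    have h3 : 0 ≤ Λ * |F x| := by positivity
    linarith
  have hf0_zero : ∀ x, u x ≤ 0 → f0 x = 0 := by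
    intro x hx
    rw [hf0]
    simp only
    rw [max_eq_right hx, min_eq_left ht.le]
  have hf0_nn : ∀ x, 0 ≤ f0 x := fun x => le_min (le_max_right _ _) ht.le
  have hf0_le : ∀ x, f0 x ≤ t := fun x => min_le_right _ _
  have hTB0 : TB (ball p r) f0 dN := by
    refine ⟨hN, closedBall p (3 / 4 * r), closedBall_subset_ball (by linarith),
      isCompact_closedBall _ _, ?_⟩
    intro x hx
    refine hf0_zero x (hu_out2 x hx.1 ?_)
    have h1 := hx.2
    rw [mem_closedBall, dist_eq_norm] at h1
    linarith [not_le.1 h1]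
  obtain ⟨ex1, ex2, ex3, ex4, ex5⟩ := hWEX (d + 1) (ball p r) f0 dN hB0o hTB0
  have hTBR := ex4 (ball p R) isOpen_ball hB0R
  refine ⟨(ball p r).indicator f0, (ball p r).indicator dN, hTBR, ?_, ?_, ?_⟩
  · intro x _
    by_cases hx : x ∈ ball p r
    · rw [indicator_of_mem hx]
      exact ⟨hf0_nn x, hf0_le x⟩
    · rw [indicator_of_notMem hx]
      exact ⟨le_refl _, ht.le⟩
  · intro x hxR hFx hxr
    have hx : x ∈ ball p r := by
      rw [mem_ball, dist_eq_norm]
      linarith
    rw [indicator_of_mem hx, hf0, hudef]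
    simp only
    rw [habs, hFx, abs_zero, hΘ3 x hxr, mul_zero, mul_zero, add_zero, add_zero,
      max_eq_left (hSH.nn x hxR)]
  · -- the energy
    have hid : ∀ x, ‖dN x‖ ^ 2 = inner ℝ (du x) (dN x) := by
      intro x
      rcases lt_or_ge (max (u x) 0) t with h | h
      · have e1 := (hNx x).1 h
        by_cases h0 : 0 < u x
        · rw [e1, indicator_of_mem (show x ∈ {x | 0 < u x} from h0), real_inner_self_eq_norm_sq]
        · rw [e1, indicator_of_notMem (show x ∉ {x | 0 < u x} from h0), inner_zero_right,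
            norm_zero]
          norm_num
      · have e1 := (hNx x).2 h
        rw [e1, inner_zero_right, norm_zero]
        norm_num
    have hexp : ∀ x, inner ℝ (du x) (dN x) = inner ℝ (dP x) (dN x) +
        (-Λ) * inner ℝ (dM x) (dN x) + (-1) * inner ℝ (gradient Θ x) (dN x) := by
      intro x
      rw [hdudef]
      simp only
      rw [inner_add_left, inner_add_left, real_inner_smul_left, real_inner_smul_left]
    have iP := ex5 P dP hP0
    have iM := ex5 _ dM hM
    have iΘ := ex5 Θ (gradient Θ) hΘ0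
    have iF := ex5 F (gradient F) hF0
    have hE : ∫ x in ball p R, ‖(ball p r).indicator dN x‖ ^ 2 =
        (∫ x in ball p r, inner ℝ (dP x) (dN x)) +
          (-Λ) * (∫ x in ball p r, inner ℝ (dM x) (dN x)) +
          (-1) * ∫ x in ball p r, inner ℝ (gradient Θ x) (dN x) := by
      have e : (fun x => ‖(ball p r).indicator dN x‖ ^ 2) =
          (ball p r).indicator (fun x => ‖dN x‖ ^ 2) := by
        funext x
        by_cases hx : x ∈ ball p r
        · rw [indicator_of_mem hx, indicator_of_mem hx]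
        · rw [indicator_of_notMem hx, indicator_of_notMem hx, norm_zero]
          norm_num
      rw [e, setIntegral_indicator hB0m, inter_eq_self_of_subset_right hB0R]
      have e2 : ∫ x in ball p r, ‖dN x‖ ^ 2 = ∫ x in ball p r, (inner ℝ (dP x) (dN x) +
        (-Λ) * inner ℝ (dM x) (dN x) + (-1) * inner ℝ (gradient Θ x) (dN x)) := by
        refine setIntegral_congr_fun hB0m fun x _ => ?_
        change ‖dN x‖ ^ 2 = _
        rw [hid x, hexp x]
      have a1 : ∫ x in ball p r, (inner ℝ (dP x) (dN x) + (-Λ) * inner ℝ (dM x) (dN x) +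
          (-1) * inner ℝ (gradient Θ x) (dN x)) =
          (∫ x in ball p r, (inner ℝ (dP x) (dN x) + (-Λ) * inner ℝ (dM x) (dN x))) +
          ∫ x in ball p r, (-1) * inner ℝ (gradient Θ x) (dN x) :=
        integral_add (iP.add (iM.const_mul _)) (iΘ.const_mul _)
      have a2 : ∫ x in ball p r, (inner ℝ (dP x) (dN x) + (-Λ) * inner ℝ (dM x) (dN x)) =
          (∫ x in ball p r, inner ℝ (dP x) (dN x)) +
          ∫ x in ball p r, (-Λ) * inner ℝ (dM x) (dN x) :=
        integral_add iP (iM.const_mul _)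
      rw [e2, a1, a2, integral_const_mul, integral_const_mul]
    -- the integral of `f`
    have hIf : ∫ x in ball p R, (ball p r).indicator f0 x = ∫ x in ball p r, f0 x := by
      rw [setIntegral_indicator hB0m, inter_eq_self_of_subset_right hB0R]
    set I : ℝ := ∫ x in ball p r, f0 x with hIdef
    have hI0 : 0 ≤ I := setIntegral_nonneg hB0m fun x _ => hf0_nn x
    have hvol := (hFUB d i).2.2.2.2 F φ p R L hG
    obtain ⟨_, hnull, hlay, _⟩ := hvol
    have hIle : I ≤ t * (2 * L * (δ * r) * (2 * r) ^ d) := by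
      set A : Set (E (d + 1)) := {x | x ∈ ball p r ∧ |F x| < δ * r} with hA
      have hAm : MeasurableSet A := by
        have : A = ball p r ∩ {x | |F x| < δ * r} := rfl
        rw [this]
        exact hB0m.inter (measurableSet_lt hFc.abs.measurable measurable_const)
      have hAs : A ⊆ ball p r := fun x hx => hx.1
      have hAv := hlay r (δ * r) hr (by linarith) hδr
      have hAfin : volume A ≠ ⊤ := ne_top_of_le_ne_top ENNReal.ofReal_ne_top hAv
      have h1 : I ≤ ∫ x in ball p r, A.indicator (fun _ => t) x := by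
        refine setIntegral_mono_on ex2 ?_ hB0m fun x hx => ?_
        · refine IntegrableOn.integrable_indicator ?_ hAm |>.integrableOn
          exact integrableOn_const hAfin
        · by_cases hxA : x ∈ A
          · rw [indicator_of_mem hxA]
            exact hf0_le x
          · rw [indicator_of_notMem hxA]
            have h2 : δ * r ≤ |F x| := by
              by_contra h3
              exact hxA ⟨hx, not_le.1 h3⟩
            exact (hf0_zero x (hu_out x hx h2)).le
      have h2 : ∫ x in ball p r, A.indicator (fun _ => t) x = (volume A).toReal * t := by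
        rw [setIntegral_indicator hAm, inter_eq_self_of_subset_right hAs, setIntegral_const,
          smul_eq_mul]
        rfl
      have h3 : (volume A).toReal ≤ 2 * L * (δ * r) * (2 * r) ^ d := by
        have h4 := ENNReal.toReal_mono ENNReal.ofReal_ne_top hAv
        rw [ENNReal.toReal_ofReal (by positivity)] at h4
        exact h4
      rw [h2] at h1
      calc I ≤ (volume A).toReal * t := h1
        _ ≤ (2 * L * (δ * r) * (2 * r) ^ d) * t := mul_le_mul_of_nonneg_right h3 ht.le
        _ = t * (2 * L * (δ * r) * (2 * r) ^ d) := by ring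
    -- term 1
    have T1 : ∫ x in ball p r, inner ℝ (dP x) (dN x) ≤ L * I := by
      have h1 := hSH.sub.2 _ _ hTBR (fun x _ => by
        by_cases hx : x ∈ ball p r
        · rw [indicator_of_mem hx]
          exact hf0_nn x
        · rw [indicator_of_notMem hx])
      rw [int_ind _ _ _ _ hB0m, inter_eq_self_of_subset_right hB0R, hIf] at h1
      exact h1
    -- term 2
    have T2 : -(∫ x in ball p r, inner ℝ (dM x) (dN x)) ≤
        CL * L * t * bad i Z p r + L * I := by
      have h1 := hL F φ p R L i Z ((ball p r).indicator f0) ((ball p r).indicator dN) t r hG hZ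
        hTBR (fun x _ => by
          by_cases hx : x ∈ ball p r
          · rw [indicator_of_mem hx]
            exact ⟨hf0_nn x, hf0_le x⟩
          · rw [indicator_of_notMem hx]
            exact ⟨le_refl _, ht.le⟩)
        (fun x hx => by
          by_cases hxr : x ∈ ball p r
          · rw [indicator_of_mem hxr]
            refine hf0_zero x ?_
            rw [hudef]
            simp only
            rw [habs, hPZ x hx, (hZ x hx).2, abs_zero]
            have := hΘ2 x
            linarith
          · rw [indicator_of_notMem hxr]) hr (by linarith)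
        (fun x _ hxr => by
          have hx : x ∉ ball p r := by
            rw [mem_ball, dist_eq_norm]
            exact not_lt.2 hxr
          rw [indicator_of_notMem hx])
      rw [int_ind _ _ _ _ hB0m, int_ind _ _ _ _ hB0m, hIf] at h1
      have e1 : Sd F (ball p R) ∩ ball p r = Sd F (ball p r) := by
        ext x
        constructor
        · rintro ⟨⟨_, h2⟩, h3⟩
          exact ⟨h3, h2⟩
        · rintro ⟨h2, h3⟩
          exact ⟨⟨hB0R h2, h3⟩, h2⟩
      have e2 : Sd (fun x => -F x) (ball p R) ∩ ball p r = Sd (fun x => -F x) (ball p r) := by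
        ext x
        constructor
        · rintro ⟨⟨_, h2⟩, h3⟩
          exact ⟨h3, h2⟩
        · rintro ⟨h2, h3⟩
          exact ⟨⟨hB0R h2, h3⟩, h2⟩
      rw [e1, e2] at h1
      have hsub0 : {x | x ∈ ball p r ∧ F x = 0} ⊆ {x | x ∈ ball p R ∧ F x = 0} :=
        fun x hx => ⟨hB0R hx.1, hx.2⟩
      have hnull' : volume {x | x ∈ ball p r ∧ F x = 0} = 0 :=
        measure_mono_null hsub0 hnull
      have m1 : MeasurableSet (Sd F (ball p r)) := by
        have : Sd F (ball p r) = ball p r ∩ {x | 0 < F x} := rfl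
        rw [this]
        exact hB0m.inter (measurableSet_lt measurable_const hFc.measurable)
      have m2 : MeasurableSet (Sd (fun x => -F x) (ball p r)) := by
        have : Sd (fun x => -F x) (ball p r) = ball p r ∩ {x | 0 < -F x} := rfl
        rw [this]
        exact hB0m.inter (measurableSet_lt measurable_const hFc.measurable.neg)
      rw [int_split F (ball p r) hFc hB0m hnull' _ iM]
      have s1 : ∫ x in Sd F (ball p r), inner ℝ (dM x) (dN x) =
          ∫ x in Sd F (ball p r), inner ℝ (gradient F x) (dN x) := by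
        refine setIntegral_congr_fun m1 fun x hx => ?_
        have hx2 : 0 < F x := hx.2
        change inner ℝ (dM x) (dN x) = _
        rw [(hMx x).1 (by linarith)]
      have s2 : ∫ x in Sd (fun x => -F x) (ball p r), inner ℝ (dM x) (dN x) =
          -∫ x in Sd (fun x => -F x) (ball p r), inner ℝ (gradient F x) (dN x) := by
        rw [← integral_neg]
        refine setIntegral_congr_fun m2 fun x hx => ?_
        have hx2 : 0 < -F x := hx.2
        change inner ℝ (dM x) (dN x) = _
        rw [(hMx x).2 (by linarith), real_inner_smul_left]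
        ring
      rw [s1, s2]
      linarith
    -- term 3
    have T3 : -(∫ x in ball p r, inner ℝ (gradient Θ x) (dN x)) ≤ CT * S / r ^ 2 * I := by
      obtain ⟨_, j2, j3⟩ := hWIT (d + 1) (ball p r) Θ f0 dN hB0o hΘ1 hTB0
      rw [j3, neg_neg, hIdef, ← integral_const_mul]
      refine setIntegral_mono_on j2 (ex2.const_mul _) hB0m fun x hx => ?_
      exact mul_le_mul_of_nonneg_right ((le_abs_self _).trans (hΘ5 x hx)) (hf0_nn x)
    rw [hE]
    have hb0 : 0 ≤ bad i Z p r := ENNReal.toReal_nonneg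
    set b : ℝ := bad i Z p r with hbdef
    -- final computation
    have F1 : (∫ x in ball p r, inner ℝ (dP x) (dN x)) +
          (-Λ) * (∫ x in ball p r, inner ℝ (dM x) (dN x)) +
          (-1) * ∫ x in ball p r, inner ℝ (gradient Θ x) (dN x) ≤
        L * I + Λ * (CL * L * t * b + L * I) + CT * S / r ^ 2 * I := by
      have h2 := mul_le_mul_of_nonneg_left T2 hΛ0.le
      linarith
    refine F1.trans ?_
    have hL2 : L ≤ L ^ 2 := by nlinarith
    have hL12 : 1 ≤ L ^ 2 := by nlinarith
    have hIle2 : I ≤ 2 ^ (d + 1) * L * (t * δ * r ^ (d + 1)) := by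
      refine hIle.trans (le_of_eq ?_)
      rw [mul_pow, pow_succ, pow_succ]
      ring
    have G1 : L * I ≤ 2 ^ (d + 1) * L ^ 2 * (t * δ * r ^ (d + 1)) := by
      calc L * I ≤ L * (2 ^ (d + 1) * L * (t * δ * r ^ (d + 1))) :=
            mul_le_mul_of_nonneg_left hIle2 (by linarith)
        _ = _ := by ring
    have G2 : Λ * (CL * L * t * b) ≤ CL * L ^ 2 * (S * t / (δ * r) * b) := by
      have h1 : Λ * (CL * L * t * b) = CL * L * (S * t / (δ * r) * b) := by
        rw [hΛ]; field_simp
      rw [h1]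
      have h2 : 0 ≤ S * t / (δ * r) * b := by positivity
      have h3 : CL * L ≤ CL * L ^ 2 := mul_le_mul_of_nonneg_left hL2 hCL.le
      exact mul_le_mul_of_nonneg_right h3 h2
    have G3 : Λ * (L * I) ≤ 2 ^ (d + 1) * L ^ 2 * (S * t * r ^ d) := by
      calc Λ * (L * I) ≤ Λ * (2 ^ (d + 1) * L ^ 2 * (t * δ * r ^ (d + 1))) :=
            mul_le_mul_of_nonneg_left G1 hΛ0.le
        _ = _ := by rw [hΛ, pow_succ r]; field_simp
    have G4 : CT * S / r ^ 2 * I ≤
        2 ^ (d + 1) * CT * L ^ 2 * (S * t * δ * r ^ (d + 1) / r ^ 2) := by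
      have h0 : 0 ≤ CT * S / r ^ 2 := by positivity
      calc CT * S / r ^ 2 * I ≤ CT * S / r ^ 2 * (2 ^ (d + 1) * L * (t * δ * r ^ (d + 1))) :=
            mul_le_mul_of_nonneg_left hIle2 h0
        _ = 2 ^ (d + 1) * CT * (S * t * δ * r ^ (d + 1) / r ^ 2) * L := by ring
        _ ≤ 2 ^ (d + 1) * CT * (S * t * δ * r ^ (d + 1) / r ^ 2) * L ^ 2 :=
            mul_le_mul_of_nonneg_left hL2 (by positivity)
        _ = _ := by ring
    have P1 : 0 ≤ S * t / (δ * r) * b := by positivity
    have P2 : 0 ≤ t * δ * r ^ (d + 1) := by positivity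
    have P3 : 0 ≤ S * t * r ^ d := by positivity
    have P4 : 0 ≤ S * t * δ * r ^ (d + 1) / r ^ 2 := by positivity
    have hsum : L * I + Λ * (CL * L * t * b + L * I) + CT * S / r ^ 2 * I ≤
        2 ^ (d + 1) * L ^ 2 * (t * δ * r ^ (d + 1)) + CL * L ^ 2 * (S * t / (δ * r) * b) +
        2 ^ (d + 1) * L ^ 2 * (S * t * r ^ d) +
        2 ^ (d + 1) * CT * L ^ 2 * (S * t * δ * r ^ (d + 1) / r ^ 2) := by
      have : Λ * (CL * L * t * b + L * I) = Λ * (CL * L * t * b) + Λ * (L * I) := by ring
      rw [this]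
      linarith
    refine hsum.trans ?_
    have e2 : (0 : ℝ) < 2 ^ (d + 1) := by positivity
    have K0 : 0 ≤ L ^ 2 := by positivity
    have Q1 : 2 ^ (d + 1) * L ^ 2 * (t * δ * r ^ (d + 1)) ≤
        (CL + 2 ^ (d + 1) * (2 + CT)) * L ^ 2 * (t * δ * r ^ (d + 1)) := by
      refine mul_le_mul_of_nonneg_right (mul_le_mul_of_nonneg_right ?_ K0) P2
      nlinarith
    have Q2 : CL * L ^ 2 * (S * t / (δ * r) * b) ≤
        (CL + 2 ^ (d + 1) * (2 + CT)) * L ^ 2 * (S * t / (δ * r) * b) := by
      refine mul_le_mul_of_nonneg_right (mul_le_mul_of_nonneg_right ?_ K0) P1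
      nlinarith
    have Q3 : 2 ^ (d + 1) * L ^ 2 * (S * t * r ^ d) ≤
        (CL + 2 ^ (d + 1) * (2 + CT)) * L ^ 2 * (S * t * r ^ d) := by
      refine mul_le_mul_of_nonneg_right (mul_le_mul_of_nonneg_right ?_ K0) P3
      nlinarith
    have Q4 : 2 ^ (d + 1) * CT * L ^ 2 * (S * t * δ * r ^ (d + 1) / r ^ 2) ≤
        (CL + 2 ^ (d + 1) * (2 + CT)) * L ^ 2 * (S * t * δ * r ^ (d + 1) / r ^ 2) := by
      refine mul_le_mul_of_nonneg_right (mul_le_mul_of_nonneg_right ?_ K0) P4
      nlinarith
    calc _ ≤ (CL + 2 ^ (d + 1) * (2 + CT)) * L ^ 2 * (t * δ * r ^ (d + 1)) +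
          (CL + 2 ^ (d + 1) * (2 + CT)) * L ^ 2 * (S * t / (δ * r) * b) +
          (CL + 2 ^ (d + 1) * (2 + CT)) * L ^ 2 * (S * t * r ^ d) +
          (CL + 2 ^ (d + 1) * (2 + CT)) * L ^ 2 * (S * t * δ * r ^ (d + 1) / r ^ 2) := by
          linarith
      _ = _ := by ring

end Pool.Agent.COB
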