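import Pool.Agent.COB.Stmts

set_option autoImplicit false

namespace Pool.Agent.COB

open MeasureTheory Set Metric Filter Topology

namespace EUL_

theorem int_inner {m : ℕ} {S : Set (E m)} {g d : E m → E m}
    (hg : AEStronglyMeasurable g (volume.restrict S)) (hd : AEStronglyMeasurable d (volume.restrict S))
    (h1 : IntegrableOn (fun x => ‖g x‖ ^ 2) S) (h2 : IntegrableOn (fun x => ‖d x‖ ^ 2) S) :
    IntegrableOn (fun x => inner ℝ (g x) (d x)) S := by
  have h3 : Integrable (fun x => ‖g x‖ ^ 2 + ‖d x‖ ^ 2) (volume.restrict S) := h1.add h2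
  refine h3.mono (hg.inner hd) (Eventually.of_forall fun x => ?_)
  have h4 : ‖inner ℝ (g x) (d x)‖ ≤ ‖g x‖ * ‖d x‖ := norm_inner_le_norm _ _
  have h5 : ‖‖g x‖ ^ 2 + ‖d x‖ ^ 2‖ = ‖g x‖ ^ 2 + ‖d x‖ ^ 2 := by
    rw [Real.norm_eq_abs, abs_of_nonneg (by positivity)]
  rw [h5]
  nlinarith [sq_nonneg (‖g x‖ - ‖d x‖), norm_nonneg (g x), norm_nonneg (d x)]

theorem one {m : ℕ} {S : Set (E m)} {g d : E m → E m} (ε : ℝ)
    (hg : AEStronglyMeasurable g (volume.restrict S)) (hd : AEStronglyMeasurable d (volume.restrict S))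
    (h1 : IntegrableOn (fun x => ‖g x‖ ^ 2) S) (h2 : IntegrableOn (fun x => ‖d x‖ ^ 2) S) :
    ∫ x in S, (2 * inner ℝ (g x) (ε • d x) + ‖ε • d x‖ ^ 2) =
      2 * ε * (∫ x in S, inner ℝ (g x) (d x)) + ε ^ 2 * ∫ x in S, ‖d x‖ ^ 2 := by
  have h3 := int_inner hg hd h1 h2
  have e1 : ∀ x, 2 * inner ℝ (g x) (ε • d x) + ‖ε • d x‖ ^ 2 =
      2 * ε * inner ℝ (g x) (d x) + ε ^ 2 * ‖d x‖ ^ 2 := by
    intro x
    rw [inner_smul_right, norm_smul, mul_pow, Real.norm_eq_abs, sq_abs]
    ring
  simp_rw [e1]
  rw [integral_add (h3.const_mul _) (h2.const_mul _), integral_const_mul, integral_const_mul]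

theorem zero_of {X C : ℝ} (hC : 0 ≤ C) (h : ∀ ε : ℝ, 0 ≤ 2 * ε * X + ε ^ 2 * C) : X = 0 := by
  by_contra hX
  have h1 := h (-(X / (C + 1)))
  have hC1 : 0 < C + 1 := by linarith
  have h2 : 2 * (-(X / (C + 1))) * X + (-(X / (C + 1))) ^ 2 * C =
      -(X ^ 2 * (C + 2)) / (C + 1) ^ 2 := by
    field_simp
    ring
  rw [h2] at h1
  have h3 : 0 < X ^ 2 := by positivity
  have h4 : -(X ^ 2 * (C + 2)) / (C + 1) ^ 2 < 0 := by
    apply div_neg_of_neg_of_pos
    · nlinarith
    · positivity
  linarith

theorem gen {m k : ℕ} {F φ : E m → ℝ} {B : Set (E m)} {v : Fin (k + 1) → E m → ℝ}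
    {gv : Fin (k + 1) → E m → E m} {w : Fin k → E m → ℝ} {gw : Fin k → E m → E m}
    (hTBA : Stmt_TBA) (hB : IsOpen B) (hF : Continuous F)
    (hc : Cfg F φ B v gv w gw) (a : Fin (k + 1) → E m → ℝ) (da : Fin (k + 1) → E m → E m)
    (b : Fin k → E m → ℝ) (db : Fin k → E m → E m)
    (ha : ∀ i, PT F B (a i) (da i)) (hb : ∀ j, PT (fun x => -F x) B (b j) (db j))
    (htr : ∀ ε : ℝ, ∀ x ∈ B, F x = 0 →
      ml (fun i => v i x + ε * a i x) = φ x ::ₘ ml (fun j => w j x + ε * b j x)) :
    (∑ i, ∫ x in Sd F B, inner ℝ (gv i x) (da i x)) +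
      (∑ j, ∫ x in Sd (fun x => -F x) B, inner ℝ (gw j x) (db j x)) = 0 := by
  obtain ⟨-, -, -, -, -, -, -, -, -, t1, -⟩ := hTBA m B F hB hF
  obtain ⟨-, -, -, -, -, -, -, -, -, t2, -⟩ := hTBA m B (fun x => -F x) hB hF.neg
  set C : ℝ := (∑ i, (∫ x in Sd F B, ‖da i x‖ ^ 2)) +
    (∑ j, ∫ x in Sd (fun x => -F x) B, ‖db j x‖ ^ 2) with hCdef
  have hC : 0 ≤ C := by
    refine add_nonneg (Finset.sum_nonneg fun i _ => ?_) (Finset.sum_nonneg fun j _ => ?_)
    · exact integral_nonneg fun x => by positivity
    · exact integral_nonneg fun x => by positivity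
  refine zero_of hC fun ε => ?_
  have h1 := hc.mn (fun i x => ε * a i x) (fun i x => ε • da i x) (fun j x => ε * b j x)
    (fun j x => ε • db j x) (fun i => t1 ε _ _ (ha i)) (fun j => t2 ε _ _ (hb j)) (htr ε)
  have e1 : ∀ i, ∫ x in Sd F B, (2 * inner ℝ (gv i x) (ε • da i x) + ‖ε • da i x‖ ^ 2) =
      2 * ε * (∫ x in Sd F B, inner ℝ (gv i x) (da i x)) +
        ε ^ 2 * ∫ x in Sd F B, ‖da i x‖ ^ 2 := fun i =>
    one ε (hc.hv i).meas (ha i).wg.meas (hc.ev i) (ha i).en
  have e2 : ∀ j, ∫ x in Sd (fun x => -F x) B,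
      (2 * inner ℝ (gw j x) (ε • db j x) + ‖ε • db j x‖ ^ 2) =
      2 * ε * (∫ x in Sd (fun x => -F x) B, inner ℝ (gw j x) (db j x)) +
        ε ^ 2 * ∫ x in Sd (fun x => -F x) B, ‖db j x‖ ^ 2 := fun j =>
    one ε (hc.hw j).meas (hb j).wg.meas (hc.ew j) (hb j).en
  simp only [e1, e2] at h1
  rw [Finset.sum_add_distrib, Finset.sum_add_distrib, ← Finset.mul_sum, ← Finset.mul_sum,
    ← Finset.mul_sum, ← Finset.mul_sum] at h1
  rw [hCdef]
  linarith

theorem ml_ext {n : ℕ} {a b : Fin n → ℝ} (h : ∀ i, a i = b i) : ml a = ml b := by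
  rw [funext h]

end EUL_

theorem eul_proof (_hWEX : Stmt_WEX) (hTBA : Stmt_TBA) (hTPT : Stmt_TPT) (hGEF : Stmt_GEF)
    (hTRP : Stmt_TRP) : Stmt_EUL := by
  intro m k F φ p R L i v gv w gw hG hc
  have hFc : Continuous F := hG.cF.continuous
  have hBo : IsOpen (ball p R) := isOpen_ball
  have hdF : ∀ x ∈ ball p R, F x = 0 → fderiv ℝ F x ≠ 0 := fun x hx _ =>
    ((hGEF m F φ p R L i hG).2.1 x hx).2.2.2
  have hdF' : ∀ x ∈ ball p R, -F x = 0 → fderiv ℝ (fun x => -F x) x ≠ 0 := by
    intro x hx h0
    have h1 := hdF x hx (by linarith)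
    have h2 : fderiv ℝ (fun x => -F x) x = -fderiv ℝ F x := fderiv_neg
    rw [h2]
    exact neg_ne_zero.mpr h1
  obtain ⟨-, z1, -⟩ := hTBA m (ball p R) F hBo hFc
  obtain ⟨-, z2, -⟩ := hTBA m (ball p R) (fun x => -F x) hBo hFc.neg
  obtain ⟨-, q2, q3, -, -⟩ := hTPT m (ball p R) F hBo hG.cF hdF
  obtain ⟨-, -, q3', -, -⟩ := hTPT m (ball p R) (fun x => -F x) hBo hG.cF.neg hdF'
  refine ⟨fun i => ⟨hc.hv i, ?_⟩, fun j => ⟨hc.hw j, ?_⟩, ?_⟩
  · intro ξ dξ hξ
    have h1 := q3 ξ dξ hξ
    have h2 := EUL_.gen hTBA hBo hFc hc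
      (fun l => if l = i then (Sd F (ball p R)).indicator ξ else fun _ => 0)
      (fun l => if l = i then (Sd F (ball p R)).indicator dξ else fun _ => 0)
      (fun _ _ => 0) (fun _ _ => 0)
      (fun l => by
        by_cases hl : l = i
        · simp only [hl, if_true]; exact h1
        · simp only [hl, if_false]; exact z1)
      (fun _ => z2)
      (fun ε x hx hx0 => by
        have h3 : (Sd F (ball p R)).indicator ξ x = 0 := by
          apply indicator_of_notMem
          rintro ⟨-, h⟩
          exact absurd hx0 h.ne'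
        have e1 : ml (fun l => v l x + ε * (if l = i then (Sd F (ball p R)).indicator ξ
            else fun _ => 0) x) = ml (fun l => v l x) := EUL_.ml_ext fun l => by
          by_cases hl : l = i
          · simp only [hl, if_true, h3]; ring
          · simp only [hl, if_false]; ring
        have e2 : ml (fun j => w j x + ε * (0 : ℝ)) = ml (fun j => w j x) :=
          EUL_.ml_ext fun l => by ring
        rw [e1, e2]
        exact hc.tr x hx hx0)
    have e3 : ∀ l, ∫ x in Sd F (ball p R), inner ℝ (gv l x)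
        ((if l = i then (Sd F (ball p R)).indicator dξ else fun _ => (0 : E m)) x) =
        if l = i then ∫ x in Sd F (ball p R), inner ℝ (gv i x) (dξ x) else 0 := by
      intro l
      by_cases hl : l = i
      · subst hl
        simp only [if_true]
        refine setIntegral_congr_fun ?_ fun x hx => ?_
        · exact (hBo.inter (isOpen_lt continuous_const hFc)).measurableSet
        · simp only [indicator_of_mem hx]
      · simp [hl]
    have e4 : ∀ j : Fin k, ∫ x in Sd (fun x => -F x) (ball p R),
        inner ℝ (gw j x) ((fun _ : E m => (0 : E m)) x) = 0 := by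
      intro j; simp
    rw [Finset.sum_congr rfl fun l _ => e3 l] at h2
    simp only [Finset.sum_ite_eq', Finset.mem_univ, if_true] at h2
    have e5 : ∑ j : Fin k, ∫ x in Sd (fun x => -F x) (ball p R),
        inner ℝ (gw j x) (0 : E m) = 0 := by simp
    rw [e5, add_zero] at h2
    exact h2
  · intro ξ dξ hξ
    have h1 := q3' ξ dξ hξ
    have h2 := EUL_.gen hTBA hBo hFc hc
      (fun _ _ => 0) (fun _ _ => 0)
      (fun l => if l = j then (Sd (fun x => -F x) (ball p R)).indicator ξ else fun _ => 0)
      (fun l => if l = j then (Sd (fun x => -F x) (ball p R)).indicator dξ else fun _ => 0)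
      (fun _ => z1)
      (fun l => by
        by_cases hl : l = j
        · simp only [hl, if_true]; exact h1
        · simp only [hl, if_false]; exact z2)
      (fun ε x hx hx0 => by
        have h3 : (Sd (fun x => -F x) (ball p R)).indicator ξ x = 0 := by
          apply indicator_of_notMem
          rintro ⟨-, h⟩
          simp only [hx0, neg_zero, lt_irrefl] at h
        have e1 : ml (fun l => w l x + ε * (if l = j then
            (Sd (fun x => -F x) (ball p R)).indicator ξ
            else fun _ => 0) x) = ml (fun l => w l x) := EUL_.ml_ext fun l => by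
          by_cases hl : l = j
          · simp only [hl, if_true, h3]; ring
          · simp only [hl, if_false]; ring
        have e2 : ml (fun j => v j x + ε * (0 : ℝ)) = ml (fun j => v j x) :=
          EUL_.ml_ext fun l => by ring
        rw [e1, e2]
        exact hc.tr x hx hx0)
    have e3 : ∀ l, ∫ x in Sd (fun x => -F x) (ball p R), inner ℝ (gw l x)
        ((if l = j then (Sd (fun x => -F x) (ball p R)).indicator dξ
          else fun _ => (0 : E m)) x) =
        if l = j then ∫ x in Sd (fun x => -F x) (ball p R), inner ℝ (gw j x) (dξ x) else 0 := by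
      intro l
      by_cases hl : l = j
      · subst hl
        simp only [if_true]
        refine setIntegral_congr_fun ?_ fun x hx => ?_
        · exact (hBo.inter (isOpen_lt continuous_const hFc.neg)).measurableSet
        · simp only [indicator_of_mem hx]
      · simp [hl]
    rw [Finset.sum_congr rfl fun l _ => e3 l] at h2
    simp only [Finset.sum_ite_eq', Finset.mem_univ, if_true] at h2
    have e5 : ∑ j : Fin (k + 1), ∫ x in Sd F (ball p R),
        inner ℝ (gv j x) (0 : E m) = 0 := by simp
    rw [e5, zero_add] at h2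
    exact h2
  · intro i j ξ dξ hξ h0
    obtain ⟨h1, h1'⟩ := q2 ξ dξ hξ
    have h2 := EUL_.gen hTBA hBo hFc hc
      (fun l => if l = i then ξ else fun _ => 0)
      (fun l => if l = i then dξ else fun _ => 0)
      (fun l => if l = j then ξ else fun _ => 0)
      (fun l => if l = j then dξ else fun _ => 0)
      (fun l => by
        by_cases hl : l = i
        · simp only [hl, if_true]; exact h1
        · simp only [hl, if_false]; exact z1)
      (fun l => by
        by_cases hl : l = j
        · simp only [hl, if_true]; exact h1'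
        · simp only [hl, if_false]; exact z2)
      (fun ε x hx hx0 => by
        by_cases hvw : v i x = w j x
        · have h3 := (hTRP k (fun l => v l x) (fun l => w l x) (φ x) 0 j (hc.mv x ⟨hx, hx0.ge⟩)
            (hc.mw x ⟨hx, by simp [hx0]⟩) (hc.tr x hx hx0) le_rfl).2.2.2 i (ε * ξ x) hvw
          convert h3 using 2
          · funext l
            by_cases hl : l = i
            · subst hl; simp
            · simp [hl, Function.update_of_ne hl]
          · congr 1
            funext l
            by_cases hl : l = j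
            · subst hl; simp
            · simp [hl, Function.update_of_ne hl]
        · have h3 := h0 x hx hx0 hvw
          have e1 : ml (fun l => v l x + ε * (if l = i then ξ else fun _ => 0) x) =
              ml (fun l => v l x) := EUL_.ml_ext fun l => by
            by_cases hl : l = i
            · simp only [hl, if_true, h3]; ring
            · simp only [hl, if_false]; ring
          have e2 : ml (fun l => w l x + ε * (if l = j then ξ else fun _ => 0) x) =
              ml (fun l => w l x) := EUL_.ml_ext fun l => by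
            by_cases hl : l = j
            · simp only [hl, if_true, h3]; ring
            · simp only [hl, if_false]; ring
          rw [e1, e2]
          exact hc.tr x hx hx0)
    have e3 : ∀ l, ∫ x in Sd F (ball p R), inner ℝ (gv l x)
        ((if l = i then dξ else fun _ => (0 : E m)) x) =
        if l = i then ∫ x in Sd F (ball p R), inner ℝ (gv i x) (dξ x) else 0 := by
      intro l
      by_cases hl : l = i
      · subst hl; simp
      · simp [hl]
    have e4 : ∀ l, ∫ x in Sd (fun x => -F x) (ball p R), inner ℝ (gw l x)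
        ((if l = j then dξ else fun _ => (0 : E m)) x) =
        if l = j then ∫ x in Sd (fun x => -F x) (ball p R), inner ℝ (gw j x) (dξ x) else 0 := by
      intro l
      by_cases hl : l = j
      · subst hl; simp
      · simp [hl]
    rw [Finset.sum_congr rfl fun l _ => e3 l, Finset.sum_congr rfl fun l _ => e4 l] at h2
    simpa only [Finset.sum_ite_eq', Finset.mem_univ, if_true] using h2

end Pool.Agent.COB
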