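import Pool.Agent.COB.Stmts

/-!
# Squad COB (MP_71cfa6_an), module FIN: the singular set is a null set
-/

set_option autoImplicit false

namespace Pool.Agent.COB

open MeasureTheory Set Metric Filter Topology
open scoped ENNReal

namespace FIN_

variable {d k : ℕ}

/-- `φ` is continuous on `ga` -/
theorem cont_phi {m : ℕ} {ga : Set (E m)} {φ : E m → ℝ} (h : IsC2On ga φ) :
    ContinuousOn φ ga := by
  intro p hp
  obtain ⟨U, hU, hpU, ψ, hψ, he⟩ := h p hp
  have h1 : ContinuousWithinAt ψ ga p :=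
    ((hψ.continuousOn.continuousAt (hU.mem_nhds hpU))).continuousWithinAt
  refine h1.congr_of_eventuallyEq ?_ (he p ⟨hpU, hp⟩)
  have h2 : U ∩ ga ∈ 𝓝[ga] p := by
    rw [inter_comm]
    exact inter_mem_nhdsWithin ga (hU.mem_nhds hpU)
  filter_upwards [h2] with x hx using he x hx

/-- the compact set `ga ∩ B` for a closed ball `B ⊆ Om` -/
theorem ga_compact {m : ℕ} {Om Op Omi ga : Set (E m)} (h : IsSplit Om Op Omi ga) {p : E m}
    {r : ℝ} (hr : closedBall p r ⊆ Om) : IsCompact (ga ∩ closedBall p r) := by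
  have h1 : ga ∩ closedBall p r = closedBall p r ∩ (Op ∪ Omi)ᶜ := by
    ext x
    constructor
    · rintro ⟨h2, h3⟩
      refine ⟨h3, ?_⟩
      rintro (h4 | h4)
      · exact Set.disjoint_left.mp h.disj1 h4 h2
      · exact Set.disjoint_left.mp h.disj2 h4 h2
    · rintro ⟨h3, h4⟩
      refine ⟨?_, h3⟩
      have h5 := hr h3
      rw [h.union] at h5
      rcases h5 with (h5 | h5) | h5
      · exact absurd (Or.inl h5) h4
      · exact h5
      · exact absurd (Or.inr h5) h4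
  rw [h1]
  exact (isCompact_closedBall p r).inter_right (h.openOp.union h.openOmi).isClosed_compl

/-- the collapsed sets -/
def ZS {m : ℕ} (ga : Set (E m)) (φ : E m → ℝ) (gm : E m → Sym ℝ k) (p : E m) (r : ℝ)
    (S : Set (Fin k)) : Set (E m) :=
  {x | x ∈ ga ∩ closedBall p r ∧ ∀ j ∈ S, srt (gm x) j = φ x}

theorem ZS_compact {m : ℕ} {Om Op Omi ga : Set (E m)} {φ : E m → ℝ} {gm : E m → Sym ℝ k}
    (h : IsSplit Om Op Omi ga) (hφ : IsC2On ga φ)
    (hc : ∀ j, ContinuousOn (fun x => srt (gm x) j) (Omi ∪ ga)) {p : E m} {r : ℝ}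
    (hr : closedBall p r ⊆ Om) (S : Set (Fin k)) : IsCompact (ZS ga φ gm p r S) := by
  have hK := ga_compact h hr
  have h1 : ZS ga φ gm p r S = (ga ∩ closedBall p r) ∩
      ⋂ j ∈ S, ((ga ∩ closedBall p r) ∩ (fun x => srt (gm x) j - φ x) ⁻¹' {0}) := by
    ext x
    simp only [ZS, mem_setOf_eq, mem_inter_iff, mem_iInter, mem_preimage, mem_singleton_iff,
      sub_eq_zero]
    constructor
    · rintro ⟨h2, h3⟩
      exact ⟨h2, fun j hj => ⟨h2, h3 j hj⟩⟩
    · rintro ⟨h2, h3⟩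
      exact ⟨h2, fun j hj => (h3 j hj).2⟩
  rw [h1]
  refine hK.inter_right ?_
  refine isClosed_biInter fun j _ => ?_
  refine ContinuousOn.preimage_isClosed_of_isClosed ?_ hK.isClosed isClosed_singleton
  refine ContinuousOn.sub ?_ ?_
  · exact (hc j).mono fun x hx => Or.inr hx.1
  · exact (cont_phi hφ).mono fun x hx => hx.1

theorem bad_nonneg (i : Fin (d + 1)) (Z : Set (E (d + 1))) (p : E (d + 1)) (r : ℝ) :
    0 ≤ bad i Z p r := ENNReal.toReal_nonneg

/-- density points are transferred -/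
theorem Dn_mono {i : Fin (d + 1)} {Z Z' : Set (E (d + 1))} {p : E (d + 1)} {r₀ : ℝ} (hr₀ : 0 < r₀)
    (h : ∀ r, 0 < r → r < r₀ → ∀ x ∈ Z, pj i x ∈ closedBall (pj i p) r → x ∈ Z')
    (hD : Dn i Z p) : Dn i Z' p := by
  unfold Dn at hD ⊢
  refine squeeze_zero' ?_ ?_ hD
  · filter_upwards [self_mem_nhdsWithin] with r hr
    have hr' : 0 < r := hr
    exact div_nonneg (bad_nonneg i Z' p r) (by positivity)
  · have h1 : Ioo (0 : ℝ) r₀ ∈ 𝓝[>] (0 : ℝ) := Ioo_mem_nhdsGT hr₀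
    filter_upwards [h1] with r hr
    have hr0 : 0 < r := hr.1
    refine div_le_div_of_nonneg_right ?_ (by positivity)
    unfold bad
    refine ENNReal.toReal_mono ?_ (measure_mono ?_)
    · exact (lt_of_le_of_lt (measure_mono diff_subset) measure_closedBall_lt_top).ne
    · rintro y ⟨hy1, hy2⟩
      refine ⟨hy1, ?_⟩
      rintro ⟨x, hx, rfl⟩
      exact hy2 ⟨x, h r hr.1 hr.2 x hx hy1, rfl⟩

end FIN_

open FIN_

theorem fin_proof (hSRT : Stmt_SRT) (hBR4 : Stmt_BR4) (hCHT : Stmt_CHT) (hNUL : Stmt_NUL)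
    (hRLC : Stmt_RLC) : Stmt_FIN := by
  intro d k Om Op Omi ga φ gp gm hsp hφ hmin
  obtain ⟨hs1, -, -, hs4, -⟩ := hSRT k
  obtain ⟨hs1', -, -, -, -⟩ := hSRT (k + 1)
  have hcm : ∀ j, ContinuousOn (fun x => srt (gm x) j) (Omi ∪ ga) :=
    (hs4 (d + 1) (Omi ∪ ga) gm hmin.1.cm).1
  apply measure_null_of_locally_null
  rintro p₀ ⟨hp₀, -⟩
  obtain ⟨i, R₀, L₀, hR₀, hOm, hLip, hch⟩ := hCHT d Om Op Omi ga φ p₀ hsp hφ hp₀
  have hhalf : closedBall p₀ (R₀ / 2) ⊆ closedBall p₀ R₀ := closedBall_subset_closedBall (by linarith)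
  refine ⟨{p | p ∈ ga ∧ ¬ RegPt Op Omi ga gp gm p} ∩ ball p₀ (R₀ / 2),
    inter_mem_nhdsWithin _ (ball_mem_nhds p₀ (by linarith)), ?_⟩
  have hsub : {p | p ∈ ga ∧ ¬ RegPt Op Omi ga gp gm p} ∩ ball p₀ (R₀ / 2) ⊆
      ⋃ S : Set (Fin k), {p | p ∈ ZS ga φ gm p₀ (R₀ / 2) S ∧
        ¬ Dn i (ZS ga φ gm p₀ (R₀ / 2) S) p} := by
    rintro p ⟨⟨hpga, hpreg⟩, hpb⟩
    rw [mem_iUnion]
    refine ⟨{j | srt (gm p) j = φ p}, ⟨⟨hpga, ball_subset_closedBall hpb⟩, fun j hj => hj⟩, ?_⟩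
    intro hD
    apply hpreg
    have hpR : p ∈ ball p₀ R₀ := ball_subset_ball (by linarith) hpb
    obtain ⟨F, ψ, R, L, hG, hball, hside, hφψ⟩ := hch p ⟨hpga, hpR⟩
    have hR := hG.hR
    have hballOm : ball p R ⊆ Om := fun x hx => hOm (ball_subset_closedBall (hball hx))
    obtain ⟨gv, gw, hC⟩ := hBR4 (d + 1) k Om Op Omi ga φ ψ gp gm F p R hsp hmin
      hG.cF.continuous hR hballOm hside hφψ
    have hpp : φ p = ψ p := hφψ p ⟨hpga, mem_ball_self hR⟩
    have hDn : (∃ j, srt (gm p) j = ψ p) →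
        Dn i (ZZ F ψ (ball p R) (fun j x => srt (gm x) j) {j | srt (gm p) j = ψ p}) p := by
      intro _
      have hL₀ : 0 < |L₀| + 1 := by positivity
      refine Dn_mono (Z := ZS ga φ gm p₀ (R₀ / 2) {j | srt (gm p) j = φ p})
        (r₀ := R / (|L₀| + 1)) (div_pos hR hL₀) ?_ hD
      rintro r hr0 hr x ⟨⟨hxga, hxb⟩, hx⟩ hxr
      have h1 : ‖x - p‖ ≤ L₀ * dist (pj i x) (pj i p) :=
        hLip x ⟨hxga, hhalf hxb⟩ p ⟨hpga, ball_subset_closedBall hpR⟩
      have h2 : dist (pj i x) (pj i p) ≤ r := mem_closedBall.mp hxr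
      have h3 : L₀ * dist (pj i x) (pj i p) ≤ (|L₀| + 1) * r := by
        refine mul_le_mul ?_ h2 dist_nonneg hL₀.le
        have := le_abs_self L₀
        linarith
      have h4 : (|L₀| + 1) * r < R := by
        rw [lt_div_iff₀ hL₀] at hr
        linarith
      have h5 : x ∈ ball p R := by
        rw [mem_ball, dist_eq_norm]
        linarith
      refine ⟨h5, ((hside x h5).2.2).mp hxga, fun j hj => ?_⟩
      have hj' : srt (gm p) j = φ p := by
        rw [hpp]; exact hj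
      rw [← hφψ x ⟨hxga, h5⟩]
      exact hx j hj'
    obtain ⟨ρ, hρ, hρR, u, u₁, c1, c2, c3, c4, c5, c6⟩ := hRLC d k F ψ p R L i
      (fun i x => srt (gp x) i) gv (fun j x => srt (gm x) j) gw hG hC hDn
    have hbρ : ball p ρ ⊆ ball p R := ball_subset_ball hρR
    have eP : ball p ρ ∩ (Op ∪ ga) = Sc F (ball p ρ) := by
      ext x
      constructor
      · rintro ⟨h1, h2 | h2⟩
        · exact ⟨h1, ((hside x (hbρ h1)).1.mp h2).le⟩
        · exact ⟨h1, ((hside x (hbρ h1)).2.2.mp h2).ge⟩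
      · rintro ⟨h1, h2⟩
        refine ⟨h1, ?_⟩
        rcases h2.lt_or_eq with h3 | h3
        · exact Or.inl ((hside x (hbρ h1)).1.mpr h3)
        · exact Or.inr ((hside x (hbρ h1)).2.2.mpr h3.symm)
    have eM : ball p ρ ∩ (Omi ∪ ga) = Sc (fun x => -F x) (ball p ρ) := by
      ext x
      constructor
      · rintro ⟨h1, h2 | h2⟩
        · have := (hside x (hbρ h1)).2.1.mp h2
          exact ⟨h1, by linarith⟩
        · have := (hside x (hbρ h1)).2.2.mp h2
          exact ⟨h1, by linarith⟩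
      · rintro ⟨h1, h2⟩
        refine ⟨h1, ?_⟩
        have h2' : F x ≤ 0 := by linarith
        rcases h2'.lt_or_eq with h3 | h3
        · exact Or.inl ((hside x (hbρ h1)).2.1.mpr h3)
        · exact Or.inr ((hside x (hbρ h1)).2.2.mpr h3)
    refine ⟨ρ, hρ, ?_, u, u₁, c1, ?_, ?_, ?_, c5, ?_⟩
    · rw [← hsp.union]
      exact fun x hx => hballOm (hbρ hx)
    · rw [eP]; exact c2
    · rw [eP]
      intro x hx
      apply Subtype.ext
      have h1 := c3 x hx
      have h2 := (hs1' (gp x)).2.2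
      show (gp x).1 = u₁ x ::ₘ ml (fun j => u j x)
      rw [h2]
      exact h1
    · rw [eM]
      intro x hx
      apply Subtype.ext
      have h1 := c4 x hx
      have h2 := (hs1 (gm x)).2.2
      show (gm x).1 = ml (fun j => u j x)
      rw [h2]
      exact h1
    · rw [eP]; exact c6
  refine measure_mono_null hsub ?_
  rw [measure_iUnion_null_iff]
  intro S
  refine hNUL d i (ZS ga φ gm p₀ (R₀ / 2) S) _ L₀
    (ZS_compact hsp hφ hcm (fun x hx => hOm (hhalf hx)) S) ?_ (fun p hp => hp.1)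
    (fun p hp => hp.2)
  intro x hx y hy
  exact hLip x ⟨hx.1.1, hhalf hx.1.2⟩ y ⟨hy.1.1, hhalf hy.1.2⟩

end Pool.Agent.COB
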