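import Pool.Agent.COB.Stmts

/-! Squad COB, module FUB (helper68): lines and layers. -/

set_option autoImplicit false

namespace Pool.Agent.COB

open MeasureTheory Set Metric Filter Topology
open scoped ENNReal

namespace FUB_

variable {d : ℕ} (i : Fin (d + 1))

theorem ins_eq (x : E (d + 1)) : ins i (x i) (pj i x) = x := by
  unfold ins pj
  ext j
  rcases Fin.eq_self_or_eq_succAbove i j with rfl | ⟨j, rfl⟩ <;> simp

theorem pj_ins (s : ℝ) (y : Fin d → ℝ) : pj i (ins i s y) = y := by
  unfold ins pj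
  ext j
  simp

theorem ins_i (s : ℝ) (y : Fin d → ℝ) : ins i s y i = s := by
  unfold ins
  simp

theorem ins_succ (s : ℝ) (y : Fin d → ℝ) (j : Fin d) : ins i s y (i.succAbove j) = y j := by
  unfold ins
  simp

theorem norm_sq (z : E (d + 1)) : ‖z‖ ^ 2 = z i ^ 2 + ∑ j : Fin d, z (i.succAbove j) ^ 2 := by
  rw [EuclideanSpace.norm_sq_eq, Fin.sum_univ_succAbove _ i]
  simp

theorem norm_ins (s s' : ℝ) (y : Fin d → ℝ) : ‖ins i s y - ins i s' y‖ = |s - s'| := by
  have h : ‖ins i s y - ins i s' y‖ ^ 2 = |s - s'| ^ 2 := by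
    rw [norm_sq i, sq_abs]
    have : ∀ j : Fin d, (ins i s y - ins i s' y) (i.succAbove j) = 0 := by
      intro j
      rw [PiLp.sub_apply, ins_succ, ins_succ, sub_self]
    simp only [this]
    rw [PiLp.sub_apply, ins_i, ins_i]
    simp
  exact (sq_eq_sq₀ (norm_nonneg _) (abs_nonneg _)).1 h

theorem lint (h : E (d + 1) → ℝ≥0∞) (hm : Measurable h) :
    ∫⁻ x, h x = ∫⁻ y : Fin d → ℝ, ∫⁻ s : ℝ, h (ins i s y) := by
  have h1 : ∫⁻ x : E (d + 1), h x = ∫⁻ x : Fin (d + 1) → ℝ, h (WithLp.toLp 2 x) := by
    rw [← (PiLp.volume_preserving_toLp (Fin (d + 1))).lintegral_comp hm]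
  have e := (volume_preserving_piFinSuccAbove (fun _ : Fin (d + 1) => ℝ) i).symm
  have hm2 : Measurable fun x : Fin (d + 1) → ℝ => h (WithLp.toLp 2 x) :=
    hm.comp (PiLp.volume_preserving_toLp (Fin (d + 1))).measurable
  have h2 : ∫⁻ x : Fin (d + 1) → ℝ, h (WithLp.toLp 2 x) =
      ∫⁻ z : ℝ × (Fin d → ℝ), h (ins i z.1 z.2) := by
    rw [← e.lintegral_comp hm2]
    rfl
  have hm3 : Measurable fun z : ℝ × (Fin d → ℝ) => h (ins i z.1 z.2) :=
    hm2.comp e.measurable
  rw [h1, h2, Measure.volume_eq_prod, lintegral_prod_symm' _ hm3]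

theorem dist_pj (x x' : E (d + 1)) : dist (pj i x) (pj i x') ≤ ‖x - x'‖ := by
  rw [dist_pi_le_iff (norm_nonneg _)]
  intro j
  have h1 : dist (pj i x j) (pj i x' j) = ‖(x - x') (i.succAbove j)‖ := by
    rw [PiLp.sub_apply, Real.dist_eq]
    rfl
  rw [h1]
  exact PiLp.norm_apply_le _ _

theorem norm_le (x x' : E (d + 1)) :
    ‖x - x'‖ ≤ |x i - x' i| + Real.sqrt d * dist (pj i x) (pj i x') := by
  have h0 : 0 ≤ |x i - x' i| + Real.sqrt d * dist (pj i x) (pj i x') := by positivity
  refine le_of_sq_le_sq ?_ h0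
  rw [norm_sq i]
  have h1 : ∑ j : Fin d, (x - x') (i.succAbove j) ^ 2 ≤ d * dist (pj i x) (pj i x') ^ 2 := by
    calc ∑ j : Fin d, (x - x') (i.succAbove j) ^ 2
        ≤ ∑ _j : Fin d, dist (pj i x) (pj i x') ^ 2 := by
          refine Finset.sum_le_sum fun j _ => ?_
          rw [← sq_abs]
          refine pow_le_pow_left₀ (abs_nonneg _) ?_ 2
          have := dist_le_pi_dist (pj i x) (pj i x') j
          rw [Real.dist_eq] at this
          rw [PiLp.sub_apply]
          exact this
      _ = _ := by simp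
  have h2 : (x - x') i = x i - x' i := by rw [PiLp.sub_apply]
  rw [h2]
  have h3 : Real.sqrt d ^ 2 = d := Real.sq_sqrt (by positivity)
  have h4 : 0 ≤ |x i - x' i| * (Real.sqrt d * dist (pj i x) (pj i x')) := by positivity
  calc (x i - x' i) ^ 2 + ∑ j : Fin d, (x - x') (i.succAbove j) ^ 2
      ≤ |x i - x' i| ^ 2 + d * dist (pj i x) (pj i x') ^ 2 := by rw [sq_abs]; linarith
    _ ≤ (|x i - x' i| + Real.sqrt d * dist (pj i x) (pj i x')) ^ 2 := by
        have h5 : (|x i - x' i| + Real.sqrt d * dist (pj i x) (pj i x')) ^ 2 =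
          |x i - x' i| ^ 2 + Real.sqrt d ^ 2 * dist (pj i x) (pj i x') ^ 2 +
            2 * (|x i - x' i| * (Real.sqrt d * dist (pj i x) (pj i x'))) := by ring
        rw [h5, h3]; linarith

theorem ins_line (s : ℝ) (y : Fin d → ℝ) : ins i s y = ins i 0 y + s • bs i := by
  ext j
  rcases Fin.eq_self_or_eq_succAbove i j with rfl | ⟨j, rfl⟩
  · rw [PiLp.add_apply, ins_i, ins_i]; simp
  · rw [PiLp.add_apply, ins_succ, ins_succ]
    have : (i.succAbove j) ≠ i := Fin.succAbove_ne i j
    simp [this]

theorem line {F φ : E (d + 1) → ℝ} {p : E (d + 1)} {R L : ℝ} (G : Geo F φ p R L i)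
    {s s' : ℝ} {y : Fin d → ℝ} (h : ins i s y ∈ ball p R) (h' : ins i s' y ∈ ball p R) :
    |s - s'| ≤ L * |F (ins i s y) - F (ins i s' y)| := by
  have hL : 0 < L := lt_of_lt_of_le one_pos G.hL
  have key : ∀ s s' : ℝ, s < s' → ins i s y ∈ ball p R → ins i s' y ∈ ball p R →
      |s - s'| ≤ L * |F (ins i s y) - F (ins i s' y)| := by
    intro s s' hs h h'
    have hd : ∀ u : ℝ, HasDerivAt (fun u => F (ins i u y)) (fderiv ℝ F (ins i u y) (bs i)) u := by
      intro u
      have h1 : HasDerivAt (fun u : ℝ => ins i u y) (bs i) u := by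
        have e : (fun u : ℝ => ins i u y) = fun u => ins i 0 y + u • bs i :=
          funext fun u => ins_line i u y
        rw [e]
        simpa using ((hasDerivAt_id u).smul_const (bs i)).const_add (ins i 0 y)
      have h2 : HasFDerivAt F (fderiv ℝ F (ins i u y)) (ins i u y) :=
        ((G.cF.differentiable (by norm_num)) _).hasFDerivAt
      exact h2.comp_hasDerivAt u h1
    obtain ⟨c, hc, he⟩ := exists_hasDerivAt_eq_slope (fun u => F (ins i u y))
      (fun u => fderiv ℝ F (ins i u y) (bs i)) hs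
      (fun u _ => (hd u).continuousAt.continuousWithinAt) (fun u _ => hd u)
    have hcb : ins i c y ∈ ball p R := by
      have hseg : ins i c y ∈ segment ℝ (ins i s y) (ins i s' y) := by
        refine ⟨(s' - c) / (s' - s), (c - s) / (s' - s), ?_, ?_, ?_, ?_⟩
        · exact div_nonneg (by linarith [hc.2]) (by linarith)
        · exact div_nonneg (by linarith [hc.1]) (by linarith)
        · rw [← add_div]
          have : s' - c + (c - s) = s' - s := by ring
          rw [this, div_self (by linarith)]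
        · rw [ins_line i s, ins_line i s', ins_line i c]
          have hne : s' - s ≠ 0 := by linarith
          have e1 : (s' - c) / (s' - s) + (c - s) / (s' - s) = 1 := by field_simp; ring
          have e2 : (s' - c) / (s' - s) * s + (c - s) / (s' - s) * s' = c := by
            field_simp; ring
          rw [smul_add, smul_add, smul_smul, smul_smul]
          calc _ = ((s' - c) / (s' - s) + (c - s) / (s' - s)) • ins i 0 y +
              ((s' - c) / (s' - s) * s + (c - s) / (s' - s) * s') • bs i := by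
                rw [add_smul, add_smul]; abel
            _ = _ := by rw [e1, e2, one_smul]
      exact (convex_ball p R).segment_subset h h' hseg
    have h5 := G.di _ hcb
    have h6 : s' - s > 0 := by linarith
    rw [he] at h5
    rw [abs_div, abs_of_pos h6] at h5
    rw [abs_sub_comm s s', abs_of_pos h6, abs_sub_comm (F (ins i s y))]
    have h7 : L * (|F (ins i s' y) - F (ins i s y)| / (s' - s)) =
      (L * |F (ins i s' y) - F (ins i s y)|) / (s' - s) := by ring
    rw [h7, le_div_iff₀ h6, one_mul] at h5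
    exact h5
  rcases lt_trichotomy s s' with h1 | h1 | h1
  · exact key s s' h1 h h'
  · subst h1; simp
  · rw [abs_sub_comm, abs_sub_comm (F (ins i s y))]
    exact key s' s h1 h' h

theorem layer {F φ : E (d + 1) → ℝ} {p : E (d + 1)} {R L : ℝ} (G : Geo F φ p R L i)
    {r h : ℝ} (hr : 0 < r) (hrR : r ≤ R) (hh : 0 < h) :
    volume {x | x ∈ ball p r ∧ |F x| < h} ≤ ENNReal.ofReal (2 * L * h * (2 * r) ^ d) := by
  have hL : 0 < L := lt_of_lt_of_le one_pos G.hL
  set A : Set (E (d + 1)) := {x | x ∈ ball p r ∧ |F x| < h} with hA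
  have hAm : MeasurableSet A := by
    refine (isOpen_ball.inter ?_).measurableSet
    exact isOpen_lt (G.cF.continuous.abs) continuous_const
  have h1 : volume A = ∫⁻ y : Fin d → ℝ, ∫⁻ s : ℝ, A.indicator 1 (ins i s y) := by
    rw [← lint i _ (measurable_one.indicator hAm), lintegral_indicator_one hAm]
  rw [h1]
  have h2 : ∀ y : Fin d → ℝ, ∫⁻ s : ℝ, A.indicator 1 (ins i s y) ≤
      (closedBall (pj i p) r).indicator (fun _ => ENNReal.ofReal (2 * L * h)) y := by
    intro y
    have e : (fun s : ℝ => A.indicator (1 : E (d + 1) → ℝ≥0∞) (ins i s y)) =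
        ({s : ℝ | ins i s y ∈ A}).indicator 1 := by
      funext s
      simp [Set.indicator]
    have hm : MeasurableSet {s : ℝ | ins i s y ∈ A} := by
      have hc : Continuous fun s : ℝ => ins i s y := by
        have e : (fun u : ℝ => ins i u y) = fun u => ins i 0 y + u • bs i :=
          funext fun u => ins_line i u y
        rw [e]; fun_prop
      exact hAm.preimage hc.measurable
    rw [e, lintegral_indicator_one hm]
    by_cases hy : y ∈ closedBall (pj i p) r
    · rw [Set.indicator_of_mem hy]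
      refine (Real.volume_le_diam _).trans ?_
      refine ediam_le fun s hs s' hs' => ?_
      rw [edist_dist, Real.dist_eq]
      refine ENNReal.ofReal_le_ofReal ?_
      have h3 := line i G (ball_subset_ball hrR hs.1) (ball_subset_ball hrR hs'.1)
      refine h3.trans ?_
      have h4 : |F (ins i s y) - F (ins i s' y)| ≤ 2 * h := by
        have a1 : |F (ins i s y)| < h := hs.2
        have a2 : |F (ins i s' y)| < h := hs'.2
        rw [abs_lt] at a1 a2
        rw [abs_le]; constructor <;> linarith [a1.1, a1.2, a2.1, a2.2]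
      nlinarith
    · rw [Set.indicator_of_notMem hy]
      have : {s : ℝ | ins i s y ∈ A} = ∅ := by
        ext s
        simp only [mem_ofPred_eq, mem_empty_iff_false, iff_false]
        intro hs
        apply hy
        rw [mem_closedBall]
        have h5 := dist_pj i (ins i s y) p
        rw [pj_ins] at h5
        have h6 : ‖ins i s y - p‖ < r := by
          have := hs.1
          rwa [mem_ball, dist_eq_norm] at this
        linarith
      rw [this]; simp
  refine (lintegral_mono h2).trans ?_
  rw [lintegral_indicator_const measurableSet_closedBall, Real.volume_pi_closedBall _ hr.le,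
    ← ENNReal.ofReal_mul (by positivity)]
  simp

end FUB_

open FUB_ in
theorem fub_proof (hGEF : Stmt_GEF) : Stmt_FUB := by
  intro d i
  refine ⟨lint i, ins_eq i, fun s s' y => ⟨pj_ins i s y, ins_i i s y, norm_ins i s s' y⟩,
    fun x x' => ⟨dist_pj i x x', norm_le i x x'⟩, ?_⟩
  intro F φ p R L G
  have hL : 0 < L := lt_of_lt_of_le one_pos G.hL
  refine ⟨fun s s' y h h' => line i G h h', ?_, fun r h hr hrR hh => layer i G hr hrR hh, ?_⟩
  · have h1 : ∀ h : ℝ, 0 < h → volume {x | x ∈ ball p R ∧ F x = 0} ≤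
        ENNReal.ofReal (2 * L * h * (2 * R) ^ d) := by
      intro h hh
      refine (measure_mono ?_).trans (layer i G G.hR le_rfl hh)
      rintro x ⟨hx, hx0⟩
      exact ⟨hx, by rw [hx0, abs_zero]; exact hh⟩
    have h2 : Tendsto (fun h : ℝ => ENNReal.ofReal (2 * L * h * (2 * R) ^ d)) (𝓝[>] 0)
        (𝓝 0) := by
      have h3 : Tendsto (fun h : ℝ => ENNReal.ofReal (2 * L * h * (2 * R) ^ d)) (𝓝 0)
          (𝓝 (ENNReal.ofReal (2 * L * 0 * (2 * R) ^ d))) := by
        refine ENNReal.tendsto_ofReal ?_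
        have : Continuous fun h : ℝ => 2 * L * h * (2 * R) ^ d := by fun_prop
        exact this.tendsto 0
      rw [mul_zero, zero_mul, ENNReal.ofReal_zero] at h3
      exact h3.mono_left nhdsWithin_le_nhds
    have h4 : ∀ᶠ h : ℝ in 𝓝[>] 0, volume {x | x ∈ ball p R ∧ F x = 0} ≤
        ENNReal.ofReal (2 * L * h * (2 * R) ^ d) := by
      filter_upwards [self_mem_nhdsWithin] with h hh
      exact h1 h hh
    exact le_antisymm (ge_of_tendsto h2 h4) zero_le
  · intro x hx hx0
    obtain ⟨_, _, hG2, _⟩ := hGEF (d + 1) F φ p R L i G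
    set D := dist (pj i x) (pj i p) with hD
    set σ := x i - p i with hσ
    have hp0 : p = ins i (p i) (pj i p) := (ins_eq i p).symm
    set z := ins i (x i) (pj i p) with hz
    have hxp : ‖x - p‖ < R := by rwa [mem_ball, dist_eq_norm] at hx
    have hzp : ‖z - p‖ = |σ| := by
      conv_lhs => rw [hp0]
      rw [hz, norm_ins]
    have hσx : |σ| ≤ ‖x - p‖ := by
      have := PiLp.norm_apply_le (x - p) i
      rw [PiLp.sub_apply, Real.norm_eq_abs] at this
      exact this
    have hzb : z ∈ ball p R := by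
      rw [mem_ball, dist_eq_norm, hzp]; linarith
    have hpb : p ∈ ball p R := mem_ball_self G.hR
    have h1 : |σ| ≤ L * |F z - F p| := by
      have hpb' : ins i (p i) (pj i p) ∈ ball p R := by rw [← hp0]; exact hpb
      have := line i G hzb hpb'
      rwa [← hp0] at this
    have h2 := (hG2 z hzb x hx).2
    rw [hx0] at h2
    rw [G.Fp] at h1
    have h3 : ‖z - x‖ ≤ Real.sqrt d * D := by
      have := norm_le i z x
      have e1 : z i = x i := by rw [hz, ins_i]
      have e2 : pj i z = pj i p := by rw [hz, pj_ins]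
      rw [e1, e2, sub_self, abs_zero, zero_add, dist_comm] at this
      exact this
    have h4 : Real.sqrt d ≤ d + 1 := by
      have : (d : ℝ) ≤ (d + 1) ^ 2 := by nlinarith [Nat.cast_nonneg (α := ℝ) d]
      calc Real.sqrt d ≤ Real.sqrt ((d + 1) ^ 2) := Real.sqrt_le_sqrt this
        _ = d + 1 := Real.sqrt_sq (by positivity)
    have hD0 : 0 ≤ D := dist_nonneg
    have h5 : ‖z - x‖ ≤ (d + 1) * D := h3.trans (mul_le_mul_of_nonneg_right h4 hD0)
    have h6 : |σ| ≤ L * (1001 / 1000 * ‖z - x‖) := h1.trans (mul_le_mul_of_nonneg_left h2 hL.le)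
    have h7 : ‖x - p‖ ≤ ‖z - x‖ + |σ| := by
      have : x - p = -(z - x) + (z - p) := by abel
      rw [this, ← hzp]
      refine (norm_add_le _ _).trans ?_
      rw [norm_neg]
    have h8 : 0 ≤ ‖z - x‖ := norm_nonneg _
    have h9 : 1 ≤ L := G.hL
    calc ‖x - p‖ ≤ ‖z - x‖ + L * (1001 / 1000 * ‖z - x‖) := by linarith
      _ ≤ L * ‖z - x‖ + L * (1001 / 1000 * ‖z - x‖) := by nlinarith
      _ ≤ 4 * L * ‖z - x‖ := by nlinarith [mul_nonneg hL.le h8]
      _ ≤ 4 * L * ((d + 1) * D) := mul_le_mul_of_nonneg_left h5 (by positivity)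
      _ = 4 * L * (d + 1) * D := by ring

end Pool.Agent.COB
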