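import Pool.Agent.COB.Stmts

set_option autoImplicit false

namespace Pool.Agent.COB

open MeasureTheory Set Metric Filter Topology

namespace GEF_

variable {m : ℕ}

theorem inner_grad (F : E m → ℝ) (x v : E m) : inner ℝ (gradient F x) v = fderiv ℝ F x v := by
  unfold gradient
  rw [InnerProductSpace.toDual_symm_apply]

/-- mean value inequality for `F - ⟨N, ·⟩` -/
theorem mvt {F : E m → ℝ} (hF : ContDiff ℝ 2 F) (N : E m) {S : Set (E m)} (hS : Convex ℝ S)
    (C : ℝ) (h : ∀ z ∈ S, ‖gradient F z - N‖ ≤ C) {x y : E m} (hx : x ∈ S) (hy : y ∈ S) :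
    |F x - F y - inner ℝ N (x - y)| ≤ C * ‖x - y‖ := by
  have hd : Differentiable ℝ F := hF.differentiable (by norm_num)
  have h1 : ∀ z ∈ S, HasFDerivWithinAt (fun z => F z - innerSL ℝ N z)
      (fderiv ℝ F z - innerSL ℝ N) S z := by
    intro z _
    exact ((hd z).hasFDerivAt.sub (innerSL ℝ N).hasFDerivAt).hasFDerivWithinAt
  have h2 : ∀ z ∈ S, ‖fderiv ℝ F z - innerSL ℝ N‖ ≤ C := by
    intro z hz
    refine le_trans ?_ (h z hz)
    refine ContinuousLinearMap.opNorm_le_bound _ (norm_nonneg _) fun v => ?_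
    have e : (fderiv ℝ F z - innerSL ℝ N) v = inner ℝ (gradient F z - N) v := by
      rw [inner_sub_left, inner_grad]; rfl
    rw [e]
    exact norm_inner_le_norm _ _
  have h3 := hS.norm_image_sub_le_of_norm_hasFDerivWithin_le h1 h2 hy hx
  have e : F x - innerSL ℝ N x - (F y - innerSL ℝ N y) = F x - F y - inner ℝ N (x - y) := by
    rw [inner_sub_right]
    show F x - inner ℝ N x - (F y - inner ℝ N y) = _
    ring
  rw [← e]
  exact h3

end GEF_

open GEF_

theorem gef_proof : Stmt_GEF := by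
  intro m F φ p R L i g
  have hm : (1 : ℝ) ≤ m := by
    have : 0 < m := i.pos
    exact_mod_cast this
  have hR := g.hR
  have hL := g.hL
  have hLR : L * R ≤ 1 / 1000 := by
    have h1 : 0 < L * R := by positivity
    have h2 := g.sm
    nlinarith
  have hR1 : R ≤ 1 / 1000 := by nlinarith
  set N := gradient F p with hN
  have hN1 : ‖N‖ = 1 := g.gp
  have hgl : ∀ x ∈ ball p R, ‖gradient F x - N‖ ≤ 1 / 1000 := by
    intro x hx
    refine (g.gl x hx).trans ?_
    rw [mem_ball, dist_eq_norm] at hx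
    have : L * ‖x - p‖ ≤ L * R := mul_le_mul_of_nonneg_left hx.le (by linarith)
    linarith
  have hpb : p ∈ ball p R := mem_ball_self hR
  have hmv : ∀ x ∈ ball p R, ∀ y ∈ ball p R,
      |F x - F y - inner ℝ N (x - y)| ≤ 1 / 1000 * ‖x - y‖ := fun x hx y hy =>
    mvt g.cF N (convex_ball p R) (1 / 1000) hgl hx hy
  have hlip : ∀ x ∈ ball p R, ∀ y ∈ ball p R, |F x - F y| ≤ 1001 / 1000 * ‖x - y‖ := by
    intro x hx y hy
    have h1 := hmv x hx y hy
    have h2 : |inner ℝ N (x - y)| ≤ ‖x - y‖ := by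
      have := abs_real_inner_le_norm N (x - y)
      rwa [hN1, one_mul] at this
    rw [abs_le] at h1 h2 ⊢
    constructor <;> linarith [h1.1, h1.2, h2.1, h2.2]
  have hquad : ∀ x ∈ ball p R, |F x - inner ℝ N (x - p)| ≤ L * ‖x - p‖ ^ 2 := by
    intro x hx
    have hx' := hx
    rw [mem_ball, dist_eq_norm] at hx'
    have h1 := mvt g.cF N (convex_closedBall p ‖x - p‖) (L * ‖x - p‖) (fun z hz => by
      rw [mem_closedBall, dist_eq_norm] at hz
      refine (g.gl z (by rw [mem_ball, dist_eq_norm]; linarith)).trans ?_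
      exact mul_le_mul_of_nonneg_left hz (by linarith)) (x := x) (y := p)
      (by rw [mem_closedBall, dist_eq_norm]) (mem_closedBall_self (norm_nonneg _))
    rw [g.Fp, sub_zero] at h1
    refine h1.trans (le_of_eq ?_)
    ring
  have hup : ∀ x ∈ ball p R, ∀ s : ℝ, 0 ≤ s → x + s • N ∈ ball p R →
      F x + 999 / 1000 * s ≤ F (x + s • N) := by
    intro x hx s hs hxs
    have h1 := hmv _ hxs x hx
    have e1 : x + s • N - x = s • N := by abel
    rw [e1, norm_smul, hN1, mul_one, Real.norm_of_nonneg hs, real_inner_smul_right,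
      real_inner_self_eq_norm_sq, hN1] at h1
    rw [abs_le] at h1
    linarith [h1.1]
  refine ⟨hR1, ?_, fun x hx y hy => ⟨hmv x hx y hy, hlip x hx y hy⟩, ?_, hup, ?_⟩
  · intro x hx
    have h1 := hgl x hx
    have h2 : ‖gradient F x‖ ≤ ‖gradient F x - N‖ + ‖N‖ := by
      have := norm_add_le (gradient F x - N) N
      rwa [sub_add_cancel] at this
    have h3 : ‖N‖ ≤ ‖gradient F x - N‖ + ‖gradient F x‖ := by
      have := norm_sub_le (gradient F x) (gradient F x - N)
      rw [sub_sub_cancel] at this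
      linarith
    rw [hN1] at h2 h3
    refine ⟨h1, by linarith, by linarith, ?_⟩
    intro h0
    have h4 : gradient F x = 0 := by
      unfold gradient
      rw [h0, map_zero]
    rw [h4] at h1 h3
    rw [norm_zero] at h3
    linarith
  · intro x hx
    have h1 := hlip x hx p hpb
    rw [g.Fp, sub_zero] at h1
    have h2 := hquad x hx
    refine ⟨h1, h2, ?_⟩
    have h3 : |inner ℝ (gradient F x - N) (x - p)| ≤ L * ‖x - p‖ * ‖x - p‖ :=
      (abs_real_inner_le_norm _ _).trans
        (mul_le_mul_of_nonneg_right (g.gl x hx) (norm_nonneg _))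
    rw [inner_sub_left] at h3
    rw [abs_le] at h2 h3 ⊢
    constructor <;> nlinarith [h2.1, h2.2, h3.1, h3.2]
  · intro r hr hrR
    have h1 : p + r • N ∈ ball p R := by
      rw [mem_ball, dist_eq_norm, add_sub_cancel_left, norm_smul, hN1, mul_one,
        Real.norm_of_nonneg hr.le]
      exact hrR
    have h2 := hup p hpb r hr.le h1
    rw [g.Fp, zero_add] at h2
    have h3 : 999 / 1000 * r ≤ F (pN F p r) := h2
    refine ⟨⟨h1, ?_⟩, h3⟩
    show 0 < F (pN F p r)
    linarith

end Pool.Agent.COB
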