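import Pool.Agent.COB.Stmts

set_option autoImplicit false

namespace Pool.Agent.COB

open MeasureTheory Set Metric Filter Topology
open scoped ENNReal

namespace GL1_

/-- `Sd` is open -/
theorem isOpen_Sd {m : ℕ} {F : E m → ℝ} {B : Set (E m)} (hF : Continuous F) (hB : IsOpen B) :
    IsOpen (Sd F B) := by
  have : Sd F B = B ∩ F ⁻¹' (Ioi 0) := by
    ext x; simp [Sd]
  rw [this]
  exact hB.inter (isOpen_Ioi.preimage hF)

end GL1_

open GL1_ in
theorem gl1_proof (hH0L : Stmt_H0L) (hHF2 : Stmt_HF2) (hKF2 : Stmt_KF2) (hHSC : Stmt_HSC)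
    (hGEF : Stmt_GEF) (hTBA : Stmt_TBA) (hTPT : Stmt_TPT) (hJBM : Stmt_JBM) (hLPC : Stmt_LPC) :
    Stmt_GL1 := by
  intro m hm
  obtain ⟨⟨C1, hC1, h1⟩, τ, hτ, c, hc, h2⟩ := hKF2 m hm
  obtain ⟨C', hC', h3⟩ := hHSC m τ hm hτ
  set V1 : ℝ := volume.real (ball (0 : E m) 1) with hV1
  have hV1n : 0 ≤ V1 := measureReal_nonneg
  have hC'0 : 0 < C' := lt_of_lt_of_le one_pos hC'
  refine ⟨(C1 + c) * C' / c * 2 ^ m * V1 + 1, by positivity, τ / 100, by positivity, ?_⟩
  intro F φ p R L i G dG hgeo hG hdG hGc hGn r hr hrR hLr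
  have hB : IsOpen (ball p R) := isOpen_ball
  have hR : 0 < R := hgeo.hR
  have hFc : Continuous F := hgeo.cF.continuous
  have hgef := hGEF m F φ p R L i hgeo
  have hne : ∀ x ∈ ball p R, F x = 0 → fderiv ℝ F x ≠ 0 := fun x hx _ => (hgef.2.1 x hx).2.2.2
  set b : E m → ℝ := bmp (2 * r) p with hb
  have h2r : 0 < 2 * r := by positivity
  obtain ⟨hJ, -, hb2, hb01, hb0, -, hbg, hbl⟩ := hJBM m p (2 * r) h2r
  have hsub2 : ball p (2 * r) ⊆ ball p R := ball_subset_ball (by linarith)
  have hsub1 : ball p r ⊆ ball p (2 * r) := ball_subset_ball (by linarith)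
  have hsupp : tsupport b ⊆ closedBall p (2 * r) := by
    refine closure_minimal ?_ isClosed_closedBall
    intro x hx
    by_contra hcon
    apply hx
    apply hb0
    rw [mem_closedBall, dist_eq_norm] at hcon
    exact (not_le.1 hcon).le
  have hcB : closedBall p (2 * r) ⊆ ball p R := closedBall_subset_ball (by linarith)
  have hbcs : HasCompactSupport b :=
    (isCompact_closedBall p (2 * r)).of_isClosed_subset (isClosed_tsupport _) hsupp
  have hbts : tsupport b ⊆ ball p R := hsupp.trans hcB
  set ξ : E m → ℝ := fun y => F y ^ 2 * b y with hξ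
  have hξ2 : ContDiff ℝ 2 ξ := (hgeo.cF.pow 2).mul hb2
  have hξts : tsupport ξ ⊆ tsupport b := by
    apply closure_mono
    intro x hx
    simp only [hξ, Function.mem_support, ne_eq, mul_eq_zero, not_or] at hx
    exact hx.2
  have hξcs : HasCompactSupport ξ := hbcs.of_isClosed_subset (isClosed_tsupport _) hξts
  have hTB : TB (ball p R) ξ (gradient ξ) :=
    (hTBA m (ball p R) F hB hFc).2.2.2.2.2.2.2.1 ξ (hξ2.of_le (by norm_num)) hξcs
      (hξts.trans hbts)
  have hPT : PT F (ball p R) ξ (gradient ξ) :=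
    ((hTPT m (ball p R) F hB hgeo.cF hne).2.1 ξ _ hTB).1
  have hz := hH0L m (ball p R) F G ξ dG (gradient ξ) hB hFc hG hdG hPT
    (fun x _ hx => by simp [hξ, hx])
  have hopen : IsOpen (Sd F (ball p R)) := isOpen_Sd hFc hB
  have hScSd : Sd F (ball p R) ⊆ Sc F (ball p R) := fun x hx => ⟨hx.1, hx.2.le⟩
  obtain ⟨-, hint, heq⟩ := hHF2 m (ball p R) F G b dG hB hgeo.cF hGc hG.1 hdG hb2 hbcs hbts
  rw [hz] at heq
  have hlp0 : ∀ x, 2 * r ≤ ‖x - p‖ → lp ξ x = 0 := by
    intro x hx
    have hle : 1 - ‖x - p‖ ^ 2 / (2 * r) ^ 2 ≤ 0 := by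
      have : (1 : ℝ) ≤ ‖x - p‖ ^ 2 / (2 * r) ^ 2 := by
        rw [le_div_iff₀ (by positivity)]
        nlinarith
      linarith
    have hmax : max 0 (1 - ‖x - p‖ ^ 2 / (2 * r) ^ 2) = 0 := max_eq_left hle
    have e := ((hLPC m).2.1 (fun y => F y ^ 2) b (hgeo.cF.pow 2) hb2 x).2.2.2
    have hbx : b x = 0 := hb0 x hx
    have hgx : gradient b x = 0 := by rw [hb, hbg x, hmax]; simp
    have hlx : lp b x = 0 := by rw [hb, hbl x, hmax]; simp
    rw [hξ, e, hbx, hgx, hlx]
    simp
  set Gp : ℝ := G (pN F p r) with hGp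
  have hGp0 : 0 ≤ Gp := hGn _ (hScSd (hgef.2.2.2.2.2 r hr (by linarith)).1)
  set K : ℝ := (C1 + c) * C' * Gp with hK
  have hK0 : 0 ≤ K := by positivity
  set h : E m → ℝ := fun x => G x * lp ξ x + (ball p (2 * r)).indicator (fun _ => K) x with hh
  have hsc : ∀ x ∈ ball p (4 * r), τ * r ≤ F x → G x ≤ C' * Gp := fun x hx hx' =>
    (h3 F φ p R L i G dG hgeo hG (fun y hy => hGn y (hScSd hy)) r hr (by linarith)
      (by linarith) x hx hx').1
  have key : ∀ x ∈ Sd F (ball p R), 0 ≤ h x ∧ (x ∈ ball p r → c * G x ≤ h x) := by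
    intro x hx
    have hGx : 0 ≤ G x := hGn x (hScSd hx)
    by_cases hx2 : x ∈ ball p (2 * r)
    · have hind : (ball p (2 * r)).indicator (fun _ => K) x = K := indicator_of_mem hx2 _
      by_cases hFx : F x ≤ τ * r
      · have habs : |F x| ≤ τ * r := by
          rw [abs_of_pos hx.2]; exact hFx
        obtain ⟨k1, k2⟩ := h2 F φ p R L i hgeo r hr (by linarith) x hx2 habs
        refine ⟨?_, fun hxr => ?_⟩
        · simp only [hh, hind]
          have := mul_nonneg hGx k1
          exact add_nonneg this hK0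
        · have hn : ‖x - p‖ < r := by rwa [mem_ball, dist_eq_norm] at hxr
          have := k2 hn
          simp only [hh, hind]
          have h4 : c * G x ≤ G x * lp ξ x := by
            rw [mul_comm c]
            exact mul_le_mul_of_nonneg_left this hGx
          linarith
      · have hFx' : τ * r ≤ F x := (not_le.1 hFx).le
        have hx4 : x ∈ ball p (4 * r) := ball_subset_ball (by linarith) hx2
        have k3 := hsc x hx4 hFx'
        have k4 := (h1 F φ p R L i hgeo (2 * r) h2r (by linarith) x hx2).2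
        have k5 : -(C1 * (C' * Gp)) ≤ G x * lp ξ x := by
          have : |G x * lp ξ x| ≤ (C' * Gp) * C1 := by
            rw [abs_mul, abs_of_nonneg hGx]
            exact mul_le_mul k3 k4 (abs_nonneg _) (by positivity)
          have := neg_le_of_abs_le this
          linarith
        have k6 : c * G x ≤ c * (C' * Gp) := mul_le_mul_of_nonneg_left k3 hc.le
        have k7 : c * G x ≤ h x := by
          simp only [hh, hind, hK]
          nlinarith
        exact ⟨le_trans (by positivity) k7, fun _ => k7⟩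
    · have hn : 2 * r ≤ ‖x - p‖ := by
        rw [mem_ball, dist_eq_norm, not_lt] at hx2
        exact hx2
      have hind : (ball p (2 * r)).indicator (fun _ => K) x = 0 := indicator_of_notMem hx2 _
      refine ⟨?_, fun hxr => absurd (hsub1 hxr) hx2⟩
      simp [hh, hind, hlp0 x hn]
  have hKint : Integrable ((ball p (2 * r)).indicator (fun _ : E m => K)) :=
    (integrable_indicator_iff measurableSet_ball).2
      (integrableOn_const (measure_ball_lt_top).ne)
  have hhint : IntegrableOn h (Sd F (ball p R)) := hint.add hKint.integrableOn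
  have hSdr : Sd F (ball p r) ⊆ Sd F (ball p R) := fun x hx => ⟨hsub2 (hsub1 hx.1), hx.2⟩
  have hopenr : IsOpen (Sd F (ball p r)) := isOpen_Sd hFc isOpen_ball
  have hGm : AEStronglyMeasurable G (volume.restrict (Sd F (ball p r))) :=
    ((hGc.mono (hSdr.trans hScSd)).aestronglyMeasurable hopenr.measurableSet)
  have hGint : IntegrableOn G (Sd F (ball p r)) := by
    have hbd : IntegrableOn (fun x => c⁻¹ * h x) (Sd F (ball p r)) :=
      (hhint.mono_set hSdr).const_mul _
    refine Integrable.mono' hbd hGm ?_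
    refine (ae_restrict_iff' hopenr.measurableSet).2 (Eventually.of_forall fun x hx => ?_)
    have hx' := hSdr hx
    rw [Real.norm_of_nonneg (hGn x (hScSd hx'))]
    have := (key x hx').2 hx.1
    rw [le_inv_mul_iff₀ hc]
    exact this
  refine ⟨hGint, ?_⟩
  have e1 : ∫ x in Sd F (ball p r), c * G x ≤ ∫ x in Sd F (ball p r), h x := by
    refine setIntegral_mono_on (hGint.const_mul c) (hhint.mono_set hSdr) hopenr.measurableSet ?_
    intro x hx
    exact (key x (hSdr hx)).2 hx.1
  have e2 : ∫ x in Sd F (ball p r), h x ≤ ∫ x in Sd F (ball p R), h x := by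
    refine setIntegral_mono_set hhint ?_ (HasSubset.Subset.eventuallyLE hSdr)
    exact (ae_restrict_iff' hopen.measurableSet).2
      (Eventually.of_forall fun x hx => (key x hx).1)
  have e3 : ∫ x in Sd F (ball p R), h x =
      ∫ x in Sd F (ball p R), (ball p (2 * r)).indicator (fun _ => K) x := by
    have : ∫ x in Sd F (ball p R), G x * lp ξ x = 0 := by
      have := heq
      simp only [← hξ] at this
      linarith
    rw [hh]
    rw [integral_add hint hKint.integrableOn, this, zero_add]
  have e4 : ∫ x in Sd F (ball p R), (ball p (2 * r)).indicator (fun _ => K) x ≤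
      K * ((2 * r) ^ m * V1) := by
    calc ∫ x in Sd F (ball p R), (ball p (2 * r)).indicator (fun _ => K) x
        ≤ ∫ x, (ball p (2 * r)).indicator (fun _ => K) x := by
          refine setIntegral_le_integral hKint (Eventually.of_forall fun x => ?_)
          exact indicator_nonneg (fun _ _ => hK0) x
      _ = K * ((2 * r) ^ m * V1) := by
          rw [integral_indicator measurableSet_ball, setIntegral_const, smul_eq_mul, mul_comm]
          congr 1
          rw [hV1, measureReal_def, measureReal_def, Measure.addHaar_ball_of_pos _ _ h2r,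
            ENNReal.toReal_mul, ENNReal.toReal_ofReal (by positivity)]
          simp
  rw [integral_const_mul] at e1
  have e5 : c * ∫ x in Sd F (ball p r), G x ≤ K * ((2 * r) ^ m * V1) := by
    linarith
  have e6 : ∫ x in Sd F (ball p r), G x ≤ K * ((2 * r) ^ m * V1) / c := by
    rw [le_div_iff₀ hc]; linarith
  have e7 : K * ((2 * r) ^ m * V1) / c =
      ((C1 + c) * C' / c * 2 ^ m * V1) * r ^ m * Gp := by
    rw [hK, mul_pow]; field_simp
  have e8 : 0 ≤ r ^ m * Gp := by positivity
  calc ∫ x in Sd F (ball p r), G x ≤ _ := e6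
    _ = ((C1 + c) * C' / c * 2 ^ m * V1) * r ^ m * Gp := e7
    _ ≤ ((C1 + c) * C' / c * 2 ^ m * V1 + 1) * r ^ m * Gp := by nlinarith

end Pool.Agent.COB
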