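import Pool.Agent.COB.Stmts

set_option autoImplicit false

namespace Pool.Agent.COB

open MeasureTheory Set Metric Filter Topology

namespace GLH_

theorem cont_glue {X : Type*} [TopologicalSpace X] {F U : X → ℝ} {B : Set X}
    (hF : Continuous F)
    (h1 : ContinuousOn U {x | x ∈ B ∧ 0 ≤ F x}) (h2 : ContinuousOn U {x | x ∈ B ∧ F x ≤ 0}) :
    ContinuousOn U B := by
  have hB : B = {x | x ∈ B ∧ 0 ≤ F x} ∪ {x | x ∈ B ∧ F x ≤ 0} := by
    ext x
    constructor
    · intro hx
      rcases le_total 0 (F x) with h | h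
      · exact Or.inl ⟨hx, h⟩
      · exact Or.inr ⟨hx, h⟩
    · rintro (h | h) <;> exact h.1
  rw [hB]
  intro x hx
  have hxB : x ∈ B := by rw [hB]; exact hx
  rw [continuousWithinAt_union]
  constructor
  · by_cases hx1 : 0 ≤ F x
    · exact h1 x ⟨hxB, hx1⟩
    · have hbot : 𝓝[{x | x ∈ B ∧ 0 ≤ F x}] x = ⊥ := by
        rw [← Filter.not_neBot, ← mem_closure_iff_nhdsWithin_neBot]
        intro h
        have hcl : closure {x | x ∈ B ∧ 0 ≤ F x} ⊆ {x | 0 ≤ F x} :=
          closure_minimal (fun y hy => hy.2) (isClosed_le continuous_const hF)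
        exact hx1 (hcl h)
      unfold ContinuousWithinAt
      rw [hbot]; exact tendsto_bot
  · by_cases hx1 : F x ≤ 0
    · exact h2 x ⟨hxB, hx1⟩
    · have hbot : 𝓝[{x | x ∈ B ∧ F x ≤ 0}] x = ⊥ := by
        rw [← Filter.not_neBot, ← mem_closure_iff_nhdsWithin_neBot]
        intro h
        have hcl : closure {x | x ∈ B ∧ F x ≤ 0} ⊆ {x | F x ≤ 0} :=
          closure_minimal (fun y hy => hy.2) (isClosed_le hF continuous_const)
        exact hx1 (hcl h)
      unfold ContinuousWithinAt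
      rw [hbot]; exact tendsto_bot

end GLH_

theorem glh_proof (hWBA : Stmt_WBA) (hWEX : Stmt_WEX) (hWGL : Stmt_WGL) (hTPT : Stmt_TPT)
    (hGEF : Stmt_GEF) (hEUL : Stmt_EUL) : Stmt_GLH := by
  intro m k F φ p R L ρ l v gv w gw i j hG hc hρ hρR hvw
  have hFc : Continuous F := hG.cF.continuous
  have hsub : ball p ρ ⊆ ball p R := ball_subset_ball hρR
  have hdF : ∀ x ∈ ball p ρ, F x = 0 → fderiv ℝ F x ≠ 0 := fun x hx _ =>
    ((hGEF m F φ p R L l hG).2.1 x (hsub hx)).2.2.2
  set U : E m → ℝ := fun x => if 0 ≤ F x then v i x else w j x with hU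
  set g : E m → E m := fun x => if 0 < F x then gv i x else gw j x with hg
  have hB : IsOpen (ball p ρ) := isOpen_ball
  have hcont : ContinuousOn U (ball p ρ) := by
    refine GLH_.cont_glue hFc ?_ ?_
    · refine ((hc.cv i).mono ?_).congr ?_
      · intro x hx; exact ⟨hsub hx.1, hx.2⟩
      · intro x hx; simp only [hU, if_pos hx.2]
    · refine ((hc.cw j).mono ?_).congr ?_
      · intro x hx; exact ⟨hsub hx.1, by have := hx.2; simp only; linarith⟩
      · intro x hx
        by_cases h0 : 0 ≤ F x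
        · have h00 : F x = 0 := le_antisymm hx.2 h0
          simp only [hU, if_pos h0]
          exact hvw x hx.1 h00
        · simp only [hU, if_neg h0]
  have hSo : IsOpen (Sd F (ball p ρ)) := hB.inter (isOpen_lt continuous_const hFc)
  have hSo' : IsOpen (Sd (fun x => -F x) (ball p ρ)) :=
    hB.inter (isOpen_lt continuous_const hFc.neg)
  have hSR : IsOpen (Sd F (ball p R)) := isOpen_ball.inter (isOpen_lt continuous_const hFc)
  have hSR' : IsOpen (Sd (fun x => -F x) (ball p R)) :=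
    isOpen_ball.inter (isOpen_lt continuous_const hFc.neg)
  have hs1 : Sd F (ball p ρ) ⊆ Sd F (ball p R) := fun x hx => ⟨hsub hx.1, hx.2⟩
  have hs2 : Sd (fun x => -F x) (ball p ρ) ⊆ Sd (fun x => -F x) (ball p R) :=
    fun x hx => ⟨hsub hx.1, hx.2⟩
  have g1 : ∀ x ∈ Sd F (ball p ρ), g x = gv i x := fun x hx => by
    simp only [hg, if_pos hx.2]
  have g2 : ∀ x ∈ Sd (fun x => -F x) (ball p ρ), g x = gw j x := fun x hx => by
    have h := hx.2
    have h' : ¬ 0 < F x := by simp only at h; linarith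
    simp only [hg, if_neg h']
  have w1 : HasWG (Sd F (ball p ρ)) U g := by
    refine (hWBA m _ hSo).2.2.2.1 (v i) U (gv i) g
      ((hWBA m _ hSR).1 _ _ _ hSo hs1 (hc.hv i)) ?_ ?_
    · intro x hx; simp only [hU, if_pos hx.2.le]
    · rw [Filter.EventuallyEq, ae_restrict_iff' hSo.measurableSet]
      exact Eventually.of_forall g1
  have w2 : HasWG (Sd (fun x => -F x) (ball p ρ)) U g := by
    refine (hWBA m _ hSo').2.2.2.1 (w j) U (gw j) g
      ((hWBA m _ hSR').1 _ _ _ hSo' hs2 (hc.hw j)) ?_ ?_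
    · intro x hx
      have h := hx.2
      have h' : ¬ 0 ≤ F x := by simp only at h; linarith
      simp only [hU, if_neg h']
    · rw [Filter.EventuallyEq, ae_restrict_iff' hSo'.measurableSet]
      exact Eventually.of_forall g2
  have hdisj : Disjoint (Sd F (ball p ρ)) (Sd (fun x => -F x) (ball p ρ)) := by
    rw [Set.disjoint_left]
    rintro x ⟨-, h1⟩ ⟨-, h2⟩
    simp only at h2; linarith
  have hnull := (hTPT m (ball p ρ) F hB hG.cF hdF).1
  have hae : (Sd F (ball p ρ) ∪ Sd (fun x => -F x) (ball p ρ) : Set (E m)) =ᵐ[volume]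
      ball p ρ := by
    have h1 : ball p ρ \ (Sd F (ball p ρ) ∪ Sd (fun x => -F x) (ball p ρ)) ⊆
        {x | x ∈ ball p ρ ∧ F x = 0} := by
      rintro x ⟨hx, hn⟩
      refine ⟨hx, ?_⟩
      by_contra h0
      rcases lt_or_gt_of_ne h0 with h | h
      · exact hn (Or.inr ⟨hx, by simp only; linarith⟩)
      · exact hn (Or.inl ⟨hx, h⟩)
    refine (union_subset (fun x hx => hx.1) fun x hx => hx.1).eventuallyLE.antisymm ?_
    rw [ae_le_set]
    exact measure_mono_null h1 hnull
  have hgi : IntegrableOn (fun x => ‖g x‖ ^ 2) (ball p ρ) := by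
    rw [← integrableOn_congr_set_ae hae]
    refine IntegrableOn.union ?_ ?_
    · refine ((hc.ev i).mono_set hs1).congr_fun ?_ hSo.measurableSet
      intro x hx; simp only [g1 x hx]
    · refine ((hc.ew j).mono_set hs2).congr_fun ?_ hSo'.measurableSet
      intro x hx; simp only [g2 x hx]
  have hWG : HasWG (ball p ρ) U g :=
    hWGL m (ball p ρ) F U g hB hG.cF hdF hcont (fun C hC _ => hgi.mono_set hC) w1 w2
  refine ⟨hcont, g, hWG, ?_⟩
  intro ξ dξ hξ
  obtain ⟨-, -, -, h4, -⟩ := hWEX m (ball p ρ) ξ dξ hB hξ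
  have hint : IntegrableOn (fun x => inner ℝ (g x) (dξ x)) (ball p ρ) :=
    (hWEX m (ball p ρ) ξ dξ hB hξ).2.2.2.2 U g hWG
  have h5 := h4 (ball p R) isOpen_ball hsub
  have h6 := (hEUL m k F φ p R L l v gv w gw hG hc).2.2 i j _ _ h5 (by
    intro x _ hx0 hne
    by_cases hx : x ∈ ball p ρ
    · exact absurd (hvw x hx hx0) hne
    · exact indicator_of_notMem hx _)
  have e1 : ∫ x in Sd F (ball p R), inner ℝ (gv i x) ((ball p ρ).indicator dξ x) =
      ∫ x in Sd F (ball p ρ), inner ℝ (gv i x) (dξ x) := by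
    have h7 : ∀ x, inner ℝ (gv i x) ((ball p ρ).indicator dξ x) =
        (ball p ρ).indicator (fun x => inner ℝ (gv i x) (dξ x)) x := by
      intro x
      by_cases hx : x ∈ ball p ρ
      · rw [indicator_of_mem hx, indicator_of_mem hx]
      · rw [indicator_of_notMem hx, indicator_of_notMem hx, inner_zero_right]
    simp_rw [h7]
    rw [setIntegral_indicator hB.measurableSet]
    congr 2
    ext x
    exact ⟨fun h => ⟨h.2, h.1.2⟩, fun h => ⟨⟨hsub h.1, h.2⟩, h.1⟩⟩
  have e2 : ∫ x in Sd (fun x => -F x) (ball p R), inner ℝ (gw j x)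
      ((ball p ρ).indicator dξ x) =
      ∫ x in Sd (fun x => -F x) (ball p ρ), inner ℝ (gw j x) (dξ x) := by
    have h7 : ∀ x, inner ℝ (gw j x) ((ball p ρ).indicator dξ x) =
        (ball p ρ).indicator (fun x => inner ℝ (gw j x) (dξ x)) x := by
      intro x
      by_cases hx : x ∈ ball p ρ
      · rw [indicator_of_mem hx, indicator_of_mem hx]
      · rw [indicator_of_notMem hx, indicator_of_notMem hx, inner_zero_right]
    simp_rw [h7]
    rw [setIntegral_indicator hB.measurableSet]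
    congr 2
    ext x
    exact ⟨fun h => ⟨h.2, h.1.2⟩, fun h => ⟨⟨hsub h.1, h.2⟩, h.1⟩⟩
  rw [← setIntegral_congr_set hae, setIntegral_union hdisj hSo'.measurableSet
    (hint.mono_set fun x hx => hx.1) (hint.mono_set fun x hx => hx.1)]
  rw [e1, e2] at h6
  have e3 : ∫ x in Sd F (ball p ρ), inner ℝ (g x) (dξ x) =
      ∫ x in Sd F (ball p ρ), inner ℝ (gv i x) (dξ x) :=
    setIntegral_congr_fun hSo.measurableSet fun x hx => by simp only [g1 x hx]
  have e4 : ∫ x in Sd (fun x => -F x) (ball p ρ), inner ℝ (g x) (dξ x) =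
      ∫ x in Sd (fun x => -F x) (ball p ρ), inner ℝ (gw j x) (dξ x) :=
    setIntegral_congr_fun hSo'.measurableSet fun x hx => by simp only [g2 x hx]
  rw [e3, e4]
  exact h6

end Pool.Agent.COB
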