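import Pool.Agent.COB.Stmts

/-!
Squad COB, module H0L: test functions vanishing on the interface.
-/

set_option autoImplicit false

namespace Pool.Agent.COB

open MeasureTheory Set Metric Filter Topology

namespace H0L_

noncomputable section

variable {m : ℕ}

theorem sd_open {F : E m → ℝ} {B : Set (E m)} (hB : IsOpen B) (hF : Continuous F) :
    IsOpen (Sd F B) := hB.inter (isOpen_lt continuous_const hF)

/-- truncations are test functions -/
theorem tb_trunc (hWBA : Stmt_WBA) (hWPP : Stmt_WPP) {B : Set (E m)} {F ξ : E m → ℝ}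
    {dξ : E m → E m} (hB : IsOpen B) (hF : Continuous F) (hc : ContinuousOn ξ (Sc F B))
    (hg : HasWG (Sd F B) ξ dξ) (hcs : ∃ C ⊆ B, IsCompact C ∧ ∀ x ∈ Sc F B \ C, ξ x = 0)
    (hz : ∀ x ∈ B, F x = 0 → ξ x = 0) (ε : ℝ) (hε : 0 < ε) :
    TB (Sd F B) (fun x => max (ξ x + -ε) 0) ({x | 0 < ξ x + -ε}.indicator dξ) := by
  have hS := sd_open hB hF
  obtain ⟨-, h2, -, h4, -, h6⟩ := hWBA m (Sd F B) hS
  have h1 : HasWG (Sd F B) (fun x => ξ x + -ε) dξ := by
    have h3 := h2 ξ (fun _ => -ε) dξ (fun _ => 0) hg (h6 (-ε))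
    refine h4 _ _ _ dξ h3 (fun x _ => rfl) ?_
    exact Filter.Eventually.of_forall (fun x => by simp)
  refine ⟨(hWPP m (Sd F B) _ _ hS h1).1, ?_⟩
  obtain ⟨C, hCB, hC, hC0⟩ := hcs
  have hK1 : IsCompact (C ∩ {x | 0 ≤ F x}) := hC.inter_right (isClosed_le continuous_const hF)
  have hK1s : C ∩ {x | 0 ≤ F x} ⊆ Sc F B := fun x hx => ⟨hCB hx.1, hx.2⟩
  have hK : IsCompact ((C ∩ {x | 0 ≤ F x}) ∩ ξ ⁻¹' (Set.Ici ε)) := by
    have h5 : IsClosed ((C ∩ {x | 0 ≤ F x}) ∩ ξ ⁻¹' (Set.Ici ε)) :=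
      (hc.mono hK1s).preimage_isClosed_of_isClosed hK1.isClosed isClosed_Ici
    exact hK1.of_isClosed_subset h5 Set.inter_subset_left
  refine ⟨_, ?_, hK, ?_⟩
  · rintro x ⟨⟨hxC, hxF⟩, hxξ⟩
    refine ⟨hCB hxC, ?_⟩
    rcases lt_or_eq_of_le (show (0 : ℝ) ≤ F x from hxF) with h7 | h7
    · exact h7
    · exfalso
      have h8 := hz x (hCB hxC) h7.symm
      have h9 : ε ≤ ξ x := hxξ
      rw [h8] at h9
      linarith
  · rintro x ⟨⟨hxB, hxF⟩, hxK⟩
    have h7 : ξ x ≤ ε := by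
      by_contra h8
      push Not at h8
      by_cases hxC : x ∈ C
      · exact hxK ⟨⟨hxC, hxF.le⟩, h8.le⟩
      · have h9 := hC0 x ⟨⟨hxB, hxF.le⟩, hxC⟩
        rw [h9] at h8
        linarith
    exact max_eq_right (by linarith)

/-- the positive part -/
theorem pos_part (hWBA : Stmt_WBA) (hWPP : Stmt_WPP) {B : Set (E m)} {F G ξ : E m → ℝ}
    {dG dξ : E m → E m} (hB : IsOpen B) (hF : Continuous F) (hG : WHar (Sd F B) G dG)
    (hGi : IntegrableOn (fun x => ‖dG x‖ ^ 2) (Sd F B)) (hc : ContinuousOn ξ (Sc F B))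
    (hg : HasWG (Sd F B) ξ dξ) (hgi : IntegrableOn (fun x => ‖dξ x‖ ^ 2) (Sd F B))
    (hcs : ∃ C ⊆ B, IsCompact C ∧ ∀ x ∈ Sc F B \ C, ξ x = 0)
    (hz : ∀ x ∈ B, F x = 0 → ξ x = 0) :
    IntegrableOn (fun x => inner ℝ (dG x) ({x | 0 < ξ x}.indicator dξ x)) (Sd F B) ∧
    ∫ x in Sd F B, inner ℝ (dG x) ({x | 0 < ξ x}.indicator dξ x) = 0 := by
  have hS := sd_open hB hF
  have hbd : Integrable (fun x => ‖dG x‖ ^ 2 + ‖dξ x‖ ^ 2) (volume.restrict (Sd F B)) :=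
    hGi.add hgi
  have hle : ∀ (A : Set (E m)) (x : E m),
      ‖(inner ℝ (dG x) (A.indicator dξ x) : ℝ)‖ ≤ ‖dG x‖ ^ 2 + ‖dξ x‖ ^ 2 := by
    intro A x
    have h1 : ‖(inner ℝ (dG x) (A.indicator dξ x) : ℝ)‖ ≤ ‖dG x‖ * ‖A.indicator dξ x‖ :=
      norm_inner_le_norm _ _
    have h2 : ‖A.indicator dξ x‖ ≤ ‖dξ x‖ := norm_indicator_le_norm_self _ _
    have h3 : ‖dG x‖ * ‖A.indicator dξ x‖ ≤ ‖dG x‖ * ‖dξ x‖ :=
      mul_le_mul_of_nonneg_left h2 (norm_nonneg _)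
    nlinarith [sq_nonneg (‖dG x‖ - ‖dξ x‖), sq_nonneg (‖dG x‖), sq_nonneg (‖dξ x‖),
      norm_nonneg (dG x), norm_nonneg (dξ x)]
  have hm0 : AEStronglyMeasurable ({x | 0 < ξ x}.indicator dξ) (volume.restrict (Sd F B)) :=
    (hWPP m (Sd F B) ξ dξ hS hg).1.meas
  have hmeas0 : AEStronglyMeasurable (fun x => (inner ℝ (dG x) ({x | 0 < ξ x}.indicator dξ x) : ℝ))
      (volume.restrict (Sd F B)) := hG.1.meas.inner hm0
  refine ⟨hbd.mono' hmeas0 (Filter.Eventually.of_forall (hle _)), ?_⟩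
  have hTB : ∀ n : ℕ, TB (Sd F B) (fun x => max (ξ x + -(1 / ((n : ℝ) + 1))) 0)
      ({x | 0 < ξ x + -(1 / ((n : ℝ) + 1))}.indicator dξ) := fun n =>
    tb_trunc hWBA hWPP hB hF hc hg hcs hz _ (by positivity)
  have hzero : ∀ n : ℕ, ∫ x in Sd F B, inner ℝ (dG x)
      ({x | 0 < ξ x + -(1 / ((n : ℝ) + 1))}.indicator dξ x) = 0 := fun n =>
    hG.2 _ _ (hTB n)
  have hlim : Tendsto (fun n : ℕ => ∫ x in Sd F B, inner ℝ (dG x)
      ({x | 0 < ξ x + -(1 / ((n : ℝ) + 1))}.indicator dξ x)) atTop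
      (𝓝 (∫ x in Sd F B, inner ℝ (dG x) ({x | 0 < ξ x}.indicator dξ x))) := by
    apply tendsto_integral_of_dominated_convergence (fun x => ‖dG x‖ ^ 2 + ‖dξ x‖ ^ 2)
    · intro n
      exact hG.1.meas.inner (hTB n).wg.meas
    · exact hbd
    · intro n
      exact Filter.Eventually.of_forall (hle _)
    · refine Filter.Eventually.of_forall (fun x => ?_)
      apply tendsto_const_nhds.congr'
      by_cases hx : 0 < ξ x
      · have h1 : ∀ᶠ n : ℕ in atTop, 1 / ((n : ℝ) + 1) < ξ x :=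
          (tendsto_one_div_add_atTop_nhds_zero_nat (𝕜 := ℝ)).eventually_lt_const hx
        filter_upwards [h1] with n hn
        rw [Set.indicator_of_mem (show x ∈ {x | 0 < ξ x} from hx),
          Set.indicator_of_mem (show x ∈ {x | 0 < ξ x + -(1 / ((n : ℝ) + 1))} from by
            simp only [Set.mem_ofPred_eq]; linarith)]
      · refine Filter.Eventually.of_forall (fun n => ?_)
        have h2 : (0 : ℝ) < 1 / ((n : ℝ) + 1) := by positivity
        beta_reduce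
        rw [Set.indicator_of_notMem (show x ∉ {x | 0 < ξ x} from hx),
          Set.indicator_of_notMem (show x ∉ {x | 0 < ξ x + -(1 / ((n : ℝ) + 1))} from by
            simp only [Set.mem_ofPred_eq]; intro h3; apply hx; linarith)]
  refine tendsto_nhds_unique hlim ?_
  simp only [hzero]
  exact tendsto_const_nhds

end

end H0L_

open H0L_ in
theorem h0l_proof (hWBA : Stmt_WBA) (hWPP : Stmt_WPP) (_hWUN : Stmt_WUN) (_hWEX : Stmt_WEX) :
    Stmt_H0L := by
  intro m B F G ξ dG dξ hB hF hG hGi hP hz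
  have hS := sd_open hB hF
  obtain ⟨h1, h2⟩ := pos_part hWBA hWPP hB hF hG hGi hP.cont hP.wg hP.en hP.cs hz
  have hWB := hWBA m (Sd F B) hS
  have hneg : HasWG (Sd F B) (fun x => (-1) * ξ x) (fun x => (-1 : ℝ) • dξ x) :=
    hWB.2.2.1 (-1) ξ dξ hP.wg
  obtain ⟨C, hCB, hC, hC0⟩ := hP.cs
  obtain ⟨h3, h4⟩ := pos_part hWBA hWPP hB hF hG hGi (ξ := fun x => (-1) * ξ x)
    (dξ := fun x => (-1 : ℝ) • dξ x) (hP.cont.const_smul (-1 : ℝ)) hneg
    (by
      have h5 : ∀ x, ‖(-1 : ℝ) • dξ x‖ = ‖dξ x‖ := fun x => by simp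
      simp only [h5]
      exact hP.en)
    ⟨C, hCB, hC, fun x hx => by simp [hC0 x hx]⟩ (fun x hx hFx => by simp [hz x hx hFx])
  have h6 := (hWPP m (Sd F B) ξ dξ hS hP.wg).2
  have h7 : ∫ x in Sd F B, inner ℝ (dG x) (dξ x) =
      ∫ x in Sd F B, ((inner ℝ (dG x) ({x | 0 < ξ x}.indicator dξ x)) -
        (inner ℝ (dG x) ({x | 0 < (-1) * ξ x}.indicator (fun x => (-1 : ℝ) • dξ x) x))) := by
    apply integral_congr_ae
    have h8 : ∀ᵐ x ∂(volume.restrict (Sd F B)), x ∈ Sd F B := ae_restrict_mem hS.measurableSet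
    filter_upwards [h8, ae_restrict_of_ae h6] with x hx hx0
    rcases lt_trichotomy (ξ x) 0 with h9 | h9 | h9
    · rw [Set.indicator_of_notMem (show x ∉ {x | 0 < ξ x} from by
        simp only [Set.mem_ofPred_eq]; linarith),
        Set.indicator_of_mem (show x ∈ {x | 0 < (-1) * ξ x} from by
        simp only [Set.mem_ofPred_eq]; linarith)]
      simp
    · rw [hx0 hx h9]
      rw [Set.indicator_of_notMem (show x ∉ {x | 0 < ξ x} from by
        simp only [Set.mem_ofPred_eq]; linarith),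
        Set.indicator_of_notMem (show x ∉ {x | 0 < (-1) * ξ x} from by
        simp only [Set.mem_ofPred_eq]; linarith)]
      simp
    · rw [Set.indicator_of_mem (show x ∈ {x | 0 < ξ x} from h9),
        Set.indicator_of_notMem (show x ∉ {x | 0 < (-1) * ξ x} from by
        simp only [Set.mem_ofPred_eq]; linarith)]
      simp
  rw [h7, integral_sub h1 h3, h2, h4, sub_zero]

end Pool.Agent.COB
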