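import Pool.Agent.COB.Stmts

/-!
Squad COB, module HAR: Harnack inequality from the mean value inequality.
-/

set_option autoImplicit false

namespace Pool.Agent.COB

open MeasureTheory Set Metric Filter Topology
open scoped ENNReal

namespace HAR_

variable {m : ℕ}

lemma om_nonneg (y : E m) : 0 ≤ om y := by
  unfold om; positivity

lemma om_le_one (y : E m) : om y ≤ 1 := by
  unfold om
  have h1 : max 0 (1 - ‖y‖ ^ 2) ≤ 1 := max_le zero_le_one (by nlinarith [sq_nonneg ‖y‖])
  have h0 : 0 ≤ max 0 (1 - ‖y‖ ^ 2) := le_max_left _ _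
  nlinarith

lemma om_ge {y : E m} (h : ‖y‖ ≤ 3 / 4) : (1 / 6 : ℝ) ≤ om y := by
  unfold om
  have h1 : (7 / 16 : ℝ) ≤ max 0 (1 - ‖y‖ ^ 2) := by
    refine le_trans ?_ (le_max_right _ _)
    nlinarith [norm_nonneg y]
  nlinarith

lemma om_cont : Continuous (om : E m → ℝ) := by
  unfold om
  fun_prop

lemma neg_wg {V : Set (E m)} {G : E m → ℝ} {dG : E m → E m} (h : HasWG V G dG) :
    HasWG V (fun x => -G x) (fun x => -dG x) := by
  refine ⟨h.cont.neg, h.meas.neg, ?_, ?_⟩
  · intro C hC hc
    simpa only [norm_neg] using h.loc C hC hc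
  · intro η h1 h2 h3 v
    have := h.ibp η h1 h2 h3 v
    simp only [neg_mul, inner_neg_left, integral_neg]
    rw [this]

lemma sub_pos {V : Set (E m)} {G : E m → ℝ} {dG : E m → E m} (h : WHar V G dG) :
    WSub V 0 G dG := by
  refine ⟨h.1, ?_⟩
  intro ξ dξ h1 _
  rw [h.2 ξ dξ h1, zero_mul]

lemma sub_neg {V : Set (E m)} {G : E m → ℝ} {dG : E m → E m} (h : WHar V G dG) :
    WSub V 0 (fun x => -G x) (fun x => -dG x) := by
  refine ⟨neg_wg h.1, ?_⟩
  intro ξ dξ h1 _
  simp only [inner_neg_left, integral_neg]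
  rw [h.2 ξ dξ h1, zero_mul, neg_zero]

end HAR_

open HAR_ in
theorem har_proof (hMVG : Stmt_MVG) : Stmt_HAR := by
  intro m hm
  obtain ⟨hI, C0, hC0, H⟩ := hMVG m hm
  set I0 := ∫ y : E m, om y with hI0
  -- mean value identity
  have MV : ∀ (V : Set (E m)) (G : E m → ℝ) (dG : E m → E m) (a : E m) (ρ : ℝ), IsOpen V →
      WHar V G dG → 0 < ρ → closedBall a ρ ⊆ V →
      I0 * G a = (ρ ^ m)⁻¹ * ∫ x in ball a ρ, om (ρ⁻¹ • (x - a)) * G x := by
    intro V G dG a ρ hV hG hρ hb
    have h1 := H V 0 G dG a ρ hV (sub_pos hG) le_rfl hρ hb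
    have h2 := H V 0 (fun x => -G x) (fun x => -dG x) a ρ hV (sub_neg hG) le_rfl hρ hb
    simp only [mul_neg, integral_neg, mul_zero, zero_mul, add_zero] at h1 h2
    linarith
  refine ⟨6 * 2 ^ m + 6 * I0, ?_, ?_⟩
  · have : (1 : ℝ) ≤ 2 ^ m := one_le_pow₀ (by norm_num)
    change (1 : ℝ) ≤ _
    nlinarith
  intro V G dG a b ρ hV hG hnn hρ hb hab
  have hρm : 0 < ρ ^ m := pow_pos hρ m
  have hcontV : ContinuousOn G V := hG.1.cont
  have hGa : 0 ≤ G a := hnn a (hb (mem_closedBall_self hρ.le))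
  have hintG : IntegrableOn G (closedBall a ρ) :=
    (hcontV.mono hb).integrableOn_compact (isCompact_closedBall a ρ)
  have hsub34 : ball a (3 * ρ / 4) ⊆ closedBall a ρ := fun x hx => by
    rw [mem_ball] at hx
    rw [mem_closedBall]
    linarith
  -- the integral over the ball of radius 3ρ/4
  have hK : ∫ x in ball a (3 * ρ / 4), G x ≤ 6 * I0 * ρ ^ m * G a := by
    have h1 := MV V G dG a ρ hV hG hρ hb
    have hint : IntegrableOn (fun x => om (ρ⁻¹ • (x - a)) * G x) (closedBall a ρ) := by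
      refine ContinuousOn.integrableOn_compact (isCompact_closedBall a ρ) ?_
      refine ContinuousOn.mul ?_ (hcontV.mono hb)
      exact (om_cont.comp (by fun_prop)).continuousOn
    have h2 : ∫ x in ball a (3 * ρ / 4), G x ≤
        ∫ x in ball a (3 * ρ / 4), 6 * (om (ρ⁻¹ • (x - a)) * G x) := by
      refine setIntegral_mono_on (hintG.mono_set hsub34) ((hint.mono_set hsub34).const_mul 6)
        measurableSet_ball ?_
      intro x hx
      have hx1 : ‖ρ⁻¹ • (x - a)‖ ≤ 3 / 4 := by
        rw [norm_smul, norm_inv, Real.norm_of_nonneg hρ.le]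
        rw [mem_ball, dist_eq_norm] at hx
        rw [inv_mul_le_iff₀ hρ]
        linarith
      have h3 := om_ge hx1
      have h4 : 0 ≤ G x := hnn x (hb (hsub34 hx))
      nlinarith
    have h3 : ∫ x in ball a (3 * ρ / 4), 6 * (om (ρ⁻¹ • (x - a)) * G x) ≤
        ∫ x in ball a ρ, 6 * (om (ρ⁻¹ • (x - a)) * G x) := by
      refine setIntegral_mono_set ((hint.mono_set ball_subset_closedBall).const_mul 6) ?_ ?_
      · refine (ae_restrict_iff' measurableSet_ball).2 (Eventually.of_forall fun x hx => ?_)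
        have h4 : 0 ≤ G x := hnn x (hb (ball_subset_closedBall hx))
        have h5 := om_nonneg (ρ⁻¹ • (x - a))
        simp only [Pi.zero_apply]
        positivity
      · exact (ball_subset_ball (by linarith)).eventuallyLE
    have h3' := integral_const_mul (μ := volume.restrict (ball a ρ)) (6 : ℝ)
      (fun x => om (ρ⁻¹ • (x - a)) * G x)
    rw [h3'] at h3
    have h6 : ∫ x in ball a ρ, om (ρ⁻¹ • (x - a)) * G x = I0 * G a * ρ ^ m := by
      rw [h1]
      field_simp
    rw [h6] at h3
    calc ∫ x in ball a (3 * ρ / 4), G x ≤ 6 * (I0 * G a * ρ ^ m) := h2.trans h3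
      _ = 6 * I0 * ρ ^ m * G a := by ring
  constructor
  · have hr2 : 0 < ρ / 2 := by positivity
    have hbb : closedBall b (ρ / 2) ⊆ closedBall a ρ := by
      intro x hx
      rw [mem_closedBall] at hx ⊢
      have := dist_triangle x b a
      rw [dist_eq_norm b a] at this
      linarith
    have hbb' : ball b (ρ / 2) ⊆ ball a (3 * ρ / 4) := by
      intro x hx
      rw [mem_ball] at hx ⊢
      have := dist_triangle x b a
      rw [dist_eq_norm b a] at this
      linarith
    have h1 := MV V G dG b (ρ / 2) hV hG hr2 (hbb.trans hb)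
    have hint : IntegrableOn (fun x => om ((ρ / 2)⁻¹ • (x - b)) * G x) (closedBall b (ρ / 2)) := by
      refine ContinuousOn.integrableOn_compact (isCompact_closedBall b (ρ / 2)) ?_
      refine ContinuousOn.mul ?_ (hcontV.mono (hbb.trans hb))
      exact (om_cont.comp (by fun_prop)).continuousOn
    have h2 : ∫ x in ball b (ρ / 2), om ((ρ / 2)⁻¹ • (x - b)) * G x ≤
        ∫ x in ball b (ρ / 2), G x := by
      refine setIntegral_mono_on (hint.mono_set ball_subset_closedBall)
        (hintG.mono_set (ball_subset_closedBall.trans hbb)) measurableSet_ball ?_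
      intro x hx
      have h3 := om_le_one ((ρ / 2)⁻¹ • (x - b))
      have h4 : 0 ≤ G x := hnn x (hb (hbb (ball_subset_closedBall hx)))
      nlinarith
    have h3 : ∫ x in ball b (ρ / 2), G x ≤ ∫ x in ball a (3 * ρ / 4), G x := by
      refine setIntegral_mono_set (hintG.mono_set hsub34) ?_ hbb'.eventuallyLE
      refine (ae_restrict_iff' measurableSet_ball).2 (Eventually.of_forall fun x hx => ?_)
      exact hnn x (hb (hsub34 hx))
    have h4 : I0 * G b ≤ I0 * (6 * 2 ^ m * G a) := by
      rw [h1]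
      have h5 : ((ρ / 2) ^ m)⁻¹ * ∫ x in ball b (ρ / 2), om ((ρ / 2)⁻¹ • (x - b)) * G x ≤
          ((ρ / 2) ^ m)⁻¹ * (6 * I0 * ρ ^ m * G a) :=
        mul_le_mul_of_nonneg_left ((h2.trans h3).trans hK) (by positivity)
      refine h5.trans (le_of_eq ?_)
      rw [div_pow]
      field_simp
    have h5 : G b ≤ 6 * 2 ^ m * G a := le_of_mul_le_mul_left h4 hI
    nlinarith [mul_nonneg hI.le hGa]
  · have h3 : ∫ x in ball a (ρ / 2), G x ≤ ∫ x in ball a (3 * ρ / 4), G x := by
      refine setIntegral_mono_set (hintG.mono_set hsub34) ?_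
        (ball_subset_ball (by linarith)).eventuallyLE
      refine (ae_restrict_iff' measurableSet_ball).2 (Eventually.of_forall fun x hx => ?_)
      exact hnn x (hb (hsub34 hx))
    have h4 : 0 ≤ 2 ^ m * (ρ ^ m * G a) := by positivity
    nlinarith [h3, hK, h4]

end Pool.Agent.COB
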