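import Pool.Agent.COB.Stmts

set_option autoImplicit false

namespace Pool.Agent.COB

open MeasureTheory Set Metric Filter Topology
open scoped ENNReal

theorem hcn_proof (hHAR : Stmt_HAR) : Stmt_HCN := by
  intro m hm
  obtain ⟨C, hC, h⟩ := hHAR m hm
  refine ⟨C, hC, ?_⟩
  intro V G dG a b ρ n hV hG hpos hρ hseg hn
  induction n generalizing a with
  | zero =>
    have h0 : b - a = 0 := by
      have h1 : ‖b - a‖ ≤ 0 := by simpa using hn
      exact norm_le_zero_iff.mp h1
    rw [sub_eq_zero.mp h0]
    simp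
  | succ n ih =>
    have hn1 : (0 : ℝ) < (n : ℝ) + 1 := by positivity
    set a' : E m := a + ((n : ℝ) + 1)⁻¹ • (b - a) with ha'
    have hcast : ((n + 1 : ℕ) : ℝ) = (n : ℝ) + 1 := by push_cast; ring
    rw [hcast] at hn
    have h1 : ‖a' - a‖ ≤ ρ / 4 := by
      rw [ha', add_sub_cancel_left, norm_smul, Real.norm_of_nonneg (by positivity)]
      rw [inv_mul_le_iff₀ hn1]
      exact hn
    have h2 : ‖b - a'‖ ≤ n * (ρ / 4) := by
      have e : b - a' = ((n : ℝ) / ((n : ℝ) + 1)) • (b - a) := by
        rw [ha', ← sub_sub]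
        nth_rewrite 1 [← one_smul ℝ (b - a)]
        rw [← sub_smul]
        congr 1
        field_simp
        ring
      rw [e, norm_smul, Real.norm_of_nonneg (by positivity), div_mul_eq_mul_div, div_le_iff₀ hn1]
      have h4 : (0 : ℝ) ≤ n := by positivity
      nlinarith
    have hmem : a' ∈ segment ℝ a b := by
      rw [segment_eq_image']
      refine ⟨((n : ℝ) + 1)⁻¹, ⟨by positivity, ?_⟩, rfl⟩
      exact inv_le_one_of_one_le₀ (by linarith [(by positivity : (0 : ℝ) ≤ n)])
    have hsub : segment ℝ a' b ⊆ segment ℝ a b :=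
      (convex_segment a b).segment_subset hmem (right_mem_segment ℝ a b)
    have h3 := ih a' (fun z hz => hseg z (hsub hz)) h2
    have h4 := (h V G dG a a' ρ hV hG hpos hρ (hseg a (left_mem_segment ℝ a b)) h1).1
    calc G b ≤ C ^ n * G a' := h3
      _ ≤ C ^ n * (C * G a) := by
          have : 0 ≤ C ^ n := by positivity
          exact mul_le_mul_of_nonneg_left h4 this
      _ = C ^ (n + 1) * G a := by ring

end Pool.Agent.COB
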