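import Pool.Agent.COB.Stmts

/-!
Squad COB, module HF2: integration by parts with `F² b` on one side (MP_71cfa6_an).
-/

set_option autoImplicit false

namespace Pool.Agent.COB

open MeasureTheory Set Metric Filter Topology

namespace HF2_

variable {m : ℕ}

theorem isOpen_Sd {F : E m → ℝ} (hF : Continuous F) {B : Set (E m)} (hB : IsOpen B) :
    IsOpen (Sd F B) := hB.inter (isOpen_lt continuous_const hF)

/-- a smooth step: `0` for `s ≤ 1`, `1` for `s ≥ 2` -/
noncomputable def kap (s : ℝ) : ℝ := Real.smoothTransition (s - 1)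

theorem kap_contDiff : ContDiff ℝ 1 kap :=
  (Real.smoothTransition.contDiff (n := 1)).comp (contDiff_id.sub contDiff_const)

theorem kap_zero {s : ℝ} (h : s ≤ 1) : kap s = 0 :=
  Real.smoothTransition.zero_of_nonpos (by linarith)

theorem kap_one {s : ℝ} (h : 2 ≤ s) : kap s = 1 :=
  Real.smoothTransition.one_of_one_le (by linarith)

theorem kap_nonneg (s : ℝ) : 0 ≤ kap s := Real.smoothTransition.nonneg _

theorem kap_le_one (s : ℝ) : kap s ≤ 1 := Real.smoothTransition.le_one _

theorem deriv_kap_two {s : ℝ} (h : 2 < s) : deriv kap s = 0 := by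
  have e : kap =ᶠ[𝓝 s] fun _ => (1 : ℝ) := by
    filter_upwards [lt_mem_nhds h] with u hu using kap_one hu.le
  rw [e.deriv_eq]; simp

theorem deriv_kap_one {s : ℝ} (h : s < 1) : deriv kap s = 0 := by
  have e : kap =ᶠ[𝓝 s] fun _ => (0 : ℝ) := by
    filter_upwards [gt_mem_nhds h] with u hu using kap_zero hu.le
  rw [e.deriv_eq]; simp

theorem bound_kap : ∃ C : ℝ, 0 ≤ C ∧ ∀ s : ℝ, |s * deriv kap s| ≤ C := by
  have hc : Continuous fun s : ℝ => s * deriv kap s :=
    continuous_id.mul (kap_contDiff.continuous_deriv le_rfl)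
  obtain ⟨C, hC⟩ := (isCompact_Icc (a := (1 : ℝ)) (b := 2)).exists_bound_of_continuousOn
    hc.continuousOn
  refine ⟨max C 0, le_max_right _ _, fun s => ?_⟩
  by_cases h1 : s < 1
  · rw [deriv_kap_one h1]; simp
  · by_cases h2 : 2 < s
    · rw [deriv_kap_two h2]; simp
    · exact (hC s ⟨not_lt.1 h1, not_lt.1 h2⟩).trans (le_max_left _ _)

theorem grad_apply (G : E m → ℝ) (y : E m) (j : Fin m) :
    gradient G y j = fderiv ℝ G y (bs j) := by
  have h : inner ℝ (gradient G y) (bs j) = fderiv ℝ G y (bs j) :=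
    InnerProductSpace.toDual_symm_apply
  rw [← h, EuclideanSpace.inner_single_right]
  simp

theorem contDiff_fderiv_apply {G : E m → ℝ} (hG : ContDiff ℝ 2 G) (v : E m) :
    ContDiff ℝ 1 fun y => fderiv ℝ G y v :=
  (hG.fderiv_right (m := 1) (by norm_num)).clm_apply contDiff_const

theorem contDiff_gradient {G : E m → ℝ} (hG : ContDiff ℝ 2 G) : ContDiff ℝ 1 (gradient G) := by
  have h : ContDiff ℝ 1 (fderiv ℝ G) := hG.fderiv_right (m := 1) (by norm_num)
  exact (InnerProductSpace.toDual ℝ (E m)).symm.contDiff.comp h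

theorem continuous_lp {G : E m → ℝ} (hG : ContDiff ℝ 2 G) : Continuous (lp G) := by
  unfold lp
  refine continuous_finset_sum _ fun j _ => ?_
  exact ((contDiff_fderiv_apply hG (bs j)).continuous_fderiv one_ne_zero).clm_apply continuous_const

theorem fderiv_G {F b : E m → ℝ} (hF : ContDiff ℝ 2 F) (hb : ContDiff ℝ 2 b) (x v : E m) :
    fderiv ℝ (fun y => F y ^ 2 * b y) x v =
      F x * (2 * b x * fderiv ℝ F x v + F x * fderiv ℝ b x v) := by
  have dF : HasFDerivAt F (fderiv ℝ F x) x := (hF.differentiable (by norm_num) x).hasFDerivAt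
  have db : HasFDerivAt b (fderiv ℝ b x) x := (hb.differentiable (by norm_num) x).hasFDerivAt
  have h : HasFDerivAt (fun y => F y ^ 2 * b y)
      (F x ^ 2 • fderiv ℝ b x + b x • (2 • F x ^ (2 - 1)) • fderiv ℝ F x) x :=
    (dF.pow 2).mul db
  rw [h.fderiv]
  simp
  ring

end HF2_

open HF2_ in
theorem hf2_proof (hWIB : Stmt_WIB) : Stmt_HF2 := by
  intro m B F U b dU hB hF hU hW hI hb hbc hbB
  have kF : Continuous F := hF.continuous
  have cG : ContDiff ℝ 2 (fun y => F y ^ 2 * b y) := (hF.pow 2).mul hb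
  have fG := fun x v => fderiv_G hF hb x v
  have Gd : ∀ y, (fun y => F y ^ 2 * b y) y = F y ^ 2 * b y := fun y => rfl
  generalize (fun y => F y ^ 2 * b y) = G at *
  have cgG := contDiff_gradient cG
  have clG := continuous_lp cG
  have hSo : IsOpen (Sd F B) := isOpen_Sd kF hB
  have hSm : MeasurableSet (Sd F B) := hSo.measurableSet
  have hK : IsCompact (tsupport b) := hbc
  -- everything vanishes off the support
  have offG : ∀ x ∉ tsupport b, G =ᶠ[𝓝 x] fun _ => (0 : ℝ) := by
    intro x hx
    filter_upwards [notMem_tsupport_iff_eventuallyEq.1 hx] with y hy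
    rw [Gd y, hy]; simp
  have off1 : ∀ x ∉ tsupport b, gradient G x = 0 := by
    intro x hx
    have h := (offG x hx).fderiv_eq (𝕜 := ℝ)
    unfold gradient
    rw [h]; simp
  have off2 : ∀ x ∉ tsupport b, lp G x = 0 := by
    intro x hx
    unfold lp
    refine Finset.sum_eq_zero fun j _ => ?_
    have h : (fun y => fderiv ℝ G y (bs j)) =ᶠ[𝓝 x] fun _ => (0 : ℝ) := by
      filter_upwards [(offG x hx).fderiv (𝕜 := ℝ)] with y hy
      rw [hy]; simp
    rw [h.fderiv_eq]; simp
  obtain ⟨C0, hC0, hkap⟩ := bound_kap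
  -- the second term of the divergence
  obtain ⟨T1, hT1⟩ : ∃ T1 : E m → ℝ, ∀ x, T1 x =
    ∑ j : Fin m, (2 * b x * fderiv ℝ F x (bs j) + F x * fderiv ℝ b x (bs j)) *
      fderiv ℝ F x (bs j) := ⟨_, fun _ => rfl⟩
  have cT1 : Continuous T1 := by
    have h1 : ∀ j : Fin m, Continuous fun x => fderiv ℝ F x (bs j) :=
      fun j => (contDiff_fderiv_apply hF (bs j)).continuous
    have h2 : ∀ j : Fin m, Continuous fun x => fderiv ℝ b x (bs j) :=
      fun j => (contDiff_fderiv_apply hb (bs j)).continuous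
    have h3 : Continuous b := hb.continuous
    rw [show T1 = _ from funext hT1]
    refine continuous_finset_sum _ fun j _ => ?_
    have := h1 j
    have := h2 j
    fun_prop
  have off3 : ∀ x ∉ tsupport b, T1 x = 0 := by
    intro x hx
    rw [hT1]
    refine Finset.sum_eq_zero fun j _ => ?_
    have hb0 : b =ᶠ[𝓝 x] fun _ => (0 : ℝ) := notMem_tsupport_iff_eventuallyEq.1 hx
    rw [hb0.fderiv_eq, hb0.self_of_nhds]
    simp
  -- the bound of `U`
  obtain ⟨MU, hMU, hUb⟩ : ∃ MU : ℝ, 0 ≤ MU ∧ ∀ x ∈ Sd F B, x ∈ tsupport b → |U x| ≤ MU := by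
    have hc : IsCompact (tsupport b ∩ {x | 0 ≤ F x}) :=
      hK.inter_right (isClosed_le continuous_const kF)
    obtain ⟨M, hM⟩ := hc.exists_bound_of_continuousOn
      (hU.mono (fun x hx => ⟨hbB hx.1, hx.2⟩))
    exact ⟨max M 0, le_max_right _ _, fun x hx hxk => (hM x ⟨hxk, hx.2.le⟩).trans (le_max_left _ _)⟩
  -- the two dominating functions
  have ib1 : Integrable (fun x => ‖dU x‖ ^ 2 + ‖gradient G x‖ ^ 2) (volume.restrict (Sd F B)) := by
    refine hI.add ?_
    have h : Integrable fun x => ‖gradient G x‖ ^ 2 :=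
      Continuous.integrable_of_hasCompactSupport (by have := cgG.continuous; fun_prop)
        (HasCompactSupport.intro hK fun x hx => by rw [off1 x hx]; simp)
    exact h.integrableOn
  have ib2 : Integrable (fun x => MU * (|lp G x| + C0 * |T1 x|)) (volume.restrict (Sd F B)) := by
    have h : Integrable fun x => MU * (|lp G x| + C0 * |T1 x|) :=
      Continuous.integrable_of_hasCompactSupport (by fun_prop)
        (HasCompactSupport.intro hK fun x hx => by rw [off2 x hx, off3 x hx]; simp)
    exact h.integrableOn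
  have inn : ∀ x, |inner ℝ (dU x) (gradient G x)| ≤ ‖dU x‖ ^ 2 + ‖gradient G x‖ ^ 2 := by
    intro x
    have h1 := abs_real_inner_le_norm (dU x) (gradient G x)
    nlinarith [sq_nonneg (‖dU x‖ - ‖gradient G x‖), sq_nonneg (‖dU x‖), sq_nonneg (‖gradient G x‖)]
  have mdU : AEStronglyMeasurable dU (volume.restrict (Sd F B)) := hW.meas
  have mU : AEStronglyMeasurable U (volume.restrict (Sd F B)) :=
    hW.cont.aestronglyMeasurable hSm
  have mi : AEStronglyMeasurable (fun x => inner ℝ (dU x) (gradient G x))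
      (volume.restrict (Sd F B)) := mdU.inner cgG.continuous.aestronglyMeasurable
  have ml' : AEStronglyMeasurable (fun x => U x * lp G x) (volume.restrict (Sd F B)) :=
    mU.mul clG.aestronglyMeasurable
  have ae : ∀ {P : E m → Prop}, (∀ x ∈ Sd F B, P x) → ∀ᵐ x ∂(volume.restrict (Sd F B)), P x :=
    fun h => (ae_restrict_iff' hSm).2 (Eventually.of_forall h)
  have hUl : ∀ x ∈ Sd F B, ∀ r : ℝ, ∀ s : ℝ, |r| ≤ 1 → |s| ≤ C0 →
      |U x * (r * lp G x + s * T1 x)| ≤ MU * (|lp G x| + C0 * |T1 x|) := by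
    intro x hx r s hr hs
    by_cases hxk : x ∈ tsupport b
    · rw [abs_mul]
      apply mul_le_mul (hUb x hx hxk) _ (abs_nonneg _) hMU
      refine (abs_add_le _ _).trans ?_
      rw [abs_mul, abs_mul]
      have h1 : |r| * |lp G x| ≤ 1 * |lp G x| := mul_le_mul_of_nonneg_right hr (abs_nonneg _)
      have h2 : |s| * |T1 x| ≤ C0 * |T1 x| := mul_le_mul_of_nonneg_right hs (abs_nonneg _)
      linarith
    · rw [off2 x hxk, off3 x hxk]; simp
  have I1 : Integrable (fun x => inner ℝ (dU x) (gradient G x)) (volume.restrict (Sd F B)) :=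
    ib1.mono' mi (Eventually.of_forall inn)
  have I2 : Integrable (fun x => U x * lp G x) (volume.restrict (Sd F B)) := by
    refine ib2.mono' ml' (ae fun x hx => ?_)
    have := hUl x hx 1 0 (by simp) (by simpa using hC0)
    simpa using this
  refine ⟨I1, I2, ?_⟩
  -- the approximating fields
  obtain ⟨X, hX⟩ : ∃ X : ℕ → E m → E m,
    ∀ n y, X n y = kap ((n + 1 : ℝ) * F y) • gradient G y := ⟨_, fun _ _ => rfl⟩
  have cX : ∀ n, ContDiff ℝ 1 (X n) := by
    intro n
    rw [show X n = _ from funext (hX n)]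
    exact (kap_contDiff.comp (contDiff_const.mul (hF.of_le (by norm_num)))).smul cgG
  have sX : ∀ n, HasCompactSupport (X n) := fun n =>
    HasCompactSupport.intro hK fun x hx => by rw [hX, off1 x hx, smul_zero]
  have tX : ∀ n, tsupport (X n) ⊆ Sd F B := by
    intro n
    have hcl : IsClosed (tsupport b ∩ {x | 1 ≤ (n + 1 : ℝ) * F x}) :=
      (isClosed_tsupport b).inter (isClosed_le continuous_const (continuous_const.mul kF))
    have h1 : tsupport (X n) ⊆ tsupport b ∩ {x | 1 ≤ (n + 1 : ℝ) * F x} := by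
      refine closure_minimal ?_ hcl
      intro x hx
      refine ⟨?_, ?_⟩
      · by_contra h
        exact hx (by rw [hX, off1 x h, smul_zero])
      · by_contra h
        simp only [mem_setOf_eq, not_le] at h
        exact hx (by rw [hX, kap_zero h.le, zero_smul])
    intro x hx
    have h2 := h1 hx
    refine ⟨hbB h2.1, ?_⟩
    have h3 : (1 : ℝ) ≤ (n + 1 : ℝ) * F x := h2.2
    have h4 : (0 : ℝ) < n + 1 := by positivity
    by_contra h
    have : (n + 1 : ℝ) * F x ≤ 0 := mul_nonpos_of_nonneg_of_nonpos h4.le (not_lt.1 h)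
    linarith
  have dX : ∀ n x, dv (X n) x = kap ((n + 1 : ℝ) * F x) * lp G x +
      (((n + 1 : ℝ) * F x) * deriv kap ((n + 1 : ℝ) * F x)) * T1 x := by
    intro n x
    unfold dv
    rw [hT1]
    unfold lp
    rw [Finset.mul_sum, Finset.mul_sum, ← Finset.sum_add_distrib]
    refine Finset.sum_congr rfl fun j _ => ?_
    have e : (fun y => X n y j) = fun y => kap ((n + 1 : ℝ) * F y) * fderiv ℝ G y (bs j) := by
      funext y
      rw [hX, PiLp.smul_apply, grad_apply, smul_eq_mul]
    have dF : HasFDerivAt F (fderiv ℝ F x) x := (hF.differentiable (by norm_num) x).hasFDerivAt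
    have dk : HasDerivAt kap (deriv kap ((n + 1 : ℝ) * F x)) ((n + 1 : ℝ) * F x) :=
      (kap_contDiff.differentiable one_ne_zero _).hasDerivAt
    have d1 := dk.comp_hasFDerivAt x (dF.const_mul (n + 1 : ℝ))
    have d2 : HasFDerivAt (fun y => fderiv ℝ G y (bs j))
        (fderiv ℝ (fun y => fderiv ℝ G y (bs j)) x) x :=
      ((contDiff_fderiv_apply cG (bs j)).differentiable one_ne_zero x).hasFDerivAt
    have d3 : HasFDerivAt (fun y => kap ((n + 1 : ℝ) * F y) * fderiv ℝ G y (bs j)) _ x :=
      d1.mul d2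
    rw [e, d3.fderiv]
    simp only [ContinuousLinearMap.add_apply, ContinuousLinearMap.smul_apply, smul_eq_mul,
      Function.comp_apply, fG]
    ring
  have id : ∀ n, ∫ x in Sd F B, inner ℝ (dU x) (X n x) = -∫ x in Sd F B, U x * dv (X n) x :=
    fun n => ((hWIB m (Sd F B) U dU hSo hW).1 (X n) (cX n) (sX n) (tX n)).2.2
  have lim1 : Tendsto (fun n => ∫ x in Sd F B, inner ℝ (dU x) (X n x)) atTop
      (𝓝 (∫ x in Sd F B, inner ℝ (dU x) (gradient G x))) := by
    refine tendsto_integral_of_dominated_convergence _ (fun n => ?_) ib1 (fun n => ?_)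
      (ae fun x hx => ?_)
    · exact mdU.inner (cX n).continuous.aestronglyMeasurable
    · refine Eventually.of_forall fun x => ?_
      rw [hX, inner_smul_right, Real.norm_eq_abs, abs_mul, abs_of_nonneg (kap_nonneg _)]
      refine le_trans ?_ (inn x)
      have := mul_le_mul_of_nonneg_right (kap_le_one ((n + 1 : ℝ) * F x))
        (abs_nonneg (inner ℝ (dU x) (gradient G x)))
      linarith
    · have hFx : 0 < F x := hx.2
      refine tendsto_const_nhds.congr' ?_
      obtain ⟨N, hN⟩ := exists_nat_gt (2 / F x)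
      filter_upwards [eventually_ge_atTop N] with n hn
      have h1 : 2 ≤ (n + 1 : ℝ) * F x := by
        have h2 : (N : ℝ) ≤ n := by exact_mod_cast hn
        have h3 : 2 / F x ≤ n + 1 := by linarith
        rwa [div_le_iff₀ hFx] at h3
      rw [hX, kap_one h1, one_smul]
  have lim2 : Tendsto (fun n => ∫ x in Sd F B, U x * dv (X n) x) atTop
      (𝓝 (∫ x in Sd F B, U x * lp G x)) := by
    refine tendsto_integral_of_dominated_convergence _ (fun n => ?_) ib2
      (fun n => ae fun x hx => ?_) (ae fun x hx => ?_)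
    · refine mU.mul ?_
      have k1 : Continuous kap := kap_contDiff.continuous
      have k2 : Continuous (deriv kap) := kap_contDiff.continuous_deriv le_rfl
      have hc : Continuous (dv (X n)) := by
        rw [show dv (X n) = _ from funext (dX n)]
        fun_prop
      exact hc.aestronglyMeasurable
    · rw [dX, Real.norm_eq_abs]
      refine hUl x hx _ _ ?_ (hkap _)
      rw [abs_of_nonneg (kap_nonneg _)]
      exact kap_le_one _
    · have hFx : 0 < F x := hx.2
      refine tendsto_const_nhds.congr' ?_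
      obtain ⟨N, hN⟩ := exists_nat_gt (2 / F x)
      filter_upwards [eventually_ge_atTop N] with n hn
      have h1 : 2 < (n + 1 : ℝ) * F x := by
        have h2 : (N : ℝ) ≤ n := by exact_mod_cast hn
        have h3 : 2 / F x < n + 1 := by linarith
        rwa [div_lt_iff₀ hFx] at h3
      rw [dX, kap_one h1.le, deriv_kap_two h1]
      ring
  have lim3 := lim2.neg
  refine tendsto_nhds_unique lim1 ?_
  refine lim3.congr fun n => ?_
  rw [id n]

end Pool.Agent.COB
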