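import Pool.Agent.COB.Stmts

/-!
Squad COB, module HMO: growth of `G (p + r N) / r`.
-/

set_option autoImplicit false

namespace Pool.Agent.COB

open MeasureTheory Set Metric Filter Topology

theorem hmo_proof (hHOP : Stmt_HOP) (hGEF : Stmt_GEF) : Stmt_HMO := by
  intro m hm
  obtain ⟨c, hc, hH⟩ := hHOP m hm
  refine ⟨max 1 (2 / c), le_max_left _ _, ?_⟩
  intro F φ p R L i G dG hgeo hG hGc hGn s r hs hsr hr
  have hr0 : 0 < r := lt_of_lt_of_le hs hsr
  have hR : 0 < R := hgeo.hR
  obtain ⟨-, -, -, -, -, hE⟩ := hGEF m F φ p R L i hgeo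
  have hps := hE s hs (by linarith)
  have hpr := hE r hr0 (by linarith)
  have hGs : 0 ≤ G (pN F p s) := hGn _ ⟨hps.1.1, hps.1.2.le⟩
  have hGr : 0 ≤ G (pN F p r) := hGn _ ⟨hpr.1.1, hpr.1.2.le⟩
  have hq : 0 ≤ G (pN F p s) / s := div_nonneg hGs hs.le
  rcases eq_or_lt_of_le hsr with h | h
  · subst h
    calc G (pN F p s) / s = 1 * (G (pN F p s) / s) := (one_mul _).symm
      _ ≤ max 1 (2 / c) * (G (pN F p s) / s) := mul_le_mul_of_nonneg_right (le_max_left _ _) hq
  · have hx : pN F p s ∈ Sd F (ball p r) := by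
      refine ⟨?_, hps.1.2⟩
      rw [mem_ball, dist_eq_norm]
      unfold pN
      rw [add_sub_cancel_left, norm_smul, hgeo.gp, mul_one, Real.norm_eq_abs, abs_of_pos hs]
      exact h
    have h1 := hH F φ p R L i G dG hgeo hG hGc hGn r hr0 (by linarith) _ hx
    have h2 : c * (G (pN F p r) / r) * (999 / 1000 * s) ≤ G (pN F p s) := by
      refine le_trans (mul_le_mul_of_nonneg_left hps.2 ?_) h1
      exact mul_nonneg hc.le (div_nonneg hGr hr0.le)
    have h3 : c * (G (pN F p r) / r) * (999 / 1000) ≤ G (pN F p s) / s := by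
      rw [le_div_iff₀ hs]
      linarith
    have h4 : G (pN F p r) / r ≤ (2 / c) * (G (pN F p s) / s) := by
      have h5 : 0 ≤ c * (G (pN F p r) / r) := mul_nonneg hc.le (div_nonneg hGr hr0.le)
      rw [div_mul_eq_mul_div, le_div_iff₀ hc]
      nlinarith
    exact le_trans h4 (mul_le_mul_of_nonneg_right (le_max_right _ _) hq)

end Pool.Agent.COB
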