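import Pool.Agent.COB.Stmts

/-!
# Module HOP: Hopf lemma
-/

set_option autoImplicit false

namespace Pool.Agent.COB

open MeasureTheory Set Metric Filter Topology

namespace HOP_

/-- the barrier -/
noncomputable def bb {m : ℕ} (F : E m → ℝ) (K : ℝ) (x : E m) (y : E m) : ℝ :=
  F y + (K * (2 * m) * (F y * F y) + (-K) * (‖y - x‖ ^ 2))

lemma bb_cd {m : ℕ} (F : E m → ℝ) (K : ℝ) (x : E m) (hF : ContDiff ℝ 2 F) :
    ContDiff ℝ 2 (bb F K x) := by
  unfold bb
  have h1 : ContDiff ℝ 2 (fun y : E m => ‖y - x‖ ^ 2) := (contDiff_id.sub contDiff_const).norm_sq ℝ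
  exact hF.add ((contDiff_const.mul (hF.mul hF)).add (contDiff_const.mul h1))

lemma bb_lp (hLPC : Stmt_LPC) {m : ℕ} (F : E m → ℝ) (K : ℝ) (x : E m) (hF : ContDiff ℝ 2 F)
    (y : E m) : lp (bb F K x) y =
      lp F y + (K * (2 * m) * (2 * (F y * lp F y) + 2 * ‖gradient F y‖ ^ 2) - K * (2 * m)) := by
  obtain ⟨-, h2, h3, h4, -⟩ := hLPC m
  have cn : ContDiff ℝ 2 (fun y : E m => ‖y - x‖ ^ 2) := (contDiff_id.sub contDiff_const).norm_sq ℝ
  have cFF : ContDiff ℝ 2 (fun y : E m => F y * F y) := hF.mul hF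
  have e1 := (h2 F (fun y => K * (2 * m) * (F y * F y) + (-K) * (‖y - x‖ ^ 2)) hF
    ((contDiff_const.mul cFF).add (contDiff_const.mul cn)) y).2.1
  have e2 := (h2 (fun y => K * (2 * m) * (F y * F y)) (fun y => (-K) * (‖y - x‖ ^ 2))
    (contDiff_const.mul cFF) (contDiff_const.mul cn) y).2.1
  have e3 := (h3 (K * (2 * m)) (fun y => F y * F y) cFF y).2
  have e4 := (h3 (-K) (fun y => ‖y - x‖ ^ 2) cn y).2
  have e5 := (h2 F F hF hF y).2.2.2
  have e6 := ((h4 x (fun t => t) univ isOpen_univ (subset_univ _) contDiffOn_id).2 y).2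
  have d1 : deriv (fun t : ℝ => t) = fun _ => 1 := by
    funext t; exact deriv_id t
  have e7 : lp (fun y : E m => ‖y - x‖ ^ 2) y = 2 * m := by
    rw [e6, d1]; simp
  change lp (fun y => F y + (K * (2 * m) * (F y * F y) + (-K) * (‖y - x‖ ^ 2))) y = _
  rw [e1, e2, e3, e4, e5, e7, real_inner_self_eq_norm_sq]
  ring

end HOP_

theorem hop_proof (hWBA : Stmt_WBA) (hWEX : Stmt_WEX) (hWIT : Stmt_WIT) (hCMP : Stmt_CMP)
    (hLPC : Stmt_LPC) (hGEF : Stmt_GEF) (hHSC : Stmt_HSC) : Stmt_HOP := by
  intro m hm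
  have hm1 : (1 : ℝ) ≤ m := by exact_mod_cast hm
  have hsq : 1 ≤ Real.sqrt m := by
    rw [Real.one_le_sqrt]; exact hm1
  have hsq2 : Real.sqrt m * Real.sqrt m = m := Real.mul_self_sqrt (by positivity)
  obtain ⟨τ, hτ⟩ : ∃ τ : ℝ, τ = 1 / (8 * Real.sqrt m) := ⟨_, rfl⟩
  have hτpos : 0 < τ := by rw [hτ]; positivity
  have hτs : τ * Real.sqrt m = 1 / 8 := by
    rw [hτ]; field_simp
  have hτ8 : τ ≤ 1 / 8 := by nlinarith
  have hτm : (m : ℝ) * τ ^ 2 = 1 / 64 := by
    have h1 : (Real.sqrt m * Real.sqrt m) * τ ^ 2 = (τ * Real.sqrt m) * (τ * Real.sqrt m) := by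
      ring
    rw [hsq2, hτs] at h1
    rw [h1]; norm_num
  have hmτ : 1 / 8 ≤ (m : ℝ) * τ := by
    have h1 : (Real.sqrt m * Real.sqrt m) * τ = Real.sqrt m * (τ * Real.sqrt m) := by ring
    rw [hsq2, hτs] at h1
    linarith
  obtain ⟨C, hC1, hC⟩ := hHSC m τ hm hτpos
  have hC0 : 0 < C := by linarith
  refine ⟨1 / (2 * C), by positivity, ?_⟩
  intro F φ p R L i G dG hgeo hWH hGc hG0 r hr hrR x hx
  obtain ⟨-, g1, g2, g3, g4, g5⟩ := hGEF m F φ p R L i hgeo
  have hR := hgeo.hR
  have hL := hgeo.hL
  have hsm := hgeo.sm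
  -- `L r` is small
  have hLr : 16000 * (m * (L * r)) ≤ 1 := by
    have h1 : m * (L * (16 * r)) ≤ m * (L * R) := by gcongr
    nlinarith
  have hLr0 : 0 < L * r := by positivity
  have hLr1 : 16000 * (L * r) ≤ 1 := by nlinarith
  have h100 : 100 * L * r ≤ τ := by
    have h1 : 100 * (L * r) * m ≤ τ * m := by nlinarith
    have := le_of_mul_le_mul_right h1 (by linarith)
    linarith
  have hHS := hC F φ p R L i G dG hgeo hWH
    (fun y hy => hG0 y ⟨hy.1, hy.2.le⟩) r hr (by linarith) h100
  have hpN := g5 r hr (by linarith)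
  set g0 : ℝ := G (pN F p r) with hg0
  have g00 : 0 ≤ g0 := hG0 _ ⟨hpN.1.1, hpN.1.2.le⟩
  have hxr : ‖x - p‖ < r := by
    have := hx.1; rwa [mem_ball, dist_eq_norm] at this
  have hxR : x ∈ ball p R := ball_subset_ball (by linarith) hx.1
  have hFx := (g3 x hxR).1
  have hFx0 := hx.2
  have hA0 : 0 ≤ 1 / (2 * C) * (g0 / r) := by positivity
  by_cases hc : τ * r ≤ F x
  · have h1 := (hHS x (ball_subset_ball (by linarith) hx.1) hc).2
    have h2 : F x ≤ 1001 / 1000 * r := by
      have := le_abs_self (F x)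
      nlinarith
    have h3 : g0 / r * F x ≤ g0 * (1001 / 1000) := by
      rw [div_mul_eq_mul_div, div_le_iff₀ hr]
      nlinarith
    have hx0 : 0 ≤ G x := hG0 x ⟨hxR, hFx0.le⟩
    have h4 : g0 * (1001 / 1000) ≤ 2 * C * G x := by nlinarith
    calc 1 / (2 * C) * (g0 / r) * F x = 1 / (2 * C) * (g0 / r * F x) := by ring
      _ ≤ 1 / (2 * C) * (2 * C * G x) := by
          apply mul_le_mul_of_nonneg_left (h3.trans h4); positivity
      _ = G x := by field_simp
  · push Not at hc
    -- the region
    have cF : Continuous F := hgeo.cF.continuous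
    set D : Set (E m) := {y | ‖y - x‖ < r / 4 ∧ 0 < F y ∧ F y < τ * r} with hD
    have oD : IsOpen D := by
      have h1 : IsOpen {y : E m | ‖y - x‖ < r / 4} :=
        isOpen_lt (by fun_prop) continuous_const
      exact h1.inter ((isOpen_lt continuous_const cF).inter (isOpen_lt cF continuous_const))
    have cD : closure D ⊆ {y | ‖y - x‖ ≤ r / 4 ∧ 0 ≤ F y ∧ F y ≤ τ * r} := by
      apply closure_minimal
      · intro y hy; exact ⟨hy.1.le, hy.2.1.le, hy.2.2.le⟩
      · have h1 : IsClosed {y : E m | ‖y - x‖ ≤ r / 4} :=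
          isClosed_le (by fun_prop) continuous_const
        exact h1.inter ((isClosed_le continuous_const cF).inter (isClosed_le cF continuous_const))
    have near : ∀ y : E m, ‖y - x‖ ≤ r / 4 → ‖y - p‖ < 2 * r := by
      intro y hy
      have : y - p = (y - x) + (x - p) := by abel
      rw [this]
      have := norm_add_le (y - x) (x - p)
      linarith
    have nearR : ∀ y : E m, ‖y - x‖ ≤ r / 4 → y ∈ ball p R := by
      intro y hy
      rw [mem_ball, dist_eq_norm]
      have := near y hy
      linarith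
    have DS : D ⊆ Sd F (ball p R) := fun y hy => ⟨nearR y hy.1.le, hy.2.1⟩
    have cDS : closure D ⊆ Sc F (ball p R) := fun y hy =>
      ⟨nearR y (cD hy).1, (cD hy).2.1⟩
    have oS : IsOpen (Sd F (ball p R)) := isOpen_ball.inter (isOpen_lt continuous_const cF)
    have bD : Bornology.IsBounded D := by
      apply (isBounded_ball (x := p) (r := R)).subset
      exact fun y hy => nearR y hy.1.le
    set K : ℝ := 32 * τ / r with hK
    have hKr : K * r = 32 * τ := by rw [hK]; field_simp
    have hK0 : 0 < K := by positivity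
    set b := HOP_.bb F K x with hb
    have cb : ContDiff ℝ 2 b := HOP_.bb_cd F K x hgeo.cF
    set A : ℝ := 1 / (2 * C) * (g0 / r) with hA
    -- the Laplacian of the barrier
    have lpb : ∀ y ∈ D, 0 ≤ lp b y := by
      intro y hy
      have hyR := nearR y hy.1.le
      rw [hb, HOP_.bb_lp hLPC F K x hgeo.cF y]
      have l1 := hgeo.lF y hyR
      have l2 := (g1 y hyR).2.2.1
      have l3 := abs_le.1 l1
      have l4 : 998 / 1000 ≤ ‖gradient F y‖ ^ 2 := by nlinarith
      have l5 : -(1 / 1000) ≤ F y * lp F y := by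
        have h1 : |F y * lp F y| ≤ (τ * r) * L := by
          rw [abs_mul]
          have : |F y| ≤ τ * r := by rw [abs_of_pos hy.2.1]; exact hy.2.2.le
          exact mul_le_mul this l1 (abs_nonneg _) (by positivity)
        have h2 : (τ * r) * L ≤ 1 / 1000 := by nlinarith
        have := (abs_le.1 h1).1
        linarith
      have l6 : K * (2 * m) * (9 / 10) ≤ K * (2 * m) * (2 * (F y * lp F y) + 2 * ‖gradient F y‖ ^ 2)
          - K * (2 * m) := by
        have h1 : (19 / 10 : ℝ) ≤ 2 * (F y * lp F y) + 2 * ‖gradient F y‖ ^ 2 := by linarith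
        have h2 : 0 ≤ K * (2 * m) := by positivity
        nlinarith
      have l7 : L ≤ K * (2 * m) * (9 / 10) := by
        have h1 : L * r ≤ (K * r) * (2 * m) * (9 / 10) := by
          rw [hKr]; nlinarith
        have h2 : L * r ≤ (K * (2 * m) * (9 / 10)) * r := by linarith
        exact le_of_mul_le_mul_right h2 hr
      linarith [l3.1]
    -- comparison
    have wG : HasWG D G dG := (hWBA m _ oS).1 D G dG oD DS hWH.1
    have wb : HasWG D b (gradient b) :=
      (hWBA m D oD).2.2.2.2.1 b ((cb.of_le (by norm_num)).contDiffOn)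
    have wAb := (hWBA m D oD).2.2.1 A b (gradient b) wb
    have wmG := (hWBA m D oD).2.2.1 (-1) G dG wG
    have wf := (hWBA m D oD).2.1 _ _ _ _ wAb wmG
    have hcmp := hCMP m D (fun y => A * b y + (-1) * G y) (fun y => A • gradient b y + (-1 : ℝ) • dG y)
      hm oD bD ?_ ⟨wf, ?_⟩ ?_ x ⟨by simpa using (by positivity : 0 < r / 4), hFx0, hc⟩
    · have hbx : F x ≤ b x := by
        simp only [hb, HOP_.bb, sub_self, norm_zero]
        have : 0 ≤ K * (2 * m) * (F x * F x) := by positivity
        nlinarith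
      have : A * F x ≤ A * b x := mul_le_mul_of_nonneg_left hbx hA0
      linarith
    · exact (continuous_const.mul cb.continuous).continuousOn.add
        (continuousOn_const.mul (hGc.mono cDS))
    · intro ξ dξ hξ hξ0
      obtain ⟨i1, i2, i3⟩ := hWIT m D b ξ dξ oD cb hξ
      obtain ⟨-, -, -, x4, x5⟩ := hWEX m D ξ dξ oD hξ
      have i4 := x5 G dG wG
      have hz := hWH.2 _ _ (x4 (Sd F (ball p R)) oS DS)
      have hz2 : ∫ y in D, inner ℝ (dG y) (dξ y) = 0 := by
        have e1 : ∀ y, inner ℝ (dG y) (D.indicator dξ y)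
            = D.indicator (fun y => inner ℝ (dG y) (dξ y)) y := by
          intro y
          by_cases hy : y ∈ D
          · rw [indicator_of_mem hy, indicator_of_mem hy]
          · rw [indicator_of_notMem hy, indicator_of_notMem hy, inner_zero_right]
        simp only [e1] at hz
        rw [setIntegral_indicator oD.measurableSet, inter_eq_right.2 DS] at hz
        exact hz
      have hz3 : ∫ y in D, inner ℝ (gradient b y) (dξ y) ≤ 0 := by
        rw [i3]
        have : 0 ≤ ∫ y in D, lp b y * ξ y :=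
          setIntegral_nonneg oD.measurableSet fun y hy => mul_nonneg (lpb y hy) (hξ0 y hy)
        linarith
      have e2 : ∀ y, inner ℝ (A • gradient b y + (-1 : ℝ) • dG y) (dξ y)
          = A * inner ℝ (gradient b y) (dξ y) + (-1) * inner ℝ (dG y) (dξ y) := by
        intro y
        rw [inner_add_left, real_inner_smul_left, real_inner_smul_left]
      simp only [e2]
      rw [integral_add (i1.const_mul A) (i4.const_mul (-1)), integral_const_mul, integral_const_mul,
        hz2]
      nlinarith
    · intro y hy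
      have hyc := cD hy.1
      have hyn : y ∉ D := by
        have := hy.2
        rwa [oD.interior_eq] at this
      have hyG := hG0 y (cDS hy.1)
      have hF0 := hyc.2.1
      have hFτ := hyc.2.2
      have hFF : F y * F y ≤ (τ * r) * (τ * r) := mul_le_mul hFτ hFτ hF0 (by positivity)
      have hKF : K * (2 * m) * (F y * F y) ≤ τ * r := by
        have h1 : K * (2 * m) * (F y * F y) ≤ K * (2 * m) * ((τ * r) * (τ * r)) :=
          mul_le_mul_of_nonneg_left hFF (by positivity)
        have h2 : K * (2 * m) * ((τ * r) * (τ * r)) = (K * r) * (2 * (m * τ ^ 2)) * r := by ring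
        rw [h2, hτm, hKr] at h1
        linarith
      have hbdef : b y = F y + (K * (2 * m) * (F y * F y) + (-K) * (‖y - x‖ ^ 2)) := rfl
      have hny : 0 ≤ K * ‖y - x‖ ^ 2 := by positivity
      rcases eq_or_lt_of_le hyc.2.1 with h0 | h0
      · have hb0 : b y ≤ 0 := by
          rw [hbdef, ← h0]; nlinarith
        nlinarith
      · rcases eq_or_lt_of_le hyc.2.2 with h1 | h1
        · have hb1 : b y ≤ 2 * τ * r := by rw [hbdef]; nlinarith
          have hy4 : y ∈ ball p (4 * r) := by
            rw [mem_ball, dist_eq_norm]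
            have := near y hyc.1
            linarith
          have h2 := (hHS y hy4 h1.ge).2
          have h3 : A * b y ≤ A * (2 * τ * r) := mul_le_mul_of_nonneg_left hb1 hA0
          have h4 : A * (2 * τ * r) = (τ / C) * g0 := by
            rw [hA]; field_simp
          have h5 : (τ / C) * g0 ≤ τ * G y := by
            rw [div_mul_eq_mul_div, div_le_iff₀ hC0]
            nlinarith
          nlinarith
        · have h2 : ‖y - x‖ = r / 4 := by
            rcases eq_or_lt_of_le hyc.1 with h3 | h3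
            · exact h3
            · exact absurd ⟨h3, h0, h1⟩ hyn
          have hb2 : b y ≤ 0 := by
            rw [hbdef, h2]
            have : K * (r / 4) ^ 2 = (K * r) * (r / 16) := by ring
            have h5 : K * (r / 4) ^ 2 = 2 * (τ * r) := by rw [this, hKr]; ring
            linarith
          nlinarith

end Pool.Agent.COB
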