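import Pool.Agent.COB.Stmts

set_option autoImplicit false

namespace Pool.Agent.COB

open MeasureTheory Set Metric Filter Topology
open scoped ENNReal

namespace HSC_

theorem isOpen_Sd {m : ℕ} {F : E m → ℝ} {B : Set (E m)} (hF : Continuous F) (hB : IsOpen B) :
    IsOpen (Sd F B) := by
  have : Sd F B = B ∩ F ⁻¹' (Ioi 0) := by
    ext x; simp [Sd]
  rw [this]
  exact hB.inter (isOpen_Ioi.preimage hF)

end HSC_

open HSC_ in
theorem hsc_proof (hHCN : Stmt_HCN) (hGEF : Stmt_GEF) : Stmt_HSC := by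
  intro m τ hm hτ
  obtain ⟨C, hC, hcn⟩ := hHCN m hm
  set μ : ℝ := min τ 1 with hμ
  have hμ0 : 0 < μ := lt_min hτ one_pos
  have hμ1 : μ ≤ 1 := min_le_right _ _
  have hμτ : μ ≤ τ := min_le_left _ _
  set n : ℕ := ⌈40 / μ⌉₊ with hn
  have hn40 : 40 / μ ≤ n := Nat.le_ceil _
  refine ⟨C ^ n, one_le_pow₀ hC, ?_⟩
  intro F φ p R L i G dG hgeo hG hGn r hr hrR hLr x hx hFx
  have hFc : Continuous F := hgeo.cF.continuous
  have hV : IsOpen (Sd F (ball p R)) := isOpen_Sd hFc isOpen_ball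
  obtain ⟨-, -, hLip, hF1, -, -⟩ := hGEF m F φ p R L i hgeo
  set N : E m := gradient F p with hN
  have hN1 : ‖N‖ = 1 := hgeo.gp
  set q : E m := pN F p r with hq
  have hqp : q - p = r • N := by simp [hq, pN, hN]
  have hL : 1 ≤ L := hgeo.hL
  have hm1 : (1 : ℝ) ≤ m := by exact_mod_cast hm
  have hLr1 : 100 * L * r ≤ 1 := by
    have h1 : 1000 * L * R ≤ 1 := by
      have := hgeo.sm
      have h2 : 0 ≤ L * R := mul_nonneg (by linarith) hgeo.hR.le
      nlinarith
    nlinarith
  have hLrμ : 100 * L * r ≤ μ := le_min hLr hLr1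
  have hx4 : ‖x - p‖ < 4 * r := by rwa [mem_ball, dist_eq_norm] at hx
  have hq4 : ‖q - p‖ < 4 * r := by
    rw [hqp, norm_smul, hN1, Real.norm_of_nonneg hr.le]; linarith
  have hqb : q ∈ ball p (4 * r) := by rwa [mem_ball, dist_eq_norm]
  have hsub : ball p (4 * r) ⊆ ball p R := ball_subset_ball (by linarith)
  have hlin : ∀ z ∈ ball p (4 * r), |F z - inner ℝ N (z - p)| ≤ 16 / 100 * μ * r := by
    intro z hz
    have h1 := (hF1 z (hsub hz)).2.1
    have h2 : ‖z - p‖ < 4 * r := by rwa [mem_ball, dist_eq_norm] at hz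
    have h3 : ‖z - p‖ ^ 2 ≤ (4 * r) ^ 2 := by
      have := norm_nonneg (z - p)
      nlinarith
    calc |F z - inner ℝ N (z - p)| ≤ L * ‖z - p‖ ^ 2 := h1
      _ ≤ L * (4 * r) ^ 2 := mul_le_mul_of_nonneg_left h3 (by linarith)
      _ = 16 / 100 * (100 * L * r) * r := by ring
      _ ≤ 16 / 100 * μ * r := by nlinarith
  have hlx : 84 / 100 * μ * r ≤ inner ℝ N (x - p) := by
    have h1 := abs_le.1 (hlin x hx)
    have h2 : μ * r ≤ τ * r := mul_le_mul_of_nonneg_right hμτ hr.le
    nlinarith [h1.2]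
  have hlq : 84 / 100 * μ * r ≤ inner ℝ N (q - p) := by
    rw [hqp, inner_smul_right, real_inner_self_eq_norm_sq, hN1]
    nlinarith
  have hseg : ∀ z ∈ segment ℝ x q, closedBall z (μ * r / 2) ⊆ Sd F (ball p R) := by
    intro z hz y hy
    have hz4 : z ∈ ball p (4 * r) := (convex_ball p (4 * r)).segment_subset hx hqb hz
    have hlz : 84 / 100 * μ * r ≤ inner ℝ N (z - p) := by
      obtain ⟨a, b, ha, hb, hab, rfl⟩ := hz
      have e : a • x + b • q - p = a • (x - p) + b • (q - p) := by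
        have : p = a • p + b • p := by rw [← add_smul, hab, one_smul]
        nth_rewrite 1 [this]
        rw [smul_sub, smul_sub]; abel
      rw [e, inner_add_right, inner_smul_right, inner_smul_right]
      have h1 := mul_le_mul_of_nonneg_left hlx ha
      have h2 := mul_le_mul_of_nonneg_left hlq hb
      calc 84 / 100 * μ * r = a * (84 / 100 * μ * r) + b * (84 / 100 * μ * r) := by
            rw [← add_mul, hab, one_mul]
        _ ≤ _ := add_le_add h1 h2
    have hFz : 68 / 100 * μ * r ≤ F z := by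
      have h1 := abs_le.1 (hlin z hz4)
      nlinarith [h1.1]
    have hyz : ‖y - z‖ ≤ μ * r / 2 := by rwa [mem_closedBall, dist_eq_norm] at hy
    have hzp : ‖z - p‖ < 4 * r := by rwa [mem_ball, dist_eq_norm] at hz4
    have hμr : μ * r ≤ r := by nlinarith
    have hyp : ‖y - p‖ < R := by
      have : y - p = (y - z) + (z - p) := by abel
      rw [this]
      calc ‖(y - z) + (z - p)‖ ≤ ‖y - z‖ + ‖z - p‖ := norm_add_le _ _
        _ < R := by nlinarith
    have hyb : y ∈ ball p R := by rwa [mem_ball, dist_eq_norm]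
    refine ⟨hyb, ?_⟩
    have h1 := abs_le.1 (hLip y hyb z (hsub hz4)).2
    have : 0 < μ * r := by positivity
    nlinarith [h1.1]
  have hdist : ‖q - x‖ ≤ n * (μ * r / 2 / 4) := by
    have e : q - x = (q - p) - (x - p) := by abel
    have h1 : ‖q - x‖ ≤ 5 * r := by
      rw [e]
      have h2 : ‖q - p‖ = r := by
        rw [hqp, norm_smul, hN1, Real.norm_of_nonneg hr.le, mul_one]
      calc ‖(q - p) - (x - p)‖ ≤ ‖q - p‖ + ‖x - p‖ := norm_sub_le _ _
        _ ≤ 5 * r := by linarith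
    have h2 : 40 ≤ n * μ := by
      rwa [div_le_iff₀ hμ0] at hn40
    calc ‖q - x‖ ≤ 5 * r := h1
      _ = 40 * r / 8 := by ring
      _ ≤ (n * μ) * r / 8 := by nlinarith
      _ = n * (μ * r / 2 / 4) := by ring
  have hρ : 0 < μ * r / 2 := by positivity
  constructor
  · refine hcn (Sd F (ball p R)) G dG q x (μ * r / 2) n hV hG hGn hρ ?_ ?_
    · intro z hz
      rw [segment_symm] at hz
      exact hseg z hz
    · rw [norm_sub_rev]; exact hdist
  · exact hcn (Sd F (ball p R)) G dG x q (μ * r / 2) n hV hG hGn hρ hseg hdist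

end Pool.Agent.COB
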