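import Pool.Agent.COB.Stmts

set_option autoImplicit false

namespace Pool.Agent.COB

open MeasureTheory Set Metric Filter Topology

namespace JBM_

variable {m : ℕ}

/-! one-variable functions -/

lemma pw (n : ℕ) (t : ℝ) :
    HasDerivAt (fun t : ℝ => (max 0 t) ^ (n + 2)) ((n + 2 : ℝ) * (max 0 t) ^ (n + 1)) t := by
  rcases lt_trichotomy t 0 with h | h | h
  · have e1 : (fun t : ℝ => (max 0 t) ^ (n + 2)) =ᶠ[𝓝 t] fun _ => 0 := by
      filter_upwards [Iio_mem_nhds h] with s hs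
      rw [max_eq_left (le_of_lt hs)]
      simp
    rw [max_eq_left h.le]
    have := (hasDerivAt_const t (0 : ℝ)).congr_of_eventuallyEq e1
    simpa using this
  · subst h
    have h1 : (fun t : ℝ => (max 0 t) ^ (n + 2)) =O[𝓝 (0 : ℝ)] fun x => ‖x - 0‖ ^ (n + 2) := by
      apply Asymptotics.IsBigO.of_bound 1
      filter_upwards with s
      rw [sub_zero, one_mul, norm_pow, norm_pow, norm_norm]
      apply pow_le_pow_left₀ (norm_nonneg _)
      rw [Real.norm_eq_abs, Real.norm_eq_abs, abs_of_nonneg (le_max_left _ _)]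
      exact max_le (abs_nonneg _) (le_abs_self _)
    have h2 := Asymptotics.IsBigO.hasFDerivAt (𝕜 := ℝ) h1 (by omega)
    have h3 : HasDerivAt (fun t : ℝ => (max 0 t) ^ (n + 2)) 0 0 := by
      have := h2.hasDerivAt
      simpa using this
    simpa using h3
  · have e1 : (fun t : ℝ => (max 0 t) ^ (n + 2)) =ᶠ[𝓝 t] fun t => t ^ (n + 2) := by
      filter_upwards [Ioi_mem_nhds h] with s hs
      rw [max_eq_right (le_of_lt hs)]
    rw [max_eq_right h.le]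
    have := (hasDerivAt_pow (n + 2) t).congr_of_eventuallyEq e1
    refine this.congr_deriv ?_
    rw [show n + 2 - 1 = n + 1 from rfl]
    push_cast
    ring

lemma pwq (n : ℕ) (ρ s : ℝ) :
    HasDerivAt (fun s : ℝ => (max 0 (1 - s / ρ ^ 2)) ^ (n + 2))
      (-((n + 2 : ℝ) / ρ ^ 2 * (max 0 (1 - s / ρ ^ 2)) ^ (n + 1))) s := by
  have h1 : HasDerivAt (fun s : ℝ => 1 - s / ρ ^ 2) (-(1 / ρ ^ 2)) s := by
    have := ((hasDerivAt_id s).div_const (ρ ^ 2)).const_sub 1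
    simpa using this
  have h2 := (pw n (1 - s / ρ ^ 2)).comp s h1
  exact h2.congr_deriv (by ring)

lemma dq3 (ρ : ℝ) : deriv (fun s : ℝ => (max 0 (1 - s / ρ ^ 2)) ^ 3) =
    fun s => (-(3 / ρ ^ 2)) * (max 0 (1 - s / ρ ^ 2)) ^ 2 := by
  funext s
  rw [(pwq 1 ρ s).deriv]
  push_cast
  ring

lemma dq2 (ρ : ℝ) : deriv (fun s : ℝ => (max 0 (1 - s / ρ ^ 2)) ^ 2) =
    fun s => (-(2 / ρ ^ 2)) * (max 0 (1 - s / ρ ^ 2)) := by
  funext s
  rw [(pwq 0 ρ s).deriv]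
  push_cast
  ring

lemma ddq3 (ρ s : ℝ) : deriv (deriv (fun s : ℝ => (max 0 (1 - s / ρ ^ 2)) ^ 3)) s =
    6 / ρ ^ 4 * (max 0 (1 - s / ρ ^ 2)) := by
  rw [dq3, deriv_const_mul _ (pwq 0 ρ s).differentiableAt, dq2]
  ring

lemma cd3 (ρ : ℝ) : ContDiff ℝ 2 (fun s : ℝ => (max 0 (1 - s / ρ ^ 2)) ^ 3) := by
  have h1 : ContDiff ℝ 1 (fun s : ℝ => (max 0 (1 - s / ρ ^ 2)) ^ 2) := by
    rw [contDiff_one_iff_deriv]
    refine ⟨fun s => (pwq 0 ρ s).differentiableAt, ?_⟩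
    rw [dq2]
    fun_prop
  have h2 : ContDiff ℝ (1 + 1) (fun s : ℝ => (max 0 (1 - s / ρ ^ 2)) ^ 3) := by
    rw [contDiff_succ_iff_deriv]
    refine ⟨fun s => (pwq 1 ρ s).differentiableAt, by simp, ?_⟩
    rw [dq3]
    exact contDiff_const.mul h1
  have : (2 : WithTop ℕ∞) = 1 + 1 := by norm_num
  rw [this]
  exact h2

/-! the function `J` -/

lemma jd (n : ℕ) (ρ s : ℝ) (h : 0 < s + ρ ^ 2) :
    HasDerivAt (fun s : ℝ => (Real.sqrt (s + ρ ^ 2) ^ n)⁻¹)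
      (-((n : ℝ) / 2) * (Real.sqrt (s + ρ ^ 2) ^ (n + 2))⁻¹) s := by
  have hw : 0 < Real.sqrt (s + ρ ^ 2) := Real.sqrt_pos.2 h
  have h1 : HasDerivAt (fun s : ℝ => s + ρ ^ 2) 1 s := (hasDerivAt_id s).add_const _
  have h2 := ((h1.sqrt h.ne').pow n).inv (pow_ne_zero n hw.ne')
  refine (h2.congr_deriv ?_)
  rcases n with _ | k
  · simp
  · simp only [Nat.add_sub_cancel, Pi.pow_apply]
    set w := Real.sqrt (s + ρ ^ 2)
    field_simp
    ring

lemma jdd (n : ℕ) (ρ s : ℝ) (h : 0 < s + ρ ^ 2) :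
    deriv (deriv (fun s : ℝ => (Real.sqrt (s + ρ ^ 2) ^ n)⁻¹)) s =
      (n : ℝ) * (n + 2) / 4 * (Real.sqrt (s + ρ ^ 2) ^ (n + 4))⁻¹ := by
  have e1 : deriv (fun s : ℝ => (Real.sqrt (s + ρ ^ 2) ^ n)⁻¹) =ᶠ[𝓝 s]
      fun s => (-((n : ℝ) / 2)) * (Real.sqrt (s + ρ ^ 2) ^ (n + 2))⁻¹ := by
    have ho : IsOpen {s : ℝ | 0 < s + ρ ^ 2} := isOpen_lt continuous_const (by fun_prop)
    filter_upwards [ho.mem_nhds h] with u hu
    exact (jd n ρ u hu).deriv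
  rw [e1.deriv_eq, deriv_const_mul _ (jd (n + 2) ρ s h).differentiableAt, (jd (n + 2) ρ s h).deriv]
  push_cast
  ring

lemma jc (n : ℕ) (ρ : ℝ) :
    ContDiffOn ℝ 2 (fun s : ℝ => (Real.sqrt (s + ρ ^ 2) ^ n)⁻¹) {s : ℝ | 0 < s + ρ ^ 2} := by
  intro s hs
  have hs' : 0 < s + ρ ^ 2 := hs
  apply ContDiffAt.contDiffWithinAt
  apply ContDiffAt.inv
  · apply ContDiffAt.pow
    apply ContDiffAt.sqrt
    · exact contDiffAt_id.add contDiffAt_const
    · exact hs'.ne'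
  · exact pow_ne_zero n (Real.sqrt_pos.2 hs').ne'

end JBM_

open JBM_ in
theorem jbm_proof (hLPC : Stmt_LPC) : Stmt_JBM := by
  intro m p ρ hρ
  obtain ⟨-, -, -, hrad, -⟩ := hLPC m
  have hρ2 : 0 < ρ ^ 2 := by positivity
  have hJ2 : ∀ x : E m, J ρ p x ^ 2 = ‖x - p‖ ^ 2 + ρ ^ 2 := fun x => by
    unfold J
    exact Real.sq_sqrt (by positivity)
  have hJ : ∀ x : E m, 0 < J ρ p x := fun x => Real.sqrt_pos.2 (by positivity)
  refine ⟨fun x => ⟨hJ x, ?_, ?_, hJ2 x⟩, fun n => ?_, ?_⟩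
  · apply Real.le_sqrt_of_sq_le
    nlinarith [sq_nonneg ‖x - p‖]
  · apply Real.le_sqrt_of_sq_le
    nlinarith [sq_nonneg ‖x - p‖]
  · have ho : IsOpen {s : ℝ | 0 < s + ρ ^ 2} := isOpen_lt continuous_const (by fun_prop)
    have hI : Ici (0 : ℝ) ⊆ {s : ℝ | 0 < s + ρ ^ 2} := by
      intro s hs
      have : 0 ≤ s := hs
      show 0 < s + ρ ^ 2
      positivity
    obtain ⟨h1, h2⟩ := hrad p (fun s : ℝ => (Real.sqrt (s + ρ ^ 2) ^ n)⁻¹) _ ho hI (jc n ρ)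
    refine ⟨h1, fun x => ?_⟩
    obtain ⟨h3, h4⟩ := h2 x
    have hp : 0 < ‖x - p‖ ^ 2 + ρ ^ 2 := by positivity
    constructor
    · refine h3.trans ?_
      rw [(jd n ρ _ hp).deriv]
      congr 1
      show _ = -(n : ℝ) * (J ρ p x ^ (n + 2))⁻¹
      unfold J
      ring
    · refine h4.trans ?_
      rw [(jd n ρ _ hp).deriv, jdd n ρ _ hp]
      have hw := hJ x
      change 4 * ‖x - p‖ ^ 2 * ((n : ℝ) * (n + 2) / 4 * (J ρ p x ^ (n + 4))⁻¹) +
        2 * m * (-((n : ℝ) / 2) * (J ρ p x ^ (n + 2))⁻¹) = _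
      have e : (J ρ p x ^ (n + 2))⁻¹ = (J ρ p x ^ (n + 4))⁻¹ * J ρ p x ^ 2 := by
        field_simp
        ring
      rw [e]
      ring
  · have hI : Ici (0 : ℝ) ⊆ univ := subset_univ _
    obtain ⟨h1, h2⟩ := hrad p (fun s : ℝ => (max 0 (1 - s / ρ ^ 2)) ^ 3) univ isOpen_univ hI
      (cd3 ρ).contDiffOn
    refine ⟨h1, fun x => ⟨?_, ?_⟩, fun x hx => ?_, fun x hx => ?_, fun x => ?_, fun x => ?_⟩
    · unfold bmp
      exact pow_nonneg (le_max_left _ _) 3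
    · unfold bmp
      apply pow_le_one₀ (le_max_left _ _)
      apply max_le (by norm_num)
      have : 0 ≤ ‖x - p‖ ^ 2 / ρ ^ 2 := by positivity
      linarith
    · unfold bmp
      have h3 : 1 ≤ ‖x - p‖ ^ 2 / ρ ^ 2 := by
        rw [le_div_iff₀ hρ2, one_mul]
        exact pow_le_pow_left₀ hρ.le hx 2
      rw [max_eq_left (by linarith)]
      norm_num
    · unfold bmp
      have h3 : ‖x - p‖ ^ 2 / ρ ^ 2 ≤ 1 / 4 := by
        rw [div_le_iff₀ hρ2]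
        have := pow_le_pow_left₀ (norm_nonneg _) hx 2
        nlinarith
      have h4 : (3 : ℝ) / 4 ≤ max 0 (1 - ‖x - p‖ ^ 2 / ρ ^ 2) :=
        le_trans (by linarith) (le_max_right _ _)
      calc (27 : ℝ) / 64 = (3 / 4) ^ 3 := by norm_num
        _ ≤ _ := pow_le_pow_left₀ (by norm_num) h4 3
    · refine (h2 x).1.trans ?_
      rw [dq3]
      congr 1
      ring
    · refine (h2 x).2.trans ?_
      rw [ddq3, dq3]
      ring

end Pool.Agent.COB
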