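import Pool.Agent.COB.Stmts

set_option autoImplicit false

namespace Pool.Agent.COB

open MeasureTheory Set Metric Filter Topology
open scoped ENNReal

theorem kat_proof (hWBA : Stmt_WBA) (_hWUN : Stmt_WUN) (hWPP : Stmt_WPP) (hWMM : Stmt_WMM)
    (hWEX : Stmt_WEX) (hTBA : Stmt_TBA) : Stmt_KAT := by
  intro m B K P dP hB hK hP hen hnn hcrit
  refine ⟨⟨hP, ?_⟩, hen, hnn⟩
  intro η dη hη hη0
  have hBm := hB.measurableSet
  obtain ⟨-, hηint, -, -, hinn⟩ := hWEX m B η dη hB hη
  have hI : IntegrableOn (fun x => inner ℝ (dP x) (dη x)) B := hinn P dP hP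
  have hnull := (hWPP m B P dP hB hP).2
  -- approximations
  have happ : ∀ n : ℕ, ∫ x in B, min ((n : ℝ) * P x) 1 * inner ℝ (dP x) (dη x) ≤
      K * ∫ x in B, η x := by
    intro n
    have h1 := (hWBA m B hB).2.2.1 (n : ℝ) P dP hP
    have h2 := (hWBA m B hB).2.2.2.2.2 1
    obtain ⟨dN, hdN, hdN'⟩ := (hWMM m B _ _ _ _ hB h1 h2).2.1
    have h3 := (hTBA m B (fun _ => 0) hB continuous_const).2.2.2.2.1 η dη _ dN hη hdN
    have hf0 : ∀ x ∈ B, 0 ≤ min ((n : ℝ) * P x) 1 := fun x hx =>
      le_min (mul_nonneg (Nat.cast_nonneg _) (hnn x hx)) zero_le_one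
    have h4 := hcrit _ _ h3 (fun x hx => mul_nonneg (hη0 x hx) (hf0 x hx)) (by
      intro x hx h0
      simp [h0])
    obtain ⟨-, hξint, -, -, hinn3⟩ := hWEX m B _ _ hB h3
    have h5 := hinn3 P dP hP
    have hmeas : AEStronglyMeasurable (fun x => min ((n : ℝ) * P x) 1) (volume.restrict B) :=
      hdN.cont.aestronglyMeasurable hBm
    have hI2 : IntegrableOn (fun x => min ((n : ℝ) * P x) 1 * inner ℝ (dP x) (dη x)) B := by
      refine Integrable.bdd_mul hI hmeas (c := 1) ?_
      rw [ae_restrict_iff' hBm]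
      refine Eventually.of_forall fun x hx => ?_
      rw [Real.norm_eq_abs, abs_of_nonneg (hf0 x hx)]
      exact min_le_right _ _
    calc ∫ x in B, min ((n : ℝ) * P x) 1 * inner ℝ (dP x) (dη x)
        ≤ ∫ x in B, inner ℝ (dP x) (min ((n : ℝ) * P x) 1 • dη x + η x • dN x) := by
          apply setIntegral_mono_on hI2 h5 hBm
          intro x hx
          rw [inner_add_right, inner_smul_right, inner_smul_right]
          have : 0 ≤ η x * inner ℝ (dP x) (dN x) := by
            apply mul_nonneg (hη0 x hx)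
            by_cases hlt : (n : ℝ) * P x < 1
            · rw [(hdN' x).1 hlt, inner_smul_right]
              exact mul_nonneg (Nat.cast_nonneg _) real_inner_self_nonneg
            · rw [(hdN' x).2 (not_lt.mp hlt), inner_zero_right]
          linarith
      _ ≤ K * ∫ x in B, η x * min ((n : ℝ) * P x) 1 := h4
      _ ≤ K * ∫ x in B, η x := by
          apply mul_le_mul_of_nonneg_left _ hK
          apply setIntegral_mono_on hξint hηint hBm
          intro x hx
          calc η x * min ((n : ℝ) * P x) 1 ≤ η x * 1 :=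
                mul_le_mul_of_nonneg_left (min_le_right _ _) (hη0 x hx)
            _ = η x := mul_one _
  -- limit
  have hlim : Tendsto (fun n : ℕ => ∫ x in B, min ((n : ℝ) * P x) 1 * inner ℝ (dP x) (dη x)) atTop
      (𝓝 (∫ x in B, inner ℝ (dP x) (dη x))) := by
    apply tendsto_integral_of_dominated_convergence (fun x => ‖(inner ℝ (dP x) (dη x) : ℝ)‖)
    · intro n
      refine AEStronglyMeasurable.mul ?_ hI.aestronglyMeasurable
      have : ContinuousOn (fun x => min ((n : ℝ) * P x) 1) B :=
        ContinuousOn.inf (continuousOn_const.mul hP.cont) continuousOn_const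
      exact this.aestronglyMeasurable hBm
    · exact hI.norm
    · intro n
      rw [ae_restrict_iff' hBm]
      refine Eventually.of_forall fun x hx => ?_
      have hf0 : 0 ≤ min ((n : ℝ) * P x) 1 :=
        le_min (mul_nonneg (Nat.cast_nonneg _) (hnn x hx)) zero_le_one
      rw [norm_mul, Real.norm_eq_abs, abs_of_nonneg hf0]
      calc min ((n : ℝ) * P x) 1 * ‖(inner ℝ (dP x) (dη x) : ℝ)‖
          ≤ 1 * ‖(inner ℝ (dP x) (dη x) : ℝ)‖ :=
            mul_le_mul_of_nonneg_right (min_le_right _ _) (norm_nonneg _)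
        _ = _ := one_mul _
    · rw [ae_restrict_iff' hBm]
      filter_upwards [hnull] with x hx hxB
      rcases (hnn x hxB).eq_or_lt with h0 | h0
      · rw [hx hxB h0.symm]
        simp
      · have hev : ∀ᶠ n : ℕ in atTop, min ((n : ℝ) * P x) 1 * inner ℝ (dP x) (dη x) =
            inner ℝ (dP x) (dη x) := by
          obtain ⟨N, hN⟩ := exists_nat_gt (1 / P x)
          filter_upwards [eventually_ge_atTop N] with n hn
          have h6 : 1 ≤ (n : ℝ) * P x := by
            have h7 : (N : ℝ) ≤ n := by exact_mod_cast hn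
            have h8 : 1 / P x < n := lt_of_lt_of_le hN h7
            rw [div_lt_iff₀ h0] at h8
            exact h8.le
          rw [min_eq_right h6, one_mul]
        exact (tendsto_congr' hev).mpr tendsto_const_nhds
  exact le_of_tendsto' hlim happ

end Pool.Agent.COB
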