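import Pool.Agent.COB.Stmts

set_option autoImplicit false

namespace Pool.Agent.COB

open MeasureTheory Set Metric Filter Topology

theorem ker_proof (hLPC : Stmt_LPC) (hJBM : Stmt_JBM) (hGEF : Stmt_GEF) : Stmt_KER := by
  intro m hm
  refine ⟨1 + 4 * m, by positivity, ?_⟩
  intro F φ p R L i hG ρ hρ hρR x hx
  obtain ⟨-, h2, -, -, -⟩ := hLPC m
  obtain ⟨hJ, hJn, -⟩ := hJBM m p ρ hρ
  obtain ⟨hJ0, hJρ, hJx, hJ2⟩ := hJ x
  obtain ⟨hc, hgl⟩ := hJn m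
  obtain ⟨hgr, hlp⟩ := hgl x
  obtain ⟨-, -, -, hg4, -⟩ := hGEF m F φ p R L i hG
  have hg := (hg4 x hx).2.2
  have hLF := hG.lF x hx
  have hL := hG.hL
  obtain ⟨-, -, -, hprod⟩ := h2 F (fun y => (J ρ p y ^ m)⁻¹) hG.cF hc x
  rw [hprod, hgr, hlp, inner_smul_right]
  set j : ℝ := J ρ p x with hj
  set a : ℝ := inner ℝ (gradient F x) (x - p) with ha
  have hn : ‖x - p‖ ^ 2 = j ^ 2 - ρ ^ 2 := by linarith
  have key : (j ^ m)⁻¹ * lp F x + 2 * (-(m : ℝ) * (j ^ (m + 2))⁻¹ * a) +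
      F x * ((j ^ (m + 4))⁻¹ * ((m : ℝ) * (m + 2) * ‖x - p‖ ^ 2 - m * m * j ^ 2)) +
      m * (m + 2) * ρ ^ 2 * F x * (j ^ (m + 4))⁻¹ =
      (j ^ m)⁻¹ * (lp F x - 2 * m * ((a - F x) / j ^ 2)) := by
    rw [hn]
    field_simp
    ring
  rw [key, abs_mul, abs_of_pos (by positivity : 0 < (j ^ m)⁻¹)]
  have h5 : |(a - F x) / j ^ 2| ≤ 2 * L := by
    rw [abs_div, abs_of_pos (by positivity : 0 < j ^ 2), div_le_iff₀ (by positivity)]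
    refine hg.trans ?_
    have : ‖x - p‖ ^ 2 ≤ j ^ 2 := by nlinarith [norm_nonneg (x - p)]
    nlinarith
  have h6 : |lp F x - 2 * m * ((a - F x) / j ^ 2)| ≤ (1 + 4 * m) * L := by
    have hm0 : (0 : ℝ) ≤ m := Nat.cast_nonneg m
    calc |lp F x - 2 * m * ((a - F x) / j ^ 2)|
        ≤ |lp F x| + |2 * m * ((a - F x) / j ^ 2)| := abs_sub _ _
      _ = |lp F x| + 2 * m * |(a - F x) / j ^ 2| := by
          rw [abs_mul (2 * (m : ℝ)), abs_of_nonneg (by positivity : (0 : ℝ) ≤ 2 * m)]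
      _ ≤ L + 2 * m * (2 * L) := by gcongr
      _ = (1 + 4 * m) * L := by ring
  calc (j ^ m)⁻¹ * |lp F x - 2 * m * ((a - F x) / j ^ 2)|
      ≤ (j ^ m)⁻¹ * ((1 + 4 * m) * L) := by gcongr
    _ = (1 + 4 * m) * L * (j ^ m)⁻¹ := by ring

end Pool.Agent.COB
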