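import Pool.Agent.COB.Stmts

/-!
Squad COB, module KF2: the Laplacian of `F² bmp`.
-/

set_option autoImplicit false

namespace Pool.Agent.COB

open MeasureTheory Set Metric Filter Topology

namespace KF2_

/-- the algebraic form of the Laplacian -/
theorem formula (hLPC : Stmt_LPC) (hJBM : Stmt_JBM) {m : ℕ} (F : E m → ℝ) (p : E m) (ρ : ℝ)
    (hρ : 0 < ρ) (cF : ContDiff ℝ 2 F) (x : E m) (hx : x ∈ ball p ρ) :
    ∃ q : ℝ, 0 < q ∧ q ≤ 1 ∧ ‖x - p‖ ^ 2 = (1 - q) * ρ ^ 2 ∧ bmp ρ p x = q ^ 3 ∧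
      lp (fun y => F y ^ 2 * bmp ρ p y) x =
        q * (q ^ 2 * (2 * F x * lp F x + 2 * ‖gradient F x‖ ^ 2) - 24 * q * (F x / ρ) ^ 2 -
          24 * q * (F x / ρ) * ((inner ℝ (gradient F x) (x - p) - F x) / ρ) +
          (F x / ρ) ^ 2 * (24 * (1 - q) - 6 * m * q)) := by
  obtain ⟨-, -, hcb, -, -, -, hgb, hlb⟩ := hJBM m p ρ hρ
  have hL := (hLPC m).2.1
  have hρ2 : 0 < ρ ^ 2 := by positivity
  have hlt : ‖x - p‖ < ρ := by rwa [mem_ball, dist_eq_norm] at hx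
  have hlt2 : ‖x - p‖ ^ 2 < ρ ^ 2 := by
    have := norm_nonneg (x - p)
    nlinarith
  have hq0 : 0 < 1 - ‖x - p‖ ^ 2 / ρ ^ 2 := by
    rw [sub_pos, div_lt_one hρ2]
    exact hlt2
  have hmax : max 0 (1 - ‖x - p‖ ^ 2 / ρ ^ 2) = 1 - ‖x - p‖ ^ 2 / ρ ^ 2 := max_eq_right hq0.le
  have hgx := hgb x
  have hlx := hlb x
  rw [hmax] at hgx hlx
  refine ⟨1 - ‖x - p‖ ^ 2 / ρ ^ 2, hq0, ?_, ?_, ?_, ?_⟩
  · have : 0 ≤ ‖x - p‖ ^ 2 / ρ ^ 2 := by positivity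
    linarith
  · field_simp
    ring
  · unfold bmp
    rw [hmax]
  · have hFF : ContDiff ℝ 2 (fun y => F y * F y) := cF.mul cF
    have e0 : (fun y => F y ^ 2 * bmp ρ p y) = fun y => (F y * F y) * bmp ρ p y := by
      funext y
      ring
    have h1 := (hL F F cF cF x).2.2
    have h2 := (hL (fun y => F y * F y) (bmp ρ p) hFF hcb x).2.2.2
    rw [e0, h2, h1.1, h1.2, hgx, hlx]
    have hb : bmp ρ p x = (1 - ‖x - p‖ ^ 2 / ρ ^ 2) ^ 3 := by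
      unfold bmp
      rw [hmax]
    rw [hb]
    have hs : ‖x - p‖ ^ 2 = (1 - (1 - ‖x - p‖ ^ 2 / ρ ^ 2)) * ρ ^ 2 := by
      field_simp
      ring
    set q := 1 - ‖x - p‖ ^ 2 / ρ ^ 2 with hq
    rw [inner_add_left, real_inner_smul_left, real_inner_smul_right,
      real_inner_self_eq_norm_sq, hs]
    have hρ0 : ρ ≠ 0 := hρ.ne'
    field_simp
    ring

theorem real1 (m : ℕ) (q f ε A : ℝ) (hq0 : 0 < q) (hq1 : q ≤ 1) (hf : |f| ≤ 1001 / 1000)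
    (hε : |ε| ≤ 1 / 500) (hA1 : 199 / 100 ≤ A) (hA2 : A ≤ 201 / 100) :
    19 / 10 * q ^ 3 - (60 + 7 * (m : ℝ)) * |f| ≤
      q * (q ^ 2 * A - 24 * q * f ^ 2 - 24 * q * f * ε + f ^ 2 * (24 * (1 - q) - 6 * m * q)) ∧
    |q * (q ^ 2 * A - 24 * q * f ^ 2 - 24 * q * f * ε + f ^ 2 * (24 * (1 - q) - 6 * m * q))| ≤
      60 + 7 * (m : ℝ) := by
  have hm : (0 : ℝ) ≤ m := Nat.cast_nonneg m
  have hf0 := abs_nonneg f
  have hf2 : f ^ 2 = |f| ^ 2 := (sq_abs f).symm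
  have hf3 : f ^ 2 ≤ 1001 / 1000 * |f| := by rw [hf2]; nlinarith
  have hf4 : f ^ 2 ≤ 1003 / 1000 := by nlinarith
  have hf5 : 0 ≤ f ^ 2 := sq_nonneg f
  have hq2 : q ^ 2 ≤ 1 := by nlinarith
  have hq2' : 0 ≤ q ^ 2 := sq_nonneg q
  have hq3 : q ^ 3 ≤ 1 := by nlinarith [pow_pos hq0 3]
  have hq3' : 0 ≤ q ^ 3 := (pow_pos hq0 3).le
  have hfe : |f * ε| ≤ 1 / 500 * |f| := by
    rw [abs_mul]
    nlinarith [abs_nonneg ε]
  have hfe1 := (abs_le.1 hfe).1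
  have hfe2 := (abs_le.1 hfe).2
  have e : q * (q ^ 2 * A - 24 * q * f ^ 2 - 24 * q * f * ε +
      f ^ 2 * (24 * (1 - q) - 6 * m * q)) =
      q ^ 3 * A - 24 * (q ^ 2 * f ^ 2) - 24 * (q ^ 2 * (f * ε)) +
        24 * ((q * (1 - q)) * f ^ 2) - 6 * (m * (q ^ 2 * f ^ 2)) := by ring
  rw [e]
  have b1 : q ^ 2 * f ^ 2 ≤ f ^ 2 := by nlinarith
  have b1' : 0 ≤ q ^ 2 * f ^ 2 := by positivity
  have b2 : q ^ 2 * (f * ε) ≤ 1 / 500 * |f| := by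
    have : q ^ 2 * (f * ε) ≤ q ^ 2 * (1 / 500 * |f|) := mul_le_mul_of_nonneg_left hfe2 hq2'
    nlinarith
  have b2' : -(1 / 500 * |f|) ≤ q ^ 2 * (f * ε) := by
    have : q ^ 2 * (-(1 / 500 * |f|)) ≤ q ^ 2 * (f * ε) := mul_le_mul_of_nonneg_left hfe1 hq2'
    nlinarith
  have hqq : q * (1 - q) ≤ 1 := by nlinarith
  have hqq' : 0 ≤ q * (1 - q) := mul_nonneg hq0.le (by linarith)
  have b3 : (q * (1 - q)) * f ^ 2 ≤ f ^ 2 := by nlinarith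
  have b3' : 0 ≤ (q * (1 - q)) * f ^ 2 := by positivity
  have b4 : m * (q ^ 2 * f ^ 2) ≤ m * (1001 / 1000 * |f|) :=
    mul_le_mul_of_nonneg_left (le_trans b1 hf3) hm
  have b4' : 0 ≤ m * (q ^ 2 * f ^ 2) := by positivity
  have b5 : m * (q ^ 2 * f ^ 2) ≤ m * (1003 / 1000) :=
    mul_le_mul_of_nonneg_left (le_trans b1 hf4) hm
  have b6 : q ^ 3 * A ≤ 201 / 100 := by nlinarith
  have b6' : 199 / 100 * q ^ 3 ≤ q ^ 3 * A := by nlinarith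
  have hmf : 0 ≤ m * |f| := by positivity
  constructor
  · nlinarith
  · rw [abs_le]
    constructor <;> nlinarith

theorem real2 (m : ℕ) (q f ε A : ℝ) (hq0 : 0 < q) (hq1 : q ≤ 1)
    (hf : |f| ≤ (2 / (8 + m)) ^ 2 / (10 + 2 * m)) (hε : |ε| ≤ 1 / 500) (hA1 : 199 / 100 ≤ A) :
    0 ≤ q * (q ^ 2 * A - 24 * q * f ^ 2 - 24 * q * f * ε +
      f ^ 2 * (24 * (1 - q) - 6 * m * q)) ∧
    (3 / 4 ≤ q → (2 / (8 + m) : ℝ) ^ 3 ≤
      q * (q ^ 2 * A - 24 * q * f ^ 2 - 24 * q * f * ε +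
        f ^ 2 * (24 * (1 - q) - 6 * m * q))) := by
  have hm : (0 : ℝ) ≤ m := Nat.cast_nonneg m
  have hf0 := abs_nonneg f
  have hf2 : f ^ 2 = |f| ^ 2 := (sq_abs f).symm
  have h8 : (0 : ℝ) < 8 + m := by positivity
  have h10 : (0 : ℝ) < 10 + 2 * m := by positivity
  set q0 : ℝ := 2 / (8 + m) with hq0d
  have hq0p : 0 < q0 := by positivity
  have hq01 : q0 ≤ 1 / 4 := by
    rw [hq0d, div_le_iff₀ h8]
    linarith
  have hq0m : q0 * (8 + m) = 2 := by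
    rw [hq0d]
    field_simp
  have hfe : |f * ε| ≤ 1 / 500 * |f| := by
    rw [abs_mul]
    nlinarith [abs_nonneg ε]
  have hfe2 := (abs_le.1 hfe).2
  have hf10 : |f| * (10 + 2 * m) ≤ q0 ^ 2 := by
    rwa [le_div_iff₀ h10] at hf
  have hfs : |f| ≤ 1 / 100 := by nlinarith [mul_nonneg hf0 hm]
  -- the bracket is at least
  have hB : q ^ 2 * (199 / 100) - 12 / 125 * q * |f| + f ^ 2 * (24 - 6 * (8 + m) * q) ≤
      q ^ 2 * A - 24 * q * f ^ 2 - 24 * q * f * ε + f ^ 2 * (24 * (1 - q) - 6 * m * q) := by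
    have h1 : q ^ 2 * (199 / 100) ≤ q ^ 2 * A := mul_le_mul_of_nonneg_left hA1 (sq_nonneg q)
    have h2 : q * (f * ε) ≤ q * (1 / 500 * |f|) := mul_le_mul_of_nonneg_left hfe2 hq0.le
    have h3 : 0 ≤ q * |f| := by positivity
    nlinarith
  by_cases hqq : q ≤ q0
  · have h1 : 12 ≤ 24 - 6 * (8 + m) * q := by nlinarith
    have h2 : f ^ 2 * 12 ≤ f ^ 2 * (24 - 6 * (8 + m) * q) :=
      mul_le_mul_of_nonneg_left h1 (sq_nonneg f)
    have h3 : 0 ≤ q ^ 2 * (199 / 100) - 12 / 125 * q * |f| + f ^ 2 * 12 := by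
      rw [hf2]
      nlinarith [sq_nonneg (q - |f|), sq_nonneg q, sq_nonneg (|f|)]
    refine ⟨mul_nonneg hq0.le (by linarith), fun h => ?_⟩
    linarith
  · push Not at hqq
    have h1 : -(24 + 6 * m) ≤ 24 - 6 * (8 + m) * q := by nlinarith
    have h2 : f ^ 2 * (-(24 + 6 * m)) ≤ f ^ 2 * (24 - 6 * (8 + m) * q) :=
      mul_le_mul_of_nonneg_left h1 (sq_nonneg f)
    have h3 : f ^ 2 * (24 + 6 * m) ≤ 3 / 100 * q0 ^ 2 := by
      have h31 : f ^ 2 * (24 + 6 * m) = |f| * (|f| * (24 + 6 * m)) := by rw [hf2]; ring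
      have h32 : |f| * (24 + 6 * m) ≤ 3 * q0 ^ 2 := by nlinarith
      have h33 : 0 ≤ |f| * (24 + 6 * m) := by positivity
      rw [h31]
      nlinarith
    have h4 : q * |f| ≤ q0 ^ 2 := by
      have h41 : |f| ≤ q0 ^ 2 := by nlinarith [mul_nonneg hf0 hm]
      nlinarith
    have h5 : q0 ^ 2 ≤ q ^ 2 := by nlinarith
    have h6 : q0 ^ 2 ≤ q ^ 2 * A - 24 * q * f ^ 2 - 24 * q * f * ε +
        f ^ 2 * (24 * (1 - q) - 6 * m * q) := by nlinarith [sq_nonneg q0]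
    have h7 : 0 ≤ q0 ^ 2 := sq_nonneg q0
    refine ⟨mul_nonneg hq0.le (by linarith), fun h => ?_⟩
    calc q0 ^ 3 = q0 * q0 ^ 2 := by ring
      _ ≤ q * q0 ^ 2 := mul_le_mul_of_nonneg_right hqq.le h7
      _ ≤ _ := mul_le_mul_of_nonneg_left h6 hq0.le

/-- common estimates -/
theorem est (hGEF : Stmt_GEF) {m : ℕ} (hm : 0 < m) {F φ : E m → ℝ} {p : E m} {R L : ℝ}
    {i : Fin m} (hG : Geo F φ p R L i) (ρ : ℝ) (hρ : 0 < ρ) (hρR : ρ ≤ R) (x : E m)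
    (hx : x ∈ ball p ρ) :
    |F x / ρ| ≤ 1001 / 1000 ∧
    |(inner ℝ (gradient F x) (x - p) - F x) / ρ| ≤ 1 / 500 ∧
    199 / 100 ≤ 2 * F x * lp F x + 2 * ‖gradient F x‖ ^ 2 ∧
    2 * F x * lp F x + 2 * ‖gradient F x‖ ^ 2 ≤ 201 / 100 := by
  obtain ⟨hR, hg, -, hF, -, -⟩ := hGEF m F φ p R L i hG
  have hxR : x ∈ ball p R := ball_subset_ball hρR hx
  have hxn : ‖x - p‖ < ρ := by rwa [mem_ball, dist_eq_norm] at hx
  have hn := norm_nonneg (x - p)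
  obtain ⟨-, hg1, hg2, -⟩ := hg x hxR
  obtain ⟨hF1, -, hF2⟩ := hF x hxR
  have hL := hG.hL
  have hRp := hG.hR
  have hm1 : (1 : ℝ) ≤ m := by exact_mod_cast hm
  have hLR : L * R ≤ 1 / 1000 := by
    have h1 := hG.sm
    have h2 : 0 < L * R := by positivity
    nlinarith
  have hl := hG.lF x hxR
  have hFx : |F x| ≤ 1001 / 1000 * R := by
    refine hF1.trans ?_
    have : ‖x - p‖ ≤ R := (hxn.le).trans hρR
    linarith
  have hFl : |F x * lp F x| ≤ 2 / 1000 := by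
    rw [abs_mul]
    calc |F x| * |lp F x| ≤ (1001 / 1000 * R) * L :=
          mul_le_mul hFx hl (abs_nonneg _) (by positivity)
      _ ≤ 2 / 1000 := by nlinarith
  have hFl1 := (abs_le.1 hFl).1
  have hFl2 := (abs_le.1 hFl).2
  have hgn := norm_nonneg (gradient F x)
  have hgs1 : ‖gradient F x‖ ^ 2 ≤ 1003 / 1000 := by nlinarith
  have hgs2 : 997 / 1000 ≤ ‖gradient F x‖ ^ 2 := by nlinarith
  refine ⟨?_, ?_, ?_, ?_⟩
  · rw [abs_div, abs_of_pos hρ, div_le_iff₀ hρ]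
    refine hF1.trans ?_
    linarith
  · rw [abs_div, abs_of_pos hρ, div_le_iff₀ hρ]
    refine hF2.trans ?_
    have h1 : ‖x - p‖ ^ 2 ≤ ρ * ρ := by nlinarith
    have h2 : L * ρ ≤ 1 / 1000 := by nlinarith
    have h3 : L * ‖x - p‖ ^ 2 ≤ L * (ρ * ρ) := mul_le_mul_of_nonneg_left h1 (by linarith)
    nlinarith
  · nlinarith
  · nlinarith

end KF2_

open KF2_ in
theorem kf2_proof (hLPC : Stmt_LPC) (hJBM : Stmt_JBM) (hGEF : Stmt_GEF) : Stmt_KF2 := by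
  intro m hm
  refine ⟨⟨60 + 7 * (m : ℝ), by positivity, ?_⟩,
    ⟨2 * ((2 / (8 + m)) ^ 2 / (10 + 2 * m)), by positivity, (2 / (8 + m)) ^ 3, by positivity,
      ?_⟩⟩
  · intro F φ p R L i hG r hr hrR x hx
    obtain ⟨q, hq0, hq1, hq, hb, hf⟩ := formula hLPC hJBM F p r hr hG.cF x hx
    obtain ⟨h1, h2, h3, h4⟩ := est hGEF hm hG r hr hrR x hx
    obtain ⟨k1, k2⟩ := real1 m q (F x / r) _ _ hq0 hq1 h1 h2 h3 h4
    rw [hf, hb]
    refine ⟨?_, k2⟩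
    refine le_trans (le_of_eq ?_) k1
    rw [abs_div, abs_of_pos hr]
    ring
  · intro F φ p R L i hG r hr hrR x hx hFx
    have h2r : 0 < 2 * r := by positivity
    obtain ⟨q, hq0, hq1, hq, hb, hf⟩ := formula hLPC hJBM F p (2 * r) h2r hG.cF x hx
    obtain ⟨h1, h2, h3, h4⟩ := est hGEF hm hG (2 * r) h2r hrR x hx
    have hf' : |F x / (2 * r)| ≤ (2 / (8 + m)) ^ 2 / (10 + 2 * m) := by
      rw [abs_div, abs_of_pos h2r, div_le_iff₀ h2r]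
      refine hFx.trans (le_of_eq ?_)
      ring
    obtain ⟨k1, k2⟩ := real2 m q (F x / (2 * r)) _ _ hq0 hq1 hf' h2 h3
    rw [hf]
    refine ⟨k1, fun hxr => k2 ?_⟩
    have hn := norm_nonneg (x - p)
    have h5 : ‖x - p‖ ^ 2 ≤ r ^ 2 := by nlinarith
    rw [hq] at h5
    have h6 : (1 - q) * 4 ≤ 1 := by
      have h7 : (1 - q) * (2 * r) ^ 2 = ((1 - q) * 4) * r ^ 2 := by ring
      rw [h7] at h5
      have h8 : 0 < r ^ 2 := by positivity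
      by_contra hcon
      push Not at hcon
      nlinarith
    linarith

end Pool.Agent.COB
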