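import Pool.Agent.COB.Stmts

/-!
Squad COB, module WIT: integration by parts of a test function against a C² function.
-/

set_option autoImplicit false

namespace Pool.Agent.COB

open MeasureTheory Set Metric Filter Topology

namespace WIT_

noncomputable section

variable {m : ℕ}

open scoped Manifold ContDiff in
/-- smooth cut-off function -/
theorem cutoff {B C : Set (E m)} (hB : IsOpen B) (hC : IsCompact C) (hCB : C ⊆ B) :
    ∃ χ : E m → ℝ, ContDiff ℝ 2 χ ∧ (∀ x ∈ C, χ =ᶠ[𝓝 x] fun _ => 1) ∧ HasCompactSupport χ ∧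
      tsupport χ ⊆ B := by
  obtain ⟨K, hK, hCK, hKB⟩ := exists_compact_between hC hB hCB
  obtain ⟨f, hf1, hf0, -⟩ := exists_contMDiffMap_one_nhds_of_subset_interior (n := 2)
    (𝓘(ℝ, E m)) hC.isClosed hCK
  have hts : tsupport (f : E m → ℝ) ⊆ K := by
    apply closure_minimal _ hK.isClosed
    intro x hx
    by_contra h1
    exact hx (hf0 x h1)
  refine ⟨f, ?_, ?_, ?_, hts.trans hKB⟩
  · have h1 : ContDiff ℝ 2 (f : E m → ℝ) := f.contMDiff.contDiff
    exact h1
  · intro x hx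
    exact hf1.filter_mono (nhds_le_nhdsSet hx)
  · exact HasCompactSupport.intro hK (fun x hx => hf0 x hx)

theorem lp_congr {f g : E m → ℝ} {x : E m} (h : f =ᶠ[𝓝 x] g) : lp f x = lp g x := by
  unfold lp
  apply Finset.sum_congr rfl
  intro j _
  have h1 : (fun y => fderiv ℝ f y (bs j)) =ᶠ[𝓝 x] fun y => fderiv ℝ g y (bs j) := by
    filter_upwards [h.fderiv (𝕜 := ℝ)] with y hy
    rw [hy]
  rw [h1.fderiv_eq]

theorem gradient_congr {f g : E m → ℝ} {x : E m} (h : f =ᶠ[𝓝 x] g) :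
    gradient f x = gradient g x := by
  unfold gradient
  rw [h.fderiv_eq]

end

end WIT_

open WIT_ in
theorem wit_proof (hWIB : Stmt_WIB) (hWEX : Stmt_WEX) (_hLPC : Stmt_LPC) : Stmt_WIT := by
  intro m B b ξ dξ hB hb hT
  obtain ⟨C, hCB, hC, hC0⟩ := hT.cs
  obtain ⟨χ, hχ, hχ1, hχc, hχs⟩ := cutoff hB hC hCB
  have hae := (hWEX m B ξ dξ hB hT).2.2.1 C hC hCB hC0
  have hζ : ContDiff ℝ 2 (fun x => χ x * b x) := hχ.mul hb
  have hζc : HasCompactSupport (fun x => χ x * b x) := hχc.mul_right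
  have hζs : tsupport (fun x => χ x * b x) ⊆ B := (tsupport_mul_subset_left).trans hχs
  obtain ⟨h1, h2, h3⟩ := (hWIB m B ξ dξ hB hT.wg).2 _ hζ hζc hζs
  have hloc : ∀ x ∈ C, (fun y => χ y * b y) =ᶠ[𝓝 x] b := by
    intro x hx
    filter_upwards [hχ1 x hx] with y hy
    rw [hy, one_mul]
  have hB' : ∀ᵐ x ∂(volume.restrict B), x ∈ B := ae_restrict_mem hB.measurableSet
  have e1 : (fun x => (inner ℝ (dξ x) (gradient (fun y => χ y * b y) x) : ℝ))
      =ᵐ[volume.restrict B] fun x => inner ℝ (gradient b x) (dξ x) := by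
    filter_upwards [hB', ae_restrict_of_ae hae] with x hx hx0
    by_cases hxC : x ∈ C
    · rw [gradient_congr (hloc x hxC), real_inner_comm]
    · rw [hx0 ⟨hx, hxC⟩, inner_zero_left, inner_zero_right]
  have e2 : (fun x => ξ x * lp (fun y => χ y * b y) x)
      =ᵐ[volume.restrict B] fun x => lp b x * ξ x := by
    filter_upwards [hB'] with x hx
    by_cases hxC : x ∈ C
    · rw [lp_congr (hloc x hxC), mul_comm]
    · rw [hC0 x ⟨hx, hxC⟩, zero_mul, mul_zero]
  refine ⟨Integrable.congr h1 e1, Integrable.congr h2 e2, ?_⟩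
  rw [← integral_congr_ae e1, ← integral_congr_ae e2]
  exact h3

end Pool.Agent.COB
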