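import Pool.Agent.COB.Stmts
import Pool.Agent.COB.WIT

/-!
Squad COB, module LAY: layers, upper bound.
-/

set_option autoImplicit false

namespace Pool.Agent.COB

open MeasureTheory Set Metric Filter Topology
open scoped ENNReal

namespace LAY_

noncomputable section

/-- smooth sign -/
def kap (s : ℝ) : ℝ := 2 * Real.smoothTransition ((s + 1) / 2) - 1

lemma kap_smooth : ContDiff ℝ 2 kap := by
  unfold kap
  have h : ContDiff ℝ 2 Real.smoothTransition := Real.smoothTransition.contDiff
  have h2 : ContDiff ℝ 2 (fun s : ℝ => (s + 1) / 2) := by fun_prop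
  exact (contDiff_const.mul (h.comp h2)).sub contDiff_const

lemma kap_le (s : ℝ) : |kap s| ≤ 1 := by
  unfold kap
  have h1 := Real.smoothTransition.nonneg ((s + 1) / 2)
  have h2 := Real.smoothTransition.le_one ((s + 1) / 2)
  rw [abs_le]; constructor <;> linarith

lemma kap_one {s : ℝ} (h : 1 ≤ s) : kap s = 1 := by
  unfold kap
  rw [Real.smoothTransition.one_of_one_le (by linarith)]; norm_num

lemma kap_neg {s : ℝ} (h : s ≤ -1) : kap s = -1 := by
  unfold kap
  rw [Real.smoothTransition.zero_of_nonpos (by linarith)]; norm_num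

lemma kap_cont : Continuous kap := kap_smooth.continuous

lemma dkap_cont : Continuous (deriv kap) := kap_smooth.continuous_deriv (by norm_num)

lemma dkap_zero {s : ℝ} (h : 1 < |s|) : deriv kap s = 0 := by
  rcases lt_abs.mp h with h | h
  · have : kap =ᶠ[𝓝 s] fun _ => 1 := by
      filter_upwards [lt_mem_nhds h] with x hx
      exact kap_one hx.le
    rw [this.deriv_eq]; simp
  · have : kap =ᶠ[𝓝 s] fun _ => -1 := by
      filter_upwards [gt_mem_nhds (show s < -1 by linarith)] with x hx
      exact kap_neg hx.le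
    rw [this.deriv_eq]; simp

lemma dkap_bound : ∃ M > 0, ∀ s, |deriv kap s| ≤ M := by
  obtain ⟨M, hM⟩ := isCompact_Icc.exists_bound_of_continuousOn (s := Icc (-1 : ℝ) 1)
    dkap_cont.continuousOn
  refine ⟨max M 1, lt_of_lt_of_le one_pos (le_max_right _ _), fun s => ?_⟩
  by_cases h : 1 < |s|
  · rw [dkap_zero h, abs_zero]; positivity
  · have h' : s ∈ Icc (-1 : ℝ) 1 := by
      rw [mem_Icc]; exact abs_le.mp (not_lt.mp h)
    exact le_trans (hM s h') (le_max_left _ _)

/-- primitive of the smooth sign -/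
def KK (s : ℝ) : ℝ := ∫ u in (0 : ℝ)..s, kap u

lemma KK_hasDeriv (s : ℝ) : HasDerivAt KK (kap s) s :=
  (kap_cont.integral_hasStrictDerivAt 0 s).hasDerivAt

lemma KK_deriv : deriv KK = kap := funext fun s => (KK_hasDeriv s).deriv

lemma KK_smooth : ContDiff ℝ 2 KK := by
  have h : ContDiff ℝ (1 + 1) KK := by
    rw [contDiff_succ_iff_deriv]
    refine ⟨fun s => (KK_hasDeriv s).differentiableAt, by simp, ?_⟩
    rw [KK_deriv]
    exact kap_smooth.of_le (by norm_num)
  have e : (1 + 1 : WithTop ℕ∞) = 2 := by norm_num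
  rwa [e] at h

/-- the test potential -/
def psi {m : ℕ} (F : E m → ℝ) (ε : ℝ) (x : E m) : ℝ := ε * KK (F x / ε)

variable {m : ℕ}

lemma psi_smooth {F : E m → ℝ} (hF : ContDiff ℝ 2 F) (ε : ℝ) : ContDiff ℝ 2 (psi F ε) := by
  unfold psi
  exact contDiff_const.mul (KK_smooth.comp (hF.div_const ε))

lemma psi_hasFDeriv {F : E m → ℝ} (hF : ContDiff ℝ 2 F) {ε : ℝ} (hε : 0 < ε) (x : E m) :
    HasFDerivAt (psi F ε) (kap (F x / ε) • fderiv ℝ F x) x := by
  have h1 : HasFDerivAt F (fderiv ℝ F x) x :=
    (hF.differentiable (by norm_num) x).hasFDerivAt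
  have h2 : HasFDerivAt (fun y => F y / ε) (ε⁻¹ • fderiv ℝ F x) x := by
    have := h1.const_smul ε⁻¹
    refine this.congr_of_eventuallyEq (Eventually.of_forall fun y => ?_)
    simp [div_eq_inv_mul]
  have h3 := ((KK_hasDeriv (F x / ε)).comp_hasFDerivAt x h2).const_smul ε
  have h4 : ε • kap (F x / ε) • ε⁻¹ • fderiv ℝ F x = kap (F x / ε) • fderiv ℝ F x := by
    rw [smul_comm ε, smul_smul ε, mul_inv_cancel₀ hε.ne', one_smul]
  rw [h4] at h3
  exact h3

lemma psi_fderiv {F : E m → ℝ} (hF : ContDiff ℝ 2 F) {ε : ℝ} (hε : 0 < ε) (x v : E m) :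
    fderiv ℝ (psi F ε) x v = kap (F x / ε) * fderiv ℝ F x v := by
  rw [(psi_hasFDeriv hF hε x).fderiv]; rfl

lemma grad_inner (hLPC : Stmt_LPC) (f : E m → ℝ) (x v : E m) :
    (inner ℝ (gradient f x) v : ℝ) = fderiv ℝ f x v := (hLPC m).2.2.2.2 f x v

lemma psi_inner (hLPC : Stmt_LPC) {F : E m → ℝ} (hF : ContDiff ℝ 2 F) {ε : ℝ} (hε : 0 < ε)
    (x v : E m) : (inner ℝ (gradient (psi F ε) x) v : ℝ) =
      kap (F x / ε) * inner ℝ (gradient F x) v := by
  rw [grad_inner hLPC, grad_inner hLPC, psi_fderiv hF hε]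

lemma norm_grad (hLPC : Stmt_LPC) (F : E m → ℝ) (x : E m) :
    ∑ j, fderiv ℝ F x (bs j) ^ 2 = ‖gradient F x‖ ^ 2 := by
  rw [EuclideanSpace.norm_sq_eq]
  refine Finset.sum_congr rfl fun j _ => ?_
  have h1 : (inner ℝ (gradient F x) (bs j) : ℝ) = (gradient F x) j := by
    unfold bs
    rw [EuclideanSpace.inner_single_right]; simp
  rw [← grad_inner hLPC, h1, Real.norm_eq_abs, sq_abs]

lemma psi_lp (hLPC : Stmt_LPC) {F : E m → ℝ} (hF : ContDiff ℝ 2 F) {ε : ℝ} (hε : 0 < ε)
    (x : E m) : lp (psi F ε) x =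
      kap (F x / ε) * lp F x + deriv kap (F x / ε) / ε * ‖gradient F x‖ ^ 2 := by
  have h1 : HasFDerivAt F (fderiv ℝ F x) x :=
    (hF.differentiable (by norm_num) x).hasFDerivAt
  have h2 : HasFDerivAt (fun y => F y / ε) (ε⁻¹ • fderiv ℝ F x) x := by
    have := h1.const_smul ε⁻¹
    refine this.congr_of_eventuallyEq (Eventually.of_forall fun y => ?_)
    simp [div_eq_inv_mul]
  have hk : HasDerivAt kap (deriv kap (F x / ε)) (F x / ε) :=
    (kap_smooth.differentiable (by norm_num) _).hasDerivAt
  have h3 := hk.comp_hasFDerivAt x h2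
  have hd : ∀ j : Fin m, HasFDerivAt (fun y => fderiv ℝ F y (bs j))
      (fderiv ℝ (fun y => fderiv ℝ F y (bs j)) x) x := by
    intro j
    have h5 : ContDiff ℝ 1 (fderiv ℝ F) := hF.fderiv_right (by norm_num)
    have h6 : ContDiff ℝ 1 (fun y => fderiv ℝ F y (bs j)) := h5.clm_apply contDiff_const
    exact (h6.differentiable (by norm_num) x).hasFDerivAt
  rw [← norm_grad hLPC]
  unfold lp
  rw [Finset.mul_sum, Finset.mul_sum, ← Finset.sum_add_distrib]
  refine Finset.sum_congr rfl fun j _ => ?_
  have h7 : (fun y => fderiv ℝ (psi F ε) y (bs j)) =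
      fun y => kap (F y / ε) * fderiv ℝ F y (bs j) := funext fun y => psi_fderiv hF hε y _
  rw [h7]
  have h8 := HasFDerivAt.mul h3 (hd j)
  have h9 : fderiv ℝ (fun y => kap (F y / ε) * fderiv ℝ F y (bs j)) x (bs j) =
      kap (F x / ε) * fderiv ℝ (fun y => fderiv ℝ F y (bs j)) x (bs j) +
        fderiv ℝ F x (bs j) * (deriv kap (F x / ε) * (ε⁻¹ * fderiv ℝ F x (bs j))) := by
    have h10 : HasFDerivAt (fun y => kap (F y / ε) * fderiv ℝ F y (bs j)) _ x := h8
    rw [h10.fderiv]
    simp
  rw [h9]
  field_simp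
  try ring

lemma layer (hFUB : Stmt_FUB) {d : ℕ} {F φ : E (d + 1) → ℝ} {p : E (d + 1)} {R L : ℝ}
    {i : Fin (d + 1)} (hgeo : Geo F φ p R L i) {Z : Set (E (d + 1))}
    (hZ : ∀ x ∈ Z, x ∈ ball p R ∧ F x = 0) {zB : E (d + 1) → ℝ} (hzc : Continuous zB)
    {t r δ η ε : ℝ} (ht : ∀ x ∈ ball p R, zB x ≤ t) (hzZ : ∀ x ∈ Z, zB x = 0)
    (hzr : ∀ x ∈ ball p R, r ≤ ‖x - p‖ → zB x = 0)
    (hη : ∀ x y, ‖x - y‖ < η → |zB x - zB y| ≤ δ) (hε : 0 < ε) (hεη : L * ε ≤ η) :
    ∫⁻ x in {x | x ∈ ball p R ∧ |F x| < ε}, ENNReal.ofReal (zB x) ≤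
      ENNReal.ofReal (4 * L * ε) * (ENNReal.ofReal δ * volume (closedBall (pj i p) r) +
        ENNReal.ofReal t * volume (closedBall (pj i p) r \ pj i '' Z)) := by
  obtain ⟨hT, hins, hins2, hdist, hgeoF⟩ := hFUB d i
  obtain ⟨hline, -, -, -⟩ := hgeoF F φ p R L hgeo
  have hL : 0 < L := lt_of_lt_of_le one_pos hgeo.hL
  have hFc : Continuous F := hgeo.cF.continuous
  set S : Set (E (d + 1)) := {x | x ∈ ball p R ∧ |F x| < ε} with hS
  have hSo : IsOpen S := isOpen_ball.inter (isOpen_lt hFc.abs continuous_const)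
  have hSm : MeasurableSet S := hSo.measurableSet
  have hg : Measurable (fun x => ENNReal.ofReal (zB x)) := hzc.measurable.ennreal_ofReal
  rw [← lintegral_indicator hSm, hT _ (hg.indicator hSm)]
  have hvol : ∀ y : Fin d → ℝ, volume {s : ℝ | ins i s y ∈ S} ≤ ENNReal.ofReal (4 * L * ε) := by
    intro y
    rcases Set.eq_empty_or_nonempty {s : ℝ | ins i s y ∈ S} with h | ⟨s0, hs0⟩
    · rw [h]; simp
    · have hsub : {s : ℝ | ins i s y ∈ S} ⊆ closedBall s0 (2 * L * ε) := by
        intro s hs
        rw [mem_closedBall, Real.dist_eq]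
        have h1 := hline s s0 y hs.1 hs0.1
        have h2 : |F (ins i s y) - F (ins i s0 y)| ≤ 2 * ε := by
          have h3 := abs_lt.mp hs.2
          have h4 := abs_lt.mp hs0.2
          rw [abs_le]; constructor <;> linarith
        calc |s - s0| ≤ L * |F (ins i s y) - F (ins i s0 y)| := h1
          _ ≤ L * (2 * ε) := mul_le_mul_of_nonneg_left h2 hL.le
          _ = 2 * L * ε := by ring
      refine le_trans (measure_mono hsub) ?_
      rw [Real.volume_closedBall]
      apply le_of_eq
      congr 1; ring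
  have hgen : ∀ (y : Fin d → ℝ) (c : ℝ≥0∞),
      (∀ s : ℝ, ins i s y ∈ S → ENNReal.ofReal (zB (ins i s y)) ≤ c) →
      ∫⁻ s : ℝ, S.indicator (fun x => ENNReal.ofReal (zB x)) (ins i s y) ≤
        ENNReal.ofReal (4 * L * ε) * c := by
    intro y c hc
    calc ∫⁻ s : ℝ, S.indicator (fun x => ENNReal.ofReal (zB x)) (ins i s y)
        ≤ ∫⁻ s : ℝ, ({s : ℝ | ins i s y ∈ S}).indicator (fun _ => c) s := by
          refine lintegral_mono fun s => ?_
          by_cases hs : ins i s y ∈ S
          · rw [Set.indicator_of_mem hs,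
              Set.indicator_of_mem (show s ∈ {s : ℝ | ins i s y ∈ S} from hs)]
            exact hc s hs
          · rw [Set.indicator_of_notMem hs]; exact zero_le
      _ ≤ c * volume {s : ℝ | ins i s y ∈ S} := lintegral_indicator_const_le _ _
      _ ≤ c * ENNReal.ofReal (4 * L * ε) := mul_le_mul_right (hvol y) c
      _ = ENNReal.ofReal (4 * L * ε) * c := mul_comm _ _
  have key : ∀ y : Fin d → ℝ,
      ∫⁻ s : ℝ, S.indicator (fun x => ENNReal.ofReal (zB x)) (ins i s y) ≤
        ENNReal.ofReal (4 * L * ε) *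
          ((closedBall (pj i p) r).indicator (fun _ => ENNReal.ofReal δ) y +
            (closedBall (pj i p) r \ pj i '' Z).indicator (fun _ => ENNReal.ofReal t) y) := by
    intro y
    by_cases hy : y ∈ closedBall (pj i p) r
    · by_cases hyZ : y ∈ pj i '' Z
      · obtain ⟨x', hx'Z, hx'y⟩ := hyZ
        have hx' : ins i (x' i) y = x' := by rw [← hx'y]; exact hins x'
        refine le_trans (hgen y (ENNReal.ofReal δ) ?_) ?_
        · intro s hs
          apply ENNReal.ofReal_le_ofReal
          have h1 : ‖ins i s y - x'‖ < η := by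
            have h2 := hline s (x' i) y hs.1 (by rw [hx']; exact (hZ x' hx'Z).1)
            rw [hx', (hZ x' hx'Z).2, sub_zero] at h2
            have h3 : ‖ins i s y - x'‖ = |s - x' i| := by
              have := (hins2 s (x' i) y).2.2
              rwa [hx'] at this
            rw [h3]
            calc |s - x' i| ≤ L * |F (ins i s y)| := h2
              _ < L * ε := mul_lt_mul_of_pos_left hs.2 hL
              _ ≤ η := hεη
          have h4 := hη _ _ h1
          rw [hzZ x' hx'Z, sub_zero] at h4
          exact le_trans (le_abs_self _) h4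
        · rw [Set.indicator_of_mem hy]
          exact mul_le_mul_right le_self_add _
      · refine le_trans (hgen y (ENNReal.ofReal t) ?_) ?_
        · intro s hs
          exact ENNReal.ofReal_le_ofReal (ht _ hs.1)
        · rw [Set.indicator_of_mem (show y ∈ closedBall (pj i p) r \ pj i '' Z from ⟨hy, hyZ⟩)]
          exact mul_le_mul_right le_add_self _
    · refine le_trans (hgen y 0 ?_) (by rw [mul_zero]; exact zero_le)
      intro s hs
      have h1 := (hdist (ins i s y) p).1
      rw [(hins2 s s y).1] at h1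
      rw [mem_closedBall, not_le] at hy
      rw [hzr _ hs.1 (by linarith)]
      simp
  calc ∫⁻ y : Fin d → ℝ, ∫⁻ s : ℝ, S.indicator (fun x => ENNReal.ofReal (zB x)) (ins i s y)
      ≤ ∫⁻ y : Fin d → ℝ, ENNReal.ofReal (4 * L * ε) *
          ((closedBall (pj i p) r).indicator (fun _ => ENNReal.ofReal δ) y +
            (closedBall (pj i p) r \ pj i '' Z).indicator (fun _ => ENNReal.ofReal t) y) :=
        lintegral_mono key
    _ = ENNReal.ofReal (4 * L * ε) * ((∫⁻ y : Fin d → ℝ,
          (closedBall (pj i p) r).indicator (fun _ => ENNReal.ofReal δ) y) +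
          ∫⁻ y : Fin d → ℝ,
            (closedBall (pj i p) r \ pj i '' Z).indicator (fun _ => ENNReal.ofReal t) y) := by
        rw [lintegral_const_mul' _ _ ENNReal.ofReal_ne_top,
          lintegral_add_left (measurable_const.indicator measurableSet_closedBall)]
    _ ≤ _ := by
        refine mul_le_mul_right (add_le_add ?_ ?_) _
        · exact lintegral_indicator_const_le _ _
        · exact lintegral_indicator_const_le _ _

end

end LAY_

open LAY_ in
theorem lay_proof (_hWBA : Stmt_WBA) (hWIB : Stmt_WIB) (hWEX : Stmt_WEX) (hLPC : Stmt_LPC)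
    (hGEF : Stmt_GEF) (hFUB : Stmt_FUB) : Stmt_LAY := by
  have hWIT : Stmt_WIT := wit_proof hWIB hWEX hLPC
  intro d
  obtain ⟨M, hM, hMb⟩ := dkap_bound
  refine ⟨16 * M, by positivity, ?_⟩
  intro F φ p R L i Z z dz t r hgeo hZ hTB hz hzZ hr hrR hzr
  set B : Set (E (d + 1)) := ball p R with hB
  have hBo : IsOpen B := isOpen_ball
  have hF : ContDiff ℝ 2 F := hgeo.cF
  have hFc : Continuous F := hF.continuous
  have hL1 : 1 ≤ L := hgeo.hL
  have hL : 0 < L := lt_of_lt_of_le one_pos hL1
  obtain ⟨-, hGE, -, -, -, -⟩ := hGEF (d + 1) F φ p R L i hgeo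
  obtain ⟨-, hzI, -, hext, -⟩ := hWEX (d + 1) B z dz hBo hTB
  have hTBu := hext Set.univ isOpen_univ (subset_univ _)
  set zB : E (d + 1) → ℝ := B.indicator z with hzB
  have hzBc : Continuous zB := continuousOn_univ.mp hTBu.wg.cont
  have hzBe : ∀ x ∈ B, zB x = z x := fun x hx => Set.indicator_of_mem hx _
  obtain ⟨C, -, hCc, hC0⟩ := hTBu.cs
  have hcs : HasCompactSupport zB :=
    HasCompactSupport.intro hCc (fun x hx => hC0 x ⟨mem_univ x, hx⟩)
  have huc : UniformContinuous zB := hcs.uniformContinuous_of_continuous hzBc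
  have hp0 : p ∈ B := mem_ball_self hgeo.hR
  have ht0 : 0 ≤ t := le_trans (hz p hp0).1 (hz p hp0).2
  -- integrability of the pairing
  have hgI : IntegrableOn (fun x => (inner ℝ (gradient F x) (dz x) : ℝ)) B :=
    (hWIT (d + 1) B F z dz hBo hF hTB).1
  set g : E (d + 1) → ℝ := fun x => inner ℝ (gradient F x) (dz x) with hg
  set V : ℝ := (volume (closedBall (pj i p) r)).toReal with hV
  have hVtop : volume (closedBall (pj i p) r) ≠ ⊤ := measure_closedBall_lt_top.ne
  have hbtop : volume (closedBall (pj i p) r \ pj i '' Z) ≠ ⊤ :=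
    ne_top_of_le_ne_top hVtop (measure_mono diff_subset)
  -- the estimate at scale `ε`
  have hest : ∀ δ > 0, ∃ ε₀ > 0, ∀ ε : ℝ, 0 < ε → ε < ε₀ →
      -(∫ x in B, kap (F x / ε) * g x) ≤
        L * (∫ x in B, z x) + 16 * M * L * (δ * V + t * bad i Z p r) := by
    intro δ hδ
    obtain ⟨η, hη, hηz⟩ := Metric.uniformContinuous_iff.mp huc δ hδ
    refine ⟨η / (2 * L), by positivity, fun ε hε hεη => ?_⟩
    rw [lt_div_iff₀ (by positivity)] at hεη
    have hlay := layer hFUB hgeo hZ hzBc (t := t) (r := r) (δ := δ) (η := η) (ε := 2 * ε)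
      (fun x hx => by rw [hzBe x hx]; exact (hz x hx).2)
      (fun x hx => by rw [hzBe x (hZ x hx).1]; exact hzZ x hx)
      (fun x hx hxr => by rw [hzBe x hx]; exact hzr x hx hxr)
      (fun x y hxy => by
        have := hηz (a := x) (b := y) (by rw [dist_eq_norm]; exact hxy)
        rw [Real.dist_eq] at this
        exact this.le) (by positivity) (by nlinarith)
    set S : Set (E (d + 1)) := {x | x ∈ ball p R ∧ |F x| < 2 * ε} with hS
    have hSo : IsOpen S := isOpen_ball.inter (isOpen_lt hFc.abs continuous_const)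
    have hSm : MeasurableSet S := hSo.measurableSet
    have hSB : S ⊆ B := fun x hx => hx.1
    have hzS : IntegrableOn z S := hzI.mono_set hSB
    -- the layer integral
    have hSint : ∫ x in S, z x ≤ 8 * L * ε * (δ * V + t * bad i Z p r) := by
      have h1 : ∫ x in S, z x = (∫⁻ x in S, ENNReal.ofReal (z x)).toReal := by
        rw [integral_eq_lintegral_of_nonneg_ae]
        · filter_upwards [ae_restrict_mem hSm] with x hx
          exact (hz x hx.1).1
        · exact hzS.aestronglyMeasurable
      have h2 : ∫⁻ x in S, ENNReal.ofReal (z x) = ∫⁻ x in S, ENNReal.ofReal (zB x) := by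
        refine setLIntegral_congr_fun hSm fun x hx => ?_
        rw [hzBe x hx.1]
      rw [h1, h2]
      refine le_trans (ENNReal.toReal_mono ?_ hlay) ?_
      · exact ENNReal.mul_ne_top ENNReal.ofReal_ne_top (ENNReal.add_ne_top.mpr
          ⟨ENNReal.mul_ne_top ENNReal.ofReal_ne_top hVtop,
            ENNReal.mul_ne_top ENNReal.ofReal_ne_top hbtop⟩)
      · rw [ENNReal.toReal_mul, ENNReal.toReal_add
          (ENNReal.mul_ne_top ENNReal.ofReal_ne_top hVtop)
          (ENNReal.mul_ne_top ENNReal.ofReal_ne_top hbtop), ENNReal.toReal_mul,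
          ENNReal.toReal_mul, ENNReal.toReal_ofReal (by positivity),
          ENNReal.toReal_ofReal hδ.le, ENNReal.toReal_ofReal ht0]
        apply le_of_eq
        unfold bad
        ring
    obtain ⟨hI1, hI2, hI3⟩ := hWIT (d + 1) B (psi F ε) z dz hBo (psi_smooth hF ε) hTB
    have h4 : ∫ x in B, kap (F x / ε) * g x =
        ∫ x in B, (inner ℝ (gradient (psi F ε) x) (dz x) : ℝ) := by
      refine integral_congr_ae (Eventually.of_forall fun x => ?_)
      exact (psi_inner hLPC hF hε x (dz x)).symm
    rw [h4, hI3, neg_neg]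
    have h5 : ∀ x ∈ B, lp (psi F ε) x * z x ≤
        L * z x + S.indicator (fun x => (2 * M / ε) * z x) x := by
      intro x hx
      obtain ⟨-, hg1, -, -⟩ := hGE x hx
      have hlF := hgeo.lF x hx
      have hzx := (hz x hx).1
      rw [psi_lp hLPC hF hε, add_mul]
      refine add_le_add ?_ ?_
      · refine mul_le_mul_of_nonneg_right ?_ hzx
        calc kap (F x / ε) * lp F x ≤ |kap (F x / ε) * lp F x| := le_abs_self _
          _ = |kap (F x / ε)| * |lp F x| := abs_mul _ _
          _ ≤ 1 * L := mul_le_mul (kap_le _) hlF (abs_nonneg _) zero_le_one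
          _ = L := one_mul _
      · by_cases hxS : x ∈ S
        · rw [Set.indicator_of_mem hxS]
          refine mul_le_mul_of_nonneg_right ?_ hzx
          have h6 : ‖gradient F x‖ ^ 2 ≤ 2 := by
            have := norm_nonneg (gradient F x)
            nlinarith
          have h7 : deriv kap (F x / ε) / ε ≤ M / ε :=
            div_le_div_of_nonneg_right (le_trans (le_abs_self _) (hMb _)) hε.le
          calc deriv kap (F x / ε) / ε * ‖gradient F x‖ ^ 2
              ≤ M / ε * ‖gradient F x‖ ^ 2 := mul_le_mul_of_nonneg_right h7 (sq_nonneg _)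
            _ ≤ M / ε * 2 := mul_le_mul_of_nonneg_left h6 (by positivity)
            _ = 2 * M / ε := by ring
        · rw [Set.indicator_of_notMem hxS]
          have h8 : 2 * ε ≤ |F x| := by
            by_contra h
            exact hxS ⟨hx, not_le.mp h⟩
          have h9 : 1 < |F x / ε| := by
            rw [abs_div, abs_of_pos hε, lt_div_iff₀ hε]
            linarith
          rw [dkap_zero h9]
          simp
    have hI4 : IntegrableOn (fun x => L * z x + S.indicator (fun x => (2 * M / ε) * z x) x) B := by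
      refine Integrable.add (hzI.const_mul L) ?_
      exact (hzI.const_mul (2 * M / ε)).indicator hSm
    calc ∫ x in B, lp (psi F ε) x * z x
        ≤ ∫ x in B, (L * z x + S.indicator (fun x => (2 * M / ε) * z x) x) :=
          setIntegral_mono_on hI2 hI4 hBo.measurableSet h5
      _ = L * (∫ x in B, z x) + (2 * M / ε) * ∫ x in S, z x := by
          rw [integral_add (hzI.const_mul L) ((hzI.const_mul (2 * M / ε)).indicator hSm),
            integral_const_mul, setIntegral_indicator hSm, inter_eq_self_of_subset_right hSB,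
            integral_const_mul]
      _ ≤ L * (∫ x in B, z x) + (2 * M / ε) * (8 * L * ε * (δ * V + t * bad i Z p r)) := by
          have : 0 ≤ 2 * M / ε := by positivity
          linarith [mul_le_mul_of_nonneg_left hSint this]
      _ = L * (∫ x in B, z x) + 16 * M * L * (δ * V + t * bad i Z p r) := by
          field_simp
          ring
  -- the limit
  have hnull : volume {x | x ∈ ball p R ∧ F x = 0} = 0 :=
    ((hFUB d i).2.2.2.2 F φ p R L hgeo).2.1
  set H : E (d + 1) → ℝ := fun x => (Sd F B).indicator g x -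
    (Sd (fun x => -F x) B).indicator g x with hH
  have hlim : Tendsto (fun n : ℕ => ∫ x in B, kap (F x / (1 / ((n : ℝ) + 1))) * g x) atTop
      (𝓝 (∫ x in B, H x)) := by
    refine tendsto_integral_of_dominated_convergence (fun x => |g x|) ?_ hgI.abs ?_ ?_
    · intro n
      exact ((kap_cont.comp (hFc.div_const _)).aestronglyMeasurable).mul
        hgI.aestronglyMeasurable
    · intro n
      refine Eventually.of_forall fun x => ?_
      rw [Real.norm_eq_abs, abs_mul]
      calc |kap (F x / (1 / ((n : ℝ) + 1)))| * |g x| ≤ 1 * |g x| :=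
            mul_le_mul_of_nonneg_right (kap_le _) (abs_nonneg _)
        _ = |g x| := one_mul _
    · have hne : ∀ᵐ x ∂(volume.restrict B), F x ≠ 0 := by
        rw [ae_restrict_iff' hBo.measurableSet, ae_iff]
        refine measure_mono_null ?_ hnull
        intro x hx
        simp only [mem_setOf_eq, Classical.not_imp, not_not] at hx
        exact hx
      have h0 : Tendsto (fun n : ℕ => 1 / ((n : ℝ) + 1)) atTop (𝓝 0) :=
        tendsto_one_div_add_atTop_nhds_zero_nat
      filter_upwards [hne, ae_restrict_mem hBo.measurableSet] with x hx0 hxB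
      rcases lt_or_gt_of_ne hx0 with hneg | hpos
      · have e1 : H x = -g x := by
          have h1 : x ∉ Sd F B := fun h => absurd h.2 (not_lt.mpr hneg.le)
          have h2 : x ∈ Sd (fun x => -F x) B := ⟨hxB, by show 0 < -F x; linarith⟩
          simp only [hH]
          rw [Set.indicator_of_notMem h1, Set.indicator_of_mem h2]; ring
        rw [e1]
        refine tendsto_const_nhds.congr' ?_
        filter_upwards [h0.eventually (gt_mem_nhds (show (0 : ℝ) < -F x by linarith))] with n hn
        have hp : (0 : ℝ) < 1 / ((n : ℝ) + 1) := by positivity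
        rw [kap_neg, neg_one_mul]
        rw [div_le_iff₀ hp]; linarith
      · have e1 : H x = g x := by
          have h1 : x ∈ Sd F B := ⟨hxB, hpos⟩
          have h2 : x ∉ Sd (fun x => -F x) B := fun h => by
            have : 0 < -F x := h.2
            linarith
          simp only [hH]
          rw [Set.indicator_of_mem h1, Set.indicator_of_notMem h2]; ring
        rw [e1]
        refine tendsto_const_nhds.congr' ?_
        filter_upwards [h0.eventually (gt_mem_nhds hpos)] with n hn
        have hp : (0 : ℝ) < 1 / ((n : ℝ) + 1) := by positivity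
        rw [kap_one, one_mul]
        rw [le_div_iff₀ hp]; linarith
  have hSd1 : MeasurableSet (Sd F B) :=
    (hBo.inter (isOpen_lt continuous_const hFc)).measurableSet
  have hSd2 : MeasurableSet (Sd (fun x => -F x) B) :=
    (hBo.inter (isOpen_lt continuous_const hFc.neg)).measurableSet
  have hHint : ∫ x in B, H x = (∫ x in Sd F B, g x) - ∫ x in Sd (fun x => -F x) B, g x := by
    simp only [hH]
    rw [integral_sub (hgI.indicator hSd1) (hgI.indicator hSd2), setIntegral_indicator hSd1,
      setIntegral_indicator hSd2,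
      inter_eq_self_of_subset_right (show Sd F B ⊆ B from fun x hx => hx.1),
      inter_eq_self_of_subset_right (show Sd (fun x => -F x) B ⊆ B from fun x hx => hx.1)]
  have hfin : ∀ δ > 0, -(∫ x in B, H x) ≤
      L * (∫ x in B, z x) + 16 * M * L * (δ * V + t * bad i Z p r) := by
    intro δ hδ
    obtain ⟨ε₀, hε₀, hε⟩ := hest δ hδ
    refine le_of_tendsto hlim.neg ?_
    have h0 : Tendsto (fun n : ℕ => 1 / ((n : ℝ) + 1)) atTop (𝓝 0) :=
      tendsto_one_div_add_atTop_nhds_zero_nat
    filter_upwards [h0.eventually (gt_mem_nhds hε₀)] with n hn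
    exact hε _ (by positivity) hn
  have hV0 : 0 ≤ V := ENNReal.toReal_nonneg
  have hfin2 : -(∫ x in B, H x) ≤ L * (∫ x in B, z x) + 16 * M * L * (t * bad i Z p r) := by
    refine le_of_forall_pos_le_add fun ε hε => ?_
    have h1 := hfin (ε / (16 * M * L * (V + 1))) (by positivity)
    have h2 : 16 * M * L * (ε / (16 * M * L * (V + 1)) * V) ≤ ε := by
      have h3 : 16 * M * L * (ε / (16 * M * L * (V + 1)) * V) = ε * (V / (V + 1)) := by
        field_simp
      rw [h3]
      have h4 : V / (V + 1) ≤ 1 := by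
        rw [div_le_one (by positivity)]; linarith
      nlinarith
    nlinarith
  rw [hHint] at hfin2
  calc -(∫ x in Sd F B, g x) + ∫ x in Sd (fun x => -F x) B, g x
      = -((∫ x in Sd F B, g x) - ∫ x in Sd (fun x => -F x) B, g x) := by ring
    _ ≤ L * (∫ x in B, z x) + 16 * M * L * (t * bad i Z p r) := hfin2
    _ = 16 * M * L * t * bad i Z p r + L * ∫ x in B, z x := by ring

end Pool.Agent.COB
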