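import Pool.Agent.COB.Stmts

set_option autoImplicit false

namespace Pool.Agent.COB

open MeasureTheory Set Metric Filter Topology

namespace LPC_

variable {m : ℕ}

lemma ig (f : E m → ℝ) (x v : E m) : inner ℝ (gradient f x) v = fderiv ℝ f x v := by
  unfold gradient
  exact InnerProductSpace.toDual_symm_apply

lemma gext {a b : E m} (h : ∀ v, inner ℝ a v = inner ℝ b v) : a = b :=
  ext_inner_right ℝ h

lemma coord (a : E m) (j : Fin m) : inner ℝ a (bs j) = a j := by
  simp [EuclideanSpace.inner_single_right]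

lemma inner_sum (a b : E m) : inner ℝ a b = ∑ j, inner ℝ a (bs j) * inner ℝ b (bs j) := by
  simp only [PiLp.inner_apply]
  apply Finset.sum_congr rfl
  intro j _
  simp [mul_comm]

lemma sq_sum (a : E m) : ‖a‖ ^ 2 = ∑ j, inner ℝ a (bs j) ^ 2 := by
  rw [← real_inner_self_eq_norm_sq, inner_sum]
  apply Finset.sum_congr rfl
  intro j _
  ring

lemma c1 {f : E m → ℝ} (hf : ContDiff ℝ 2 f) (v : E m) :
    ContDiff ℝ 1 (fun y => fderiv ℝ f y v) :=
  (hf.fderiv_right (m := 1) (by norm_num)).clm_apply contDiff_const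

lemma df {f : E m → ℝ} (hf : ContDiff ℝ 2 f) : Differentiable ℝ f :=
  hf.differentiable (by norm_num)

lemma ddf {f : E m → ℝ} (hf : ContDiff ℝ 2 f) (v : E m) :
    Differentiable ℝ (fun y => fderiv ℝ f y v) :=
  (c1 hf v).differentiable (by norm_num)

lemma contlp {f : E m → ℝ} (hf : ContDiff ℝ 2 f) : Continuous (lp f) := by
  unfold lp
  apply continuous_finsetSum
  intro j _
  have h1 := (c1 hf (bs j)).continuous_fderiv (by norm_num)
  exact h1.clm_apply continuous_const

lemma contgr {f : E m → ℝ} (hf : ContDiff ℝ 2 f) : Continuous (gradient f) := by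
  unfold gradient
  have h1 := hf.continuous_fderiv (by norm_num)
  exact ((InnerProductSpace.toDual ℝ (E m)).symm.continuous).comp h1

lemma fadd {f h : E m → ℝ} (hf : ContDiff ℝ 2 f) (hh : ContDiff ℝ 2 h) (x v : E m) :
    fderiv ℝ (fun y => f y + h y) x v = fderiv ℝ f x v + fderiv ℝ h x v := by
  rw [fderiv_fun_add (df hf x) (df hh x)]
  rfl

lemma fmul {f h : E m → ℝ} {x : E m} (hf : DifferentiableAt ℝ f x)
    (hh : DifferentiableAt ℝ h x) (v : E m) :
    fderiv ℝ (fun y => f y * h y) x v = f x * fderiv ℝ h x v + h x * fderiv ℝ f x v := by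
  rw [fderiv_fun_mul hf hh]
  simp

lemma lpadd {f h : E m → ℝ} (hf : ContDiff ℝ 2 f) (hh : ContDiff ℝ 2 h) (x : E m) :
    lp (fun y => f y + h y) x = lp f x + lp h x := by
  unfold lp
  rw [← Finset.sum_add_distrib]
  apply Finset.sum_congr rfl
  intro j _
  have : (fun y => fderiv ℝ (fun y => f y + h y) y (bs j)) =
      fun y => fderiv ℝ f y (bs j) + fderiv ℝ h y (bs j) := by
    funext y
    exact fadd hf hh y _
  rw [this, fderiv_fun_add (ddf hf _ x) (ddf hh _ x)]
  rfl

lemma lpmul {f h : E m → ℝ} (hf : ContDiff ℝ 2 f) (hh : ContDiff ℝ 2 h) (x : E m) :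
    lp (fun y => f y * h y) x =
      h x * lp f x + 2 * inner ℝ (gradient f x) (gradient h x) + f x * lp h x := by
  rw [inner_sum]
  simp only [ig]
  unfold lp
  rw [Finset.mul_sum, Finset.mul_sum, Finset.mul_sum, ← Finset.sum_add_distrib,
    ← Finset.sum_add_distrib]
  apply Finset.sum_congr rfl
  intro j _
  have : (fun y => fderiv ℝ (fun y => f y * h y) y (bs j)) =
      fun y => f y * fderiv ℝ h y (bs j) + h y * fderiv ℝ f y (bs j) := by
    funext y
    exact fmul (df hf y) (df hh y) _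
  have e1 : DifferentiableAt ℝ (fun y => f y * fderiv ℝ h y (bs j)) x :=
    (df hf x).mul (ddf hh _ x)
  have e2 : DifferentiableAt ℝ (fun y => h y * fderiv ℝ f y (bs j)) x :=
    (df hh x).mul (ddf hf _ x)
  rw [this, fderiv_fun_add e1 e2,
    ContinuousLinearMap.add_apply, fmul (df hf x) (ddf hh _ x), fmul (df hh x) (ddf hf _ x)]
  ring

lemma fcm {f : E m → ℝ} {x : E m} (c : ℝ) (hf : DifferentiableAt ℝ f x) (v : E m) :
    fderiv ℝ (fun y => c * f y) x v = c * fderiv ℝ f x v := by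
  rw [fderiv_const_mul hf]
  simp

lemma lpcm {f : E m → ℝ} (hf : ContDiff ℝ 2 f) (c : ℝ) (x : E m) :
    lp (fun y => c * f y) x = c * lp f x := by
  unfold lp
  rw [Finset.mul_sum]
  apply Finset.sum_congr rfl
  intro j _
  have : (fun y => fderiv ℝ (fun y => c * f y) y (bs j)) =
      fun y => c * fderiv ℝ f y (bs j) := by
    funext y
    exact fcm c (df hf y) _
  rw [this, fcm c (ddf hf _ x)]

/-- the squared distance -/
lemma hasq (p x : E m) : HasFDerivAt (fun y : E m => ‖y - p‖ ^ 2)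
    ((2 : ℝ) • (innerSL ℝ (x - p))) x := by
  have h1 : HasFDerivAt (fun y : E m => y - p) (ContinuousLinearMap.id ℝ (E m)) x :=
    (hasFDerivAt_id x).sub_const p
  have h2 := h1.norm_sq
  rw [ContinuousLinearMap.comp_id] at h2
  have h3 : (2 : ℝ) • (innerSL ℝ (x - p)) = (2 : ℕ) • (innerSL ℝ (x - p)) := by
    ext v
    simp
  rw [h3]
  exact h2

lemma hasc {p x : E m} {h : ℝ → ℝ} (hd : DifferentiableAt ℝ h (‖x - p‖ ^ 2)) :
    HasFDerivAt (fun y : E m => h (‖y - p‖ ^ 2))
      (deriv h (‖x - p‖ ^ 2) • ((2 : ℝ) • (innerSL ℝ (x - p)))) x := by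
  have := hd.hasDerivAt.comp_hasFDerivAt x (hasq p x)
  exact this

lemma fdc {p x : E m} {h : ℝ → ℝ} (hd : DifferentiableAt ℝ h (‖x - p‖ ^ 2)) (v : E m) :
    fderiv ℝ (fun y : E m => h (‖y - p‖ ^ 2)) x v =
      deriv h (‖x - p‖ ^ 2) * (2 * inner ℝ (x - p) v) := by
  rw [(hasc hd).fderiv, ContinuousLinearMap.smul_apply, ContinuousLinearMap.smul_apply,
    innerSL_apply_apply, smul_eq_mul, smul_eq_mul]

lemma fin (p x v : E m) :
    HasFDerivAt (fun y : E m => 2 * inner ℝ (y - p) v) ((2 : ℝ) • (innerSL ℝ v)) x := by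
  have h1 : HasFDerivAt (fun y : E m => innerSL ℝ v (y - p)) (innerSL ℝ v) x := by
    have := ((innerSL ℝ v).hasFDerivAt (x := x - p)).comp x
      ((hasFDerivAt_id x).sub_const p)
    exact this
  have h2 := h1.const_mul (2 : ℝ)
  have h3 : (fun y : E m => 2 * inner ℝ (y - p) v) =
      fun y : E m => 2 * innerSL ℝ v (y - p) := by
    funext y
    rw [innerSL_apply_apply, real_inner_comm]
  rw [h3]
  exact h2

lemma radial (p : E m) (h : ℝ → ℝ) (I : Set ℝ) (hI : IsOpen I) (hI0 : Ici 0 ⊆ I)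
    (hh : ContDiffOn ℝ 2 h I) :
    ContDiff ℝ 2 (fun y : E m => h (‖y - p‖ ^ 2)) ∧ ∀ x : E m,
    gradient (fun y => h (‖y - p‖ ^ 2)) x = (2 * deriv h (‖x - p‖ ^ 2)) • (x - p) ∧
    lp (fun y => h (‖y - p‖ ^ 2)) x =
      4 * ‖x - p‖ ^ 2 * deriv (deriv h) (‖x - p‖ ^ 2) + 2 * m * deriv h (‖x - p‖ ^ 2) := by
  have hmem : ∀ x : E m, ‖x - p‖ ^ 2 ∈ I := fun x => hI0 (by simp)
  have hd : ∀ x : E m, DifferentiableAt ℝ h (‖x - p‖ ^ 2) := fun x =>
    (hh.differentiableOn (by norm_num)).differentiableAt (hI.mem_nhds (hmem x))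
  have hh1 : ContDiffOn ℝ 1 (deriv h) I := hh.deriv_of_isOpen hI (by norm_num)
  have hd1 : ∀ x : E m, DifferentiableAt ℝ (deriv h) (‖x - p‖ ^ 2) := fun x =>
    (hh1.differentiableOn (by norm_num)).differentiableAt (hI.mem_nhds (hmem x))
  refine ⟨?_, fun x => ⟨?_, ?_⟩⟩
  · have hq : ContDiff ℝ 2 (fun y : E m => ‖y - p‖ ^ 2) :=
      (contDiff_id.sub contDiff_const).norm_sq ℝ
    rw [← contDiffOn_univ] at hq ⊢
    exact hh.comp hq (fun x _ => hmem x)
  · apply gext
    intro v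
    rw [ig, fdc (hd x), inner_smul_left]
    simp only [conj_trivial]
    ring
  · unfold lp
    have h1 : ∀ j : Fin m, fderiv ℝ (fun y => fderiv ℝ (fun y : E m => h (‖y - p‖ ^ 2)) y (bs j))
        x (bs j) = 4 * deriv (deriv h) (‖x - p‖ ^ 2) * inner ℝ (x - p) (bs j) ^ 2 +
          2 * deriv h (‖x - p‖ ^ 2) := by
      intro j
      have : (fun y => fderiv ℝ (fun y : E m => h (‖y - p‖ ^ 2)) y (bs j)) =
          fun y => deriv h (‖y - p‖ ^ 2) * (2 * inner ℝ (y - p) (bs j)) := by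
        funext y
        exact fdc (hd y) _
      rw [this, fmul (hasc (hd1 x)).differentiableAt (fin p x (bs j)).differentiableAt,
        fdc (hd1 x), (fin p x (bs j)).fderiv]
      have h2 : ((2 : ℝ) • (innerSL ℝ (bs j : E m))) (bs j) = 2 := by
        simp
      rw [h2]
      ring
    rw [Finset.sum_congr rfl (fun j _ => h1 j), Finset.sum_add_distrib, ← Finset.mul_sum,
      ← sq_sum]
    simp
    ring

end LPC_

open LPC_ in
theorem lpc_proof : Stmt_LPC := by
  intro m
  refine ⟨fun f hf => ⟨contlp hf, contgr hf⟩, fun f h hf hh x => ⟨?_, lpadd hf hh x, ?_,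
    lpmul hf hh x⟩, fun c f hf x => ⟨?_, lpcm hf c x⟩, fun p h I hI h0 hh => radial p h I hI h0 hh,
    fun f x v => ig f x v⟩
  · apply gext
    intro v
    rw [ig, inner_add_left, ig, ig, fadd hf hh]
  · apply gext
    intro v
    rw [ig, inner_add_left, inner_smul_left, inner_smul_left, ig, ig, fmul (df hf x) (df hh x)]
    simp only [conj_trivial]
    ring
  · apply gext
    intro v
    rw [ig, inner_smul_left, ig, fcm c (df hf x)]
    simp

end Pool.Agent.COB
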