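import Pool.Agent.COB.Stmts

/-!
Squad COB, module MVG: the mean value inequality with the kernel `om`.
-/

set_option autoImplicit false

namespace Pool.Agent.COB

open MeasureTheory Set Metric Filter Topology

namespace MVG_

variable {m : ℕ}

/-- powers of the positive part -/
noncomputable def P (n : ℕ) (t : ℝ) : ℝ := (max 0 t) ^ n

lemma P_nonneg (n : ℕ) (t : ℝ) : 0 ≤ P n t := pow_nonneg (le_max_left _ _) _

lemma P_cont (n : ℕ) : Continuous (P n) := by
  unfold P
  fun_prop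

lemma P_le_one (n : ℕ) {t : ℝ} (h : t ≤ 1) : P n t ≤ 1 :=
  pow_le_one₀ (le_max_left _ _) (max_le zero_le_one h)

lemma P_zero {n : ℕ} (hn : n ≠ 0) {t : ℝ} (h : t ≤ 0) : P n t = 0 := by
  unfold P
  rw [max_eq_left h, zero_pow hn]

lemma P_deriv (n : ℕ) (t : ℝ) : HasDerivAt (P (n + 2)) (((n + 2 : ℕ) : ℝ) * P (n + 1) t) t := by
  rcases lt_trichotomy t 0 with ht | ht | ht
  · rw [P_zero (Nat.succ_ne_zero n) ht.le, mul_zero]
    refine (hasDerivAt_const t (0 : ℝ)).congr_of_eventuallyEq ?_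
    filter_upwards [Iio_mem_nhds ht] with s hs
    exact P_zero (by omega) (le_of_lt hs)
  · subst ht
    rw [P_zero (Nat.succ_ne_zero n) le_rfl, mul_zero]
    have h1 : HasDerivWithinAt (P (n + 2)) 0 (Iic 0) 0 := by
      refine (hasDerivWithinAt_const (0 : ℝ) (Iic 0) (0 : ℝ)).congr (fun s hs => ?_) ?_
      · exact P_zero (by omega) hs
      · exact P_zero (by omega) le_rfl
    have h2 : HasDerivWithinAt (P (n + 2)) 0 (Ici 0) 0 := by
      have h3 : HasDerivAt (fun s : ℝ => s ^ (n + 2)) 0 0 := by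
        have := hasDerivAt_pow (n + 2) (0 : ℝ)
        simpa using this
      refine h3.hasDerivWithinAt.congr (fun s hs => ?_) ?_
      · unfold P
        rw [max_eq_right hs]
      · unfold P
        simp
    have h3 := h1.union h2
    rw [Iic_union_Ici] at h3
    exact h3.hasDerivAt univ_mem
  · have h1 := hasDerivAt_pow (n + 2) t
    have h2 : ((n + 2 : ℕ) : ℝ) * P (n + 1) t = ((n + 2 : ℕ) : ℝ) * t ^ (n + 2 - 1) := by
      unfold P
      rw [max_eq_right ht.le]
      rfl
    rw [h2]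
    refine h1.congr_of_eventuallyEq ?_
    filter_upwards [Ioi_mem_nhds ht] with s hs
    unfold P
    rw [max_eq_right (le_of_lt hs)]

lemma P2_cd : ContDiff ℝ 1 (P 2) := by
  rw [contDiff_one_iff_deriv]
  refine ⟨fun t => (P_deriv 0 t).differentiableAt, ?_⟩
  have : deriv (P 2) = fun t => ((0 + 2 : ℕ) : ℝ) * P 1 t := by
    ext t
    exact (P_deriv 0 t).deriv
  rw [this]
  exact continuous_const.mul (P_cont 1)

lemma P3_cd : ContDiff ℝ 2 (P 3) := by
  rw [show (2 : WithTop ℕ∞) = 1 + 1 by norm_num, contDiff_succ_iff_deriv]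
  refine ⟨fun t => (P_deriv 1 t).differentiableAt, by simp, ?_⟩
  have : deriv (P 3) = fun t => ((1 + 2 : ℕ) : ℝ) * P 2 t := by
    ext t
    exact (P_deriv 1 t).deriv
  rw [this]
  exact contDiff_const.mul P2_cd

/-- the argument -/
noncomputable def u (s : ℝ) (a x : E m) : ℝ := 1 - ‖x - a‖ ^ 2 / s ^ 2

/-- the test function -/
noncomputable def ps (s : ℝ) (a x : E m) : ℝ := P 3 (u s a x) / 6

lemma u_cd (s : ℝ) (a : E m) {n : WithTop ℕ∞} : ContDiff ℝ n (u s a) := by
  unfold u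
  exact contDiff_const.sub (((contDiff_id.sub contDiff_const).norm_sq ℝ).div_const _)

lemma ps_cd (s : ℝ) (a : E m) : ContDiff ℝ 2 (ps s a) := by
  unfold ps
  exact (P3_cd.comp (u_cd s a)).div_const _

lemma u_deriv (s : ℝ) (a x : E m) :
    HasFDerivAt (u s a) (-((2 / s ^ 2) • innerSL ℝ (x - a))) x := by
  have h1 : HasFDerivAt (fun y : E m => ‖y - a‖ ^ 2) (2 • (innerSL ℝ (x - a)).comp (ContinuousLinearMap.id ℝ (E m))) x :=
    ((hasFDerivAt_id x).sub_const a).norm_sq
  have h2 := (h1.mul_const (s ^ 2)⁻¹).const_sub 1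
  have h3 : (fun y : E m => 1 - ‖y - a‖ ^ 2 * (s ^ 2)⁻¹) = u s a := by
    ext y
    unfold u
    rw [div_eq_mul_inv]
  rw [h3] at h2
  refine h2.congr_fderiv ?_
  ext v
  simp only [_root_.neg_apply, _root_.smul_apply, ContinuousLinearMap.comp_apply,
    ContinuousLinearMap.id_apply, innerSL_apply_apply, smul_eq_mul, nsmul_eq_mul, Nat.cast_ofNat]
  ring

lemma ps_deriv (s : ℝ) (a x : E m) :
    HasFDerivAt (ps s a) (-((P 2 (u s a x) / s ^ 2) • innerSL ℝ (x - a))) x := by
  have h1 := ((P_deriv 1 (u s a x)).comp_hasFDerivAt x (u_deriv s a x)).mul_const (6 : ℝ)⁻¹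
  have h2 : (fun y : E m => (P (1 + 2) ∘ u s a) y * (6 : ℝ)⁻¹) = ps s a := by
    ext y
    unfold ps
    rw [div_eq_mul_inv]
    rfl
  rw [h2] at h1
  refine h1.congr_fderiv ?_
  ext v
  simp only [_root_.neg_apply, _root_.smul_apply, innerSL_apply_apply, smul_eq_mul]
  push_cast
  ring

lemma ps_fderiv (s : ℝ) (a x v : E m) :
    fderiv ℝ (ps s a) x v = -(P 2 (u s a x) / s ^ 2 * inner ℝ (x - a) v) := by
  rw [(ps_deriv s a x).fderiv]
  simp only [_root_.neg_apply, _root_.smul_apply, innerSL_apply_apply, smul_eq_mul]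

lemma sum_inner_sq (x : E m) : ∑ j, (inner ℝ x (bs j)) ^ 2 = ‖x‖ ^ 2 := by
  rw [EuclideanSpace.norm_sq_eq]
  refine Finset.sum_congr rfl (fun j _ => ?_)
  rw [EuclideanSpace.inner_single_right]
  simp

lemma ps_lp (s : ℝ) (a x : E m) :
    lp (ps s a) x = -(m * P 2 (u s a x) / s ^ 2) + 4 * P 1 (u s a x) * ‖x - a‖ ^ 2 / s ^ 4 := by
  unfold lp
  have h1 : ∀ j : Fin m, fderiv ℝ (fun y => fderiv ℝ (ps s a) y (bs j)) x (bs j) =
      -(P 2 (u s a x) / s ^ 2) + 4 * P 1 (u s a x) / s ^ 4 * (inner ℝ (x - a) (bs j)) ^ 2 := by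
    intro j
    have h2 : (fun y => fderiv ℝ (ps s a) y (bs j)) =
        fun y => -(P 2 (u s a y) * (s ^ 2)⁻¹ * inner ℝ (y - a) (bs j)) := by
      ext y
      rw [ps_fderiv, div_eq_mul_inv]
    rw [h2]
    have h3 : HasFDerivAt (fun y => P 2 (u s a y)) ((2 * P 1 (u s a x)) • (-((2 / s ^ 2) • innerSL ℝ (x - a)))) x := by
      have h30 := (P_deriv 0 (u s a x)).comp_hasFDerivAt x (u_deriv s a x)
      refine h30.congr_fderiv ?_
      norm_num
    have h4 : HasFDerivAt (fun y : E m => inner ℝ (y - a) (bs j)) ((innerSL ℝ) (bs j)) x := by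
      have h40 := ((innerSL ℝ (bs j : E m)).hasFDerivAt (x := x - a)).comp x ((hasFDerivAt_id x).sub_const a)
      have h41 : (fun y : E m => inner ℝ (y - a) (bs j)) = (innerSL ℝ (bs j : E m)) ∘ (fun y : E m => id y - a) := by
        ext y
        simp [real_inner_comm]
      rw [h41]
      refine h40.congr_fderiv ?_
      ext v
      simp
    have h5 := ((h3.mul_const (s ^ 2)⁻¹).mul h4).neg
    have h50 : (fun y : E m => -(P 2 (u s a y) * (s ^ 2)⁻¹ * inner ℝ (y - a) (bs j))) =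
        -((fun y => P 2 (u s a y) * (s ^ 2)⁻¹) * fun y => inner ℝ (y - a) (bs j)) := rfl
    rw [h50, h5.fderiv]
    simp only [_root_.neg_apply, _root_.add_apply, _root_.smul_apply,
      innerSL_apply_apply, smul_eq_mul]
    have h6 : inner ℝ (bs j : E m) (bs j) = (1 : ℝ) := by
      rw [EuclideanSpace.inner_single_right]
      simp
    rw [h6]
    ring
  rw [Finset.sum_congr rfl (fun j _ => h1 j), Finset.sum_add_distrib, Finset.sum_const, ← Finset.mul_sum,
    sum_inner_sq]
  simp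
  ring

/-! ### the kernel -/

/-- the kernel as a function of `r = |x - a|²` and `s` -/
noncomputable def kk (m : ℕ) (r s : ℝ) : ℝ := (s ^ m)⁻¹ * P 2 (1 - r / s ^ 2)

/-- its derivative in `s` -/
noncomputable def kd (m : ℕ) (r s : ℝ) : ℝ :=
  -(m * (s ^ (m + 1))⁻¹) * P 2 (1 - r / s ^ 2) + (s ^ m)⁻¹ * (2 * P 1 (1 - r / s ^ 2) * (2 * r / s ^ 3))

lemma kk_deriv (m : ℕ) (r : ℝ) {s : ℝ} (hs : 0 < s) : HasDerivAt (fun s => kk m r s) (kd m r s) s := by
  have h1 : HasDerivAt (fun s : ℝ => (s ^ m)⁻¹) (-(m * (s ^ (m + 1))⁻¹)) s := by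
    have h := (hasDerivAt_pow m s).inv (pow_ne_zero m hs.ne')
    refine h.congr_deriv ?_
    rcases Nat.eq_zero_or_pos m with hm | hm
    · subst hm
      simp
    · obtain ⟨k, rfl⟩ : ∃ k, m = k + 1 := ⟨m - 1, by omega⟩
      simp only [Nat.add_sub_cancel]
      field_simp
      ring
  have h2 : HasDerivAt (fun s : ℝ => 1 - r / s ^ 2) (2 * r / s ^ 3) s := by
    have h := ((hasDerivAt_pow 2 s).inv (pow_ne_zero 2 hs.ne')).const_mul r
    have h' := h.const_sub 1
    have e : (fun s : ℝ => 1 - r * (s ^ 2)⁻¹) = fun s : ℝ => 1 - r / s ^ 2 := by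
      ext t
      rw [div_eq_mul_inv]
    have h'' : HasDerivAt (fun s : ℝ => 1 - r * (s ^ 2)⁻¹) (-(r * (-(((2 : ℕ) : ℝ) * s ^ (2 - 1)) / (s ^ 2) ^ 2))) s := h'
    rw [e] at h''
    refine h''.congr_deriv ?_
    simp only [Nat.add_one_sub_one, pow_one]
    push_cast
    field_simp
  have h3 := (P_deriv 0 (1 - r / s ^ 2)).comp s h2
  have h4 := h1.mul h3
  have h5 : (fun s => kk m r s) = (fun s : ℝ => (s ^ m)⁻¹) * (P (0 + 2) ∘ fun s : ℝ => 1 - r / s ^ 2) := rfl
  rw [h5]
  refine h4.congr_deriv ?_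
  unfold kd
  simp only [Function.comp_apply]
  push_cast
  ring

lemma kd_lp {s : ℝ} (hs : 0 < s) (a x : E m) : kd m (‖x - a‖ ^ 2) s = s * (s ^ m)⁻¹ * lp (ps s a) x := by
  rw [ps_lp]
  unfold kd u
  field_simp
  ring

lemma kd_bound (m : ℕ) {r s σ ρ : ℝ} (hσ : 0 < σ) (hs : σ ≤ s) (hr0 : 0 ≤ r) (hr : r ≤ ρ ^ 2) :
    |kd m r s| ≤ m * (σ ^ (m + 1))⁻¹ + (σ ^ m)⁻¹ * (2 * (2 * ρ ^ 2 / σ ^ 3)) := by
  have hs0 : 0 < s := hσ.trans_le hs
  have hu : 1 - r / s ^ 2 ≤ 1 := by
    have : 0 ≤ r / s ^ 2 := by positivity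
    linarith
  unfold kd
  refine (abs_add_le _ _).trans (add_le_add ?_ ?_)
  · rw [abs_mul, abs_neg, abs_of_nonneg (by positivity), abs_of_nonneg (P_nonneg _ _)]
    calc (m : ℝ) * (s ^ (m + 1))⁻¹ * P 2 (1 - r / s ^ 2) ≤ m * (s ^ (m + 1))⁻¹ * 1 :=
          mul_le_mul_of_nonneg_left (P_le_one 2 hu) (by positivity)
      _ = m * (s ^ (m + 1))⁻¹ := mul_one _
      _ ≤ m * (σ ^ (m + 1))⁻¹ := by
        refine mul_le_mul_of_nonneg_left ?_ (Nat.cast_nonneg m)
        exact inv_anti₀ (by positivity) (pow_le_pow_left₀ hσ.le hs _)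
  · have h1 : 0 ≤ 2 * P 1 (1 - r / s ^ 2) * (2 * r / s ^ 3) :=
      mul_nonneg (mul_nonneg zero_le_two (P_nonneg _ _)) (by positivity)
    rw [abs_mul, abs_of_nonneg (by positivity : 0 ≤ (s ^ m)⁻¹), abs_of_nonneg h1]
    refine mul_le_mul (inv_anti₀ (by positivity) (pow_le_pow_left₀ hσ.le hs _)) ?_ h1 (by positivity)
    have h2 : 2 * r / s ^ 3 ≤ 2 * ρ ^ 2 / σ ^ 3 :=
      div_le_div₀ (by positivity) (by linarith) (by positivity) (pow_le_pow_left₀ hσ.le hs _)
    have h3 := P_le_one 1 hu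
    have h4 := P_nonneg 1 (1 - r / s ^ 2)
    have h5 : 0 ≤ 2 * r / s ^ 3 := by positivity
    calc 2 * P 1 (1 - r / s ^ 2) * (2 * r / s ^ 3) ≤ 2 * 1 * (2 * ρ ^ 2 / σ ^ 3) :=
          mul_le_mul (by linarith) h2 h5 (by norm_num)
      _ = _ := by ring

lemma kk_nonneg (m : ℕ) (r : ℝ) {s : ℝ} (hs : 0 < s) : 0 ≤ kk m r s :=
  mul_nonneg (by positivity) (P_nonneg _ _)

lemma kk_le (m : ℕ) {r s : ℝ} (hr : 0 ≤ r) (hs : 0 < s) : kk m r s ≤ (s ^ m)⁻¹ := by
  unfold kk
  have hu : 1 - r / s ^ 2 ≤ 1 := by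
    have : 0 ≤ r / s ^ 2 := by positivity
    linarith
  calc (s ^ m)⁻¹ * P 2 (1 - r / s ^ 2) ≤ (s ^ m)⁻¹ * 1 :=
        mul_le_mul_of_nonneg_left (P_le_one 2 hu) (by positivity)
    _ = _ := mul_one _

lemma u_nonpos {s : ℝ} (hs : 0 < s) {a x : E m} (hx : x ∉ ball a s) : u s a x ≤ 0 := by
  rw [mem_ball, not_lt, dist_eq_norm] at hx
  unfold u
  have : 1 ≤ ‖x - a‖ ^ 2 / s ^ 2 := by
    rw [le_div_iff₀ (by positivity), one_mul]
    exact pow_le_pow_left₀ hs.le hx 2
  linarith

lemma kk_zero (m' : ℕ) {s : ℝ} (hs : 0 < s) {a x : E m} (hx : x ∉ ball a s) :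
    kk m' (‖x - a‖ ^ 2) s = 0 := by
  unfold kk
  have := u_nonpos hs hx
  unfold u at this
  rw [P_zero two_ne_zero this, mul_zero]

lemma kk_cont (m' : ℕ) (s : ℝ) (a : E m) : Continuous (fun x => kk m' (‖x - a‖ ^ 2) s) := by
  unfold kk
  exact continuous_const.mul ((P_cont 2).comp (by fun_prop))

lemma kd_cont (m' : ℕ) (s : ℝ) (a : E m) : Continuous (fun x => kd m' (‖x - a‖ ^ 2) s) := by
  unfold kd
  have h2 : Continuous (fun x : E m => P 2 (1 - ‖x - a‖ ^ 2 / s ^ 2)) := (P_cont 2).comp (by fun_prop)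
  have h1 : Continuous (fun x : E m => P 1 (1 - ‖x - a‖ ^ 2 / s ^ 2)) := (P_cont 1).comp (by fun_prop)
  fun_prop

lemma om_eq (y : E m) : om y = P 2 (1 - ‖y‖ ^ 2) := rfl

lemma kk_om {s : ℝ} (_hs : 0 < s) (a x : E m) : kk m (‖x - a‖ ^ 2) s = (s ^ m)⁻¹ * om (s⁻¹ • (x - a)) := by
  unfold kk
  rw [om_eq, norm_smul, mul_pow, Real.norm_eq_abs, sq_abs, inv_pow, div_eq_inv_mul]

lemma int_kk {s : ℝ} (hs : 0 < s) (a : E m) : ∫ x : E m, kk m (‖x - a‖ ^ 2) s = ∫ y : E m, om y := by
  simp_rw [kk_om hs]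
  rw [integral_const_mul, integral_sub_right_eq_self (fun x : E m => om (s⁻¹ • x)) a,
    Measure.integral_comp_smul, finrank_euclideanSpace_fin, smul_eq_mul]
  have h1 : |((s⁻¹) ^ m)⁻¹| = s ^ m := by
    rw [inv_pow, inv_inv, abs_of_pos (by positivity)]
  rw [h1, ← mul_assoc, inv_mul_cancel₀ (by positivity), one_mul]

lemma om_pos : 0 < ∫ y : E m, om y := by
  refine Continuous.integral_pos_of_hasCompactSupport_nonneg_nonzero (x := 0) ?_ ?_ ?_ ?_
  · show Continuous (fun y : E m => P 2 (1 - ‖y‖ ^ 2))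
    exact (P_cont 2).comp (by fun_prop)
  · refine HasCompactSupport.of_support_subset_isCompact (isCompact_closedBall (0 : E m) 1) ?_
    intro y hy
    rw [Function.mem_support] at hy
    by_contra hc
    refine hy ?_
    rw [om_eq]
    refine P_zero two_ne_zero ?_
    rw [mem_closedBall, dist_zero_right, not_le] at hc
    nlinarith [norm_nonneg y]
  · intro y
    exact P_nonneg 2 _
  · rw [om_eq]
    unfold P
    norm_num

/-! ### the derivative of the mean -/

lemma ps_supp {s : ℝ} (hs : 0 < s) (a : E m) : Function.support (ps s a) ⊆ ball a s := by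
  intro x hx
  by_contra hc
  refine hx ?_
  unfold ps
  rw [P_zero (by norm_num) (u_nonpos hs hc), zero_div]

lemma ps_tsupp {s : ℝ} (hs : 0 < s) (a : E m) : tsupport (ps s a) ⊆ closedBall a s := by
  refine closure_minimal ((ps_supp hs a).trans ball_subset_closedBall) isClosed_closedBall

lemma ps_nonneg (s : ℝ) (a x : E m) : 0 ≤ ps s a x := div_nonneg (P_nonneg _ _) (by norm_num)

lemma ps_le (s : ℝ) (a x : E m) : ps s a x ≤ 1 := by
  unfold ps
  have hu : u s a x ≤ 1 := by
    unfold u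
    have : 0 ≤ ‖x - a‖ ^ 2 / s ^ 2 := by positivity
    linarith
  have := P_le_one 3 hu
  linarith

/-- volume of the unit ball -/
noncomputable def vb (m : ℕ) : ℝ := (volume (ball (0 : E m) 1)).toReal

lemma int_ps {s : ℝ} (hs : 0 < s) (a : E m) {V : Set (E m)} (hVm : MeasurableSet V)
    (hV : closedBall a s ⊆ V) : ∫ x in V, ps s a x ≤ vb m * s ^ m := by
  have h1 : ∫ x in V, ps s a x = ∫ x in closedBall a s, ps s a x := by
    refine setIntegral_eq_of_subset_of_forall_sdiff_eq_zero ?_ ?_ ?_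
    · exact hVm
    · exact hV
    · intro x hx
      by_contra hc
      exact hx.2 (ball_subset_closedBall (ps_supp hs a hc))
  rw [h1]
  have hfin : volume (closedBall a s) < ⊤ := measure_closedBall_lt_top
  have h2 : ∫ x in closedBall a s, ps s a x ≤ ∫ x in closedBall a s, (1 : ℝ) := by
    refine setIntegral_mono_on ?_ ?_ isClosed_closedBall.measurableSet (fun x _ => ps_le s a x)
    · exact ((ps_cd s a).continuous.continuousOn).integrableOn_compact (isCompact_closedBall a s)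
    · exact integrableOn_const hfin.ne
  refine h2.trans (le_of_eq ?_)
  rw [setIntegral_const, smul_eq_mul, mul_one, Measure.real, Measure.addHaar_closedBall _ _ hs.le,
    finrank_euclideanSpace_fin, ENNReal.toReal_mul, ENNReal.toReal_ofReal (by positivity), mul_comm]
  rfl

/-- the derivative is at least `-cKs` -/
lemma deriv_bound (hWBA : Stmt_WBA) (hWIB : Stmt_WIB) {V : Set (E m)} {K : ℝ} {f : E m → ℝ}
    {g : E m → E m} {a : E m} {s ρ : ℝ} (hVo : IsOpen V) (hf : WSub V K f g) (hK : 0 ≤ K) (hs : 0 < s)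
    (hsρ : s ≤ ρ) (hV : closedBall a ρ ⊆ V) :
    -(vb m * K * s) ≤ ∫ x in ball a ρ, kd m (‖x - a‖ ^ 2) s * f x := by
  have hVs : closedBall a s ⊆ V := (closedBall_subset_closedBall hsρ).trans hV
  have hcs : HasCompactSupport (ps s a) :=
    HasCompactSupport.of_support_subset_isCompact (isCompact_closedBall a s)
      ((ps_supp hs a).trans ball_subset_closedBall)
  have hts : tsupport (ps s a) ⊆ V := (ps_tsupp hs a).trans hVs
  obtain ⟨-, -, hib⟩ := (hWIB m V f g hVo hf.1).2 (ps s a) (ps_cd s a) hcs hts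
  have hTB : TB V (ps s a) (gradient (ps s a)) := by
    refine ⟨(hWBA m V hVo).2.2.2.2.1 _ (((ps_cd s a).of_le (by norm_num)).contDiffOn), ?_⟩
    refine ⟨closedBall a s, hVs, isCompact_closedBall a s, fun x hx => ?_⟩
    by_contra hc
    exact hx.2 (ball_subset_closedBall (ps_supp hs a hc))
  have hsub := hf.2 _ _ hTB (fun x _ => ps_nonneg s a x)
  rw [hib] at hsub
  have h1 : ∫ x in ball a ρ, kd m (‖x - a‖ ^ 2) s * f x = s * (s ^ m)⁻¹ * ∫ x in V, f x * lp (ps s a) x := by
    have h2 : ∫ x in V, f x * lp (ps s a) x = ∫ x in ball a ρ, f x * lp (ps s a) x := by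
      refine setIntegral_eq_of_subset_of_forall_sdiff_eq_zero ?_ ?_ ?_
      · exact hVo.measurableSet
      · exact ball_subset_closedBall.trans hV
      · intro x hx
        have hx2 : x ∉ ball a s := fun h => hx.2 (ball_subset_ball hsρ h)
        have hu := u_nonpos hs hx2
        rw [ps_lp, P_zero two_ne_zero hu, P_zero one_ne_zero hu]
        simp
    rw [h2, ← integral_const_mul]
    refine integral_congr_ae (Eventually.of_forall (fun x => ?_))
    simp only
    rw [kd_lp hs]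
    ring
  rw [h1]
  have h3 : -(K * (vb m * s ^ m)) ≤ ∫ x in V, f x * lp (ps s a) x := by
    have := mul_le_mul_of_nonneg_left (int_ps hs a hVo.measurableSet hVs) hK
    linarith
  have h4 : 0 ≤ s * (s ^ m)⁻¹ := by positivity
  have h5 := mul_le_mul_of_nonneg_left h3 h4
  have h6 : s * (s ^ m)⁻¹ * -(K * (vb m * s ^ m)) = -(vb m * K * s) := by
    field_simp
  linarith

lemma mean_deriv {V : Set (E m)} {f : E m → ℝ} {a : E m} {ρ : ℝ}
    (hf : ContinuousOn f V) (hV : closedBall a ρ ⊆ V) {s : ℝ} (hs : 0 < s) :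
    HasDerivAt (fun s => ∫ x in ball a ρ, kk m (‖x - a‖ ^ 2) s * f x)
      (∫ x in ball a ρ, kd m (‖x - a‖ ^ 2) s * f x) s := by
  obtain ⟨M, hM⟩ := (isCompact_closedBall a ρ).exists_bound_of_continuousOn (hf.mono hV)
  have hfm : AEStronglyMeasurable f (volume.restrict (ball a ρ)) :=
    (hf.mono (ball_subset_closedBall.trans hV)).aestronglyMeasurable isOpen_ball.measurableSet
  have hfin : IsFiniteMeasure (volume.restrict (ball a ρ)) :=
    ⟨by rw [Measure.restrict_apply_univ]; exact measure_ball_lt_top⟩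
  have hae : ∀ᵐ x ∂(volume.restrict (ball a ρ)), ‖x - a‖ ^ 2 ≤ ρ ^ 2 ∧ ‖f x‖ ≤ M := by
    filter_upwards [ae_restrict_mem isOpen_ball.measurableSet] with x hx
    refine ⟨?_, hM x (ball_subset_closedBall hx)⟩
    rw [mem_ball, dist_eq_norm] at hx
    exact pow_le_pow_left₀ (norm_nonneg _) hx.le 2
  have hM' : ∀ᵐ x ∂(volume.restrict (ball a ρ)), 0 ≤ M := by
    filter_upwards [hae] with x hx
    exact (norm_nonneg _).trans hx.2
  have h := hasDerivAt_integral_of_dominated_loc_of_deriv_le (μ := volume.restrict (ball a ρ))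
    (F := fun s x => kk m (‖x - a‖ ^ 2) s * f x) (F' := fun s x => kd m (‖x - a‖ ^ 2) s * f x)
    (s := Ioi (s / 2)) (x₀ := s)
    (bound := fun _ => (m * ((s / 2) ^ (m + 1))⁻¹ + ((s / 2) ^ m)⁻¹ * (2 * (2 * ρ ^ 2 / (s / 2) ^ 3))) * M)
    (Ioi_mem_nhds (by linarith)) ?_ ?_ ?_ ?_ ?_ ?_
  · exact h.2
  · exact Eventually.of_forall (fun t => (kk_cont m t a).aestronglyMeasurable.mul hfm)
  · refine Integrable.mono' (integrable_const ((s ^ m)⁻¹ * M))
      ((kk_cont m s a).aestronglyMeasurable.mul hfm) ?_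
    filter_upwards [hae] with x hx
    rw [norm_mul, Real.norm_of_nonneg (kk_nonneg m _ hs)]
    exact mul_le_mul (kk_le m (by positivity) hs) hx.2 (norm_nonneg _) (by positivity)
  · exact (kd_cont m s a).aestronglyMeasurable.mul hfm
  · filter_upwards [hae, hM'] with x hx hM0 t ht
    rw [norm_mul, Real.norm_eq_abs]
    refine mul_le_mul (kd_bound m (by linarith) (le_of_lt ht) (by positivity) hx.1) hx.2 (norm_nonneg _) ?_
    positivity
  · exact integrable_const _
  · refine Eventually.of_forall (fun x t ht => ?_)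
    have ht0 : 0 < t := lt_trans (by linarith) (show s / 2 < t from ht)
    exact (kk_deriv m (‖x - a‖ ^ 2) ht0).mul_const (f x)

end MVG_

open MVG_

theorem mvg_proof (hWBA : Stmt_WBA) (hWIB : Stmt_WIB) : Stmt_MVG := by
  intro m hm
  refine ⟨om_pos, vb m + 1, ?_, ?_⟩
  · have : 0 ≤ vb m := ENNReal.toReal_nonneg
    linarith
  intro V K f g a ρ hVo hf hK hρ hV
  have hvb : 0 ≤ vb m := ENNReal.toReal_nonneg
  set I : ℝ → ℝ := fun s => ∫ x in ball a ρ, kk m (‖x - a‖ ^ 2) s * f x with hI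
  have hcont : ContinuousOn f V := hf.1.cont
  -- monotonicity
  have hder : ∀ s, 0 < s → HasDerivAt (fun s => I s + vb m * K / 2 * s ^ 2)
      ((∫ x in ball a ρ, kd m (‖x - a‖ ^ 2) s * f x) + vb m * K / 2 * (2 * s)) s := by
    intro s hs
    have h1 := mean_deriv hcont hV hs
    have h2 := (hasDerivAt_pow 2 s).const_mul (vb m * K / 2)
    refine (h1.add h2).congr_deriv ?_
    simp
  have hmono : MonotoneOn (fun s => I s + vb m * K / 2 * s ^ 2) (Ioc 0 ρ) := by
    refine monotoneOn_of_deriv_nonneg (convex_Ioc 0 ρ) ?_ ?_ ?_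
    · intro s hs
      exact (hder s hs.1).continuousAt.continuousWithinAt
    · intro s hs
      rw [interior_Ioc] at hs
      exact (hder s hs.1).differentiableAt.differentiableWithinAt
    · intro s hs
      rw [interior_Ioc] at hs
      rw [(hder s hs.1).deriv]
      have := deriv_bound hWBA hWIB hVo hf hK hs.1 hs.2.le hV
      linarith
  have hIρ : I ρ = (ρ ^ m)⁻¹ * ∫ x in ball a ρ, om (ρ⁻¹ • (x - a)) * f x := by
    rw [hI, ← integral_const_mul]
    refine integral_congr_ae (Eventually.of_forall (fun x => ?_))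
    simp only
    rw [kk_om hρ]
    ring
  -- the lower bound at small scales
  have hsmall : ∀ ε > 0, (f a - ε) * ∫ y : E m, om y ≤ I ρ + vb m * K / 2 * ρ ^ 2 := by
    intro ε hε
    have haV : a ∈ V := hV (mem_closedBall_self hρ.le)
    have hca : ContinuousAt f a := hcont.continuousAt (hVo.mem_nhds haV)
    obtain ⟨δ, hδ, hδf⟩ := Metric.continuousAt_iff.1 hca ε hε
    set s := min δ ρ with hsdef
    have hs : 0 < s := lt_min hδ hρ
    have hsρ : s ≤ ρ := min_le_right _ _
    have h1 := hmono ⟨hs, hsρ⟩ ⟨hρ, le_rfl⟩ hsρ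
    simp only at h1
    have h2 : (f a - ε) * ∫ y : E m, om y ≤ I s := by
      rw [← int_kk hs a, hI]
      have h3 : ∫ x : E m, kk m (‖x - a‖ ^ 2) s = ∫ x in ball a ρ, kk m (‖x - a‖ ^ 2) s := by
        rw [← integral_indicator isOpen_ball.measurableSet]
        congr 1
        ext x
        by_cases hx : x ∈ ball a ρ
        · rw [indicator_of_mem hx]
        · rw [indicator_of_notMem hx]
          exact kk_zero m hs (fun h => hx (ball_subset_ball hsρ h))
      rw [h3, mul_comm, ← integral_mul_const]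
      obtain ⟨M, hM⟩ := (isCompact_closedBall a ρ).exists_bound_of_continuousOn (hcont.mono hV)
      have hfm : AEStronglyMeasurable f (volume.restrict (ball a ρ)) :=
        (hcont.mono (ball_subset_closedBall.trans hV)).aestronglyMeasurable isOpen_ball.measurableSet
      have hfin : IsFiniteMeasure (volume.restrict (ball a ρ)) :=
        ⟨by rw [Measure.restrict_apply_univ]; exact measure_ball_lt_top⟩
      have hik : Integrable (fun x => kk m (‖x - a‖ ^ 2) s) (volume.restrict (ball a ρ)) := by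
        refine Integrable.mono' (integrable_const ((s ^ m)⁻¹)) (kk_cont m s a).aestronglyMeasurable ?_
        refine Eventually.of_forall (fun x => ?_)
        rw [Real.norm_of_nonneg (kk_nonneg m _ hs)]
        exact kk_le m (by positivity) hs
      refine integral_mono_ae (hik.mul_const _) ?_ ?_
      · refine Integrable.mono' (integrable_const ((s ^ m)⁻¹ * M))
          ((kk_cont m s a).aestronglyMeasurable.mul hfm) ?_
        filter_upwards [ae_restrict_mem isOpen_ball.measurableSet] with x hx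
        rw [norm_mul, Real.norm_of_nonneg (kk_nonneg m _ hs)]
        exact mul_le_mul (kk_le m (by positivity) hs) (hM x (ball_subset_closedBall hx)) (norm_nonneg _)
          (by positivity)
      · refine Eventually.of_forall (fun x => ?_)
        simp only
        by_cases hx : x ∈ ball a s
        · refine mul_le_mul_of_nonneg_left ?_ (kk_nonneg m _ hs)
          have h4 := hδf (lt_of_lt_of_le (mem_ball.1 hx) (min_le_left _ _))
          rw [Real.dist_eq] at h4
          have := (abs_lt.1 h4).1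
          linarith
        · rw [kk_zero m hs hx, zero_mul, zero_mul]
    have h5 : 0 ≤ vb m * K / 2 * s ^ 2 := by positivity
    linarith
  have hlim : (∫ y : E m, om y) * f a ≤ I ρ + vb m * K / 2 * ρ ^ 2 := by
    have hom := om_pos (m := m)
    refine le_of_forall_pos_le_add (fun ε hε => ?_)
    have h1 := hsmall (ε / ∫ y : E m, om y) (by positivity)
    have h2 : (f a - ε / ∫ y : E m, om y) * ∫ y : E m, om y = (∫ y : E m, om y) * f a - ε := by
      field_simp
    linarith
  rw [← hIρ]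
  have h1 : 0 ≤ K * ρ ^ 2 := by positivity
  have h2 := mul_nonneg hvb h1
  have h3 : (vb m + 1) * K * ρ ^ 2 = vb m * (K * ρ ^ 2) + K * ρ ^ 2 := by ring
  linarith

end Pool.Agent.COB
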