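import Pool.Agent.COB.Stmts

/-!
Squad COB, module NUL: the set of non-density points is null.
-/

set_option autoImplicit false

namespace Pool.Agent.COB

open MeasureTheory Set Metric Filter Topology
open scoped ENNReal

namespace NUL_

theorem continuous_pj {d : ℕ} (i : Fin (d + 1)) : Continuous (pj i) := by
  unfold pj
  fun_prop

theorem dens {d : ℕ} (K : Set (Fin d → ℝ)) (hK : MeasurableSet K) :
    ∀ᵐ y : Fin d → ℝ, y ∈ K →
      Tendsto (fun r : ℝ => (volume (closedBall y r \ K)).toReal / r ^ d) (𝓝[>] 0) (𝓝 0) := by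
  have h := Besicovitch.ae_tendsto_measure_inter_div_of_measurableSet
    (volume : Measure (Fin d → ℝ)) hK.compl
  filter_upwards [h] with y hy hyK
  have h0 : (Kᶜ : Set (Fin d → ℝ)).indicator (1 : (Fin d → ℝ) → ℝ≥0∞) y = 0 := by
    apply Set.indicator_of_notMem
    exact fun h => h hyK
  rw [h0] at hy
  have h1 : Tendsto (fun r : ℝ => (volume (Kᶜ ∩ closedBall y r) / volume (closedBall y r)).toReal)
      (𝓝[>] 0) (𝓝 0) := by
    have h9 := (ENNReal.tendsto_toReal (a := 0) (by simp)).comp hy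
    rw [ENNReal.toReal_zero] at h9
    exact h9
  have h2 : Tendsto (fun r : ℝ => 2 ^ d *
      (volume (Kᶜ ∩ closedBall y r) / volume (closedBall y r)).toReal) (𝓝[>] 0) (𝓝 0) := by
    have := h1.const_mul ((2 : ℝ) ^ d)
    simpa using this
  refine h2.congr' ?_
  filter_upwards [self_mem_nhdsWithin] with r hr
  have hr0 : (0 : ℝ) < r := hr
  have h3 : volume (closedBall y r) = ENNReal.ofReal ((2 * r) ^ d) := by
    rw [Real.volume_pi_closedBall y hr0.le, Fintype.card_fin]
  have h4 : Kᶜ ∩ closedBall y r = closedBall y r \ K := by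
    rw [Set.inter_comm]
    rfl
  rw [h4, ENNReal.toReal_div, h3, ENNReal.toReal_ofReal (by positivity), mul_pow]
  have h5 : (2 : ℝ) ^ d ≠ 0 := by positivity
  have h6 : r ^ d ≠ 0 := by positivity
  field_simp

end NUL_

theorem nul_proof : Stmt_NUL := by
  intro d i Z S L hZ hL hSZ hS
  have hK : IsCompact (pj i '' Z) := hZ.image (NUL_.continuous_pj i)
  have h1 := NUL_.dens (pj i '' Z) hK.measurableSet
  have h2 : volume (pj i '' S) = 0 := by
    refine measure_mono_null ?_ (ae_iff.1 h1)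
    rintro y ⟨p, hp, rfl⟩
    intro h
    exact hS p hp (h ⟨p, hSZ hp, rfl⟩)
  have h3 : Measure.hausdorffMeasure (d : ℝ) (pj i '' S) = 0 := by
    have h4 := hausdorffMeasure_pi_real (ι := Fin d)
    rw [Fintype.card_fin] at h4
    rw [h4]
    exact h2
  -- the inverse
  have hinj : Set.InjOn (pj i) Z := by
    intro x hx y hy hxy
    have h := hL x hx y hy
    rw [hxy, dist_self, mul_zero] at h
    exact sub_eq_zero.1 (norm_le_zero_iff.1 h)
  let g : (Fin d → ℝ) → E (d + 1) := Function.invFunOn (pj i) Z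
  have hg : ∀ x ∈ Z, g (pj i x) = x := fun x hx => hinj.leftInvOn_invFunOn hx
  have hlip : LipschitzOnWith L.toNNReal g (pj i '' S) := by
    refine LipschitzOnWith.of_dist_le_mul ?_
    rintro _ ⟨x, hx, rfl⟩ _ ⟨y, hy, rfl⟩
    rw [hg x (hSZ hx), hg y (hSZ hy), dist_eq_norm]
    refine (hL x (hSZ hx) y (hSZ hy)).trans ?_
    refine mul_le_mul_of_nonneg_right ?_ dist_nonneg
    exact Real.le_coe_toNNReal L
  have himg : g '' (pj i '' S) = S := by
    ext x
    constructor
    · rintro ⟨_, ⟨y, hy, rfl⟩, rfl⟩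
      rw [hg y (hSZ hy)]
      exact hy
    · intro hx
      exact ⟨pj i x, ⟨x, hx, rfl⟩, hg x (hSZ hx)⟩
  have h5 := hlip.hausdorffMeasure_image_le (d := (d : ℝ)) (by positivity)
  rw [himg, h3, mul_zero] at h5
  exact le_antisymm h5 bot_le

end Pool.Agent.COB
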