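import Pool.Agent.COB.Stmts

/-!
Squad COB, module OD1: basic inequality for `Odd`.
-/

set_option autoImplicit false

namespace Pool.Agent.COB

open MeasureTheory Set Metric Filter Topology

namespace OD1_

variable {m : ℕ}

theorem isOpen_Sd {F : E m → ℝ} (hF : Continuous F) {B : Set (E m)} (hB : IsOpen B) :
    IsOpen (Sd F B) :=
  hB.inter (isOpen_lt continuous_const hF)

theorem contOn_glue {F G H : E m → ℝ} {B : Set (E m)} (hF : Continuous F)
    (cG : ContinuousOn G (Sc F B)) (cH : ContinuousOn H (Sc (fun x => -F x) B))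
    (heq : ∀ x ∈ B, F x = 0 → G x = H x) :
    ContinuousOn (fun x => if 0 ≤ F x then G x else H x) B := by
  have h1 : ContinuousOn (fun x => if 0 ≤ F x then G x else H x) (Sc F B) :=
    cG.congr (fun x hx => if_pos hx.2)
  have h2 : ContinuousOn (fun x => if 0 ≤ F x then G x else H x) (Sc (fun x => -F x) B) := by
    refine cH.congr (fun x hx => ?_)
    have hx2 : 0 ≤ -F x := hx.2
    by_cases h : 0 ≤ F x
    · have h0 : F x = 0 := le_antisymm (by linarith) h
      simp only [if_pos h]
      exact heq x hx.1 h0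
    · simp only [if_neg h]
  intro x hx
  have h3 : ContinuousWithinAt (fun x => if 0 ≤ F x then G x else H x)
      (Sc F B ∪ Sc (fun x => -F x) B) x := by
    refine ContinuousWithinAt.union ?_ ?_
    · by_cases h : 0 ≤ F x
      · exact h1 x ⟨hx, h⟩
      · apply continuousWithinAt_of_notMem_closure
        intro hc
        have hsub : closure (Sc F B) ⊆ {y | 0 ≤ F y} :=
          closure_minimal (fun y hy => hy.2) (isClosed_le continuous_const hF)
        exact h (hsub hc)
    · by_cases h : 0 ≤ -F x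
      · exact h2 x ⟨hx, h⟩
      · apply continuousWithinAt_of_notMem_closure
        intro hc
        have hsub : closure (Sc (fun x => -F x) B) ⊆ {y | 0 ≤ -F y} :=
          closure_minimal (fun y hy => hy.2) (isClosed_le continuous_const hF.neg)
        exact h (hsub hc)
  refine h3.mono (fun y hy => ?_)
  rcases le_total 0 (F y) with h | h
  · exact Or.inl ⟨hy, h⟩
  · exact Or.inr ⟨hy, by simpa using h⟩

theorem ae_union {F : E m → ℝ} {B : Set (E m)}
    (hnull : volume {x | x ∈ B ∧ F x = 0} = 0) :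
    (B : Set (E m)) =ᵐ[volume] (Sd F B ∪ Sd (fun x => -F x) B : Set (E m)) := by
  rw [ae_eq_set]
  refine ⟨measure_mono_null ?_ hnull, ?_⟩
  · rintro x ⟨hx, hn⟩
    refine ⟨hx, ?_⟩
    by_contra h0
    apply hn
    rcases lt_or_gt_of_ne h0 with h | h
    · exact Or.inr ⟨hx, by simpa using h⟩
    · exact Or.inl ⟨hx, h⟩
  · have he : (Sd F B ∪ Sd (fun x => -F x) B) \ B = (∅ : Set (E m)) := by
      ext x
      simp only [Set.mem_sdiff, mem_union, mem_empty_iff_false, iff_false]
      rintro ⟨h | h, hn⟩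
      · exact hn h.1
      · exact hn h.1
    rw [he]
    exact measure_empty

theorem split {F : E m → ℝ} (hF : Continuous F) {B : Set (E m)} (hB : IsOpen B)
    (hnull : volume {x | x ∈ B ∧ F x = 0} = 0) (f : E m → ℝ) (hf : IntegrableOn f B) :
    ∫ x in B, f x = (∫ x in Sd F B, f x) + ∫ x in Sd (fun x => -F x) B, f x := by
  rw [setIntegral_congr_set (ae_union hnull)]
  refine setIntegral_union ?_ (isOpen_Sd hF.neg hB).measurableSet
    (hf.mono_set fun x hx => hx.1) (hf.mono_set fun x hx => hx.1)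
  rw [Set.disjoint_left]
  intro x h1 h2
  have a : 0 < F x := h1.2
  have b : 0 < -F x := h2.2
  linarith

theorem glueInt {F : E m → ℝ} {B : Set (E m)}
    (hnull : volume {x | x ∈ B ∧ F x = 0} = 0) (f : E m → ℝ)
    (h1 : IntegrableOn f (Sd F B)) (h2 : IntegrableOn f (Sd (fun x => -F x) B)) :
    IntegrableOn f B :=
  (h1.union h2).congr_set_ae (ae_union hnull)

end OD1_

open OD1_ in
theorem od1_proof (hWBA : Stmt_WBA) (hWIB : Stmt_WIB) (hWGL : Stmt_WGL) (_hWEX : Stmt_WEX)
    (hTBA : Stmt_TBA) (hTPT : Stmt_TPT) (hH0L : Stmt_H0L) (hHF2 : Stmt_HF2) (_hLPC : Stmt_LPC)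
    (hGEF : Stmt_GEF) : Stmt_OD1 := by
  intro m F φ p R L i G dG H dH ζ b hgeo hodd hζ hζc hζs hζ0 hb hbc hbs hpos
  set B : Set (E m) := ball p R with hBdef
  have hB : IsOpen B := isOpen_ball
  have hFc2 : ContDiff ℝ 2 F := hgeo.cF
  have hFc : Continuous F := hFc2.continuous
  have hFmc2 : ContDiff ℝ 2 (fun x => -F x) := hFc2.neg
  have hFmc : Continuous (fun x => -F x) := hFc.neg
  obtain ⟨_, hG1, _⟩ := hGEF m F φ p R L i hgeo
  have hne : ∀ x ∈ B, F x = 0 → fderiv ℝ F x ≠ 0 := fun x hx _ => (hG1 x hx).2.2.2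
  have hnem : ∀ x ∈ B, (fun x => -F x) x = 0 → fderiv ℝ (fun x => -F x) x ≠ 0 := by
    intro x hx _
    have h1 := (hG1 x hx).2.2.2
    have h2 : fderiv ℝ (fun x => -F x) x = -fderiv ℝ F x := fderiv_fun_neg
    rw [h2]
    exact neg_ne_zero.mpr h1
  have oP : IsOpen (Sd F B) := isOpen_Sd hFc hB
  have oM : IsOpen (Sd (fun x => -F x) B) := isOpen_Sd hFmc hB
  obtain ⟨hnull, hT2, _, _, _⟩ := hTPT m B F hB hFc2 hne
  obtain ⟨_, hT2m, _, hT4m, _⟩ := hTPT m B (fun x => -F x) hB hFmc2 hnem
  -- the glued function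
  set U : E m → ℝ := fun x => if 0 ≤ F x then G x else H x with hU
  set dU : E m → E m := fun x => if 0 < F x then dG x else dH x with hdU
  have hUP : ∀ x ∈ Sd F B, U x = G x := fun x hx => if_pos (le_of_lt hx.2)
  have hUM : ∀ x ∈ Sd (fun x => -F x) B, U x = H x := by
    intro x hx
    have h1 : 0 < -F x := hx.2
    exact if_neg (by linarith)
  have hdUP : ∀ x ∈ Sd F B, dU x = dG x := fun x hx => if_pos hx.2
  have hdUM : ∀ x ∈ Sd (fun x => -F x) B, dU x = dH x := by
    intro x hx
    have h1 : 0 < -F x := hx.2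
    exact if_neg (by linarith)
  have hUc : ContinuousOn U B := contOn_glue hFc hodd.cG hodd.cH hodd.eq
  have hWP : HasWG (Sd F B) U dU := by
    refine (hWBA m _ oP).2.2.2.1 G U dG dU hodd.hG.1 hUP ?_
    exact (ae_restrict_iff' oP.measurableSet).mpr (Eventually.of_forall hdUP)
  have hWM : HasWG (Sd (fun x => -F x) B) U dU := by
    refine (hWBA m _ oM).2.2.2.1 H U dH dU hodd.hH hUM ?_
    exact (ae_restrict_iff' oM.measurableSet).mpr (Eventually.of_forall hdUM)
  have hdU2 : IntegrableOn (fun x => ‖dU x‖ ^ 2) B := by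
    refine glueInt hnull _ ?_ ?_
    · exact hodd.eG.congr_fun (fun x hx => by simp only [hdUP x hx]) oP.measurableSet
    · exact hodd.eH.congr_fun (fun x hx => by simp only [hdUM x hx]) oM.measurableSet
  have hWU : HasWG B U dU := hWGL m B F U dU hB hFc2 hne hUc
    (fun C hC _ => hdU2.mono_set hC) hWP hWM
  obtain ⟨hI1, hI2, hI3⟩ := (hWIB m B U dU hB hWU).2 ζ hζ hζc hζs
  -- consequences on the two sides
  have hA : IntegrableOn (fun x => G x * lp ζ x) (Sd F B) :=
    (hI2.mono_set (fun x hx => hx.1)).congr_fun (fun x hx => by simp only [hUP x hx])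
      oP.measurableSet
  have hBm : IntegrableOn (fun x => H x * lp ζ x) (Sd (fun x => -F x) B) :=
    (hI2.mono_set (fun x hx => hx.1)).congr_fun (fun x hx => by simp only [hUM x hx])
      oM.measurableSet
  have hDm : IntegrableOn (fun x => inner ℝ (dH x) (gradient ζ x)) (Sd (fun x => -F x) B) :=
    (hI1.mono_set (fun x hx => hx.1)).congr_fun (fun x hx => by simp only [hdUM x hx])
      oM.measurableSet
  have e1 : ∫ x in B, inner ℝ (dU x) (gradient ζ x) =
      (∫ x in Sd F B, inner ℝ (dG x) (gradient ζ x)) +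
        ∫ x in Sd (fun x => -F x) B, inner ℝ (dH x) (gradient ζ x) := by
    rw [split hFc hB hnull _ hI1,
      setIntegral_congr_fun oP.measurableSet (fun x hx => by simp only [hdUP x hx] :
        EqOn (fun x => inner ℝ (dU x) (gradient ζ x)) (fun x => inner ℝ (dG x) (gradient ζ x))
          (Sd F B)),
      setIntegral_congr_fun oM.measurableSet (fun x hx => by simp only [hdUM x hx] :
        EqOn (fun x => inner ℝ (dU x) (gradient ζ x)) (fun x => inner ℝ (dH x) (gradient ζ x))
          (Sd (fun x => -F x) B))]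
  have e2 : ∫ x in B, U x * lp ζ x =
      (∫ x in Sd F B, G x * lp ζ x) + ∫ x in Sd (fun x => -F x) B, H x * lp ζ x := by
    rw [split hFc hB hnull _ hI2,
      setIntegral_congr_fun oP.measurableSet (fun x hx => by simp only [hUP x hx] :
        EqOn (fun x => U x * lp ζ x) (fun x => G x * lp ζ x) (Sd F B)),
      setIntegral_congr_fun oM.measurableSet (fun x hx => by simp only [hUM x hx] :
        EqOn (fun x => U x * lp ζ x) (fun x => H x * lp ζ x) (Sd (fun x => -F x) B))]
  -- test functions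
  have hζ1 : ContDiff ℝ 1 ζ := hζ.of_le (by norm_num)
  have hTζ : TB B ζ (gradient ζ) :=
    (hTBA m B F hB hFc).2.2.2.2.2.2.2.1 ζ hζ1 hζc hζs
  have e3 : ∫ x in Sd F B, inner ℝ (dG x) (gradient ζ x) = 0 :=
    hH0L m B F G ζ dG (gradient ζ) hB hFc hodd.hG hodd.eG (hT2 ζ (gradient ζ) hTζ).1 hζ0
  -- the function `F ^ 2 b`
  obtain ⟨hJ1, hJ2, hJ3⟩ := hHF2 m B (fun x => -F x) H b dH hB hFmc2 hodd.cH hodd.hH hodd.eH
    hb hbc hbs
  have hsq : (fun y => (-F y) ^ 2 * b y) = fun y => F y ^ 2 * b y := by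
    funext y; ring
  simp only [hsq] at hJ1 hJ2 hJ3
  set q : E m → ℝ := fun y => F y ^ 2 * b y with hq
  have hq2 : ContDiff ℝ 2 q := (hFc2.pow 2).mul hb
  have hqc : HasCompactSupport q := hbc.mul_left
  have hqs : tsupport q ⊆ B := (tsupport_mul_subset_right).trans hbs
  have hTq : TB B q (gradient q) :=
    (hTBA m B F hB hFc).2.2.2.2.2.2.2.1 q (hq2.of_le (by norm_num)) hqc hqs
  have hTa : TB B (fun x => (-1 : ℝ) * (ζ x + q x))
      (fun x => (-1 : ℝ) • (gradient ζ x + gradient q x)) :=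
    (hTBA m B F hB hFc).2.2.2.1 (-1) _ _
      ((hTBA m B F hB hFc).2.2.1 ζ (gradient ζ) q (gradient q) hTζ hTq)
  have hPa := (hT2m _ _ hTa).1
  have hTξ := hT4m _ _ hPa (fun x hx h0 => by
    have h0' : F x = 0 := by simpa using h0
    simp only [hq, hζ0 x hx h0', h0']
    ring)
  have hξn : ∀ x ∈ B, 0 ≤ (Sd (fun x => -F x) B).indicator
      (fun x => (-1 : ℝ) * (ζ x + q x)) x := by
    intro x hx
    by_cases h : x ∈ Sd (fun x => -F x) B
    · rw [indicator_of_mem h]
      have h1 : 0 < -F x := h.2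
      have h2 := hpos x hx (by linarith)
      simp only [hq]
      linarith
    · rw [indicator_of_notMem h]
  have hξz : ∀ x ∈ B, 0 ≤ F x → (Sd (fun x => -F x) B).indicator
      (fun x => (-1 : ℝ) * (ζ x + q x)) x = 0 := by
    intro x hx h0
    apply indicator_of_notMem
    intro h
    have h1 : 0 < -F x := h.2
    linarith
  have key := hodd.sH _ _ hTξ hξn hξz
  have k1 : ∫ x in Sd (fun x => -F x) B, inner ℝ (dH x)
      ((Sd (fun x => -F x) B).indicator
        (fun x => (-1 : ℝ) • (gradient ζ x + gradient q x)) x) =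
      -((∫ x in Sd (fun x => -F x) B, inner ℝ (dH x) (gradient ζ x)) +
        ∫ x in Sd (fun x => -F x) B, inner ℝ (dH x) (gradient q x)) := by
    rw [← integral_add hDm hJ1, ← integral_neg]
    refine setIntegral_congr_fun oM.measurableSet (fun x hx => ?_)
    simp only [indicator_of_mem hx]
    rw [inner_smul_right, inner_add_right]
    ring
  have k2 : ∫ x in Sd (fun x => -F x) B, (Sd (fun x => -F x) B).indicator
        (fun x => (-1 : ℝ) * (ζ x + q x)) x =
      ∫ x in Sd (fun x => -F x) B, (-ζ x - F x ^ 2 * b x) := by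
    refine setIntegral_congr_fun oM.measurableSet (fun x hx => ?_)
    simp only [indicator_of_mem hx, hq]
    ring
  rw [k1, k2] at key
  refine ⟨hA, hBm, hJ2, ?_⟩
  rw [e1, e2, e3] at hI3
  linarith

end Pool.Agent.COB
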