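import Pool.Agent.COB.Stmts

/-! Module ODD: the odd test function. -/

set_option autoImplicit false

namespace Pool.Agent.COB

open MeasureTheory Set Metric Filter Topology
open scoped ENNReal

namespace ODD_

theorem grad_lp_zero {m : ℕ} {χ : E m → ℝ} {x : E m} {c : ℝ} (h : χ =ᶠ[𝓝 x] fun _ => c) :
    gradient χ x = 0 ∧ lp χ x = 0 := by
  constructor
  · unfold gradient
    rw [h.fderiv_eq]
    simp
  · unfold lp
    apply Finset.sum_eq_zero
    intro j _
    have h1 : (fun y => fderiv ℝ χ y (bs j)) =ᶠ[𝓝 x] fun _ => (0 : ℝ) := by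
      filter_upwards [h.fderiv (𝕜 := ℝ)] with y hy
      rw [hy]
      simp
    rw [h1.fderiv_eq]
    simp

theorem bump {m : ℕ} (hL : Stmt_LPC) (p : E m) (r₀ : ℝ) (h0 : 0 < r₀) :
    ∃ χ : E m → ℝ, ContDiff ℝ 2 χ ∧ HasCompactSupport χ ∧ tsupport χ ⊆ closedBall p (3 / 4 * r₀) ∧
      (∀ x, 0 ≤ χ x ∧ χ x ≤ 1) ∧ (∀ x, ‖x - p‖ ≤ r₀ / 2 → χ x = 1) ∧
      (∀ x, r₀ ≤ ‖x - p‖ → χ x = 0) ∧
      (∀ x, ‖x - p‖ < r₀ / 2 ∨ r₀ ≤ ‖x - p‖ → gradient χ x = 0 ∧ lp χ x = 0) ∧
      ∃ M, 0 ≤ M ∧ ∀ x, ‖gradient χ x‖ ≤ M ∧ |lp χ x| ≤ M := by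
  let f : ContDiffBump p := ⟨r₀ / 2, 3 / 4 * r₀, by linarith, by linarith⟩
  have hC2 : ContDiff ℝ 2 f := f.contDiff
  have hz : ∀ x, ‖x - p‖ < r₀ / 2 ∨ r₀ ≤ ‖x - p‖ → gradient f x = 0 ∧ lp f x = 0 := by
    intro x hx
    rcases hx with hx | hx
    · apply grad_lp_zero (c := 1)
      apply f.eventuallyEq_one_of_mem_ball
      rw [mem_ball, dist_eq_norm]
      exact hx
    · apply grad_lp_zero (c := 0)
      have hop : IsOpen (closedBall p (3 / 4 * r₀))ᶜ := isClosed_closedBall.isOpen_compl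
      have hmem : x ∈ (closedBall p (3 / 4 * r₀))ᶜ := by
        rw [mem_compl_iff, mem_closedBall, dist_eq_norm]
        linarith
      filter_upwards [hop.mem_nhds hmem] with y hy
      rw [mem_compl_iff, mem_closedBall, not_le] at hy
      exact f.zero_of_le_dist hy.le
  have hcg := (hL m).1 f hC2
  obtain ⟨M1, hM1⟩ := (isCompact_closedBall p r₀).exists_bound_of_continuousOn
    (f := gradient f) hcg.2.continuousOn
  obtain ⟨M2, hM2⟩ := (isCompact_closedBall p r₀).exists_bound_of_continuousOn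
    (f := lp f) hcg.1.continuousOn
  refine ⟨f, hC2, f.hasCompactSupport, ?_, ?_, ?_, ?_, hz, max 0 (max M1 M2), le_max_left _ _, ?_⟩
  · rw [f.tsupport_eq]
  · intro x
    exact ⟨f.nonneg, f.le_one⟩
  · intro x hx
    apply f.one_of_mem_closedBall
    rw [mem_closedBall, dist_eq_norm]
    exact hx
  · intro x hx
    apply f.zero_of_le_dist
    rw [dist_eq_norm]
    show 3 / 4 * r₀ ≤ ‖x - p‖
    linarith
  · intro x
    by_cases hx : ‖x - p‖ ≤ r₀
    · have hmem : x ∈ closedBall p r₀ := by rw [mem_closedBall, dist_eq_norm]; exact hx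
      refine ⟨(hM1 x hmem).trans ((le_max_left _ _).trans (le_max_right _ _)), ?_⟩
      have := hM2 x hmem
      rw [Real.norm_eq_abs] at this
      exact this.trans ((le_max_right _ _).trans (le_max_right _ _))
    · obtain ⟨h1, h2⟩ := hz x (Or.inr (not_le.1 hx).le)
      rw [h1, h2, norm_zero, abs_zero]
      exact ⟨le_max_left _ _, le_max_left _ _⟩

/-- volume of balls -/
theorem vol_ball {m : ℕ} (p : E m) (s : ℝ) (hs : 0 < s) :
    (volume (ball p s)).toReal = s ^ m * (volume (ball (0 : E m) 1)).toReal := by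
  rw [Measure.addHaar_ball_of_pos volume p hs, ENNReal.toReal_mul, finrank_euclideanSpace_fin,
    ENNReal.toReal_ofReal (by positivity)]

/-- the integral of `J^{-n}`, `n + 1 = m`, over a subset of the ball is bounded independently
of `ρ` -/
theorem int_J {m n : ℕ} (hT : Stmt_TON) (hn : n + 1 = m) (p : E m) (r₀ : ℝ) (h0 : 0 < r₀)
    (A : Set (E m)) (hA : MeasurableSet A) (hAb : A ⊆ ball p r₀) :
    ∀ ρ, 0 < ρ → ρ ≤ r₀ → ∫ x in A, (J ρ p x ^ n)⁻¹ ≤
      n * ((volume (ball (0 : E m) 1)).toReal * (2 * r₀)) +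
      ((2 * r₀) ^ n)⁻¹ * (r₀ ^ m * (volume (ball (0 : E m) 1)).toReal) := by
  intro ρ hρ hρr
  set v := (volume (ball (0 : E m) 1)).toReal with hv
  have hv0 : 0 ≤ v := ENNReal.toReal_nonneg
  have hvolA : volume A ≠ ⊤ := ne_top_of_le_ne_top measure_ball_lt_top.ne (measure_mono hAb)
  obtain ⟨_, h2, h3⟩ := hT m n p r₀ ρ A (fun _ => 1) hρ hρr hA hAb (fun _ _ => zero_le_one)
    (integrableOn_const hvolA)
  have hkey : ∀ s, 0 < s → ∫ x in A ∩ ball p s, (1 : ℝ) ≤ s ^ m * v := by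
    intro s hs
    rw [setIntegral_const, smul_eq_mul, mul_one, Measure.real, ← vol_ball p s hs]
    exact ENNReal.toReal_mono measure_ball_lt_top.ne (measure_mono inter_subset_right)
  have hA1 : ∫ x in A, (1 : ℝ) ≤ r₀ ^ m * v := by
    have := hkey r₀ h0
    rwa [inter_eq_self_of_subset_left hAb] at this
  have hI : (∫ s in ρ..(2 * r₀), (s ^ (n + 1))⁻¹ * ∫ x in A ∩ ball p s, (1 : ℝ)) ≤
      v * (2 * r₀) := by
    have hle : (∫ s in ρ..(2 * r₀), (s ^ (n + 1))⁻¹ * ∫ x in A ∩ ball p s, (1 : ℝ)) ≤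
        ∫ s in ρ..(2 * r₀), v := by
      apply intervalIntegral.integral_mono_on (by linarith) h2 intervalIntegrable_const
      intro s hs
      have hs0 : 0 < s := lt_of_lt_of_le hρ hs.1
      have := hkey s hs0
      rw [hn]
      have hp : 0 < (s ^ m)⁻¹ := by positivity
      calc (s ^ m)⁻¹ * ∫ x in A ∩ ball p s, (1 : ℝ) ≤ (s ^ m)⁻¹ * (s ^ m * v) :=
            mul_le_mul_of_nonneg_left this hp.le
        _ = v := by field_simp
    rw [intervalIntegral.integral_const, smul_eq_mul] at hle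
    have : 0 ≤ ρ * v := mul_nonneg hρ.le hv0
    linarith
  have h4 : ∫ x in A, (1 : ℝ) * (J ρ p x ^ n)⁻¹ = ∫ x in A, (J ρ p x ^ n)⁻¹ := by
    simp only [one_mul]
  rw [h4] at h3
  have hn0 : (0 : ℝ) ≤ n := Nat.cast_nonneg n
  have h5 := mul_le_mul_of_nonneg_left hI hn0
  have h6 : 0 ≤ ((2 * r₀) ^ n)⁻¹ := by positivity
  have h7 := mul_le_mul_of_nonneg_left hA1 h6
  linarith

/-- the Laplacian of the cut off test function -/
theorem lp_zeta {m : ℕ} (hL : Stmt_LPC) (hJ : Stmt_JBM) (hG : Stmt_GEF) {F φ : E m → ℝ} {p : E m}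
    {R L : ℝ} {i : Fin m} (hgeo : Geo F φ p R L i) {r₀ M : ℝ} (h0 : 0 < r₀)
    {χ : E m → ℝ} (hχ : ContDiff ℝ 2 χ) (hχ0 : ∀ x, r₀ ≤ ‖x - p‖ → χ x = 0)
    (hz : ∀ x, ‖x - p‖ < r₀ / 2 ∨ r₀ ≤ ‖x - p‖ → gradient χ x = 0 ∧ lp χ x = 0)
    (hM : 0 ≤ M) (hb : ∀ x, ‖gradient χ x‖ ≤ M ∧ |lp χ x| ≤ M) :
    ∃ KE : ℝ, 0 ≤ KE ∧ ∀ ρ : ℝ, 0 < ρ →
      (∀ x ∈ ball p R, |lp (fun y => (F y * (J ρ p y ^ m)⁻¹) * χ y) x -
        χ x * lp (fun y => F y * (J ρ p y ^ m)⁻¹) x| ≤ KE) ∧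
      (∀ x, r₀ ≤ ‖x - p‖ → lp (fun y => (F y * (J ρ p y ^ m)⁻¹) * χ y) x = 0) := by
  have hR := hgeo.hR
  set a := ((r₀ / 2) ^ m)⁻¹ with ha
  set a2 := ((r₀ / 2) ^ (m + 2))⁻¹ with ha2
  have ha0 : 0 < a := by positivity
  have ha20 : 0 < a2 := by positivity
  have hm0 : (0 : ℝ) ≤ m := Nat.cast_nonneg m
  obtain ⟨_, g1, _, g3, _, _⟩ := hG m F φ p R L i hgeo
  refine ⟨2 * ((a * 2 + (2 * R) * (m * a2 * R)) * M) + (2 * R) * a * M, by positivity, ?_⟩
  intro ρ hρ
  obtain ⟨j1, j2, _⟩ := hJ m p ρ hρ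
  have hcJ := (j2 m).1
  have hFJ : ContDiff ℝ 2 (fun y => F y * (J ρ p y ^ m)⁻¹) := hgeo.cF.mul hcJ
  have hlp : ∀ x, lp (fun y => (F y * (J ρ p y ^ m)⁻¹) * χ y) x =
      χ x * lp (fun y => F y * (J ρ p y ^ m)⁻¹) x +
      2 * inner ℝ (gradient (fun y => F y * (J ρ p y ^ m)⁻¹) x) (gradient χ x) +
      (F x * (J ρ p x ^ m)⁻¹) * lp χ x := fun x =>
    ((hL m).2.1 (fun y => F y * (J ρ p y ^ m)⁻¹) χ hFJ hχ x).2.2.2
  refine ⟨?_, ?_⟩
  · intro x hx
    rw [mem_ball, dist_eq_norm] at hx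
    by_cases hxr : ‖x - p‖ < r₀ / 2
    · obtain ⟨e1, e2⟩ := hz x (Or.inl hxr)
      rw [hlp x, e1, e2, inner_zero_right, mul_zero, mul_zero, add_zero, add_zero, sub_self,
        abs_zero]
      positivity
    · rw [not_lt] at hxr
      have hxb : x ∈ ball p R := by rw [mem_ball, dist_eq_norm]; exact hx
      obtain ⟨q1, q2, q3, _⟩ := j1 x
      have hJr : r₀ / 2 ≤ J ρ p x := hxr.trans q3
      have hJm : (J ρ p x ^ m)⁻¹ ≤ a := by
        apply inv_anti₀ (by positivity)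
        exact pow_le_pow_left₀ (by positivity) hJr m
      have hJm2 : (J ρ p x ^ (m + 2))⁻¹ ≤ a2 := by
        apply inv_anti₀ (by positivity)
        exact pow_le_pow_left₀ (by positivity) hJr (m + 2)
      have hJm0 : 0 ≤ (J ρ p x ^ m)⁻¹ := by positivity
      have hJm20 : 0 ≤ (J ρ p x ^ (m + 2))⁻¹ := by positivity
      have hF : |F x| ≤ 2 * R := by
        have := (g3 x hxb).1
        linarith [norm_nonneg (x - p)]
      have hgF : ‖gradient F x‖ ≤ 2 := by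
        have := (g1 x hxb).2.1
        linarith
      have hgr : gradient (fun y => F y * (J ρ p y ^ m)⁻¹) x =
          (J ρ p x ^ m)⁻¹ • gradient F x + F x • gradient (fun y => (J ρ p y ^ m)⁻¹) x :=
        ((hL m).2.1 F (fun y => (J ρ p y ^ m)⁻¹) hgeo.cF hcJ x).2.2.1
      have hgJ := ((j2 m).2 x).1
      have hng : ‖gradient (fun y => F y * (J ρ p y ^ m)⁻¹) x‖ ≤
          a * 2 + (2 * R) * (m * a2 * R) := by
        rw [hgr, hgJ]
        refine (norm_add_le _ _).trans ?_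
        rw [norm_smul, norm_smul, norm_smul, Real.norm_eq_abs, Real.norm_eq_abs,
          Real.norm_eq_abs, abs_of_nonneg hJm0]
        have e1 : |-(m : ℝ) * (J ρ p x ^ (m + 2))⁻¹| = m * (J ρ p x ^ (m + 2))⁻¹ := by
          rw [neg_mul, abs_neg, abs_of_nonneg (by positivity)]
        rw [e1]
        have e2 : (J ρ p x ^ m)⁻¹ * ‖gradient F x‖ ≤ a * 2 :=
          mul_le_mul hJm hgF (norm_nonneg _) ha0.le
        have e3 : (m : ℝ) * (J ρ p x ^ (m + 2))⁻¹ * ‖x - p‖ ≤ m * a2 * R :=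
          mul_le_mul (mul_le_mul_of_nonneg_left hJm2 hm0) hx.le (norm_nonneg _) (by positivity)
        have e4 : |F x| * ((m : ℝ) * (J ρ p x ^ (m + 2))⁻¹ * ‖x - p‖) ≤
            (2 * R) * (m * a2 * R) :=
          mul_le_mul hF e3 (by positivity) (by positivity)
        linarith
      have hin : |inner ℝ (gradient (fun y => F y * (J ρ p y ^ m)⁻¹) x) (gradient χ x)| ≤
          (a * 2 + (2 * R) * (m * a2 * R)) * M :=
        (abs_real_inner_le_norm _ _).trans
          (mul_le_mul hng (hb x).1 (norm_nonneg _) (by positivity))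
      have hls : |(F x * (J ρ p x ^ m)⁻¹) * lp χ x| ≤ (2 * R) * a * M := by
        rw [abs_mul, abs_mul, abs_of_nonneg hJm0]
        exact mul_le_mul (mul_le_mul hF hJm hJm0 (by positivity)) (hb x).2 (abs_nonneg _)
          (by positivity)
      rw [hlp x]
      have e5 : χ x * lp (fun y => F y * (J ρ p y ^ m)⁻¹) x +
          2 * inner ℝ (gradient (fun y => F y * (J ρ p y ^ m)⁻¹) x) (gradient χ x) +
          (F x * (J ρ p x ^ m)⁻¹) * lp χ x - χ x * lp (fun y => F y * (J ρ p y ^ m)⁻¹) x =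
          2 * inner ℝ (gradient (fun y => F y * (J ρ p y ^ m)⁻¹) x) (gradient χ x) +
          (F x * (J ρ p x ^ m)⁻¹) * lp χ x := by ring
      rw [e5]
      refine (abs_add_le _ _).trans ?_
      rw [abs_mul, abs_of_pos (by norm_num : (0 : ℝ) < 2)]
      linarith
  · intro x hx
    obtain ⟨e1, e2⟩ := hz x (Or.inr hx)
    rw [hlp x, e1, e2, hχ0 x hx, inner_zero_right]
    ring

/-- the Laplacian of `F² b` outside the ball -/
theorem lp_F2b {m : ℕ} (hL : Stmt_LPC) (hJ : Stmt_JBM) {F : E m → ℝ} (hF : ContDiff ℝ 2 F)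
    {p : E m} {ρ : ℝ} (hρ : 0 < ρ) (c : ℝ) :
    (∀ x, lp (fun y => F y ^ 2 * (c * bmp ρ p y)) x = c * lp (fun y => F y ^ 2 * bmp ρ p y) x) ∧
    ∀ x, ρ ≤ ‖x - p‖ → lp (fun y => F y ^ 2 * bmp ρ p y) x = 0 := by
  obtain ⟨_, _, j3, j4, j5, j6, j7, j8⟩ := hJ m p ρ hρ
  have hF2 : ContDiff ℝ 2 (fun y => F y ^ 2) := hF.pow 2
  refine ⟨?_, ?_⟩
  · intro x
    have h1 : (fun y => F y ^ 2 * (c * bmp ρ p y)) = fun y => c * (F y ^ 2 * bmp ρ p y) := by
      funext y; ring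
    rw [h1]
    exact ((hL m).2.2.1 c (fun y => F y ^ 2 * bmp ρ p y) (hF2.mul j3) x).2
  · intro x hx
    have hzero : max 0 (1 - ‖x - p‖ ^ 2 / ρ ^ 2) = 0 := by
      apply max_eq_left
      have : 1 ≤ ‖x - p‖ ^ 2 / ρ ^ 2 := by
        rw [le_div_iff₀ (by positivity), one_mul]
        exact pow_le_pow_left₀ hρ.le hx 2
      linarith
    have h1 := ((hL m).2.1 (fun y => F y ^ 2) (bmp ρ p) hF2 j3 x).2.2.2
    rw [h1, j5 x hx, j7 x, j8 x, hzero]
    simp

theorem J_le {a ρ Jx : ℝ} (ha : 0 ≤ a) (hρ : 0 < ρ) (h : a < ρ) (hJ : 0 < Jx)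
    (hq : Jx ^ 2 = a ^ 2 + ρ ^ 2) : Jx ≤ 2 * ρ := by
  have h2 : a ^ 2 ≤ ρ ^ 2 := pow_le_pow_left₀ ha h.le 2
  have h3 : 0 < ρ ^ 2 := by positivity
  have h1 : Jx ^ 2 ≤ (2 * ρ) ^ 2 := by
    rw [hq, mul_pow]
    linarith
  exact (pow_le_pow_iff_left₀ hJ.le (by positivity) (by norm_num)).1 h1

theorem pw_plus {m : ℕ} {Fx Gx χx lz lF Jx ρ A KE : ℝ} (hJ : 0 < Jx) (hF0 : 0 ≤ Fx)
    (hFJ : Fx ≤ 2 * Jx) (hG : 0 ≤ Gx) (hχ0 : 0 ≤ χx) (hχ1 : χx ≤ 1) (hA : 0 ≤ A)
    (h1 : |lz - χx * lF| ≤ KE)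
    (h2 : |lF + m * (m + 2) * ρ ^ 2 * Fx * (Jx ^ (m + 4))⁻¹| ≤ A * (Jx ^ m)⁻¹) :
    -(2 * m * (m + 2) * ρ ^ 2 * (Gx * (Jx ^ (m + 3))⁻¹) + A * (Gx * (Jx ^ m)⁻¹) + KE * Gx) ≤
      Gx * lz := by
  have hm0 : (0 : ℝ) ≤ m := Nat.cast_nonneg m
  have e4 : 0 ≤ (Jx ^ (m + 4))⁻¹ := by positivity
  have e3 : 0 ≤ (Jx ^ (m + 3))⁻¹ := by positivity
  have em : 0 ≤ (Jx ^ m)⁻¹ := by positivity
  have hF4 : Fx * (Jx ^ (m + 4))⁻¹ ≤ 2 * (Jx ^ (m + 3))⁻¹ := by
    have h3 : 2 * (Jx ^ (m + 3))⁻¹ = (2 * Jx) * (Jx ^ (m + 4))⁻¹ := by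
      rw [pow_succ Jx (m + 3)]
      field_simp
    rw [h3]
    exact mul_le_mul_of_nonneg_right hFJ e4
  set B := m * (m + 2) * ρ ^ 2 * Fx * (Jx ^ (m + 4))⁻¹ with hB
  have hB0 : 0 ≤ B := by positivity
  have hB2 : B ≤ 2 * m * (m + 2) * ρ ^ 2 * (Jx ^ (m + 3))⁻¹ := by
    have h3 : (0 : ℝ) ≤ m * (m + 2) * ρ ^ 2 := by positivity
    have h4 := mul_le_mul_of_nonneg_left hF4 h3
    have h5 : B = m * (m + 2) * ρ ^ 2 * (Fx * (Jx ^ (m + 4))⁻¹) := by rw [hB]; ring
    rw [h5]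
    linarith
  have h3 := (abs_le.1 h2).1
  have h4 := (abs_le.1 h1).1
  have h5 : -(B + A * (Jx ^ m)⁻¹) ≤ χx * lF := by
    have h6 : -(B + A * (Jx ^ m)⁻¹) ≤ lF := by linarith
    have h7 : χx * (-(B + A * (Jx ^ m)⁻¹)) ≤ χx * lF := mul_le_mul_of_nonneg_left h6 hχ0
    have h8 : 0 ≤ B + A * (Jx ^ m)⁻¹ := by positivity
    have h9 : χx * (B + A * (Jx ^ m)⁻¹) ≤ 1 * (B + A * (Jx ^ m)⁻¹) :=
      mul_le_mul_of_nonneg_right hχ1 h8
    linarith
  have h6 : -(2 * m * (m + 2) * ρ ^ 2 * (Jx ^ (m + 3))⁻¹ + A * (Jx ^ m)⁻¹ + KE) ≤ lz := by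
    linarith
  have h7 := mul_le_mul_of_nonneg_left h6 hG
  linarith

theorem pw_minus {m : ℕ} {f χx lz lF Jx ρ A KE : ℝ} (hJ : 0 < Jx)
    (hχ0 : 0 ≤ χx) (hχ1 : χx ≤ 1) (hA : 0 ≤ A)
    (h1 : |lz - χx * lF| ≤ KE)
    (h2 : |lF + m * (m + 2) * ρ ^ 2 * (-f) * (Jx ^ (m + 4))⁻¹| ≤ A * (Jx ^ m)⁻¹) :
    χx * (m * (m + 2) * ρ ^ 2 * f * (Jx ^ (m + 4))⁻¹) - A * (Jx ^ m)⁻¹ - KE ≤ lz := by
  have hm0 : (0 : ℝ) ≤ m := Nat.cast_nonneg m
  have em : 0 ≤ (Jx ^ m)⁻¹ := by positivity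
  have h3 := (abs_le.1 h2).1
  have h4 := (abs_le.1 h1).1
  have h6 : m * (m + 2) * ρ ^ 2 * f * (Jx ^ (m + 4))⁻¹ - A * (Jx ^ m)⁻¹ ≤ lF := by linarith
  have h7 := mul_le_mul_of_nonneg_left h6 hχ0
  have h8 : 0 ≤ A * (Jx ^ m)⁻¹ := by positivity
  have h9 : χx * (A * (Jx ^ m)⁻¹) ≤ 1 * (A * (Jx ^ m)⁻¹) := mul_le_mul_of_nonneg_right hχ1 h8
  linarith

theorem isOpen_Sd {m : ℕ} {F : E m → ℝ} (hF : Continuous F) {B : Set (E m)} (hB : IsOpen B) :
    IsOpen (Sd F B) := by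
  have : Sd F B = B ∩ {x | 0 < F x} := rfl
  rw [this]
  exact hB.inter (isOpen_lt continuous_const hF)

theorem intOn {m : ℕ} {F : E m → ℝ} (hF : Continuous F) {p : E m} {r₀ R : ℝ} (hr : r₀ < R)
    {g : E m → ℝ} (hg : ContinuousOn g (Sc F (ball p R))) :
    IntegrableOn g (Sd F (ball p r₀)) := by
  have hK : IsCompact (closedBall p r₀ ∩ {x | 0 ≤ F x}) :=
    (isCompact_closedBall p r₀).inter_right (isClosed_le continuous_const hF)
  have hsub : closedBall p r₀ ∩ {x | 0 ≤ F x} ⊆ Sc F (ball p R) := by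
    intro x hx
    exact ⟨closedBall_subset_ball hr hx.1, hx.2⟩
  have h1 : IntegrableOn g (closedBall p r₀ ∩ {x | 0 ≤ F x}) :=
    (hg.mono hsub).integrableOn_compact hK
  apply h1.mono_set
  intro x hx
  exact ⟨ball_subset_closedBall hx.1, hx.2.le⟩

end ODD_

open ODD_ in
theorem odd_proof (hOD1 : Stmt_OD1) (hLPC : Stmt_LPC) (hJBM : Stmt_JBM) (hGEF : Stmt_GEF)
    (hKER : Stmt_KER) (hKF2 : Stmt_KF2) (hTON : Stmt_TON) : Stmt_ODD := by
  intro m hm
  obtain ⟨CK, hCK, hker⟩ := hKER m hm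
  obtain ⟨⟨C2, hC2, hkf⟩, _⟩ := hKF2 m hm
  obtain ⟨n, hn⟩ : ∃ n, n + 1 = m := ⟨m - 1, by omega⟩
  have hmr : (0 : ℝ) < m := by exact_mod_cast hm
  set τ₀ : ℝ := min (1 / 2 ^ (m + 1)) (m * (m + 2) / (2 ^ (m + 4) * C2)) with hτ
  have hτ0 : 0 < τ₀ := by
    rw [hτ]
    apply lt_min <;> positivity
  have hτ1 : τ₀ ≤ 1 / 2 ^ (m + 1) := min_le_left _ _
  have hτ2 : τ₀ ≤ m * (m + 2) / (2 ^ (m + 4) * C2) := min_le_right _ _
  refine ⟨τ₀ / 2, by positivity, 2 * m * (m + 2) + CK, by positivity, ?_⟩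
  intro F φ p R L i G dG H dH hgeo hodd r₀ hr0 hr0R
  have hR := hgeo.hR
  have hLp : 0 < L := lt_of_lt_of_le one_pos hgeo.hL
  have hFc : Continuous F := hgeo.cF.continuous
  have hFc' : Continuous (fun x => -F x) := hFc.neg
  have hr0R' : r₀ < R := by linarith
  obtain ⟨χ, hχ, hχcs, hχts, hχ01, hχ1, hχ0, hz, M, hM, hb⟩ := bump hLPC p r₀ hr0
  obtain ⟨KE, hKE, hE⟩ := lp_zeta hLPC hJBM hGEF hgeo hr0 hχ hχ0 hz hM hb
  obtain ⟨_, g1, _, g3, _, _⟩ := hGEF m F φ p R L i hgeo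
  set v := (volume (ball (0 : E m) 1)).toReal with hv
  set K1 : ℝ := n * (v * (2 * r₀)) + ((2 * r₀) ^ n)⁻¹ * (r₀ ^ m * v) with hK1
  have hGi : IntegrableOn G (Sd F (ball p r₀)) := intOn hFc hr0R' hodd.cG
  have hHi : IntegrableOn H (Sd (fun x => -F x) (ball p r₀)) := intOn hFc' hr0R' hodd.cH
  refine ⟨KE * (∫ x in Sd F (ball p r₀), G x) +
    KE * (∫ x in Sd (fun x => -F x) (ball p r₀), H x) + 2 * L * (2 * K1), ?_⟩
  intro ρ hρ hρr
  obtain ⟨j1, j2, j3, j4, j5, j6, _, _⟩ := hJBM m p ρ hρ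
  obtain ⟨hE1, hE2⟩ := hE ρ hρ
  set q : ℝ := (ρ ^ (m + 1))⁻¹ with hq
  have hq0 : 0 < q := by positivity
  obtain ⟨hb1, hb2⟩ := lp_F2b hLPC hJBM hgeo.cF (p := p) hρ (τ₀ * q)
  have hcJ : ∀ k : ℕ, Continuous fun x => (J ρ p x ^ k)⁻¹ := fun k => (j2 k).1.continuous
  -- the test functions
  set ζ : E m → ℝ := fun y => (F y * (J ρ p y ^ m)⁻¹) * χ y with hζ
  set b : E m → ℝ := fun y => τ₀ * q * bmp ρ p y with hbdef
  have hζC : ContDiff ℝ 2 ζ := (hgeo.cF.mul (j2 m).1).mul hχ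
  have hζcs : HasCompactSupport ζ := hχcs.mul_left
  have hζts : tsupport ζ ⊆ ball p R := by
    refine (tsupport_mul_subset_right).trans (hχts.trans ?_)
    exact closedBall_subset_ball (by linarith)
  have hbC : ContDiff ℝ 2 b := contDiff_const.mul j3
  have hbsupp : ∀ x, x ∉ closedBall p ρ → b x = 0 := by
    intro x hx
    rw [mem_closedBall, dist_eq_norm, not_le] at hx
    show τ₀ * q * bmp ρ p x = 0
    rw [j5 x hx.le, mul_zero]
  have hbcs : HasCompactSupport b :=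
    HasCompactSupport.intro (isCompact_closedBall p ρ) hbsupp
  have hbts : tsupport b ⊆ ball p R := by
    have h1 : tsupport b ⊆ closedBall p ρ := by
      apply closure_minimal _ isClosed_closedBall
      intro x hx
      by_contra hcon
      exact hx (hbsupp x hcon)
    exact h1.trans (closedBall_subset_ball (by linarith))
  -- the sign condition
  have hsign : ∀ x ∈ ball p R, F x < 0 → 0 ≤ -ζ x - F x ^ 2 * b x := by
    intro x hx hFx
    obtain ⟨q1, q2, q3, q4⟩ := j1 x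
    have hJm : 0 < (J ρ p x ^ m)⁻¹ := by positivity
    by_cases hxρ : ρ ≤ ‖x - p‖
    · show 0 ≤ -((F x * (J ρ p x ^ m)⁻¹) * χ x) - F x ^ 2 * (τ₀ * q * bmp ρ p x)
      rw [j5 x hxρ]
      have h1 : 0 ≤ (-F x) * (J ρ p x ^ m)⁻¹ * χ x :=
        mul_nonneg (mul_nonneg (by linarith) hJm.le) (hχ01 x).1
      linarith
    · rw [not_le] at hxρ
      show 0 ≤ -((F x * (J ρ p x ^ m)⁻¹) * χ x) - F x ^ 2 * (τ₀ * q * bmp ρ p x)
      rw [hχ1 x (by linarith)]
      have hJ2 : J ρ p x ≤ 2 * ρ := J_le (norm_nonneg _) hρ hxρ q1 q4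
      have hJm2 : ((2 * ρ) ^ m)⁻¹ ≤ (J ρ p x ^ m)⁻¹ := by
        apply inv_anti₀ (by positivity)
        exact pow_le_pow_left₀ q1.le hJ2 m
      have hFl : -F x ≤ 2 * ρ := by
        have h1 := (g3 x hx).1
        have h2 := neg_le_abs (F x)
        linarith [norm_nonneg (x - p)]
      have hbm := j4 x
      have h3 : (-F x) * (τ₀ * q * bmp ρ p x) ≤ (2 * ρ) * (τ₀ * q * 1) := by
        apply mul_le_mul hFl _ (by have := hbm.1; positivity) (by positivity)
        exact mul_le_mul_of_nonneg_left hbm.2 (by positivity)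
      have h4 : (2 * ρ) * (τ₀ * q * 1) ≤ ((2 * ρ) ^ m)⁻¹ := by
        have h5 : (2 * ρ) * (τ₀ * q * 1) ≤ (2 * ρ) * (1 / 2 ^ (m + 1) * q * 1) := by
          apply mul_le_mul_of_nonneg_left _ (by positivity)
          apply mul_le_mul_of_nonneg_right _ (by norm_num)
          exact mul_le_mul_of_nonneg_right hτ1 hq0.le
        have h6 : (2 * ρ) * (1 / 2 ^ (m + 1) * q * 1) = ((2 * ρ) ^ m)⁻¹ := by
          rw [hq, mul_pow, pow_succ ρ m, pow_succ (2 : ℝ) m]
          field_simp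
        linarith
      have h7 : 0 ≤ (-F x) * ((J ρ p x ^ m)⁻¹ - (-F x) * (τ₀ * q * bmp ρ p x)) := by
        apply mul_nonneg (by linarith)
        linarith
      have h8 : -((F x * (J ρ p x ^ m)⁻¹) * 1) - F x ^ 2 * (τ₀ * q * bmp ρ p x) =
          (-F x) * ((J ρ p x ^ m)⁻¹ - (-F x) * (τ₀ * q * bmp ρ p x)) := by ring
      rw [h8]
      exact h7
  obtain ⟨o1, o2, o3, o4⟩ := hOD1 m F φ p R L i G dG H dH ζ b hgeo hodd hζC hζcs hζts
    (fun x _ hx => by show (F x * (J ρ p x ^ m)⁻¹) * χ x = 0; rw [hx]; ring) hbC hbcs hbts hsign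
  -- measurability
  have hoTp := isOpen_Sd hFc (isOpen_ball (x := p) (ε := r₀))
  have hoTm := isOpen_Sd hFc' (isOpen_ball (x := p) (ε := r₀))
  have hoUm := isOpen_Sd hFc' (isOpen_ball (x := p) (ε := ρ / 2))
  have hoSp := isOpen_Sd hFc (isOpen_ball (x := p) (ε := R))
  have hoSm := isOpen_Sd hFc' (isOpen_ball (x := p) (ε := R))
  have hTSp : Sd F (ball p R) ∩ Sd F (ball p r₀) = Sd F (ball p r₀) := by
    apply inter_eq_self_of_subset_right
    intro x hx
    exact ⟨ball_subset_ball hr0R'.le hx.1, hx.2⟩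
  have hTSm : Sd (fun x => -F x) (ball p R) ∩ Sd (fun x => -F x) (ball p r₀) =
      Sd (fun x => -F x) (ball p r₀) := by
    apply inter_eq_self_of_subset_right
    intro x hx
    exact ⟨ball_subset_ball hr0R'.le hx.1, hx.2⟩
  have hUSm : Sd (fun x => -F x) (ball p R) ∩ Sd (fun x => -F x) (ball p (ρ / 2)) =
      Sd (fun x => -F x) (ball p (ρ / 2)) := by
    apply inter_eq_self_of_subset_right
    intro x hx
    exact ⟨ball_subset_ball (by linarith) hx.1, hx.2⟩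
  have hUTm : Sd (fun x => -F x) (ball p (ρ / 2)) ⊆ Sd (fun x => -F x) (ball p r₀) := by
    intro x hx
    exact ⟨ball_subset_ball (by linarith) hx.1, hx.2⟩
  -- integrability
  have hG3 : IntegrableOn (fun x => G x * (J ρ p x ^ (m + 3))⁻¹) (Sd F (ball p r₀)) :=
    intOn hFc hr0R' (hodd.cG.mul (hcJ (m + 3)).continuousOn)
  have hGm : IntegrableOn (fun x => G x * (J ρ p x ^ m)⁻¹) (Sd F (ball p r₀)) :=
    intOn hFc hr0R' (hodd.cG.mul (hcJ m).continuousOn)
  have hHm : IntegrableOn (fun x => H x * (J ρ p x ^ m)⁻¹) (Sd (fun x => -F x) (ball p r₀)) :=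
    intOn hFc' hr0R' (hodd.cH.mul (hcJ m).continuousOn)
  have hHu : IntegrableOn H (Sd (fun x => -F x) (ball p (ρ / 2))) := hHi.mono_set hUTm
  -- the upper side
  have hup : -(2 * m * (m + 2) * (ρ ^ 2 *
        ∫ x in Sd F (ball p r₀), G x * (J ρ p x ^ (m + 3))⁻¹) +
      CK * L * (∫ x in Sd F (ball p r₀), G x * (J ρ p x ^ m)⁻¹) +
      KE * ∫ x in Sd F (ball p r₀), G x) ≤ ∫ x in Sd F (ball p R), G x * lp ζ x := by
    have e1 : ∫ x in Sd F (ball p r₀), -(2 * m * (m + 2) * ρ ^ 2 *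
        (G x * (J ρ p x ^ (m + 3))⁻¹) + CK * L * (G x * (J ρ p x ^ m)⁻¹) + KE * G x) =
        -(2 * m * (m + 2) * (ρ ^ 2 * ∫ x in Sd F (ball p r₀), G x * (J ρ p x ^ (m + 3))⁻¹) +
      CK * L * (∫ x in Sd F (ball p r₀), G x * (J ρ p x ^ m)⁻¹) +
      KE * ∫ x in Sd F (ball p r₀), G x) := by
      rw [integral_neg, integral_add, integral_add, integral_const_mul, integral_const_mul,
        integral_const_mul]
      · ring
      · exact hG3.const_mul _
      · exact hGm.const_mul _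
      · exact (hG3.const_mul _).add (hGm.const_mul _)
      · exact hGi.const_mul _
    rw [← e1]
    have hint : IntegrableOn (fun x => -(2 * m * (m + 2) * ρ ^ 2 *
        (G x * (J ρ p x ^ (m + 3))⁻¹) + CK * L * (G x * (J ρ p x ^ m)⁻¹) + KE * G x))
        (Sd F (ball p r₀)) :=
      (((hG3.const_mul _).add (hGm.const_mul _)).add (hGi.const_mul _)).neg
    have e2 : ∫ x in Sd F (ball p r₀), -(2 * m * (m + 2) * ρ ^ 2 *
        (G x * (J ρ p x ^ (m + 3))⁻¹) + CK * L * (G x * (J ρ p x ^ m)⁻¹) + KE * G x) =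
        ∫ x in Sd F (ball p R), (Sd F (ball p r₀)).indicator (fun x => -(2 * m * (m + 2) *
        ρ ^ 2 * (G x * (J ρ p x ^ (m + 3))⁻¹) + CK * L * (G x * (J ρ p x ^ m)⁻¹) + KE * G x))
        x := by
      rw [setIntegral_indicator hoTp.measurableSet, hTSp]
    rw [e2]
    apply setIntegral_mono_on _ o1 hoSp.measurableSet
    · intro x hx
      by_cases hxT : x ∈ Sd F (ball p r₀)
      · rw [indicator_of_mem hxT]
        obtain ⟨q1, q2, q3, q4⟩ := j1 x
        have hFx : F x ≤ 2 * J ρ p x := by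
          have h1 := (g3 x hx.1).1
          have h2 := le_abs_self (F x)
          linarith [norm_nonneg (x - p)]
        exact pw_plus q1 hx.2.le hFx (hodd.nG x ⟨hx.1, hx.2.le⟩) (hχ01 x).1 (hχ01 x).2
          (by positivity) (hE1 x hx.1) (hker F φ p R L i hgeo ρ hρ (by linarith) x hx.1)
      · rw [indicator_of_notMem hxT]
        have hxr : r₀ ≤ ‖x - p‖ := by
          by_contra hcon
          rw [not_le] at hcon
          exact hxT ⟨by rw [mem_ball, dist_eq_norm]; exact hcon, hx.2⟩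
        have h1 : lp ζ x = 0 := hE2 x hxr
        rw [h1, mul_zero]
    · rw [IntegrableOn, integrable_indicator_iff hoTp.measurableSet]
      exact hint.mono_measure Measure.restrict_le_self
  -- the lower side
  have hlow : -(CK * L * (∫ x in Sd (fun x => -F x) (ball p r₀), H x * (J ρ p x ^ m)⁻¹) +
      KE * ∫ x in Sd (fun x => -F x) (ball p r₀), H x) +
      τ₀ / 2 * q * (∫ x in Sd (fun x => -F x) (ball p (ρ / 2)), H x) ≤
      (∫ x in Sd (fun x => -F x) (ball p R), H x * lp ζ x) +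
      ∫ x in Sd (fun x => -F x) (ball p R), H x * lp (fun y => F y ^ 2 * b y) x := by
    have e1 : ∫ x in Sd (fun x => -F x) (ball p r₀),
        -(CK * L * (H x * (J ρ p x ^ m)⁻¹) + KE * H x) =
        -(CK * L * (∫ x in Sd (fun x => -F x) (ball p r₀), H x * (J ρ p x ^ m)⁻¹) +
      KE * ∫ x in Sd (fun x => -F x) (ball p r₀), H x) := by
      rw [integral_neg, integral_add, integral_const_mul, integral_const_mul]
      · exact hHm.const_mul _
      · exact hHi.const_mul _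
    have hint1 : IntegrableOn (fun x => -(CK * L * (H x * (J ρ p x ^ m)⁻¹) + KE * H x))
        (Sd (fun x => -F x) (ball p r₀)) := ((hHm.const_mul _).add (hHi.const_mul _)).neg
    have e2 : ∫ x in Sd (fun x => -F x) (ball p r₀),
        -(CK * L * (H x * (J ρ p x ^ m)⁻¹) + KE * H x) =
        ∫ x in Sd (fun x => -F x) (ball p R), (Sd (fun x => -F x) (ball p r₀)).indicator
        (fun x => -(CK * L * (H x * (J ρ p x ^ m)⁻¹) + KE * H x)) x := by
      rw [setIntegral_indicator hoTm.measurableSet, hTSm]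
    have e3 : τ₀ / 2 * q * (∫ x in Sd (fun x => -F x) (ball p (ρ / 2)), H x) =
        ∫ x in Sd (fun x => -F x) (ball p R),
        (Sd (fun x => -F x) (ball p (ρ / 2))).indicator (fun x => τ₀ / 2 * q * H x) x := by
      rw [setIntegral_indicator hoUm.measurableSet, hUSm, integral_const_mul]
    have hint1' : IntegrableOn ((Sd (fun x => -F x) (ball p r₀)).indicator
        (fun x => -(CK * L * (H x * (J ρ p x ^ m)⁻¹) + KE * H x)))
        (Sd (fun x => -F x) (ball p R)) := by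
      rw [IntegrableOn, integrable_indicator_iff hoTm.measurableSet]
      exact hint1.mono_measure Measure.restrict_le_self
    have hint2' : IntegrableOn ((Sd (fun x => -F x) (ball p (ρ / 2))).indicator
        (fun x => τ₀ / 2 * q * H x)) (Sd (fun x => -F x) (ball p R)) := by
      rw [IntegrableOn, integrable_indicator_iff hoUm.measurableSet]
      have hint2 : IntegrableOn (fun x => τ₀ / 2 * q * H x)
          (Sd (fun x => -F x) (ball p (ρ / 2))) := hHu.const_mul _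
      exact hint2.mono_measure Measure.restrict_le_self
    rw [← e1, e2, e3, ← integral_add hint1' hint2', ← integral_add o2 o3]
    apply setIntegral_mono_on (hint1'.add hint2') (o2.add o3) hoSm.measurableSet
    intro x hx
    have hx1 : x ∈ ball p R := hx.1
    have hFx : F x < 0 := by have := hx.2; linarith
    have hHx : 0 ≤ H x := hodd.nH x ⟨hx.1, hx.2.le⟩
    obtain ⟨q1, q2, q3, q4⟩ := j1 x
    have hl2 : lp (fun y => F y ^ 2 * b y) x = τ₀ * q * lp (fun y => F y ^ 2 * bmp ρ p y) x :=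
      hb1 x
    show _ ≤ H x * lp ζ x + H x * lp (fun y => F y ^ 2 * b y) x
    rw [hl2, Pi.add_apply]
    by_cases hxr : r₀ ≤ ‖x - p‖
    · have hn1 : x ∉ Sd (fun x => -F x) (ball p r₀) := by
        intro hcon
        have := hcon.1
        rw [mem_ball, dist_eq_norm] at this
        linarith
      have hn2 : x ∉ Sd (fun x => -F x) (ball p (ρ / 2)) := fun hcon => hn1 (hUTm hcon)
      have h1 : lp ζ x = 0 := hE2 x hxr
      rw [indicator_of_notMem hn1, indicator_of_notMem hn2, h1, hb2 x (by linarith)]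
      simp
    · rw [not_le] at hxr
      have hn1 : x ∈ Sd (fun x => -F x) (ball p r₀) :=
        ⟨by rw [mem_ball, dist_eq_norm]; exact hxr, hx.2⟩
      rw [indicator_of_mem hn1]
      have hker' := hker F φ p R L i hgeo ρ hρ (by linarith) x hx1
      have hker'' : |lp (fun y => F y * (J ρ p y ^ m)⁻¹) x +
          m * (m + 2) * ρ ^ 2 * (-(-F x)) * (J ρ p x ^ (m + 4))⁻¹| ≤
          CK * L * (J ρ p x ^ m)⁻¹ := by rw [neg_neg]; exact hker'
      have hpm := pw_minus q1 (hχ01 x).1 (hχ01 x).2 (by positivity) (hE1 x hx1) hker''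
      have hJ4 : 0 < (J ρ p x ^ (m + 4))⁻¹ := by positivity
      have hfpos : 0 < -F x := by linarith
      by_cases hxρ : ρ ≤ ‖x - p‖
      · have hn2 : x ∉ Sd (fun x => -F x) (ball p (ρ / 2)) := by
          intro hcon
          have := hcon.1
          rw [mem_ball, dist_eq_norm] at this
          linarith
        rw [indicator_of_notMem hn2, hb2 x hxρ]
        have h1 : 0 ≤ χ x * (m * (m + 2) * ρ ^ 2 * (-F x) * (J ρ p x ^ (m + 4))⁻¹) :=
          mul_nonneg (hχ01 x).1 (by positivity)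
        have h2 : -(CK * L * (J ρ p x ^ m)⁻¹) - KE ≤ lp ζ x := by linarith
        have h3 := mul_le_mul_of_nonneg_left h2 hHx
        linarith
      · rw [not_le] at hxρ
        have hχx : χ x = 1 := hχ1 x (by linarith)
        rw [hχx, one_mul] at hpm
        have hkf' := (hkf F φ p R L i hgeo ρ hρ (by linarith) x
          (by rw [mem_ball, dist_eq_norm]; exact hxρ)).1
        have habs : |F x| = -F x := abs_of_neg hFx
        rw [habs] at hkf'
        have hJ2 : J ρ p x ≤ 2 * ρ := J_le (norm_nonneg _) hρ hxρ q1 q4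
        have hJ42 : ((2 * ρ) ^ (m + 4))⁻¹ ≤ (J ρ p x ^ (m + 4))⁻¹ := by
          apply inv_anti₀ (by positivity)
          exact pow_le_pow_left₀ q1.le hJ2 (m + 4)
        have hab : τ₀ * q * (C2 * (-F x) / ρ) ≤
            m * (m + 2) * ρ ^ 2 * (-F x) * (J ρ p x ^ (m + 4))⁻¹ := by
          have h1 : τ₀ * q * (C2 * (-F x) / ρ) ≤
              m * (m + 2) / (2 ^ (m + 4) * C2) * q * (C2 * (-F x) / ρ) := by
            apply mul_le_mul_of_nonneg_right _ (by positivity)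
            exact mul_le_mul_of_nonneg_right hτ2 hq0.le
          have h2 : m * (m + 2) / (2 ^ (m + 4) * C2) * q * (C2 * (-F x) / ρ) =
              m * (m + 2) * ρ ^ 2 * (-F x) * ((2 * ρ) ^ (m + 4))⁻¹ := by
            rw [hq, mul_pow]
            have e5 : ρ ^ (m + 4) = ρ ^ (m + 1) * ρ * ρ ^ 2 := by ring
            rw [e5]
            field_simp
          have h3 : m * (m + 2) * ρ ^ 2 * (-F x) * ((2 * ρ) ^ (m + 4))⁻¹ ≤
              m * (m + 2) * ρ ^ 2 * (-F x) * (J ρ p x ^ (m + 4))⁻¹ :=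
            mul_le_mul_of_nonneg_left hJ42 (by positivity)
          linarith
        have hkf2 : τ₀ * q * (19 / 10 * bmp ρ p x - C2 * (-F x) / ρ) ≤
            τ₀ * q * lp (fun y => F y ^ 2 * bmp ρ p y) x :=
          mul_le_mul_of_nonneg_left hkf' (by positivity)
        have hsum : -(CK * L * (J ρ p x ^ m)⁻¹) - KE + τ₀ * q * (19 / 10 * bmp ρ p x) ≤
            lp ζ x + τ₀ * q * lp (fun y => F y ^ 2 * bmp ρ p y) x := by
          have h1 : τ₀ * q * (19 / 10 * bmp ρ p x - C2 * (-F x) / ρ) =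
              τ₀ * q * (19 / 10 * bmp ρ p x) - τ₀ * q * (C2 * (-F x) / ρ) := by ring
          linarith
        have hbm := (j4 x).1
        by_cases hx2 : x ∈ Sd (fun x => -F x) (ball p (ρ / 2))
        · rw [indicator_of_mem hx2]
          have hx3 : ‖x - p‖ ≤ ρ / 2 := by
            have := hx2.1
            rw [mem_ball, dist_eq_norm] at this
            exact this.le
          have hb3 := j6 x hx3
          have h1 : τ₀ / 2 * q ≤ τ₀ * q * (19 / 10 * bmp ρ p x) := by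
            have h2 : (1 / 2 : ℝ) ≤ 19 / 10 * bmp ρ p x := by linarith
            have h3 := mul_le_mul_of_nonneg_left h2 (mul_pos hτ0 hq0).le
            linarith
          have h4 : -(CK * L * (J ρ p x ^ m)⁻¹) - KE + τ₀ / 2 * q ≤
              lp ζ x + τ₀ * q * lp (fun y => F y ^ 2 * bmp ρ p y) x := by linarith
          have h5 := mul_le_mul_of_nonneg_left h4 hHx
          linarith
        · rw [indicator_of_notMem hx2]
          have h1 : 0 ≤ τ₀ * q * (19 / 10 * bmp ρ p x) := by positivity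
          have h4 : -(CK * L * (J ρ p x ^ m)⁻¹) - KE ≤
              lp ζ x + τ₀ * q * lp (fun y => F y ^ 2 * bmp ρ p y) x := by linarith
          have h5 := mul_le_mul_of_nonneg_left h4 hHx
          linarith
  -- the right side
  have hrhs : ∫ x in Sd (fun x => -F x) (ball p R), (-ζ x - F x ^ 2 * b x) ≤ 2 * K1 := by
    have hJn : IntegrableOn (fun x => 2 * (J ρ p x ^ n)⁻¹) (Sd (fun x => -F x) (ball p r₀)) :=
      intOn hFc' hr0R' (continuous_const.mul (hcJ n)).continuousOn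
    have h1 : ∫ x in Sd (fun x => -F x) (ball p R), (-ζ x - F x ^ 2 * b x) ≤
        ∫ x in Sd (fun x => -F x) (ball p R), (Sd (fun x => -F x) (ball p r₀)).indicator
          (fun x => 2 * (J ρ p x ^ n)⁻¹) x := by
      apply integral_mono_of_nonneg
      · rw [EventuallyLE, ae_restrict_iff' hoSm.measurableSet]
        filter_upwards with x hx
        exact hsign x hx.1 (by have := hx.2; linarith)
      · rw [integrable_indicator_iff hoTm.measurableSet]
        exact hJn.mono_measure Measure.restrict_le_self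
      · rw [EventuallyLE, ae_restrict_iff' hoSm.measurableSet]
        filter_upwards with x hx
        have hFx : F x < 0 := by have := hx.2; linarith
        obtain ⟨q1, q2, q3, q4⟩ := j1 x
        by_cases hxr : r₀ ≤ ‖x - p‖
        · have hn1 : x ∉ Sd (fun x => -F x) (ball p r₀) := by
            intro hcon
            have := hcon.1
            rw [mem_ball, dist_eq_norm] at this
            linarith
          rw [indicator_of_notMem hn1]
          show -((F x * (J ρ p x ^ m)⁻¹) * χ x) - F x ^ 2 * (τ₀ * q * bmp ρ p x) ≤ 0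
          rw [hχ0 x hxr, j5 x (by linarith)]
          simp
        · rw [not_le] at hxr
          have hn1 : x ∈ Sd (fun x => -F x) (ball p r₀) :=
            ⟨by rw [mem_ball, dist_eq_norm]; exact hxr, hx.2⟩
          rw [indicator_of_mem hn1]
          show -((F x * (J ρ p x ^ m)⁻¹) * χ x) - F x ^ 2 * (τ₀ * q * bmp ρ p x) ≤
            2 * (J ρ p x ^ n)⁻¹
          have hbm := (j4 x).1
          have h2 : 0 ≤ F x ^ 2 * (τ₀ * q * bmp ρ p x) := by positivity
          have hFl : -F x ≤ 2 * J ρ p x := by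
            have h3 := (g3 x hx.1).1
            have h4 := neg_le_abs (F x)
            linarith [norm_nonneg (x - p)]
          have hJm : 0 ≤ (J ρ p x ^ m)⁻¹ := by positivity
          have h5 : (-F x) * (J ρ p x ^ m)⁻¹ ≤ 2 * (J ρ p x ^ n)⁻¹ := by
            have h6 : 2 * (J ρ p x ^ n)⁻¹ = (2 * J ρ p x) * (J ρ p x ^ m)⁻¹ := by
              have e6 : J ρ p x ^ m = J ρ p x ^ n * J ρ p x := by rw [← pow_succ, hn]
              rw [e6]
              field_simp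
            rw [h6]
            exact mul_le_mul_of_nonneg_right hFl hJm
          have h7 : (-F x) * (J ρ p x ^ m)⁻¹ * χ x ≤ (-F x) * (J ρ p x ^ m)⁻¹ * 1 :=
            mul_le_mul_of_nonneg_left (hχ01 x).2 (mul_nonneg (by linarith) hJm)
          linarith
    rw [setIntegral_indicator hoTm.measurableSet, hTSm, integral_const_mul] at h1
    have h2 := int_J hTON hn p r₀ hr0 (Sd (fun x => -F x) (ball p r₀)) hoTm.measurableSet
      (fun x hx => hx.1) ρ hρ (by linarith)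
    linarith
  -- conclusion
  have hGm0 : 0 ≤ ∫ x in Sd F (ball p r₀), G x * (J ρ p x ^ m)⁻¹ := by
    apply setIntegral_nonneg hoTp.measurableSet
    intro x hx
    have := (j1 x).1
    exact mul_nonneg (hodd.nG x ⟨ball_subset_ball hr0R'.le hx.1, hx.2.le⟩) (by positivity)
  have hG30 : 0 ≤ ∫ x in Sd F (ball p r₀), G x * (J ρ p x ^ (m + 3))⁻¹ := by
    apply setIntegral_nonneg hoTp.measurableSet
    intro x hx
    have := (j1 x).1
    exact mul_nonneg (hodd.nG x ⟨ball_subset_ball hr0R'.le hx.1, hx.2.le⟩) (by positivity)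
  have hHm0 : 0 ≤ ∫ x in Sd (fun x => -F x) (ball p r₀), H x * (J ρ p x ^ m)⁻¹ := by
    apply setIntegral_nonneg hoTm.measurableSet
    intro x hx
    have := (j1 x).1
    exact mul_nonneg (hodd.nH x ⟨ball_subset_ball hr0R'.le hx.1, hx.2.le⟩) (by positivity)
  have hfin := mul_le_mul_of_nonneg_left hrhs (by positivity : (0 : ℝ) ≤ 2 * L)
  have hx1 : 0 ≤ CK * (ρ ^ 2 * ∫ x in Sd F (ball p r₀), G x * (J ρ p x ^ (m + 3))⁻¹) := by
    positivity
  have hx2 : 0 ≤ 2 * m * (m + 2) * L * ((∫ x in Sd F (ball p r₀), G x * (J ρ p x ^ m)⁻¹) +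
        ∫ x in Sd (fun x => -F x) (ball p r₀), H x * (J ρ p x ^ m)⁻¹) := by
    positivity
  linarith

end Pool.Agent.COB
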