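import Pool.Agent.COB.Stmts

set_option autoImplicit false

namespace Pool.Agent.COB

open MeasureTheory Set Metric Filter Topology
open scoped ENNReal

namespace PRS_

theorem isOpen_Sd {m : ℕ} {F : E m → ℝ} (hF : Continuous F) {B : Set (E m)} (hB : IsOpen B) :
    IsOpen (Sd F B) := hB.inter (isOpen_lt continuous_const hF)

theorem cw_aux {m : ℕ} {F f : E m → ℝ} (hF : Continuous F) {B : Set (E m)}
    (h1 : ContinuousOn f (Sc F B)) {x : E m} (hx : x ∈ B) : ContinuousWithinAt f (Sc F B) x := by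
  by_cases h : 0 ≤ F x
  · exact h1 x ⟨hx, h⟩
  · refine continuousWithinAt_of_notMem_closure fun hc => h ?_
    have hcl : IsClosed {y : E m | 0 ≤ F y} := isClosed_le continuous_const hF
    have hsub : Sc F B ⊆ {y : E m | 0 ≤ F y} := fun y hy => hy.2
    exact closure_minimal hsub hcl hc

theorem glue_cont {m : ℕ} {F f : E m → ℝ} (hF : Continuous F) {B : Set (E m)}
    (h1 : ContinuousOn f (Sc F B)) (h2 : ContinuousOn f (Sc (fun x => -F x) B)) :
    ContinuousOn f B := by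
  intro x hx
  have hB : B ⊆ Sc F B ∪ Sc (fun x => -F x) B := by
    intro y hy
    rcases le_total 0 (F y) with h | h
    · exact Or.inl ⟨hy, h⟩
    · exact Or.inr ⟨hy, by simpa using h⟩
  refine ContinuousWithinAt.mono ?_ hB
  rw [continuousWithinAt_union]
  exact ⟨cw_aux hF h1 hx, cw_aux hF.neg h2 hx⟩

theorem Sd_sub_Sc {m : ℕ} (F : E m → ℝ) (B : Set (E m)) : Sd F B ⊆ Sc F B :=
  fun _ hx => ⟨hx.1, hx.2.le⟩

/-- integral over `B` splits into the two sides -/
theorem split_int {m : ℕ} {F : E m → ℝ} (hF : Continuous F) {B : Set (E m)} (hB : IsOpen B)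
    (hnull : volume {x | x ∈ B ∧ F x = 0} = 0) (f : E m → ℝ)
    (h1 : IntegrableOn f (Sd F B)) (h2 : IntegrableOn f (Sd (fun x => -F x) B)) :
    IntegrableOn f B ∧ ∫ x in B, f x = (∫ x in Sd F B, f x) +
      ∫ x in Sd (fun x => -F x) B, f x := by
  have hae : (Sd F B ∪ Sd (fun x => -F x) B : Set (E m)) =ᵐ[volume] B := by
    refine ae_eq_set.mpr ⟨?_, ?_⟩
    · have : (Sd F B ∪ Sd (fun x => -F x) B) \ B = ∅ := by
        refine Set.eq_empty_of_forall_notMem ?_
        rintro x ⟨h | h, hn⟩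
        · exact hn h.1
        · exact hn h.1
      rw [this, measure_empty]
    · refine measure_mono_null ?_ hnull
      rintro x ⟨hx, hn⟩
      refine ⟨hx, ?_⟩
      by_contra h0
      rcases lt_or_gt_of_ne h0 with h | h
      · exact hn (Or.inr ⟨hx, by simpa using h⟩)
      · exact hn (Or.inl ⟨hx, h⟩)
  have hdis : Disjoint (Sd F B) (Sd (fun x => -F x) B) := by
    rw [Set.disjoint_left]
    rintro x ⟨_, h1⟩ ⟨_, h2⟩
    simp only at h2
    linarith
  have hm2 : MeasurableSet (Sd (fun x => -F x) B) := (isOpen_Sd hF.neg hB).measurableSet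
  refine ⟨(h1.union h2).congr_set_ae hae.symm, ?_⟩
  rw [← setIntegral_congr_set hae, setIntegral_union hdis hm2 h1 h2]

/-- integrability of the inner product of two `L²` fields -/
theorem int_inner {m : ℕ} {U : Set (E m)} {g h : E m → E m}
    (mg : AEStronglyMeasurable g (volume.restrict U)) (mh : AEStronglyMeasurable h (volume.restrict U))
    (ig : IntegrableOn (fun x => ‖g x‖ ^ 2) U) (ih : IntegrableOn (fun x => ‖h x‖ ^ 2) U) :
    IntegrableOn (fun x => inner ℝ (g x) (h x)) U := by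
  refine Integrable.mono' (Integrable.add ig ih) (mg.inner mh) ?_
  refine Eventually.of_forall fun x => ?_
  rw [Real.norm_eq_abs]
  have h1 := abs_real_inner_le_norm (g x) (h x)
  simp only [Pi.add_apply]
  nlinarith [sq_nonneg (‖g x‖ - ‖h x‖), norm_nonneg (g x), norm_nonneg (h x)]

theorem grad_bdd {m : ℕ} (hLPC : Stmt_LPC) {ψ : E m → ℝ} (hψ : ContDiff ℝ 2 ψ) (p : E m) (R : ℝ) :
    IntegrableOn (fun x => ‖gradient ψ x‖ ^ 2) (ball p R) := by
  have hc : Continuous (gradient ψ) := ((hLPC m).1 ψ hψ).2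
  have hi : IntegrableOn (fun x => ‖gradient ψ x‖ ^ 2) (closedBall p R) :=
    (hc.norm.pow 2).continuousOn.integrableOn_compact (isCompact_closedBall p R)
  exact hi.mono_set ball_subset_closedBall

/-- general lemma: the positive part of `ψ - f`, `f = f₁` above and `f = f₂` below -/
theorem gen (hWBA : Stmt_WBA) (hWPP : Stmt_WPP) (hWGL : Stmt_WGL) (hWEX : Stmt_WEX)
    (hWIT : Stmt_WIT) (hTPT : Stmt_TPT) (hLPC : Stmt_LPC) (hGEF : Stmt_GEF) (hKAT : Stmt_KAT)
    (m : ℕ) (F φ : E m → ℝ) (p : E m) (R L : ℝ) (i : Fin m) (hG : Geo F φ p R L i)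
    (ψ : E m → ℝ) (hψ : ContDiff ℝ 2 ψ) (hlψ : ∀ x ∈ ball p R, |lp ψ x| ≤ L)
    (f₁ f₂ : E m → ℝ) (g₁ g₂ : E m → E m)
    (c1 : ContinuousOn f₁ (Sc F (ball p R))) (c2 : ContinuousOn f₂ (Sc (fun x => -F x) (ball p R)))
    (w1 : HasWG (Sd F (ball p R)) f₁ g₁) (w2 : HasWG (Sd (fun x => -F x) (ball p R)) f₂ g₂)
    (e1 : IntegrableOn (fun x => ‖g₁ x‖ ^ 2) (Sd F (ball p R)))
    (e2 : IntegrableOn (fun x => ‖g₂ x‖ ^ 2) (Sd (fun x => -F x) (ball p R)))
    (hm : ∀ x ∈ ball p R, F x = 0 → max (ψ x - f₁ x) 0 = max (ψ x - f₂ x) 0)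
    (hne : ∀ x ∈ ball p R, F x = 0 → f₁ x ≠ f₂ x → max (ψ x - f₁ x) 0 = 0)
    (hEL : ∀ (ξ : E m → ℝ) (dξ : E m → E m), TB (ball p R) ξ dξ →
      (∀ x ∈ ball p R, F x = 0 → f₁ x ≠ f₂ x → ξ x = 0) →
      (∫ x in Sd F (ball p R), inner ℝ (g₁ x) (dξ x)) +
        ∫ x in Sd (fun x => -F x) (ball p R), inner ℝ (g₂ x) (dξ x) = 0) :
    ∃ dP, SH (ball p R) L
      (fun x => if 0 ≤ F x then max (ψ x - f₁ x) 0 else max (ψ x - f₂ x) 0) dP := by
  have hF : Continuous F := hG.cF.continuous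
  have hB : IsOpen (ball p R) := isOpen_ball
  have hS1 : IsOpen (Sd F (ball p R)) := isOpen_Sd hF hB
  have hS2 : IsOpen (Sd (fun x => -F x) (ball p R)) := isOpen_Sd hF.neg hB
  have hgrad0 : ∀ x ∈ ball p R, F x = 0 → fderiv ℝ F x ≠ 0 := fun x hx _ =>
    ((hGEF m F φ p R L i hG).2.1 x hx).2.2.2
  obtain ⟨hnull, hres, -, -, -⟩ := hTPT m (ball p R) F hB hG.cF hgrad0
  have hgψ : ∀ U : Set (E m), IsOpen U → HasWG U ψ (gradient ψ) := fun U hU =>
    (hWBA m U hU).2.2.2.2.1 ψ (hψ.of_le (by norm_num)).contDiffOn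
  have hsub : ∀ (U : Set (E m)) (f : E m → ℝ) (g : E m → E m), IsOpen U → HasWG U f g →
      HasWG U (fun x => ψ x - f x) (fun x => gradient ψ x - g x) := by
    intro U f g hU hw
    obtain ⟨-, hadd, hmul, hcg, -, -⟩ := hWBA m U hU
    have h1 := hmul (-1) f g hw
    have h2 := hadd _ _ _ _ (hgψ U hU) h1
    refine hcg _ _ _ _ h2 (fun x _ => by ring) ?_
    refine Eventually.of_forall fun x => ?_
    simp [sub_eq_add_neg]
  -- the function and its gradient
  set P : E m → ℝ := fun x => if 0 ≤ F x then max (ψ x - f₁ x) 0 else max (ψ x - f₂ x) 0 with hP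
  set dP : E m → E m := fun x => if 0 < F x then {x | 0 < ψ x - f₁ x}.indicator
    (fun x => gradient ψ x - g₁ x) x else {x | 0 < ψ x - f₂ x}.indicator
    (fun x => gradient ψ x - g₂ x) x with hdP
  have hP1 : ∀ x ∈ Sc F (ball p R), P x = max (ψ x - f₁ x) 0 := fun x hx => if_pos hx.2
  have hP2 : ∀ x ∈ Sc (fun x => -F x) (ball p R), P x = max (ψ x - f₂ x) 0 := by
    intro x hx
    have hx2 : F x ≤ 0 := by simpa using hx.2
    rcases hx2.lt_or_eq with h | h
    · exact if_neg (not_le.mpr h)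
    · rw [← hm x hx.1 h]
      exact if_pos h.ge
  have hdP1 : ∀ x ∈ Sd F (ball p R), dP x = {x | 0 < ψ x - f₁ x}.indicator
      (fun x => gradient ψ x - g₁ x) x := fun x hx => if_pos hx.2
  have hdP2 : ∀ x ∈ Sd (fun x => -F x) (ball p R), dP x = {x | 0 < ψ x - f₂ x}.indicator
      (fun x => gradient ψ x - g₂ x) x := by
    intro x hx
    have hx2 : F x < 0 := by simpa using hx.2
    exact if_neg (not_lt.mpr hx2.le)
  have hw1 : HasWG (Sd F (ball p R)) P dP := by
    have h1 := (hWPP m _ _ _ hS1 (hsub _ _ _ hS1 w1)).1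
    refine (hWBA m _ hS1).2.2.2.1 _ _ _ _ h1 (fun x hx => hP1 x (Sd_sub_Sc _ _ hx)) ?_
    filter_upwards [self_mem_ae_restrict hS1.measurableSet] with x hx
    exact hdP1 x hx
  have hw2 : HasWG (Sd (fun x => -F x) (ball p R)) P dP := by
    have h1 := (hWPP m _ _ _ hS2 (hsub _ _ _ hS2 w2)).1
    refine (hWBA m _ hS2).2.2.2.1 _ _ _ _ h1 (fun x hx => hP2 x (Sd_sub_Sc _ _ hx)) ?_
    filter_upwards [self_mem_ae_restrict hS2.measurableSet] with x hx
    exact hdP2 x hx
  have hcP : ContinuousOn P (ball p R) := by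
    refine glue_cont hF ?_ ?_
    · exact (ContinuousOn.sup (hψ.continuous.continuousOn.sub c1) continuousOn_const).congr hP1
    · exact (ContinuousOn.sup (hψ.continuous.continuousOn.sub c2) continuousOn_const).congr hP2
  have hψB : IntegrableOn (fun x => ‖gradient ψ x‖ ^ 2) (ball p R) := grad_bdd hLPC hψ p R
  have aux : ∀ (S : Set (E m)) (g : E m → E m) (A : Set (E m)), S ⊆ ball p R → MeasurableSet S →
      IntegrableOn (fun x => ‖g x‖ ^ 2) S → AEStronglyMeasurable dP (volume.restrict S) →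
      (∀ x ∈ S, dP x = A.indicator (fun x => gradient ψ x - g x) x) →
      IntegrableOn (fun x => ‖dP x‖ ^ 2) S := by
    intro S g A hS hSm hg hmeas heq
    have hi : IntegrableOn (fun x => 2 * ‖gradient ψ x‖ ^ 2 + 2 * ‖g x‖ ^ 2) S :=
      ((hψB.mono_set hS).const_mul 2).add (hg.const_mul 2)
    refine Integrable.mono' hi (hmeas.norm.pow 2) ?_
    filter_upwards [self_mem_ae_restrict hSm] with x hx
    rw [Real.norm_of_nonneg (by positivity), heq x hx]
    by_cases hA : x ∈ A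
    · rw [indicator_of_mem hA]
      have := norm_sub_le (gradient ψ x) (g x)
      have h0 := norm_nonneg (gradient ψ x - g x)
      nlinarith [sq_nonneg (‖gradient ψ x‖ - ‖g x‖), norm_nonneg (gradient ψ x), norm_nonneg (g x)]
    · rw [indicator_of_notMem hA, norm_zero]
      have h1 := sq_nonneg ‖gradient ψ x‖
      have h2 := sq_nonneg ‖g x‖
      simp only [ne_eq, OfNat.ofNat_ne_zero, not_false_eq_true, zero_pow]
      linarith
  have he1 : IntegrableOn (fun x => ‖dP x‖ ^ 2) (Sd F (ball p R)) :=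
    aux _ g₁ _ (fun x hx => hx.1) hS1.measurableSet e1 hw1.meas hdP1
  have he2 : IntegrableOn (fun x => ‖dP x‖ ^ 2) (Sd (fun x => -F x) (ball p R)) :=
    aux _ g₂ _ (fun x hx => hx.1) hS2.measurableSet e2 hw2.meas hdP2
  have heB : IntegrableOn (fun x => ‖dP x‖ ^ 2) (ball p R) := (split_int hF hB hnull _ he1 he2).1
  have hwB : HasWG (ball p R) P dP :=
    hWGL m (ball p R) F P dP hB hG.cF hgrad0 hcP (fun C hC _ => heB.mono_set hC) hw1 hw2
  have hnn : ∀ x ∈ ball p R, 0 ≤ P x := by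
    intro x _
    rw [hP]
    dsimp only
    split_ifs <;> exact le_max_right _ _
  have hL0 : 0 ≤ L := zero_le_one.trans hG.hL
  refine ⟨dP, hKAT m (ball p R) L P dP hB hL0 hwB heB hnn ?_⟩
  intro ξ dξ hξ hξ0 hξP
  obtain ⟨iξ2, iξ, -, -, hinn⟩ := hWEX m (ball p R) ξ dξ hB hξ
  have hz : ∀ᵐ x : E m, x ∈ ball p R → ξ x = 0 → dξ x = 0 := (hWPP m _ _ _ hB hξ.wg).2
  obtain ⟨-, ilp, hib⟩ := hWIT m (ball p R) ψ ξ dξ hB hψ hξ
  have iψ : IntegrableOn (fun x => inner ℝ (gradient ψ x) (dξ x)) (ball p R) :=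
    hinn _ _ (hgψ _ hB)
  have mξ1 : AEStronglyMeasurable dξ (volume.restrict (Sd F (ball p R))) :=
    hξ.wg.meas.mono_measure (Measure.restrict_mono (fun x hx => hx.1) le_rfl)
  have mξ2 : AEStronglyMeasurable dξ (volume.restrict (Sd (fun x => -F x) (ball p R))) :=
    hξ.wg.meas.mono_measure (Measure.restrict_mono (fun x hx => hx.1) le_rfl)
  have ig1 : IntegrableOn (fun x => inner ℝ (g₁ x) (dξ x)) (Sd F (ball p R)) :=
    int_inner w1.meas mξ1 e1 (iξ2.mono_set fun x hx => hx.1)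
  have ig2 : IntegrableOn (fun x => inner ℝ (g₂ x) (dξ x)) (Sd (fun x => -F x) (ball p R)) :=
    int_inner w2.meas mξ2 e2 (iξ2.mono_set fun x hx => hx.1)
  have iψ1 := iψ.mono_set (t := ball p R) (s := Sd F (ball p R)) (fun x hx => hx.1)
  have iψ2 := iψ.mono_set (t := ball p R) (s := Sd (fun x => -F x) (ball p R)) (fun x hx => hx.1)
  have hcomp : ∀ (S : Set (E m)) (f : E m → ℝ) (g : E m → E m), S ⊆ ball p R → MeasurableSet S →
      (∀ x ∈ S, dP x = {x | 0 < ψ x - f x}.indicator (fun x => gradient ψ x - g x) x) →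
      (∀ x ∈ S, P x = max (ψ x - f x) 0) →
      IntegrableOn (fun x => inner ℝ (gradient ψ x) (dξ x)) S →
      IntegrableOn (fun x => inner ℝ (g x) (dξ x)) S →
      IntegrableOn (fun x => inner ℝ (dP x) (dξ x)) S ∧ ∫ x in S, inner ℝ (dP x) (dξ x) =
        (∫ x in S, inner ℝ (gradient ψ x) (dξ x)) - ∫ x in S, inner ℝ (g x) (dξ x) := by
    intro S f g hS hSm heq hPeq j1 j2
    have hae : (fun x => inner ℝ (dP x) (dξ x)) =ᵐ[volume.restrict S]
        fun x => inner ℝ (gradient ψ x) (dξ x) - inner ℝ (g x) (dξ x) := by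
      filter_upwards [self_mem_ae_restrict hSm, ae_restrict_of_ae hz] with x hx hzx
      rw [heq x hx]
      by_cases hA : 0 < ψ x - f x
      · rw [indicator_of_mem (show x ∈ {x | 0 < ψ x - f x} from hA), inner_sub_left]
      · have hP0 : P x = 0 := by
          rw [hPeq x hx]
          exact max_eq_right (not_lt.mp hA)
        have hd0 : dξ x = 0 := hzx (hS hx) (hξP x (hS hx) hP0)
        rw [hd0]
        simp
    refine ⟨(j1.sub j2).congr hae.symm, ?_⟩
    rw [integral_congr_ae hae]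
    exact integral_sub j1 j2
  obtain ⟨k1, q1⟩ := hcomp (Sd F (ball p R)) f₁ g₁ (fun x hx => hx.1) hS1.measurableSet hdP1
    (fun x hx => hP1 x (Sd_sub_Sc _ _ hx)) iψ1 ig1
  obtain ⟨k2, q2⟩ := hcomp (Sd (fun x => -F x) (ball p R)) f₂ g₂ (fun x hx => hx.1)
    hS2.measurableSet hdP2 (fun x hx => hP2 x (Sd_sub_Sc _ _ hx)) iψ2 ig2
  have hsp := (split_int hF hB hnull _ k1 k2).2
  have hspψ := (split_int hF hB hnull _ iψ1 iψ2).2
  have hEL0 := hEL ξ dξ hξ (fun x hx h0 h1 => hξP x hx (by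
    have : P x = max (ψ x - f₁ x) 0 := if_pos h0.ge
    rw [this]
    exact hne x hx h0 h1))
  have hlast : -∫ x in ball p R, lp ψ x * ξ x ≤ L * ∫ x in ball p R, ξ x := by
    rw [← integral_neg, ← integral_const_mul]
    refine setIntegral_mono_on ilp.neg (iξ.const_mul L) hB.measurableSet fun x hx => ?_
    have h1 := abs_le.mp (hlψ x hx)
    have h2 := hξ0 x hx
    change -(lp ψ x * ξ x) ≤ L * ξ x
    nlinarith
  linarith

end PRS_

theorem prs_proof (hWBA : Stmt_WBA) (_hWUN : Stmt_WUN) (hWPP : Stmt_WPP) (hWGL : Stmt_WGL)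
    (hWEX : Stmt_WEX) (hWIT : Stmt_WIT) (_hTBA : Stmt_TBA) (hTPT : Stmt_TPT) (hLPC : Stmt_LPC)
    (hGEF : Stmt_GEF) (hSTR : Stmt_STR) (hEUL : Stmt_EUL) (hKAT : Stmt_KAT) : Stmt_PRS := by
  intro m k F φ p R L i v gv w gw j _ hG hC
  obtain ⟨-, -, hEL⟩ := hEUL m k F φ p R L i v gv w gw hG hC
  have hpt : ∀ x ∈ ball p R, F x = 0 → _ := fun x hx h0 =>
    hSTR k (fun l => v l x) (fun l => w l x) (φ x) (hC.mv x ⟨hx, h0.ge⟩)
      (hC.mw x ⟨hx, by simp [h0]⟩) (hC.tr x hx h0)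
  obtain ⟨dP, hdP⟩ := PRS_.gen hWBA hWPP hWGL hWEX hWIT hTPT hLPC hGEF hKAT m F φ p R L i hG
    φ hG.cφ hG.lφ (v j.castSucc) (w j) (gv j.castSucc) (gw j) (hC.cv _) (hC.cw _) (hC.hv _)
    (hC.hw _) (hC.ev _) (hC.ew _)
    (fun x hx h0 => ((hpt x hx h0).2.2.1 j).2.2.2.2.1)
    (fun x hx h0 h1 => by
      have hj := (hpt x hx h0).2.2.1 j
      rw [hj.2.2.2.2.1]
      refine max_eq_right ?_
      by_contra hcon
      push Not at hcon
      exact h1 (hj.1 (by simpa using hcon.le)))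
    (fun ξ dξ hξ h1 => hEL j.castSucc j ξ dξ hξ h1)
  have hneg : ∀ (U : Set (E m)) (f : E m → ℝ) (g : E m → E m), IsOpen U → HasWG U f g →
      HasWG U (fun x => -f x) (fun x => -g x) := by
    intro U f g hU hw
    obtain ⟨-, -, hmul, hcg, -, -⟩ := hWBA m U hU
    refine hcg _ _ _ _ (hmul (-1) f g hw) (fun x _ => by ring) ?_
    refine Eventually.of_forall fun x => ?_
    simp
  have hF : Continuous F := hG.cF.continuous
  have hlpn : ∀ x, lp (fun y => -φ y) x = -lp φ x := by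
    intro x
    have := (((hLPC m).2.2.1 (-1) φ hG.cφ) x).2
    simpa using this
  obtain ⟨dR, hdR⟩ := PRS_.gen hWBA hWPP hWGL hWEX hWIT hTPT hLPC hGEF hKAT m F φ p R L i hG
    (fun y => -φ y) hG.cφ.neg (fun x hx => by rw [hlpn, abs_neg]; exact hG.lφ x hx)
    (fun x => -v j.succ x) (fun x => -w j x) (fun x => -gv j.succ x) (fun x => -gw j x)
    (hC.cv _).neg (hC.cw _).neg
    (hneg _ _ _ (PRS_.isOpen_Sd hF isOpen_ball) (hC.hv _))
    (hneg _ _ _ (PRS_.isOpen_Sd hF.neg isOpen_ball) (hC.hw _))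
    (by simpa only [norm_neg] using hC.ev j.succ) (by simpa only [norm_neg] using hC.ew j)
    (fun x hx h0 => by
      have := ((hpt x hx h0).2.2.1 j).2.2.2.2.2
      rw [show -φ x - -v j.succ x = v j.succ x - φ x by ring,
        show -φ x - -w j x = w j x - φ x by ring]
      exact this)
    (fun x hx h0 h1 => by
      have hj := (hpt x hx h0).2.2.1 j
      rw [show -φ x - -v j.succ x = v j.succ x - φ x by ring, hj.2.2.2.2.2]
      refine max_eq_right ?_
      by_contra hcon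
      push Not at hcon
      apply h1
      rw [hj.2.1 (by simpa using hcon.le)])
    (fun ξ dξ hξ h1 => by
      have h2 := hEL j.succ j ξ dξ hξ (fun x hx h0 h3 => h1 x hx h0 (fun h4 => h3 (neg_injective h4)))
      simp only [inner_neg_left]
      rw [integral_neg, integral_neg]
      linarith)
  refine ⟨dP, dR, hdP, ?_⟩
  have : (RR F φ v w j) = fun x => if 0 ≤ F x then max (-φ x - -v j.succ x) 0 else
      max (-φ x - -w j x) 0 := by
    funext x
    unfold RR
    rw [show -φ x - -v j.succ x = v j.succ x - φ x by ring,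
        show -φ x - -w j x = w j x - φ x by ring]
  rw [this]
  exact hdR

end Pool.Agent.COB
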