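import Pool.Agent.COB.Stmts

/-!
Squad COB, module RLC: local regularity at a point near which the collapsed sheets are collapsed
(density points of the collapsed set).
-/

set_option autoImplicit false

namespace Pool.Agent.COB

open MeasureTheory Set Metric Filter Topology

namespace RLC_

/-- a lower set of `Fin k` is an initial segment -/
theorem thr {k : ℕ} (P : Fin k → Prop) (hP : ∀ i j : Fin k, i ≤ j → P j → P i) :
    ∃ a ≤ k, ∀ j : Fin k, (j : ℕ) < a ↔ P j := by
  classical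
  have hk : ∀ j : Fin k, k ≤ (j : ℕ) → ¬ P j := fun j hj => absurd j.2 (by omega)
  have hQ : ∃ a, ∀ j : Fin k, a ≤ (j : ℕ) → ¬ P j := ⟨k, hk⟩
  refine ⟨Nat.find hQ, Nat.find_min' hQ hk, fun j => ⟨fun h => ?_, fun h => ?_⟩⟩
  · have := Nat.find_min hQ h
    simp only [not_forall, not_not] at this
    obtain ⟨j', hj', hP'⟩ := this
    exact hP j j' hj' hP'
  · by_contra hc
    exact Nat.find_spec hQ j (by omega) h

/-- the sheet above that is glued to the sheet `j` below -/
def sg {k : ℕ} (a n : ℕ) (hn : a + n ≤ k) (j : Fin k) : Fin (k + 1) :=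
  if (j : ℕ) < a then j.castSucc else if (j : ℕ) < a + n then ⟨a, by omega⟩ else j.succ

theorem sg_mono {k : ℕ} (a n : ℕ) (hn : a + n ≤ k) : Monotone (sg a n hn) := by
  intro i j hij
  have hij' : (i : ℕ) ≤ j := hij
  unfold sg
  split_ifs <;> simp only [Fin.le_def, Fin.val_castSucc, Fin.val_succ] <;> omega

theorem ml_succAbove {k : ℕ} (v : Fin (k + 1) → ℝ) (a : Fin (k + 1)) :
    ml v = v a ::ₘ ml (fun j => v (a.succAbove j)) := by
  unfold ml
  rw [Fin.univ_succAbove k a, Finset.cons_val, Multiset.map_cons, Finset.map_val,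
    Multiset.map_map]
  rfl

end RLC_

open RLC_ in
theorem rlc_proof (hWBA : Stmt_WBA) (hSMP : Stmt_SMP) (_hGEF : Stmt_GEF) (hFUB : Stmt_FUB)
    (hSTR : Stmt_STR) (hGLH : Stmt_GLH) (hCON : Stmt_CON) (hCLS : Stmt_CLS)
    (hWEX : Stmt_WEX) : Stmt_RLC := by
  classical
  intro d k F φ p R L i v gv w gw hG hC hD
  have hpR : p ∈ ball p R := mem_ball_self hG.hR
  have hF0 := hG.Fp
  have hpS : p ∈ Sc F (ball p R) := ⟨hpR, by rw [hF0]⟩
  have hpS' : p ∈ Sc (fun x => -F x) (ball p R) := ⟨hpR, by simp [hF0]⟩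
  have hmw := hC.mw p hpS'
  obtain ⟨a, hak, ha⟩ := thr (fun j => w j p < φ p)
    (fun i j hij h => lt_of_le_of_lt (hmw hij) h)
  obtain ⟨c, hck, hc⟩ := thr (fun j => w j p ≤ φ p)
    (fun i j hij h => le_trans (hmw hij) h)
  have hac : a ≤ c := by
    by_contra hlt
    push Not at hlt
    have h1 := (ha ⟨c, by omega⟩).1 hlt
    have h2 := (hc ⟨c, by omega⟩).2 h1.le
    exact absurd h2 (lt_irrefl c)
  obtain ⟨n, rfl⟩ := Nat.exists_eq_add_of_le hac
  have hlow : ∀ j : Fin k, (j : ℕ) < a → w j p < φ p := fun j h => (ha j).1 h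
  have hmidp : ∀ j : Fin k, a ≤ (j : ℕ) → (j : ℕ) < a + n → w j p = φ p := by
    intro j h1 h2
    refine le_antisymm ((hc j).1 h2) ?_
    by_contra h
    push Not at h
    have := (ha j).2 h
    omega
  have hup : ∀ j : Fin k, a + n ≤ (j : ℕ) → φ p < w j p := by
    intro j h
    by_contra hh
    push Not at hh
    have := (hc j).2 hh
    omega
  obtain ⟨ρ₁, hρ₁, hρ₁R, hG₁, hC₁, hb₁⟩ :=
    hCLS (d + 1) k F φ p R L i v gv w gw a n hck hG hC hlow hup
  have hsub₁ : ball p ρ₁ ⊆ ball p R := ball_subset_ball hρ₁R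
  -- the middle sheets above coincide
  have hmid : ∃ ρ > 0, ρ ≤ ρ₁ ∧ ∀ x ∈ Sc F (ball p ρ), ∀ l : Fin (n + 1),
      v ⟨a + l, by omega⟩ x = v ⟨a, by omega⟩ x := by
    rcases Nat.eq_zero_or_pos n with hn | hn
    · refine ⟨ρ₁, hρ₁, le_refl _, fun x hx l => ?_⟩
      have : (l : ℕ) = 0 := by omega
      simp [this]
    · obtain ⟨n', rfl⟩ : ∃ n', n = n' + 1 := ⟨n - 1, by omega⟩
      refine ⟨ρ₁ / 16, by positivity, by linarith, ?_⟩
      have hDn := hD ⟨⟨a, by omega⟩, hmidp _ le_rfl (by simp)⟩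
      have hwp : ∀ j : Fin (n' + 1), w ⟨a + j, by omega⟩ p = φ p := by
        intro j
        exact hmidp _ (by simp) (by have := j.2; simp only; omega)
      have hDn₁ : Dn i (ZZ F φ (ball p ρ₁) (fun l : Fin (n' + 1) => w ⟨a + l, by omega⟩) univ)
          p := by
        unfold Dn at hDn ⊢
        refine hDn.congr' ?_
        have hK : 0 < 4 * L * (d + 1) := by
          have := hG.hL
          positivity
        have hpos : 0 < ρ₁ / (4 * L * (d + 1)) := by positivity
        filter_upwards [Ioo_mem_nhdsGT hpos] with r hr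
        congr 1
        unfold bad
        congr 2
        ext y
        simp only [Set.mem_sdiff, and_congr_right_iff]
        intro hy
        rw [not_iff_not]
        constructor
        · rintro ⟨x, ⟨hx1, hx2, hx3⟩, rfl⟩
          refine ⟨x, ⟨?_, hx2, fun l _ => hx3 _ ?_⟩, rfl⟩
          · have h1 := ((hFUB d i).2.2.2.2 F φ p R L hG).2.2.2 x hx1 hx2
            rw [mem_closedBall] at hy
            rw [mem_ball, dist_eq_norm]
            have h2 : 4 * L * (d + 1) * dist (pj i x) (pj i p) ≤ 4 * L * (d + 1) * r :=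
              mul_le_mul_of_nonneg_left hy hK.le
            have h3 : r < ρ₁ / (4 * L * (d + 1)) := hr.2
            rw [lt_div_iff₀ hK] at h3
            linarith
          · exact hwp l
        · rintro ⟨x, ⟨hx1, hx2, hx3⟩, rfl⟩
          refine ⟨x, ⟨hsub₁ hx1, hx2, fun j hj => ?_⟩, rfl⟩
          have hj' : w j p = φ p := hj
          have h1 : a ≤ (j : ℕ) := by
            by_contra h
            exact absurd hj' (hlow j (by omega)).ne
          have h2 : (j : ℕ) < a + (n' + 1) := by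
            by_contra h
            exact absurd hj' (hup j (by omega)).ne'
          have h3 := hx3 ⟨(j : ℕ) - a, by omega⟩ (mem_univ _)
          have h4 : (⟨a + ((j : ℕ) - a), by omega⟩ : Fin k) = j := by
            apply Fin.ext
            simp only
            omega
          simp only at h3
          rw [h4] at h3
          exact h3
      intro x hx l
      have := hCON d n' F φ p ρ₁ L i _ _ _ _ hG₁ hC₁ hwp hDn₁ x hx l
      simpa using this
  obtain ⟨ρ₂, hρ₂, hρ₂₁, hv₂⟩ := hmid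
  have hsub₂ : ball p ρ₂ ⊆ ball p ρ₁ := ball_subset_ball hρ₂₁
  -- traces of the middle sheets
  have htr : ∀ x ∈ ball p ρ₂, F x = 0 → v ⟨a, by omega⟩ x = φ x ∧
      ∀ j : Fin k, a ≤ (j : ℕ) → (j : ℕ) < a + n → w j x = φ x := by
    intro x hx hFx
    have hS : x ∈ Sc F (ball p ρ₂) := ⟨hx, by rw [hFx]⟩
    have hS₁ : x ∈ Sc F (ball p ρ₁) := ⟨hsub₂ hx, by rw [hFx]⟩
    have hS₁' : x ∈ Sc (fun x => -F x) (ball p ρ₁) := ⟨hsub₂ hx, by simp [hFx]⟩
    obtain ⟨h1, h2, h3, -⟩ := hSTR n (fun l => v ⟨a + l, by omega⟩ x)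
      (fun l => w ⟨a + l, by omega⟩ x) (φ x) (hC₁.mv x hS₁) (hC₁.mw x hS₁')
      (hC₁.tr x (hsub₂ hx) hFx)
    have hall := hv₂ x hS
    simp only [Fin.val_zero, add_zero, Fin.val_last] at h1 h2
    have hlast := hall (Fin.last n)
    simp only [Fin.val_last] at hlast
    rw [hlast] at h2
    have hva : v ⟨a, by omega⟩ x = φ x := le_antisymm h1 h2
    refine ⟨hva, fun j hj1 hj2 => ?_⟩
    obtain ⟨-, -, h4, h5, -⟩ := h3 ⟨(j : ℕ) - a, by omega⟩
    have h6 := hall (Fin.castSucc ⟨(j : ℕ) - a, by omega⟩)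
    have h7 := hall (Fin.succ ⟨(j : ℕ) - a, by omega⟩)
    have h8 : (⟨a + ((j : ℕ) - a), by omega⟩ : Fin k) = j := by
      apply Fin.ext
      simp only
      omega
    simp only at h4 h5
    rw [h8] at h4 h5
    rw [h6, hva] at h4
    rw [h7, hva] at h5
    exact le_antisymm h5 h4
  -- boundary identity for the glued sheets
  have hbd : ∀ x ∈ ball p ρ₂, F x = 0 → ∀ j : Fin k, v (sg a n hck j) x = w j x := by
    intro x hx hFx j
    have hb := hb₁ x (hsub₂ hx) hFx
    unfold sg
    split_ifs with h1 h2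
    · exact (hb.1 j h1).1
    · rw [(htr x hx hFx).1, (htr x hx hFx).2 j (by omega) h2]
    · exact (hb.2 j (by omega)).1
  have hρ₂R : ρ₂ ≤ R := le_trans hρ₂₁ hρ₁R
  have hglu : ∀ j : Fin k, ContinuousOn (fun x => if 0 ≤ F x then v (sg a n hck j) x else w j x)
      (ball p ρ₂) ∧ ∃ dU, WHar (ball p ρ₂)
        (fun x => if 0 ≤ F x then v (sg a n hck j) x else w j x) dU := fun j =>
    hGLH (d + 1) k F φ p R L ρ₂ i v gv w gw (sg a n hck j) j hG hC hρ₂ hρ₂R
      (fun x hx hFx => hbd x hx hFx j)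
  let u : Fin k → E (d + 1) → ℝ := fun j x => if 0 ≤ F x then v (sg a n hck j) x else w j x
  -- monotonicity and the dichotomy for pairs
  have hmono : ∀ j l : Fin k, j ≤ l → ∀ x ∈ ball p ρ₂, u j x ≤ u l x := by
    intro j l hjl x hx
    simp only [u]
    have hxR : x ∈ ball p R := ball_subset_ball hρ₂R hx
    split_ifs with h
    · exact hC.mv x ⟨hxR, h⟩ (sg_mono a n hck hjl)
    · exact hC.mw x ⟨hxR, by simp only; linarith⟩ hjl
  have hdich : ∀ j l : Fin k, j ≤ l → (∀ x ∈ ball p ρ₂, u j x = u l x) ∨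
      (∀ x ∈ ball p ρ₂, u j x ≠ u l x) := by
    intro j l hjl
    by_cases hz : ∃ x0 ∈ ball p ρ₂, u j x0 = u l x0
    · left
      obtain ⟨x0, hx0, he⟩ := hz
      obtain ⟨-, dj, hdj⟩ := hglu j
      obtain ⟨-, dl, hdl⟩ := hglu l
      have hB := hWBA (d + 1) (ball p ρ₂) isOpen_ball
      have hWG : HasWG (ball p ρ₂) (fun x => u l x + (-1) * u j x)
          (fun x => dl x + (-1 : ℝ) • dj x) :=
        hB.2.1 _ _ _ _ hdl.1 (hB.2.2.1 (-1) _ _ hdj.1)
      have hW : WHar (ball p ρ₂) (fun x => u l x + (-1) * u j x)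
          (fun x => dl x + (-1 : ℝ) • dj x) := by
        refine ⟨hWG, fun ξ dξ hξ => ?_⟩
        have hI := (hWEX (d + 1) (ball p ρ₂) ξ dξ isOpen_ball hξ).2.2.2.2
        have e1 : ∀ x, inner ℝ (dl x + (-1 : ℝ) • dj x) (dξ x) =
            inner ℝ (dl x) (dξ x) - inner ℝ (dj x) (dξ x) := by
          intro x
          rw [inner_add_left, real_inner_smul_left]
          ring
        simp only [e1]
        rw [integral_sub (hI _ _ hdl.1) (hI _ _ hdj.1), hdl.2 ξ dξ hξ, hdj.2 ξ dξ hξ, sub_zero]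
      have hz0 : ∀ x ∈ ball p ρ₂, u l x + (-1) * u j x = 0 :=
        hSMP (d + 1) (ball p ρ₂) (ball p ρ₂) _ _ x0 (Nat.succ_pos d) isOpen_ball hW
          (fun x hx => by have := hmono j l hjl x hx; linarith) (subset_refl _)
          (convex_ball p ρ₂).isPreconnected hx0 (by rw [he]; ring)
      intro x hx
      have := hz0 x hx
      linarith
    · right
      intro x hx he
      exact hz ⟨x, hx, he⟩
  -- the sheets outside the middle group stay away from the sheet `a`
  have haway : ∀ᶠ x in 𝓝[Sc F (ball p ρ₂)] p, ∀ j : Fin k, ((j : ℕ) < a ∨ a + n ≤ (j : ℕ)) →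
      v ⟨a, by omega⟩ x ≠ v (sg a n hck j) x := by
    rw [Filter.eventually_all]
    intro j
    by_cases hj : (j : ℕ) < a ∨ a + n ≤ (j : ℕ)
    · have hp₂ : p ∈ ball p ρ₂ := mem_ball_self hρ₂
      have hne : v ⟨a, by omega⟩ p ≠ v (sg a n hck j) p := by
        rw [hbd p hp₂ hF0 j, (htr p hp₂ hF0).1]
        rcases hj with hj | hj
        · exact (hlow j hj).ne'
        · exact (hup j hj).ne
      have hsubS : Sc F (ball p ρ₂) ⊆ Sc F (ball p R) := fun x hx =>
        ⟨ball_subset_ball hρ₂R hx.1, hx.2⟩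
      have c1 : Tendsto (fun x => v ⟨a, by omega⟩ x) (𝓝[Sc F (ball p ρ₂)] p)
          (𝓝 (v ⟨a, by omega⟩ p)) :=
        ((hC.cv ⟨a, by omega⟩ p hpS).mono_left (nhdsWithin_mono _ hsubS))
      have c2 : Tendsto (fun x => v (sg a n hck j) x) (𝓝[Sc F (ball p ρ₂)] p)
          (𝓝 (v (sg a n hck j) p)) :=
        ((hC.cv (sg a n hck j) p hpS).mono_left (nhdsWithin_mono _ hsubS))
      have c3 := (c1.sub c2).eventually_ne (sub_ne_zero.2 hne)
      filter_upwards [c3] with x hx _
      exact sub_ne_zero.1 hx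
    · exact Filter.Eventually.of_forall fun x h => absurd h hj
  obtain ⟨ρ₃, hρ₃, hh₃⟩ := Metric.mem_nhdsWithin_iff.1 haway
  have hρpos : 0 < min ρ₃ ρ₂ := lt_min hρ₃ hρ₂
  have hsb : ball p (min ρ₃ ρ₂) ⊆ ball p ρ₂ := ball_subset_ball (min_le_right _ _)
  have hsbR : ball p (min ρ₃ ρ₂) ⊆ ball p R := hsb.trans (ball_subset_ball hρ₂R)
  refine ⟨min ρ₃ ρ₂, hρpos, le_trans (min_le_right _ _) hρ₂R, u, v ⟨a, by omega⟩, ?_, ?_, ?_,
    ?_, ?_, ?_⟩
  · intro j
    exact (hglu j).1.mono hsb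
  · exact (hC.cv ⟨a, by omega⟩).mono fun x hx => ⟨hsbR hx.1, hx.2⟩
  · intro x hx
    have hx₂ : x ∈ Sc F (ball p ρ₂) := ⟨hsb hx.1, hx.2⟩
    rw [ml_succAbove (fun l => v l x) ⟨a, by omega⟩]
    congr 1
    unfold ml
    apply Multiset.map_congr rfl
    intro j _
    simp only [u]
    rw [if_pos hx.2]
    unfold sg
    split_ifs with h1 h2
    · rw [Fin.succAbove_of_castSucc_lt _ _ (by rw [Fin.lt_def]; exact h1)]
    · rw [Fin.succAbove_of_le_castSucc _ _ (by rw [Fin.le_def]; simp only [Fin.val_castSucc]; omega)]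
      have h3 := hv₂ x hx₂ ⟨(j : ℕ) - a + 1, by omega⟩
      have h4 : (⟨a + ((j : ℕ) - a + 1), by omega⟩ : Fin (k + 1)) = j.succ := by
        apply Fin.ext
        simp only [Fin.val_succ]
        omega
      simp only at h3
      rw [h4] at h3
      exact h3
    · rw [Fin.succAbove_of_le_castSucc _ _ (by rw [Fin.le_def]; simp only [Fin.val_castSucc]; omega)]
  · intro x hx
    unfold ml
    apply Multiset.map_congr rfl
    intro j _
    simp only [u]
    split_ifs with h
    · have hFx : F x = 0 := by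
        have := hx.2
        simp only at this
        linarith
      exact (hbd x (hsb hx.1) hFx j).symm
    · rfl
  · intro j l
    rcases le_total j l with h | h
    · rcases hdich j l h with h | h
      · exact Or.inl fun x hx => h x (hsb hx)
      · exact Or.inr fun x hx => h x (hsb hx)
    · rcases hdich l j h with h | h
      · exact Or.inl fun x hx => (h x (hsb hx)).symm
      · exact Or.inr fun x hx => (h x (hsb hx)).symm
  · intro j
    by_cases hj : (j : ℕ) < a ∨ a + n ≤ (j : ℕ)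
    · right
      intro x hx
      have h1 : x ∈ ball p ρ₃ ∩ Sc F (ball p ρ₂) :=
        ⟨ball_subset_ball (min_le_left _ _) hx.1, hsb hx.1, hx.2⟩
      have h2 := hh₃ h1 j hj
      simp only [u]
      rw [if_pos hx.2]
      exact h2
    · left
      intro x hx
      simp only [u]
      rw [if_pos hx.2]
      unfold sg
      rw [if_neg (by tauto), if_pos (by omega)]

end Pool.Agent.COB
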