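import Pool.Agent.COB.Stmts

set_option autoImplicit false

namespace Pool.Agent.COB

open MeasureTheory Set Metric Filter Topology
open scoped ENNReal

theorem smp_proof (hHAR : Stmt_HAR) : Stmt_SMP := by
  intro m V S G dG x0 hm hV hG hpos hSV hS hx0 hG0
  obtain ⟨C, hC, h⟩ := hHAR m hm
  have hcont : ContinuousOn G V := hG.1.cont
  have hU1 : IsOpen {x | x ∈ V ∧ G x = 0} := by
    rw [Metric.isOpen_iff]
    rintro a ⟨haV, ha0⟩
    obtain ⟨ρ, hρ, hρV⟩ := Metric.isOpen_iff.mp hV a haV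
    have hcb : closedBall a (ρ / 2) ⊆ V :=
      (closedBall_subset_ball (by linarith)).trans hρV
    refine ⟨ρ / 2 / 4, by positivity, fun b hb => ?_⟩
    have hb1 : ‖b - a‖ ≤ ρ / 2 / 4 := by
      rw [← dist_eq_norm]
      exact (mem_ball.mp hb).le
    have hbV : b ∈ V := by
      apply hcb
      rw [mem_closedBall, dist_eq_norm]
      linarith
    refine ⟨hbV, le_antisymm ?_ (hpos b hbV)⟩
    have h1 := (h V G dG a b (ρ / 2) hV hG hpos (by positivity) hcb hb1).1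
    rw [ha0, mul_zero] at h1
    exact h1
  have hU2 : IsOpen {x | x ∈ V ∧ 0 < G x} := by
    have := hcont.isOpen_inter_preimage hV (isOpen_Ioi (a := (0 : ℝ)))
    exact this
  intro x hx
  by_contra hne
  have hxV := hSV hx
  have hxp : 0 < G x := lt_of_le_of_ne (hpos x hxV) (Ne.symm hne)
  obtain ⟨y, -, ⟨-, hy1⟩, -, hy2⟩ := hS _ _ hU1 hU2 (fun y hy => by
    rcases (hpos y (hSV hy)).eq_or_lt with h1 | h1
    · exact Or.inl ⟨hSV hy, h1.symm⟩
    · exact Or.inr ⟨hSV hy, h1⟩) ⟨x0, hx0, hSV hx0, hG0⟩ ⟨x, hx, hxV, hxp⟩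
  rw [hy1] at hy2
  exact lt_irrefl _ hy2

end Pool.Agent.COB
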