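import Pool.Agent.COB.Stmts

/-!
Squad COB, module SRT: sorted tuples and the metric.
-/

set_option autoImplicit false

namespace Pool.Agent.COB

open MeasureTheory Set Metric Filter Topology

namespace SRT_

variable {Q : ℕ}

theorem map_get_cast {α : Type*} (l : List α) (h : Q = l.length) :
    Multiset.map (fun i : Fin Q => l.get (i.cast h)) Finset.univ.val = (l : Multiset α) := by
  subst h
  rw [Fin.univ_val_map]
  simp

theorem ml_srt (S : Sym ℝ Q) : ml (srt S) = S.1 := by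
  unfold ml srt
  rw [map_get_cast (S.1.sort (· ≤ ·)) (by rw [Multiset.length_sort]; exact S.2.symm)]
  exact Multiset.sort_eq _ _

theorem mono_srt (S : Sym ℝ Q) : Monotone (srt S) := by
  intro i j hij
  unfold srt
  exact (Multiset.pairwise_sort S.1 (· ≤ ·)).rel_get_of_le hij

theorem tup_srt (S : Sym ℝ Q) : tup (srt S) = S := by
  apply Subtype.ext
  exact ml_srt S

theorem eq_of_mono {a b : Fin Q → ℝ} (ha : Monotone a) (hb : Monotone b) (h : ml a = ml b) :
    a = b := by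
  unfold ml at h
  rw [Fin.univ_val_map, Fin.univ_val_map] at h
  have hp : (List.ofFn a).Perm (List.ofFn b) := Multiset.coe_eq_coe.mp h
  exact List.ofFn_injective
    (hp.eq_of_pairwise' ha.sortedLE_ofFn.pairwise hb.sortedLE_ofFn.pairwise)

theorem ml_comp_perm (a : Fin Q → ℝ) (σ : Equiv.Perm (Fin Q)) : ml (a ∘ σ) = ml a := by
  unfold ml
  rw [← Multiset.map_map]
  congr 1
  exact Multiset.map_univ_val_equiv σ

theorem exists_perm (a : Fin Q → ℝ) {S : Sym ℝ Q} (h : tup a = S) :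
    ∃ σ : Equiv.Perm (Fin Q), a = srt S ∘ σ := by
  have h0 : ml a = ml (srt S) := by
    rw [ml_srt, ← h]
    rfl
  have h1 : a ∘ Tuple.sort a = srt S :=
    eq_of_mono (Tuple.monotone_sort a) (mono_srt S) (by rw [ml_comp_perm, h0])
  refine ⟨(Tuple.sort a)⁻¹, ?_⟩
  rw [← h1]
  funext i
  simp

theorem rearr (s t : Fin Q → ℝ) (hs : Monotone s) (ht : Monotone t)
    (σ τ : Equiv.Perm (Fin Q)) :
    ∑ i, (s i - t i) ^ 2 ≤ ∑ i, (s (σ i) - t (τ i)) ^ 2 := by
  have h1 : ∑ i, (s (σ i) - t (τ i)) ^ 2 = ∑ j, (s j - t ((σ⁻¹.trans τ) j)) ^ 2 := by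
    rw [← Equiv.sum_comp σ (fun j => (s j - t ((σ⁻¹.trans τ) j)) ^ 2)]
    refine Finset.sum_congr rfl (fun i _ => ?_)
    simp
  rw [h1]
  set π : Equiv.Perm (Fin Q) := σ⁻¹.trans τ with hπ
  have h2 : ∑ j, s j * t (π j) ≤ ∑ j, s j * t j :=
    (hs.monovary ht).sum_mul_comp_perm_le_sum_mul
  have h3 : ∑ j, t (π j) ^ 2 = ∑ j, t j ^ 2 := Equiv.sum_comp π (fun j => t j ^ 2)
  have e1 : ∑ j, (s j - t (π j)) ^ 2 =
      ∑ j, s j ^ 2 - 2 * ∑ j, s j * t (π j) + ∑ j, t (π j) ^ 2 := by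
    rw [Finset.mul_sum, ← Finset.sum_sub_distrib, ← Finset.sum_add_distrib]
    refine Finset.sum_congr rfl (fun i _ => ?_)
    ring
  have e2 : ∑ j, (s j - t j) ^ 2 = ∑ j, s j ^ 2 - 2 * ∑ j, s j * t j + ∑ j, t j ^ 2 := by
    rw [Finset.mul_sum, ← Finset.sum_sub_distrib, ← Finset.sum_add_distrib]
    refine Finset.sum_congr rfl (fun i _ => ?_)
    ring
  rw [e1, e2, h3]
  linarith

theorem norm_sum (a b : Fin Q → ℝ) : ∑ i, ‖a i - b i‖ ^ 2 = ∑ i, (a i - b i) ^ 2 := by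
  refine Finset.sum_congr rfl (fun i _ => ?_)
  rw [Real.norm_eq_abs, sq_abs]

theorem bdd (S T : Sym ℝ Q) : BddBelow {r : ℝ | ∃ a b : Fin Q → ℝ, tup a = S ∧ tup b = T ∧
    r = Real.sqrt (∑ i, ‖a i - b i‖ ^ 2)} := by
  refine ⟨0, ?_⟩
  rintro r ⟨a, b, _, _, rfl⟩
  exact Real.sqrt_nonneg _

theorem GG_le (a b : Fin Q → ℝ) : GG (tup a) (tup b) ≤ Real.sqrt (∑ i, (a i - b i) ^ 2) := by
  rw [← norm_sum]
  exact csInf_le (bdd _ _) ⟨a, b, rfl, rfl, rfl⟩

theorem GG_eq (S T : Sym ℝ Q) : GG S T = Real.sqrt (∑ i, (srt S i - srt T i) ^ 2) := by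
  apply le_antisymm
  · have h := GG_le (srt S) (srt T)
    rwa [tup_srt, tup_srt] at h
  · unfold GG
    apply le_csInf
    · exact ⟨_, srt S, srt T, tup_srt S, tup_srt T, rfl⟩
    · rintro r ⟨a, b, ha, hb, rfl⟩
      obtain ⟨σ, hσ⟩ := exists_perm a ha
      obtain ⟨τ, hτ⟩ := exists_perm b hb
      rw [norm_sum]
      apply Real.sqrt_le_sqrt
      have h := rearr (srt S) (srt T) (mono_srt S) (mono_srt T) σ τ
      rw [hσ, hτ]
      exact h

theorem abs_srt_le (S T : Sym ℝ Q) (i : Fin Q) : |srt S i - srt T i| ≤ GG S T := by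
  rw [GG_eq, ← Real.sqrt_sq_eq_abs]
  apply Real.sqrt_le_sqrt
  exact Finset.single_le_sum (f := fun i => (srt S i - srt T i) ^ 2)
    (fun j _ => sq_nonneg _) (Finset.mem_univ i)

end SRT_

open SRT_ in
theorem srt_proof : Stmt_SRT := by
  intro Q
  refine ⟨fun S => ⟨mono_srt S, tup_srt S, (ml_srt S).symm⟩, GG_eq, GG_le, ?_, ?_⟩
  · intro m A g hg
    have hc : ∀ i, ContinuousOn (fun x => srt (g x) i) A := by
      intro i x hx
      have h1 := hg x hx
      unfold ContinuousWithinAt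
      rw [tendsto_iff_dist_tendsto_zero]
      refine squeeze_zero (fun _ => dist_nonneg) (fun y => ?_) h1
      rw [Real.dist_eq]
      exact abs_srt_le (g y) (g x) i
    refine ⟨hc, fun T => ?_⟩
    simp only [GG_eq]
    refine ContinuousOn.sqrt ?_
    refine continuousOn_finsetSum _ (fun i _ => ?_)
    exact ((hc i).sub continuousOn_const).pow 2
  · intro m A a ha x hx
    have h1 : Tendsto (fun y => Real.sqrt (∑ i, (a i y - a i x) ^ 2)) (𝓝[A] x) (𝓝 0) := by
      have h2 : ContinuousOn (fun y => Real.sqrt (∑ i, (a i y - a i x) ^ 2)) A := by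
        refine ContinuousOn.sqrt ?_
        refine continuousOn_finsetSum _ (fun i _ => ?_)
        exact ((ha i).sub continuousOn_const).pow 2
      have h3 : Real.sqrt (∑ i, (a i x - a i x) ^ 2) = 0 := by simp
      have h4 := h2 x hx
      unfold ContinuousWithinAt at h4
      simp only [h3] at h4
      exact h4
    refine squeeze_zero (fun y => ?_) (fun y => GG_le _ _) h1
    rw [GG_eq]
    exact Real.sqrt_nonneg _

end Pool.Agent.COB
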