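import Pool.Agent.COB.Stmts

/-!
# Squad COB, module STR: the entries of sorted tuples
-/

set_option autoImplicit false

namespace Pool.Agent.COB

open MeasureTheory Set Metric Filter Topology

namespace STR_

theorem initial {n : ℕ} (S : Finset (Fin n)) (h : ∀ i j : Fin n, i ≤ j → j ∈ S → i ∈ S)
    (i : Fin n) : i ∈ S ↔ (i : ℕ) < S.card := by
  constructor
  · intro hi
    have h1 : Finset.Iic i ⊆ S := fun j hj => h j i (Finset.mem_Iic.mp hj) hi
    have h2 := Finset.card_le_card h1
    rw [Fin.card_Iic] at h2
    omega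
  · intro hi
    by_contra hn
    have h1 : S ⊆ Finset.Iio i := by
      intro j hj
      rw [Finset.mem_Iio]
      by_contra hij
      exact hn (h i j (not_lt.mp hij) hj)
    have h2 := Finset.card_le_card h1
    rw [Fin.card_Iio] at h2
    omega

open Classical in
/-- number of entries in `D` -/
noncomputable def cnt {n : ℕ} (a : Fin n → ℝ) (D : ℝ → Prop) : ℕ :=
  (Finset.univ.filter fun i => D (a i)).card

theorem cnt_eq {n : ℕ} (a : Fin n → ℝ) (ha : Monotone a) (D : ℝ → Prop)
    (hD : ∀ x y, x ≤ y → D y → D x) (i : Fin n) : D (a i) ↔ (i : ℕ) < cnt a D := by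
  classical
  have h := initial (Finset.univ.filter fun i => D (a i)) (by
    intro i j hij hj
    rw [Finset.mem_filter] at hj ⊢
    exact ⟨Finset.mem_univ _, hD _ _ (ha hij) hj.2⟩) i
  rw [Finset.mem_filter] at h
  constructor
  · intro hi
    have := h.mp ⟨Finset.mem_univ _, hi⟩
    unfold cnt
    convert this
  · intro hi
    refine (h.mpr ?_).2
    unfold cnt at hi
    convert hi

theorem cnt_countP {n : ℕ} (a : Fin n → ℝ) (D : ℝ → Prop) [DecidablePred D] :
    (ml a).countP D = cnt a D := by
  unfold ml cnt
  rw [Multiset.countP_map]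
  rw [← Finset.filter_val, Finset.card_val]
  congr 1
  ext i
  simp

theorem cnt_cons {k : ℕ} (a : Fin (k + 1) → ℝ) (b : Fin k → ℝ) (c : ℝ)
    (h : ml a = c ::ₘ ml b) (D : ℝ → Prop) [Decidable (D c)] :
    cnt a D = cnt b D + if D c then 1 else 0 := by
  classical
  have h1 := congrArg (Multiset.countP D) h
  rw [Multiset.countP_cons, cnt_countP, cnt_countP] at h1
  rw [h1]
  congr 1
  by_cases hc : D c <;> simp [hc]

end STR_

theorem str_proof : Stmt_STR := by
  intro k a b c ha hb h
  -- counting facts
  have le_iff : ∀ (x : ℝ) (i : Fin (k + 1)), a i ≤ x ↔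
      (i : ℕ) < STR_.cnt b (fun y => y ≤ x) + if c ≤ x then 1 else 0 := by
    intro x i
    rw [STR_.cnt_eq a ha (fun y => y ≤ x) (fun u v huv hv => huv.trans hv) i,
      STR_.cnt_cons a b c h (fun y => y ≤ x)]
  have lt_iff : ∀ (x : ℝ) (i : Fin (k + 1)), a i < x ↔
      (i : ℕ) < STR_.cnt b (fun y => y < x) + if c < x then 1 else 0 := by
    intro x i
    rw [STR_.cnt_eq a ha (fun y => y < x) (fun u v huv hv => lt_of_le_of_lt huv hv) i,
      STR_.cnt_cons a b c h (fun y => y < x)]
  have ble_iff : ∀ (x : ℝ) (j : Fin k), b j ≤ x ↔ (j : ℕ) < STR_.cnt b (fun y => y ≤ x) := by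
    intro x j
    exact STR_.cnt_eq b hb (fun y => y ≤ x) (fun u v huv hv => huv.trans hv) j
  have blt_iff : ∀ (x : ℝ) (j : Fin k), b j < x ↔ (j : ℕ) < STR_.cnt b (fun y => y < x) := by
    intro x j
    exact STR_.cnt_eq b hb (fun y => y < x) (fun u v huv hv => lt_of_le_of_lt huv hv) j
  have K0 : a 0 ≤ c := by
    rw [le_iff]
    simp
  have K0' : c ≤ a (Fin.last k) := by
    rw [← not_lt, lt_iff]
    simp only [lt_irrefl, if_false, add_zero, not_lt, Fin.val_last]
    unfold STR_.cnt
    refine (Finset.card_filter_le _ _).trans ?_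
    simp
  have K1 : ∀ j : Fin k, a j.castSucc ≤ b j := by
    intro j
    rw [le_iff]
    have := (ble_iff (b j) j).mp le_rfl
    simp only [Fin.val_castSucc]
    omega
  have K2 : ∀ j : Fin k, b j ≤ a j.succ := by
    intro j
    rw [← not_lt, lt_iff]
    have h1 : ¬ ((j : ℕ) < STR_.cnt b (fun y => y < b j)) := by
      rw [← blt_iff]
      exact lt_irrefl _
    simp only [Fin.val_succ]
    split_ifs <;> omega
  have K3 : ∀ j : Fin k, b j ≤ c → a j.castSucc = b j := by
    intro j hj
    refine le_antisymm (K1 j) ?_
    rw [← not_lt, lt_iff, if_neg (not_lt.mpr hj)]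
    have h1 : ¬ ((j : ℕ) < STR_.cnt b (fun y => y < b j)) := by
      rw [← blt_iff]
      exact lt_irrefl _
    simp only [Fin.val_castSucc]
    omega
  have K4 : ∀ j : Fin k, c ≤ b j → a j.succ = b j := by
    intro j hj
    refine le_antisymm ?_ (K2 j)
    rw [le_iff, if_pos hj]
    have := (ble_iff (b j) j).mp le_rfl
    simp only [Fin.val_succ]
    omega
  have K5 : ∀ j : Fin k, c ≤ b j → c ≤ a j.castSucc := by
    intro j hj
    rw [← not_lt, lt_iff, if_neg (lt_irrefl c)]
    have h1 : ¬ ((j : ℕ) < STR_.cnt b (fun y => y < c)) := by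
      rw [← blt_iff]
      exact not_lt.mpr hj
    simp only [Fin.val_castSucc]
    omega
  have K6 : ∀ j : Fin k, b j ≤ c → a j.succ ≤ c := by
    intro j hj
    rw [le_iff, if_pos le_rfl]
    have := (ble_iff c j).mp hj
    simp only [Fin.val_succ]
    omega
  refine ⟨K0, K0', ?_, ?_, ?_, ?_, ?_, ?_⟩
  · intro j
    refine ⟨K3 j, K4 j, K1 j, K2 j, ?_, ?_⟩
    · rcases le_total (b j) c with hj | hj
      · rw [K3 j hj]
      · rw [max_eq_right (by linarith [K5 j hj]), max_eq_right (by linarith)]
    · rcases le_total c (b j) with hj | hj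
      · rw [K4 j hj]
      · rw [max_eq_right (by linarith [K6 j hj]), max_eq_right (by linarith)]
  · intro j hj
    set j' : Fin k := ⟨(j : ℕ) + 1, hj⟩ with hj'
    have hmono : b j ≤ b j' := hb (by rw [hj', Fin.le_def]; simp)
    have hjj : j.succ = j'.castSucc := by
      ext
      simp [hj']
    rcases le_total c (b j) with h1 | h1
    · rw [K4 j h1, max_eq_right (by linarith), max_eq_right (by linarith)]
      ring
    · rcases le_total (b j') c with h2 | h2
      · rw [hjj, K3 j' h2, max_eq_left (by linarith), max_eq_left (by linarith)]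
        ring
      · have h3 : a j.succ = c := by
          refine le_antisymm (K6 j h1) ?_
          rw [hjj]
          exact K5 j' h2
        rw [h3, max_eq_left (by linarith), max_eq_right (by linarith)]
        ring
  · intro j hj
    rcases le_total c (b j) with h1 | h1
    · rw [K4 j h1, max_eq_right (by linarith)]
      ring
    · have hl : j.succ = Fin.last k := by
        ext
        simp [hj]
      have h3 : a j.succ = c := by
        refine le_antisymm (K6 j h1) ?_
        rw [hl]
        exact K0'
      rw [h3, max_eq_left (by linarith)]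
  · intro j hj
    set j' : Fin k := ⟨(j : ℕ) - 1, by omega⟩ with hj'
    have hmono : b j' ≤ b j := hb (by rw [hj', Fin.le_def]; simp)
    have hjj : j.castSucc = j'.succ := by
      ext
      simp [hj']
      omega
    rcases le_total (b j) c with h1 | h1
    · rw [K3 j h1, max_eq_right (by linarith), max_eq_right (by linarith)]
      ring
    · rcases le_total c (b j') with h2 | h2
      · rw [hjj, K4 j' h2, max_eq_left (by linarith), max_eq_left (by linarith)]
        ring
      · have h3 : a j.castSucc = c := by
          refine le_antisymm ?_ (K5 j h1)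
          rw [hjj]
          exact K6 j' h2
        rw [h3, max_eq_left (by linarith), max_eq_right (by linarith)]
        ring
  · intro j hj
    have hz : j.castSucc = 0 := by
      ext
      simp [hj]
    rcases le_total (b j) c with h1 | h1
    · rw [K3 j h1, max_eq_right (by linarith)]
      ring
    · have h3 : a j.castSucc = c := by
        refine le_antisymm ?_ (K5 j h1)
        rw [hz]
        exact K0
      rw [h3, max_eq_left (by linarith)]
  · intro j hl
    exact ⟨(K3 j (hl j).le).trans (hl j), (K4 j (hl j).ge).trans (hl j)⟩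

end Pool.Agent.COB
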