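import Pool.Agent.COB.Stmts

set_option autoImplicit false

namespace Pool.Agent.COB

open MeasureTheory Set Metric Filter Topology
open scoped ENNReal

namespace SZ1_

theorem isOpen_Sd {m : ℕ} {F : E m → ℝ} (hF : Continuous F) {B : Set (E m)} (hB : IsOpen B) :
    IsOpen (Sd F B) := hB.inter (isOpen_lt continuous_const hF)

theorem Sd_sub_Sc {m : ℕ} (F : E m → ℝ) (B : Set (E m)) : Sd F B ⊆ Sc F B :=
  fun _ hx => ⟨hx.1, hx.2.le⟩

theorem hasWG_sub (hWBA : Stmt_WBA) {m : ℕ} {U : Set (E m)} (hU : IsOpen U) {f h : E m → ℝ}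
    {df dh : E m → E m} (h1 : HasWG U f df) (h2 : HasWG U h dh) :
    HasWG U (fun x => f x - h x) (fun x => df x - dh x) := by
  obtain ⟨-, hadd, hmul, hcg, -, -⟩ := hWBA m U hU
  refine hcg _ _ _ _ (hadd _ _ _ _ h1 (hmul (-1) _ _ h2)) (fun x _ => by ring) ?_
  refine Eventually.of_forall fun x => ?_
  simp [sub_eq_add_neg]

theorem hasWG_neg (hWBA : Stmt_WBA) {m : ℕ} {U : Set (E m)} (hU : IsOpen U) {f : E m → ℝ}
    {df : E m → E m} (h1 : HasWG U f df) : HasWG U (fun x => -f x) (fun x => -df x) := by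
  obtain ⟨-, hadd, hmul, hcg, -, -⟩ := hWBA m U hU
  refine hcg _ _ _ _ (hmul (-1) _ _ h1) (fun x _ => by ring) ?_
  refine Eventually.of_forall fun x => ?_
  simp

theorem whar_neg (hWBA : Stmt_WBA) {m : ℕ} {U : Set (E m)} (hU : IsOpen U) {f : E m → ℝ}
    {df : E m → E m} (h1 : WHar U f df) : WHar U (fun x => -f x) (fun x => -df x) := by
  refine ⟨hasWG_neg hWBA hU h1.1, fun ξ dξ hξ => ?_⟩
  simp only [inner_neg_left]
  rw [integral_neg, h1.2 ξ dξ hξ, neg_zero]

theorem whar_sub (hWBA : Stmt_WBA) (hWEX : Stmt_WEX) {m : ℕ} {U : Set (E m)} (hU : IsOpen U)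
    {f h : E m → ℝ} {df dh : E m → E m} (h1 : WHar U f df) (h2 : WHar U h dh) :
    WHar U (fun x => f x - h x) (fun x => df x - dh x) := by
  refine ⟨hasWG_sub hWBA hU h1.1 h2.1, fun ξ dξ hξ => ?_⟩
  obtain ⟨-, -, -, -, hinn⟩ := hWEX m U ξ dξ hU hξ
  simp only [inner_sub_left]
  rw [integral_sub (hinn _ _ h1.1) (hinn _ _ h2.1), h1.2 ξ dξ hξ, h2.2 ξ dξ hξ, sub_zero]

theorem int_sq_comb {m : ℕ} {U : Set (E m)} {g h q : E m → E m}
    (mq : AEStronglyMeasurable q (volume.restrict U))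
    (ig : IntegrableOn (fun x => ‖g x‖ ^ 2) U) (ih : IntegrableOn (fun x => ‖h x‖ ^ 2) U)
    (hq : ∀ x, ‖q x‖ ≤ ‖g x‖ + ‖h x‖) : IntegrableOn (fun x => ‖q x‖ ^ 2) U := by
  refine Integrable.mono' ((ig.const_mul 2).add (ih.const_mul 2)) (mq.norm.pow 2) ?_
  refine Eventually.of_forall fun x => ?_
  rw [Real.norm_of_nonneg (by positivity)]
  change ‖q x‖ ^ 2 ≤ 2 * ‖g x‖ ^ 2 + 2 * ‖h x‖ ^ 2
  have h1 := hq x
  have h0 := norm_nonneg (q x)
  nlinarith [sq_nonneg (‖g x‖ - ‖h x‖), norm_nonneg (g x), norm_nonneg (h x)]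

end SZ1_

open SZ1_ in
theorem sz1_proof (hWBA : Stmt_WBA) (hWPP : Stmt_WPP) (hWEX : Stmt_WEX) (_hTBA : Stmt_TBA)
    (_hTPT : Stmt_TPT) (hLPC : Stmt_LPC) (_hGEF : Stmt_GEF) (hBAR : Stmt_BAR) (hSTR : Stmt_STR)
    (hEUL : Stmt_EUL) (hPRS : Stmt_PRS) : Stmt_SZ1 := by
  intro m k F φ p R L i v gv w gw hm hG hC
  have hF : Continuous F := hG.cF.continuous
  have hB : IsOpen (ball p R) := isOpen_ball
  have hS1 : IsOpen (Sd F (ball p R)) := isOpen_Sd hF hB
  have hS2 : IsOpen (Sd (fun x => -F x) (ball p R)) := isOpen_Sd hF.neg hB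
  obtain ⟨hv, -, -⟩ := hEUL m (k + 1) F φ p R L i v gv w gw hG hC
  obtain ⟨dP, -, hP, -⟩ := hPRS m (k + 1) F φ p R L i v gv w gw 0 hm hG hC
  obtain ⟨-, dR, -, hR⟩ := hPRS m (k + 1) F φ p R L i v gv w gw (Fin.last k) hm hG hC
  have hpt : ∀ x ∈ ball p R, F x = 0 → _ := fun x hx h0 =>
    hSTR (k + 1) (fun l => v l x) (fun l => w l x) (φ x) (hC.mv x ⟨hx, h0.ge⟩)
      (hC.mw x ⟨hx, by simp [h0]⟩) (hC.tr x hx h0)
  have hwH : HasWG (ball p R) (fun x => PP F φ v w 0 x + RR F φ v w (Fin.last k) x)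
      (fun x => dP x + dR x) := (hWBA m _ hB).2.1 _ _ _ _ hP.sub.1 hR.sub.1
  have hsubB : Sd (fun x => -F x) (ball p R) ⊆ ball p R := fun x hx => hx.1
  constructor
  · refine ⟨fun x => gv (Fin.last (k + 1)) x - gv 0 x, fun x => dP x + dR x, ?_⟩
    refine
      { hG := whar_sub hWBA hWEX hS1 (hv _) (hv _)
        eG := ?_
        cG := (hC.cv _).sub (hC.cv _)
        nG := ?_
        hH := (hWBA m _ hB).1 _ _ _ hS2 hsubB hwH
        eH := ?_
        cH := hwH.cont.mono fun x hx => hx.1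
        nH := ?_
        sH := ?_
        eq := ?_ }
    · exact int_sq_comb ((hC.hv _).meas.sub (hC.hv _).meas) (hC.ev (Fin.last (k + 1))) (hC.ev 0)
        fun x => norm_sub_le _ _
    · intro x hx
      have := hC.mv x hx (Fin.zero_le (Fin.last (k + 1)))
      simp only at this
      linarith
    · have h1 := hP.sub.1.meas.mono_measure (Measure.restrict_mono hsubB le_rfl)
      have h2 := hR.sub.1.meas.mono_measure (Measure.restrict_mono hsubB le_rfl)
      exact int_sq_comb (h1.add h2) (hP.en.mono_set hsubB) (hR.en.mono_set hsubB)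
        fun x => norm_add_le _ _
    · intro x hx
      exact add_nonneg (hP.nn x hx.1) (hR.nn x hx.1)
    · intro ξ dξ hξ hξ0 hξF
      obtain ⟨iξ2, iξ, -, -, hinn⟩ := hWEX m (ball p R) ξ dξ hB hξ
      have hz : ∀ᵐ x : E m, x ∈ ball p R → ξ x = 0 → dξ x = 0 := (hWPP m _ _ _ hB hξ.wg).2
      have hout : ∀ x ∈ ball p R \ Sd (fun x => -F x) (ball p R), ξ x = 0 := by
        rintro x ⟨hx, hn⟩
        refine hξF x hx ?_
        by_contra hcon
        push Not at hcon
        exact hn ⟨hx, by simpa using hcon⟩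
      have hmv : ∀ g : E m → E m, ∫ x in Sd (fun x => -F x) (ball p R), inner ℝ (g x) (dξ x) =
          ∫ x in ball p R, inner ℝ (g x) (dξ x) := by
        intro g
        refine (setIntegral_eq_of_subset_of_ae_sdiff_eq_zero hB.measurableSet.nullMeasurableSet
          hsubB ?_).symm
        filter_upwards [hz] with x hx hx2
        rw [hx hx2.1 (hout x hx2), inner_zero_right]
      have hmξ : ∫ x in Sd (fun x => -F x) (ball p R), ξ x = ∫ x in ball p R, ξ x :=
        (setIntegral_eq_of_subset_of_forall_sdiff_eq_zero hB.measurableSet hsubB hout).symm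
      rw [hmv, hmξ]
      simp only [inner_add_left]
      rw [integral_add (hinn _ _ hP.sub.1) (hinn _ _ hR.sub.1)]
      have h1 := hP.sub.2 ξ dξ hξ hξ0
      have h2 := hR.sub.2 ξ dξ hξ hξ0
      linarith
    · intro x hx h0
      have h1 := (hpt x hx h0).1
      have h2 := (hpt x hx h0).2.1
      unfold PP RR
      rw [if_pos h0.ge, if_pos h0.ge]
      have h3 : v (Fin.castSucc (0 : Fin (k + 1))) x = v 0 x := by rw [Fin.castSucc_zero]
      have h4 : v (Fin.succ (Fin.last k)) x = v (Fin.last (k + 1)) x := by rw [Fin.succ_last]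
      rw [h3, h4, max_eq_left (by linarith), max_eq_left (by linarith)]
      ring
  · obtain ⟨K1, hK1, hb1⟩ := hBAR m F φ p R L i (v 0) (gv 0) hm hG (hv 0) (hC.cv 0)
      (fun x hx h0 => (hpt x hx h0).1)
    have hlpn : ∀ x, lp (fun y => -φ y) x = -lp φ x := by
      intro x
      have := (((hLPC m).2.2.1 (-1) φ hG.cφ) x).2
      simpa using this
    have hG' : Geo F (fun y => -φ y) p R L i :=
      { hG with
        cφ := hG.cφ.neg
        lφ := fun x hx => by rw [hlpn, abs_neg]; exact hG.lφ x hx }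
    obtain ⟨K2, hK2, hb2⟩ := hBAR m F (fun y => -φ y) p R L i (fun x => -v (Fin.last (k + 1)) x)
      (fun x => -gv (Fin.last (k + 1)) x) hm hG' (whar_neg hWBA hS1 (hv _)) (hC.cv _).neg
      (fun x hx h0 => neg_le_neg (hpt x hx h0).2.1)
    refine ⟨K1 + K2, add_nonneg hK1 hK2, fun x hx j => ?_⟩
    have hR0 := hG.hR
    have hx' : x ∈ Sc F (ball p R) := ⟨ball_subset_ball (by linarith) hx.1, hx.2⟩
    have a1 := hb1 x hx
    have a2 := hb2 x hx
    have a3 : v 0 x ≤ v j.castSucc x := hC.mv x hx' (Fin.zero_le _)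
    have a4 : v j.succ x ≤ v (Fin.last (k + 1)) x := hC.mv x hx' (Fin.le_last _)
    have a5 : v 0 x ≤ v (Fin.last (k + 1)) x := hC.mv x hx' (Fin.zero_le _)
    have n0 := norm_nonneg (x - p)
    have n1 := mul_nonneg hK1 n0
    have n2 := mul_nonneg hK2 n0
    unfold PP RR
    rw [if_pos hx.2, if_pos hx.2]
    constructor
    · refine max_le ?_ ?_
      · nlinarith
      · nlinarith
    · refine max_le ?_ ?_
      · nlinarith
      · nlinarith

end Pool.Agent.COB
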