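import Pool.Agent.COB.Stmts

/-!
# Squad COB: module TBA (algebra of test functions)
-/

set_option autoImplicit false

namespace Pool.Agent.COB

open MeasureTheory Set Metric Filter Topology

namespace TBA_

variable {m : ℕ}

theorem open_sd {B : Set (E m)} {F : E m → ℝ} (hB : IsOpen B) (hF : Continuous F) :
    IsOpen (Sd F B) :=
  hB.inter (isOpen_lt continuous_const hF)

theorem sq_add_le (u v : E m) : ‖u + v‖ ^ 2 ≤ 2 * ‖u‖ ^ 2 + 2 * ‖v‖ ^ 2 := by
  have h3 : ‖u + v‖ ≤ ‖u‖ + ‖v‖ := norm_add_le _ _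
  have h4 : ‖u + v‖ ^ 2 ≤ (‖u‖ + ‖v‖) ^ 2 := pow_le_pow_left₀ (norm_nonneg _) h3 2
  nlinarith [sq_nonneg (‖u‖ - ‖v‖)]

theorem en_add {S : Set (E m)} {da db : E m → E m}
    (ma : AEStronglyMeasurable da (volume.restrict S))
    (mb : AEStronglyMeasurable db (volume.restrict S))
    (ha : IntegrableOn (fun x => ‖da x‖ ^ 2) S) (hb : IntegrableOn (fun x => ‖db x‖ ^ 2) S) :
    IntegrableOn (fun x => ‖da x + db x‖ ^ 2) S := by
  have h1 := ha.const_mul 2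
  have h2 := hb.const_mul 2
  refine Integrable.mono' (h1.add h2) ((ma.add mb).norm.pow 2) ?_
  refine Eventually.of_forall fun x => ?_
  rw [Real.norm_of_nonneg (by positivity)]
  simp only [Pi.add_apply]
  exact sq_add_le _ _

theorem en_smul {S : Set (E m)} {da : E m → E m} (c : ℝ)
    (ha : IntegrableOn (fun x => ‖da x‖ ^ 2) S) :
    IntegrableOn (fun x => ‖c • da x‖ ^ 2) S := by
  have h1 := ha.const_mul (c ^ 2)
  refine h1.congr (Eventually.of_forall fun x => ?_)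
  simp only
  rw [norm_smul, mul_pow, Real.norm_eq_abs, sq_abs]

end TBA_

open TBA_ in
theorem tba_proof (hWBA : Stmt_WBA) (hWPP : Stmt_WPP) (hWMM : Stmt_WMM) : Stmt_TBA := by
  intro m B F hB hF
  obtain ⟨bmono, badd, bsmul, bcongr, bc1, bconst⟩ := hWBA m B hB
  have hSo : IsOpen (Sd F B) := open_sd hB hF
  obtain ⟨smono, sadd, ssmul, scongr, sc1, sconst⟩ := hWBA m (Sd F B) hSo
  refine ⟨?_, ?_, ?_, ?_, ?_, ?_, ?_, ?_, ?_, ?_, ?_⟩
  · exact ⟨bconst 0, ∅, empty_subset _, isCompact_empty, fun _ _ => rfl⟩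
  · refine ⟨continuousOn_const, sconst 0, ?_, ∅, empty_subset _, isCompact_empty, fun _ _ => rfl⟩
    simp
  · rintro ξ dξ ζ dζ ⟨h1, C, hCB, hC, h2⟩ ⟨h3, D, hDB, hD, h4⟩
    refine ⟨badd _ _ _ _ h1 h3, C ∪ D, union_subset hCB hDB, hC.union hD, ?_⟩
    rintro x ⟨hx, hx'⟩
    rw [mem_union, not_or] at hx'
    rw [h2 x ⟨hx, hx'.1⟩, h4 x ⟨hx, hx'.2⟩, add_zero]
  · rintro c ξ dξ ⟨h1, C, hCB, hC, h2⟩
    refine ⟨bsmul _ _ _ h1, C, hCB, hC, fun x hx => ?_⟩
    rw [h2 x hx, mul_zero]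
  · rintro ξ dξ f df ⟨h1, C, hCB, hC, h2⟩ h3
    refine ⟨(hWMM m B ξ f dξ df hB h1 h3).2.2, C, hCB, hC, fun x hx => ?_⟩
    rw [h2 x hx, zero_mul]
  · rintro ξ dξ ⟨h1, C, hCB, hC, h2⟩
    refine ⟨(hWPP m B ξ dξ hB h1).1, C, hCB, hC, fun x hx => ?_⟩
    rw [h2 x hx, max_self]
  · rintro ξ dξ f df ⟨h1, C, hCB, hC, h2⟩ h3 h4
    obtain ⟨dN, h5, h6⟩ := (hWMM m B ξ f dξ df hB h1 h3).2.1
    refine ⟨dN, ⟨h5, C, hCB, hC, fun x hx => ?_⟩, h6⟩
    rw [h2 x hx]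
    exact min_eq_left (h4 x hx.1)
  · intro ζ h1 h2 h3
    refine ⟨bc1 ζ h1.contDiffOn, tsupport ζ, h3, h2, fun x hx => ?_⟩
    exact image_eq_zero_of_notMem_tsupport hx.2
  · rintro a da b db ⟨c1, h1, e1, C, hCB, hC, h2⟩ ⟨c3, h3, e3, D, hDB, hD, h4⟩
    refine ⟨c1.add c3, sadd _ _ _ _ h1 h3, en_add h1.meas h3.meas e1 e3, C ∪ D,
      union_subset hCB hDB, hC.union hD, ?_⟩
    rintro x ⟨hx, hx'⟩
    rw [mem_union, not_or] at hx'
    rw [h2 x ⟨hx, hx'.1⟩, h4 x ⟨hx, hx'.2⟩, add_zero]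
  · rintro c a da ⟨c1, h1, e1, C, hCB, hC, h2⟩
    refine ⟨continuousOn_const.mul c1, ssmul _ _ _ h1, en_smul c e1, C, hCB, hC, fun x hx => ?_⟩
    rw [h2 x hx, mul_zero]
  · rintro a da f df ⟨c1, h1, e1, C, hCB, hC, h2⟩ c3 h3 e3 h4
    have g1 := ssmul (-1) _ _ h3
    have g2 := sadd _ _ _ _ h1 g1
    have g3 := (hWPP m (Sd F B) _ _ hSo g2).1
    have e4 : IntegrableOn (fun x => ‖da x + (-1 : ℝ) • df x‖ ^ 2) (Sd F B) :=
      en_add h1.meas g1.meas e1 (en_smul (-1) e3)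
    have hind : ({x | f x < a x}.indicator fun x => da x - df x) =
        {x | 0 < a x + -1 * f x}.indicator fun x => da x + (-1 : ℝ) • df x := by
      have hs : {x | f x < a x} = {x | 0 < a x + -1 * f x} := by
        ext x
        rw [Set.mem_ofPred_eq, Set.mem_ofPred_eq]
        constructor <;> intro h <;> linarith
      rw [hs]
      congr 1
      funext x
      rw [neg_one_smul, sub_eq_add_neg]
    rw [hind]
    refine ⟨ContinuousOn.sup (c1.sub c3) continuousOn_const, ?_, ?_, C, hCB, hC,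
      fun x hx => ?_⟩
    · refine scongr _ _ _ _ g3 (fun x _ => ?_) (Eventually.of_forall fun x => rfl)
      congr 1
      ring
    · refine Integrable.mono' e4 (g3.meas.norm.pow 2) ?_
      refine Eventually.of_forall fun x => ?_
      rw [Real.norm_of_nonneg (by positivity)]
      refine pow_le_pow_left₀ (norm_nonneg _) ?_ 2
      exact norm_indicator_le_norm_self _ _
    · rw [h2 x hx]
      exact max_eq_right (by linarith [h4 x hx.1])

end Pool.Agent.COB
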