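import Pool.Agent.COB.Stmts

set_option autoImplicit false

namespace Pool.Agent.COB

open MeasureTheory Set Metric Filter Topology

namespace THE_

lemma hd (n : ℕ) (u : ℝ) :
    HasDerivAt (fun u : ℝ => (max 0 u) ^ (n + 2)) (((n : ℝ) + 2) * (max 0 u) ^ (n + 1)) u := by
  rcases lt_trichotomy u 0 with h | h | h
  · have h1 : (fun u : ℝ => (max 0 u) ^ (n + 2)) =ᶠ[𝓝 u] fun _ => (0 : ℝ) := by
      filter_upwards [Iio_mem_nhds h] with y hy
      rw [max_eq_left (le_of_lt hy)]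
      simp
    rw [max_eq_left h.le]
    simp only [ne_eq, Nat.add_eq_zero_iff, one_ne_zero, and_false, not_false_eq_true, zero_pow,
      mul_zero]
    exact (hasDerivAt_const u (0 : ℝ)).congr_of_eventuallyEq h1
  · subst h
    simp only [max_self, ne_eq, Nat.add_eq_zero_iff, one_ne_zero, and_false, not_false_eq_true,
      zero_pow, mul_zero]
    have h1 : (fun u : ℝ => (max 0 u) ^ (n + 2)) =O[𝓝 (0 : ℝ)] fun x : ℝ => ‖x - 0‖ ^ (n + 2) := by
      apply Asymptotics.IsBigO.of_bound 1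
      refine Eventually.of_forall (fun x => ?_)
      rw [sub_zero, one_mul, norm_pow, norm_pow, norm_norm]
      apply pow_le_pow_left₀ (norm_nonneg _)
      rw [Real.norm_eq_abs, Real.norm_eq_abs, abs_of_nonneg (le_max_left 0 x)]
      exact max_le (abs_nonneg x) (le_abs_self x)
    have h2 : HasFDerivAt (fun u : ℝ => (max 0 u) ^ (n + 2)) (0 : ℝ →L[ℝ] ℝ) 0 :=
      h1.hasFDerivAt (𝕜 := ℝ) (by omega : 1 < n + 2)
    have h3 := h2.hasDerivAt
    simpa using h3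
  · have h1 : (fun u : ℝ => (max 0 u) ^ (n + 2)) =ᶠ[𝓝 u] fun u => u ^ (n + 2) := by
      filter_upwards [Ioi_mem_nhds h] with y hy
      rw [max_eq_right (le_of_lt hy)]
    rw [max_eq_right h.le]
    have h2 : HasDerivAt (fun u : ℝ => u ^ (n + 2)) (((n : ℝ) + 2) * u ^ (n + 1)) u := by
      have := hasDerivAt_pow (n + 2) u
      simpa using this
    exact h2.congr_of_eventuallyEq h1

/-- the profile -/
noncomputable def hh (S r s : ℝ) : ℝ := 64 * S * (max 0 (s / r ^ 2 - 1 / 4)) ^ 3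

lemma lin (r s : ℝ) : HasDerivAt (fun s : ℝ => s / r ^ 2 - 1 / 4) (1 / r ^ 2) s := by
  have h := ((hasDerivAt_id s).div_const (r ^ 2)).sub_const (1 / 4)
  simpa using h

lemma hh1 (S r s : ℝ) : HasDerivAt (hh S r)
    (64 * S * (3 * (max 0 (s / r ^ 2 - 1 / 4)) ^ 2 * (1 / r ^ 2))) s := by
  have h := HasDerivAt.comp s (hd 1 (s / r ^ 2 - 1 / 4)) (lin r s)
  have h2 := h.const_mul (64 * S)
  have e : hh S r = fun y => 64 * S *
      ((fun u : ℝ => (max 0 u) ^ (1 + 2)) ∘ fun s => s / r ^ 2 - 1 / 4) y := by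
    funext y
    simp [hh]
  rw [e]
  refine h2.congr_deriv ?_
  norm_num

lemma hh2 (S r s : ℝ) : HasDerivAt
    (fun s => 64 * S * (3 * (max 0 (s / r ^ 2 - 1 / 4)) ^ 2 * (1 / r ^ 2)))
    (64 * S * (6 * (max 0 (s / r ^ 2 - 1 / 4)) * (1 / r ^ 2) * (1 / r ^ 2))) s := by
  have h := HasDerivAt.comp s (hd 0 (s / r ^ 2 - 1 / 4)) (lin r s)
  have h2 := (h.const_mul (3 * (1 / r ^ 2))).const_mul (64 * S)
  have e : (fun s => 64 * S * (3 * (max 0 (s / r ^ 2 - 1 / 4)) ^ 2 * (1 / r ^ 2))) =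
      fun y => 64 * S * (3 * (1 / r ^ 2) *
      ((fun u : ℝ => (max 0 u) ^ (0 + 2)) ∘ fun s => s / r ^ 2 - 1 / 4) y) := by
    funext y
    simp only [Function.comp_def, zero_add]
    ring
  rw [e]
  refine h2.congr_deriv ?_
  push_cast
  ring

lemma d1 (S r : ℝ) : deriv (hh S r) =
    fun s => 64 * S * (3 * (max 0 (s / r ^ 2 - 1 / 4)) ^ 2 * (1 / r ^ 2)) :=
  funext fun s => (hh1 S r s).deriv

lemma d2 (S r : ℝ) : deriv (deriv (hh S r)) =
    fun s => 64 * S * (6 * (max 0 (s / r ^ 2 - 1 / 4)) * (1 / r ^ 2) * (1 / r ^ 2)) := by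
  rw [d1]
  exact funext fun s => (hh2 S r s).deriv

lemma cd (S r : ℝ) : ContDiff ℝ 2 (hh S r) := by
  have e : (2 : WithTop ℕ∞) = 1 + 1 := by norm_num
  rw [e, contDiff_succ_iff_deriv]
  refine ⟨fun s => (hh1 S r s).differentiableAt, by simp, ?_⟩
  rw [contDiff_one_iff_deriv]
  refine ⟨?_, ?_⟩
  · rw [d1]
    exact fun s => (hh2 S r s).differentiableAt
  · rw [d2]
    fun_prop

end THE_

open THE_ in
theorem the_proof (hLPC : Stmt_LPC) : Stmt_THE := by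
  intro m
  refine ⟨1152 + 216 * m, by positivity, ?_⟩
  intro p r S hr hS
  obtain ⟨-, -, -, h4, -⟩ := hLPC m
  obtain ⟨hc, hl⟩ := h4 p (hh S r) univ isOpen_univ (subset_univ _) (cd S r).contDiffOn
  refine ⟨fun y => hh S r (‖y - p‖ ^ 2), hc, ?_, ?_, ?_, ?_⟩
  · intro x
    unfold hh
    positivity
  · intro x hx
    have h1 : ‖x - p‖ ^ 2 / r ^ 2 - 1 / 4 ≤ 0 := by
      rw [sub_nonpos, div_le_iff₀ (by positivity)]
      nlinarith [norm_nonneg (x - p)]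
    simp only [hh]
    rw [max_eq_left h1]
    simp
  · intro x hx
    have h1 : 5 / 16 ≤ ‖x - p‖ ^ 2 / r ^ 2 - 1 / 4 := by
      rw [le_sub_iff_add_le, le_div_iff₀ (by positivity)]
      nlinarith [norm_nonneg (x - p)]
    have h2 : 5 / 16 ≤ max 0 (‖x - p‖ ^ 2 / r ^ 2 - 1 / 4) := le_trans h1 (le_max_right _ _)
    have h3 : (5 / 16 : ℝ) ^ 3 ≤ (max 0 (‖x - p‖ ^ 2 / r ^ 2 - 1 / 4)) ^ 3 :=
      pow_le_pow_left₀ (by norm_num) h2 3
    simp only [hh]
    nlinarith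
  · intro x hx
    have hx1 : ‖x - p‖ < r := by rwa [← dist_eq_norm, ← mem_ball]
    rw [(hl x).2, d2, d1]
    simp only
    set u : ℝ := max 0 (‖x - p‖ ^ 2 / r ^ 2 - 1 / 4) with hu
    have hu0 : 0 ≤ u := le_max_left _ _
    have hu1 : u ≤ 3 / 4 := by
      apply max_le (by norm_num)
      rw [sub_le_iff_le_add, div_le_iff₀ (by positivity)]
      nlinarith [norm_nonneg (x - p)]
    have hs : ‖x - p‖ ^ 2 ≤ r ^ 2 := by nlinarith [norm_nonneg (x - p)]
    have hnn : 0 ≤ 4 * ‖x - p‖ ^ 2 * (64 * S * (6 * u * (1 / r ^ 2) * (1 / r ^ 2))) +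
        2 * ↑m * (64 * S * (3 * u ^ 2 * (1 / r ^ 2))) := by positivity
    rw [abs_of_nonneg hnn]
    have e1 : 4 * ‖x - p‖ ^ 2 * (64 * S * (6 * u * (1 / r ^ 2) * (1 / r ^ 2))) ≤
        4 * r ^ 2 * (64 * S * (6 * (3 / 4) * (1 / r ^ 2) * (1 / r ^ 2))) := by gcongr
    have e2 : 2 * (m : ℝ) * (64 * S * (3 * u ^ 2 * (1 / r ^ 2))) ≤
        2 * (m : ℝ) * (64 * S * (3 * (3 / 4) ^ 2 * (1 / r ^ 2))) := by gcongr
    have e3 : 4 * r ^ 2 * (64 * S * (6 * (3 / 4) * (1 / r ^ 2) * (1 / r ^ 2))) +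
        2 * (m : ℝ) * (64 * S * (3 * (3 / 4) ^ 2 * (1 / r ^ 2))) =
        (1152 + 216 * m) * S / r ^ 2 := by
      field_simp
      ring
    linarith

end Pool.Agent.COB
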