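import Pool.Agent.COB.Stmts

set_option autoImplicit false

namespace Pool.Agent.COB

open MeasureTheory Set Metric Filter Topology

namespace TON_

lemma int_pow (n : ℕ) (a b : ℝ) (ha : 0 < a) (hab : a ≤ b) :
    (n : ℝ) * ∫ s in a..b, (s ^ (n + 1))⁻¹ = (a ^ n)⁻¹ - (b ^ n)⁻¹ := by
  rcases Nat.eq_zero_or_pos n with h | h
  · subst h; simp
  · have h0 : (0 : ℝ) ∉ Set.uIcc a b := by
      rw [Set.uIcc_of_le hab]; intro hh; linarith [hh.1]
    have h1 : ∀ s : ℝ, (s ^ (n + 1))⁻¹ = s ^ (-(n : ℤ) - 1) := by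
      intro s
      rw [show (-(n : ℤ) - 1) = -((n + 1 : ℕ) : ℤ) by push_cast; ring, zpow_neg, zpow_natCast]
    simp_rw [h1]
    rw [integral_zpow (Or.inr ⟨by omega, h0⟩)]
    have h2 : (-(n : ℤ) - 1 + 1) = -(n : ℤ) := by ring
    rw [h2, zpow_neg, zpow_neg, zpow_natCast, zpow_natCast]
    have hn : (n : ℝ) ≠ 0 := by positivity
    have h3 : ((-(n : ℤ) - 1 : ℤ) : ℝ) + 1 = -(n : ℝ) := by push_cast; ring
    rw [h3, mul_div_assoc', div_eq_iff (by simpa using hn)]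
    ring

lemma mono_g {m : ℕ} (p : E m) (A : Set (E m)) (U : E m → ℝ) (hA : MeasurableSet A)
    (h0 : ∀ x ∈ A, 0 ≤ U x) (hU : IntegrableOn U A) :
    Monotone fun s : ℝ => ∫ x in A ∩ ball p s, U x := by
  intro s t hst
  apply setIntegral_mono_set (hU.mono_set inter_subset_left)
  · refine (ae_restrict_iff' (hA.inter measurableSet_ball)).2 (ae_of_all _ fun x hx => h0 x hx.1)
  · exact (inter_subset_inter_right _ (ball_subset_ball hst)).eventuallyLE

end TON_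

open TON_ in
theorem ton_proof (_h : Stmt_JBM) : Stmt_TON := by
  intro m n p r₀ ρ A U hρ hρr hA hAb h0 hU
  have hr0 : 0 < r₀ := hρ.trans_le hρr
  have hρ2 : ρ ≤ 2 * r₀ := by linarith
  have hJm : ∀ x, max ‖x - p‖ ρ ≤ J ρ p x := by
    intro x
    apply max_le
    · apply Real.le_sqrt_of_sq_le; nlinarith
    · apply Real.le_sqrt_of_sq_le; nlinarith [sq_nonneg ‖x - p‖]
  have hJρ : ∀ x, ρ ≤ J ρ p x := fun x => (le_max_right _ _).trans (hJm x)
  have hJc : Continuous (J ρ p) := by unfold J; fun_prop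
  have i1 : IntegrableOn (fun x => U x * (J ρ p x ^ n)⁻¹) A := by
    have hb : ∀ x, ‖(J ρ p x ^ n)⁻¹‖ ≤ (ρ ^ n)⁻¹ := by
      intro x
      have hJ0 : 0 < J ρ p x := hρ.trans_le (hJρ x)
      rw [Real.norm_of_nonneg (by positivity)]
      exact inv_anti₀ (by positivity) (pow_le_pow_left₀ hρ.le (hJρ x) n)
    refine Integrable.mul_bdd (c := (ρ ^ n)⁻¹) hU ?_ (ae_of_all _ hb)
    apply Continuous.aestronglyMeasurable
    exact Continuous.inv₀ (hJc.pow n) (fun x => by have := hρ.trans_le (hJρ x); positivity)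
  have hs : ContinuousOn (fun s : ℝ => (s ^ (n + 1))⁻¹) (uIcc ρ (2 * r₀)) := by
    rw [uIcc_of_le hρ2]
    apply ContinuousOn.inv₀ (by fun_prop)
    intro s hs
    have : 0 < s := hρ.trans_le hs.1
    positivity
  have i2 : IntervalIntegrable (fun s => (s ^ (n + 1))⁻¹ * ∫ x in A ∩ ball p s, U x) volume ρ
      (2 * r₀) :=
    ((mono_g p A U hA h0 hU).intervalIntegrable).continuousOn_mul hs
  refine ⟨i1, i2, ?_⟩
  -- Fubini
  set ν := (volume : Measure ℝ).restrict (Ioc ρ (2 * r₀)) with hν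
  have hsI : Integrable (fun s : ℝ => (s ^ (n + 1))⁻¹) ν := by
    have := (hs.intervalIntegrable (μ := volume)).1
    exact this
  set μ := (volume : Measure (E m)).restrict A with hμ
  have hpr : Integrable (fun z : E m × ℝ => U z.1 * (z.2 ^ (n + 1))⁻¹) (μ.prod ν) :=
    Integrable.mul_prod hU hsI
  set S : Set (E m × ℝ) := {z | ‖z.1 - p‖ < z.2} with hS
  have hSm : MeasurableSet S := measurableSet_lt (by fun_prop) (by fun_prop)
  have hpi := hpr.indicator hSm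
  have hsw := integral_integral_swap
    (f := fun (x : E m) (s : ℝ) => S.indicator (fun z : E m × ℝ => U z.1 * (z.2 ^ (n + 1))⁻¹) (x, s))
    (μ := μ) (ν := ν) hpi
  have hin1 : ∀ x ∈ A, (n : ℝ) * (∫ s, S.indicator
      (fun z : E m × ℝ => U z.1 * (z.2 ^ (n + 1))⁻¹) (x, s) ∂ν) =
      U x * (((max ‖x - p‖ ρ) ^ n)⁻¹ - ((2 * r₀) ^ n)⁻¹) := by
    intro x hx
    have hxb : ‖x - p‖ < r₀ := by simpa [dist_eq_norm] using hAb hx
    have e1 : (fun s : ℝ => S.indicator (fun z : E m × ℝ => U z.1 * (z.2 ^ (n + 1))⁻¹) (x, s)) =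
        (Ioi ‖x - p‖).indicator (fun s => U x * (s ^ (n + 1))⁻¹) := by
      funext s
      simp only [indicator, hS, mem_setOf_eq, mem_Ioi]
    have hmx : max ‖x - p‖ ρ ≤ 2 * r₀ := max_le (by linarith) hρ2
    rw [e1, hν, setIntegral_indicator measurableSet_Ioi]
    have e2 : Ioc ρ (2 * r₀) ∩ Ioi ‖x - p‖ = Ioc (max ‖x - p‖ ρ) (2 * r₀) := by
      ext s
      simp only [mem_inter_iff, mem_Ioc, mem_Ioi, max_lt_iff]
      tauto
    rw [e2, integral_const_mul, ← intervalIntegral.integral_of_le hmx,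
      ← int_pow n _ _ (lt_max_of_lt_right hρ) hmx]
    ring
  have hin2 : ∀ s : ℝ, (∫ x, S.indicator
      (fun z : E m × ℝ => U z.1 * (z.2 ^ (n + 1))⁻¹) (x, s) ∂μ) =
      (s ^ (n + 1))⁻¹ * ∫ x in A ∩ ball p s, U x := by
    intro s
    have e1 : (fun x : E m => S.indicator (fun z : E m × ℝ => U z.1 * (z.2 ^ (n + 1))⁻¹) (x, s)) =
        (ball p s).indicator (fun x => U x * (s ^ (n + 1))⁻¹) := by
      funext x
      simp only [indicator, hS, mem_setOf_eq, mem_ball, dist_eq_norm]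
    rw [e1, hμ, setIntegral_indicator measurableSet_ball, integral_mul_const]
    ring
  have h3 : ∫ x in A, U x * (((max ‖x - p‖ ρ) ^ n)⁻¹ - ((2 * r₀) ^ n)⁻¹) =
      n * (∫ s in ρ..(2 * r₀), (s ^ (n + 1))⁻¹ * ∫ x in A ∩ ball p s, U x) := by
    rw [intervalIntegral.integral_of_le hρ2]
    have : ∫ s in Ioc ρ (2 * r₀), (s ^ (n + 1))⁻¹ * ∫ x in A ∩ ball p s, U x =
        ∫ s, (∫ x, S.indicator (fun z : E m × ℝ => U z.1 * (z.2 ^ (n + 1))⁻¹) (x, s) ∂μ) ∂ν := by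
      rw [hν]; exact integral_congr_ae (ae_of_all _ fun s => (hin2 s).symm)
    rw [this, ← hsw, ← integral_const_mul, hμ]
    exact setIntegral_congr_fun hA fun x hx => (hin1 x hx).symm
  have i4 : IntegrableOn (fun x => U x * ((max ‖x - p‖ ρ) ^ n)⁻¹) A := by
    have hb : ∀ x : E m, ‖((max ‖x - p‖ ρ) ^ n)⁻¹‖ ≤ (ρ ^ n)⁻¹ := by
      intro x
      have hJ0 : 0 < max ‖x - p‖ ρ := lt_max_of_lt_right hρ
      rw [Real.norm_of_nonneg (by positivity)]
      exact inv_anti₀ (by positivity) (pow_le_pow_left₀ hρ.le (le_max_right _ _) n)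
    refine Integrable.mul_bdd (c := (ρ ^ n)⁻¹) hU ?_ (ae_of_all _ hb)
    apply Continuous.aestronglyMeasurable
    exact Continuous.inv₀ (by fun_prop) (fun x => by
      have : 0 < max ‖x - p‖ ρ := lt_max_of_lt_right hρ
      positivity)
  have h4 : ∫ x in A, U x * (((max ‖x - p‖ ρ) ^ n)⁻¹ - ((2 * r₀) ^ n)⁻¹) =
      (∫ x in A, U x * ((max ‖x - p‖ ρ) ^ n)⁻¹) - ((2 * r₀) ^ n)⁻¹ * ∫ x in A, U x := by
    rw [← integral_const_mul, ← integral_sub i4 (hU.const_mul _)]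
    apply integral_congr_ae
    filter_upwards with x
    ring
  have h5 : ∫ x in A, U x * (J ρ p x ^ n)⁻¹ ≤ ∫ x in A, U x * ((max ‖x - p‖ ρ) ^ n)⁻¹ := by
    apply setIntegral_mono_on i1 i4 hA
    intro x hx
    have hJ0 : 0 < max ‖x - p‖ ρ := lt_max_of_lt_right hρ
    exact mul_le_mul_of_nonneg_left
      (inv_anti₀ (by positivity) (pow_le_pow_left₀ hJ0.le (hJm x) n)) (h0 x hx)
  linarith

end Pool.Agent.COB
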