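import Pool.Agent.COB.Stmts

/-!
# Squad COB: module TPT (one sided and two sided test functions)
-/

set_option autoImplicit false

namespace Pool.Agent.COB

open MeasureTheory Set Metric Filter Topology

namespace TPT_

variable {m : ℕ}

theorem open_sd {B : Set (E m)} {F : E m → ℝ} (hB : IsOpen B) (hF : Continuous F) :
    IsOpen (Sd F B) :=
  hB.inter (isOpen_lt continuous_const hF)

theorem sd_sub_sc {B : Set (E m)} {F : E m → ℝ} : Sd F B ⊆ Sc F B := fun _ hx => ⟨hx.1, hx.2.le⟩

theorem sd_sub {B : Set (E m)} {F : E m → ℝ} : Sd F B ⊆ B := fun _ hx => hx.1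

theorem sc_sub {B : Set (E m)} {F : E m → ℝ} : Sc F B ⊆ B := fun _ hx => hx.1

theorem grad_ne {F : E m → ℝ} {x : E m} (h : fderiv ℝ F x ≠ 0) : gradient F x ≠ 0 := by
  intro h1
  apply h
  unfold gradient at h1
  exact (LinearIsometryEquiv.map_eq_zero_iff _).1 h1

end TPT_

open TPT_ in
theorem tpt_proof (hWBA : Stmt_WBA) (hWUN : Stmt_WUN) (hWLO : Stmt_WLO) (hWPP : Stmt_WPP)
    (hWEX : Stmt_WEX) (hWGL : Stmt_WGL) : Stmt_TPT := by
  intro m B F hB hF hne
  have hFc : Continuous F := hF.continuous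
  have hnFc : Continuous fun x => -F x := hFc.neg
  have hSo : IsOpen (Sd F B) := open_sd hB hFc
  have hTo : IsOpen (Sd (fun x => -F x) B) := open_sd hB hnFc
  have h2 : ∀ ξ dξ, TB B ξ dξ → PT F B ξ dξ ∧ PT (fun x => -F x) B ξ dξ := by
    intro ξ dξ h
    have hen := (hWEX m B ξ dξ hB h).1
    obtain ⟨h1, C, hCB, hC, h3⟩ := h
    have hmono := (hWBA m B hB).1
    refine ⟨⟨h1.cont.mono sc_sub, hmono _ _ _ hSo sd_sub h1, hen.mono_set sd_sub, C, hCB, hC,
      fun x hx => h3 x ⟨hx.1.1, hx.2⟩⟩, ⟨h1.cont.mono sc_sub, hmono _ _ _ hTo sd_sub h1,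
      hen.mono_set sd_sub, C, hCB, hC, fun x hx => h3 x ⟨hx.1.1, hx.2⟩⟩⟩
  refine ⟨?_, h2, ?_, ?_, ?_⟩
  · have h3 := (hWBA m B hB).2.2.2.2.1 F (hF.of_le (by norm_num)).contDiffOn
    have h4 := (hWPP m B F _ hB h3).2
    rw [ae_iff] at h4
    refine measure_mono_null ?_ h4
    rintro x ⟨hx, hx0⟩ hc
    exact grad_ne (hne x hx hx0) (hc hx hx0)
  · intro ξ dξ h
    exact (h2 _ _ ((hWEX m _ ξ dξ hSo h).2.2.2.1 B hB sd_sub)).1
  · rintro a da ⟨c1, h1, e1, C, hCB, hC, h3⟩ h0
    have hind : ∀ x ∈ B \ C, (Sd F B).indicator a x = 0 := by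
      rintro x ⟨hx, hxC⟩
      by_cases hs : x ∈ Sd F B
      · rw [indicator_of_mem hs]
        exact h3 x ⟨sd_sub_sc hs, hxC⟩
      · rw [indicator_of_notMem hs]
    refine ⟨?_, C, hCB, hC, hind⟩
    refine hWGL m B F _ _ hB hF hne ?_ ?_ ?_ ?_
    · intro x hx
      rcases lt_trichotomy (F x) 0 with hlt | heq | hgt
      · have hmem : Sd (fun x => -F x) B ∈ 𝓝 x := hTo.mem_nhds ⟨hx, by linarith⟩
        refine ContinuousAt.continuousWithinAt ?_
        refine (continuousAt_const (y := (0 : ℝ))).congr ?_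
        filter_upwards [hmem] with y hy
        rw [indicator_of_notMem]
        rintro ⟨_, hy2⟩
        have := hy.2
        linarith
      · have hxs : x ∈ Sc F B := ⟨hx, heq.ge⟩
        have hax : a x = 0 := h0 x hx heq
        have hix : (Sd F B).indicator a x = 0 := by
          rw [indicator_of_notMem]
          rintro ⟨_, hy2⟩
          rw [heq] at hy2
          exact lt_irrefl _ hy2
        rw [Metric.continuousWithinAt_iff]
        intro ε hε
        obtain ⟨δ, hδ, h4⟩ := Metric.continuousWithinAt_iff.1 (c1 x hxs) ε hε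
        refine ⟨δ, hδ, fun {y} hy hd => ?_⟩
        rw [hix]
        by_cases hs : y ∈ Sd F B
        · rw [indicator_of_mem hs, ← hax]
          exact h4 (sd_sub_sc hs) hd
        · rw [indicator_of_notMem hs, dist_self]
          exact hε
      · have hmem : Sd F B ∈ 𝓝 x := hSo.mem_nhds ⟨hx, hgt⟩
        refine ContinuousAt.continuousWithinAt ?_
        have h4 : ContinuousAt a x := h1.cont.continuousAt hmem
        refine h4.congr ?_
        filter_upwards [hmem] with y hy
        rw [indicator_of_mem hy]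
    · intro K _ _
      have h5 : Integrable ((Sd F B).indicator fun x => ‖da x‖ ^ 2) :=
        (integrable_indicator_iff hSo.measurableSet).2 e1
      refine (h5.congr (Eventually.of_forall fun x => ?_)).integrableOn
      by_cases hs : x ∈ Sd F B
      · rw [indicator_of_mem hs, indicator_of_mem hs]
      · rw [indicator_of_notMem hs, indicator_of_notMem hs, norm_zero]
        norm_num
    · refine (hWBA m _ hSo).2.2.2.1 _ _ _ _ h1 (fun x hx => indicator_of_mem hx _) ?_
      filter_upwards [ae_restrict_mem hSo.measurableSet] with x hx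
      exact indicator_of_mem hx _
    · have hnot : ∀ x ∈ Sd (fun x => -F x) B, x ∉ Sd F B := by
        rintro x ⟨_, hx1⟩ ⟨_, hx2⟩
        linarith
      refine (hWBA m _ hTo).2.2.2.1 _ _ _ _ ((hWBA m _ hTo).2.2.2.2.2 0)
        (fun x hx => indicator_of_notMem (hnot x hx) _) ?_
      filter_upwards [ae_restrict_mem hTo.measurableSet] with x hx
      exact indicator_of_notMem (hnot x hx) _
  · rintro B' a da hB' hBB ⟨c1, h1, e1, C, hCB, hC, h3⟩
    have hS'o : IsOpen (Sd F B') := open_sd hB' hFc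
    have hz : ∀ x ∈ Sc F B \ C, B'.indicator a x = 0 := by
      rintro x ⟨hx, hxC⟩
      by_cases hs : x ∈ B'
      · rw [indicator_of_mem hs]
        exact h3 x ⟨⟨hs, hx.2⟩, hxC⟩
      · rw [indicator_of_notMem hs]
    refine ⟨?_, ?_, ?_, C, hCB.trans hBB, hC, hz⟩
    · intro x hx
      by_cases hs : x ∈ B'
      · have h4 : ContinuousWithinAt a (Sc F B') x := c1 x ⟨hs, hx.2⟩
        have h5 : ContinuousWithinAt a (Sc F B) x := by
          refine h4.mono_of_mem_nhdsWithin ?_
          filter_upwards [inter_mem_nhdsWithin (Sc F B) (hB'.mem_nhds hs)] with y hy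
          exact ⟨hy.2, hy.1.2⟩
        refine h5.congr_of_eventuallyEq ?_ (indicator_of_mem hs _)
        filter_upwards [mem_nhdsWithin_of_mem_nhds (hB'.mem_nhds hs)] with y hy
        exact indicator_of_mem hy _
      · have hxC : x ∉ C := fun h => hs (hCB h)
        refine (continuousWithinAt_const (b := (0 : ℝ))).congr_of_eventuallyEq ?_
          (hz x ⟨hx, hxC⟩)
        filter_upwards [inter_mem_nhdsWithin (Sc F B)
          (hC.isClosed.isOpen_compl.mem_nhds hxC)] with y hy
        exact hz y ⟨hy.1, hy.2⟩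
    · refine hWLO m _ _ _ hSo fun x hx => ?_
      by_cases hs : x ∈ B'
      · refine ⟨Sd F B', hS'o, ⟨hs, hx.2⟩, fun y hy => ⟨hBB hy.1, hy.2⟩, ?_⟩
        refine (hWBA m _ hS'o).2.2.2.1 _ _ _ _ h1 (fun x hx => indicator_of_mem hx.1 _) ?_
        filter_upwards [ae_restrict_mem hS'o.measurableSet] with x hx
        exact indicator_of_mem hx.1 _
      · have hxC : x ∉ C := fun h => hs (hCB h)
        have hVo : IsOpen (Sd F B \ C) := hSo.sdiff hC.isClosed
        have hWo : IsOpen (Sd F B' \ C) := hS'o.sdiff hC.isClosed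
        refine ⟨Sd F B \ C, hVo, ⟨hx, hxC⟩, Set.sdiff_subset, ?_⟩
        have h6 : HasWG (Sd F B' \ C) a da :=
          (hWBA m _ hS'o).1 _ _ _ hWo Set.sdiff_subset h1
        have h7 := hWUN m _ a (fun _ => 0) da (fun _ => 0) hWo h6
          ((hWBA m _ hWo).2.2.2.2.2 0) (fun y hy => h3 y ⟨sd_sub_sc hy.1, hy.2⟩)
        have h8 := (ae_restrict_iff' hWo.measurableSet).1 h7
        refine (hWBA m _ hVo).2.2.2.1 _ _ _ _ ((hWBA m _ hVo).2.2.2.2.2 0)
          (fun y hy => hz y ⟨sd_sub_sc hy.1, hy.2⟩) ?_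
        refine (ae_restrict_iff' hVo.measurableSet).2 ?_
        filter_upwards [h8] with y hy hyV
        by_cases hyB : y ∈ B'
        · rw [indicator_of_mem hyB]
          exact hy ⟨⟨hyB, hyV.1.2⟩, hyV.2⟩
        · rw [indicator_of_notMem hyB]
    · have hint : B' ∩ Sd F B = Sd F B' := by
        ext y
        exact ⟨fun hy => ⟨hy.1, hy.2.2⟩, fun hy => ⟨hy.1, hBB hy.1, hy.2⟩⟩
      have h9 : Integrable ((Sd F B').indicator fun x => ‖da x‖ ^ 2) :=
        (integrable_indicator_iff hS'o.measurableSet).2 e1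
      refine (h9.integrableOn (s := Sd F B)).congr ?_
      filter_upwards [ae_restrict_mem hSo.measurableSet] with x hx
      by_cases hs : x ∈ B'
      · rw [indicator_of_mem (show x ∈ Sd F B' from ⟨hs, hx.2⟩), indicator_of_mem hs]
      · rw [indicator_of_notMem (show x ∉ Sd F B' from fun h => hs h.1), indicator_of_notMem hs,
          norm_zero]
        norm_num

end Pool.Agent.COB
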