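import Pool.Agent.COB.Stmts

/-!
Squad COB, module TRP: traces of the competitors.
-/

set_option autoImplicit false

namespace Pool.Agent.COB

open MeasureTheory Set Metric Filter Topology

namespace TRP

theorem ml_update {n : ℕ} (a : Fin n → ℝ) (i : Fin n) (x : ℝ) :
    a i ::ₘ ml (Function.update a i x) = x ::ₘ ml a := by
  have h1 : (Finset.univ : Finset (Fin n)).val = i ::ₘ (Finset.univ.erase i).val := by
    rw [Finset.erase_val]
    exact (Multiset.cons_erase (Finset.mem_univ i)).symm
  have h2 : ∀ k ∈ (Finset.univ.erase i).val, Function.update a i x k = a k := by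
    intro k hk
    rw [Finset.mem_val] at hk
    have : k ≠ i := (Finset.mem_erase.1 hk).1
    exact Function.update_of_ne this _ _
  unfold ml
  rw [h1, Multiset.map_cons, Multiset.map_cons, Function.update_self,
    Multiset.map_congr rfl h2, Multiset.cons_swap]

theorem ml_update2 {n : ℕ} (a : Fin n → ℝ) (i l : Fin n) (hil : l ≠ i) (x y : ℝ) :
    a i ::ₘ a l ::ₘ ml (Function.update (Function.update a i x) l y) = x ::ₘ y ::ₘ ml a := by
  have h1 := ml_update (Function.update a i x) l y
  rw [Function.update_of_ne hil] at h1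
  rw [h1, Multiset.cons_swap, ml_update, Multiset.cons_swap]

/-- cancellation -/
theorem key {k : ℕ} (a : Fin (k + 1) → ℝ) (b : Fin k → ℝ) (c : ℝ) (j : Fin k)
    (i l : Fin (k + 1)) (hil : l ≠ i) (x y z : ℝ) (h : ml a = c ::ₘ ml b)
    (h3 : x ::ₘ y ::ₘ b j ::ₘ (0 : Multiset ℝ) = a i ::ₘ a l ::ₘ z ::ₘ 0) :
    ml (Function.update (Function.update a i x) l y) = c ::ₘ ml (Function.update b j z) := by
  have h1 := ml_update2 a i l hil x y
  have h2 := ml_update b j z
  set P := ml (Function.update (Function.update a i x) l y)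
  set Q := ml (Function.update b j z)
  have h4 : (a i ::ₘ a l ::ₘ b j ::ₘ (0 : Multiset ℝ)) + P =
      (a i ::ₘ a l ::ₘ b j ::ₘ (0 : Multiset ℝ)) + (c ::ₘ Q) := by
    have e1 : (a i ::ₘ a l ::ₘ b j ::ₘ (0 : Multiset ℝ)) + P =
        (b j ::ₘ (0 : Multiset ℝ)) + (a i ::ₘ a l ::ₘ P) := by
      simp only [← Multiset.singleton_add, add_zero]; abel
    have e2 : (a i ::ₘ a l ::ₘ b j ::ₘ (0 : Multiset ℝ)) + (c ::ₘ Q) =
        (a i ::ₘ a l ::ₘ c ::ₘ (0 : Multiset ℝ)) + (b j ::ₘ Q) := by
      simp only [← Multiset.singleton_add, add_zero]; abel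
    rw [e1, e2, h1, h2, h]
    have e3 : (b j ::ₘ (0 : Multiset ℝ)) + (x ::ₘ y ::ₘ c ::ₘ ml b) =
        (x ::ₘ y ::ₘ b j ::ₘ (0 : Multiset ℝ)) + (c ::ₘ ml b) := by
      simp only [← Multiset.singleton_add, add_zero]; abel
    have e4 : (a i ::ₘ a l ::ₘ c ::ₘ (0 : Multiset ℝ)) + (z ::ₘ ml b) =
        (a i ::ₘ a l ::ₘ z ::ₘ (0 : Multiset ℝ)) + (c ::ₘ ml b) := by
      simp only [← Multiset.singleton_add, add_zero]; abel
    rw [e3, e4, h3]
  exact add_left_cancel h4

theorem swap3a (x y z : ℝ) : x ::ₘ y ::ₘ z ::ₘ (0 : Multiset ℝ) = z ::ₘ y ::ₘ x ::ₘ 0 := by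
  simp only [← Multiset.singleton_add, add_zero]; abel

theorem swap3b (x y z : ℝ) : x ::ₘ y ::ₘ z ::ₘ (0 : Multiset ℝ) = z ::ₘ x ::ₘ y ::ₘ 0 := by
  simp only [← Multiset.singleton_add, add_zero]; abel

theorem swap3c (x y z : ℝ) : x ::ₘ y ::ₘ z ::ₘ (0 : Multiset ℝ) = x ::ₘ z ::ₘ y ::ₘ 0 := by
  simp only [← Multiset.singleton_add, add_zero]; abel

theorem swap3d (x y z : ℝ) : x ::ₘ y ::ₘ z ::ₘ (0 : Multiset ℝ) = y ::ₘ z ::ₘ x ::ₘ 0 := by
  simp only [← Multiset.singleton_add, add_zero]; abel

end TRP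

open TRP in
theorem trp_proof (hSTR : Stmt_STR) : Stmt_TRP := by
  intro k a b c θ j ha hb h hθ
  obtain ⟨-, -, hs, -⟩ := hSTR k a b c ha hb h
  obtain ⟨h1, h2, h3, h4, -, -⟩ := hs j
  have hne : j.succ ≠ j.castSucc := (Fin.castSucc_lt_succ (i := j)).ne'
  have hor : a j.castSucc = b j ∨ a j.succ = b j := by
    rcases le_total (b j) c with hc | hc
    · exact Or.inl (h1 hc)
    · exact Or.inr (h2 hc)
  refine ⟨?_, ?_, ?_, ?_⟩
  · apply key a b c j _ _ hne _ _ _ h
    rcases hor with h5 | h5
    · rw [h5]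
      rcases le_total (a j.succ - b j) θ with h6 | h6
      · rw [min_eq_left h6]
        have e1 : b j + (a j.succ - b j) = a j.succ := by ring
        have e2 : a j.succ + (θ - (a j.succ - b j)) = b j + θ := by ring
        rw [e1, e2]
        exact swap3b _ _ _
      · rw [min_eq_right h6]
        have e2 : a j.succ + (θ - θ) = a j.succ := by ring
        rw [e2]
        exact swap3a _ _ _
    · rw [h5, sub_self, min_eq_left hθ, sub_zero, add_zero]
      exact swap3c _ _ _
  · apply key a b c j _ _ hne _ _ _ h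
    rcases hor with h5 | h5
    · rw [h5, sub_self, min_eq_left hθ, sub_zero, sub_zero]
      exact swap3a _ _ _
    · rw [h5]
      rcases le_total (b j - a j.castSucc) θ with h6 | h6
      · rw [min_eq_left h6]
        have e1 : b j - (b j - a j.castSucc) = a j.castSucc := by ring
        have e2 : a j.castSucc - (θ - (b j - a j.castSucc)) = b j - θ := by ring
        rw [e1, e2]
        exact swap3d _ _ _
      · rw [min_eq_right h6]
        have e2 : a j.castSucc - (θ - θ) = a j.castSucc := by ring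
        rw [e2]
        exact swap3c _ _ _
  · rcases hor with h5 | h5
    · rw [h5, sub_self, min_eq_left hθ, sub_zero]
      rcases le_total (a j.succ - b j) θ with h6 | h6
      · rw [min_eq_left h6, max_eq_left (by linarith)]
      · rw [min_eq_right h6, max_eq_right (by linarith), sub_self]
    · rw [h5, sub_self, min_eq_left hθ, sub_zero]
      rcases le_total (b j - a j.castSucc) θ with h6 | h6
      · rw [min_eq_left h6, max_eq_left (by linarith)]
      · rw [min_eq_right h6, max_eq_right (by linarith), sub_self]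
  · intro i e hi
    have h5 := ml_update a i (a i + e)
    have h6 := ml_update b j (b j + e)
    rw [h, hi] at h5
    have h7 : b j ::ₘ ml (Function.update a i (b j + e)) =
        b j ::ₘ (c ::ₘ ml (Function.update b j (b j + e))) := by
      rw [h5, Multiset.cons_swap (b j) c, h6, Multiset.cons_swap]
    rw [hi]
    exact (Multiset.cons_inj_right _).1 h7

end Pool.Agent.COB
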