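import Pool.Agent.COB.Stmts
set_option autoImplicit false
namespace Pool.Agent.COB
open MeasureTheory Set Metric Filter Topology
open scoped ENNReal
namespace VLB_

/-- square of the positive part -/
noncomputable def q (s : ℝ) : ℝ := (max 0 s) ^ 2

lemma q_deriv (s : ℝ) : HasDerivAt q (2 * max 0 s) s := by
  rcases lt_trichotomy s 0 with h | h | h
  · have h1 : q =ᶠ[𝓝 s] fun _ => 0 := by
      filter_upwards [gt_mem_nhds h] with x hx
      unfold q
      rw [max_eq_left hx.le]; norm_num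
    rw [max_eq_left h.le, mul_zero]
    exact (hasDerivAt_const s (0 : ℝ)).congr_of_eventuallyEq h1
  · subst h
    rw [max_self, mul_zero]
    rw [hasDerivAt_iff_isLittleO_nhds_zero]
    have h2 : (fun h : ℝ => q (0 + h) - q 0 - h • (0 : ℝ)) = fun h => q h := by
      funext h
      simp [q]
    rw [h2]
    rw [Asymptotics.isLittleO_iff]
    intro c hc
    filter_upwards [Metric.ball_mem_nhds (0 : ℝ) hc] with x hx
    rw [mem_ball_zero_iff, Real.norm_eq_abs] at hx
    unfold q
    rw [Real.norm_eq_abs, Real.norm_eq_abs, abs_of_nonneg (sq_nonneg _), sq]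
    have h3 : max 0 x ≤ |x| := max_le (abs_nonneg x) (le_abs_self x)
    have h4 : 0 ≤ max 0 x := le_max_left _ _
    calc max 0 x * max 0 x ≤ |x| * |x| := mul_le_mul h3 h3 h4 (abs_nonneg x)
      _ ≤ c * |x| := mul_le_mul_of_nonneg_right hx.le (abs_nonneg x)
  · have h1 : q =ᶠ[𝓝 s] fun x => x ^ 2 := by
      filter_upwards [lt_mem_nhds h] with x hx
      unfold q
      rw [max_eq_right (le_of_lt hx)]
    rw [max_eq_right h.le]
    have h2 : HasDerivAt (fun x : ℝ => x ^ 2) (2 * s) s := by simpa using hasDerivAt_pow 2 s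
    exact h2.congr_of_eventuallyEq h1

/-- a `C¹` step -/
noncomputable def S (s : ℝ) : ℝ := 2 * q s - 4 * q (s - 1 / 2) + 2 * q (s - 1)

/-- its derivative -/
noncomputable def dS (s : ℝ) : ℝ := 4 * max 0 s - 8 * max 0 (s - 1 / 2) + 4 * max 0 (s - 1)

lemma S_deriv (s : ℝ) : HasDerivAt S (dS s) s := by
  have h1 := (q_deriv s).const_mul 2
  have h2 := ((q_deriv (s - 1 / 2)).comp_sub_const s (1 / 2)).const_mul 4
  have h3 := ((q_deriv (s - 1)).comp_sub_const s 1).const_mul 2
  have h4 := (h1.sub h2).add h3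
  have e : 2 * (2 * max 0 s) - 4 * (2 * max 0 (s - 1 / 2)) + 2 * (2 * max 0 (s - 1)) = dS s := by
    unfold dS; ring
  rw [e] at h4
  exact h4

lemma dS_cont : Continuous dS := by
  unfold dS
  fun_prop

lemma S_contDiff : ContDiff ℝ 1 S := by
  rw [contDiff_one_iff_deriv]
  refine ⟨fun s => (S_deriv s).differentiableAt, ?_⟩
  have : deriv S = dS := funext fun s => (S_deriv s).deriv
  rw [this]
  exact dS_cont

lemma dS_nonneg (s : ℝ) : 0 ≤ dS s := by
  unfold dS
  rcases le_total s 0 with h | h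
  · rw [max_eq_left h, max_eq_left (by linarith), max_eq_left (by linarith)]; norm_num
  rcases le_total s (1 / 2) with h1 | h1
  · rw [max_eq_right h, max_eq_left (by linarith), max_eq_left (by linarith)]; linarith
  rcases le_total s 1 with h2 | h2
  · rw [max_eq_right h, max_eq_right (by linarith), max_eq_left (by linarith)]; linarith
  · rw [max_eq_right h, max_eq_right (by linarith), max_eq_right (by linarith)]; linarith

lemma dS_le (s : ℝ) : dS s ≤ 2 := by
  unfold dS
  rcases le_total s 0 with h | h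
  · rw [max_eq_left h, max_eq_left (by linarith), max_eq_left (by linarith)]; norm_num
  rcases le_total s (1 / 2) with h1 | h1
  · rw [max_eq_right h, max_eq_left (by linarith), max_eq_left (by linarith)]; linarith
  rcases le_total s 1 with h2 | h2
  · rw [max_eq_right h, max_eq_right (by linarith), max_eq_left (by linarith)]; linarith
  · rw [max_eq_right h, max_eq_right (by linarith), max_eq_right (by linarith)]; linarith

lemma dS_zero {s : ℝ} (h : s ≤ 0) : dS s = 0 := by
  unfold dS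
  rw [max_eq_left h, max_eq_left (by linarith), max_eq_left (by linarith)]; norm_num

lemma S_zero {s : ℝ} (h : s ≤ 0) : S s = 0 := by
  unfold S q
  rw [max_eq_left h, max_eq_left (by linarith), max_eq_left (by linarith)]; norm_num

lemma S_one {s : ℝ} (h : 1 ≤ s) : S s = 1 := by
  unfold S q
  rw [max_eq_right (by linarith), max_eq_right (by linarith), max_eq_right (by linarith)]; ring

lemma S_bd (s : ℝ) : 0 ≤ S s ∧ S s ≤ 1 := by
  rcases le_total s 0 with h | h
  · rw [S_zero h]; norm_num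
  rcases le_total 1 s with h2 | h2
  · rw [S_one h2]; norm_num
  unfold S q
  rcases le_total s (1 / 2) with h1 | h1
  · rw [max_eq_right h, max_eq_left (by linarith), max_eq_left (by linarith)]
    constructor <;> nlinarith
  · rw [max_eq_right h, max_eq_right (by linarith), max_eq_left (by linarith)]
    constructor <;> nlinarith


section line

variable {d : ℕ}

lemma ins_add (i : Fin (d + 1)) (s a : ℝ) (y : Fin d → ℝ) :
    ins i (s + a) y = ins i s y + a • (bs i : E (d + 1)) := by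
  ext j
  rcases eq_or_ne j i with h | h
  · subst h
    simp [ins, bs]
  · obtain ⟨j', rfl⟩ := Fin.exists_succAbove_eq h
    simp [ins, bs]

/-- integral of the derivative of the step along a line -/
lemma line_int {F : E (d + 1) → ℝ} (hF : ContDiff ℝ 2 F) {x' e : E (d + 1)} (h0 : F x' = 0)
    {σ L T ε : ℝ} (hL : 1 ≤ L) (hε : 0 < ε) (hT : T = 2 * L * ε)
    (hd : ∀ τ ∈ Icc 0 T, 1 / L ≤ σ * fderiv ℝ F (x' + (σ * τ) • e) e) :
    Continuous (fun τ : ℝ => dS (F (x' + (σ * τ) • e) / ε - 1) / ε *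
      (σ * fderiv ℝ F (x' + (σ * τ) • e) e)) ∧
    ∫ τ in (0 : ℝ)..T, dS (F (x' + (σ * τ) • e) / ε - 1) / ε *
      (σ * fderiv ℝ F (x' + (σ * τ) • e) e) = 1 := by
  have hT0 : 0 < T := by rw [hT]; positivity
  have hcurve : Continuous (fun τ : ℝ => x' + (σ * τ) • e) := by fun_prop
  have hc1 : Continuous (fun τ : ℝ => fderiv ℝ F (x' + (σ * τ) • e) e) :=
    ((hF.continuous_fderiv (by norm_num)).comp hcurve).clm_apply continuous_const
  have hc0 : Continuous (fun τ : ℝ => F (x' + (σ * τ) • e)) := hF.continuous.comp hcurve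
  have hc : Continuous (fun τ : ℝ => dS (F (x' + (σ * τ) • e) / ε - 1) / ε *
      (σ * fderiv ℝ F (x' + (σ * τ) • e) e)) := by
    refine Continuous.mul (Continuous.div_const (dS_cont.comp ?_) ε) (hc1.const_mul σ |>.congr ?_)
    · exact (hc0.div_const ε).sub continuous_const
    · intro τ; rfl
  have hG : ∀ τ : ℝ, HasDerivAt (fun τ : ℝ => F (x' + (σ * τ) • e))
      (σ * fderiv ℝ F (x' + (σ * τ) • e) e) τ := by
    intro τ
    have h1 : HasDerivAt (fun τ : ℝ => x' + (σ * τ) • e) (σ • e) τ := by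
      have h2 : HasDerivAt (fun τ : ℝ => σ * τ) σ τ := by
        simpa using (hasDerivAt_id τ).const_mul σ
      exact (h2.smul_const e).const_add x'
    have h3 := (hF.differentiable (by norm_num) (x' + (σ * τ) • e)).hasFDerivAt.comp_hasDerivAt τ h1
    have h4 : fderiv ℝ F (x' + (σ * τ) • e) (σ • e) = σ * fderiv ℝ F (x' + (σ * τ) • e) e := by
      rw [map_smul, smul_eq_mul]
    rw [h4] at h3
    exact h3
  have hK : ∀ τ : ℝ, HasDerivAt (fun τ : ℝ => S (F (x' + (σ * τ) • e) / ε - 1))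
      (dS (F (x' + (σ * τ) • e) / ε - 1) / ε * (σ * fderiv ℝ F (x' + (σ * τ) • e) e)) τ := by
    intro τ
    have h1 := ((hG τ).div_const ε).sub_const 1
    have h2 := (S_deriv (F (x' + (σ * τ) • e) / ε - 1)).comp τ h1
    have e1 : dS (F (x' + (σ * τ) • e) / ε - 1) * (σ * fderiv ℝ F (x' + (σ * τ) • e) e / ε) =
        dS (F (x' + (σ * τ) • e) / ε - 1) / ε * (σ * fderiv ℝ F (x' + (σ * τ) • e) e) := by ring
    rw [e1] at h2
    exact h2
  refine ⟨hc, ?_⟩
  rw [intervalIntegral.integral_eq_sub_of_hasDerivAt (fun τ _ => hK τ)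
    (hc.intervalIntegrable 0 T)]
  have hmv : 1 / L * (T - 0) ≤ F (x' + (σ * T) • e) - F (x' + (σ * 0) • e) := by
    refine (convex_Icc (0 : ℝ) T).mul_sub_le_image_sub_of_le_deriv (f := fun τ : ℝ =>
      F (x' + (σ * τ) • e)) hc0.continuousOn (fun τ _ => (hG τ).differentiableAt.differentiableWithinAt)
      ?_ 0 (left_mem_Icc.2 hT0.le) T (right_mem_Icc.2 hT0.le) hT0.le
    intro τ hτ
    rw [(hG τ).deriv]
    exact hd τ (interior_subset hτ)
  have h00 : x' + (σ * 0) • e = x' := by simp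
  rw [h00, h0] at hmv ⊢
  have hL0 : 0 < L := by linarith
  have h5 : 2 * ε ≤ F (x' + (σ * T) • e) := by
    have : 1 / L * (T - 0) = 2 * ε := by rw [hT]; field_simp; ring
    linarith
  rw [S_one, S_zero]
  · norm_num
  · simp
  · rw [le_sub_iff_add_le, le_div_iff₀ hε]
    linarith

end line

section aux

variable {m : ℕ}

lemma cont_mul {D : Set (E m)} (hD : IsOpen D) {z g : E m → ℝ} (hz : ContinuousOn z D)
    (hg : Continuous g) (hs : tsupport g ⊆ D) : Continuous (fun x => z x * g x) := by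
  rw [continuous_iff_continuousAt]
  intro x
  by_cases hx : x ∈ D
  · exact (hz.continuousAt (hD.mem_nhds hx)).mul hg.continuousAt
  · have h1 : x ∉ tsupport g := fun h => hx (hs h)
    have h2 : g =ᶠ[𝓝 x] 0 := notMem_tsupport_iff_eventuallyEq.1 h1
    have h3 : (fun x => z x * g x) =ᶠ[𝓝 x] fun _ => 0 := by
      filter_upwards [h2] with y hy
      rw [hy]; simp
    exact continuousAt_const.congr h3.symm

/-- cut off -/
noncomputable def eta (p : E m) (r : ℝ) (x : E m) : ℝ := S (4 / 3 - 16 / 3 * (‖x - p‖ ^ 2 / r ^ 2))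

lemma eta_contDiff (p : E m) (r : ℝ) : ContDiff ℝ 1 (eta p r) := by
  unfold eta
  refine ContDiff.comp (g := S) (f := fun x : E m => 4 / 3 - 16 / 3 * (‖x - p‖ ^ 2 / r ^ 2))
    S_contDiff ?_
  refine contDiff_const.sub (contDiff_const.mul (ContDiff.div_const ?_ _))
  exact (contDiff_id.sub contDiff_const).norm_sq ℝ

lemma eta_fderiv (p : E m) (r : ℝ) (x v : E m) : fderiv ℝ (eta p r) x v =
    dS (4 / 3 - 16 / 3 * (‖x - p‖ ^ 2 / r ^ 2)) * (-(32 / 3 / r ^ 2 * inner ℝ (x - p) v)) := by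
  have h1 : HasFDerivAt (fun x : E m => x - p) (ContinuousLinearMap.id ℝ (E m)) x :=
    (hasFDerivAt_id x).sub_const p
  have h2 := h1.norm_sq
  have h3 := ((h2.mul_const (1 / r ^ 2)).const_mul (16 / 3)).const_sub (4 / 3)
  have h4 : HasDerivAt S (dS (4 / 3 - 16 / 3 * (‖x - p‖ ^ 2 * (1 / r ^ 2))))
      (4 / 3 - 16 / 3 * (‖x - p‖ ^ 2 * (1 / r ^ 2))) := S_deriv _
  have h5 := h4.comp_hasFDerivAt x h3
  have e : eta p r = S ∘ fun x : E m => 4 / 3 - 16 / 3 * (‖x - p‖ ^ 2 * (1 / r ^ 2)) := by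
    funext y
    simp only [eta, Function.comp]
    rw [mul_one_div]
  rw [e, h5.fderiv]
  simp only [smul_apply, neg_apply, smul_eq_mul,
    ContinuousLinearMap.comp_apply, innerSL_apply_apply, ContinuousLinearMap.id_apply]
  rw [mul_one_div]
  ring

lemma eta_bd (p : E m) (r : ℝ) (x : E m) : 0 ≤ eta p r x ∧ eta p r x ≤ 1 := S_bd _

lemma eta_one {p : E m} {r : ℝ} (hr : 0 < r) {x : E m} (h : ‖x - p‖ ≤ r / 4) :
    eta p r x = 1 := by
  refine S_one ?_
  have h1 : ‖x - p‖ ^ 2 / r ^ 2 ≤ 1 / 16 := by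
    rw [div_le_iff₀ (by positivity)]
    have := mul_self_le_mul_self (norm_nonneg _) h
    nlinarith
  linarith

lemma eta_arg {p : E m} {r : ℝ} (hr : 0 < r) {x : E m} (h : r / 2 ≤ ‖x - p‖) :
    4 / 3 - 16 / 3 * (‖x - p‖ ^ 2 / r ^ 2) ≤ 0 := by
  have h1 : 1 / 4 ≤ ‖x - p‖ ^ 2 / r ^ 2 := by
    rw [le_div_iff₀ (by positivity)]
    have := mul_self_le_mul_self (by positivity) h
    nlinarith
  linarith

lemma eta_zero {p : E m} {r : ℝ} (hr : 0 < r) {x : E m} (h : r / 2 ≤ ‖x - p‖) :
    eta p r x = 0 := S_zero (eta_arg hr h)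

lemma eta_fzero {p : E m} {r : ℝ} (hr : 0 < r) {x : E m} (h : r / 2 ≤ ‖x - p‖) (v : E m) :
    fderiv ℝ (eta p r) x v = 0 := by
  rw [eta_fderiv, dS_zero (eta_arg hr h), zero_mul]

lemma eta_fd {p : E m} {r : ℝ} (hr : 0 < r) (x v : E m) (hv : ‖v‖ ≤ 1) :
    |fderiv ℝ (eta p r) x v| ≤ 11 / r := by
  rcases le_total (r / 2) ‖x - p‖ with h | h
  · rw [eta_fzero hr h, abs_zero]; positivity
  rw [eta_fderiv, abs_mul, abs_neg, abs_mul, abs_of_nonneg (dS_nonneg _),
    abs_of_pos (show 0 < 32 / 3 / r ^ 2 by positivity)]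
  have h1 : |inner ℝ (x - p) v| ≤ r / 2 := by
    calc |inner ℝ (x - p) v| ≤ ‖x - p‖ * ‖v‖ := abs_real_inner_le_norm _ _
      _ ≤ r / 2 * 1 := mul_le_mul h hv (norm_nonneg _) (by positivity)
      _ = r / 2 := mul_one _
  calc dS (4 / 3 - 16 / 3 * (‖x - p‖ ^ 2 / r ^ 2)) * (32 / 3 / r ^ 2 * |inner ℝ (x - p) v|)
      ≤ 2 * (32 / 3 / r ^ 2 * (r / 2)) := by
        refine mul_le_mul (dS_le _) ?_ (by positivity) (by norm_num)
        exact mul_le_mul_of_nonneg_left h1 (by positivity)
    _ = 32 / 3 / r := by field_simp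
    _ ≤ 11 / r := by
        apply div_le_div_of_nonneg_right _ hr.le
        norm_num

/-- layer cut off -/
noncomputable def kap (F : E m → ℝ) (ε : ℝ) (x : E m) : ℝ := S (F x / ε - 1)

lemma kap_contDiff {F : E m → ℝ} (hF : ContDiff ℝ 2 F) (ε : ℝ) : ContDiff ℝ 1 (kap F ε) := by
  unfold kap
  refine ContDiff.comp (g := S) (f := fun x : E m => F x / ε - 1) S_contDiff ?_
  exact ((hF.of_le (by norm_num)).div_const ε).sub contDiff_const

lemma kap_fderiv {F : E m → ℝ} (hF : ContDiff ℝ 2 F) (ε : ℝ) (x v : E m) :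
    fderiv ℝ (kap F ε) x v = dS (F x / ε - 1) / ε * fderiv ℝ F x v := by
  have h1 := ((hF.differentiable (by norm_num) x).hasFDerivAt.mul_const (1 / ε)).sub_const 1
  have h4 : HasDerivAt S (dS (F x * (1 / ε) - 1)) (F x * (1 / ε) - 1) := S_deriv _
  have h5 := h4.comp_hasFDerivAt x h1
  have e : kap F ε = S ∘ fun x : E m => F x * (1 / ε) - 1 := by
    funext y
    simp only [kap, Function.comp]
    rw [mul_one_div]
  rw [e, h5.fderiv]
  simp only [smul_apply, smul_eq_mul]
  rw [mul_one_div]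
  ring

lemma kap_bd (F : E m → ℝ) (ε : ℝ) (x : E m) : 0 ≤ kap F ε x ∧ kap F ε x ≤ 1 := S_bd _

lemma kap_arg {F : E m → ℝ} {ε : ℝ} (hε : 0 < ε) {x : E m} (h : F x ≤ ε) : F x / ε - 1 ≤ 0 := by
  have : F x / ε ≤ 1 := by rw [div_le_one hε]; exact h
  linarith

/-- the constant sign of the derivative -/
lemma sgn {F φ : E m → ℝ} {p : E m} {R L : ℝ} {i : Fin m} (G : Geo F φ p R L i) :
    ∃ σ : ℝ, (σ = 1 ∨ σ = -1) ∧ ∀ x ∈ ball p R, 1 / L ≤ σ * fderiv ℝ F x (bs i) := by
  have hL0 : 0 < L := by linarith [G.hL]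
  have hp : p ∈ ball p R := mem_ball_self G.hR
  have hpre : IsPreconnected (ball p R) := (convex_ball p R).isPreconnected
  have hc : Continuous (fun x => fderiv ℝ F x (bs i)) :=
    (G.cF.continuous_fderiv (by norm_num)).clm_apply continuous_const
  have hne : ∀ x ∈ ball p R, fderiv ℝ F x (bs i) ≠ 0 := by
    intro x hx h0
    have := G.di x hx
    rw [h0, abs_zero, mul_zero] at this
    linarith
  have hab : ∀ x ∈ ball p R, 1 / L ≤ |fderiv ℝ F x (bs i)| := by
    intro x hx
    rw [div_le_iff₀ hL0]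
    linarith [G.di x hx]
  rcases lt_or_gt_of_ne (hne p hp) with h | h
  · refine ⟨-1, Or.inr rfl, fun x hx => ?_⟩
    have h1 : fderiv ℝ F x (bs i) < 0 := by
      by_contra h2
      obtain ⟨y, hy, hy2⟩ := hpre.intermediate_value hp hx hc.continuousOn
        (⟨h.le, not_lt.1 h2⟩ : (0 : ℝ) ∈ Icc _ _)
      exact hne y hy hy2
    have := hab x hx
    rw [abs_of_neg h1] at this
    linarith
  · refine ⟨1, Or.inl rfl, fun x hx => ?_⟩
    have h1 : 0 < fderiv ℝ F x (bs i) := by
      by_contra h2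
      obtain ⟨y, hy, hy2⟩ := hpre.intermediate_value hx hp hc.continuousOn
        (⟨not_lt.1 h2, h.le⟩ : (0 : ℝ) ∈ Icc _ _)
      exact hne y hy hy2
    have := hab x hx
    rw [abs_of_pos h1] at this
    linarith

lemma young_lim {I V Q : ℝ} (hV : 0 ≤ V) (hQ : 0 ≤ Q)
    (h : ∀ l > 0, I ≤ l * V / 2 + Q / (2 * l)) : I ≤ Real.sqrt V * Real.sqrt Q := by
  have hsV := Real.sqrt_nonneg V
  have hsQ := Real.sqrt_nonneg Q
  have eV := Real.sq_sqrt hV
  have eQ := Real.sq_sqrt hQ
  set a := Real.sqrt V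
  set b := Real.sqrt Q
  refine le_of_forall_pos_le_add fun e he => ?_
  obtain ⟨δ, hδ, hδe⟩ : ∃ δ > 0, δ * (a + b) / 2 ≤ e := by
    refine ⟨e / (a + b + 1), by positivity, ?_⟩
    rw [div_mul_eq_mul_div, div_div, div_le_iff₀ (by positivity)]
    nlinarith
  have h1 := h ((b + δ) / (a + δ)) (by positivity)
  have h2 : (b + δ) / (a + δ) * V / 2 ≤ (b + δ) * a / 2 := by
    rw [← eV, div_mul_eq_mul_div, div_div, div_le_div_iff₀ (by positivity) (by norm_num)]
    have : (b + δ) * a ^ 2 ≤ (b + δ) * a * (a + δ) := by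
      have : 0 ≤ (b + δ) * a * δ := by positivity
      nlinarith
    nlinarith
  have h3 : Q / (2 * ((b + δ) / (a + δ))) ≤ b * (a + δ) / 2 := by
    rw [← eQ, div_le_div_iff₀ (by positivity) (by norm_num)]
    have e1 : b * (a + δ) * (2 * ((b + δ) / (a + δ))) = 2 * (b * (b + δ)) := by
      field_simp
    rw [e1]
    have : 0 ≤ b * δ := by positivity
    nlinarith
  nlinarith

lemma delta_lim {t X B : ℝ} (ht : 0 < t) (h : ∀ δ > 0, δ < t → (t - δ) * X ≤ B) :
    t * X ≤ B := by
  by_contra hc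
  push Not at hc
  rcases le_total X 0 with hX | hX
  · have := h (t / 2) (by positivity) (by linarith)
    nlinarith
  · rcases hX.eq_or_lt with h0 | h0
    · have := h (t / 2) (by positivity) (by linarith)
      rw [← h0] at this hc
      simp at this hc
      linarith
    have hd : 0 < min (t / 2) ((t * X - B) / (2 * X)) := by
      refine lt_min (by positivity) (div_pos (by linarith) (by positivity))
    have h1 := h _ hd (lt_of_le_of_lt (min_le_left _ _) (by linarith))
    have h2 : min (t / 2) ((t * X - B) / (2 * X)) * X ≤ (t * X - B) / 2 := by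
      calc min (t / 2) ((t * X - B) / (2 * X)) * X ≤ (t * X - B) / (2 * X) * X :=
            mul_le_mul_of_nonneg_right (min_le_right _ _) hX
        _ = (t * X - B) / 2 := by field_simp
    nlinarith

end aux

section upper

variable {m : ℕ}

/-- the compact set that contains the supports -/
def Ke (F : E m → ℝ) (p : E m) (r ε : ℝ) : Set (E m) := {x | ‖x - p‖ ≤ r / 2 ∧ ε ≤ F x}

lemma Ke_closed {F : E m → ℝ} (hF : Continuous F) (p : E m) (r ε : ℝ) : IsClosed (Ke F p r ε) := by
  have h1 : IsClosed {x : E m | ‖x - p‖ ≤ r / 2} := isClosed_le (by fun_prop) continuous_const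
  have h2 : IsClosed {x : E m | ε ≤ F x} := isClosed_le continuous_const hF
  exact h1.inter h2

lemma Ke_compact {F : E m → ℝ} (hF : Continuous F) (p : E m) (r ε : ℝ) :
    IsCompact (Ke F p r ε) := by
  refine (isCompact_closedBall p (r / 2)).of_isClosed_subset (Ke_closed hF p r ε) ?_
  intro x hx
  rw [mem_closedBall, dist_eq_norm]
  exact hx.1

lemma supp_mul {F : E m → ℝ} (hF : Continuous F) {p : E m} {r ε : ℝ} {f g : E m → ℝ}
    (hf : ∀ x, r / 2 ≤ ‖x - p‖ → f x = 0) (hg : ∀ x, F x ≤ ε → g x = 0) :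
    tsupport (fun x => f x * g x) ⊆ Ke F p r ε := by
  refine closure_minimal ?_ (Ke_closed hF p r ε)
  intro x hx
  rw [Function.mem_support] at hx
  refine ⟨?_, ?_⟩
  · by_contra h
    push Not at h
    exact hx (by rw [hf x h.le, zero_mul])
  · by_contra h
    push Not at h
    exact hx (by rw [hg x h.le, mul_zero])

variable {F φ : E m → ℝ} {p : E m} {R L : ℝ} {i : Fin m}

lemma D_open (hF : Continuous F) : IsOpen (Sd F (ball p R)) :=
  isOpen_ball.inter (isOpen_lt continuous_const hF)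

lemma Ke_sub {r ε : ℝ} (hr : 0 < r) (hrR : 8 * r ≤ R) (hε : 0 < ε) :
    Ke F p r ε ⊆ Sd F (ball p R) := by
  intro x hx
  refine ⟨?_, lt_of_lt_of_le hε hx.2⟩
  rw [mem_ball, dist_eq_norm]
  linarith [hx.1]

lemma g1_cont (hF : ContDiff ℝ 2 F) (v : E m) (σ ε r : ℝ) : Continuous (fun x =>
    eta p r x * (dS (F x / ε - 1) / ε * (σ * fderiv ℝ F x v))) := by
  have h1 : Continuous (fun x => fderiv ℝ F x v) :=
    (hF.continuous_fderiv (by norm_num)).clm_apply continuous_const
  have h2 : Continuous (fun x => dS (F x / ε - 1)) :=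
    dS_cont.comp ((hF.continuous.div_const ε).sub continuous_const)
  exact (eta_contDiff p r).continuous.mul ((h2.div_const ε).mul (continuous_const.mul h1))

lemma g2_cont (hF : ContDiff ℝ 2 F) (v : E m) (ε r : ℝ) : Continuous (fun x =>
    fderiv ℝ (eta p r) x v * kap F ε x) := by
  have h1 : Continuous (fun x => fderiv ℝ (eta p r) x v) :=
    ((eta_contDiff p r).continuous_fderiv (by norm_num)).clm_apply continuous_const
  exact h1.mul (kap_contDiff hF ε).continuous

lemma upper (hWPP : Stmt_WPP) (G : Geo F φ p R L i) {z : E m → ℝ} {dz : E m → E m}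
    (hz : PT F (ball p R) z dz) {t r h : ℝ} (ht : 0 < t)
    (hzb : ∀ x ∈ Sc F (ball p R), 0 ≤ z x ∧ z x ≤ t) (hr : 0 < r) (hrR : 8 * r ≤ R)
    (hz0 : ∀ x ∈ Sd F (ball p R), ‖x - p‖ < r → h ≤ F x → z x = 0) {ε : ℝ} (hε : 0 < ε)
    {σ : ℝ} (hσ : σ = 1 ∨ σ = -1) (hfin : volume {x | x ∈ ball p r ∧ |F x| < h} < ⊤)
    {l : ℝ} (hl : 0 < l) :
    ∫ x, z x * (eta p r x * (dS (F x / ε - 1) / ε * (σ * fderiv ℝ F x (bs i)))) ≤
      t * (11 / r) * (volume {x | x ∈ ball p r ∧ |F x| < h}).toReal +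
        (l * (volume {x | x ∈ ball p r ∧ |F x| < h}).toReal / 2 +
          (∫ x in Sd F (ball p R), ‖dz x‖ ^ 2) / (2 * l)) := by
  have hF := G.cF
  have hFc := hF.continuous
  have hDo : IsOpen (Sd F (ball p R)) := D_open hFc
  have hKs : Ke F p r ε ⊆ Sd F (ball p R) := Ke_sub hr hrR hε
  have hKc : IsCompact (Ke F p r ε) := Ke_compact hFc p r ε
  have hbs : ‖(bs i : E m)‖ ≤ 1 := by simp [bs]
  -- the supports
  have s0 : tsupport (fun x => eta p r x * kap F ε x) ⊆ Ke F p r ε :=
    supp_mul hFc (fun x hx => eta_zero hr hx) (fun x hx => S_zero (kap_arg hε hx))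
  have s1 : tsupport (fun x => eta p r x * (dS (F x / ε - 1) / ε *
      (σ * fderiv ℝ F x (bs i)))) ⊆ Ke F p r ε := by
    refine supp_mul hFc (fun x hx => eta_zero hr hx) (fun x hx => ?_)
    rw [dS_zero (kap_arg hε hx), zero_div, zero_mul]
  have s2 : tsupport (fun x => fderiv ℝ (eta p r) x (bs i) * kap F ε x) ⊆ Ke F p r ε :=
    supp_mul hFc (fun x hx => eta_fzero hr hx _) (fun x hx => S_zero (kap_arg hε hx))
  have c1 := g1_cont (p := p) hF (bs i) σ ε r
  have c2 := g2_cont (p := p) hF (bs i) ε r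
  have i1 : Integrable (fun x => z x * (eta p r x * (dS (F x / ε - 1) / ε *
      (σ * fderiv ℝ F x (bs i))))) := by
    refine (cont_mul hDo hz.wg.cont c1 (s1.trans hKs)).integrable_of_hasCompactSupport ?_
    exact HasCompactSupport.mul_left (hKc.of_isClosed_subset (isClosed_tsupport _) s1)
  have i2 : Integrable (fun x => z x * (fderiv ℝ (eta p r) x (bs i) * kap F ε x)) := by
    refine (cont_mul hDo hz.wg.cont c2 (s2.trans hKs)).integrable_of_hasCompactSupport ?_
    exact HasCompactSupport.mul_left (hKc.of_isClosed_subset (isClosed_tsupport _) s2)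
  -- integration by parts
  have cd : ContDiff ℝ 1 (fun x => eta p r x * kap F ε x) :=
    (eta_contDiff p r).mul (kap_contDiff hF ε)
  have hib := hz.wg.ibp (fun x => eta p r x * kap F ε x) cd
    (hKc.of_isClosed_subset (isClosed_tsupport _) s0) (s0.trans hKs) (bs i)
  have hfd : ∀ x, fderiv ℝ (fun x => eta p r x * kap F ε x) x (bs i) =
      fderiv ℝ (eta p r) x (bs i) * kap F ε x +
      eta p r x * (dS (F x / ε - 1) / ε * fderiv ℝ F x (bs i)) := by
    intro x
    have a1 := ((eta_contDiff p r).differentiable (by norm_num) x).hasFDerivAt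
    have a2 := ((kap_contDiff hF ε).differentiable (by norm_num) x).hasFDerivAt
    have a3 := a1.mul a2
    have a4 : fderiv ℝ (fun x => eta p r x * kap F ε x) x = _ := a3.fderiv
    rw [a4]
    simp only [add_apply, smul_apply, smul_eq_mul]
    rw [kap_fderiv hF]
    ring
  have hσσ : σ * σ = 1 := by rcases hσ with h | h <;> rw [h] <;> norm_num
  have hσa : |σ| = 1 := by rcases hσ with h | h <;> rw [h] <;> norm_num
  have e1 : ∫ x, z x * (eta p r x * (dS (F x / ε - 1) / ε * (σ * fderiv ℝ F x (bs i)))) =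
      σ * (-∫ x, inner ℝ (dz x) (bs i) * (eta p r x * kap F ε x)) -
      σ * ∫ x, z x * (fderiv ℝ (eta p r) x (bs i) * kap F ε x) := by
    rw [← hib]
    have i3 : Integrable (fun x => z x * fderiv ℝ (fun x => eta p r x * kap F ε x) x (bs i)) := by
      have := i2.add (i1.const_mul σ)
      refine this.congr (Eventually.of_forall fun x => ?_)
      simp only [Pi.add_apply]
      rw [hfd]
      linear_combination (z x * eta p r x * (dS (F x / ε - 1) / ε) * fderiv ℝ F x (bs i)) * hσσ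
    rw [← integral_const_mul, ← integral_const_mul, ← integral_sub (i3.const_mul σ)
      (i2.const_mul σ)]
    refine integral_congr_ae (Eventually.of_forall fun x => ?_)
    simp only
    rw [hfd]
    ring
  have hKo : IsOpen {x | x ∈ ball p r ∧ |F x| < h} :=
    isOpen_ball.inter (isOpen_lt hFc.abs continuous_const)
  have hKD : ∀ x ∈ Ke F p r ε, (h ≤ F x ∧ z x = 0) ∨ x ∈ {x | x ∈ ball p r ∧ |F x| < h} := by
    intro x hx
    have hxr : ‖x - p‖ < r := by linarith [hx.1]
    rcases le_or_gt h (F x) with h1 | h1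
    · exact Or.inl ⟨h1, hz0 x (hKs hx) hxr h1⟩
    · right
      refine ⟨by rw [mem_ball, dist_eq_norm]; exact hxr, ?_⟩
      rw [abs_of_pos (lt_of_lt_of_le hε hx.2)]
      exact h1
  generalize hK' : {x | x ∈ ball p r ∧ |F x| < h} = K' at *
  have hKm : MeasurableSet K' := hKo.measurableSet
  have hic : ∀ c : ℝ, Integrable (K'.indicator fun _ => c) ∧
      ∫ x, K'.indicator (fun _ => c) x = c * (volume K').toReal := by
    intro c
    refine ⟨(integrable_indicator_iff hKm).2 (integrableOn_const hfin.ne), ?_⟩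
    rw [integral_indicator_const c hKm, smul_eq_mul, mul_comm]
    rfl
  have b1 : |∫ x, inner ℝ (dz x) (bs i) * (eta p r x * kap F ε x)| ≤
      l * (volume K').toReal / 2 + (∫ x in Sd F (ball p R), ‖dz x‖ ^ 2) / (2 * l) := by
    have hi := hic (l / 2)
    have hj : Integrable ((Sd F (ball p R)).indicator fun x => ‖dz x‖ ^ 2 / (2 * l)) :=
      (integrable_indicator_iff hDo.measurableSet).2 (hz.en.div_const _)
    have hb := norm_integral_le_of_norm_le (f := fun x => inner ℝ (dz x) (bs i) *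
      (eta p r x * kap F ε x)) (hi.1.add hj) ?_
    · rw [Real.norm_eq_abs] at hb
      refine hb.trans (le_of_eq ?_)
      rw [integral_add' hi.1 hj, hi.2, integral_indicator hDo.measurableSet,
        integral_div]
      ring
    · filter_upwards [(hWPP m _ z dz hDo hz.wg).2] with x hx
      simp only [Pi.add_apply]
      have n1 : 0 ≤ K'.indicator (fun _ => l / 2) x := indicator_nonneg (fun _ _ => by positivity) x
      have n2 : 0 ≤ (Sd F (ball p R)).indicator (fun x => ‖dz x‖ ^ 2 / (2 * l)) x :=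
        indicator_nonneg (fun _ _ => by positivity) x
      by_cases hxK : x ∈ Ke F p r ε
      · have hxD := hKs hxK
        rcases hKD x hxK with h1 | h1
        · rw [hx hxD h1.2, inner_zero_left, zero_mul, norm_zero]
          exact add_nonneg n1 n2
        · rw [indicator_of_mem h1, indicator_of_mem hxD, norm_mul, norm_mul]
          have q1 : ‖(inner ℝ (dz x) (bs i) : ℝ)‖ ≤ ‖dz x‖ := by
            calc ‖(inner ℝ (dz x) (bs i) : ℝ)‖ ≤ ‖dz x‖ * ‖(bs i : E m)‖ := norm_inner_le_norm _ _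
              _ ≤ ‖dz x‖ * 1 := mul_le_mul_of_nonneg_left hbs (norm_nonneg _)
              _ = ‖dz x‖ := mul_one _
          have q2 : ‖eta p r x‖ * ‖kap F ε x‖ ≤ 1 := by
            rw [Real.norm_of_nonneg (eta_bd p r x).1, Real.norm_of_nonneg (kap_bd F ε x).1]
            exact mul_le_one₀ (eta_bd p r x).2 (kap_bd F ε x).1 (kap_bd F ε x).2
          calc ‖(inner ℝ (dz x) (bs i) : ℝ)‖ * (‖eta p r x‖ * ‖kap F ε x‖) ≤ ‖dz x‖ * 1 :=
                mul_le_mul q1 q2 (by positivity) (norm_nonneg _)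
            _ ≤ l / 2 + ‖dz x‖ ^ 2 / (2 * l) := by
                have e2 : l / 2 + ‖dz x‖ ^ 2 / (2 * l) - ‖dz x‖ = (l - ‖dz x‖) ^ 2 / (2 * l) := by
                  field_simp
                  ring
                have : 0 ≤ (l - ‖dz x‖) ^ 2 / (2 * l) := by positivity
                linarith
      · have h0 : eta p r x * kap F ε x = 0 := by
          have := image_eq_zero_of_notMem_tsupport (f := fun x => eta p r x * kap F ε x)
            (fun h => hxK (s0 h))
          exact this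
        rw [h0, mul_zero, norm_zero]
        exact add_nonneg n1 n2
  have b2 : |∫ x, z x * (fderiv ℝ (eta p r) x (bs i) * kap F ε x)| ≤
      t * (11 / r) * (volume K').toReal := by
    have hi := hic (t * (11 / r))
    have hb := norm_integral_le_of_norm_le (f := fun x => z x *
      (fderiv ℝ (eta p r) x (bs i) * kap F ε x)) hi.1 ?_
    · rw [Real.norm_eq_abs, hi.2] at hb
      exact hb
    · refine Eventually.of_forall fun x => ?_
      have n1 : 0 ≤ K'.indicator (fun _ => t * (11 / r)) x :=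
        indicator_nonneg (fun _ _ => by positivity) x
      by_cases hxK : x ∈ Ke F p r ε
      · have hxD := hKs hxK
        rcases hKD x hxK with h1 | h1
        · rw [h1.2, zero_mul, norm_zero]
          exact n1
        · rw [indicator_of_mem h1, norm_mul, norm_mul, Real.norm_of_nonneg (kap_bd F ε x).1]
          have q0 := hzb x ⟨hxD.1, hxD.2.le⟩
          rw [Real.norm_of_nonneg q0.1, Real.norm_eq_abs]
          have q1 := eta_fd hr x (bs i) hbs (p := p)
          refine mul_le_mul q0.2 ?_ (mul_nonneg (abs_nonneg _) (kap_bd F ε x).1) ht.le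
          calc |fderiv ℝ (eta p r) x (bs i)| * kap F ε x ≤ 11 / r * 1 :=
                mul_le_mul q1 (kap_bd F ε x).2 (kap_bd F ε x).1 (by positivity)
            _ = 11 / r := mul_one _
      · have h0 : fderiv ℝ (eta p r) x (bs i) * kap F ε x = 0 := by
          have := image_eq_zero_of_notMem_tsupport
            (f := fun x => fderiv ℝ (eta p r) x (bs i) * kap F ε x) (fun h => hxK (s2 h))
          exact this
        rw [h0, mul_zero, norm_zero]
        exact n1
  rw [e1]
  have f1 : σ * (-∫ x, inner ℝ (dz x) (bs i) * (eta p r x * kap F ε x)) ≤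
      |∫ x, inner ℝ (dz x) (bs i) * (eta p r x * kap F ε x)| := by
    refine (le_abs_self _).trans (le_of_eq ?_)
    rw [abs_mul, hσa, abs_neg, one_mul]
  have f2 : -(σ * ∫ x, z x * (fderiv ℝ (eta p r) x (bs i) * kap F ε x)) ≤
      |∫ x, z x * (fderiv ℝ (eta p r) x (bs i) * kap F ε x)| := by
    refine (le_abs_self _).trans (le_of_eq ?_)
    rw [abs_neg, abs_mul, hσa, one_mul]
  linarith

end upper

section lower

variable {d : ℕ}

lemma lint_line (f : ℝ → ℝ≥0∞) {σ : ℝ} (hσ : σ = 1 ∨ σ = -1) (c : ℝ) :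
    ∫⁻ s, f s = ∫⁻ τ, f (c + σ * τ) := by
  rcases hσ with h | h
  · subst h
    simp only [one_mul]
    exact (lintegral_add_left_eq_self f c).symm
  · subst h
    have : ∀ τ : ℝ, c + -1 * τ = c - τ := fun τ => by ring
    simp only [this]
    exact (lintegral_sub_left_eq_self f c).symm

variable {F φ : E (d + 1) → ℝ} {p : E (d + 1)} {R L : ℝ} {i : Fin (d + 1)}

lemma line_low (hFUB : Stmt_FUB) (G : Geo F φ p R L i) {Z : Set (E (d + 1))}
    (hZ : ∀ x ∈ Z, x ∈ ball p R ∧ F x = 0) {z : E (d + 1) → ℝ} {t r : ℝ} (hr : 0 < r)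
    (hrR : 8 * r ≤ R) (hZt : ∀ x ∈ Z, ‖x - p‖ < r → z x = t)
    {δ ρ : ℝ} (hδt : δ < t)
    (hu : ∀ x y : E (d + 1), ‖x - p‖ ≤ r → 0 ≤ F x → ‖y - p‖ ≤ r → 0 ≤ F y → ‖x - y‖ < ρ →
      |z x - z y| < δ)
    {σ : ℝ} (hσ : σ = 1 ∨ σ = -1) (hσF : ∀ x ∈ ball p R, 1 / L ≤ σ * fderiv ℝ F x (bs i))
    {ε : ℝ} (hε : 0 < ε) (hε1 : 2 * L * ε < ρ) (hε2 : 2 * L * ε < r / 20) (y : Fin d → ℝ)
    (hy : y ∈ pj i '' Z ∩ closedBall (pj i p) (1 / (20 * L * (d + 1)) * r)) :
    ENNReal.ofReal (t - δ) ≤ ∫⁻ s, ENNReal.ofReal (z (ins i s y) * (eta p r (ins i s y) *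
      (dS (F (ins i s y) / ε - 1) / ε * (σ * fderiv ℝ F (ins i s y) (bs i))))) := by
  obtain ⟨⟨x', hx'Z, rfl⟩, hyb⟩ := hy
  have hL0 : 0 < L := by linarith [G.hL]
  obtain ⟨hxB, hx0⟩ := hZ x' hx'Z
  have hF4 := ((hFUB d i).2.2.2.2 F φ p R L G).2.2.2 x' hxB hx0
  have hxp : ‖x' - p‖ ≤ r / 5 := by
    refine hF4.trans ?_
    rw [mem_closedBall] at hyb
    calc 4 * L * (d + 1) * dist (pj i x') (pj i p) ≤
          4 * L * (d + 1) * (1 / (20 * L * (d + 1)) * r) :=
          mul_le_mul_of_nonneg_left hyb (by positivity)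
      _ = r / 5 := by
          have : (0 : ℝ) < d + 1 := by positivity
          field_simp
          ring
  have hzx : z x' = t := hZt x' hx'Z (by linarith)
  rw [lint_line (fun s => ENNReal.ofReal (z (ins i s (pj i x')) * (eta p r (ins i s (pj i x')) *
      (dS (F (ins i s (pj i x')) / ε - 1) / ε *
        (σ * fderiv ℝ F (ins i s (pj i x')) (bs i)))))) hσ (x' i)]
  have hins : ∀ τ : ℝ, ins i (x' i + σ * τ) (pj i x') = x' + (σ * τ) • (bs i : E (d + 1)) := by
    intro τ
    rw [ins_add, (hFUB d i).2.1]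
  simp only [hins]
  have hσa : |σ| = 1 := by rcases hσ with h | h <;> rw [h] <;> norm_num
  have hnb : ∀ τ : ℝ, 0 ≤ τ → ‖(σ * τ) • (bs i : E (d + 1))‖ = τ := by
    intro τ hτ
    rw [norm_smul, Real.norm_eq_abs, abs_mul, hσa, one_mul, abs_of_nonneg hτ]
    simp [bs]
  have hnear : ∀ τ ∈ Icc 0 (2 * L * ε), ‖x' + (σ * τ) • (bs i : E (d + 1)) - p‖ ≤ r / 4 := by
    intro τ hτ
    calc ‖x' + (σ * τ) • (bs i : E (d + 1)) - p‖ = ‖(x' - p) + (σ * τ) • (bs i : E (d + 1))‖ := by
          congr 1; abel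
      _ ≤ ‖x' - p‖ + ‖(σ * τ) • (bs i : E (d + 1))‖ := norm_add_le _ _
      _ ≤ r / 5 + r / 20 := by
          rw [hnb τ hτ.1]
          exact add_le_add hxp (hτ.2.trans hε2.le)
      _ = r / 4 := by ring
  have hball : ∀ τ ∈ Icc 0 (2 * L * ε), x' + (σ * τ) • (bs i : E (d + 1)) ∈ ball p R := by
    intro τ hτ
    rw [mem_ball, dist_eq_norm]
    linarith [hnear τ hτ]
  obtain ⟨hc, hI⟩ := line_int (σ := σ) (e := bs i) G.cF hx0 G.hL hε rfl
    (fun τ hτ => hσF _ (hball τ hτ))
  have hT0 : 0 ≤ 2 * L * ε := by positivity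
  rw [intervalIntegral.integral_of_le hT0] at hI
  calc ENNReal.ofReal (t - δ) = ENNReal.ofReal (∫ τ in Ioc 0 (2 * L * ε), (t - δ) *
        (dS (F (x' + (σ * τ) • (bs i : E (d + 1))) / ε - 1) / ε *
          (σ * fderiv ℝ F (x' + (σ * τ) • (bs i : E (d + 1))) (bs i)))) := by
        rw [integral_const_mul, hI, mul_one]
    _ = ∫⁻ τ in Ioc 0 (2 * L * ε), ENNReal.ofReal ((t - δ) *
        (dS (F (x' + (σ * τ) • (bs i : E (d + 1))) / ε - 1) / ε *
          (σ * fderiv ℝ F (x' + (σ * τ) • (bs i : E (d + 1))) (bs i)))) := by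
        refine ofReal_integral_eq_lintegral_ofReal ?_ ?_
        · exact ((continuous_const.mul hc).integrableOn_Icc).mono_set Ioc_subset_Icc_self
        · refine (ae_restrict_iff' measurableSet_Ioc).2 (Eventually.of_forall fun τ hτ => ?_)
          have h1 : 0 ≤ σ * fderiv ℝ F (x' + (σ * τ) • (bs i : E (d + 1))) (bs i) :=
            le_trans (by positivity) (hσF _ (hball τ (Ioc_subset_Icc_self hτ)))
          have h2 := dS_nonneg (F (x' + (σ * τ) • (bs i : E (d + 1))) / ε - 1)
          have h3 : 0 < t - δ := by linarith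
          simp only [Pi.zero_apply]
          positivity
    _ ≤ ∫⁻ τ in Ioc 0 (2 * L * ε), ENNReal.ofReal (z (x' + (σ * τ) • (bs i : E (d + 1))) *
        (eta p r (x' + (σ * τ) • (bs i : E (d + 1))) *
        (dS (F (x' + (σ * τ) • (bs i : E (d + 1))) / ε - 1) / ε *
          (σ * fderiv ℝ F (x' + (σ * τ) • (bs i : E (d + 1))) (bs i))))) := by
        refine setLIntegral_mono' measurableSet_Ioc fun τ hτ => ENNReal.ofReal_le_ofReal ?_
        have hτ' := Ioc_subset_Icc_self hτ
        set x := x' + (σ * τ) • (bs i : E (d + 1)) with hx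
        have h1 : 0 ≤ σ * fderiv ℝ F x (bs i) :=
          le_trans (by positivity) (hσF _ (hball τ hτ'))
        rcases le_or_gt (F x) 0 with h0 | h0
        · rw [dS_zero (kap_arg hε (by linarith))]
          simp
        · rw [eta_one hr (hnear τ hτ'), one_mul]
          refine mul_le_mul_of_nonneg_right ?_ (by have := dS_nonneg (F x / ε - 1); positivity)
          have h2 := hu x' x (by linarith) hx0.ge (by linarith [hnear τ hτ']) h0.le ?_
          · rw [hzx, abs_lt] at h2
            linarith [h2.2]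
          · have : x' - x = -((σ * τ) • (bs i : E (d + 1))) := by rw [hx]; abel
            rw [this, norm_neg, hnb τ hτ'.1]
            exact lt_of_le_of_lt hτ'.2 hε1
    _ ≤ _ := setLIntegral_le_lintegral _ _

lemma lower (hFUB : Stmt_FUB) (G : Geo F φ p R L i) {Z : Set (E (d + 1))}
    (hZ : ∀ x ∈ Z, x ∈ ball p R ∧ F x = 0) {z : E (d + 1) → ℝ} {dz : E (d + 1) → E (d + 1)}
    (hz : PT F (ball p R) z dz) {t r : ℝ}
    (hzb : ∀ x ∈ Sc F (ball p R), 0 ≤ z x ∧ z x ≤ t) (hr : 0 < r)
    (hrR : 8 * r ≤ R) (hZt : ∀ x ∈ Z, ‖x - p‖ < r → z x = t)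
    {δ ρ : ℝ} (hδt : δ < t)
    (hu : ∀ x y : E (d + 1), ‖x - p‖ ≤ r → 0 ≤ F x → ‖y - p‖ ≤ r → 0 ≤ F y → ‖x - y‖ < ρ →
      |z x - z y| < δ)
    {σ : ℝ} (hσ : σ = 1 ∨ σ = -1) (hσF : ∀ x ∈ ball p R, 1 / L ≤ σ * fderiv ℝ F x (bs i))
    {ε : ℝ} (hε : 0 < ε) (hε1 : 2 * L * ε < ρ) (hε2 : 2 * L * ε < r / 20) :
    (t - δ) * ((2 * (1 / (20 * L * (d + 1)) * r)) ^ d - bad i Z p r) ≤
      ∫ x, z x * (eta p r x * (dS (F x / ε - 1) / ε * (σ * fderiv ℝ F x (bs i)))) := by
  have hL0 : 0 < L := by linarith [G.hL]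
  have hF := G.cF
  have hFc := hF.continuous
  have hDo : IsOpen (Sd F (ball p R)) := D_open hFc
  have hKs : Ke F p r ε ⊆ Sd F (ball p R) := Ke_sub hr hrR hε
  have hKc : IsCompact (Ke F p r ε) := Ke_compact hFc p r ε
  have s1 : tsupport (fun x => eta p r x * (dS (F x / ε - 1) / ε *
      (σ * fderiv ℝ F x (bs i)))) ⊆ Ke F p r ε := by
    refine supp_mul hFc (fun x hx => eta_zero hr hx) (fun x hx => ?_)
    rw [dS_zero (kap_arg hε hx), zero_div, zero_mul]
  have c1 := g1_cont (p := p) hF (bs i) σ ε r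
  have cA := cont_mul hDo hz.wg.cont c1 (s1.trans hKs)
  have i1 : Integrable (fun x => z x * (eta p r x * (dS (F x / ε - 1) / ε *
      (σ * fderiv ℝ F x (bs i))))) := by
    refine cA.integrable_of_hasCompactSupport ?_
    exact HasCompactSupport.mul_left (hKc.of_isClosed_subset (isClosed_tsupport _) s1)
  have hnn : ∀ x, 0 ≤ z x * (eta p r x * (dS (F x / ε - 1) / ε *
      (σ * fderiv ℝ F x (bs i)))) := by
    intro x
    by_cases hx : x ∈ Ke F p r ε
    · have hxD := hKs hx
      have q0 := hzb x ⟨hxD.1, hxD.2.le⟩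
      have q1 := hσF x hxD.1
      have q2 : 0 ≤ σ * fderiv ℝ F x (bs i) := le_trans (by positivity) q1
      have q3 := (eta_bd p r x).1
      have q4 := dS_nonneg (F x / ε - 1)
      exact mul_nonneg q0.1 (mul_nonneg q3 (mul_nonneg (div_nonneg q4 hε.le) q2))
    · have := image_eq_zero_of_notMem_tsupport (f := fun x => eta p r x *
        (dS (F x / ε - 1) / ε * (σ * fderiv ℝ F x (bs i)))) (fun h => hx (s1 h))
      have h9 : eta p r x * (dS (F x / ε - 1) / ε * (σ * fderiv ℝ F x (bs i))) = 0 := this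
      rw [h9, mul_zero]
  have hlow := line_low hFUB G hZ hr hrR hZt hδt hu hσ hσF hε hε1 hε2
  generalize hA : (fun x => z x * (eta p r x * (dS (F x / ε - 1) / ε *
      (σ * fderiv ℝ F x (bs i))))) = A at cA i1
  have hA' : ∀ x, z x * (eta p r x * (dS (F x / ε - 1) / ε *
      (σ * fderiv ℝ F x (bs i)))) = A x := fun x => congrFun hA x
  simp only [hA'] at hnn hlow ⊢
  have hmA : Measurable (fun x => ENNReal.ofReal (A x)) := cA.measurable.ennreal_ofReal
  have e1 : ENNReal.ofReal (∫ x, A x) = ∫⁻ y : Fin d → ℝ, ∫⁻ s : ℝ,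
      ENNReal.ofReal (A (ins i s y)) := by
    rw [ofReal_integral_eq_lintegral_ofReal i1 (Eventually.of_forall hnn)]
    exact (hFUB d i).1 _ hmA
  have hinsm : Measurable (fun q : (Fin d → ℝ) × ℝ => ins i q.2 q.1) := by
    have : Continuous (fun q : (Fin d → ℝ) × ℝ => ins i q.2 q.1) := by
      unfold ins
      refine (PiLp.continuous_toLp 2 _).comp ?_
      exact Continuous.finInsertNth i continuous_snd continuous_fst
    exact this.measurable
  have hH : Measurable (fun y : Fin d → ℝ => ∫⁻ s : ℝ, ENNReal.ofReal (A (ins i s y))) := by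
    have : Measurable (fun q : (Fin d → ℝ) × ℝ => ENNReal.ofReal (A (ins i q.2 q.1))) :=
      hmA.comp hinsm
    exact this.lintegral_prod_right'
  set κr := 1 / (20 * L * (d + 1)) * r with hκ
  have hκ0 : 0 < κr := by positivity
  have hκr : κr ≤ r := by
    rw [hκ]
    have : 1 / (20 * L * (d + 1)) ≤ 1 := by
      rw [div_le_one (by positivity)]
      have h1 := G.hL
      have h2 : (0 : ℝ) ≤ d := by positivity
      nlinarith [mul_nonneg hL0.le h2]
    nlinarith
  have hmk := mul_meas_ge_le_lintegral (μ := volume) hH (ENNReal.ofReal (t - δ))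
  rw [← e1] at hmk
  generalize hM : {y : Fin d → ℝ | ENNReal.ofReal (t - δ) ≤
    ∫⁻ s : ℝ, ENNReal.ofReal (A (ins i s y))} = M at hmk
  have hsub : pj i '' Z ∩ closedBall (pj i p) κr ⊆ M := by
    intro y hy
    rw [← hM]
    exact hlow y hy
  have htd : 0 < t - δ := by linarith
  have hpos : ENNReal.ofReal (t - δ) ≠ 0 := by
    rw [ne_eq, ENNReal.ofReal_eq_zero]; linarith
  have hMfin : volume M ≠ ⊤ := by
    intro h
    rw [h, ENNReal.mul_top hpos] at hmk
    exact absurd (lt_of_le_of_lt hmk ENNReal.ofReal_lt_top) (lt_irrefl _)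
  have hvol : volume (closedBall (pj i p) κr) = ENNReal.ofReal ((2 * κr) ^ d) := by
    rw [Real.volume_pi_closedBall _ hκ0.le]
    simp
  have hbfin : volume (closedBall (pj i p) r \ pj i '' Z) ≠ ⊤ :=
    ne_top_of_le_ne_top (measure_closedBall_lt_top (x := pj i p) (r := r)).ne
      (measure_mono sdiff_subset)
  have hle : ENNReal.ofReal ((2 * κr) ^ d) ≤ volume M +
      volume (closedBall (pj i p) r \ pj i '' Z) := by
    rw [← hvol]
    refine (measure_mono (?_ : closedBall (pj i p) κr ⊆ M ∪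
      (closedBall (pj i p) r \ pj i '' Z))).trans (measure_union_le _ _)
    intro y hy
    by_cases hyZ : y ∈ pj i '' Z
    · exact Or.inl (hsub ⟨hyZ, hy⟩)
    · exact Or.inr ⟨closedBall_subset_closedBall hκr hy, hyZ⟩
  have hle' : (2 * κr) ^ d ≤ (volume M).toReal + bad i Z p r := by
    have := ENNReal.toReal_mono (ENNReal.add_ne_top.2 ⟨hMfin, hbfin⟩) hle
    rw [ENNReal.toReal_ofReal (by positivity), ENNReal.toReal_add hMfin hbfin] at this
    exact this
  have hmk' : (t - δ) * (volume M).toReal ≤ ∫ x, A x := by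
    have := ENNReal.toReal_mono ENNReal.ofReal_ne_top hmk
    rw [ENNReal.toReal_mul, ENNReal.toReal_ofReal htd.le,
      ENNReal.toReal_ofReal (integral_nonneg hnn)] at this
    exact this
  refine le_trans ?_ hmk'
  exact mul_le_mul_of_nonneg_left (by linarith) htd.le

end lower

end VLB_

theorem vlb_proof (_hWBA : Stmt_WBA) (hWPP : Stmt_WPP) (_hLPC : Stmt_LPC) (_hGEF : Stmt_GEF)
    (hFUB : Stmt_FUB) : Stmt_VLB := by
  intro d
  refine ⟨(1 / (10 * (d + 1))) ^ d, by positivity, 11 * 2 ^ (d + 1), by positivity, ?_⟩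
  intro F φ p R L i Z z dz t r h G hZ hz ht hzb hr hrR hZt hh hhr hz0
  have hL := G.hL
  have hL0 : 0 < L := by linarith
  obtain ⟨σ, hσ, hσF⟩ := VLB_.sgn G
  have hvK := ((hFUB d i).2.2.2.2 F φ p R L G).2.2.1 r h hr (by linarith) hh
  have hfin : volume {x | x ∈ ball p r ∧ |F x| < h} < ⊤ :=
    lt_of_le_of_lt hvK ENNReal.ofReal_lt_top
  have hV : (volume {x | x ∈ ball p r ∧ |F x| < h}).toReal ≤ 2 * L * h * (2 * r) ^ d := by
    have := ENNReal.toReal_mono ENNReal.ofReal_ne_top hvK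
    rwa [ENNReal.toReal_ofReal (by positivity)] at this
  have hup := fun (ε : ℝ) (hε : 0 < ε) (l : ℝ) (hl : 0 < l) =>
    VLB_.upper hWPP G hz ht hzb hr hrR hz0 hε hσ hfin hl
  have hV0 : 0 ≤ (volume {x | x ∈ ball p r ∧ |F x| < h}).toReal := ENNReal.toReal_nonneg
  generalize (volume {x | x ∈ ball p r ∧ |F x| < h}).toReal = V at hV hup hV0
  have hQ0 : 0 ≤ ∫ x in Sd F (ball p R), ‖dz x‖ ^ 2 := integral_nonneg fun _ => by positivity
  generalize (∫ x in Sd F (ball p R), ‖dz x‖ ^ 2) = Q at hup hQ0 ⊢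
  -- main inequality
  have hmain : t * ((2 * (1 / (20 * L * (d + 1)) * r)) ^ d - bad i Z p r) ≤
      t * (11 / r) * V + Real.sqrt V * Real.sqrt Q := by
    have h1 : t * ((2 * (1 / (20 * L * (d + 1)) * r)) ^ d - bad i Z p r) - t * (11 / r) * V ≤
        Real.sqrt V * Real.sqrt Q := by
      refine VLB_.young_lim hV0 hQ0 fun l hl => ?_
      rw [sub_le_iff_le_add]
      refine VLB_.delta_lim ht fun δ hδ hδt => ?_
      -- uniform continuity
      have hKc : IsCompact (closedBall p r ∩ {x | 0 ≤ F x}) :=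
        (isCompact_closedBall p r).inter_right (isClosed_le continuous_const G.cF.continuous)
      have hKs : closedBall p r ∩ {x | 0 ≤ F x} ⊆ Sc F (ball p R) := by
        intro x hx
        refine ⟨?_, hx.2⟩
        have := hx.1
        rw [mem_closedBall] at this
        rw [mem_ball]
        linarith
      have huc := hKc.uniformContinuousOn_of_continuous (hz.cont.mono hKs)
      obtain ⟨ρ, hρ, hρu⟩ := Metric.uniformContinuousOn_iff.1 huc δ hδ
      obtain ⟨ε, hε, hε1, hε2⟩ : ∃ ε > 0, 2 * L * ε < ρ ∧ 2 * L * ε < r / 20 := by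
        refine ⟨min ρ (r / 20) / (4 * L), by positivity, ?_⟩
        have e : 2 * L * (min ρ (r / 20) / (4 * L)) = min ρ (r / 20) / 2 := by
          field_simp
          ring
        rw [e]
        have h2 : 0 < min ρ (r / 20) := by positivity
        constructor
        · linarith [min_le_left ρ (r / 20)]
        · linarith [min_le_right ρ (r / 20)]
      have hlo := VLB_.lower hFUB G hZ hz hzb hr hrR hZt hδt (ρ := ρ) (fun x y hx hx0 hy hy0 hxy => by
        have := hρu x ⟨by rwa [mem_closedBall, dist_eq_norm], hx0⟩ y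
          ⟨by rwa [mem_closedBall, dist_eq_norm], hy0⟩ (by rwa [dist_eq_norm])
        rwa [Real.dist_eq] at this) hσ hσF hε hε1 hε2
      have h3 := hup ε hε l hl
      linarith
    linarith
  -- algebra
  have e1 : (2 * (1 / (20 * L * (d + 1)) * r)) ^ d = (1 / (10 * (d + 1))) ^ d * (r / L) ^ d := by
    rw [← mul_pow]
    congr 1
    field_simp
    ring
  rw [e1] at hmain
  refine hmain.trans ?_
  have hP : (1 : ℝ) ≤ 2 ^ (d + 1) := one_le_pow₀ (by norm_num)
  have hsV : Real.sqrt V ≤ 2 ^ (d + 1) * L * Real.sqrt (h * r ^ d) := by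
    have h0 : V ≤ (2 ^ (d + 1) * L) ^ 2 * (h * r ^ d) := by
      refine hV.trans ?_
      have e2 : 2 * L * h * (2 * r) ^ d = 2 ^ (d + 1) * L * (h * r ^ d) := by
        rw [mul_pow, pow_succ]; ring
      rw [e2]
      refine mul_le_mul_of_nonneg_right ?_ (by positivity)
      have h4 : 1 ≤ 2 ^ (d + 1) * L := by nlinarith
      nlinarith
    calc Real.sqrt V ≤ Real.sqrt ((2 ^ (d + 1) * L) ^ 2 * (h * r ^ d)) := Real.sqrt_le_sqrt h0
      _ = 2 ^ (d + 1) * L * Real.sqrt (h * r ^ d) := by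
          rw [Real.sqrt_mul (by positivity), Real.sqrt_sq (by positivity)]
  have hA : t * (11 / r) * V ≤ 11 * 2 ^ (d + 1) * L ^ 2 * (t * h * r ^ d / r) := by
    calc t * (11 / r) * V ≤ t * (11 / r) * (2 * L * h * (2 * r) ^ d) :=
          mul_le_mul_of_nonneg_left hV (by positivity)
      _ = 11 * 2 ^ (d + 1) * L * (t * h * r ^ d / r) := by
          rw [mul_pow, pow_succ]; ring
      _ ≤ 11 * 2 ^ (d + 1) * L ^ 2 * (t * h * r ^ d / r) := by
          refine mul_le_mul_of_nonneg_right ?_ (by positivity)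
          refine mul_le_mul_of_nonneg_left ?_ (by positivity)
          nlinarith
  have hB : Real.sqrt V * Real.sqrt Q ≤ 11 * 2 ^ (d + 1) * L ^ 2 *
      (Real.sqrt (h * r ^ d) * Real.sqrt Q) := by
    calc Real.sqrt V * Real.sqrt Q ≤ 2 ^ (d + 1) * L * Real.sqrt (h * r ^ d) * Real.sqrt Q :=
          mul_le_mul_of_nonneg_right hsV (Real.sqrt_nonneg _)
      _ = 2 ^ (d + 1) * L * (Real.sqrt (h * r ^ d) * Real.sqrt Q) := by ring
      _ ≤ 11 * 2 ^ (d + 1) * L ^ 2 * (Real.sqrt (h * r ^ d) * Real.sqrt Q) := by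
          refine mul_le_mul_of_nonneg_right ?_ (by positivity)
          have h5 : L ≤ L ^ 2 := by nlinarith
          have h6 : (2 : ℝ) ^ (d + 1) * L ≤ 2 ^ (d + 1) * L ^ 2 :=
            mul_le_mul_of_nonneg_left h5 (by positivity)
          have h7 : (0 : ℝ) ≤ 2 ^ (d + 1) * L ^ 2 := by positivity
          linarith
  linarith

end Pool.Agent.COB
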