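import Pool.Agent.COB.Stmts

/-!
# Squad COB: module WBA (elementary rules for weak gradients)
-/

set_option autoImplicit false

namespace Pool.Agent.COB

open MeasureTheory Set Metric Filter Topology

namespace WBA_

variable {m : ℕ}

/-- a function continuous on `U` times a continuous function with compact support in `U` -/
theorem cont_mul {U : Set (E m)} (hU : IsOpen U) {f φ : E m → ℝ} (hf : ContinuousOn f U)
    (hφ : Continuous φ) (hsub : tsupport φ ⊆ U) : Continuous fun x => f x * φ x := by
  rw [continuous_iff_continuousAt]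
  intro x
  by_cases hx : x ∈ U
  · exact (hf.continuousAt (hU.mem_nhds hx)).mul hφ.continuousAt
  · have hx' : x ∉ tsupport φ := fun h => hx (hsub h)
    have hev : (fun y => f y * φ y) =ᶠ[𝓝 x] fun _ => (0 : ℝ) := by
      have h1 := notMem_tsupport_iff_eventuallyEq.1 hx'
      filter_upwards [h1] with y hy
      rw [hy]
      simp
    exact (continuousAt_const.congr hev.symm)

theorem int1 {U : Set (E m)} (hU : IsOpen U) {f φ : E m → ℝ} (hf : ContinuousOn f U)
    (hφ : Continuous φ) (hc : HasCompactSupport φ) (hsub : tsupport φ ⊆ U) :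
    Integrable fun x => f x * φ x :=
  (cont_mul hU hf hφ hsub).integrable_of_hasCompactSupport hc.mul_left

theorem fderiv_cont {η : E m → ℝ} (hη : ContDiff ℝ 1 η) (v : E m) :
    Continuous fun x => fderiv ℝ η x v :=
  (hη.continuous_fderiv one_ne_zero).clm_apply continuous_const

theorem fderiv_cs {η : E m → ℝ} (hc : HasCompactSupport η) (v : E m) :
    HasCompactSupport fun x => fderiv ℝ η x v :=
  hc.fderiv_apply (𝕜 := ℝ) v

theorem fderiv_tsup {η : E m → ℝ} (v : E m) :
    tsupport (fun x => fderiv ℝ η x v) ⊆ tsupport η :=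
  tsupport_fderiv_apply_subset ℝ v

theorem int2 {U : Set (E m)} {g : E m → E m} (hm : AEStronglyMeasurable g (volume.restrict U))
    (hl : ∀ C : Set (E m), C ⊆ U → IsCompact C → IntegrableOn (fun x => ‖g x‖ ^ 2) C)
    {η : E m → ℝ} (hη : Continuous η) (hc : HasCompactSupport η) (hsub : tsupport η ⊆ U)
    (v : E m) : Integrable fun x => inner ℝ (g x) v * η x := by
  obtain ⟨M, hM⟩ := hη.bounded_above_of_compact_support hc
  have hCc : IsCompact (tsupport η) := hc
  have hmC : AEStronglyMeasurable g (volume.restrict (tsupport η)) := hm.mono_set hsub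
  have h1 : IntegrableOn (fun x => (1 + ‖g x‖ ^ 2) * (‖v‖ * M)) (tsupport η) := by
    refine Integrable.mul_const ?_ _
    exact (integrableOn_const (hCc.measure_lt_top.ne)).add (hl _ hsub hCc)
  have h2 : IntegrableOn (fun x => inner ℝ (g x) v * η x) (tsupport η) := by
    refine Integrable.mono' h1 ?_ ?_
    · exact (hmC.inner aestronglyMeasurable_const).mul hη.aestronglyMeasurable
    · refine Eventually.of_forall fun x => ?_
      rw [norm_mul]
      have h3 : ‖inner ℝ (g x) v‖ ≤ ‖g x‖ * ‖v‖ := norm_inner_le_norm _ _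
      have h4 : ‖g x‖ ≤ 1 + ‖g x‖ ^ 2 := by nlinarith [sq_nonneg (‖g x‖ - 1), norm_nonneg (g x)]
      calc ‖inner ℝ (g x) v‖ * ‖η x‖ ≤ (‖g x‖ * ‖v‖) * M :=
            mul_le_mul h3 (hM x) (norm_nonneg _) (by positivity)
        _ = ‖g x‖ * (‖v‖ * M) := by ring
        _ ≤ (1 + ‖g x‖ ^ 2) * (‖v‖ * M) := by
            refine mul_le_mul_of_nonneg_right h4 (mul_nonneg (norm_nonneg _) ?_)
            exact le_trans (norm_nonneg _) (hM x)
  rw [IntegrableOn] at h2
  rw [← integrableOn_univ]
  refine IntegrableOn.of_forall_sdiff_eq_zero h2 MeasurableSet.univ ?_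
  rintro x ⟨_, hx⟩
  rw [image_eq_zero_of_notMem_tsupport hx, mul_zero]

theorem w_mono {U V : Set (E m)} {f : E m → ℝ} {g : E m → E m} (hVU : V ⊆ U) (h : HasWG U f g) :
    HasWG V f g where
  cont := h.cont.mono hVU
  meas := h.meas.mono_set hVU
  loc C hC hCc := h.loc C (hC.trans hVU) hCc
  ibp η h1 h2 h3 v := h.ibp η h1 h2 (h3.trans hVU) v

theorem w_add {U : Set (E m)} (hU : IsOpen U) {f h : E m → ℝ} {df dh : E m → E m}
    (hf : HasWG U f df) (hh : HasWG U h dh) :
    HasWG U (fun x => f x + h x) (fun x => df x + dh x) where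
  cont := hf.cont.add hh.cont
  meas := hf.meas.add hh.meas
  loc C hC hCc := by
    have h1 := (hf.loc C hC hCc).const_mul 2
    have h2 := (hh.loc C hC hCc).const_mul 2
    refine Integrable.mono' (h1.add h2) ?_ ?_
    · exact ((hf.meas.mono_set hC).add (hh.meas.mono_set hC)).norm.pow 2
    · refine Eventually.of_forall fun x => ?_
      rw [Real.norm_of_nonneg (by positivity)]
      have h3 : ‖df x + dh x‖ ≤ ‖df x‖ + ‖dh x‖ := norm_add_le _ _
      have h4 : ‖df x + dh x‖ ^ 2 ≤ (‖df x‖ + ‖dh x‖) ^ 2 :=
        pow_le_pow_left₀ (norm_nonneg _) h3 2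
      simp only [Pi.add_apply]
      nlinarith [sq_nonneg (‖df x‖ - ‖dh x‖)]
  ibp η h1 h2 h3 v := by
    have hc := fderiv_cont h1 v
    have hs := fderiv_cs h2 v
    have ht := (fderiv_tsup (η := η) v).trans h3
    have i1 := int1 hU hf.cont hc hs ht
    have i2 := int1 hU hh.cont hc hs ht
    have i3 := int2 hf.meas hf.loc h1.continuous h2 h3 v
    have i4 := int2 hh.meas hh.loc h1.continuous h2 h3 v
    have e1 := hf.ibp η h1 h2 h3 v
    have e2 := hh.ibp η h1 h2 h3 v
    have a1 : ∫ x, (f x + h x) * fderiv ℝ η x v =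
        ∫ x, f x * fderiv ℝ η x v + h x * fderiv ℝ η x v := by
      congr 1
      funext x
      ring
    have a2 : ∫ x, inner ℝ (df x + dh x) v * η x =
        ∫ x, inner ℝ (df x) v * η x + inner ℝ (dh x) v * η x := by
      congr 1
      funext x
      rw [inner_add_left]
      ring
    rw [a1, a2, integral_add i1 i2, integral_add i3 i4, e1, e2]
    ring

theorem w_smul {U : Set (E m)} (c : ℝ) {f : E m → ℝ} {df : E m → E m} (hf : HasWG U f df) :
    HasWG U (fun x => c * f x) (fun x => c • df x) where
  cont := continuousOn_const.mul hf.cont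
  meas := hf.meas.const_smul c
  loc C hC hCc := by
    have h1 := (hf.loc C hC hCc).const_mul (c ^ 2)
    refine h1.congr (Eventually.of_forall fun x => ?_)
    simp only
    rw [norm_smul, mul_pow, Real.norm_eq_abs, sq_abs]
  ibp η h1 h2 h3 v := by
    have e1 := hf.ibp η h1 h2 h3 v
    have a1 : ∫ x, (c * f x) * fderiv ℝ η x v = c * ∫ x, f x * fderiv ℝ η x v := by
      rw [← integral_const_mul]
      congr 1
      funext x
      ring
    have a2 : ∫ x, inner ℝ (c • df x) v * η x = c * ∫ x, inner ℝ (df x) v * η x := by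
      rw [← integral_const_mul]
      congr 1
      funext x
      rw [real_inner_smul_left]
      ring
    rw [a1, a2, e1]
    ring

theorem w_congr {U : Set (E m)} (hU : IsOpen U) {f h : E m → ℝ} {df dh : E m → E m}
    (hf : HasWG U f df) (hh : ∀ x ∈ U, h x = f x) (hd : dh =ᵐ[volume.restrict U] df) :
    HasWG U h dh where
  cont := hf.cont.congr hh
  meas := hf.meas.congr hd.symm
  loc C hC hCc := by
    refine (hf.loc C hC hCc).congr ?_
    have h1 : dh =ᵐ[volume.restrict C] df :=
      ae_mono (Measure.restrict_mono hC le_rfl) hd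
    filter_upwards [h1] with x hx
    rw [hx]
  ibp η h1 h2 h3 v := by
    have e1 := hf.ibp η h1 h2 h3 v
    have ht := (fderiv_tsup (η := η) v).trans h3
    have a1 : ∫ x, h x * fderiv ℝ η x v = ∫ x, f x * fderiv ℝ η x v := by
      congr 1
      funext x
      by_cases hx : x ∈ U
      · rw [hh x hx]
      · have h4 : fderiv ℝ η x v = 0 :=
          image_eq_zero_of_notMem_tsupport (f := fun x => fderiv ℝ η x v) fun h5 => hx (ht h5)
        rw [h4, mul_zero, mul_zero]
    have a2 : ∫ x, inner ℝ (dh x) v * η x = ∫ x, inner ℝ (df x) v * η x := by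
      refine integral_congr_ae ?_
      have h5 := (ae_restrict_iff' hU.measurableSet).1 hd
      filter_upwards [h5] with x hx
      by_cases hxU : x ∈ U
      · rw [hx hxU]
      · have h4 : η x = 0 := image_eq_zero_of_notMem_tsupport fun h5 => hxU (h3 h5)
        rw [h4, mul_zero, mul_zero]
    rw [a1, a2, e1]

theorem inner_grad (f : E m → ℝ) (x v : E m) : inner ℝ (gradient f x) v = fderiv ℝ f x v := by
  unfold gradient
  exact InnerProductSpace.toDual_symm_apply

theorem w_c1 {U : Set (E m)} (hU : IsOpen U) {f : E m → ℝ} (hf : ContDiffOn ℝ 1 f U) :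
    HasWG U f (gradient f) := by
  have hcf : ContinuousOn (fderiv ℝ f) U := hf.continuousOn_fderiv_of_isOpen hU le_rfl
  have hcg : ContinuousOn (gradient f) U := by
    unfold gradient
    exact (InnerProductSpace.toDual ℝ (E m)).symm.continuous.comp_continuousOn hcf
  have hmeas : AEStronglyMeasurable (gradient f) (volume.restrict U) :=
    hcg.aestronglyMeasurable hU.measurableSet
  have hloc : ∀ C : Set (E m), C ⊆ U → IsCompact C →
      IntegrableOn (fun x => ‖gradient f x‖ ^ 2) C := by
    intro C hC hCc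
    exact ((hcg.mono hC).norm.pow 2).integrableOn_compact hCc
  refine ⟨hf.continuousOn, hmeas, hloc, ?_⟩
  intro η h1 h2 h3 v
  have hc := fderiv_cont h1 v
  have hs := fderiv_cs h2 v
  have ht := (fderiv_tsup (η := η) v).trans h3
  have i1 := int1 hU hf.continuousOn hc hs ht
  have i3 := int2 hmeas hloc h1.continuous h2 h3 v
  have i0 := int1 hU hf.continuousOn h1.continuous h2 h3
  have hηd : Differentiable ℝ η := h1.differentiable one_ne_zero
  have hfd : ∀ x ∈ U, DifferentiableAt ℝ f x := fun x hx =>
    (hf.differentiableOn one_ne_zero).differentiableAt (hU.mem_nhds hx)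
  simp only [inner_grad] at i3 ⊢
  exact integral_mul_fderiv_eq_neg_fderiv_mul_of_integrable i3 i1 i0
    (fun x hx => hfd x (h3 hx)) (fun x _ => hηd x)

theorem w_const {U : Set (E m)} (hU : IsOpen U) (c : ℝ) :
    HasWG U (fun _ => c) (fun _ => (0 : E m)) := by
  have h1 := w_c1 hU (f := fun _ : E m => c) contDiffOn_const
  refine w_congr hU h1 (fun _ _ => rfl) (Eventually.of_forall fun x => ?_)
  unfold gradient
  simp

end WBA_

open WBA_ in
theorem wba_proof : Stmt_WBA := by
  intro m U hU
  refine ⟨fun V f g _ hVU h => w_mono hVU h, fun f h df dh hf hh => w_add hU hf hh,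
    fun c f df hf => w_smul c hf, fun f h df dh hf hh hd => w_congr hU hf hh hd,
    fun f hf => w_c1 hU hf, fun c => w_const hU c⟩

end Pool.Agent.COB
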