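import Pool.Agent.COB.Stmts

/-!
# Module WCH: chain rule for weak gradients
-/

set_option autoImplicit false

namespace Pool.Agent.COB

open MeasureTheory Set Metric Filter Topology

namespace WCH_

variable {m n : ℕ}

lemma inner_grad (f : E m → ℝ) (x v : E m) : inner ℝ (gradient f x) v = fderiv ℝ f x v := by
  simp [gradient, InnerProductSpace.toDual_symm_apply]

/-- partial derivative -/
noncomputable def P (Φ : (Fin n → ℝ) → ℝ) (i : Fin n) (y : Fin n → ℝ) : ℝ :=
  fderiv ℝ Φ y (Pi.single i 1)

lemma P_cont {W : Set (Fin n → ℝ)} {Φ : (Fin n → ℝ) → ℝ} (hW : IsOpen W)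
    (hΦ : ContDiffOn ℝ 1 Φ W) (i : Fin n) : ContinuousOn (P Φ i) W := by
  have h := hΦ.continuousOn_fderiv_of_isOpen hW le_rfl
  exact h.clm_apply continuousOn_const

lemma grad_comp {W : Set (Fin n → ℝ)} {Φ : (Fin n → ℝ) → ℝ} (hW : IsOpen W)
    (hΦ : ContDiffOn ℝ 1 Φ W) (a : Fin n → E m → ℝ) (x : E m)
    (ha : ∀ i, DifferentiableAt ℝ (a i) x) (hx : (fun i => a i x) ∈ W) :
    gradient (fun z => Φ (fun i => a i z)) x
      = ∑ i, P Φ i (fun l => a l x) • gradient (a i) x := by
  apply ext_inner_right ℝ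
  intro v
  rw [inner_grad, sum_inner]
  simp only [real_inner_smul_left, inner_grad]
  have h1 : HasFDerivAt Φ (fderiv ℝ Φ (fun l => a l x)) (fun l => a l x) :=
    ((hΦ.contDiffAt (hW.mem_nhds hx)).differentiableAt (by norm_num)).hasFDerivAt
  have h2 : HasFDerivAt (fun z => fun i => a i z)
      (ContinuousLinearMap.pi fun i => fderiv ℝ (a i) x) x :=
    hasFDerivAt_pi.2 fun i => (ha i).hasFDerivAt
  have h3 : fderiv ℝ (fun z => Φ (fun i => a i z)) x =
      (fderiv ℝ Φ (fun l => a l x)).comp (ContinuousLinearMap.pi fun i => fderiv ℝ (a i) x) :=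
    (h1.comp x h2).fderiv
  rw [h3, ContinuousLinearMap.comp_apply]
  have h4 := LinearMap.pi_apply_eq_sum_univ (fderiv ℝ Φ (fun l => a l x)).toLinearMap
    (ContinuousLinearMap.pi (fun i => fderiv ℝ (a i) x) v)
  have h5 : ∀ i : Fin n, (fun j => if i = j then (1 : ℝ) else 0) = Pi.single i 1 := by
    intro i; funext j; rw [Pi.single_apply]; simp only [eq_comm]
  simp only [h5] at h4
  refine Eq.trans h4 ?_
  refine Finset.sum_congr rfl fun i _ => ?_
  simp only [ContinuousLinearMap.coe_pi', smul_eq_mul, P]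
  rw [mul_comm]
  rfl

lemma sq_sum_le (a : Fin n → E m) : ‖∑ i, a i‖ ^ 2 ≤ n * ∑ i, ‖a i‖ ^ 2 := by
  have h1 : ‖∑ i, a i‖ ≤ ∑ i, ‖a i‖ := norm_sum_le _ _
  have h2 : (∑ i, ‖a i‖) ^ 2 ≤ (Finset.univ : Finset (Fin n)).card * ∑ i, ‖a i‖ ^ 2 :=
    sq_sum_le_card_mul_sum_sq
  simp only [Finset.card_univ, Fintype.card_fin] at h2
  exact (pow_le_pow_left₀ (norm_nonneg _) h1 2).trans h2

lemma two_sq (a b : E m) : ‖a + b‖ ^ 2 ≤ 2 * ‖a‖ ^ 2 + 2 * ‖b‖ ^ 2 := by
  have h := norm_add_le a b
  nlinarith [norm_nonneg (a + b), sq_nonneg (‖a‖ - ‖b‖), norm_nonneg a, norm_nonneg b]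

end WCH_

open WCH_ in
theorem wch_proof (hWBA : Stmt_WBA) (hWMO : Stmt_WMO) (hWCL : Stmt_WCL) : Stmt_WCH := by
  intro m n U u du W Φ oU oW hΦ hu huW
  have cu : ContinuousOn (fun x => fun i => u i x) U := continuousOn_pi.2 fun i => (hu i).cont
  have cP : ∀ i, ContinuousOn (fun x => P Φ i (fun l => u l x)) U := fun i =>
    (P_cont oW hΦ i).comp cu huW
  have mP : ∀ i, AEStronglyMeasurable (fun x => P Φ i (fun l => u l x)) (volume.restrict U) :=
    fun i => (cP i).aestronglyMeasurable oU.measurableSet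
  have mg : AEStronglyMeasurable (fun x => ∑ i, P Φ i (fun l => u l x) • du i x)
      (volume.restrict U) := by
    have h := Finset.aestronglyMeasurable_sum (μ := volume.restrict U) Finset.univ
      (f := fun i x => P Φ i (fun l => u l x) • du i x)
      (fun i _ => (mP i).smul (hu i).meas)
    have e : (∑ i, fun x => P Φ i (fun l => u l x) • du i x)
        = fun x => ∑ i, P Φ i (fun l => u l x) • du i x := by
      funext x; simp
    rwa [e] at h
  refine hWCL m U _ _ oU (hΦ.continuousOn.comp cu huW) mg ?_ ?_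
  · intro C hCU hC
    obtain ⟨M, hM⟩ : ∃ M : ℝ, ∀ x ∈ C, ∀ i, |P Φ i (fun l => u l x)| ≤ M := by
      obtain ⟨M, hM⟩ := hC.exists_bound_of_continuousOn
        (f := fun x => fun i => P Φ i (fun l => u l x))
        (continuousOn_pi.2 fun i => (cP i).mono hCU)
      exact ⟨M, fun x hx i => (norm_le_pi_norm (fun i => P Φ i (fun l => u l x)) i).trans (hM x hx)⟩
    have hI : IntegrableOn (fun x => n * ∑ i, M ^ 2 * ‖du i x‖ ^ 2) C :=
      Integrable.const_mul (integrable_finset_sum _ fun i _ =>
        ((hu i).loc C hCU hC).const_mul _) _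
    refine Integrable.mono' hI ?_ ?_
    · have := (mg.mono_measure (Measure.restrict_mono hCU le_rfl)).norm
      exact this.pow 2
    · refine (ae_restrict_iff' hC.measurableSet).2 (Eventually.of_forall fun x hx => ?_)
      rw [Real.norm_of_nonneg (by positivity)]
      refine (sq_sum_le _).trans ?_
      refine mul_le_mul_of_nonneg_left (Finset.sum_le_sum fun i _ => ?_) (by positivity)
      change ‖P Φ i (fun l => u l x) • du i x‖ ^ 2 ≤ _
      rw [norm_smul, mul_pow]
      refine mul_le_mul_of_nonneg_right ?_ (by positivity)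
      exact pow_le_pow_left₀ (norm_nonneg _) (hM x hx i) 2
  · intro C hCU hC ε hε
    obtain ⟨C', hC', hCC', hC'U⟩ := exists_compact_between hC oU hCU
    -- compact image
    have cI : IsCompact ((fun x => fun i => u i x) '' C') := hC'.image_of_continuousOn (cu.mono hC'U)
    have sI : (fun x => fun i => u i x) '' C' ⊆ W := by
      rintro y ⟨x, hx, rfl⟩; exact huW x (hC'U hx)
    obtain ⟨δ0, hδ0, hδW⟩ := cI.exists_cthickening_subset_open oW sI
    set KK := cthickening δ0 ((fun x => fun i => u i x) '' C') with hKK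
    have cKK : IsCompact KK := cI.cthickening
    have cQ : ContinuousOn (fun y => (Φ y, fun i => P Φ i y)) KK :=
      (hΦ.continuousOn.prodMk (continuousOn_pi.2 fun i => P_cont oW hΦ i)).mono hδW
    obtain ⟨M, hM⟩ := cKK.exists_bound_of_continuousOn cQ
    have hM0 : 0 ≤ |M| := abs_nonneg M
    have hPM : ∀ y ∈ KK, ∀ i, |P Φ i y| ≤ |M| := by
      intro y hy i
      have h1 := hM y hy
      have h2 : ‖(fun i => P Φ i y)‖ ≤ M := (norm_snd_le _).trans h1
      exact ((norm_le_pi_norm (fun i => P Φ i y) i).trans h2).trans (le_abs_self M)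
    -- constants
    set S : ℝ := ∑ i, ∫ x in C, ‖du i x‖ ^ 2 with hS
    have hS0 : 0 ≤ S := Finset.sum_nonneg fun i _ => integral_nonneg fun x => by positivity
    obtain ⟨e', he', he1, he2⟩ : ∃ e' : ℝ, 0 < e' ∧ e' ≤ ε ∧ 2 * n * (e' ^ 2 * S) ≤ ε / 2 := by
      have h0 : 0 < 4 * (n : ℝ) * S + 1 := by positivity
      refine ⟨min 1 (min ε (ε / (4 * n * S + 1))), by positivity,
        (min_le_right _ _).trans (min_le_left _ _), ?_⟩
      set e' := min 1 (min ε (ε / (4 * n * S + 1)))
      have a1 : e' ≤ 1 := min_le_left _ _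
      have a2 : e' ≤ ε / (4 * n * S + 1) := (min_le_right _ _).trans (min_le_right _ _)
      have a0 : 0 < e' := by positivity
      have a3 : e' * (4 * n * S + 1) ≤ ε := by rwa [le_div_iff₀ h0] at a2
      have a4 : e' ^ 2 ≤ e' := by nlinarith
      have a5 : 2 * n * (e' ^ 2 * S) ≤ 2 * n * (e' * S) := by gcongr
      nlinarith
    obtain ⟨δ1, hδ1, hunif⟩ := Metric.uniformContinuousOn_iff.1
      (cKK.uniformContinuousOn_of_continuous cQ) e' he'
    obtain ⟨e1, he10, he1a, he1b, he1c⟩ : ∃ e1 : ℝ, 0 < e1 ∧ e1 ≤ δ0 ∧ e1 < δ1 ∧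
        2 * n * (|M| ^ 2 * (n * e1)) ≤ ε / 2 := by
      have h0 : 0 < 4 * (n : ℝ) * (|M| ^ 2 * n) + 1 := by positivity
      refine ⟨min δ0 (min (δ1 / 2) (ε / (4 * n * (|M| ^ 2 * n) + 1))), by positivity,
        min_le_left _ _, ?_, ?_⟩
      · exact ((min_le_right _ _).trans (min_le_left _ _)).trans_lt (by linarith)
      · set e1 := min δ0 (min (δ1 / 2) (ε / (4 * n * (|M| ^ 2 * n) + 1)))
        have a2 : e1 ≤ ε / (4 * n * (|M| ^ 2 * n) + 1) :=
          (min_le_right _ _).trans (min_le_right _ _)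
        have a0 : 0 < e1 := by positivity
        have a3 : e1 * (4 * n * (|M| ^ 2 * n) + 1) ≤ ε := by rwa [le_div_iff₀ h0] at a2
        nlinarith
    choose a ha1 ha2 ha3 ha4 using fun i => hWMO m U C' (u i) (du i) oU hC'U hC' (hu i) e1 he10
    have hin : ∀ x ∈ C', (fun i => a i x) ∈ KK := by
      intro x hx
      refine mem_cthickening_of_dist_le _ (fun i => u i x) _ _ ⟨x, hx, rfl⟩ ?_
      rw [dist_pi_le_iff hδ0.le]
      intro i
      rw [Real.dist_eq]
      exact (ha2 i x hx).trans he1a
    have hinu : ∀ x ∈ C', (fun i => u i x) ∈ KK := fun x hx =>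
      self_subset_cthickening _ ⟨x, hx, rfl⟩
    have hdist : ∀ x ∈ C', dist (Φ (fun i => a i x), fun i => P Φ i (fun l => a l x))
        (Φ (fun i => u i x), fun i => P Φ i (fun l => u l x)) < e' := by
      intro x hx
      refine hunif _ (hin x hx) _ (hinu x hx) ?_
      refine lt_of_le_of_lt ?_ he1b
      rw [dist_pi_le_iff he10.le]
      intro i
      rw [Real.dist_eq]
      exact ha2 i x hx
    have hVW : ∀ x ∈ interior C', (fun i => a i x) ∈ W := fun x hx =>
      hδW (hin x (interior_subset hx))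
    have cda : ∀ i, ContDiff ℝ 1 (a i) := fun i => (ha1 i).of_le (by exact_mod_cast le_top)
    have cdf : ContDiffOn ℝ 1 (fun x => Φ fun i => a i x) (interior C') :=
      hΦ.comp (contDiffOn_pi.2 fun i => (cda i).contDiffOn) hVW
    have wg := (hWBA m (interior C') isOpen_interior).2.2.2.2.1 _ cdf
    refine ⟨interior C', _, _, isOpen_interior, hCC', interior_subset.trans hC'U, wg, ?_, ?_⟩
    · intro x hx
      have h := hdist x (interior_subset (hCC' hx))
      have h1 : dist (Φ (fun i => a i x)) (Φ (fun i => u i x)) ≤ e' :=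
        (le_max_left _ _).trans h.le
      rw [Real.dist_eq] at h1
      exact h1.trans he1
    · -- pointwise estimate
      have pw : ∀ x ∈ C, ‖gradient (fun x => Φ fun i => a i x) x
          - ∑ i, P Φ i (fun l => u l x) • du i x‖ ^ 2
          ≤ 2 * n * (|M| ^ 2 * ∑ i, ‖gradient (a i) x - du i x‖ ^ 2
            + e' ^ 2 * ∑ i, ‖du i x‖ ^ 2) := by
        intro x hx
        have hxC' := interior_subset (hCC' hx)
        rw [grad_comp oW hΦ a x (fun i => (cda i).differentiable (by norm_num) x)
          (hVW x (hCC' hx)), ← Finset.sum_sub_distrib]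
        refine (sq_sum_le _).trans ?_
        have e0 : 2 * (n : ℝ) * (|M| ^ 2 * ∑ i, ‖gradient (a i) x - du i x‖ ^ 2
            + e' ^ 2 * ∑ i, ‖du i x‖ ^ 2)
            = n * ∑ i, (2 * (|M| ^ 2 * ‖gradient (a i) x - du i x‖ ^ 2)
              + 2 * (e' ^ 2 * ‖du i x‖ ^ 2)) := by
          rw [Finset.sum_add_distrib, ← Finset.mul_sum, ← Finset.mul_sum, ← Finset.mul_sum,
            ← Finset.mul_sum]
          ring
        rw [e0]
        refine mul_le_mul_of_nonneg_left (Finset.sum_le_sum fun i _ => ?_) (by positivity)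
        have e1 : P Φ i (fun l => a l x) • gradient (a i) x - P Φ i (fun l => u l x) • du i x
            = P Φ i (fun l => a l x) • (gradient (a i) x - du i x)
              + (P Φ i (fun l => a l x) - P Φ i (fun l => u l x)) • du i x := by
          rw [smul_sub, sub_smul]; abel
        rw [e1]
        refine (two_sq _ _).trans ?_
        rw [norm_smul, norm_smul, mul_pow, mul_pow]
        have h1 : ‖P Φ i (fun l => a l x)‖ ^ 2 ≤ |M| ^ 2 :=
          pow_le_pow_left₀ (norm_nonneg _) (hPM _ (hin x hxC') i) 2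
        have h2 : ‖P Φ i (fun l => a l x) - P Φ i (fun l => u l x)‖ ^ 2 ≤ e' ^ 2 := by
          refine pow_le_pow_left₀ (norm_nonneg _) ?_ 2
          have h := hdist x hxC'
          have h3 : dist (fun i => P Φ i (fun l => a l x)) (fun i => P Φ i (fun l => u l x)) ≤ e' :=
            (le_max_right _ _).trans h.le
          have h4 := (dist_le_pi_dist (fun i => P Φ i (fun l => a l x))
            (fun i => P Φ i (fun l => u l x)) i).trans h3
          rwa [dist_eq_norm] at h4
        gcongr
      have lC : ∀ i, IntegrableOn (fun x => ‖gradient (a i) x - du i x‖ ^ 2) C := fun i =>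
        (ha3 i).mono_set (hCC'.trans interior_subset)
      have lC' : ∀ i, IntegrableOn (fun x => ‖du i x‖ ^ 2) C := fun i => (hu i).loc C hCU hC
      have hI : IntegrableOn (fun x => 2 * n * (|M| ^ 2 * ∑ i, ‖gradient (a i) x - du i x‖ ^ 2
            + e' ^ 2 * ∑ i, ‖du i x‖ ^ 2)) C :=
        (((integrable_finset_sum _ fun i _ => lC i).const_mul _).add
          ((integrable_finset_sum _ fun i _ => lC' i).const_mul _)).const_mul _
      have hmm : AEStronglyMeasurable (fun x => ‖gradient (fun x => Φ fun i => a i x) x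
          - ∑ i, P Φ i (fun l => u l x) • du i x‖ ^ 2) (volume.restrict C) := by
        have h1 := wg.meas.mono_measure (Measure.restrict_mono hCC' le_rfl)
        have h2 := mg.mono_measure (Measure.restrict_mono hCU le_rfl)
        exact (h1.sub h2).norm.pow 2
      have hI2 : IntegrableOn (fun x => ‖gradient (fun x => Φ fun i => a i x) x
          - ∑ i, P Φ i (fun l => u l x) • du i x‖ ^ 2) C := by
        refine Integrable.mono' hI hmm ?_
        refine (ae_restrict_iff' hC.measurableSet).2 (Eventually.of_forall fun x hx => ?_)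
        rw [Real.norm_of_nonneg (by positivity)]
        exact pw x hx
      refine ⟨hI2, ?_⟩
      refine (setIntegral_mono_on hI2 hI hC.measurableSet pw).trans ?_
      rw [integral_const_mul, integral_add
        ((integrable_finset_sum _ fun i _ => lC i).const_mul _)
        ((integrable_finset_sum _ fun i _ => lC' i).const_mul _),
        integral_const_mul, integral_const_mul, integral_finset_sum _ fun i _ => lC i,
        integral_finset_sum _ fun i _ => lC' i]
      have h3 : ∑ i, ∫ x in C, ‖gradient (a i) x - du i x‖ ^ 2 ≤ n * e1 := by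
        have : ∀ i ∈ (Finset.univ : Finset (Fin n)),
            ∫ x in C, ‖gradient (a i) x - du i x‖ ^ 2 ≤ e1 := by
          intro i _
          refine le_trans ?_ (ha4 i)
          exact setIntegral_mono_set (ha3 i) (Eventually.of_forall fun x => by positivity)
            (HasSubset.Subset.eventuallyLE (hCC'.trans interior_subset))
        have h4 := Finset.sum_le_card_nsmul _ _ _ this
        simpa using h4
      have h5 : 2 * (n : ℝ) * (|M| ^ 2 * ∑ i, ∫ x in C, ‖gradient (a i) x - du i x‖ ^ 2)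
          ≤ 2 * n * (|M| ^ 2 * (n * e1)) := by gcongr
      rw [mul_add]
      linarith

end Pool.Agent.COB
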