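import Pool.Agent.COB.Stmts

/-!
Squad COB, module WCL: closure of weak gradients.
-/

set_option autoImplicit false

namespace Pool.Agent.COB

open MeasureTheory Set Metric Filter Topology
open scoped ENNReal

namespace WCL_

variable {m : ℕ}

theorem intOn {U : Set (E m)} {g : E m → E m}
    (hmeas : AEStronglyMeasurable g (volume.restrict U)) (v : E m) {η : E m → ℝ}
    (hη : Continuous η) {C : Set (E m)} (hCU : C ⊆ U) (hC : IsCompact C)
    (hl : IntegrableOn (fun x => ‖g x‖ ^ 2) C) :
    IntegrableOn (fun x => inner ℝ (g x) v * η x) C := by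
  have hm : AEStronglyMeasurable g (volume.restrict C) :=
    hmeas.mono_measure (Measure.restrict_mono hCU le_rfl)
  have h1 : IntegrableOn (fun x => (1 + ‖g x‖ ^ 2) * ‖v‖) C := by
    refine Integrable.mul_const ?_ _
    refine Integrable.add ?_ hl
    exact integrableOn_const (hs := hC.measure_lt_top.ne)
  have h2 : IntegrableOn (fun x => inner ℝ (g x) v) C := by
    refine Integrable.mono' h1 ?_ ?_
    · exact hm.inner aestronglyMeasurable_const
    · refine ae_of_all _ fun x => ?_
      have h2 := abs_real_inner_le_norm (g x) v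
      rw [Real.norm_eq_abs]
      refine h2.trans ?_
      refine mul_le_mul_of_nonneg_right ?_ (norm_nonneg _)
      nlinarith [sq_nonneg (‖g x‖ - 1), norm_nonneg (g x)]
  exact h2.mul_continuousOn hη.continuousOn hC

end WCL_

open WCL_ in
theorem wcl_proof : Stmt_WCL := by
  intro m U f g hU hf hg hl happ
  refine ⟨hf, hg, hl, ?_⟩
  intro η hη hc hs v
  set C : Set (E m) := tsupport η with hCdef
  have hC : IsCompact C := hc
  have hηc : Continuous η := hη.continuous
  have hηd : Continuous (fun x => fderiv ℝ η x v) :=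
    (hη.continuous_fderiv (by norm_num)).clm_apply continuous_const
  have zd : ∀ x, x ∉ C → fderiv ℝ η x v = 0 := by
    intro x hx
    have : fderiv ℝ η x = 0 := by
      by_contra hne
      exact hx (support_fderiv_subset ℝ hne)
    rw [this]; simp
  have z0 : ∀ x, x ∉ C → η x = 0 := fun x hx => image_eq_zero_of_notMem_tsupport hx
  -- bounds
  obtain ⟨A, hA⟩ := hC.exists_bound_of_continuousOn hηd.continuousOn
  obtain ⟨M, hM⟩ := hC.exists_bound_of_continuousOn hηc.continuousOn
  have hvol : volume C < ⊤ := hC.measure_lt_top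
  set w : ℝ := (volume C).toReal with hw
  have hw0 : 0 ≤ w := ENNReal.toReal_nonneg
  -- reduce to set integrals
  have e1 : ∀ F : E m → ℝ, ∫ x, F x * fderiv ℝ η x v = ∫ x in C, F x * fderiv ℝ η x v := by
    intro F
    symm
    apply setIntegral_eq_integral_of_forall_compl_eq_zero
    intro x hx
    rw [zd x hx, mul_zero]
  have e2 : ∀ G : E m → E m, ∫ x, inner ℝ (G x) v * η x = ∫ x in C, inner ℝ (G x) v * η x := by
    intro G
    symm
    apply setIntegral_eq_integral_of_forall_compl_eq_zero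
    intro x hx
    rw [z0 x hx, mul_zero]
  have key : ∀ δ : ℝ, 0 < δ → δ ≤ 1 →
      |(∫ x in C, f x * fderiv ℝ η x v) + ∫ x in C, inner ℝ (g x) v * η x| ≤
        δ * (|A| * w + (w + 1) * (‖v‖ * |M|)) := by
    intro δ hδ hδ1
    obtain ⟨V, Φ, Ψ, hV, hCV, hVU, hW, hΦ, hΨi, hΨ⟩ :=
      happ C hs hC (δ ^ 2) (by positivity)
    have hi := hW.ibp η hη hc hCV v
    rw [e1, e2] at hi
    have i1 : IntegrableOn (fun x => f x * fderiv ℝ η x v) C :=
      ((hf.mono hs).mul hηd.continuousOn).integrableOn_compact hC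
    have i2 : IntegrableOn (fun x => Φ x * fderiv ℝ η x v) C :=
      ((hW.cont.mono hCV).mul hηd.continuousOn).integrableOn_compact hC
    have i3 : IntegrableOn (fun x => inner ℝ (g x) v * η x) C :=
      intOn hg v hηc hs hC (hl C hs hC)
    have i4 : IntegrableOn (fun x => inner ℝ (Ψ x) v * η x) C :=
      intOn hW.meas v hηc hCV hC (hW.loc C hCV hC)
    have e3 : (∫ x in C, f x * fderiv ℝ η x v) + ∫ x in C, inner ℝ (g x) v * η x =
        (∫ x in C, (f x * fderiv ℝ η x v - Φ x * fderiv ℝ η x v)) +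
          ∫ x in C, (inner ℝ (g x) v * η x - inner ℝ (Ψ x) v * η x) := by
      rw [integral_sub i1 i2, integral_sub i3 i4]
      linarith
    have b1 : |∫ x in C, (f x * fderiv ℝ η x v - Φ x * fderiv ℝ η x v)| ≤ δ ^ 2 * |A| * w := by
      rw [← Real.norm_eq_abs]
      have h5 : ‖∫ x in C, (f x * fderiv ℝ η x v - Φ x * fderiv ℝ η x v)‖ ≤
          (δ ^ 2 * |A|) * volume.real C := by
        apply norm_setIntegral_le_of_norm_le_const hvol
        intro x hx
        rw [← sub_mul, norm_mul]
        refine mul_le_mul ?_ ((hA x hx).trans (le_abs_self A)) (norm_nonneg _) (by positivity)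
        rw [Real.norm_eq_abs, abs_sub_comm]
        exact hΦ x hx
      simpa [Measure.real, hw] using h5
    have b2 : |∫ x in C, (inner ℝ (g x) v * η x - inner ℝ (Ψ x) v * η x)| ≤
        (δ * w + δ) * (‖v‖ * |M|) := by
      rw [← Real.norm_eq_abs]
      have hb : IntegrableOn (fun x => (δ + δ⁻¹ * ‖Ψ x - g x‖ ^ 2) * (‖v‖ * |M|)) C := by
        refine Integrable.mul_const ?_ _
        refine Integrable.add ?_ (hΨi.const_mul _)
        exact integrableOn_const (hs := hvol.ne)
      have h6 : ‖∫ x in C, (inner ℝ (g x) v * η x - inner ℝ (Ψ x) v * η x)‖ ≤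
          ∫ x in C, (δ + δ⁻¹ * ‖Ψ x - g x‖ ^ 2) * (‖v‖ * |M|) := by
        refine norm_integral_le_of_norm_le hb ?_
        refine (ae_restrict_iff' hC.measurableSet).2 (ae_of_all _ fun x hx => ?_)
        rw [← sub_mul, ← inner_sub_left, norm_mul]
        have h7 : ‖inner ℝ (g x - Ψ x) v‖ ≤ (δ + δ⁻¹ * ‖Ψ x - g x‖ ^ 2) * ‖v‖ := by
          refine (norm_inner_le_norm _ _).trans ?_
          refine mul_le_mul_of_nonneg_right ?_ (norm_nonneg _)
          rw [norm_sub_rev]
          set t := ‖Ψ x - g x‖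
          have h8 : δ + δ⁻¹ * t ^ 2 - t = δ⁻¹ * ((t - δ / 2) ^ 2 + 3 / 4 * δ ^ 2) := by
            field_simp
            ring
          have h9 : 0 ≤ δ⁻¹ * ((t - δ / 2) ^ 2 + 3 / 4 * δ ^ 2) := by positivity
          linarith
        calc ‖inner ℝ (g x - Ψ x) v‖ * ‖η x‖
            ≤ ((δ + δ⁻¹ * ‖Ψ x - g x‖ ^ 2) * ‖v‖) * |M| := by
              refine mul_le_mul h7 ((hM x hx).trans (le_abs_self M)) (norm_nonneg _) ?_
              positivity
          _ = (δ + δ⁻¹ * ‖Ψ x - g x‖ ^ 2) * (‖v‖ * |M|) := by ring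
      refine h6.trans ?_
      rw [integral_mul_const]
      refine mul_le_mul_of_nonneg_right ?_ (by positivity)
      have ic : IntegrableOn (fun _ : E m => δ) C := integrableOn_const (hs := hvol.ne)
      rw [integral_add ic (hΨi.const_mul _), integral_const_mul, setIntegral_const]
      have h10 : δ⁻¹ * ∫ x in C, ‖Ψ x - g x‖ ^ 2 ≤ δ := by
        calc δ⁻¹ * ∫ x in C, ‖Ψ x - g x‖ ^ 2 ≤ δ⁻¹ * δ ^ 2 :=
              mul_le_mul_of_nonneg_left hΨ (by positivity)
          _ = δ := by field_simp
      have h11 : volume.real C • δ = δ * w := by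
        simp [Measure.real, hw, mul_comm]
      rw [h11]
      linarith
    rw [e3]
    refine (abs_add_le _ _).trans ((add_le_add b1 b2).trans ?_)
    have h12 : δ ^ 2 ≤ δ := by nlinarith
    have h13 : 0 ≤ |A| * w := by positivity
    nlinarith
  rw [e1, e2]
  set I := (∫ x in C, f x * fderiv ℝ η x v) + ∫ x in C, inner ℝ (g x) v * η x with hI
  set K := |A| * w + (w + 1) * (‖v‖ * |M|) with hK
  have hK0 : 0 ≤ K := by positivity
  have hI0 : |I| = 0 := by
    by_contra hne
    have hpos : 0 < |I| := lt_of_le_of_ne (abs_nonneg _) (Ne.symm hne)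
    have h1 := key (min 1 (|I| / (2 * (K + 1)))) (by positivity) (min_le_left _ _)
    have h2 : min 1 (|I| / (2 * (K + 1))) * K ≤ |I| / (2 * (K + 1)) * K :=
      mul_le_mul_of_nonneg_right (min_le_right _ _) hK0
    have h3 : |I| / (2 * (K + 1)) * K ≤ |I| / 2 := by
      rw [div_mul_eq_mul_div, div_le_div_iff₀ (by positivity) (by norm_num)]
      nlinarith
    linarith
  have := abs_eq_zero.1 hI0
  linarith

end Pool.Agent.COB
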