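import Pool.Agent.COB.Stmts

/-!
# MP_71cfa6_an : module WCZ, squad COB
a test function with gradient zero vanishes
-/

set_option autoImplicit false

namespace Pool.Agent.COB

open MeasureTheory Set Metric Filter Topology

namespace WCZ_

variable {m : ℕ}

/-- a continuous function with compact support whose distributional derivative in the direction
of the unit vector `v` vanishes is zero -/
theorem key (f : E m → ℝ) (hf : Continuous f) (hfc : HasCompactSupport f) (v : E m)
    (hv : ‖v‖ = 1)
    (h : ∀ η : E m → ℝ, ContDiff ℝ 1 η → HasCompactSupport η → ∫ x, f x * fderiv ℝ η x v = 0) :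
    ∀ x, f x = 0 := by
  have hfi : Integrable f := hf.integrable_of_hasCompactSupport hfc
  have hall : ∀ ρ : E m → ℝ, ContDiff ℝ (⊤ : ℕ∞) ρ → HasCompactSupport ρ →
      ∫ x, ρ x • f x = 0 := by
    intro ρ hρ hρc
    have hρ1 : ContDiff ℝ 1 ρ := hρ.of_le (by exact_mod_cast le_top)
    have hρd : Differentiable ℝ ρ := hρ1.differentiable (by norm_num)
    -- derivative bound
    have hcd : Continuous (fun x => fderiv ℝ ρ x v) :=
      (hρ1.continuous_fderiv (by norm_num)).clm_apply continuous_const
    have hcs : HasCompactSupport (fun x => fderiv ℝ ρ x v) := hρc.fderiv_apply (𝕜 := ℝ) v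
    obtain ⟨M, hM⟩ := hcs.exists_bound_of_continuous hcd
    obtain ⟨M0, hM0⟩ := hρc.exists_bound_of_continuous hρ1.continuous
    -- the derivative in s of the integrand
    have hder : ∀ (x : E m) (s : ℝ), HasDerivAt (fun s : ℝ => ρ (x - s • v) * f x)
        (-(fderiv ℝ ρ (x - s • v) v) * f x) s := by
      intro x s
      have h1 : HasDerivAt (fun s : ℝ => x - s • v) (-v) s := by
        have h0 : HasDerivAt (fun s : ℝ => s • v) ((1 : ℝ) • v) s :=
          (hasDerivAt_id s).smul_const v
        simpa using h0.const_sub x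
      have h2 : HasDerivAt (fun s : ℝ => ρ (x - s • v)) (fderiv ℝ ρ (x - s • v) (-v)) s :=
        (hρd (x - s • v)).hasFDerivAt.comp_hasDerivAt s h1
      have h3 := h2.mul_const (f x)
      simpa using h3
    have hcts : ∀ s : ℝ, Continuous (fun x => ρ (x - s • v) * f x) := fun s =>
      (hρ1.continuous.comp (continuous_id.sub continuous_const)).mul hf
    have hint : ∀ s : ℝ, Integrable (fun x => ρ (x - s • v) * f x) := fun s =>
      (hcts s).integrable_of_hasCompactSupport hfc.mul_left
    have hF : ∀ s : ℝ, HasDerivAt (fun s : ℝ => ∫ x, ρ (x - s • v) * f x)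
        (∫ x, -(fderiv ℝ ρ (x - s • v) v) * f x) s := by
      intro s
      refine (hasDerivAt_integral_of_dominated_loc_of_deriv_le
        (F := fun (s : ℝ) x => ρ (x - s • v) * f x)
        (F' := fun (s : ℝ) x => -(fderiv ℝ ρ (x - s • v) v) * f x)
        (bound := fun x => M * ‖f x‖) (s := Set.univ) Filter.univ_mem ?_ (hint s) ?_ ?_ ?_ ?_).2
      · exact Filter.Eventually.of_forall (fun s => (hcts s).aestronglyMeasurable)
      · exact (((hcd.comp (continuous_id.sub continuous_const)).neg).mul hf).aestronglyMeasurable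
      · refine Filter.Eventually.of_forall (fun x s _ => ?_)
        rw [norm_mul, norm_neg]
        exact mul_le_mul_of_nonneg_right (hM _) (norm_nonneg _)
      · exact hfi.norm.const_mul M
      · exact Filter.Eventually.of_forall (fun x s _ => hder x s)
    have hF0 : ∀ s : ℝ, ∫ x, -(fderiv ℝ ρ (x - s • v) v) * f x = 0 := by
      intro s
      have h1 := h (fun x => ρ (x - s • v)) (hρ1.comp (contDiff_id.sub contDiff_const))
        (by
          have := hρc.comp_homeomorph (Homeomorph.subRight (s • v))
          simpa [Function.comp_def] using this)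
      have h2 : ∀ x, fderiv ℝ (fun x => ρ (x - s • v)) x v = fderiv ℝ ρ (x - s • v) v := by
        intro x
        rw [fderiv_comp_sub]
      have h3 : ∫ x, -(fderiv ℝ ρ (x - s • v) v) * f x =
          - ∫ x, f x * fderiv ℝ (fun x => ρ (x - s • v)) x v := by
        rw [← integral_neg]
        refine integral_congr_ae (Filter.Eventually.of_forall (fun x => ?_))
        simp only [h2]
        ring
      rw [h3, h1, neg_zero]
    have hconst : ∀ s t : ℝ, (∫ x, ρ (x - s • v) * f x) = ∫ x, ρ (x - t • v) * f x := by
      intro s t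
      exact is_const_of_deriv_eq_zero (fun s => (hF s).differentiableAt)
        (fun s => by rw [(hF s).deriv]; exact hF0 s) s t
    -- for large s the integrand vanishes
    obtain ⟨R1, hR1⟩ := hfc.isCompact.isBounded.subset_closedBall (0 : E m)
    obtain ⟨R2, hR2⟩ := hρc.isCompact.isBounded.subset_closedBall (0 : E m)
    have hzero : ∀ x, ρ (x - (|R1| + |R2| + 1) • v) * f x = 0 := by
      intro x
      by_cases hx : f x = 0
      · rw [hx, mul_zero]
      · by_cases hy : ρ (x - (|R1| + |R2| + 1) • v) = 0
        · rw [hy, zero_mul]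
        · exfalso
          have h1 : x ∈ closedBall (0 : E m) R1 := hR1 (subset_tsupport _ hx)
          have h2 : x - (|R1| + |R2| + 1) • v ∈ closedBall (0 : E m) R2 :=
            hR2 (subset_tsupport _ hy)
          rw [mem_closedBall, dist_zero_right] at h1 h2
          have h3 : ‖(|R1| + |R2| + 1) • v‖ = |R1| + |R2| + 1 := by
            rw [norm_smul, hv, mul_one, Real.norm_eq_abs, abs_of_nonneg (by positivity)]
          have h4 : ‖(|R1| + |R2| + 1) • v‖ ≤ ‖x‖ + ‖x - (|R1| + |R2| + 1) • v‖ := by
            have := norm_sub_le x (x - (|R1| + |R2| + 1) • v)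
            simpa using this
          have h5 := le_abs_self R1
          have h6 := le_abs_self R2
          linarith
    have h0 := hconst 0 (|R1| + |R2| + 1)
    have hz : (∫ x, ρ (x - (|R1| + |R2| + 1) • v) * f x) = 0 := by
      simp [hzero]
    rw [hz] at h0
    simpa [smul_eq_mul] using h0
  have hae : ∀ᵐ x : E m, f x = 0 :=
    ae_eq_zero_of_integral_contDiff_smul_eq_zero hfi.locallyIntegrable hall
  have heq : f = fun _ => (0 : ℝ) := by
    refine (Continuous.ae_eq_iff_eq (μ := (volume : Measure (E m))) hf continuous_const).mp ?_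
    exact hae
  intro x
  rw [heq]

end WCZ_

theorem wcz_proof (hWEX : Stmt_WEX) (_hWMO : Stmt_WMO) : Stmt_WCZ := by
  intro m B ξ dξ hB hm hT hd x hx
  have hw := (hWEX m B ξ dξ hB hT).2.2.2.1 Set.univ isOpen_univ (Set.subset_univ _)
  obtain ⟨C, hCB, hC, hCz⟩ := hT.cs
  have hfcont : Continuous (B.indicator ξ) := continuousOn_univ.mp hw.wg.cont
  have hfz : ∀ y, y ∉ C → B.indicator ξ y = 0 := by
    intro y hy
    by_cases hyB : y ∈ B
    · rw [Set.indicator_of_mem hyB]
      exact hCz y ⟨hyB, hy⟩
    · exact Set.indicator_of_notMem hyB _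
  have hfc : HasCompactSupport (B.indicator ξ) := HasCompactSupport.intro hC hfz
  have hg : ∀ᵐ y : E m, B.indicator dξ y = 0 := by
    filter_upwards [hd] with y hy
    by_cases hyB : y ∈ B
    · rw [Set.indicator_of_mem hyB]; exact hy hyB
    · exact Set.indicator_of_notMem hyB _
  have h := WCZ_.key (B.indicator ξ) hfcont hfc (bs (⟨0, hm⟩ : Fin m)) (by simp) (by
    intro η hη hηc
    rw [hw.wg.ibp η hη hηc (Set.subset_univ _) (bs (⟨0, hm⟩ : Fin m))]
    rw [neg_eq_zero]
    refine integral_eq_zero_of_ae ?_
    filter_upwards [hg] with y hy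
    simp [hy])
  have h2 := h x
  rwa [Set.indicator_of_mem hx] at h2

end Pool.Agent.COB
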