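import Pool.Agent.COB.Stmts

set_option autoImplicit false

namespace Pool.Agent.COB

open MeasureTheory Set Metric Filter Topology

namespace WEX_

theorem split_int {m : ℕ} {B C : Set (E m)} {F : Type*} [NormedAddCommGroup F] {f : E m → F}
    (hB : IsOpen B) (hC : IsCompact C) (hCB : C ⊆ B) (h1 : IntegrableOn f C)
    (h2 : ∀ᵐ x : E m, x ∈ B \ C → f x = 0) : IntegrableOn f B := by
  have hV : MeasurableSet (B \ C) := hB.measurableSet.diff hC.measurableSet
  have h3 : IntegrableOn f (B \ C) := by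
    have h4 : f =ᵐ[volume.restrict (B \ C)] fun _ => 0 := (ae_restrict_iff' hV).mpr h2
    exact (integrable_zero (E m) F (volume.restrict (B \ C))).congr h4.symm
  have h5 : B = C ∪ (B \ C) := (union_diff_cancel hCB).symm
  rw [h5]
  exact h1.union h3

end WEX_

theorem wex_proof (hWBA : Stmt_WBA) (hWUN : Stmt_WUN) (hWLO : Stmt_WLO) : Stmt_WEX := by
  intro m B ξ dξ hB hT
  have h3 : ∀ (C : Set (E m)), IsCompact C → C ⊆ B → (∀ x ∈ B \ C, ξ x = 0) →
      ∀ᵐ x : E m, x ∈ B \ C → dξ x = 0 := by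
    intro C hC hCB h0
    have hV : IsOpen (B \ C) := hB.sdiff hC.isClosed
    have h4 : HasWG (B \ C) ξ dξ := (hWBA m B hB).1 _ ξ dξ hV diff_subset hT.wg
    have h5 : HasWG (B \ C) (fun _ => (0 : ℝ)) (fun _ => 0) :=
      (hWBA m (B \ C) hV).2.2.2.2.2 0
    have h6 := hWUN m (B \ C) ξ _ dξ _ hV h4 h5 h0
    exact (ae_restrict_iff' hV.measurableSet).mp h6
  obtain ⟨C, hCB, hC, hC0⟩ := hT.cs
  have h7 := h3 C hC hCB hC0
  refine ⟨?_, ?_, h3, ?_, ?_⟩
  · refine WEX_.split_int hB hC hCB (hT.wg.loc C hCB hC) ?_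
    filter_upwards [h7] with x hx hxB
    rw [hx hxB]; simp
  · refine WEX_.split_int hB hC hCB ((hT.wg.cont.mono hCB).integrableOn_compact hC) ?_
    exact Eventually.of_forall fun x hx => hC0 x hx
  · intro U hU hBU
    have hz : ∀ x ∈ U \ C, B.indicator ξ x = 0 := by
      intro x hx
      by_cases hxB : x ∈ B
      · rw [indicator_of_mem hxB]; exact hC0 x ⟨hxB, hx.2⟩
      · rw [indicator_of_notMem hxB]
    refine ⟨hWLO m U _ _ hU fun x hx => ?_, C, hCB.trans hBU, hC, hz⟩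
    by_cases hxB : x ∈ B
    · refine ⟨B, hB, hxB, hBU, ?_⟩
      refine (hWBA m B hB).2.2.2.1 ξ _ dξ _ hT.wg (fun y hy => indicator_of_mem hy _) ?_
      rw [Filter.EventuallyEq, ae_restrict_iff' hB.measurableSet]
      exact Eventually.of_forall fun y hy => indicator_of_mem hy _
    · have hV : IsOpen (U \ C) := hU.sdiff hC.isClosed
      refine ⟨U \ C, hV, ⟨hx, fun h => hxB (hCB h)⟩, diff_subset, ?_⟩
      refine (hWBA m (U \ C) hV).2.2.2.1 (fun _ => 0) _ (fun _ => 0) _
        ((hWBA m (U \ C) hV).2.2.2.2.2 0) hz ?_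
      rw [Filter.EventuallyEq, ae_restrict_iff' hV.measurableSet]
      filter_upwards [h7] with y hy hyU
      by_cases hyB : y ∈ B
      · rw [indicator_of_mem hyB]; exact hy ⟨hyB, hyU.2⟩
      · rw [indicator_of_notMem hyB]
  · intro f g hf
    refine WEX_.split_int hB hC hCB ?_ ?_
    · have hg : AEStronglyMeasurable g (volume.restrict C) :=
        hf.meas.mono_measure (Measure.restrict_mono hCB le_rfl)
      have hd : AEStronglyMeasurable dξ (volume.restrict C) :=
        hT.wg.meas.mono_measure (Measure.restrict_mono hCB le_rfl)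
      have h8 : Integrable (fun x => ‖g x‖ ^ 2 + ‖dξ x‖ ^ 2) (volume.restrict C) :=
        (hf.loc C hCB hC).add (hT.wg.loc C hCB hC)
      refine h8.mono (hg.inner hd) (Eventually.of_forall fun x => ?_)
      have h4 : ‖inner ℝ (g x) (dξ x)‖ ≤ ‖g x‖ * ‖dξ x‖ := norm_inner_le_norm _ _
      have h5 : ‖‖g x‖ ^ 2 + ‖dξ x‖ ^ 2‖ = ‖g x‖ ^ 2 + ‖dξ x‖ ^ 2 := by
        rw [Real.norm_eq_abs, abs_of_nonneg (by positivity)]
      rw [h5]
      nlinarith [sq_nonneg (‖g x‖ - ‖dξ x‖), norm_nonneg (g x), norm_nonneg (dξ x)]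
    · filter_upwards [h7] with x hx hxB
      rw [hx hxB, inner_zero_right]

end Pool.Agent.COB
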