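import Pool.Agent.COB.Stmts

/-!
# Squad COB: module WGL (gluing of weak gradients across a `C²` hypersurface)
-/

set_option autoImplicit false

namespace Pool.Agent.COB

open MeasureTheory Set Metric Filter Topology

namespace WGL_

variable {m : ℕ}

/-! ### copied elementary lemmas -/

theorem cont_mul {U : Set (E m)} (hU : IsOpen U) {f φ : E m → ℝ} (hf : ContinuousOn f U)
    (hφ : Continuous φ) (hsub : tsupport φ ⊆ U) : Continuous fun x => f x * φ x := by
  rw [continuous_iff_continuousAt]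
  intro x
  by_cases hx : x ∈ U
  · exact (hf.continuousAt (hU.mem_nhds hx)).mul hφ.continuousAt
  · have hx' : x ∉ tsupport φ := fun h => hx (hsub h)
    have hev : (fun y => f y * φ y) =ᶠ[𝓝 x] fun _ => (0 : ℝ) := by
      have h1 := notMem_tsupport_iff_eventuallyEq.1 hx'
      filter_upwards [h1] with y hy
      rw [hy]
      simp
    exact (continuousAt_const.congr hev.symm)

theorem int1 {U : Set (E m)} (hU : IsOpen U) {f φ : E m → ℝ} (hf : ContinuousOn f U)
    (hφ : Continuous φ) (hc : HasCompactSupport φ) (hsub : tsupport φ ⊆ U) :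
    Integrable fun x => f x * φ x :=
  (cont_mul hU hf hφ hsub).integrable_of_hasCompactSupport hc.mul_left

theorem fderiv_cont {η : E m → ℝ} (hη : ContDiff ℝ 1 η) (v : E m) :
    Continuous fun x => fderiv ℝ η x v :=
  (hη.continuous_fderiv one_ne_zero).clm_apply continuous_const

theorem fderiv_cs {η : E m → ℝ} (hc : HasCompactSupport η) (v : E m) :
    HasCompactSupport fun x => fderiv ℝ η x v :=
  hc.fderiv_apply (𝕜 := ℝ) v

theorem fderiv_tsup {η : E m → ℝ} (v : E m) :
    tsupport (fun x => fderiv ℝ η x v) ⊆ tsupport η :=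
  tsupport_fderiv_apply_subset ℝ v

theorem int2 {U : Set (E m)} {g : E m → E m} (hm : AEStronglyMeasurable g (volume.restrict U))
    (hl : ∀ C : Set (E m), C ⊆ U → IsCompact C → IntegrableOn (fun x => ‖g x‖ ^ 2) C)
    {η : E m → ℝ} (hη : Continuous η) (hc : HasCompactSupport η) (hsub : tsupport η ⊆ U)
    (v : E m) : Integrable fun x => inner ℝ (g x) v * η x := by
  obtain ⟨M, hM⟩ := hη.bounded_above_of_compact_support hc
  have hCc : IsCompact (tsupport η) := hc
  have hmC : AEStronglyMeasurable g (volume.restrict (tsupport η)) := hm.mono_set hsub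
  have h1 : IntegrableOn (fun x => (1 + ‖g x‖ ^ 2) * (‖v‖ * M)) (tsupport η) := by
    refine Integrable.mul_const ?_ _
    exact (integrableOn_const (hCc.measure_lt_top.ne)).add (hl _ hsub hCc)
  have h2 : IntegrableOn (fun x => inner ℝ (g x) v * η x) (tsupport η) := by
    refine Integrable.mono' h1 ?_ ?_
    · exact (hmC.inner aestronglyMeasurable_const).mul hη.aestronglyMeasurable
    · refine Eventually.of_forall fun x => ?_
      rw [norm_mul]
      have h3 : ‖inner ℝ (g x) v‖ ≤ ‖g x‖ * ‖v‖ := norm_inner_le_norm _ _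
      have h4 : ‖g x‖ ≤ 1 + ‖g x‖ ^ 2 := by nlinarith [sq_nonneg (‖g x‖ - 1), norm_nonneg (g x)]
      calc ‖inner ℝ (g x) v‖ * ‖η x‖ ≤ (‖g x‖ * ‖v‖) * M :=
            mul_le_mul h3 (hM x) (norm_nonneg _) (by positivity)
        _ = ‖g x‖ * (‖v‖ * M) := by ring
        _ ≤ (1 + ‖g x‖ ^ 2) * (‖v‖ * M) := by
            refine mul_le_mul_of_nonneg_right h4 (mul_nonneg (norm_nonneg _) ?_)
            exact le_trans (norm_nonneg _) (hM x)
  rw [IntegrableOn] at h2
  rw [← integrableOn_univ]
  refine IntegrableOn.of_forall_sdiff_eq_zero h2 MeasurableSet.univ ?_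
  rintro x ⟨_, hx⟩
  rw [image_eq_zero_of_notMem_tsupport hx, mul_zero]

theorem inner_grad (f : E m → ℝ) (x v : E m) : inner ℝ (gradient f x) v = fderiv ℝ f x v := by
  unfold gradient
  exact InnerProductSpace.toDual_symm_apply

/-! ### the transition function -/

/-- smooth step -/
noncomputable abbrev T : ℝ → ℝ := Real.smoothTransition

theorem T_cd : ContDiff ℝ 2 T := Real.smoothTransition.contDiff (n := 2)

theorem T_nn (s : ℝ) : 0 ≤ deriv T s := Real.smoothTransition.monotone.deriv_nonneg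

theorem T_lt {s : ℝ} (hs : s < 0) : deriv T s = 0 := by
  have h : T =ᶠ[𝓝 s] fun _ => (0 : ℝ) := by
    filter_upwards [Iio_mem_nhds hs] with y hy
    exact Real.smoothTransition.zero_of_nonpos (le_of_lt hy)
  rw [h.deriv_eq]
  simp

theorem T_gt {s : ℝ} (hs : 1 < s) : deriv T s = 0 := by
  have h : T =ᶠ[𝓝 s] fun _ => (1 : ℝ) := by
    filter_upwards [Ioi_mem_nhds hs] with y hy
    exact Real.smoothTransition.one_of_one_le (le_of_lt hy)
  rw [h.deriv_eq]
  simp

/-- the cut-off on the side `F > 0` -/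
noncomputable def pc (F : E m → ℝ) (ε : ℝ) (x : E m) : ℝ := T (F x / ε - 1)

theorem pc_cd {F : E m → ℝ} (hF : ContDiff ℝ 2 F) (ε : ℝ) : ContDiff ℝ 2 (pc F ε) :=
  T_cd.comp ((hF.div_const ε).sub contDiff_const)

theorem pc_fderiv {F : E m → ℝ} (hF : ContDiff ℝ 2 F) (ε : ℝ) (x v : E m) :
    fderiv ℝ (pc F ε) x v = deriv T (F x / ε - 1) * (fderiv ℝ F x v / ε) := by
  have hFd : HasFDerivAt F (fderiv ℝ F x) x :=
    ((hF.differentiable two_ne_zero) x).hasFDerivAt
  have h1 : HasFDerivAt (fun y => F y / ε - 1) (ε⁻¹ • fderiv ℝ F x) x := by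
    have := (hFd.const_mul ε⁻¹).sub_const 1
    refine this.congr_of_eventuallyEq (Eventually.of_forall fun y => ?_)
    simp only
    rw [div_eq_inv_mul]
  have h2 : HasDerivAt T (deriv T (F x / ε - 1)) (F x / ε - 1) :=
    ((T_cd.differentiable two_ne_zero) _).hasDerivAt
  have h3 := h2.comp_hasFDerivAt x h1
  have h4 : HasFDerivAt (pc F ε) (deriv T (F x / ε - 1) • (ε⁻¹ • fderiv ℝ F x)) x := h3
  rw [h4.fderiv]
  simp only [smul_apply, smul_eq_mul]
  rw [div_eq_inv_mul (fderiv ℝ F x v) ε]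

theorem pc_nn (F : E m → ℝ) (ε : ℝ) (x : E m) : 0 ≤ pc F ε x := Real.smoothTransition.nonneg _

theorem pc_le (F : E m → ℝ) (ε : ℝ) (x : E m) : pc F ε x ≤ 1 := Real.smoothTransition.le_one _

theorem pc_ne {F : E m → ℝ} {ε : ℝ} (hε : 0 < ε) {x : E m} (h : pc F ε x ≠ 0) : ε < F x := by
  by_contra hc
  push Not at hc
  apply h
  apply Real.smoothTransition.zero_of_nonpos
  have : F x / ε ≤ 1 := by
    rw [div_le_one hε]
    exact hc
  linarith

theorem pc_tsup {F : E m → ℝ} (hF : Continuous F) {ε : ℝ} (hε : 0 < ε) :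
    tsupport (pc F ε) ⊆ {x | ε ≤ F x} := by
  apply closure_minimal
  · intro x hx
    exact (pc_ne hε hx).le
  · exact isClosed_le continuous_const hF

/-- sum of the two cut-offs -/
noncomputable def ps (F : E m → ℝ) (ε : ℝ) (x : E m) : ℝ := pc F ε x + pc (fun y => -F y) ε x

theorem ps_cd {F : E m → ℝ} (hF : ContDiff ℝ 2 F) (ε : ℝ) : ContDiff ℝ 2 (ps F ε) :=
  (pc_cd hF ε).add (pc_cd hF.neg ε)

theorem ps_abs (F : E m → ℝ) (ε : ℝ) (x : E m) : |ps F ε x| ≤ 2 := by
  have h1 := pc_nn F ε x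
  have h2 := pc_le F ε x
  have h3 := pc_nn (fun y => -F y) ε x
  have h4 := pc_le (fun y => -F y) ε x
  unfold ps
  rw [abs_of_nonneg (by linarith)]
  linarith

theorem fderiv_neg_apply (F : E m → ℝ) (x v : E m) :
    fderiv ℝ (fun y => -F y) x v = -fderiv ℝ F x v := by
  have : fderiv ℝ (fun y => -F y) x = -fderiv ℝ F x := fderiv_neg
  rw [this]
  rfl

/-- the layer density -/
noncomputable def mu (F : E m → ℝ) (ε : ℝ) (x : E m) : ℝ :=
  (deriv T (F x / ε - 1) + deriv T (-F x / ε - 1)) / ε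

theorem mu_nn (F : E m → ℝ) {ε : ℝ} (hε : 0 < ε) (x : E m) : 0 ≤ mu F ε x :=
  div_nonneg (add_nonneg (T_nn _) (T_nn _)) hε.le

theorem mu_ne {F : E m → ℝ} {ε : ℝ} (hε : 0 < ε) {x : E m} (h : mu F ε x ≠ 0) :
    |F x| ≤ 2 * ε := by
  by_contra hc
  push Not at hc
  apply h
  unfold mu
  rcases lt_abs.1 hc with h1 | h1
  · have h2 : 1 < F x / ε - 1 := by
      have : 2 < F x / ε := by
        rw [lt_div_iff₀ hε]
        exact h1
      linarith
    have h3 : -F x / ε - 1 < 0 := by
      have : -F x / ε < 0 := div_neg_of_neg_of_pos (by linarith) hε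
      linarith
    rw [T_gt h2, T_lt h3]
    simp
  · have h2 : 1 < -F x / ε - 1 := by
      have : 2 < -F x / ε := by
        rw [lt_div_iff₀ hε]
        exact h1
      linarith
    have h3 : F x / ε - 1 < 0 := by
      have : F x / ε < 0 := div_neg_of_neg_of_pos (by linarith) hε
      linarith
    rw [T_gt h2, T_lt h3]
    simp

theorem ps_fderiv {F : E m → ℝ} (hF : ContDiff ℝ 2 F) (ε : ℝ) (x v : E m) :
    fderiv ℝ (ps F ε) x v =
      (deriv T (F x / ε - 1) - deriv T (-F x / ε - 1)) / ε * fderiv ℝ F x v := by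
  have h1 : fderiv ℝ (ps F ε) x = fderiv ℝ (pc F ε) x + fderiv ℝ (pc (fun y => -F y) ε) x :=
    fderiv_add ((pc_cd hF ε).differentiable two_ne_zero x)
      ((pc_cd hF.neg ε).differentiable two_ne_zero x)
  rw [h1, add_apply, pc_fderiv hF, pc_fderiv hF.neg, fderiv_neg_apply]
  ring

theorem ps_fderiv_abs {F : E m → ℝ} (hF : ContDiff ℝ 2 F) {ε : ℝ} (hε : 0 < ε) (x v : E m) :
    |fderiv ℝ (ps F ε) x v| ≤ mu F ε x * |fderiv ℝ F x v| := by
  rw [ps_fderiv hF, abs_mul]
  refine mul_le_mul_of_nonneg_right ?_ (abs_nonneg _)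
  rw [abs_div, abs_of_pos hε]
  unfold mu
  refine div_le_div_of_nonneg_right ?_ hε.le
  have h1 := T_nn (F x / ε - 1)
  have h2 := T_nn (-F x / ε - 1)
  rw [abs_le]
  constructor <;> linarith

/-- difference of the two cut-offs -/
noncomputable def lam (F : E m → ℝ) (ε : ℝ) (x : E m) : ℝ := pc F ε x - pc (fun y => -F y) ε x

theorem lam_cd {F : E m → ℝ} (hF : ContDiff ℝ 2 F) (ε : ℝ) : ContDiff ℝ 2 (lam F ε) :=
  (pc_cd hF ε).sub (pc_cd hF.neg ε)

theorem lam_abs (F : E m → ℝ) (ε : ℝ) (x : E m) : |lam F ε x| ≤ 1 := by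
  have h1 := pc_nn F ε x
  have h2 := pc_le F ε x
  have h3 := pc_nn (fun y => -F y) ε x
  have h4 := pc_le (fun y => -F y) ε x
  unfold lam
  rw [abs_le]
  constructor <;> linarith

theorem lam_fderiv {F : E m → ℝ} (hF : ContDiff ℝ 2 F) (ε : ℝ) (x v : E m) :
    fderiv ℝ (lam F ε) x v = mu F ε x * fderiv ℝ F x v := by
  have h1 : fderiv ℝ (lam F ε) x = fderiv ℝ (pc F ε) x - fderiv ℝ (pc (fun y => -F y) ε) x :=
    fderiv_sub ((pc_cd hF ε).differentiable two_ne_zero x)
      ((pc_cd hF.neg ε).differentiable two_ne_zero x)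
  rw [h1, sub_apply, pc_fderiv hF, pc_fderiv hF.neg, fderiv_neg_apply]
  unfold mu
  ring

theorem ps_one {F : E m → ℝ} {ε : ℝ} (hε : 0 < ε) {x : E m} (h : 2 * ε ≤ |F x|) :
    ps F ε x = 1 := by
  unfold ps pc
  rcases le_abs.1 h with h1 | h1
  · have h2 : 1 ≤ F x / ε - 1 := by
      have : 2 ≤ F x / ε := by
        rw [le_div_iff₀ hε]
        exact h1
      linarith
    have h3 : -F x / ε - 1 ≤ 0 := by
      have : -F x / ε ≤ 0 := div_nonpos_of_nonpos_of_nonneg (by linarith) hε.le
      linarith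
    have t1 : T (F x / ε - 1) = 1 := Real.smoothTransition.one_of_one_le h2
    have t2 : T (-F x / ε - 1) = 0 := Real.smoothTransition.zero_of_nonpos h3
    show T (F x / ε - 1) + T (-F x / ε - 1) = 1
    rw [t1, t2]
    norm_num
  · have h2 : 1 ≤ -F x / ε - 1 := by
      have : 2 ≤ -F x / ε := by
        rw [le_div_iff₀ hε]
        exact h1
      linarith
    have h3 : F x / ε - 1 ≤ 0 := by
      have : F x / ε ≤ 0 := div_nonpos_of_nonpos_of_nonneg (by linarith) hε.le
      linarith
    have t1 : T (-F x / ε - 1) = 1 := Real.smoothTransition.one_of_one_le h2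
    have t2 : T (F x / ε - 1) = 0 := Real.smoothTransition.zero_of_nonpos h3
    show T (F x / ε - 1) + T (-F x / ε - 1) = 1
    rw [t1, t2]
    norm_num

/-! ### cut-off on a compact set -/

theorem exists_cut {K B : Set (E m)} (hK : IsCompact K) (hB : IsOpen B) (hKB : K ⊆ B) :
    ∃ ζ : E m → ℝ, ContDiff ℝ 2 ζ ∧ HasCompactSupport ζ ∧ tsupport ζ ⊆ B ∧
      (∀ x, 0 ≤ ζ x) ∧ ∀ x ∈ K, 1 ≤ ζ x := by
  obtain ⟨τ, h1, h2, h3, -⟩ := exists_continuousMap_one_of_isCompact_subset_isOpen hK hB hKB
  have hc : Continuous fun x => 2 * τ x := continuous_const.mul τ.continuous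
  obtain ⟨g, hg, hd, hs⟩ := hc.exists_contDiff_approx 2 (ε := fun _ => (1 : ℝ)) continuous_const
    (fun _ => one_pos)
  have hsub : tsupport (fun x => g x ^ 2) ⊆ tsupport (τ : E m → ℝ) := by
    apply closure_mono
    intro x hx
    have h4 : g x ≠ 0 := by
      intro h0
      apply hx
      simp only
      rw [h0]
      norm_num
    have h5 := hs h4
    intro h6
    apply h5
    simp only
    rw [h6]
    norm_num
  refine ⟨fun x => g x ^ 2, ?_, ?_, hsub.trans h3, fun x => sq_nonneg _, ?_⟩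
  · exact (hg.pow 2)
  · exact IsCompact.of_isClosed_subset h2 (isClosed_tsupport _) hsub
  · intro x hx
    have h4 := hd x
    have h5 : τ x = 1 := h1 hx
    rw [Real.dist_eq, h5] at h4
    have h6 := abs_lt.1 h4
    simp only
    nlinarith [h6.1]

/-! ### the layer bound -/

theorem layer (hWBA : Stmt_WBA) (hWIB : Stmt_WIB) {B K : Set (E m)} {F : E m → ℝ} (hB : IsOpen B)
    (hF : ContDiff ℝ 2 F) (hne : ∀ x ∈ B, F x = 0 → fderiv ℝ F x ≠ 0) (hK : IsCompact K)
    (hKB : K ⊆ B) (v : E m) :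
    ∃ C ε₀ : ℝ, 0 ≤ C ∧ 0 < ε₀ ∧ ∀ ε, 0 < ε → ε ≤ ε₀ →
      IntegrableOn (fun x => |fderiv ℝ (ps F ε) x v|) K ∧
      ∫ x in K, |fderiv ℝ (ps F ε) x v| ≤ C := by
  obtain ⟨ζ, hζ, hζc, hζB, hζ0, hζ1⟩ := exists_cut hK hB hKB
  -- lower bound for the gradient near the zero set
  have hgc : Continuous (gradient F) := by
    unfold gradient
    exact (InnerProductSpace.toDual ℝ (E m)).symm.continuous.comp
      (hF.continuous_fderiv two_ne_zero)
  obtain ⟨c, hc0, hc⟩ : ∃ c : ℝ, 0 < c ∧ ∀ x ∈ K, |F x| ≤ c → c ≤ ‖gradient F x‖ := by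
    by_cases hKn : K.Nonempty
    · have hcont : ContinuousOn (fun x => |F x| + ‖gradient F x‖) K :=
        (hF.continuous.abs.add hgc.norm).continuousOn
      obtain ⟨z, hz, hmin⟩ := hK.exists_isMinOn hKn hcont
      have hpos : 0 < |F z| + ‖gradient F z‖ := by
        by_cases h0 : F z = 0
        · have h1 := hne z (hKB hz) h0
          have h2 : gradient F z ≠ 0 := by
            intro h3
            apply h1
            ext w
            rw [← inner_grad, h3]
            simp
          have := norm_pos_iff.2 h2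
          have := abs_nonneg (F z)
          linarith
        · have := abs_pos.2 h0
          have := norm_nonneg (gradient F z)
          linarith
      refine ⟨(|F z| + ‖gradient F z‖) / 2, by linarith, ?_⟩
      intro x hx hFx
      have h1 : |F z| + ‖gradient F z‖ ≤ |F x| + ‖gradient F x‖ := hmin hx
      linarith
    · exact ⟨1, one_pos, fun x hx => absurd ⟨x, hx⟩ hKn⟩
  -- the field
  have hX1 : ContDiff ℝ 1 (gradient F) := by
    unfold gradient
    have h1 : ContDiff ℝ 1 (fderiv ℝ F) := hF.fderiv_right (by norm_num)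
    exact (InnerProductSpace.toDual ℝ (E m)).symm.toContinuousLinearEquiv.contDiff.comp h1
  have hX : ContDiff ℝ 1 (fun x => ζ x • gradient F x) := (hζ.of_le (by norm_num)).smul hX1
  have hXc : HasCompactSupport (fun x => ζ x • gradient F x) := hζc.smul_right
  obtain ⟨-, -, -, -, hWBA5, -⟩ := hWBA m univ isOpen_univ
  refine ⟨‖v‖ / c * ∫ x, |dv (fun x => ζ x • gradient F x) x|, c / 2, ?_, by linarith, ?_⟩
  · refine mul_nonneg (div_nonneg (norm_nonneg _) hc0.le) (integral_nonneg fun x => abs_nonneg _)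
  intro ε hε hεc
  have hlam : HasWG univ (lam F ε) (gradient (lam F ε)) :=
    hWBA5 _ ((lam_cd hF ε).of_le (by norm_num)).contDiffOn
  obtain ⟨hI1, hI2, hI3⟩ := (hWIB m univ (lam F ε) (gradient (lam F ε)) isOpen_univ hlam).1
    (fun x => ζ x • gradient F x) hX hXc (subset_univ _)
  have hone : HasWG univ (fun _ : E m => (1 : ℝ)) (gradient fun _ : E m => (1 : ℝ)) :=
    hWBA5 _ contDiffOn_const
  obtain ⟨-, hJ2, -⟩ := (hWIB m univ (fun _ => (1 : ℝ)) (gradient fun _ : E m => (1 : ℝ))
    isOpen_univ hone).1 (fun x => ζ x • gradient F x) hX hXc (subset_univ _)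
  simp only [Measure.restrict_univ, integrableOn_univ] at hI1 hI2 hI3 hJ2
  have hpt : ∀ x, inner ℝ (gradient (lam F ε) x) (ζ x • gradient F x) =
      ζ x * (mu F ε x * ‖gradient F x‖ ^ 2) := by
    intro x
    rw [inner_grad, lam_fderiv hF, map_smul, ← inner_grad, real_inner_self_eq_norm_sq, smul_eq_mul]
    ring
  have hbd : ∫ x, ζ x * (mu F ε x * ‖gradient F x‖ ^ 2) ≤
      ∫ x, |dv (fun x => ζ x • gradient F x) x| := by
    have e1 : ∫ x, ζ x * (mu F ε x * ‖gradient F x‖ ^ 2) =
        ∫ x, -(lam F ε x * dv (fun x => ζ x • gradient F x) x) := by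
      rw [integral_neg, ← hI3]
      exact integral_congr_ae (Eventually.of_forall fun x => (hpt x).symm)
    rw [e1]
    have hJ2' : Integrable (fun x => |dv (fun x => ζ x • gradient F x) x|) := by
      have := hJ2.abs
      refine this.congr (Eventually.of_forall fun x => ?_)
      simp only [one_mul]
    refine integral_mono hI2.neg hJ2' ?_
    intro x
    simp only
    have h1 := lam_abs F ε x
    calc -(lam F ε x * dv (fun x => ζ x • gradient F x) x)
        ≤ |lam F ε x * dv (fun x => ζ x • gradient F x) x| := neg_le_abs _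
      _ = |lam F ε x| * |dv (fun x => ζ x • gradient F x) x| := abs_mul _ _
      _ ≤ 1 * |dv (fun x => ζ x • gradient F x) x| :=
          mul_le_mul_of_nonneg_right h1 (abs_nonneg _)
      _ = |dv (fun x => ζ x • gradient F x) x| := one_mul _
  have hint : Integrable (fun x => ζ x * (mu F ε x * ‖gradient F x‖ ^ 2)) :=
    hI1.congr (Eventually.of_forall fun x => hpt x)
  have hcv : Continuous fun x => |fderiv ℝ (ps F ε) x v| :=
    (fderiv_cont ((ps_cd hF ε).of_le (by norm_num)) v).abs
  have hK1 : IntegrableOn (fun x => |fderiv ℝ (ps F ε) x v|) K :=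
    hcv.continuousOn.integrableOn_compact hK
  refine ⟨hK1, ?_⟩
  have hcomp : ∀ x ∈ K, |fderiv ℝ (ps F ε) x v| ≤
      ‖v‖ / c * (ζ x * (mu F ε x * ‖gradient F x‖ ^ 2)) := by
    intro x hx
    have hμ := mu_nn F hε x
    refine (ps_fderiv_abs hF hε x v).trans ?_
    by_cases h0 : mu F ε x = 0
    · rw [h0]
      simp
    · have h1 := mu_ne hε h0
      have h2 := hc x hx (by linarith)
      have h3 : |fderiv ℝ F x v| ≤ ‖gradient F x‖ * ‖v‖ := by
        rw [← inner_grad]
        exact abs_real_inner_le_norm _ _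
      have h4 : ‖gradient F x‖ ≤ ‖gradient F x‖ ^ 2 / c := by
        rw [le_div_iff₀ hc0]
        nlinarith [norm_nonneg (gradient F x)]
      have h5 := hζ1 x hx
      calc mu F ε x * |fderiv ℝ F x v| ≤ mu F ε x * (‖gradient F x‖ * ‖v‖) :=
            mul_le_mul_of_nonneg_left h3 hμ
        _ ≤ mu F ε x * (‖gradient F x‖ ^ 2 / c * ‖v‖) := by
            refine mul_le_mul_of_nonneg_left ?_ hμ
            exact mul_le_mul_of_nonneg_right h4 (norm_nonneg _)
        _ = ‖v‖ / c * (1 * (mu F ε x * ‖gradient F x‖ ^ 2)) := by ring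
        _ ≤ ‖v‖ / c * (ζ x * (mu F ε x * ‖gradient F x‖ ^ 2)) := by
            refine mul_le_mul_of_nonneg_left ?_ (div_nonneg (norm_nonneg _) hc0.le)
            exact mul_le_mul_of_nonneg_right h5 (mul_nonneg hμ (sq_nonneg _))
  calc ∫ x in K, |fderiv ℝ (ps F ε) x v|
      ≤ ∫ x in K, ‖v‖ / c * (ζ x * (mu F ε x * ‖gradient F x‖ ^ 2)) :=
        setIntegral_mono_on hK1 (hint.const_mul _).integrableOn hK.measurableSet hcomp
    _ ≤ ∫ x, ‖v‖ / c * (ζ x * (mu F ε x * ‖gradient F x‖ ^ 2)) := by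
        refine setIntegral_le_integral (hint.const_mul _) (Eventually.of_forall fun x => ?_)
        exact mul_nonneg (div_nonneg (norm_nonneg _) hc0.le)
          (mul_nonneg (hζ0 x) (mul_nonneg (mu_nn F hε x) (sq_nonneg _)))
    _ = ‖v‖ / c * ∫ x, ζ x * (mu F ε x * ‖gradient F x‖ ^ 2) := integral_const_mul _ _
    _ ≤ ‖v‖ / c * ∫ x, |dv (fun x => ζ x • gradient F x) x| :=
        mul_le_mul_of_nonneg_left hbd (div_nonneg (norm_nonneg _) hc0.le)

/-! ### integration by parts with one cut-off -/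

theorem side {B : Set (E m)} {F f : E m → ℝ} {g : E m → E m} (hF : ContDiff ℝ 2 F)
    (h : HasWG (Sd F B) f g) {η : E m → ℝ} (hη : ContDiff ℝ 1 η) (hc : HasCompactSupport η)
    (hs : tsupport η ⊆ B) (v : E m) {ε : ℝ} (hε : 0 < ε) :
    ∫ x, f x * (fderiv ℝ η x v * pc F ε x + η x * fderiv ℝ (pc F ε) x v) =
      -∫ x, inner ℝ (g x) v * (η x * pc F ε x) := by
  have hp1 : ContDiff ℝ 1 (pc F ε) := (pc_cd hF ε).of_le (by norm_num)
  have h1 : ContDiff ℝ 1 (fun x => η x * pc F ε x) := hη.mul hp1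
  have h2 : HasCompactSupport (fun x => η x * pc F ε x) := hc.mul_right
  have h3 : tsupport (fun x => η x * pc F ε x) ⊆ Sd F B := by
    intro x hx
    have a1 : x ∈ tsupport η := (tsupport_mul_subset_left (f := η) (g := pc F ε)) hx
    have a2 : x ∈ tsupport (pc F ε) := (tsupport_mul_subset_right (f := η) (g := pc F ε)) hx
    have a3 := pc_tsup hF.continuous hε a2
    exact ⟨hs a1, lt_of_lt_of_le hε a3⟩
  have h4 := h.ibp _ h1 h2 h3 v
  rw [← h4]
  refine integral_congr_ae (Eventually.of_forall fun x => ?_)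
  have h5 : fderiv ℝ (fun x => η x * pc F ε x) x =
      η x • fderiv ℝ (pc F ε) x + pc F ε x • fderiv ℝ η x :=
    fderiv_fun_mul (hη.differentiable one_ne_zero x) (hp1.differentiable one_ne_zero x)
  simp only
  rw [h5]
  simp only [add_apply, smul_apply, smul_eq_mul]
  ring

theorem both {B : Set (E m)} {F f : E m → ℝ} {g : E m → E m} (hB : IsOpen B)
    (hF : ContDiff ℝ 2 F) (hf : ContinuousOn f B)
    (hm : AEStronglyMeasurable g (volume.restrict B))
    (hl : ∀ C : Set (E m), C ⊆ B → IsCompact C → IntegrableOn (fun x => ‖g x‖ ^ 2) C)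
    (h : HasWG (Sd F B) f g) (h' : HasWG (Sd (fun x => -F x) B) f g) {η : E m → ℝ}
    (hη : ContDiff ℝ 1 η) (hc : HasCompactSupport η)
    (hs : tsupport η ⊆ B) (v : E m) {ε : ℝ} (hε : 0 < ε) :
    (∫ x, f x * (fderiv ℝ η x v * ps F ε x)) + (∫ x, f x * (η x * fderiv ℝ (ps F ε) x v)) =
      -∫ x, inner ℝ (g x) v * (η x * ps F ε x) := by
  have hp1 : ContDiff ℝ 1 (pc F ε) := (pc_cd hF ε).of_le (by norm_num)
  have hq1 : ContDiff ℝ 1 (pc (fun y => -F y) ε) := (pc_cd hF.neg ε).of_le (by norm_num)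
  have hs1 : ContDiff ℝ 1 (ps F ε) := (ps_cd hF ε).of_le (by norm_num)
  have e1 := side hF h hη hc hs v hε
  have e2 := side hF.neg h' hη hc hs v hε
  have dη := fderiv_cont hη v
  have cη := fderiv_cs hc v
  have tη := (fderiv_tsup (η := η) v).trans hs
  -- integrability
  have I (θ : E m → ℝ) (hθ : ContDiff ℝ 1 θ) : Integrable fun x =>
      f x * (fderiv ℝ η x v * θ x + η x * fderiv ℝ θ x v) := by
    refine int1 hB hf ?_ ?_ ?_
    · exact (dη.mul hθ.continuous).add (hη.continuous.mul (fderiv_cont hθ v))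
    · exact (cη.mul_right).add (hc.mul_right)
    · refine (tsupport_add _ _).trans (union_subset ?_ ?_)
      · exact (tsupport_mul_subset_left).trans tη
      · exact (tsupport_mul_subset_left).trans hs
  have J (θ : E m → ℝ) (hθ : ContDiff ℝ 1 θ) : Integrable fun x =>
      inner ℝ (g x) v * (η x * θ x) := by
    refine int2 hm hl (hη.continuous.mul hθ.continuous) hc.mul_right ?_ v
    exact (tsupport_mul_subset_left).trans hs
  have I1 : Integrable fun x => f x * (fderiv ℝ η x v * ps F ε x) := by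
    refine int1 hB hf (dη.mul hs1.continuous) cη.mul_right ?_
    exact (tsupport_mul_subset_left).trans tη
  have I2 : Integrable fun x => f x * (η x * fderiv ℝ (ps F ε) x v) := by
    refine int1 hB hf (hη.continuous.mul (fderiv_cont hs1 v)) hc.mul_right ?_
    exact (tsupport_mul_subset_left).trans hs
  have hfd : ∀ x, fderiv ℝ (ps F ε) x v =
      fderiv ℝ (pc F ε) x v + fderiv ℝ (pc (fun y => -F y) ε) x v := by
    intro x
    have h1 : fderiv ℝ (ps F ε) x = fderiv ℝ (pc F ε) x + fderiv ℝ (pc (fun y => -F y) ε) x :=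
      fderiv_add (hp1.differentiable one_ne_zero x) (hq1.differentiable one_ne_zero x)
    rw [h1]
    simp only [add_apply]
  rw [← integral_add I1 I2]
  have e3 : ∫ x, (f x * (fderiv ℝ η x v * ps F ε x) + f x * (η x * fderiv ℝ (ps F ε) x v)) =
      (∫ x, f x * (fderiv ℝ η x v * pc F ε x + η x * fderiv ℝ (pc F ε) x v)) +
      ∫ x, f x * (fderiv ℝ η x v * pc (fun y => -F y) ε x +
        η x * fderiv ℝ (pc (fun y => -F y) ε) x v) := by
    rw [← integral_add (I _ hp1) (I _ hq1)]
    refine integral_congr_ae (Eventually.of_forall fun x => ?_)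
    simp only
    rw [hfd x]
    unfold ps
    ring
  have e4 : ∫ x, inner ℝ (g x) v * (η x * ps F ε x) =
      (∫ x, inner ℝ (g x) v * (η x * pc F ε x)) +
      ∫ x, inner ℝ (g x) v * (η x * pc (fun y => -F y) ε x) := by
    rw [← integral_add (J _ hp1) (J _ hq1)]
    refine integral_congr_ae (Eventually.of_forall fun x => ?_)
    simp only
    unfold ps
    ring
  rw [e3, e1, e2, e4]
  ring

/-! ### limits -/

/-- the sequence of scales -/
noncomputable def ee (n : ℕ) : ℝ := 1 / ((n : ℝ) + 1)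

theorem ee_pos (n : ℕ) : 0 < ee n := by unfold ee; positivity

theorem ee_lim : Tendsto ee atTop (𝓝 0) := tendsto_one_div_add_atTop_nhds_zero_nat

theorem lim_cut {F : E m → ℝ} {u : E m → ℝ} (hF : ContDiff ℝ 2 F) (hu : Integrable u)
    (hae : ∀ᵐ x : E m, u x ≠ 0 → F x ≠ 0) :
    Tendsto (fun n => ∫ x, u x * ps F (ee n) x) atTop (𝓝 (∫ x, u x)) := by
  refine tendsto_integral_of_dominated_convergence (fun x => 2 * |u x|) ?_ (hu.abs.const_mul 2)
    ?_ ?_
  · intro n
    exact hu.aestronglyMeasurable.mul (ps_cd hF (ee n)).continuous.aestronglyMeasurable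
  · intro n
    refine Eventually.of_forall fun x => ?_
    rw [norm_mul, Real.norm_eq_abs, Real.norm_eq_abs, mul_comm]
    exact mul_le_mul_of_nonneg_right (ps_abs F (ee n) x) (abs_nonneg _)
  · filter_upwards [hae] with x hx
    by_cases h0 : u x = 0
    · rw [h0]
      simp
    · have h1 := abs_pos.2 (hx h0)
      have h2 : ∀ᶠ n in atTop, ps F (ee n) x = 1 := by
        have h3 : ∀ᶠ n in atTop, ee n < |F x| / 2 :=
          ee_lim.eventually_lt_const (by linarith)
        filter_upwards [h3] with n hn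
        exact ps_one (ee_pos n) (by linarith)
      refine tendsto_const_nhds.congr' ?_
      filter_upwards [h2] with n hn
      rw [hn, mul_one]

theorem ibp0 {h ψ : E m → ℝ} (hh : ContDiff ℝ 1 h) (hc : HasCompactSupport h)
    (hψ : ContDiff ℝ 1 ψ) (v : E m) :
    ∫ x, h x * fderiv ℝ ψ x v = -∫ x, fderiv ℝ h x v * ψ x := by
  refine integral_mul_fderiv_eq_neg_fderiv_mul_of_integrable ?_ ?_ ?_ ?_ ?_
  · exact ((fderiv_cont hh v).mul hψ.continuous).integrable_of_hasCompactSupport
      (fderiv_cs hc v).mul_right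
  · exact (hh.continuous.mul (fderiv_cont hψ v)).integrable_of_hasCompactSupport hc.mul_right
  · exact (hh.continuous.mul hψ.continuous).integrable_of_hasCompactSupport hc.mul_right
  · exact fun x _ => hh.differentiable one_ne_zero x
  · exact fun x _ => hψ.differentiable one_ne_zero x

theorem int_fderiv {h : E m → ℝ} (hh : ContDiff ℝ 1 h) (hc : HasCompactSupport h) (v : E m) :
    ∫ x, fderiv ℝ h x v = 0 := by
  have h1 := ibp0 hh hc (ψ := fun _ => (1 : ℝ)) contDiff_const v
  have h2 : ∫ x, h x * fderiv ℝ (fun _ : E m => (1 : ℝ)) x v = 0 := by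
    simp
  rw [h2] at h1
  simp only [mul_one] at h1
  linarith

theorem lim_err (hWBA : Stmt_WBA) (hWIB : Stmt_WIB) {B : Set (E m)} {F w : E m → ℝ}
    (hB : IsOpen B) (hF : ContDiff ℝ 2 F) (hne : ∀ x ∈ B, F x = 0 → fderiv ℝ F x ≠ 0)
    (hnull : ∀ᵐ x : E m, x ∈ B → F x ≠ 0)
    (hw : Continuous w) (hwc : HasCompactSupport w) (hwB : tsupport w ⊆ B) (v : E m) :
    Tendsto (fun n => ∫ x, w x * fderiv ℝ (ps F (ee n)) x v) atTop (𝓝 0) := by
  obtain ⟨C, ε₀, hC, hε₀, hlay⟩ := layer hWBA hWIB hB hF hne hwc hwB v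
  rw [Metric.tendsto_atTop]
  intro δ hδ
  set δ' := δ / (2 * (C + 1)) with hδ'
  have hδ'0 : 0 < δ' := by positivity
  obtain ⟨h, hh, hd, hsup⟩ := hw.exists_contDiff_approx 1 (ε := fun _ => δ') continuous_const
    (fun _ => hδ'0)
  have hhc : HasCompactSupport h := hwc.mono hsup
  have hht : tsupport h ⊆ tsupport w := closure_mono hsup
  have hh1 : ContDiff ℝ 1 h := hh
  have hlim := lim_cut hF
    (((fderiv_cont hh1 v)).integrable_of_hasCompactSupport (fderiv_cs hhc v)) (by
      filter_upwards [hnull] with x hx hx0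
      apply hx
      apply hwB
      apply hht
      by_contra hc
      apply hx0
      have := fderiv_tsup (η := h) v
      exact image_eq_zero_of_notMem_tsupport (f := fun x => fderiv ℝ h x v) fun h5 => hc (this h5))
  rw [int_fderiv hh1 hhc v] at hlim
  rw [Metric.tendsto_atTop] at hlim
  obtain ⟨N1, hN1⟩ := hlim (δ / 2) (by linarith)
  obtain ⟨N2, hN2⟩ := (ee_lim.eventually_le_const hε₀).exists_forall_of_atTop
  refine ⟨max N1 N2, fun n hn => ?_⟩
  have hψ : ContDiff ℝ 1 (ps F (ee n)) := (ps_cd hF (ee n)).of_le (by norm_num)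
  obtain ⟨hint, hle⟩ := hlay (ee n) (ee_pos n) (hN2 n ((le_max_right _ _).trans hn))
  have e1 := ibp0 hh1 hhc hψ v
  have b1 : |∫ x, h x * fderiv ℝ (ps F (ee n)) x v| < δ / 2 := by
    rw [e1, abs_neg]
    have := hN1 n ((le_max_left _ _).trans hn)
    rw [Real.dist_eq, sub_zero] at this
    exact this
  have i1 : Integrable fun x => w x * fderiv ℝ (ps F (ee n)) x v :=
    (hw.mul (fderiv_cont hψ v)).integrable_of_hasCompactSupport hwc.mul_right
  have i2 : Integrable fun x => h x * fderiv ℝ (ps F (ee n)) x v :=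
    (hh1.continuous.mul (fderiv_cont hψ v)).integrable_of_hasCompactSupport hhc.mul_right
  have e2 : ∫ x, w x * fderiv ℝ (ps F (ee n)) x v =
      (∫ x, h x * fderiv ℝ (ps F (ee n)) x v) +
      ∫ x, (w x - h x) * fderiv ℝ (ps F (ee n)) x v := by
    have i3 : Integrable fun x => (w x - h x) * fderiv ℝ (ps F (ee n)) x v := by
      refine (i1.sub i2).congr (Eventually.of_forall fun x => ?_)
      simp only [Pi.sub_apply]
      ring
    rw [← integral_add i2 i3]
    refine integral_congr_ae (Eventually.of_forall fun x => ?_)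
    simp only
    ring
  have b2 : |∫ x, (w x - h x) * fderiv ℝ (ps F (ee n)) x v| ≤ δ' * C := by
    have e3 : ∫ x, (w x - h x) * fderiv ℝ (ps F (ee n)) x v =
        ∫ x in tsupport w, (w x - h x) * fderiv ℝ (ps F (ee n)) x v := by
      symm
      refine setIntegral_eq_integral_of_forall_compl_eq_zero fun x hx => ?_
      have h1 : w x = 0 := image_eq_zero_of_notMem_tsupport hx
      have h2 : h x = 0 := image_eq_zero_of_notMem_tsupport fun h5 => hx (hht h5)
      rw [h1, h2]
      simp
    rw [e3]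
    calc |∫ x in tsupport w, (w x - h x) * fderiv ℝ (ps F (ee n)) x v|
        ≤ ∫ x in tsupport w, |(w x - h x) * fderiv ℝ (ps F (ee n)) x v| :=
          abs_integral_le_integral_abs
      _ ≤ ∫ x in tsupport w, δ' * |fderiv ℝ (ps F (ee n)) x v| := by
          refine setIntegral_mono_on ?_ (hint.const_mul _) (isClosed_tsupport w).measurableSet ?_
          · have : Integrable fun x => (w x - h x) * fderiv ℝ (ps F (ee n)) x v := by
              refine (i1.sub i2).congr (Eventually.of_forall fun x => ?_)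
              simp only [Pi.sub_apply]
              ring
            exact this.abs.integrableOn
          · intro x _
            rw [abs_mul]
            refine mul_le_mul_of_nonneg_right ?_ (abs_nonneg _)
            have := hd x
            rw [Real.dist_eq, abs_sub_comm] at this
            exact this.le
      _ = δ' * ∫ x in tsupport w, |fderiv ℝ (ps F (ee n)) x v| := integral_const_mul _ _
      _ ≤ δ' * C := mul_le_mul_of_nonneg_left hle hδ'0.le
  have b3 : δ' * C ≤ δ / 2 := by
    rw [hδ', div_mul_eq_mul_div, div_le_div_iff₀ (by positivity) (by norm_num)]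
    nlinarith
  rw [Real.dist_eq, sub_zero, e2]
  calc |(∫ x, h x * fderiv ℝ (ps F (ee n)) x v) +
        ∫ x, (w x - h x) * fderiv ℝ (ps F (ee n)) x v|
      ≤ |∫ x, h x * fderiv ℝ (ps F (ee n)) x v| +
        |∫ x, (w x - h x) * fderiv ℝ (ps F (ee n)) x v| := abs_add_le _ _
    _ < δ := by linarith

end WGL_

open WGL_ in
theorem wgl_proof (hWBA : Stmt_WBA) (hWPP : Stmt_WPP) (hWIB : Stmt_WIB) : Stmt_WGL := by
  intro m B F f g hB hF hne hf hl h h'
  -- the interface is null
  have hFB : HasWG B F (gradient F) :=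
    (hWBA m B hB).2.2.2.2.1 F ((hF.of_le (by norm_num)).contDiffOn)
  have hnull : ∀ᵐ x : E m, x ∈ B → F x ≠ 0 := by
    have h1 := (hWPP m B F (gradient F) hB hFB).2
    filter_upwards [h1] with x hx hxB h0
    have h2 := hx hxB h0
    apply hne x hxB h0
    ext w
    rw [← inner_grad, h2]
    simp
  have hm : AEStronglyMeasurable g (volume.restrict B) := by
    have h1 : AEStronglyMeasurable g
        (volume.restrict (Sd F B ∪ Sd (fun x => -F x) B)) :=
      aestronglyMeasurable_union_iff.2 ⟨h.meas, h'.meas⟩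
    have h2 : volume.restrict B = volume.restrict (Sd F B ∪ Sd (fun x => -F x) B) := by
      apply Measure.restrict_congr_set
      filter_upwards [hnull] with x hx
      apply propext
      constructor
      · intro hxB
        rcases lt_or_gt_of_ne (hx hxB) with h3 | h3
        · right
          exact ⟨hxB, by linarith⟩
        · left
          exact ⟨hxB, h3⟩
      · rintro (h3 | h3)
        · exact h3.1
        · exact h3.1
    rw [h2]
    exact h1
  refine ⟨hf, hm, hl, ?_⟩
  intro η hη hc hs v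
  have dη := fderiv_cont hη v
  have cη := fderiv_cs hc v
  have tη := (fderiv_tsup (η := η) v).trans hs
  have i1 : Integrable fun x => f x * fderiv ℝ η x v := int1 hB hf dη cη tη
  have i2 : Integrable fun x => inner ℝ (g x) v * η x := int2 hm hl hη.continuous hc hs v
  have l1 := lim_cut hF i1 (by
    filter_upwards [hnull] with x hx hx0
    apply hx
    apply tη
    by_contra hcx
    apply hx0
    rw [image_eq_zero_of_notMem_tsupport (f := fun x => fderiv ℝ η x v) hcx, mul_zero])
  have l2 := lim_cut hF i2 (by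
    filter_upwards [hnull] with x hx hx0
    apply hx
    apply hs
    by_contra hcx
    apply hx0
    rw [image_eq_zero_of_notMem_tsupport hcx, mul_zero])
  have hw : Continuous fun x => f x * η x := cont_mul hB hf hη.continuous hs
  have l3 := lim_err hWBA hWIB hB hF hne hnull hw hc.mul_left
    ((tsupport_mul_subset_right (f := f) (g := η)).trans hs) v
  have l4 : Tendsto (fun n => (∫ x, f x * fderiv ℝ η x v * ps F (ee n) x) +
      ∫ x, f x * η x * fderiv ℝ (ps F (ee n)) x v) atTop (𝓝 ((∫ x, f x * fderiv ℝ η x v) + 0)) :=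
    l1.add l3
  have l5 : (fun n => (∫ x, f x * fderiv ℝ η x v * ps F (ee n) x) +
      ∫ x, f x * η x * fderiv ℝ (ps F (ee n)) x v) =
      fun n => -∫ x, inner ℝ (g x) v * η x * ps F (ee n) x := by
    funext n
    have e := both hB hF hf hm hl h h' hη hc hs v (ee_pos n)
    simp only [mul_assoc]
    exact e
  rw [l5, add_zero] at l4
  exact tendsto_nhds_unique l4 l2.neg

end Pool.Agent.COB
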