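import Pool.Agent.COB.Stmts

/-!
Squad COB, module WIB: integration by parts against `C¹` fields and `C²` functions with compact
support.
-/

set_option autoImplicit false

namespace Pool.Agent.COB

open MeasureTheory Set Metric Filter Topology
open scoped ENNReal

namespace WIB_

variable {m : ℕ}

lemma inner_bs (v : E m) (j : Fin m) : inner ℝ v (bs j) = v j := by
  rw [EuclideanSpace.inner_single_right]
  simp

lemma inner_eq_sum (v w : E m) : inner ℝ v w = ∑ j, inner ℝ v (bs j) * w j := by
  simp only [inner_bs]
  rw [PiLp.inner_apply]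
  refine Finset.sum_congr rfl fun j _ => ?_
  simp [mul_comm]

lemma cont_mul {U : Set (E m)} (hU : IsOpen U) {f η : E m → ℝ} (hf : ContinuousOn f U)
    (hη : Continuous η) (hs : tsupport η ⊆ U) : Continuous (fun x => f x * η x) := by
  rw [continuous_iff_continuousAt]
  intro x
  by_cases hx : x ∈ U
  · exact (hf.continuousAt (hU.mem_nhds hx)).mul hη.continuousAt
  · have hx' : x ∉ tsupport η := fun h => hx (hs h)
    have h0 : ∀ᶠ y in 𝓝 x, f y * η y = 0 := by
      have : (tsupport η)ᶜ ∈ 𝓝 x := (isClosed_tsupport η).isOpen_compl.mem_nhds hx'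
      filter_upwards [this] with y hy
      rw [image_eq_zero_of_notMem_tsupport hy, mul_zero]
    exact (continuousAt_congr (f := fun x => f x * η x) (g := fun _ => 0) h0).2 continuousAt_const

lemma int_mul {U : Set (E m)} (hU : IsOpen U) {f η : E m → ℝ} (hf : ContinuousOn f U)
    (hη : Continuous η) (hc : HasCompactSupport η) (hs : tsupport η ⊆ U) :
    Integrable (fun x => f x * η x) := by
  refine (cont_mul hU hf hη hs).integrable_of_hasCompactSupport ?_
  exact hc.mul_left

lemma int_inner {U : Set (E m)} {f : E m → ℝ} {g : E m → E m} (h : HasWG U f g)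
    {X : E m → E m} (hX : Continuous X) (hc : HasCompactSupport X) (hs : tsupport X ⊆ U) :
    Integrable (fun x => inner ℝ (g x) (X x)) := by
  have hC : IsCompact (tsupport X) := hc
  have h2 := h.loc _ hs hC
  have hgm : AEStronglyMeasurable g (volume.restrict (tsupport X)) :=
    h.meas.mono_measure (Measure.restrict_mono hs le_rfl)
  have h1 : IntegrableOn (fun x => ‖g x‖) (tsupport X) := by
    have h3 : IntegrableOn (fun x => 1 + ‖g x‖ ^ 2) (tsupport X) := by
      refine Integrable.add ?_ h2
      exact integrableOn_const (hC.measure_lt_top.ne)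
    refine Integrable.mono' h3 hgm.norm ?_
    refine Eventually.of_forall fun x => ?_
    simp only [norm_norm]
    nlinarith [sq_nonneg (‖g x‖ - 1), norm_nonneg (g x)]
  obtain ⟨M, hM⟩ := hX.bounded_above_of_compact_support hc
  have h4 : IntegrableOn (fun x => inner ℝ (g x) (X x)) (tsupport X) := by
    refine Integrable.mono' (h1.mul_const M) ?_ ?_
    · exact hgm.inner hX.aestronglyMeasurable
    · refine Eventually.of_forall fun x => ?_
      calc ‖inner ℝ (g x) (X x)‖ ≤ ‖g x‖ * ‖X x‖ := norm_inner_le_norm _ _
        _ ≤ ‖g x‖ * M := mul_le_mul_of_nonneg_left (hM x) (norm_nonneg _)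
  rw [← integrableOn_iff_integrable_of_support_subset (s := tsupport X)]
  · exact h4
  · intro x hx
    by_contra hx'
    exact hx (by simp [image_eq_zero_of_notMem_tsupport hx'])

lemma tsup_comp (X : E m → E m) (j : Fin m) : tsupport (fun x => X x j) ⊆ tsupport X := by
  refine closure_mono ?_
  intro x hx hx'
  exact hx (by simp [hx'])

lemma part1 {U : Set (E m)} (hU : IsOpen U) {f : E m → ℝ} {g : E m → E m} (h : HasWG U f g)
    (X : E m → E m) (hX : ContDiff ℝ 1 X) (hc : HasCompactSupport X) (hs : tsupport X ⊆ U) :
    IntegrableOn (fun x => inner ℝ (g x) (X x)) U ∧ IntegrableOn (fun x => f x * dv X x) U ∧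
    ∫ x in U, inner ℝ (g x) (X x) = -∫ x in U, f x * dv X x := by
  have hXj : ∀ j, ContDiff ℝ 1 (fun x => X x j) := by
    intro j
    exact (contDiff_piLp 2).1 hX j
  have hcj : ∀ j, HasCompactSupport (fun x => X x j) := fun j =>
    hc.of_isClosed_subset (isClosed_tsupport _) (tsup_comp X j)
  have hdc : ∀ j, Continuous (fun x => fderiv ℝ (fun y => X y j) x (bs j)) := fun j =>
    ((hXj j).continuous_fderiv (by norm_num)).clm_apply continuous_const
  have hds : ∀ j, tsupport (fun x => fderiv ℝ (fun y => X y j) x (bs j)) ⊆ tsupport X := by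
    intro j
    refine (closure_mono ?_).trans ((tsupport_fderiv_subset ℝ (f := fun y => X y j)).trans
      (tsup_comp X j))
    intro x hx hx'
    exact hx (by simp [hx'])
  have hdcs : ∀ j, HasCompactSupport (fun x => fderiv ℝ (fun y => X y j) x (bs j)) := fun j =>
    hc.of_isClosed_subset (isClosed_tsupport _) (hds j)
  have hI1 : Integrable (fun x => inner ℝ (g x) (X x)) := int_inner h hX.continuous hc hs
  have hI2 : ∀ j, Integrable (fun x => f x * fderiv ℝ (fun y => X y j) x (bs j)) := fun j =>
    int_mul hU h.cont (hdc j) (hdcs j) ((hds j).trans hs)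
  have hI3 : ∀ j, Integrable (fun x => inner ℝ (g x) (bs j) * X x j) := by
    intro j
    have hc' : HasCompactSupport (fun x => X x j • (bs j : E m)) := by
      refine (hcj j).of_isClosed_subset (isClosed_tsupport _) (closure_mono ?_)
      intro x hx hx'
      exact hx (by simp [hx'])
    have := int_inner h (X := fun x => X x j • bs j)
      ((hXj j).continuous.smul continuous_const) hc' (by
        refine (closure_mono ?_).trans ((tsup_comp X j).trans hs)
        intro x hx hx'
        exact hx (by simp [hx']))
    refine this.congr (Eventually.of_forall fun x => ?_)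
    simp only [inner_smul_right]
    ring
  have hdv : ∀ x, f x * dv X x = ∑ j, f x * fderiv ℝ (fun y => X y j) x (bs j) := by
    intro x
    rw [dv, Finset.mul_sum]
  have hI4 : Integrable (fun x => f x * dv X x) := by
    simp only [hdv]
    exact integrable_finsetSum _ fun j _ => hI2 j
  refine ⟨hI1.integrableOn, hI4.integrableOn, ?_⟩
  have e1 : ∫ x in U, inner ℝ (g x) (X x) = ∫ x, inner ℝ (g x) (X x) := by
    refine setIntegral_eq_integral_of_forall_compl_eq_zero fun x hx => ?_
    rw [image_eq_zero_of_notMem_tsupport (fun h' => hx (hs h')), inner_zero_right]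
  have e2 : ∫ x in U, f x * dv X x = ∫ x, f x * dv X x := by
    refine setIntegral_eq_integral_of_forall_compl_eq_zero fun x hx => ?_
    rw [hdv]
    refine Finset.sum_eq_zero fun j _ => ?_
    have : x ∉ tsupport (fun x => fderiv ℝ (fun y => X y j) x (bs j)) :=
      fun h' => hx (hs (hds j h'))
    have h0 := image_eq_zero_of_notMem_tsupport this
    simp only at h0
    rw [h0, mul_zero]
  rw [e1, e2]
  simp only [hdv]
  have e3 : ∀ x, inner ℝ (g x) (X x) = ∑ j, inner ℝ (g x) (bs j) * X x j := fun x =>
    inner_eq_sum _ _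
  simp only [e3]
  rw [integral_finsetSum _ fun j _ => hI3 j, integral_finsetSum _ fun j _ => hI2 j,
    ← Finset.sum_neg_distrib]
  refine Finset.sum_congr rfl fun j _ => ?_
  rw [h.ibp (fun x => X x j) (hXj j) (hcj j) ((tsup_comp X j).trans hs) (bs j), neg_neg]

lemma grad_apply (ζ : E m → ℝ) (x : E m) (j : Fin m) :
    (gradient ζ x) j = fderiv ℝ ζ x (bs j) := by
  rw [← inner_bs, gradient]
  exact InnerProductSpace.toDual_symm_apply

end WIB_

open WIB_ in
theorem wib_proof : Stmt_WIB := by
  intro m U f g hU h
  refine ⟨part1 hU h, ?_⟩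
  intro ζ hζ hc hs
  have hts : tsupport (gradient ζ) ⊆ tsupport ζ := by
    refine (closure_mono ?_).trans (tsupport_fderiv_subset ℝ (f := ζ))
    intro x hx hx'
    exact hx (by simp [gradient, hx'])
  have hX : ContDiff ℝ 1 (gradient ζ) := by
    have h1 : ContDiff ℝ 1 (fderiv ℝ ζ) := hζ.fderiv_right (by norm_num)
    exact (InnerProductSpace.toDual ℝ (E m)).symm.toContinuousLinearEquiv.contDiff.comp h1
  have key := part1 hU h (gradient ζ) hX
    (hc.of_isClosed_subset (isClosed_tsupport _) hts) (hts.trans hs)
  have e : ∀ x, dv (gradient ζ) x = lp ζ x := by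
    intro x
    unfold dv lp
    simp only [grad_apply]
  simpa only [e] using key

end Pool.Agent.COB
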