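import Pool.Agent.COB.Stmts

/-!
Squad COB, module WLO: the weak gradient is a local notion.
-/

set_option autoImplicit false

namespace Pool.Agent.COB

open MeasureTheory Set Metric Filter Topology
open scoped Manifold

namespace WLO_

theorem int1 {m : ℕ} {V K : Set (E m)} {f h : E m → ℝ} (hf : ContinuousOn f V) (hKV : K ⊆ V)
    (hK : IsCompact K) (hh : Continuous h) (h0 : ∀ x, x ∉ K → h x = 0) :
    Integrable (fun x => f x * h x) := by
  have h1 : IntegrableOn (fun x => f x * h x) K :=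
    ((hf.mono hKV).mul hh.continuousOn).integrableOn_compact hK
  exact h1.integrable_of_forall_notMem_eq_zero fun x hx => by rw [h0 x hx, mul_zero]

theorem int2 {m : ℕ} {V K : Set (E m)} {g : E m → E m} {h : E m → ℝ}
    (hm : AEStronglyMeasurable g (volume.restrict V))
    (hl : IntegrableOn (fun x => ‖g x‖ ^ 2) K) (hKV : K ⊆ V)
    (hK : IsCompact K) (hh : Continuous h) (h0 : ∀ x, x ∉ K → h x = 0) (v : E m) :
    Integrable (fun x => inner ℝ (g x) v * h x) := by
  obtain ⟨C, hC⟩ := hK.exists_bound_of_continuousOn hh.continuousOn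
  have hmK : AEStronglyMeasurable g (volume.restrict K) := hm.mono_set hKV
  have h1 : IntegrableOn (fun x => inner ℝ (g x) v * h x) K := by
    have hb : IntegrableOn (fun x => (‖g x‖ ^ 2 + 1) * (‖v‖ * |C|)) K := by
      refine Integrable.mul_const ?_ _
      exact hl.add (integrableOn_const hK.measure_lt_top.ne)
    refine Integrable.mono' hb ?_ ?_
    · exact ((hmK.inner aestronglyMeasurable_const)).mul hh.aestronglyMeasurable
    · refine (ae_restrict_iff' hK.measurableSet).2 (Eventually.of_forall fun x hx => ?_)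
      rw [norm_mul]
      have h2 : ‖inner ℝ (g x) v‖ ≤ ‖g x‖ * ‖v‖ := norm_inner_le_norm _ _
      have h3 : ‖h x‖ ≤ |C| := (hC x hx).trans (le_abs_self C)
      have h4 : ‖g x‖ ≤ ‖g x‖ ^ 2 + 1 := by nlinarith [sq_nonneg (‖g x‖ - 1)]
      calc ‖inner ℝ (g x) v‖ * ‖h x‖ ≤ (‖g x‖ * ‖v‖) * |C| := by gcongr
        _ = ‖g x‖ * (‖v‖ * |C|) := by ring
        _ ≤ (‖g x‖ ^ 2 + 1) * (‖v‖ * |C|) := by gcongr
  exact h1.integrable_of_forall_notMem_eq_zero fun x hx => by rw [h0 x hx, mul_zero]

end WLO_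

open WLO_ in
theorem wlo_proof : Stmt_WLO := by
  intro m U f g hU hloc
  have hloc' : ∀ x : U, ∃ V : Set (E m), IsOpen V ∧ (x : E m) ∈ V ∧ V ⊆ U ∧ HasWG V f g :=
    fun x => hloc x x.2
  choose V hVo hxV hVU hW using hloc'
  refine ⟨?_, ?_, ?_, ?_⟩
  · intro x hx
    exact (((hW ⟨x, hx⟩).cont).continuousAt ((hVo ⟨x, hx⟩).mem_nhds (hxV ⟨x, hx⟩))).continuousWithinAt
  · obtain ⟨T, hTc, hT⟩ := TopologicalSpace.isOpen_iUnion_countable V hVo
    have hUe : U = ⋃ i : T, V i := by
      apply Subset.antisymm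
      · intro x hx
        have h1 : x ∈ ⋃ i ∈ T, V i := by
          rw [hT]
          exact mem_iUnion.2 ⟨⟨x, hx⟩, hxV ⟨x, hx⟩⟩
        rw [mem_iUnion₂] at h1
        obtain ⟨i, hi, hxi⟩ := h1
        exact mem_iUnion.2 ⟨⟨i, hi⟩, hxi⟩
      · exact iUnion_subset fun i => hVU i
    have : Countable T := hTc.to_subtype
    rw [hUe]
    exact AEStronglyMeasurable.iUnion fun i => (hW i).meas
  · intro C hCU hC
    refine LocallyIntegrableOn.integrableOn_isCompact (fun x hx => ?_) hC
    obtain ⟨ε, hε, hb⟩ := Metric.nhds_basis_closedBall.mem_iff.1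
      ((hVo ⟨x, hCU hx⟩).mem_nhds (hxV ⟨x, hCU hx⟩))
    exact ⟨closedBall x ε, mem_nhdsWithin_of_mem_nhds (closedBall_mem_nhds x hε),
      (hW ⟨x, hCU hx⟩).loc _ hb (isCompact_closedBall x ε)⟩
  · intro η hη hηc hηU v
    set K := tsupport η with hK
    have hKc : IsCompact K := hηc
    obtain ⟨t, ht⟩ := hKc.elim_finite_subcover V hVo (fun x hx =>
      mem_iUnion.2 ⟨⟨x, hηU hx⟩, hxV ⟨x, hηU hx⟩⟩)
    have ht' : K ⊆ ⋃ i : t, V i := by
      intro x hx
      obtain ⟨i, hi, hxi⟩ := mem_iUnion₂.1 (ht hx)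
      exact mem_iUnion.2 ⟨⟨i, hi⟩, hxi⟩
    obtain ⟨ρ, hρ⟩ := SmoothPartitionOfUnity.exists_isSubordinate (𝓘(ℝ, E m))
      (isClosed_tsupport η) (fun i : t => V i) (fun i => hVo i) ht'
    have hρs : ∀ i : t, ContDiff ℝ 1 (ρ i) := fun i =>
      ((ρ i).contMDiff.contDiff).of_le (by exact_mod_cast le_top)
    set ζ : t → E m → ℝ := fun i x => ρ i x * η x with hζ
    have hζc : ∀ i, ContDiff ℝ 1 (ζ i) := fun i => (hρs i).mul hη
    have hζsub : ∀ i, tsupport (ζ i) ⊆ K ∩ V i := by
      intro i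
      have h1 : tsupport (ζ i) ⊆ tsupport (ρ i) := by
        apply closure_mono
        intro x hx h0
        apply hx
        simp only [hζ]
        rw [h0, zero_mul]
      have h2 : tsupport (ζ i) ⊆ K := by
        apply closure_mono
        intro x hx h0
        apply hx
        simp only [hζ]
        rw [h0, mul_zero]
      exact subset_inter h2 (h1.trans (hρ i))
    have hζcs : ∀ i, HasCompactSupport (ζ i) := fun i =>
      hKc.of_isClosed_subset (isClosed_tsupport _) ((hζsub i).trans inter_subset_left)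
    have hsum : ∀ x, η x = ∑ i : t, ζ i x := by
      intro x
      simp only [hζ]
      rw [← Finset.sum_mul]
      by_cases hx : x ∈ K
      · have h1 := ρ.sum_eq_one hx
        rw [finsum_eq_sum_of_fintype] at h1
        rw [h1, one_mul]
      · rw [image_eq_zero_of_notMem_tsupport hx, mul_zero]
    have hder : ∀ x, fderiv ℝ η x v = ∑ i : t, fderiv ℝ (ζ i) x v := by
      intro x
      have h1 : η = fun x => ∑ i : t, ζ i x := funext hsum
      rw [h1, fderiv_fun_sum fun i _ => ((hζc i).differentiable (by norm_num)) x]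
      simp
    have hdc : ∀ i, Continuous (fun x => fderiv ℝ (ζ i) x v) := fun i =>
      ((hζc i).continuous_fderiv (by norm_num)).clm_apply continuous_const
    have hd0 : ∀ i x, x ∉ tsupport (ζ i) → fderiv ℝ (ζ i) x v = 0 := by
      intro i x hx
      have h1 : fderiv ℝ (ζ i) x = 0 := by
        by_contra h
        exact hx (support_fderiv_subset ℝ h)
      rw [h1]
      rfl
    have h0 : ∀ i x, x ∉ tsupport (ζ i) → ζ i x = 0 := fun i x hx =>
      image_eq_zero_of_notMem_tsupport hx
    have hI1 : ∀ i, Integrable (fun x => f x * fderiv ℝ (ζ i) x v) := fun i =>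
      int1 (hW i).cont ((hζsub i).trans inter_subset_right) (hζcs i) (hdc i) (hd0 i)
    have hI2 : ∀ i, Integrable (fun x => inner ℝ (g x) v * ζ i x) := fun i =>
      int2 (hW i).meas ((hW i).loc _ ((hζsub i).trans inter_subset_right) (hζcs i))
        ((hζsub i).trans inter_subset_right) (hζcs i) (hζc i).continuous (h0 i) v
    have e1 : ∀ x, f x * fderiv ℝ η x v = ∑ i : t, f x * fderiv ℝ (ζ i) x v := fun x => by
      rw [hder, Finset.mul_sum]
    have e2 : ∀ x, inner ℝ (g x) v * η x = ∑ i : t, inner ℝ (g x) v * ζ i x := fun x => by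
      rw [hsum, Finset.mul_sum]
    simp_rw [e1, e2]
    rw [integral_finsetSum _ fun i _ => hI1 i, integral_finsetSum _ fun i _ => hI2 i,
      ← Finset.sum_neg_distrib]
    refine Finset.sum_congr rfl fun i _ => ?_
    exact (hW i).ibp (ζ i) (hζc i) (hζcs i) ((hζsub i).trans inter_subset_right) v

end Pool.Agent.COB
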