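import Pool.Agent.COB.Stmts

/-!
# Squad COB: module WMM (maxima, minima, products)
-/

set_option autoImplicit false

namespace Pool.Agent.COB

open MeasureTheory Set Metric Filter Topology

namespace WMM_

variable {m : ℕ}

theorem maxrule (hWBA : Stmt_WBA) (hWPP : Stmt_WPP) (U : Set (E m)) (f h : E m → ℝ)
    (df dh : E m → E m) (hU : IsOpen U) (hf : HasWG U f df) (hh : HasWG U h dh) :
    ∃ dM, HasWG U (fun x => max (f x) (h x)) dM ∧ ∀ x, (h x < f x → dM x = df x) ∧
      (f x ≤ h x → dM x = dh x) := by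
  classical
  obtain ⟨-, hadd, hsmul, hcongr, -, -⟩ := hWBA m U hU
  have h1 := hadd _ _ _ _ hf (hsmul (-1) _ _ hh)
  have h2 := (hWPP m U _ _ hU h1).1
  have h3 := hadd _ _ _ _ hh h2
  refine ⟨fun x => if h x < f x then df x else dh x, ?_, ?_⟩
  · refine hcongr _ _ _ _ h3 (fun x _ => ?_) (Eventually.of_forall fun x => ?_)
    · rcases le_total (f x) (h x) with h4 | h4
      · rw [max_eq_right h4, max_eq_right (by linarith)]
        ring
      · rw [max_eq_left h4, max_eq_left (by linarith)]
        ring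
    · simp only
      by_cases h4 : h x < f x
      · rw [if_pos h4, Set.indicator_of_mem]
        · simp
        · show 0 < f x + -1 * h x
          linarith
      · rw [if_neg h4, Set.indicator_of_notMem]
        · simp
        · show ¬ 0 < f x + -1 * h x
          intro h5
          apply h4
          linarith
  · intro x
    constructor
    · intro h4
      simp only [if_pos h4]
    · intro h4
      simp only [if_neg (not_lt.2 h4)]

theorem minrule (hWBA : Stmt_WBA) (hWPP : Stmt_WPP) (U : Set (E m)) (f h : E m → ℝ)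
    (df dh : E m → E m) (hU : IsOpen U) (hf : HasWG U f df) (hh : HasWG U h dh) :
    ∃ dN, HasWG U (fun x => min (f x) (h x)) dN ∧ ∀ x, (f x < h x → dN x = df x) ∧
      (h x ≤ f x → dN x = dh x) := by
  classical
  obtain ⟨-, hadd, hsmul, hcongr, -, -⟩ := hWBA m U hU
  have h1 := hadd _ _ _ _ hh (hsmul (-1) _ _ hf)
  have h2 := (hWPP m U _ _ hU h1).1
  have h3 := hadd _ _ _ _ hh (hsmul (-1) _ _ h2)
  refine ⟨fun x => if f x < h x then df x else dh x, ?_, ?_⟩
  · refine hcongr _ _ _ _ h3 (fun x _ => ?_) (Eventually.of_forall fun x => ?_)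
    · rcases le_total (f x) (h x) with h4 | h4
      · rw [min_eq_left h4, max_eq_left (by linarith)]
        ring
      · rw [min_eq_right h4, max_eq_right (by linarith)]
        ring
    · simp only
      by_cases h4 : f x < h x
      · rw [if_pos h4, Set.indicator_of_mem]
        · simp
        · show 0 < h x + -1 * f x
          linarith
      · rw [if_neg h4, Set.indicator_of_notMem]
        · simp
        · show ¬ 0 < h x + -1 * f x
          intro h5
          apply h4
          linarith
  · intro x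
    constructor
    · intro h4
      simp only [if_pos h4]
    · intro h4
      simp only [if_neg (not_lt.2 h4)]

theorem prodrule (hWBA : Stmt_WBA) (hWCH : Stmt_WCH) (U : Set (E m)) (f h : E m → ℝ)
    (df dh : E m → E m) (hU : IsOpen U) (hf : HasWG U f df) (hh : HasWG U h dh) :
    HasWG U (fun x => f x * h x) (fun x => h x • df x + f x • dh x) := by
  obtain ⟨-, -, -, hcongr, -, -⟩ := hWBA m U hU
  set Φ : (Fin 2 → ℝ) → ℝ := fun a => a 0 * a 1 with hΦ
  have hΦc : ContDiff ℝ 1 Φ := (contDiff_apply ℝ ℝ 0).mul (contDiff_apply ℝ ℝ 1)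
  have h1 := hWCH m 2 U ![f, h] ![df, dh] univ Φ hU isOpen_univ hΦc.contDiffOn
    (fun i => by
      fin_cases i
      · exact hf
      · exact hh) (fun x _ => mem_univ _)
  refine hcongr _ _ _ _ h1 (fun x _ => ?_) (Eventually.of_forall fun x => ?_)
  · simp [hΦ]
  · have hd : ∀ (a v : Fin 2 → ℝ), fderiv ℝ Φ a v = a 0 * v 1 + a 1 * v 0 := by
      intro a v
      have k0 : HasFDerivAt (fun a : Fin 2 → ℝ => a 0)
          (ContinuousLinearMap.proj (R := ℝ) (φ := fun _ : Fin 2 => ℝ) 0) a :=
        (ContinuousLinearMap.proj (R := ℝ) (φ := fun _ : Fin 2 => ℝ) 0).hasFDerivAt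
      have k1 : HasFDerivAt (fun a : Fin 2 → ℝ => a 1)
          (ContinuousLinearMap.proj (R := ℝ) (φ := fun _ : Fin 2 => ℝ) 1) a :=
        (ContinuousLinearMap.proj (R := ℝ) (φ := fun _ : Fin 2 => ℝ) 1).hasFDerivAt
      rw [(k0.fun_mul k1).fderiv]
      simp
    simp only [Fin.sum_univ_two, hd]
    simp

end WMM_

open WMM_ in
theorem wmm_proof (hWBA : Stmt_WBA) (hWCH : Stmt_WCH) (hWPP : Stmt_WPP) : Stmt_WMM := by
  intro m U f h df dh hU hf hh
  exact ⟨maxrule hWBA hWPP U f h df dh hU hf hh, minrule hWBA hWPP U f h df dh hU hf hh,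
    prodrule hWBA hWCH U f h df dh hU hf hh⟩

end Pool.Agent.COB
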