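import Pool.Agent.COB.Stmts

/-!
# Squad COB: module WMO (mollification of functions with weak gradients)
-/

set_option autoImplicit false

namespace Pool.Agent.COB

open MeasureTheory Set Metric Filter Topology
open scoped ENNReal Convolution ContDiff

namespace WMO_

variable {m : ℕ}

theorem exists_cut (U C : Set (E m)) (hU : IsOpen U) (hCU : C ⊆ U) (hC : IsCompact C) :
    ∃ ψ : E m → ℝ, ContDiff ℝ (⊤ : ℕ∞) ψ ∧ HasCompactSupport ψ ∧ tsupport ψ ⊆ U ∧
      (∀ z ∈ C, ψ z = 1) ∧ (∀ z ∈ C, fderiv ℝ ψ z = 0) := by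
  obtain ⟨K, hK, hCK, hKU⟩ := exists_compact_between hC hU hCU
  obtain ⟨f, h1, h0, -⟩ := exists_contMDiffMap_one_nhds_of_subset_interior
    (modelWithCornersSelf ℝ (E m)) (n := (⊤ : ℕ∞)) hC.isClosed hCK
  have hsup : tsupport f ⊆ K := by
    apply closure_minimal _ hK.isClosed
    intro x hx
    by_contra hxK
    exact hx (h0 x hxK)
  refine ⟨f, f.contMDiff.contDiff, ?_, hsup.trans hKU, fun z hz => ?_, fun z hz => ?_⟩
  · exact IsCompact.of_isClosed_subset hK (isClosed_tsupport _) hsup
  · exact h1.self_of_nhdsSet z hz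
  · have h2 : ∀ᶠ x in 𝓝 z, f x = 1 := h1.filter_mono (nhds_le_nhdsSet hz)
    have h3 : (f : E m → ℝ) =ᶠ[𝓝 z] fun _ => (1 : ℝ) := h2
    rw [h3.fderiv_eq]
    simp

/-! ### mollification in `L²` -/

lemma sq_eLpNorm (u : E m → E m) : eLpNorm u 2 volume ^ (2 : ℝ) = ∫⁻ z, ‖u z‖ₑ ^ (2 : ℝ) := by
  have := eLpNorm_nnreal_pow_eq_lintegral (f := u) (μ := (volume : Measure (E m))) (p := 2)
    (by norm_num)
  simpa using this

/-- continuity of translations in L2 -/
lemma trans_small (g : E m → E m) (hg : MemLp g 2 volume) (ε : ℝ≥0∞) (hε : 0 < ε) :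
    ∃ δ > 0, ∀ t : E m, ‖t‖ < δ → ∫⁻ z, ‖g (z - t) - g z‖ₑ ^ (2 : ℝ) ≤ ε ^ (2 : ℝ) := by
  have : Fact ((1 : ℝ≥0∞) ≤ 2) := ⟨by norm_num⟩
  set f : Lp (E m) 2 (volume : Measure (E m)) := hg.toLp g with hf
  let τ : E m → C(E m, E m) := fun t => ⟨fun z => z - t, by fun_prop⟩
  have hτ : Continuous τ := ContinuousMap.continuous_of_continuous_uncurry _ (by
    show Continuous fun p : E m × E m => p.2 - p.1
    fun_prop)
  have hm : ∀ t, MeasurePreserving (τ t) volume volume := fun t =>
    measurePreserving_sub_right volume t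
  have hc : Continuous fun t => Lp.compMeasurePreserving (τ t) (hm t) f :=
    continuous_const.compMeasurePreservingLp hτ hm (by norm_num)
  have h0 := hc.tendsto 0
  rw [EMetric.tendsto_nhds] at h0
  obtain ⟨δ, hδ, hδ2⟩ := Metric.eventually_nhds_iff.1 (h0 ε hε)
  refine ⟨δ, hδ, fun t ht => ?_⟩
  have h1 := hδ2 (y := t) (by simpa using ht)
  have e1 : Lp.compMeasurePreserving (τ t) (hm t) f =
      (hg.comp_measurePreserving (hm t)).toLp (g ∘ τ t) := rfl
  have e2 : Lp.compMeasurePreserving (τ 0) (hm 0) f =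
      (hg.comp_measurePreserving (hm 0)).toLp (g ∘ τ 0) := rfl
  rw [e1, e2, Lp.edist_toLp_toLp] at h1
  have e3 : (g ∘ τ t - g ∘ τ 0) = fun z => g (z - t) - g z := by
    funext z
    simp [τ]
  rw [e3] at h1
  rw [← sq_eLpNorm]
  exact ENNReal.rpow_le_rpow h1.le (by norm_num)

lemma jensen (φ : ContDiffBump (0 : E m)) (u : E m → E m) (hu : AEStronglyMeasurable u volume) :
    ‖∫ t, φ.normed volume t • u t‖ₑ ^ (2 : ℝ) ≤
      ∫⁻ t, ENNReal.ofReal (φ.normed volume t) * ‖u t‖ₑ ^ (2 : ℝ) := by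
  set ρ : E m → ℝ := φ.normed volume with hρ
  have hρm : Measurable fun t => ENNReal.ofReal (ρ t) :=
    (φ.continuous_normed.measurable).ennreal_ofReal
  have hρn : ∀ t, 0 ≤ ρ t := fun t => φ.nonneg_normed t
  set ν : Measure (E m) := volume.withDensity fun t => ENNReal.ofReal (ρ t) with hν
  have hν1 : ν univ = 1 := by
    rw [hν, withDensity_apply _ MeasurableSet.univ, Measure.restrict_univ,
      ← ofReal_integral_eq_lintegral_ofReal φ.integrable_normed (Eventually.of_forall hρn),
      φ.integral_normed, ENNReal.ofReal_one]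
  have : IsProbabilityMeasure ν := ⟨hν1⟩
  have hac : ν ≪ volume := withDensity_absolutelyContinuous _ _
  have h1 : ‖∫ t, ρ t • u t‖ₑ ≤ ∫⁻ t, ‖u t‖ₑ ∂ν := by
    refine (enorm_integral_le_lintegral_enorm _).trans (le_of_eq ?_)
    rw [hν, lintegral_withDensity_eq_lintegral_mul₀ hρm.aemeasurable hu.enorm]
    refine lintegral_congr fun t => ?_
    simp only [Pi.mul_apply, enorm_smul]
    rw [Real.enorm_of_nonneg (hρn t)]
  have h2 : ∫⁻ t, ‖u t‖ₑ ∂ν ≤ eLpNorm u 2 ν := by
    rw [← eLpNorm_one_eq_lintegral_enorm]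
    exact eLpNorm_le_eLpNorm_of_exponent_le (by norm_num) (hu.mono_ac hac)
  have h3 : eLpNorm u 2 ν ^ (2 : ℝ) = ∫⁻ t, ENNReal.ofReal (ρ t) * ‖u t‖ₑ ^ (2 : ℝ) := by
    have := eLpNorm_nnreal_pow_eq_lintegral (f := u) (μ := ν) (p := 2) (by norm_num)
    have e : eLpNorm u 2 ν ^ (2 : ℝ) = ∫⁻ t, ‖u t‖ₑ ^ (2 : ℝ) ∂ν := by simpa using this
    rw [e, hν, lintegral_withDensity_eq_lintegral_mul₀ hρm.aemeasurable
      (hu.enorm.pow_const _)]
    rfl
  rw [← h3]
  exact ENNReal.rpow_le_rpow (h1.trans h2) (by norm_num)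

theorem mol (g : E m → E m) (hg : AEStronglyMeasurable g volume)
    (hg2 : Integrable (fun z => ‖g z‖ ^ 2)) (ε : ℝ) (hε : 0 < ε) :
    ∃ δ > 0, ∀ φ : ContDiffBump (0 : E m), φ.rOut < δ →
      Integrable (fun z =>
        ‖(φ.normed volume ⋆[ContinuousLinearMap.lsmul ℝ ℝ, volume] g) z - g z‖ ^ 2) ∧
      ∫ z, ‖(φ.normed volume ⋆[ContinuousLinearMap.lsmul ℝ ℝ, volume] g) z - g z‖ ^ 2 ≤ ε := by
  have hmem : MemLp g 2 volume := (memLp_two_iff_integrable_sq_norm hg).2 hg2
  set η : ℝ≥0∞ := ENNReal.ofReal (Real.sqrt ε) with hη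
  have hηpos : 0 < η := ENNReal.ofReal_pos.2 (Real.sqrt_pos.2 hε)
  have hη2 : η ^ (2 : ℝ) = ENNReal.ofReal ε := by
    rw [hη, ENNReal.ofReal_rpow_of_nonneg (Real.sqrt_nonneg _) (by norm_num)]
    congr 1
    rw [Real.rpow_two, Real.sq_sqrt hε.le]
  obtain ⟨δ, hδ, hδ2⟩ := trans_small g hmem η hηpos
  rw [hη2] at hδ2
  refine ⟨δ, hδ, fun φ hφ => ?_⟩
  have hloc : LocallyIntegrable g volume := hmem.locallyIntegrable (by norm_num)
  set ρ : E m → ℝ := φ.normed volume with hρ
  have hρc : Continuous ρ := φ.continuous_normed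
  have hρs : HasCompactSupport ρ := φ.hasCompactSupport_normed
  have hρn : ∀ t, 0 ≤ ρ t := fun t => φ.nonneg_normed t
  have hρi : Integrable ρ volume := φ.integrable_normed
  have hcont : Continuous (ρ ⋆[ContinuousLinearMap.lsmul ℝ ℝ, volume] g) :=
    hρs.continuous_convolution_left _ hρc hloc
  have hex : ConvolutionExists ρ g (ContinuousLinearMap.lsmul ℝ ℝ) volume :=
    hρs.convolutionExists_left _ hρc hloc
  have hid : ∀ z, (ρ ⋆[ContinuousLinearMap.lsmul ℝ ℝ, volume] g) z - g z =
      ∫ t, ρ t • (g (z - t) - g z) := by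
    intro z
    have i1 : Integrable (fun t => ρ t • g (z - t)) volume := by
      have := hex z
      simpa [ConvolutionExistsAt] using this
    have i2 : Integrable (fun t => ρ t • g z) volume := hρi.smul_const _
    have e : ∀ t, ρ t • (g (z - t) - g z) = ρ t • g (z - t) - ρ t • g z := fun t => smul_sub _ _ _
    simp only [e]
    rw [integral_sub i1 i2, integral_smul_const, φ.integral_normed, one_smul]
    simp [convolution]
  have hmeas : AEStronglyMeasurable (fun z =>
      (ρ ⋆[ContinuousLinearMap.lsmul ℝ ℝ, volume] g) z - g z) volume :=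
    hcont.aestronglyMeasurable.sub hg
  have hjm : AEStronglyMeasurable (fun p : E m × E m => g (p.1 - p.2) - g p.1)
      (volume.prod volume) := by
    refine AEStronglyMeasurable.sub ?_ hg.comp_fst
    exact hg.comp_quasiMeasurePreserving
      (quasiMeasurePreserving_sub_of_right_invariant volume volume)
  have hkey : ∫⁻ z, ‖(ρ ⋆[ContinuousLinearMap.lsmul ℝ ℝ, volume] g) z - g z‖ₑ ^ (2 : ℝ) ≤
      ENNReal.ofReal ε := by
    calc ∫⁻ z, ‖(ρ ⋆[ContinuousLinearMap.lsmul ℝ ℝ, volume] g) z - g z‖ₑ ^ (2 : ℝ)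
        ≤ ∫⁻ z, ∫⁻ t, ENNReal.ofReal (ρ t) * ‖g (z - t) - g z‖ₑ ^ (2 : ℝ) := by
          refine lintegral_mono fun z => ?_
          rw [hid z]
          refine jensen φ (fun t => g (z - t) - g z) ?_
          refine AEStronglyMeasurable.sub ?_ aestronglyMeasurable_const
          exact hg.comp_quasiMeasurePreserving
            (quasiMeasurePreserving_sub_left volume z)
      _ = ∫⁻ t, ∫⁻ z, ENNReal.ofReal (ρ t) * ‖g (z - t) - g z‖ₑ ^ (2 : ℝ) := by
          refine lintegral_lintegral_swap ?_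
          refine AEMeasurable.mul ?_ (hjm.enorm.pow_const _)
          exact ((hρc.measurable.ennreal_ofReal).comp measurable_snd).aemeasurable
      _ = ∫⁻ t, ENNReal.ofReal (ρ t) * ∫⁻ z, ‖g (z - t) - g z‖ₑ ^ (2 : ℝ) := by
          refine lintegral_congr fun t => ?_
          rw [lintegral_const_mul' _ _ ENNReal.ofReal_ne_top]
      _ ≤ ∫⁻ t, ENNReal.ofReal (ρ t) * ENNReal.ofReal ε := by
          refine lintegral_mono fun t => ?_
          by_cases ht : ‖t‖ < δ
          · exact mul_le_mul_right (hδ2 t ht) _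
          · have : ρ t = 0 := by
              by_contra h
              have hs : t ∈ Function.support ρ := h
              rw [hρ, φ.support_normed_eq, mem_ball_zero_iff] at hs
              exact ht (hs.trans hφ)
            rw [this]
            simp
      _ = ENNReal.ofReal ε := by
          rw [lintegral_mul_const' _ _ ENNReal.ofReal_ne_top,
            ← ofReal_integral_eq_lintegral_ofReal hρi (Eventually.of_forall hρn),
            φ.integral_normed, ENNReal.ofReal_one, one_mul]
  have hfin : MemLp (fun z => (ρ ⋆[ContinuousLinearMap.lsmul ℝ ℝ, volume] g) z - g z) 2 volume := by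
    refine ⟨hmeas, ?_⟩
    by_contra h
    rw [not_lt, top_le_iff] at h
    have := sq_eLpNorm (fun z => (ρ ⋆[ContinuousLinearMap.lsmul ℝ ℝ, volume] g) z - g z)
    rw [h] at this
    rw [← this] at hkey
    simp at hkey
  have hint := (memLp_two_iff_integrable_sq_norm hmeas).1 hfin
  refine ⟨hint, ?_⟩
  rw [← ENNReal.ofReal_le_ofReal_iff hε.le,
    ofReal_integral_eq_lintegral_ofReal hint (Eventually.of_forall fun z => sq_nonneg _)]
  refine le_trans (le_of_eq ?_) hkey
  refine lintegral_congr fun z => ?_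
  rw [← ofReal_norm, ENNReal.ofReal_rpow_of_nonneg (norm_nonneg _) (by norm_num)]
  congr 1
  rw [Real.rpow_two]

/-! ### integrability -/

/-- a function continuous on `U` times a continuous function with compact support in `U` -/
theorem cont_mul {U : Set (E m)} (hU : IsOpen U) {f φ : E m → ℝ} (hf : ContinuousOn f U)
    (hφ : Continuous φ) (hsub : tsupport φ ⊆ U) : Continuous fun x => f x * φ x := by
  rw [continuous_iff_continuousAt]
  intro x
  by_cases hx : x ∈ U
  · exact (hf.continuousAt (hU.mem_nhds hx)).mul hφ.continuousAt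
  · have hx' : x ∉ tsupport φ := fun h => hx (hsub h)
    have hev : (fun y => f y * φ y) =ᶠ[𝓝 x] fun _ => (0 : ℝ) := by
      have h1 := notMem_tsupport_iff_eventuallyEq.1 hx'
      filter_upwards [h1] with y hy
      rw [hy]
      simp
    exact (continuousAt_const.congr hev.symm)

theorem int1 {U : Set (E m)} (hU : IsOpen U) {f φ : E m → ℝ} (hf : ContinuousOn f U)
    (hφ : Continuous φ) (hc : HasCompactSupport φ) (hsub : tsupport φ ⊆ U) :
    Integrable fun x => f x * φ x :=
  (cont_mul hU hf hφ hsub).integrable_of_hasCompactSupport hc.mul_left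

theorem fderiv_cont {η : E m → ℝ} (hη : ContDiff ℝ 1 η) (v : E m) :
    Continuous fun x => fderiv ℝ η x v :=
  (hη.continuous_fderiv one_ne_zero).clm_apply continuous_const

theorem fderiv_cs {η : E m → ℝ} (hc : HasCompactSupport η) (v : E m) :
    HasCompactSupport fun x => fderiv ℝ η x v :=
  hc.fderiv_apply (𝕜 := ℝ) v

theorem fderiv_tsup {η : E m → ℝ} (v : E m) :
    tsupport (fun x => fderiv ℝ η x v) ⊆ tsupport η :=
  tsupport_fderiv_apply_subset ℝ v

theorem int2 {U : Set (E m)} {g : E m → E m} (hm : AEStronglyMeasurable g (volume.restrict U))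
    (hl : ∀ C : Set (E m), C ⊆ U → IsCompact C → IntegrableOn (fun x => ‖g x‖ ^ 2) C)
    {η : E m → ℝ} (hη : Continuous η) (hc : HasCompactSupport η) (hsub : tsupport η ⊆ U)
    (v : E m) : Integrable fun x => inner ℝ (g x) v * η x := by
  obtain ⟨M, hM⟩ := hη.bounded_above_of_compact_support hc
  have hCc : IsCompact (tsupport η) := hc
  have hmC : AEStronglyMeasurable g (volume.restrict (tsupport η)) := hm.mono_set hsub
  have h1 : IntegrableOn (fun x => (1 + ‖g x‖ ^ 2) * (‖v‖ * M)) (tsupport η) := by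
    refine Integrable.mul_const ?_ _
    exact (integrableOn_const (hCc.measure_lt_top.ne)).add (hl _ hsub hCc)
  have h2 : IntegrableOn (fun x => inner ℝ (g x) v * η x) (tsupport η) := by
    refine Integrable.mono' h1 ?_ ?_
    · exact (hmC.inner aestronglyMeasurable_const).mul hη.aestronglyMeasurable
    · refine Eventually.of_forall fun x => ?_
      rw [norm_mul]
      have h3 : ‖inner ℝ (g x) v‖ ≤ ‖g x‖ * ‖v‖ := norm_inner_le_norm _ _
      have h4 : ‖g x‖ ≤ 1 + ‖g x‖ ^ 2 := by nlinarith [sq_nonneg (‖g x‖ - 1), norm_nonneg (g x)]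
      calc ‖inner ℝ (g x) v‖ * ‖η x‖ ≤ (‖g x‖ * ‖v‖) * M :=
            mul_le_mul h3 (hM x) (norm_nonneg _) (by positivity)
        _ = ‖g x‖ * (‖v‖ * M) := by ring
        _ ≤ (1 + ‖g x‖ ^ 2) * (‖v‖ * M) := by
            refine mul_le_mul_of_nonneg_right h4 (mul_nonneg (norm_nonneg _) ?_)
            exact le_trans (norm_nonneg _) (hM x)
  rw [IntegrableOn] at h2
  rw [← integrableOn_univ]
  refine IntegrableOn.of_forall_sdiff_eq_zero h2 MeasurableSet.univ ?_
  rintro x ⟨_, hx⟩
  rw [image_eq_zero_of_notMem_tsupport hx, mul_zero]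

/-- square integrable and compactly supported functions are integrable -/
theorem int_of_sq (K : Set (E m)) (hK : IsCompact K) (g : E m → E m)
    (hm : AEStronglyMeasurable g volume)
    (h2 : Integrable (fun z => ‖g z‖ ^ 2)) (h0 : ∀ z ∉ K, g z = 0) : Integrable g := by
  have h1 : IntegrableOn g K := by
    have hc : IntegrableOn (fun _ : E m => (1 : ℝ)) K := integrableOn_const hK.measure_lt_top.ne
    refine Integrable.mono' (hc.add h2.integrableOn) hm.restrict ?_
    refine Eventually.of_forall fun z => ?_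
    simp only [Pi.add_apply]
    nlinarith [sq_nonneg (‖g z‖ - 1), norm_nonneg (g z)]
  exact h1.integrable_of_forall_notMem_eq_zero h0

theorem inner_grad (f : E m → ℝ) (x v : E m) : inner ℝ (gradient f x) v = fderiv ℝ f x v := by
  unfold gradient
  exact InnerProductSpace.toDual_symm_apply

theorem grad_cont {f : E m → ℝ} (hf : ContDiff ℝ 1 f) : Continuous (gradient f) := by
  unfold gradient
  exact (InnerProductSpace.toDual ℝ (E m)).symm.continuous.comp (hf.continuous_fderiv one_ne_zero)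

theorem fd_swap (ρ : E m → ℝ) (hρ : ContDiff ℝ (⊤ : ℕ∞) ρ) (z w : E m) :
    HasFDerivAt (fun w => ρ (z - w)) (-(fderiv ℝ ρ (z - w))) w := by
  have hd : Differentiable ℝ ρ := hρ.differentiable (by simp)
  have h1 : HasFDerivAt (fun w : E m => z - w) (-(ContinuousLinearMap.id ℝ (E m))) w :=
    (hasFDerivAt_id w).const_sub z
  have h2 : HasFDerivAt (fun w => ρ (z - w)) ((fderiv ℝ ρ (z - w)).comp
      (-(ContinuousLinearMap.id ℝ (E m)))) w := (hd (z - w)).hasFDerivAt.comp w h1
  have e : (fderiv ℝ ρ (z - w)).comp (-(ContinuousLinearMap.id ℝ (E m))) =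
      -(fderiv ℝ ρ (z - w)) := by
    ext v
    simp
  rw [e] at h2
  exact h2

/-- derivative of the mollification -/
theorem conv_grad {U : Set (E m)} (hU : IsOpen U) {f : E m → ℝ} {g : E m → E m}
    (hf : HasWG U f g) {χ : E m → ℝ} (hχ : ContDiff ℝ (⊤ : ℕ∞) χ) (hχc : HasCompactSupport χ)
    (hχU : tsupport χ ⊆ U)
    (hG : Integrable fun w => χ w • g w + f w • gradient χ w)
    (ρ : E m → ℝ) (hρ : ContDiff ℝ (⊤ : ℕ∞) ρ) (hρc : HasCompactSupport ρ) (z : E m) :
    gradient (ρ ⋆[ContinuousLinearMap.lsmul ℝ ℝ, volume] fun w => f w * χ w) z =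
      (ρ ⋆[ContinuousLinearMap.lsmul ℝ ℝ, volume] fun w => χ w • g w + f w • gradient χ w) z := by
  set u : E m → ℝ := fun w => f w * χ w with hu
  set G : E m → E m := fun w => χ w • g w + f w • gradient χ w with hGd
  have hχ1 : ContDiff ℝ 1 χ := hχ.of_le (by exact_mod_cast le_top)
  have hρ1 : ContDiff ℝ 1 ρ := hρ.of_le (by exact_mod_cast le_top)
  have hui : Integrable u := int1 hU hf.cont hχ.continuous hχc hχU
  have hρd : Continuous (fderiv ℝ ρ) := hρ.continuous_fderiv (by simp)
  have hder := hρc.hasFDerivAt_convolution_left (ContinuousLinearMap.lsmul ℝ ℝ) hρ1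
    hui.locallyIntegrable (μ := volume) z
  obtain ⟨M, hM⟩ := hρ.continuous.bounded_above_of_compact_support hρc
  -- the function `w ↦ ρ (z - w)`
  set r : E m → ℝ := fun w => ρ (z - w) with hr
  have hrs : ContDiff ℝ (⊤ : ℕ∞) r := hρ.comp (contDiff_const.sub contDiff_id)
  have hrf : ∀ w v, fderiv ℝ r w v = -(fderiv ℝ ρ (z - w) v) := by
    intro w v
    rw [(fd_swap ρ hρ z w).fderiv]
    rfl
  have hr1 : ContDiff ℝ 1 r := hrs.of_le (by exact_mod_cast le_top)
  refine ext_inner_right ℝ fun v => ?_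
  rw [inner_grad, hder.fderiv]
  -- the test function
  set η : E m → ℝ := fun w => χ w * r w with hη
  have hη1 : ContDiff ℝ 1 η := hχ1.mul hr1
  have hηc : HasCompactSupport η := hχc.mul_right
  have hηt : tsupport η ⊆ U := (tsupport_mul_subset_left).trans hχU
  have hibp := hf.ibp η hη1 hηc hηt v
  have hηf : ∀ w, fderiv ℝ η w v = fderiv ℝ χ w v * r w - χ w * fderiv ℝ ρ (z - w) v := by
    intro w
    rw [hη, fderiv_fun_mul ((hχ1.differentiable one_ne_zero) w)
      ((hr1.differentiable one_ne_zero) w)]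
    have e := hrf w v
    simp only [_root_.add_apply, _root_.smul_apply, smul_eq_mul, e]
    ring
  have i1 := int1 hU hf.cont (fderiv_cont hη1 v) (fderiv_cs hηc v)
    ((fderiv_tsup (η := η) v).trans hηt)
  have i2 := int2 hf.meas hf.loc hη1.continuous hηc hηt v
  have i3 : Integrable fun w => f w * (fderiv ℝ χ w v * r w) := by
    refine int1 hU hf.cont ((fderiv_cont hχ1 v).mul hr1.continuous) ?_ ?_
    · exact (fderiv_cs hχc v).mul_right
    · exact (tsupport_mul_subset_left).trans ((fderiv_tsup (η := χ) v).trans hχU)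
  have e1 : (fderiv ℝ ρ ⋆[ContinuousLinearMap.precompL (E m) (ContinuousLinearMap.lsmul ℝ ℝ),
      volume] u) z v = ∫ t, fderiv ℝ ρ t v * u (z - t) := by
    have hconv : ConvolutionExistsAt (fderiv ℝ ρ) u z
        (ContinuousLinearMap.precompL (E m) (ContinuousLinearMap.lsmul ℝ ℝ)) volume :=
      (hρc.fderiv ℝ).convolutionExists_left _ hρd hui.locallyIntegrable z
    rw [convolution, ContinuousLinearMap.integral_apply hconv]
    rfl
  have e2 : ∫ t, fderiv ℝ ρ t v * u (z - t) = ∫ w, fderiv ℝ ρ (z - w) v * u w := by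
    rw [← integral_sub_left_eq_self (fun t => fderiv ℝ ρ t v * u (z - t)) volume z]
    simp
  have e3 : (ρ ⋆[ContinuousLinearMap.lsmul ℝ ℝ, volume] G) z = ∫ w, r w • G w := by
    rw [convolution, ← integral_sub_left_eq_self _ volume z]
    refine integral_congr_ae (Eventually.of_forall fun w => ?_)
    simp [hr]
  have i4 : Integrable fun w => r w • G w := by
    exact hG.bdd_smul M hrs.continuous.aestronglyMeasurable (Eventually.of_forall fun w => hM _)
  have e4 : inner ℝ (∫ w, r w • G w) v = ∫ w, inner ℝ (r w • G w) v := by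
    rw [real_inner_comm, ← integral_inner i4 v]
    refine integral_congr_ae (Eventually.of_forall fun w => ?_)
    exact real_inner_comm _ _
  have e5 : ∀ w, inner ℝ (r w • G w) v =
      f w * (fderiv ℝ χ w v * r w) + inner ℝ (g w) v * η w := by
    intro w
    simp only [hGd, hη]
    rw [real_inner_smul_left, inner_add_left, real_inner_smul_left, real_inner_smul_left,
      inner_grad]
    ring
  have e6 : ∀ w, fderiv ℝ ρ (z - w) v * u w =
      f w * (fderiv ℝ χ w v * r w) - f w * fderiv ℝ η w v := by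
    intro w
    rw [hηf w]
    simp only [hu]
    ring
  rw [e1, e2, e3, e4]
  simp only [e5, e6]
  rw [integral_add i3 i2, integral_sub i3 i1, hibp]
  ring

end WMO_

open WMO_ in
theorem wmo_proof : Stmt_WMO := by
  intro m U C f g hU hCU hC hf ε hε
  obtain ⟨χ, hχ, hχc, hχU, hχ1, hχd⟩ := exists_cut U C hU hCU hC
  set u : E m → ℝ := fun w => f w * χ w with hu
  set G : E m → E m := fun w => χ w • g w + f w • gradient χ w with hGd
  set K : Set (E m) := tsupport χ with hK
  have hKc : IsCompact K := hχc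
  have hχ1' : ContDiff ℝ 1 χ := hχ.of_le (by exact_mod_cast le_top)
  have e0 : ∀ w ∉ K, χ w = 0 := fun w hw => image_eq_zero_of_notMem_tsupport hw
  have e1 : ∀ w ∉ K, gradient χ w = 0 := by
    intro w hw
    have : χ =ᶠ[𝓝 w] fun _ => (0 : ℝ) := by
      filter_upwards [(isClosed_tsupport χ).isOpen_compl.mem_nhds hw] with x hx using e0 x hx
    unfold gradient
    rw [this.fderiv_eq]
    simp
  have G0 : ∀ z ∉ K, G z = 0 := fun z hz => by simp [hGd, e0 z hz, e1 z hz]
  have hfK : ContinuousOn f K := hf.cont.mono hχU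
  have hgc : Continuous (gradient χ) := grad_cont hχ1'
  have hmK : AEStronglyMeasurable G (volume.restrict K) := by
    refine AEStronglyMeasurable.add ?_ ?_
    · exact hχ.continuous.aestronglyMeasurable.smul (hf.meas.mono_set hχU)
    · exact (hfK.aestronglyMeasurable hKc.measurableSet).smul hgc.aestronglyMeasurable
  have hGm : AEStronglyMeasurable G volume := by
    have h1 : K.indicator G = G := by
      rw [Set.indicator_eq_self]
      intro x hx
      by_contra h
      exact hx (G0 x h)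
    rw [← h1]
    exact (aestronglyMeasurable_indicator_iff hKc.measurableSet).2 hmK
  obtain ⟨M, hM⟩ := hχ.continuous.bounded_above_of_compact_support hχc
  have hG2K : IntegrableOn (fun z => ‖G z‖ ^ 2) K := by
    have j1 : IntegrableOn (fun z => 2 * M ^ 2 * ‖g z‖ ^ 2) K := (hf.loc K hχU hKc).const_mul _
    have j2 : IntegrableOn (fun z => 2 * (f z ^ 2 * ‖gradient χ z‖ ^ 2)) K :=
      (((hfK.pow 2).mul (hgc.norm.pow 2).continuousOn).integrableOn_compact hKc).const_mul _
    refine Integrable.mono' (j1.add j2) (hmK.norm.pow 2) (Eventually.of_forall fun z => ?_)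
    rw [Real.norm_of_nonneg (by positivity)]
    have h3 : ‖G z‖ ≤ ‖χ z • g z‖ + ‖f z • gradient χ z‖ := norm_add_le _ _
    rw [norm_smul, norm_smul] at h3
    have h4 : ‖G z‖ ^ 2 ≤ (‖χ z‖ * ‖g z‖ + ‖f z‖ * ‖gradient χ z‖) ^ 2 :=
      pow_le_pow_left₀ (norm_nonneg _) h3 2
    have h5 : ‖χ z‖ ^ 2 ≤ M ^ 2 := pow_le_pow_left₀ (norm_nonneg _) (hM z) 2
    have h6 : ‖χ z‖ ^ 2 * ‖g z‖ ^ 2 ≤ M ^ 2 * ‖g z‖ ^ 2 :=
      mul_le_mul_of_nonneg_right h5 (by positivity)
    have h7 : ‖f z‖ ^ 2 = f z ^ 2 := by rw [Real.norm_eq_abs, sq_abs]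
    simp only [Pi.add_apply]
    rw [← h7]
    nlinarith [sq_nonneg (‖χ z‖ * ‖g z‖ - ‖f z‖ * ‖gradient χ z‖)]
  have hG2 : Integrable (fun z => ‖G z‖ ^ 2) := by
    refine hG2K.integrable_of_forall_notMem_eq_zero fun z hz => ?_
    rw [G0 z hz]
    simp
  have hGi : Integrable G := int_of_sq K hKc G hGm hG2 G0
  obtain ⟨δ1, hδ1, hmx⟩ := mol G hGm hG2 ε hε
  have hucont : Continuous u := cont_mul hU hf.cont hχ.continuous hχU
  have hus : HasCompactSupport u := hχc.mul_left
  have hui : Integrable u := hucont.integrable_of_hasCompactSupport hus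
  have huc : UniformContinuous u := hus.uniformContinuous_of_continuous hucont
  obtain ⟨δ3, hδ3, hun⟩ := Metric.uniformContinuous_iff.mp huc ε hε
  set δ := min δ1 δ3 with hδdef
  have hδ : 0 < δ := lt_min hδ1 hδ3
  let φ : ContDiffBump (0 : E m) := ⟨δ / 4, δ / 2, by positivity, by linarith⟩
  have hφ : φ.rOut = δ / 2 := rfl
  have hφ1 : φ.rOut < δ1 := by rw [hφ]; linarith [min_le_left δ1 δ3]
  have hφ3 : φ.rOut < δ3 := by rw [hφ]; linarith [min_le_right δ1 δ3]
  obtain ⟨hix, hlex⟩ := hmx φ hφ1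
  have hρ : ContDiff ℝ (⊤ : ℕ∞) (φ.normed volume) := φ.contDiff_normed
  have hρc : HasCompactSupport (φ.normed volume) := φ.hasCompactSupport_normed
  have hcg := fun z => conv_grad hU hf hχ hχc hχU hGi (φ.normed volume) hρ hρc z
  have hCm : MeasurableSet C := hC.measurableSet
  have hgC : ∀ z ∈ C, g z = G z := by
    intro z hz
    have h1 : gradient χ z = 0 := by
      unfold gradient
      rw [hχd z hz]
      simp
    simp [hGd, hχ1 z hz, h1]
  have hcongr : ∀ z ∈ C, ‖gradient (φ.normed volume ⋆[ContinuousLinearMap.lsmul ℝ ℝ, volume] u) z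
      - g z‖ ^ 2 =
      ‖(φ.normed volume ⋆[ContinuousLinearMap.lsmul ℝ ℝ, volume] G) z - G z‖ ^ 2 := by
    intro z hz
    rw [hcg z, hgC z hz]
  refine ⟨φ.normed volume ⋆[ContinuousLinearMap.lsmul ℝ ℝ, volume] u, ?_, ?_, ?_, ?_⟩
  · exact hρc.contDiff_convolution_left _ hρ hui.locallyIntegrable
  · intro z hz
    have h1 : f z = u z := by simp [hu, hχ1 z hz]
    rw [h1, ← Real.dist_eq]
    apply ContDiffBump.dist_normed_convolution_le hucont.aestronglyMeasurable
    intro x hx
    exact (hun (lt_trans hx hφ3)).le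
  · exact (hix.integrableOn (s := C)).congr_fun (fun z hz => (hcongr z hz).symm) hCm
  · rw [setIntegral_congr_fun hCm hcongr]
    exact (setIntegral_le_integral hix (Eventually.of_forall fun z => by positivity)).trans hlex

end Pool.Agent.COB
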