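import Pool.Agent.COB.Stmts

set_option autoImplicit false

namespace Pool.Agent.COB

open MeasureTheory Set Metric Filter Topology

namespace WPP_

noncomputable section

/-- smooth approximation of the positive part -/
def hh (τ s : ℝ) : ℝ := Real.sqrt ((max s 0) ^ 2 + τ ^ 2) - τ

/-- its derivative -/
def hd (τ s : ℝ) : ℝ := max s 0 / Real.sqrt ((max s 0) ^ 2 + τ ^ 2)

lemma hasDerivAt_sq (s : ℝ) : HasDerivAt (fun t : ℝ => (max t 0) ^ 2) (2 * max s 0) s := by
  rcases lt_trichotomy s 0 with h | h | h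
  · have h1 : (fun t : ℝ => (max t 0) ^ 2) =ᶠ[𝓝 s] fun _ => (0 : ℝ) := by
      filter_upwards [Iio_mem_nhds h] with t ht
      rw [max_eq_right (le_of_lt ht)]
      norm_num
    rw [max_eq_right h.le, mul_zero]
    exact (hasDerivAt_const s (0 : ℝ)).congr_of_eventuallyEq h1
  · subst h
    have h2 : HasFDerivAt (fun t : ℝ => (max t 0) ^ 2) (0 : ℝ →L[ℝ] ℝ) 0 := by
      apply Asymptotics.IsBigO.hasFDerivAt (n := 2)
      · apply Asymptotics.IsBigO.of_bound 1
        refine Eventually.of_forall fun t => ?_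
        rw [sub_zero, one_mul, norm_pow, norm_pow, norm_norm]
        refine pow_le_pow_left₀ (norm_nonneg _) ?_ 2
        rw [Real.norm_eq_abs, Real.norm_eq_abs, abs_of_nonneg (le_max_right _ _)]
        exact max_le (le_abs_self _) (abs_nonneg _)
      · norm_num
    have h3 := h2.hasDerivAt
    simpa using h3
  · have h1 : (fun t : ℝ => (max t 0) ^ 2) =ᶠ[𝓝 s] fun t => t ^ 2 := by
      filter_upwards [Ioi_mem_nhds h] with t ht
      rw [max_eq_left (le_of_lt ht)]
    rw [max_eq_left h.le]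
    have h4 : HasDerivAt (fun t : ℝ => t ^ 2) (2 * s) s := by
      simpa using hasDerivAt_pow 2 s
    exact h4.congr_of_eventuallyEq h1

lemma pos {τ : ℝ} (hτ : 0 < τ) (s : ℝ) : 0 < (max s 0) ^ 2 + τ ^ 2 := by positivity

lemma hasDerivAt_hh {τ : ℝ} (hτ : 0 < τ) (s : ℝ) : HasDerivAt (hh τ) (hd τ s) s := by
  have h1 := (((hasDerivAt_sq s).add_const (τ ^ 2)).sqrt (pos hτ s).ne').sub_const τ
  have h2 : 2 * max s 0 / (2 * Real.sqrt ((max s 0) ^ 2 + τ ^ 2)) = hd τ s := by
    rw [hd, mul_div_mul_left _ _ (by norm_num : (2 : ℝ) ≠ 0)]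
  rw [h2] at h1
  exact h1

lemma cont_hd {τ : ℝ} (hτ : 0 < τ) : Continuous (hd τ) := by
  unfold hd
  refine Continuous.div (by fun_prop) (by fun_prop) fun s => ?_
  exact (Real.sqrt_pos.2 (pos hτ s)).ne'

lemma contDiff_hh {τ : ℝ} (hτ : 0 < τ) : ContDiff ℝ 1 (hh τ) := by
  rw [contDiff_one_iff_deriv]
  refine ⟨fun s => (hasDerivAt_hh hτ s).differentiableAt, ?_⟩
  have h : deriv (hh τ) = hd τ := by
    ext s
    exact (hasDerivAt_hh hτ s).deriv
  rw [h]
  exact cont_hd hτ

lemma hd_nonneg (τ s : ℝ) : 0 ≤ hd τ s := by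
  unfold hd
  positivity

lemma hd_le_one {τ : ℝ} (hτ : 0 < τ) (s : ℝ) : hd τ s ≤ 1 := by
  unfold hd
  rw [div_le_one (Real.sqrt_pos.2 (pos hτ s))]
  refine Real.le_sqrt_of_sq_le ?_
  nlinarith [sq_nonneg τ]

lemma hd_zero {τ s : ℝ} (hs : s ≤ 0) : hd τ s = 0 := by
  unfold hd
  rw [max_eq_right hs, zero_div]

lemma hh_close {τ : ℝ} (hτ : 0 < τ) (s : ℝ) : |hh τ s - max s 0| ≤ τ := by
  have h0 : 0 ≤ max s 0 := le_max_right _ _
  have h1 : max s 0 ≤ Real.sqrt ((max s 0) ^ 2 + τ ^ 2) := by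
    refine Real.le_sqrt_of_sq_le ?_
    nlinarith [sq_nonneg τ]
  have h2 : Real.sqrt ((max s 0) ^ 2 + τ ^ 2) ≤ max s 0 + τ := by
    rw [Real.sqrt_le_left (by positivity)]
    nlinarith [mul_nonneg h0 hτ.le]
  rw [abs_le]
  unfold hh
  constructor <;> linarith

lemma hd_lim {s : ℝ} (hs : 0 < s) (τ : ℕ → ℝ) (hτ : Tendsto τ atTop (𝓝 0)) :
    Tendsto (fun n => hd (τ n) s) atTop (𝓝 1) := by
  have h1 : ContinuousAt (fun t : ℝ => hd t s) 0 := by
    unfold hd
    refine ContinuousAt.div (by fun_prop) (by fun_prop) ?_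
    have : 0 < (max s 0) ^ 2 + (0 : ℝ) ^ 2 := by
      have : 0 < max s 0 := lt_max_of_lt_left hs
      positivity
    exact (Real.sqrt_pos.2 this).ne'
  have h2 : hd 0 s = 1 := by
    unfold hd
    have h3 : max s 0 = s := max_eq_left hs.le
    rw [h3]
    have h4 : s ^ 2 + (0 : ℝ) ^ 2 = s ^ 2 := by ring
    rw [h4, Real.sqrt_sq hs.le, div_self hs.ne']
  have h5 := h1.tendsto.comp hτ
  rw [h2] at h5
  exact h5

lemma chain (hWCH : Stmt_WCH) {m : ℕ} {U : Set (E m)} (hU : IsOpen U) {f : E m → ℝ}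
    {g : E m → E m} (hf : HasWG U f g) {τ : ℝ} (hτ : 0 < τ) :
    HasWG U (fun x => hh τ (f x)) (fun x => hd τ (f x) • g x) := by
  have hF : ∀ z : Fin 1 → ℝ, HasFDerivAt (fun z : Fin 1 → ℝ => hh τ (z 0))
      (hd τ (z 0) • (ContinuousLinearMap.proj (R := ℝ) (φ := fun _ : Fin 1 => ℝ) 0)) z := by
    intro z
    have h1 : HasFDerivAt (fun z : Fin 1 → ℝ => z 0)
        (ContinuousLinearMap.proj (R := ℝ) (φ := fun _ : Fin 1 => ℝ) 0) z :=
      (ContinuousLinearMap.proj (R := ℝ) (φ := fun _ : Fin 1 => ℝ) 0).hasFDerivAt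
    exact (hasDerivAt_hh hτ (z 0)).comp_hasFDerivAt z h1
  have h := hWCH m 1 U (fun _ => f) (fun _ => g) Set.univ (fun z => hh τ (z 0)) hU isOpen_univ
    ((contDiff_hh hτ).comp (contDiff_apply ℝ ℝ 0)).contDiffOn (fun _ => hf) (fun _ _ => mem_univ _)
  have h2 : (fun x => ∑ i : Fin 1, fderiv ℝ (fun z : Fin 1 → ℝ => hh τ (z 0))
      (fun _ => f x) (Pi.single i 1) • g x) = fun x => hd τ (f x) • g x := by
    funext x
    rw [Fin.sum_univ_one, (hF fun _ => f x).fderiv]
    simp
  rw [h2] at h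
  exact h

lemma pp (hWCL : Stmt_WCL) (hWCH : Stmt_WCH) {m : ℕ} {U : Set (E m)} (hU : IsOpen U)
    {f : E m → ℝ} {g : E m → E m} (hf : HasWG U f g) :
    HasWG U (fun x => max (f x) 0) ({x | 0 < f x}.indicator g) := by
  have hopen : IsOpen (U ∩ {x | 0 < f x}) :=
    hf.cont.isOpen_inter_preimage hU isOpen_Ioi
  have hmeas : AEStronglyMeasurable ({x | 0 < f x}.indicator g) (volume.restrict U) := by
    have h1 : AEStronglyMeasurable ((U ∩ {x | 0 < f x}).indicator g) (volume.restrict U) :=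
      hf.meas.indicator hopen.measurableSet
    refine h1.congr ?_
    filter_upwards [ae_restrict_mem hU.measurableSet] with x hx
    by_cases h : 0 < f x
    · rw [Set.indicator_of_mem (show x ∈ U ∩ {x | 0 < f x} from ⟨hx, h⟩),
        Set.indicator_of_mem (show x ∈ {x | 0 < f x} from h)]
    · rw [Set.indicator_of_notMem (fun h' : x ∈ U ∩ {x | 0 < f x} => h h'.2),
        Set.indicator_of_notMem (fun h' : x ∈ {x | 0 < f x} => h h')]
  refine hWCL m U _ _ hU (hf.cont.sup continuousOn_const) hmeas ?_ ?_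
  · intro C hCU hC
    refine Integrable.mono' (hf.loc C hCU hC) ?_ ?_
    · exact ((hmeas.mono_measure (Measure.restrict_mono hCU le_rfl)).norm.pow 2)
    · refine Eventually.of_forall fun x => ?_
      rw [Real.norm_of_nonneg (by positivity)]
      refine pow_le_pow_left₀ (norm_nonneg _) ?_ 2
      exact norm_indicator_le_norm_self _ _
  · intro C hCU hC ε hε
    have hτ : ∀ n : ℕ, 0 < 1 / ((n : ℝ) + 1) := fun n => Nat.one_div_pos_of_nat
    have hτ0 : Tendsto (fun n : ℕ => 1 / ((n : ℝ) + 1)) atTop (𝓝 0) :=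
      tendsto_one_div_add_atTop_nhds_zero_nat
    have hb : ∀ n : ℕ, ∀ x, ‖hd (1 / ((n : ℝ) + 1)) (f x) • g x - {x | 0 < f x}.indicator g x‖ ^ 2
        ≤ ‖g x‖ ^ 2 := by
      intro n x
      refine pow_le_pow_left₀ (norm_nonneg _) ?_ 2
      by_cases h : 0 < f x
      · rw [Set.indicator_of_mem (show x ∈ {x | 0 < f x} from h)]
        have h1 : hd (1 / ((n : ℝ) + 1)) (f x) • g x - g x
            = (hd (1 / ((n : ℝ) + 1)) (f x) - 1) • g x := by
          rw [sub_smul, one_smul]
        rw [h1, norm_smul, Real.norm_eq_abs]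
        have h2 : |hd (1 / ((n : ℝ) + 1)) (f x) - 1| ≤ 1 := by
          rw [abs_le]
          constructor
          · linarith [hd_nonneg (1 / ((n : ℝ) + 1)) (f x)]
          · linarith [hd_le_one (hτ n) (f x)]
        exact mul_le_of_le_one_left (norm_nonneg _) h2
      · rw [Set.indicator_of_notMem (fun h' : x ∈ {x | 0 < f x} => h h'),
          hd_zero (not_lt.1 h)]
        simp
    have hm : ∀ n : ℕ, AEStronglyMeasurable (fun x => ‖hd (1 / ((n : ℝ) + 1)) (f x) • g x -
        {x | 0 < f x}.indicator g x‖ ^ 2) (volume.restrict C) := by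
      intro n
      have h1 := (chain hWCH hU hf (hτ n)).meas.mono_measure (Measure.restrict_mono hCU le_rfl)
      have h2 := hmeas.mono_measure (Measure.restrict_mono hCU le_rfl)
      exact (h1.sub h2).norm.pow 2
    have hlim : Tendsto (fun n : ℕ => ∫ x in C, ‖hd (1 / ((n : ℝ) + 1)) (f x) • g x -
        {x | 0 < f x}.indicator g x‖ ^ 2) atTop (𝓝 (∫ x in C, (0 : ℝ))) := by
      refine tendsto_integral_of_dominated_convergence (fun x => ‖g x‖ ^ 2) hm
        (hf.loc C hCU hC) ?_ ?_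
      · intro n
        refine Eventually.of_forall fun x => ?_
        rw [Real.norm_of_nonneg (by positivity)]
        exact hb n x
      · refine Eventually.of_forall fun x => ?_
        by_cases h : 0 < f x
        · have h1 := ((hd_lim h _ hτ0).smul_const (g x)).sub_const (g x)
          rw [one_smul, sub_self] at h1
          have h2 := h1.norm.pow 2
          rw [norm_zero, zero_pow (by norm_num)] at h2
          refine h2.congr fun n => ?_
          rw [Set.indicator_of_mem (show x ∈ {x | 0 < f x} from h)]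
        · refine tendsto_const_nhds.congr fun n => ?_
          rw [Set.indicator_of_notMem (fun h' : x ∈ {x | 0 < f x} => h h'),
            hd_zero (not_lt.1 h)]
          simp
    rw [integral_zero] at hlim
    have hev1 := hlim.eventually (Iic_mem_nhds hε)
    have hev2 := hτ0.eventually (Iic_mem_nhds hε)
    obtain ⟨n, hn1, hn2⟩ := (hev1.and hev2).exists
    refine ⟨U, fun x => hh (1 / ((n : ℝ) + 1)) (f x),
      fun x => hd (1 / ((n : ℝ) + 1)) (f x) • g x, hU, hCU, subset_rfl,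
      chain hWCH hU hf (hτ n), ?_, ?_, hn1⟩
    · intro x _
      exact (hh_close (hτ n) (f x)).trans hn2
    · refine Integrable.mono' (hf.loc C hCU hC) (hm n) ?_
      refine Eventually.of_forall fun x => ?_
      rw [Real.norm_of_nonneg (by positivity)]
      exact hb n x

end

end WPP_

open WPP_ in
theorem wpp_proof (hWBA : Stmt_WBA) (hWCL : Stmt_WCL) (hWCH : Stmt_WCH) (hWUN : Stmt_WUN) :
    Stmt_WPP := by
  intro m U f g hU hf
  refine ⟨pp hWCL hWCH hU hf, ?_⟩
  obtain ⟨_, hadd, hmul, _, _, _⟩ := hWBA m U hU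
  have h1 := pp hWCL hWCH hU hf
  have h2 := hmul (-1) _ _ (pp hWCL hWCH hU (hmul (-1) f g hf))
  have h3 := hadd _ _ _ _ h1 h2
  have h4 := hWUN m U f _ g _ hU hf h3 (by
    intro x _
    rcases le_total (f x) 0 with h | h
    · rw [max_eq_right h, max_eq_left (by linarith)]
      ring
    · rw [max_eq_left h, max_eq_right (by linarith)]
      ring)
  have h5 := (ae_restrict_iff' hU.measurableSet).1 h4
  filter_upwards [h5] with x hx hxU hfx
  rw [hx hxU, Set.indicator_of_notMem (by simp [hfx]), Set.indicator_of_notMem (by simp [hfx])]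
  simp

end Pool.Agent.COB
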