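import Pool.Agent.COB.Stmts

/-!
Squad COB, module WUN: uniqueness of the weak gradient.
-/

set_option autoImplicit false

namespace Pool.Agent.COB

open MeasureTheory Set Metric Filter Topology
open scoped ENNReal

namespace WUN_

variable {m : ℕ}

theorem intOn {U : Set (E m)} {f : E m → ℝ} {g : E m → E m} (h : HasWG U f g) (v : E m)
    {C : Set (E m)} (hCU : C ⊆ U) (hC : IsCompact C) :
    IntegrableOn (fun x => inner ℝ (g x) v) C := by
  have hm : AEStronglyMeasurable g (volume.restrict C) :=
    h.meas.mono_measure (Measure.restrict_mono hCU le_rfl)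
  have h1 : IntegrableOn (fun x => (1 + ‖g x‖ ^ 2) * ‖v‖) C := by
    refine Integrable.mul_const ?_ _
    refine Integrable.add ?_ (h.loc C hCU hC)
    exact integrableOn_const (hs := hC.measure_lt_top.ne)
  refine Integrable.mono' h1 ?_ ?_
  · exact hm.inner aestronglyMeasurable_const
  · refine ae_of_all _ fun x => ?_
    have h2 := abs_real_inner_le_norm (g x) v
    rw [Real.norm_eq_abs]
    refine h2.trans ?_
    refine mul_le_mul_of_nonneg_right ?_ (norm_nonneg _)
    nlinarith [sq_nonneg (‖g x‖ - 1), norm_nonneg (g x)]

theorem intMul {U : Set (E m)} {f : E m → ℝ} {g : E m → E m} (h : HasWG U f g) (v : E m)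
    {η : E m → ℝ} (hη : Continuous η) (hc : HasCompactSupport η) (hs : tsupport η ⊆ U) :
    Integrable (fun x => inner ℝ (g x) v * η x) := by
  have h1 : IntegrableOn (fun x => inner ℝ (g x) v * η x) (tsupport η) := by
    exact (intOn h v hs hc).mul_continuousOn hη.continuousOn hc
  rwa [integrableOn_iff_integrable_of_support_subset] at h1
  intro x hx
  simp only [Function.mem_support] at hx
  exact subset_tsupport _ (right_ne_zero_of_mul hx)

end WUN_

open WUN_ in
theorem wun_proof : Stmt_WUN := by
  intro m U f h df dh hU hf hh hfh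
  have key : ∀ v : E m, ∀ᵐ x : E m, x ∈ U → inner ℝ (df x) v - inner ℝ (dh x) v = 0 := by
    intro v
    refine hU.ae_eq_zero_of_integral_contDiff_smul_eq_zero ?_ ?_
    · rw [locallyIntegrableOn_iff hU.isLocallyClosed]
      intro C hCU hC
      exact (intOn hf v hCU hC).sub (intOn hh v hCU hC)
    · intro η hη hc hs
      have h1 := hf.ibp η (hη.of_le (by exact_mod_cast le_top)) hc hs v
      have h2 := hh.ibp η (hη.of_le (by exact_mod_cast le_top)) hc hs v
      have h3 : (fun x => f x * fderiv ℝ η x v) = fun x => h x * fderiv ℝ η x v := by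
        funext x
        by_cases hx : x ∈ U
        · rw [hfh x hx]
        · have : fderiv ℝ η x = 0 := by
            by_contra hne
            exact hx (hs (support_fderiv_subset ℝ hne))
          rw [this]
          simp
      rw [h3, h2] at h1
      have h4 : ∫ x, inner ℝ (df x) v * η x = ∫ x, inner ℝ (dh x) v * η x := by linarith
      have i1 := intMul hf v hη.continuous hc hs
      have i2 := intMul hh v hη.continuous hc hs
      have h5 : ∫ x, (inner ℝ (df x) v * η x - inner ℝ (dh x) v * η x) = 0 := by
        rw [integral_sub i1 i2, h4, sub_self]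
      rw [← h5]
      refine integral_congr_ae (ae_of_all _ fun x => ?_)
      simp only [smul_eq_mul]
      ring
  rw [Filter.EventuallyEq, ae_restrict_iff' hU.measurableSet]
  have hall : ∀ᵐ x : E m, ∀ j : Fin m, x ∈ U →
      inner ℝ (df x) (bs j) - inner ℝ (dh x) (bs j) = 0 := by
    rw [ae_all_iff]
    intro j
    exact key (bs j)
  filter_upwards [hall] with x hx hxU
  ext j
  have := hx j hxU
  simp only [EuclideanSpace.inner_single_right, one_mul, conj_trivial] at this
  linarith

end Pool.Agent.COB
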