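import Pool.Agent.COB.Stmts
import Pool.Agent.COB.WBA
import Pool.Agent.COB.WUN
import Pool.Agent.COB.WMO
import Pool.Agent.COB.WCL
import Pool.Agent.COB.WLO
import Pool.Agent.COB.WCH
import Pool.Agent.COB.WPP
import Pool.Agent.COB.WMM
import Pool.Agent.COB.WIB
import Pool.Agent.COB.WEX
import Pool.Agent.COB.WIT
import Pool.Agent.COB.WCZ
import Pool.Agent.COB.WGL
import Pool.Agent.COB.TBA
import Pool.Agent.COB.TPT
import Pool.Agent.COB.MVG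
import Pool.Agent.COB.HAR
import Pool.Agent.COB.HCN
import Pool.Agent.COB.SMP
import Pool.Agent.COB.CMP
import Pool.Agent.COB.H0L
import Pool.Agent.COB.HF2
import Pool.Agent.COB.LPC
import Pool.Agent.COB.JBM
import Pool.Agent.COB.GEF
import Pool.Agent.COB.KER
import Pool.Agent.COB.KF2
import Pool.Agent.COB.FUB
import Pool.Agent.COB.DCH
import Pool.Agent.COB.HSC
import Pool.Agent.COB.HOP
import Pool.Agent.COB.HMO
import Pool.Agent.COB.GL1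
import Pool.Agent.COB.BAR
import Pool.Agent.COB.TON
import Pool.Agent.COB.OD1
import Pool.Agent.COB.ODD
import Pool.Agent.COB.BOO
import Pool.Agent.COB.LAY
import Pool.Agent.COB.VLB
import Pool.Agent.COB.THE
import Pool.Agent.COB.ENF
import Pool.Agent.COB.STR
import Pool.Agent.COB.TRP
import Pool.Agent.COB.EUL
import Pool.Agent.COB.GLH
import Pool.Agent.COB.KAT
import Pool.Agent.COB.PRS
import Pool.Agent.COB.SZ1
import Pool.Agent.COB.SIZ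
import Pool.Agent.COB.CO0
import Pool.Agent.COB.CO1
import Pool.Agent.COB.CONX
import Pool.Agent.COB.CLS
import Pool.Agent.COB.RLC
import Pool.Agent.COB.SRT
import Pool.Agent.COB.DBW
import Pool.Agent.COB.BR2
import Pool.Agent.COB.BR3
import Pool.Agent.COB.BR4
import Pool.Agent.COB.CHT
import Pool.Agent.COB.NULL
import Pool.Agent.COB.FIN

/-!
Squad COB: assembly.
-/

set_option autoImplicit false

namespace Pool.Agent.COB

open MeasureTheory Set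

theorem T_WBA : Stmt_WBA := wba_proof
theorem T_WUN : Stmt_WUN := wun_proof
theorem T_WMO : Stmt_WMO := wmo_proof
theorem T_WCL : Stmt_WCL := wcl_proof
theorem T_WLO : Stmt_WLO := wlo_proof
theorem T_WCH : Stmt_WCH := wch_proof T_WBA T_WMO T_WCL
theorem T_WPP : Stmt_WPP := wpp_proof T_WBA T_WCL T_WCH T_WUN
theorem T_WMM : Stmt_WMM := wmm_proof T_WBA T_WCH T_WPP
theorem T_WIB : Stmt_WIB := wib_proof
theorem T_WEX : Stmt_WEX := wex_proof T_WBA T_WUN T_WLO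
theorem T_LPC : Stmt_LPC := lpc_proof
theorem T_WIT : Stmt_WIT := wit_proof T_WIB T_WEX T_LPC
theorem T_WCZ : Stmt_WCZ := wcz_proof T_WEX T_WMO
theorem T_WGL : Stmt_WGL := wgl_proof T_WBA T_WPP T_WIB
theorem T_TBA : Stmt_TBA := tba_proof T_WBA T_WPP T_WMM
theorem T_TPT : Stmt_TPT := tpt_proof T_WBA T_WUN T_WLO T_WPP T_WEX T_WGL
theorem T_MVG : Stmt_MVG := mvg_proof T_WBA T_WIB
theorem T_HAR : Stmt_HAR := har_proof T_MVG
theorem T_HCN : Stmt_HCN := hcn_proof T_HAR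
theorem T_SMP : Stmt_SMP := smp_proof T_HAR
theorem T_CMP : Stmt_CMP := cmp_proof T_WBA T_WPP T_WEX T_WCZ
theorem T_H0L : Stmt_H0L := h0l_proof T_WBA T_WPP T_WUN T_WEX
theorem T_HF2 : Stmt_HF2 := hf2_proof T_WIB
theorem T_JBM : Stmt_JBM := jbm_proof T_LPC
theorem T_GEF : Stmt_GEF := gef_proof
theorem T_KER : Stmt_KER := ker_proof T_LPC T_JBM T_GEF
theorem T_KF2 : Stmt_KF2 := kf2_proof T_LPC T_JBM T_GEF
theorem T_FUB : Stmt_FUB := fub_proof T_GEF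
theorem T_DCH : Stmt_DCH := dch_proof T_SMP T_GEF
theorem T_HSC : Stmt_HSC := hsc_proof T_HCN T_GEF
theorem T_HOP : Stmt_HOP := hop_proof T_WBA T_WEX T_WIT T_CMP T_LPC T_GEF T_HSC
theorem T_HMO : Stmt_HMO := hmo_proof T_HOP T_GEF
theorem T_GL1 : Stmt_GL1 := gl1_proof T_H0L T_HF2 T_KF2 T_HSC T_GEF T_TBA T_TPT T_JBM T_LPC
theorem T_BAR : Stmt_BAR := bar_proof T_WBA T_WEX T_WIT T_CMP T_LPC T_GEF
theorem T_TON : Stmt_TON := ton_proof T_JBM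
theorem T_OD1 : Stmt_OD1 := od1_proof T_WBA T_WIB T_WGL T_WEX T_TBA T_TPT T_H0L T_HF2 T_LPC T_GEF
theorem T_ODD : Stmt_ODD := odd_proof T_OD1 T_LPC T_JBM T_GEF T_KER T_KF2 T_TON
theorem T_BOO : Stmt_BOO := boo_proof T_GEF T_HMO T_GL1 T_TON T_ODD
theorem T_LAY : Stmt_LAY := lay_proof T_WBA T_WIB T_WEX T_LPC T_GEF T_FUB
theorem T_VLB : Stmt_VLB := vlb_proof T_WBA T_WPP T_LPC T_GEF T_FUB
theorem T_THE : Stmt_THE := the_proof T_LPC
theorem T_ENF : Stmt_ENF := enf_proof T_WBA T_WUN T_WPP T_WMM T_WEX T_WIT T_TBA T_TPT T_GEF T_FUB T_LAY T_THE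
theorem T_STR : Stmt_STR := str_proof
theorem T_TRP : Stmt_TRP := trp_proof T_STR
theorem T_EUL : Stmt_EUL := eul_proof T_WEX T_TBA T_TPT T_GEF T_TRP
theorem T_GLH : Stmt_GLH := glh_proof T_WBA T_WEX T_WGL T_TPT T_GEF T_EUL
theorem T_KAT : Stmt_KAT := kat_proof T_WBA T_WUN T_WPP T_WMM T_WEX T_TBA
theorem T_PRS : Stmt_PRS := prs_proof T_WBA T_WUN T_WPP T_WGL T_WEX T_WIT T_TBA T_TPT T_LPC T_GEF T_STR T_EUL T_KAT
theorem T_SZ1 : Stmt_SZ1 := sz1_proof T_WBA T_WPP T_WEX T_TBA T_TPT T_LPC T_GEF T_BAR T_STR T_EUL T_PRS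
theorem T_SIZ : Stmt_SIZ := siz_proof T_MVG T_GEF T_FUB T_HMO T_GL1 T_BOO T_STR T_PRS T_SZ1
theorem T_CO0 : Stmt_CO0 := co0_proof T_WBA T_WUN T_WMM T_WEX T_TBA T_TPT T_H0L T_GEF T_STR T_TRP T_EUL
theorem T_CO1 : Stmt_CO1 := co1_proof T_WBA T_WUN T_WPP T_WMM T_WEX T_TBA T_GEF T_STR T_CO0
theorem T_CON : Stmt_CON := con_proof T_WBA T_GEF T_DCH T_HOP T_HMO T_FUB T_VLB T_ENF T_STR T_EUL T_PRS T_SIZ T_CO1 T_WEX
theorem T_CLS : Stmt_CLS := cls_proof T_WBA T_TBA T_TPT T_GEF T_STR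
theorem T_RLC : Stmt_RLC := rlc_proof T_WBA T_SMP T_GEF T_FUB T_STR T_GLH T_CON T_CLS T_WEX
theorem T_SRT : Stmt_SRT := srt_proof
theorem T_DBW : Stmt_DBW := dbw_proof
theorem T_BR2 : Stmt_BR2 := br2_proof T_SRT T_DBW T_WBA T_WUN T_WCH T_WPP
theorem T_BR3 : Stmt_BR3 := br3_proof T_SRT T_WMO
theorem T_BR4 : Stmt_BR4 := br4_proof T_SRT T_BR2 T_BR3 T_WBA T_WLO T_WUN
theorem T_CHT : Stmt_CHT := cht_proof T_LPC
theorem T_NUL : Stmt_NUL := nul_proof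
theorem T_FIN : Stmt_FIN := fin_proof T_SRT T_BR4 T_CHT T_NUL T_RLC

/-- the main theorem -/
theorem main (d k : ℕ) (Om Op Omi ga : Set (E (d + 1))) (φ : E (d + 1) → ℝ)
    (gp : E (d + 1) → Sym ℝ (k + 1)) (gm : E (d + 1) → Sym ℝ k) (hs : IsSplit Om Op Omi ga)
    (hφ : IsC2On ga φ) (hmin : DirMin Om Op Omi ga φ gp gm) :
    Measure.hausdorffMeasure (d : ℝ) {p | p ∈ ga ∧ ¬ RegPt Op Omi ga gp gm p} = 0 :=
  T_FIN d k Om Op Omi ga φ gp gm hs hφ hmin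

end Pool.Agent.COB
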