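import Pool.Agent.COB.Stmts

/-!
Squad COB, module SIZ: size control of the truncations by the height of the difference of the
extreme sheets.
-/

set_option autoImplicit false

namespace Pool.Agent.COB

open MeasureTheory Set Metric Filter Topology
open scoped ENNReal

noncomputable section

namespace SIZ_

variable {m : ℕ}

theorem om_le_one (y : E m) : om y ≤ 1 := by
  unfold om
  have h1 : max 0 (1 - ‖y‖ ^ 2) ≤ 1 := by
    apply max_le (by norm_num)
    nlinarith [sq_nonneg ‖y‖]
  have h0 : 0 ≤ max 0 (1 - ‖y‖ ^ 2) := le_max_left _ _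
  nlinarith

theorem om_nonneg (y : E m) : 0 ≤ om y := by
  unfold om; positivity

theorem om_cont : Continuous (om : E m → ℝ) := by
  unfold om; fun_prop

theorem isOpen_Sd {F : E m → ℝ} (hF : Continuous F) (p : E m) (r : ℝ) :
    IsOpen (Sd F (ball p r)) := by
  have : Sd F (ball p r) = ball p r ∩ F ⁻¹' (Ioi 0) := by
    ext x; simp [Sd]
  rw [this]
  exact isOpen_ball.inter (isOpen_Ioi.preimage hF)

/-- splitting of the integral over a ball -/
theorem split {F f : E m → ℝ} (hF : Continuous F) {p : E m} {R s : ℝ} (hs : s ≤ R)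
    (hnull : volume {x | x ∈ ball p R ∧ F x = 0} = 0) (hf : IntegrableOn f (ball p s)) :
    ∫ x in ball p s, f x =
      (∫ x in Sd F (ball p s), f x) + ∫ x in Sd (fun x => -F x) (ball p s), f x := by
  have hd : Disjoint (Sd F (ball p s)) (Sd (fun x => -F x) (ball p s)) := by
    rw [Set.disjoint_left]
    intro x hx hy
    have h1 := hx.2
    have h2 := hy.2
    simp only at h2
    linarith
  have hF' : Continuous (fun x => -F x) := hF.neg
  have hae : (Sd F (ball p s) ∪ Sd (fun x => -F x) (ball p s) : Set (E m)) =ᵐ[volume]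
      ball p s := by
    apply ae_eq_set.2
    constructor
    · have : (Sd F (ball p s) ∪ Sd (fun x => -F x) (ball p s)) \ ball p s = ∅ := by
        ext x
        simp only [Set.mem_sdiff, mem_union, mem_empty_iff_false, iff_false, not_and, not_not]
        rintro (h | h)
        · exact h.1
        · exact h.1
      rw [this]; simp
    · apply measure_mono_null _ hnull
      rintro x ⟨hx, hx2⟩
      refine ⟨ball_subset_ball hs hx, ?_⟩
      by_contra hne
      apply hx2
      rcases lt_or_gt_of_ne hne with h | h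
      · right; exact ⟨hx, by simpa using h⟩
      · left; exact ⟨hx, h⟩
  rw [← setIntegral_congr_set hae]
  rw [setIntegral_union hd (isOpen_Sd hF' p s).measurableSet]
  · exact hf.mono_set fun x hx => hx.1
  · exact hf.mono_set fun x hx => hx.1

/-- mean value estimate -/
theorem mean {M0 C3 : ℝ} (hM0 : M0 = ∫ y : E m, om y)
    (hMV : ∀ (V : Set (E m)) (K : ℝ) (f : E m → ℝ) (g : E m → E m) (a : E m) (ρ : ℝ),
      IsOpen V → WSub V K f g → 0 ≤ K → 0 < ρ → closedBall a ρ ⊆ V →
      (∫ y : E m, om y) * f a ≤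
        (ρ ^ m)⁻¹ * (∫ x in ball a ρ, om (ρ⁻¹ • (x - a)) * f x) + C3 * K * ρ ^ 2)
    {p x : E m} {R L r I : ℝ} {f : E m → ℝ} {g : E m → E m} (hL : 0 ≤ L)
    (hf : SH (ball p R) L f g) (hr : 0 < r) (hrR : 2 * r < R) (hx : x ∈ ball p r)
    (hI : ∫ y in ball p (2 * r), f y ≤ I) :
    M0 * f x ≤ (r ^ m)⁻¹ * I + C3 * L * r ^ 2 := by
  have hsub : closedBall x r ⊆ ball p (2 * r) := by
    intro y hy
    rw [mem_closedBall] at hy
    rw [mem_ball] at hx ⊢
    calc dist y p ≤ dist y x + dist x p := dist_triangle _ _ _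
      _ < 2 * r := by linarith
  have h2R : ball p (2 * r) ⊆ ball p R := ball_subset_ball hrR.le
  have h1 := hMV (ball p R) L f g x r isOpen_ball hf.sub hL hr (hsub.trans h2R)
  have hint : IntegrableOn f (closedBall p (2 * r)) := by
    apply ContinuousOn.integrableOn_compact (isCompact_closedBall _ _)
    exact hf.sub.1.cont.mono (closedBall_subset_ball hrR)
  have hint2 : IntegrableOn f (ball p (2 * r)) := hint.mono_set ball_subset_closedBall
  have hint3 : IntegrableOn f (ball x r) :=
    hint2.mono_set (ball_subset_closedBall.trans hsub)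
  have h2 : ∫ y in ball x r, om (r⁻¹ • (y - x)) * f y ≤ ∫ y in ball x r, f y := by
    apply setIntegral_mono_on
    · have h3 : IntegrableOn (fun y => om (r⁻¹ • (y - x)) * f y) (ball x r) := by
        refine Integrable.bdd_mul (c := 1) hint3 ?_ ?_
        · exact (om_cont.comp (by fun_prop)).aestronglyMeasurable
        · exact Filter.Eventually.of_forall fun y => by
            rw [Real.norm_of_nonneg (om_nonneg _)]; exact om_le_one _
      exact h3
    · exact hint3
    · exact measurableSet_ball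
    · intro y hy
      have h4 : 0 ≤ f y := hf.nn y (h2R (hsub (ball_subset_closedBall hy)))
      have h5 := om_le_one (r⁻¹ • (y - x))
      nlinarith
  have h3 : ∫ y in ball x r, f y ≤ ∫ y in ball p (2 * r), f y := by
    apply setIntegral_mono_set hint2
    · filter_upwards [ae_restrict_mem measurableSet_ball] with y hy
      exact hf.nn y (h2R hy)
    · exact (ball_subset_closedBall.trans hsub).eventuallyLE
  have h4 : (0:ℝ) ≤ (r ^ m)⁻¹ := by positivity
  rw [hM0]
  calc (∫ y : E m, om y) * f x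
      ≤ (r ^ m)⁻¹ * (∫ y in ball x r, om (r⁻¹ • (y - x)) * f y) + C3 * L * r ^ 2 := h1
    _ ≤ (r ^ m)⁻¹ * I + C3 * L * r ^ 2 := by
        have h5 := mul_le_mul_of_nonneg_left ((h2.trans h3).trans hI) h4
        linarith

end SIZ_

open SIZ_ in
theorem siz_proof (hMVG : Stmt_MVG) (_hGEF : Stmt_GEF) (hFUB : Stmt_FUB) (hHMO : Stmt_HMO)
    (hGL1 : Stmt_GL1) (hBOO : Stmt_BOO) (_hSTR : Stmt_STR) (hPRS : Stmt_PRS)
    (hSZ1 : Stmt_SZ1) : Stmt_SIZ := by
  intro d k F φ p R L i v gv w gw hgeo hcfg hpos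
  have hm : 0 < d + 1 := Nat.succ_pos d
  have hR : 0 < R := hgeo.hR
  have hL1 : 1 ≤ L := hgeo.hL
  have hL : 0 ≤ L := by linarith
  have hFc : Continuous F := hgeo.cF.continuous
  obtain ⟨⟨dG, dH, hodd⟩, K, hK, hKb⟩ := hSZ1 (d + 1) k F φ p R L i v gv w gw hm hgeo hcfg
  obtain ⟨G, hG⟩ : ∃ G : E (d + 1) → ℝ, G = fun x => v (Fin.last (k + 1)) x - v 0 x := ⟨_, rfl⟩
  obtain ⟨H, hH⟩ : ∃ H : E (d + 1) → ℝ,
    H = fun x => PP F φ v w 0 x + RR F φ v w (Fin.last k) x := ⟨_, rfl⟩
  rw [← hG, ← hH] at hodd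
  have hpos' : ∀ r : ℝ, 0 < r → r ≤ R / 8 → 0 < G (pN F p r) := by
    intro r h1 h2; rw [hG]; exact hpos r h1 h2
  obtain ⟨A0, hA0, r0, hr0, hr0R, hB⟩ := hBOO (d + 1) F φ p R L i G dG H dH hm hgeo hodd hpos'
  obtain ⟨C1, hC1, κ, hκ, hGL⟩ := hGL1 (d + 1) hm
  obtain ⟨C2, hC2, hHM⟩ := hHMO (d + 1) hm
  obtain ⟨hM0pos, C3, hC3, hMV⟩ := hMVG (d + 1) hm
  obtain ⟨M0, hM0⟩ : ∃ M0 : ℝ, M0 = ∫ y : E (d + 1), om y := ⟨_, rfl⟩
  rw [← hM0] at hM0pos
  obtain ⟨-, -, -, -, hFU⟩ := hFUB d i
  obtain ⟨-, hnull, -, -⟩ := hFU F φ p R L hgeo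
  obtain ⟨ω, hω⟩ : ∃ ω : ℝ, ω = (volume (ball (0 : E (d + 1)) 1)).toReal := ⟨_, rfl⟩
  have hω0 : 0 ≤ ω := by rw [hω]; exact ENNReal.toReal_nonneg
  have hR1 : R ≤ 1 := by
    have := hgeo.sm
    have hd : (1:ℝ) ≤ ((d + 1 : ℕ) : ℝ) := by exact_mod_cast hm
    have h1 : R ≤ 1000 * ((d + 1 : ℕ) : ℝ) * L * R := by
      have h2 : (1:ℝ) ≤ 1000 * ((d + 1 : ℕ) : ℝ) * L := by nlinarith
      nlinarith
    linarith
  -- the constants
  obtain ⟨A1, hA1⟩ : ∃ A1 : ℝ, A1 = M0⁻¹ * (2 ^ (d + 1) * ((C1 + A0) * (2 * C2) +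
    2 * K * ω * A0) + C3 * L * A0) := ⟨_, rfl⟩
  have hA1nn : 0 ≤ A1 := by rw [hA1]; positivity
  refine ⟨A0 + A1, by positivity, min (r0 / 2) (min (R / 64) (κ / (2 * L))), ?_, ?_, ?_⟩
  · have : 0 < κ / (2 * L) := by positivity
    have : 0 < R / 64 := by positivity
    have : 0 < r0 / 2 := by positivity
    simp only [lt_min_iff]
    exact ⟨by assumption, by assumption, by assumption⟩
  · have : min (r0 / 2) (min (R / 64) (κ / (2 * L))) ≤ R / 64 :=
      (min_le_right _ _).trans (min_le_left _ _)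
    linarith
  intro r hr hr1
  have hr2 : 2 * r ≤ r0 := by
    have := hr1.trans (min_le_left _ _)
    linarith
  have hr3 : 64 * r ≤ R := by
    have := hr1.trans ((min_le_right _ _).trans (min_le_left _ _))
    linarith
  have hr4 : L * (2 * r) ≤ κ := by
    have := hr1.trans ((min_le_right _ _).trans (min_le_right _ _))
    rw [le_div_iff₀ (by positivity)] at this
    linarith
  have hYr : 0 < G (pN F p r) := hpos' r hr (by linarith)
  have hY2r : 0 < G (pN F p (2 * r)) := hpos' (2 * r) (by linarith) (by linarith)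
  have hrA : r ≤ A0 * G (pN F p r) := (hB r hr (by linarith)).1
  have hH2 : ∫ x in Sd (fun x => -F x) (ball p (2 * r)), H x ≤
      A0 * (2 * r) ^ (d + 1) * G (pN F p (2 * r)) := (hB (2 * r) (by linarith) hr2).2
  obtain ⟨hGi, hG2⟩ := hGL F φ p R L i G dG hgeo hodd.hG hodd.eG hodd.cG hodd.nG (2 * r)
    (by linarith) (by linarith) hr4
  have hdoub : G (pN F p (2 * r)) ≤ 2 * C2 * G (pN F p r) := by
    have h1 := hHM F φ p R L i G dG hgeo hodd.hG hodd.cG hodd.nG r (2 * r) hr (by linarith)
      (by linarith)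
    rw [div_le_iff₀ (by linarith)] at h1
    have h2 : C2 * (G (pN F p r) / r) * (2 * r) = 2 * C2 * G (pN F p r) := by
      field_simp
    linarith
  have hvol : (volume (ball p (2 * r))).toReal = (2 * r) ^ (d + 1) * ω := by
    rw [hω, Measure.addHaar_ball volume p (by linarith : (0:ℝ) ≤ 2 * r)]
    rw [ENNReal.toReal_mul, ENNReal.toReal_ofReal (by positivity)]
    simp
  have h2rR : 2 * r < R := by linarith
  -- the main estimate for a function `f`
  have key : ∀ (f : E (d + 1) → ℝ) (g : E (d + 1) → E (d + 1)), SH (ball p R) L f g →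
      (∀ x ∈ Sc F (ball p (R / 2)), f x ≤ G x + K * ‖x - p‖) →
      (∀ x ∈ ball p R, F x < 0 → f x ≤ H x) →
      ∀ x ∈ ball p r, f x ≤ (A0 + A1) * G (pN F p r) := by
    intro f g hf hfp hfm x hx
    have hint : IntegrableOn f (closedBall p (2 * r)) := by
      apply ContinuousOn.integrableOn_compact (isCompact_closedBall _ _)
      exact hf.sub.1.cont.mono (closedBall_subset_ball h2rR)
    have hint2 : IntegrableOn f (ball p (2 * r)) := hint.mono_set ball_subset_closedBall
    have hsplit := split hFc h2rR.le hnull hint2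
    -- upper part
    have hU : ∫ y in Sd F (ball p (2 * r)), f y ≤
        C1 * (2 * r) ^ (d + 1) * G (pN F p (2 * r)) + 2 * K * r * ((2 * r) ^ (d + 1) * ω) := by
      have hc : IntegrableOn (fun _ : E (d + 1) => 2 * K * r) (Sd F (ball p (2 * r))) := by
        exact integrableOn_const
          ((measure_mono (fun x hx => hx.1)).trans_lt measure_ball_lt_top).ne
      have h1 : ∫ y in Sd F (ball p (2 * r)), f y ≤
          ∫ y in Sd F (ball p (2 * r)), (G y + 2 * K * r) := by
        apply setIntegral_mono_on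
        · exact hint2.mono_set fun x hx => hx.1
        · exact hGi.add hc
        · exact (isOpen_Sd hFc p _).measurableSet
        · intro y hy
          have h2 : y ∈ Sc F (ball p (R / 2)) :=
            ⟨ball_subset_ball (by linarith) hy.1, hy.2.le⟩
          have h3 := hfp y h2
          have h4 : ‖y - p‖ ≤ 2 * r := by
            have := hy.1
            rw [mem_ball, dist_eq_norm] at this
            exact this.le
          have h5 : K * ‖y - p‖ ≤ K * (2 * r) := mul_le_mul_of_nonneg_left h4 hK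
          linarith
      rw [integral_add hGi hc] at h1
      have h6 : ∫ y in Sd F (ball p (2 * r)), (2 * K * r : ℝ) ≤
          2 * K * r * ((2 * r) ^ (d + 1) * ω) := by
        rw [setIntegral_const, smul_eq_mul, mul_comm]
        apply mul_le_mul_of_nonneg_left _ (by positivity)
        rw [← hvol]
        exact ENNReal.toReal_mono measure_ball_lt_top.ne (measure_mono fun x hx => hx.1)
      linarith
    have hD : ∫ y in Sd (fun x => -F x) (ball p (2 * r)), f y ≤
        A0 * (2 * r) ^ (d + 1) * G (pN F p (2 * r)) := by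
      refine le_trans ?_ hH2
      apply setIntegral_mono_on
      · exact hint2.mono_set fun x hx => hx.1
      · have h1 : IntegrableOn H (closedBall p (2 * r) ∩ {x | 0 ≤ -F x}) := by
          apply ContinuousOn.integrableOn_compact
          · exact (isCompact_closedBall _ _).inter_right
              (isClosed_le continuous_const hFc.neg)
          · apply hodd.cH.mono
            rintro y ⟨hy1, hy2⟩
            exact ⟨closedBall_subset_ball h2rR hy1, hy2⟩
        apply h1.mono_set
        rintro y ⟨hy1, hy2⟩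
        exact ⟨ball_subset_closedBall hy1, hy2.le⟩
      · exact (isOpen_Sd hFc.neg p _).measurableSet
      · intro y hy
        have h1 := hy.2
        simp only at h1
        exact hfm y (ball_subset_ball h2rR.le hy.1) (by linarith)
    have hI : ∫ y in ball p (2 * r), f y ≤
        (r ^ (d + 1)) * (2 ^ (d + 1) * ((C1 + A0) * (2 * C2) + 2 * K * ω * A0) *
          G (pN F p r)) := by
      rw [hsplit]
      have e1 : (2 * r) ^ (d + 1) = r ^ (d + 1) * 2 ^ (d + 1) := by rw [mul_pow]; ring
      obtain ⟨T, hT⟩ : ∃ T : ℝ, T = r ^ (d + 1) * 2 ^ (d + 1) := ⟨_, rfl⟩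
      have hT0 : 0 ≤ T := by rw [hT]; positivity
      rw [e1, ← hT] at hU hD
      have e2 : (C1 + A0) * T * G (pN F p (2 * r)) ≤ (C1 + A0) * T * (2 * C2 * G (pN F p r)) :=
        mul_le_mul_of_nonneg_left hdoub (by positivity)
      have e3 : 2 * K * r * (T * ω) ≤ 2 * K * (A0 * G (pN F p r)) * (T * ω) := by
        apply mul_le_mul_of_nonneg_right _ (by positivity)
        exact mul_le_mul_of_nonneg_left hrA (by positivity)
      have e4 : (r ^ (d + 1)) * (2 ^ (d + 1) * ((C1 + A0) * (2 * C2) + 2 * K * ω * A0) *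
          G (pN F p r)) = (C1 + A0) * T * (2 * C2 * G (pN F p r)) +
          2 * K * (A0 * G (pN F p r)) * (T * ω) := by
        rw [hT]; ring
      rw [e4]
      linarith
    have hmean := mean hM0 hMV hL hf hr h2rR hx hI
    have e5 : (r ^ (d + 1))⁻¹ * ((r ^ (d + 1)) * (2 ^ (d + 1) * ((C1 + A0) * (2 * C2) +
        2 * K * ω * A0) * G (pN F p r))) = 2 ^ (d + 1) * ((C1 + A0) * (2 * C2) +
        2 * K * ω * A0) * G (pN F p r) := by
      rw [← mul_assoc, inv_mul_cancel₀ (by positivity), one_mul]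
    rw [e5] at hmean
    have e6 : C3 * L * r ^ 2 ≤ C3 * L * (A0 * G (pN F p r)) := by
      apply mul_le_mul_of_nonneg_left _ (by positivity)
      have : r ^ 2 ≤ r := by nlinarith
      linarith
    have e7 : f x ≤ A1 * G (pN F p r) := by
      have h8 : M0 * f x ≤ M0 * (A1 * G (pN F p r)) := by
        have : M0 * (A1 * G (pN F p r)) = 2 ^ (d + 1) * ((C1 + A0) * (2 * C2) +
            2 * K * ω * A0) * G (pN F p r) + C3 * L * (A0 * G (pN F p r)) := by
          rw [hA1]
          field_simp
        rw [this]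
        linarith
      exact le_of_mul_le_mul_left h8 hM0pos
    have e8 : 0 ≤ A0 * G (pN F p r) := by positivity
    linarith [add_mul A0 A1 (G (pN F p r))]
  have hGr : v (Fin.last (k + 1)) (pN F p r) - v 0 (pN F p r) = G (pN F p r) := by rw [hG]
  rw [hGr]
  refine ⟨?_, ?_⟩
  · have : 0 ≤ A1 * G (pN F p r) := by positivity
    linarith [add_mul A0 A1 (G (pN F p r))]
  intro x hx j
  obtain ⟨dP, dR, hP, hRr⟩ := hPRS (d + 1) (k + 1) F φ p R L i v gv w gw j hm hgeo hcfg
  have hwm : ∀ x ∈ ball p R, F x < 0 → Monotone fun j => w j x := by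
    intro x hx hFx
    exact hcfg.mw x ⟨hx, by simp only; linarith⟩
  constructor
  · apply key _ _ hP _ _ x hx
    · intro y hy
      have := (hKb y hy j).1
      rw [hG]; exact this
    · intro y hy hFy
      have hmono := hwm y hy hFy
      have hF0 : ¬ (0 ≤ F y) := by linarith
      rw [hH]
      simp only [PP, RR, if_neg hF0]
      have h1 : w 0 y ≤ w j y := hmono (Fin.zero_le j)
      have h2 : max (φ y - w j y) 0 ≤ max (φ y - w 0 y) 0 :=
        max_le_max (by linarith) le_rfl
      have h3 : 0 ≤ max (w (Fin.last k) y - φ y) 0 := le_max_right _ _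
      linarith
  · apply key _ _ hRr _ _ x hx
    · intro y hy
      have := (hKb y hy j).2
      rw [hG]; exact this
    · intro y hy hFy
      have hmono := hwm y hy hFy
      have hF0 : ¬ (0 ≤ F y) := by linarith
      rw [hH]
      simp only [PP, RR, if_neg hF0]
      have h1 : w j y ≤ w (Fin.last k) y := hmono (Fin.le_last j)
      have h2 : max (w j y - φ y) 0 ≤ max (w (Fin.last k) y - φ y) 0 :=
        max_le_max (by linarith) le_rfl
      have h3 : 0 ≤ max (φ y - w 0 y) 0 := le_max_right _ _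
      linarith

end

end Pool.Agent.COB
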