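import Pool.Agent.COB.Defs

/-!
Squad COB: exact statements of the modules.  Recipes: /team-store/MP_71cfa6_COB.md
-/

set_option autoImplicit false

namespace Pool.Agent.COB

open MeasureTheory Set Metric Filter Topology
open scoped ENNReal

/-! ### W. calculus of weak gradients -/

/-- elementary rules -/
def Stmt_WBA : Prop := ∀ (m : ℕ) (U : Set (E m)), IsOpen U →
  (∀ (V : Set (E m)) (f : E m → ℝ) (g : E m → E m), IsOpen V → V ⊆ U → HasWG U f g →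
    HasWG V f g) ∧
  (∀ (f h : E m → ℝ) (df dh : E m → E m), HasWG U f df → HasWG U h dh →
    HasWG U (fun x => f x + h x) (fun x => df x + dh x)) ∧
  (∀ (c : ℝ) (f : E m → ℝ) (df : E m → E m), HasWG U f df →
    HasWG U (fun x => c * f x) (fun x => c • df x)) ∧
  (∀ (f h : E m → ℝ) (df dh : E m → E m), HasWG U f df → (∀ x ∈ U, h x = f x) →
    dh =ᵐ[volume.restrict U] df → HasWG U h dh) ∧
  (∀ f : E m → ℝ, ContDiffOn ℝ 1 f U → HasWG U f (gradient f)) ∧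
  (∀ c : ℝ, HasWG U (fun _ => c) (fun _ => 0))

/-- uniqueness -/
def Stmt_WUN : Prop := ∀ (m : ℕ) (U : Set (E m)) (f h : E m → ℝ) (df dh : E m → E m), IsOpen U →
  HasWG U f df → HasWG U h dh → (∀ x ∈ U, f x = h x) → df =ᵐ[volume.restrict U] dh

/-- mollification -/
def Stmt_WMO : Prop := ∀ (m : ℕ) (U C : Set (E m)) (f : E m → ℝ) (g : E m → E m), IsOpen U →
  C ⊆ U → IsCompact C → HasWG U f g → ∀ ε > 0, ∃ Φ : E m → ℝ, ContDiff ℝ (⊤ : ℕ∞) Φ ∧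
    (∀ x ∈ C, |Φ x - f x| ≤ ε) ∧ IntegrableOn (fun x => ‖gradient Φ x - g x‖ ^ 2) C ∧
    ∫ x in C, ‖gradient Φ x - g x‖ ^ 2 ≤ ε

/-- closure -/
def Stmt_WCL : Prop := ∀ (m : ℕ) (U : Set (E m)) (f : E m → ℝ) (g : E m → E m), IsOpen U →
  ContinuousOn f U → AEStronglyMeasurable g (volume.restrict U) →
  (∀ C : Set (E m), C ⊆ U → IsCompact C → IntegrableOn (fun x => ‖g x‖ ^ 2) C) →
  (∀ C : Set (E m), C ⊆ U → IsCompact C → ∀ ε > 0, ∃ (V : Set (E m)) (Φ : E m → ℝ)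
    (Ψ : E m → E m), IsOpen V ∧ C ⊆ V ∧ V ⊆ U ∧ HasWG V Φ Ψ ∧ (∀ x ∈ C, |Φ x - f x| ≤ ε) ∧
    IntegrableOn (fun x => ‖Ψ x - g x‖ ^ 2) C ∧ ∫ x in C, ‖Ψ x - g x‖ ^ 2 ≤ ε) →
  HasWG U f g

/-- locality -/
def Stmt_WLO : Prop := ∀ (m : ℕ) (U : Set (E m)) (f : E m → ℝ) (g : E m → E m), IsOpen U →
  (∀ x ∈ U, ∃ V : Set (E m), IsOpen V ∧ x ∈ V ∧ V ⊆ U ∧ HasWG V f g) → HasWG U f g

/-- chain rule. Uses WBA WMO WCL -/
def Stmt_WCH : Prop := ∀ (m n : ℕ) (U : Set (E m)) (u : Fin n → E m → ℝ)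
  (du : Fin n → E m → E m) (W : Set (Fin n → ℝ)) (Φ : (Fin n → ℝ) → ℝ), IsOpen U → IsOpen W →
  ContDiffOn ℝ 1 Φ W → (∀ i, HasWG U (u i) (du i)) → (∀ x ∈ U, (fun i => u i x) ∈ W) →
  HasWG U (fun x => Φ fun i => u i x)
    (fun x => ∑ i, fderiv ℝ Φ (fun l => u l x) (Pi.single i 1) • du i x)

/-- positive part and level sets. Uses WBA WCL WCH WUN -/
def Stmt_WPP : Prop := ∀ (m : ℕ) (U : Set (E m)) (f : E m → ℝ) (g : E m → E m), IsOpen U →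
  HasWG U f g → HasWG U (fun x => max (f x) 0) ({x | 0 < f x}.indicator g) ∧
  ∀ᵐ x : E m, x ∈ U → f x = 0 → g x = 0

/-- maxima, minima, products. Uses WBA WCH WPP -/
def Stmt_WMM : Prop := ∀ (m : ℕ) (U : Set (E m)) (f h : E m → ℝ) (df dh : E m → E m), IsOpen U →
  HasWG U f df → HasWG U h dh →
  (∃ dM, HasWG U (fun x => max (f x) (h x)) dM ∧ ∀ x, (h x < f x → dM x = df x) ∧
    (f x ≤ h x → dM x = dh x)) ∧
  (∃ dN, HasWG U (fun x => min (f x) (h x)) dN ∧ ∀ x, (f x < h x → dN x = df x) ∧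
    (h x ≤ f x → dN x = dh x)) ∧
  HasWG U (fun x => f x * h x) (fun x => h x • df x + f x • dh x)

/-- integration by parts against `C¹` fields and `C²` functions with compact support -/
def Stmt_WIB : Prop := ∀ (m : ℕ) (U : Set (E m)) (f : E m → ℝ) (g : E m → E m), IsOpen U →
  HasWG U f g →
  (∀ X : E m → E m, ContDiff ℝ 1 X → HasCompactSupport X → tsupport X ⊆ U →
    IntegrableOn (fun x => inner ℝ (g x) (X x)) U ∧ IntegrableOn (fun x => f x * dv X x) U ∧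
    ∫ x in U, inner ℝ (g x) (X x) = -∫ x in U, f x * dv X x) ∧
  (∀ ζ : E m → ℝ, ContDiff ℝ 2 ζ → HasCompactSupport ζ → tsupport ζ ⊆ U →
    IntegrableOn (fun x => inner ℝ (g x) (gradient ζ x)) U ∧
    IntegrableOn (fun x => f x * lp ζ x) U ∧
    ∫ x in U, inner ℝ (g x) (gradient ζ x) = -∫ x in U, f x * lp ζ x)

/-- compactly supported functions. Uses WBA WUN WLO -/
def Stmt_WEX : Prop := ∀ (m : ℕ) (B : Set (E m)) (ξ : E m → ℝ) (dξ : E m → E m), IsOpen B →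
  TB B ξ dξ → IntegrableOn (fun x => ‖dξ x‖ ^ 2) B ∧ IntegrableOn ξ B ∧
  (∀ (C : Set (E m)), IsCompact C → C ⊆ B → (∀ x ∈ B \ C, ξ x = 0) →
    ∀ᵐ x : E m, x ∈ B \ C → dξ x = 0) ∧
  (∀ U : Set (E m), IsOpen U → B ⊆ U → TB U (B.indicator ξ) (B.indicator dξ)) ∧
  (∀ (f : E m → ℝ) (g : E m → E m), HasWG B f g → IntegrableOn (fun x => inner ℝ (g x) (dξ x)) B)

/-- integration by parts of a test function against a `C²` function. Uses WIB WEX LPC -/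
def Stmt_WIT : Prop := ∀ (m : ℕ) (B : Set (E m)) (b ξ : E m → ℝ) (dξ : E m → E m), IsOpen B →
  ContDiff ℝ 2 b → TB B ξ dξ →
  IntegrableOn (fun x => inner ℝ (gradient b x) (dξ x)) B ∧
  IntegrableOn (fun x => lp b x * ξ x) B ∧
  ∫ x in B, inner ℝ (gradient b x) (dξ x) = -∫ x in B, lp b x * ξ x

/-- a test function with gradient zero vanishes. Uses WEX WMO -/
def Stmt_WCZ : Prop := ∀ (m : ℕ) (B : Set (E m)) (ξ : E m → ℝ) (dξ : E m → E m), IsOpen B →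
  0 < m → TB B ξ dξ → (∀ᵐ x : E m, x ∈ B → dξ x = 0) → ∀ x ∈ B, ξ x = 0

/-- gluing across `{F = 0}`. Uses WBA WPP WIB -/
def Stmt_WGL : Prop := ∀ (m : ℕ) (B : Set (E m)) (F f : E m → ℝ) (g : E m → E m), IsOpen B →
  ContDiff ℝ 2 F → (∀ x ∈ B, F x = 0 → fderiv ℝ F x ≠ 0) → ContinuousOn f B →
  (∀ C : Set (E m), C ⊆ B → IsCompact C → IntegrableOn (fun x => ‖g x‖ ^ 2) C) →
  HasWG (Sd F B) f g → HasWG (Sd (fun x => -F x) B) f g → HasWG B f g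

/-- algebra of test functions. Uses WBA WPP WMM -/
def Stmt_TBA : Prop := ∀ (m : ℕ) (B : Set (E m)) (F : E m → ℝ), IsOpen B → Continuous F →
  TB B (fun _ => 0) (fun _ => 0) ∧ PT F B (fun _ => 0) (fun _ => 0) ∧
  (∀ ξ dξ ζ dζ, TB B ξ dξ → TB B ζ dζ → TB B (fun x => ξ x + ζ x) (fun x => dξ x + dζ x)) ∧
  (∀ (c : ℝ) ξ dξ, TB B ξ dξ → TB B (fun x => c * ξ x) (fun x => c • dξ x)) ∧
  (∀ ξ dξ f df, TB B ξ dξ → HasWG B f df →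
    TB B (fun x => ξ x * f x) (fun x => f x • dξ x + ξ x • df x)) ∧
  (∀ ξ dξ, TB B ξ dξ → TB B (fun x => max (ξ x) 0) ({x | 0 < ξ x}.indicator dξ)) ∧
  (∀ ξ dξ f df, TB B ξ dξ → HasWG B f df → (∀ x ∈ B, 0 ≤ f x) → ∃ dn,
    TB B (fun x => min (ξ x) (f x)) dn ∧
      ∀ x, (ξ x < f x → dn x = dξ x) ∧ (f x ≤ ξ x → dn x = df x)) ∧
  (∀ ζ : E m → ℝ, ContDiff ℝ 1 ζ → HasCompactSupport ζ → tsupport ζ ⊆ B →
    TB B ζ (gradient ζ)) ∧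
  (∀ a da b db, PT F B a da → PT F B b db →
    PT F B (fun x => a x + b x) (fun x => da x + db x)) ∧
  (∀ (c : ℝ) a da, PT F B a da → PT F B (fun x => c * a x) (fun x => c • da x)) ∧
  (∀ a da f df, PT F B a da → ContinuousOn f (Sc F B) → HasWG (Sd F B) f df →
    IntegrableOn (fun x => ‖df x‖ ^ 2) (Sd F B) → (∀ x ∈ Sc F B, 0 ≤ f x) →
    PT F B (fun x => max (a x - f x) 0) ({x | f x < a x}.indicator fun x => da x - df x))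

/-- one sided and two sided test functions. Uses WBA WUN WLO WPP WEX WGL -/
def Stmt_TPT : Prop := ∀ (m : ℕ) (B : Set (E m)) (F : E m → ℝ), IsOpen B → ContDiff ℝ 2 F →
  (∀ x ∈ B, F x = 0 → fderiv ℝ F x ≠ 0) →
  volume {x | x ∈ B ∧ F x = 0} = 0 ∧
  (∀ ξ dξ, TB B ξ dξ → PT F B ξ dξ ∧ PT (fun x => -F x) B ξ dξ) ∧
  (∀ ξ dξ, TB (Sd F B) ξ dξ → PT F B ((Sd F B).indicator ξ) ((Sd F B).indicator dξ)) ∧
  (∀ a da, PT F B a da → (∀ x ∈ B, F x = 0 → a x = 0) →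
    TB B ((Sd F B).indicator a) ((Sd F B).indicator da)) ∧
  (∀ (B' : Set (E m)) a da, IsOpen B' → B' ⊆ B → PT F B' a da →
    PT F B (B'.indicator a) (B'.indicator da))

/-! ### H. weakly harmonic functions -/

/-- mean value inequality with the kernel `om`. Uses WBA WIB -/
def Stmt_MVG : Prop := ∀ m : ℕ, 0 < m → 0 < ∫ y : E m, om y ∧ ∃ C > 0, ∀ (V : Set (E m))
  (K : ℝ) (f : E m → ℝ) (g : E m → E m) (a : E m) (ρ : ℝ), IsOpen V → WSub V K f g → 0 ≤ K →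
  0 < ρ → closedBall a ρ ⊆ V →
    (∫ y : E m, om y) * f a ≤
      (ρ ^ m)⁻¹ * (∫ x in ball a ρ, om (ρ⁻¹ • (x - a)) * f x) + C * K * ρ ^ 2

/-- Harnack inequality. Uses MVG -/
def Stmt_HAR : Prop := ∀ m : ℕ, 0 < m → ∃ C ≥ 1, ∀ (V : Set (E m)) (G : E m → ℝ)
  (dG : E m → E m) (a b : E m) (ρ : ℝ), IsOpen V → WHar V G dG → (∀ x ∈ V, 0 ≤ G x) → 0 < ρ →
  closedBall a ρ ⊆ V → ‖b - a‖ ≤ ρ / 4 →
    G b ≤ C * G a ∧ ∫ x in ball a (ρ / 2), G x ≤ C * ρ ^ m * G a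

/-- Harnack inequality along a segment. Uses HAR -/
def Stmt_HCN : Prop := ∀ m : ℕ, 0 < m → ∃ C ≥ 1, ∀ (V : Set (E m)) (G : E m → ℝ)
  (dG : E m → E m) (a b : E m) (ρ : ℝ) (n : ℕ), IsOpen V → WHar V G dG → (∀ x ∈ V, 0 ≤ G x) →
  0 < ρ → (∀ z ∈ segment ℝ a b, closedBall z ρ ⊆ V) → ‖b - a‖ ≤ n * (ρ / 4) →
    G b ≤ C ^ n * G a

/-- strong minimum principle. Uses HAR -/
def Stmt_SMP : Prop := ∀ (m : ℕ) (V S : Set (E m)) (G : E m → ℝ) (dG : E m → E m) (x0 : E m),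
  0 < m → IsOpen V → WHar V G dG → (∀ x ∈ V, 0 ≤ G x) → S ⊆ V → IsPreconnected S → x0 ∈ S →
  G x0 = 0 → ∀ x ∈ S, G x = 0

/-- comparison principle. Uses WBA WPP WEX WCZ -/
def Stmt_CMP : Prop := ∀ (m : ℕ) (D : Set (E m)) (f : E m → ℝ) (g : E m → E m), 0 < m →
  IsOpen D → Bornology.IsBounded D → ContinuousOn f (closure D) → WSub D 0 f g →
  (∀ x ∈ frontier D, f x ≤ 0) → ∀ x ∈ D, f x ≤ 0

/-- test functions vanishing on `{F = 0}`. Uses WBA WPP WUN WEX -/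
def Stmt_H0L : Prop := ∀ (m : ℕ) (B : Set (E m)) (F G ξ : E m → ℝ) (dG dξ : E m → E m),
  IsOpen B → Continuous F → WHar (Sd F B) G dG → IntegrableOn (fun x => ‖dG x‖ ^ 2) (Sd F B) →
  PT F B ξ dξ → (∀ x ∈ B, F x = 0 → ξ x = 0) →
  ∫ x in Sd F B, inner ℝ (dG x) (dξ x) = 0

/-- integration by parts with `F² b` on one side. Uses WIB -/
def Stmt_HF2 : Prop := ∀ (m : ℕ) (B : Set (E m)) (F U b : E m → ℝ) (dU : E m → E m),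
  IsOpen B → ContDiff ℝ 2 F → ContinuousOn U (Sc F B) → HasWG (Sd F B) U dU →
  IntegrableOn (fun x => ‖dU x‖ ^ 2) (Sd F B) → ContDiff ℝ 2 b → HasCompactSupport b →
  tsupport b ⊆ B →
  IntegrableOn (fun x => inner ℝ (dU x) (gradient (fun y => F y ^ 2 * b y) x)) (Sd F B) ∧
  IntegrableOn (fun x => U x * lp (fun y => F y ^ 2 * b y) x) (Sd F B) ∧
  ∫ x in Sd F B, inner ℝ (dU x) (gradient (fun y => F y ^ 2 * b y) x) =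
    -∫ x in Sd F B, U x * lp (fun y => F y ^ 2 * b y) x

/-! ### G. geometry of the chart -/

/-- calculus of gradients and Laplacians -/
def Stmt_LPC : Prop := ∀ m : ℕ,
  (∀ f : E m → ℝ, ContDiff ℝ 2 f → Continuous (lp f) ∧ Continuous (gradient f)) ∧
  (∀ f h : E m → ℝ, ContDiff ℝ 2 f → ContDiff ℝ 2 h → ∀ x,
    gradient (fun y => f y + h y) x = gradient f x + gradient h x ∧
    lp (fun y => f y + h y) x = lp f x + lp h x ∧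
    gradient (fun y => f y * h y) x = h x • gradient f x + f x • gradient h x ∧
    lp (fun y => f y * h y) x =
      h x * lp f x + 2 * inner ℝ (gradient f x) (gradient h x) + f x * lp h x) ∧
  (∀ (c : ℝ) (f : E m → ℝ), ContDiff ℝ 2 f → ∀ x,
    gradient (fun y => c * f y) x = c • gradient f x ∧ lp (fun y => c * f y) x = c * lp f x) ∧
  (∀ (p : E m) (h : ℝ → ℝ) (I : Set ℝ), IsOpen I → Ici 0 ⊆ I → ContDiffOn ℝ 2 h I →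
    ContDiff ℝ 2 (fun y => h (‖y - p‖ ^ 2)) ∧ ∀ x,
    gradient (fun y => h (‖y - p‖ ^ 2)) x = (2 * deriv h (‖x - p‖ ^ 2)) • (x - p) ∧
    lp (fun y => h (‖y - p‖ ^ 2)) x =
      4 * ‖x - p‖ ^ 2 * deriv (deriv h) (‖x - p‖ ^ 2) + 2 * m * deriv h (‖x - p‖ ^ 2)) ∧
  (∀ (f : E m → ℝ) (x v : E m), inner ℝ (gradient f x) v = fderiv ℝ f x v)

/-- the functions `J`, `bmp`. Uses LPC -/
def Stmt_JBM : Prop := ∀ (m : ℕ) (p : E m) (ρ : ℝ), 0 < ρ →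
  (∀ x, 0 < J ρ p x ∧ ρ ≤ J ρ p x ∧ ‖x - p‖ ≤ J ρ p x ∧ J ρ p x ^ 2 = ‖x - p‖ ^ 2 + ρ ^ 2) ∧
  (∀ n : ℕ, ContDiff ℝ 2 (fun x => (J ρ p x ^ n)⁻¹) ∧ ∀ x,
    gradient (fun y => (J ρ p y ^ n)⁻¹) x = (-(n : ℝ) * (J ρ p x ^ (n + 2))⁻¹) • (x - p) ∧
    lp (fun y => (J ρ p y ^ n)⁻¹) x = (J ρ p x ^ (n + 4))⁻¹ *
      ((n : ℝ) * (n + 2) * ‖x - p‖ ^ 2 - n * m * J ρ p x ^ 2)) ∧
  ContDiff ℝ 2 (bmp ρ p) ∧ (∀ x, 0 ≤ bmp ρ p x ∧ bmp ρ p x ≤ 1) ∧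
  (∀ x, ρ ≤ ‖x - p‖ → bmp ρ p x = 0) ∧ (∀ x, ‖x - p‖ ≤ ρ / 2 → 27 / 64 ≤ bmp ρ p x) ∧
  (∀ x, gradient (bmp ρ p) x =
    (-(6 / ρ ^ 2) * (max 0 (1 - ‖x - p‖ ^ 2 / ρ ^ 2)) ^ 2) • (x - p)) ∧
  (∀ x, lp (bmp ρ p) x = 24 / ρ ^ 4 * ‖x - p‖ ^ 2 * max 0 (1 - ‖x - p‖ ^ 2 / ρ ^ 2) -
    6 * m / ρ ^ 2 * (max 0 (1 - ‖x - p‖ ^ 2 / ρ ^ 2)) ^ 2)

/-- elementary consequences of `Geo` -/
def Stmt_GEF : Prop := ∀ (m : ℕ) (F φ : E m → ℝ) (p : E m) (R L : ℝ) (i : Fin m),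
  Geo F φ p R L i → R ≤ 1 / 1000 ∧
  (∀ x ∈ ball p R, ‖gradient F x - gradient F p‖ ≤ 1 / 1000 ∧ ‖gradient F x‖ ≤ 1001 / 1000 ∧
    999 / 1000 ≤ ‖gradient F x‖ ∧ fderiv ℝ F x ≠ 0) ∧
  (∀ x ∈ ball p R, ∀ y ∈ ball p R,
    |F x - F y - inner ℝ (gradient F p) (x - y)| ≤ 1 / 1000 * ‖x - y‖ ∧
    |F x - F y| ≤ 1001 / 1000 * ‖x - y‖) ∧
  (∀ x ∈ ball p R, |F x| ≤ 1001 / 1000 * ‖x - p‖ ∧
    |F x - inner ℝ (gradient F p) (x - p)| ≤ L * ‖x - p‖ ^ 2 ∧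
    |inner ℝ (gradient F x) (x - p) - F x| ≤ 2 * L * ‖x - p‖ ^ 2) ∧
  (∀ x ∈ ball p R, ∀ s : ℝ, 0 ≤ s → x + s • gradient F p ∈ ball p R →
    F x + 999 / 1000 * s ≤ F (x + s • gradient F p)) ∧
  (∀ r : ℝ, 0 < r → r < R → pN F p r ∈ Sd F (ball p R) ∧ 999 / 1000 * r ≤ F (pN F p r))

/-- Laplacian of `F J⁻ᵐ`. Uses LPC JBM GEF -/
def Stmt_KER : Prop := ∀ m : ℕ, 0 < m → ∃ C > 0, ∀ (F φ : E m → ℝ) (p : E m) (R L : ℝ)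
  (i : Fin m), Geo F φ p R L i → ∀ ρ : ℝ, 0 < ρ → ρ ≤ R → ∀ x ∈ ball p R,
  |lp (fun y => F y * (J ρ p y ^ m)⁻¹) x +
    m * (m + 2) * ρ ^ 2 * F x * (J ρ p x ^ (m + 4))⁻¹| ≤ C * L * (J ρ p x ^ m)⁻¹

/-- a Laplacian that is nonnegative near the interface. Uses LPC JBM GEF -/
def Stmt_KF2 : Prop := ∀ m : ℕ, 0 < m →
  (∃ C > 0, ∀ (F φ : E m → ℝ) (p : E m) (R L : ℝ) (i : Fin m), Geo F φ p R L i →
    ∀ r : ℝ, 0 < r → r ≤ R → ∀ x ∈ ball p r,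
      19 / 10 * bmp r p x - C * |F x| / r ≤ lp (fun y => F y ^ 2 * bmp r p y) x ∧
      |lp (fun y => F y ^ 2 * bmp r p y) x| ≤ C) ∧
  (∃ τ > 0, ∃ c > 0, ∀ (F φ : E m → ℝ) (p : E m) (R L : ℝ) (i : Fin m), Geo F φ p R L i →
    ∀ r : ℝ, 0 < r → 2 * r ≤ R → ∀ x ∈ ball p (2 * r), |F x| ≤ τ * r →
      0 ≤ lp (fun y => F y ^ 2 * bmp (2 * r) p y) x ∧
      (‖x - p‖ < r → c ≤ lp (fun y => F y ^ 2 * bmp (2 * r) p y) x))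

/-- fundamental facts about lines and layers. Uses GEF -/
def Stmt_FUB : Prop := ∀ (d : ℕ) (i : Fin (d + 1)),
  (∀ h : E (d + 1) → ℝ≥0∞, Measurable h →
    ∫⁻ x, h x = ∫⁻ y : Fin d → ℝ, ∫⁻ s : ℝ, h (ins i s y)) ∧
  (∀ (x : E (d + 1)), ins i (x i) (pj i x) = x) ∧
  (∀ (s s' : ℝ) (y : Fin d → ℝ), pj i (ins i s y) = y ∧ ins i s y i = s ∧
    ‖ins i s y - ins i s' y‖ = |s - s'|) ∧
  (∀ x x' : E (d + 1), dist (pj i x) (pj i x') ≤ ‖x - x'‖ ∧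
    ‖x - x'‖ ≤ |x i - x' i| + Real.sqrt d * dist (pj i x) (pj i x')) ∧
  (∀ (F φ : E (d + 1) → ℝ) (p : E (d + 1)) (R L : ℝ), Geo F φ p R L i →
    (∀ (s s' : ℝ) (y : Fin d → ℝ), ins i s y ∈ ball p R → ins i s' y ∈ ball p R →
      |s - s'| ≤ L * |F (ins i s y) - F (ins i s' y)|) ∧
    volume {x | x ∈ ball p R ∧ F x = 0} = 0 ∧
    (∀ r h : ℝ, 0 < r → r ≤ R → 0 < h →
      volume {x | x ∈ ball p r ∧ |F x| < h} ≤
        ENNReal.ofReal (2 * L * h * (2 * r) ^ d)) ∧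
    (∀ x ∈ ball p R, F x = 0 → ‖x - p‖ ≤ 4 * L * (d + 1) * dist (pj i x) (pj i p)))

/-- dichotomy for nonnegative harmonic functions on the upper side. Uses SMP GEF -/
def Stmt_DCH : Prop := ∀ (m : ℕ) (F φ : E m → ℝ) (p : E m) (R L : ℝ) (i : Fin m)
  (G : E m → ℝ) (dG : E m → E m), 0 < m → Geo F φ p R L i → WHar (Sd F (ball p R)) G dG →
  (∀ x ∈ Sd F (ball p R), 0 ≤ G x) →
  (∀ x ∈ Sd F (ball p (R / 16)), G x = 0) ∨ ∀ r : ℝ, 0 < r → r ≤ R / 8 → 0 < G (pN F p r)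

/-- Harnack inequality at scale `r`. Uses HCN GEF -/
def Stmt_HSC : Prop := ∀ (m : ℕ) (τ : ℝ), 0 < m → 0 < τ → ∃ C ≥ 1, ∀ (F φ : E m → ℝ) (p : E m)
  (R L : ℝ) (i : Fin m) (G : E m → ℝ) (dG : E m → E m), Geo F φ p R L i →
  WHar (Sd F (ball p R)) G dG → (∀ x ∈ Sd F (ball p R), 0 ≤ G x) → ∀ r : ℝ, 0 < r →
  8 * r ≤ R → 100 * L * r ≤ τ → ∀ x ∈ ball p (4 * r), τ * r ≤ F x →
    G x ≤ C * G (pN F p r) ∧ G (pN F p r) ≤ C * G x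

/-- Hopf lemma. Uses WBA WEX WIT CMP LPC GEF HSC -/
def Stmt_HOP : Prop := ∀ m : ℕ, 0 < m → ∃ c > 0, ∀ (F φ : E m → ℝ) (p : E m) (R L : ℝ)
  (i : Fin m) (G : E m → ℝ) (dG : E m → E m), Geo F φ p R L i → WHar (Sd F (ball p R)) G dG →
  ContinuousOn G (Sc F (ball p R)) → (∀ x ∈ Sc F (ball p R), 0 ≤ G x) → ∀ r : ℝ, 0 < r →
  16 * r ≤ R → ∀ x ∈ Sd F (ball p r), c * (G (pN F p r) / r) * F x ≤ G x

/-- growth of `G (p + r N) / r`. Uses HOP GEF -/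
def Stmt_HMO : Prop := ∀ m : ℕ, 0 < m → ∃ C ≥ 1, ∀ (F φ : E m → ℝ) (p : E m) (R L : ℝ)
  (i : Fin m) (G : E m → ℝ) (dG : E m → E m), Geo F φ p R L i → WHar (Sd F (ball p R)) G dG →
  ContinuousOn G (Sc F (ball p R)) → (∀ x ∈ Sc F (ball p R), 0 ≤ G x) → ∀ s r : ℝ, 0 < s →
  s ≤ r → 32 * r ≤ R → G (pN F p r) / r ≤ C * (G (pN F p s) / s)

/-- `L¹` bound. Uses H0L HF2 KF2 HSC GEF TBA TPT JBM LPC -/
def Stmt_GL1 : Prop := ∀ m : ℕ, 0 < m → ∃ C > 0, ∃ κ > 0, ∀ (F φ : E m → ℝ) (p : E m) (R L : ℝ)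
  (i : Fin m) (G : E m → ℝ) (dG : E m → E m), Geo F φ p R L i → WHar (Sd F (ball p R)) G dG →
  IntegrableOn (fun x => ‖dG x‖ ^ 2) (Sd F (ball p R)) → ContinuousOn G (Sc F (ball p R)) →
  (∀ x ∈ Sc F (ball p R), 0 ≤ G x) → ∀ r : ℝ, 0 < r → 16 * r ≤ R → L * r ≤ κ →
    IntegrableOn G (Sd F (ball p r)) ∧
    ∫ x in Sd F (ball p r), G x ≤ C * r ^ m * G (pN F p r)

/-- barrier. Uses WBA WEX WIT CMP LPC GEF -/
def Stmt_BAR : Prop := ∀ (m : ℕ) (F φ : E m → ℝ) (p : E m) (R L : ℝ) (i : Fin m)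
  (f : E m → ℝ) (df : E m → E m), 0 < m → Geo F φ p R L i → WHar (Sd F (ball p R)) f df →
  ContinuousOn f (Sc F (ball p R)) → (∀ x ∈ ball p R, F x = 0 → f x ≤ φ x) →
  ∃ K ≥ 0, ∀ x ∈ Sc F (ball p (R / 2)), f x - φ x ≤ K * ‖x - p‖

/-- integration over scales. Uses JBM -/
def Stmt_TON : Prop := ∀ (m n : ℕ) (p : E m) (r₀ ρ : ℝ) (A : Set (E m)) (U : E m → ℝ),
  0 < ρ → ρ ≤ r₀ → MeasurableSet A → A ⊆ ball p r₀ → (∀ x ∈ A, 0 ≤ U x) → IntegrableOn U A →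
  IntegrableOn (fun x => U x * (J ρ p x ^ n)⁻¹) A ∧
  IntervalIntegrable (fun s => (s ^ (n + 1))⁻¹ * ∫ x in A ∩ ball p s, U x) volume ρ (2 * r₀) ∧
  ∫ x in A, U x * (J ρ p x ^ n)⁻¹ ≤
    n * (∫ s in ρ..(2 * r₀), (s ^ (n + 1))⁻¹ * ∫ x in A ∩ ball p s, U x) +
      ((2 * r₀) ^ n)⁻¹ * ∫ x in A, U x

/-- data for the size control: `G` harmonic above, `H` almost subharmonic below, equal on the
interface -/
structure Odd {m : ℕ} (F : E m → ℝ) (B : Set (E m)) (L : ℝ) (G : E m → ℝ) (dG : E m → E m)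
    (H : E m → ℝ) (dH : E m → E m) : Prop where
  hG : WHar (Sd F B) G dG
  eG : IntegrableOn (fun x => ‖dG x‖ ^ 2) (Sd F B)
  cG : ContinuousOn G (Sc F B)
  nG : ∀ x ∈ Sc F B, 0 ≤ G x
  hH : HasWG (Sd (fun x => -F x) B) H dH
  eH : IntegrableOn (fun x => ‖dH x‖ ^ 2) (Sd (fun x => -F x) B)
  cH : ContinuousOn H (Sc (fun x => -F x) B)
  nH : ∀ x ∈ Sc (fun x => -F x) B, 0 ≤ H x
  sH : ∀ ξ dξ, TB B ξ dξ → (∀ x ∈ B, 0 ≤ ξ x) → (∀ x ∈ B, 0 ≤ F x → ξ x = 0) →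
    ∫ x in Sd (fun x => -F x) B, inner ℝ (dH x) (dξ x) ≤
      2 * L * ∫ x in Sd (fun x => -F x) B, ξ x
  eq : ∀ x ∈ B, F x = 0 → G x = H x

/-- basic inequality for `Odd`. Uses WBA WIB WGL WEX TBA TPT H0L HF2 LPC GEF -/
def Stmt_OD1 : Prop := ∀ (m : ℕ) (F φ : E m → ℝ) (p : E m) (R L : ℝ) (i : Fin m)
  (G : E m → ℝ) (dG : E m → E m) (H : E m → ℝ) (dH : E m → E m) (ζ b : E m → ℝ),
  Geo F φ p R L i → Odd F (ball p R) L G dG H dH → ContDiff ℝ 2 ζ → HasCompactSupport ζ →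
  tsupport ζ ⊆ ball p R → (∀ x ∈ ball p R, F x = 0 → ζ x = 0) → ContDiff ℝ 2 b →
  HasCompactSupport b → tsupport b ⊆ ball p R →
  (∀ x ∈ ball p R, F x < 0 → 0 ≤ -ζ x - F x ^ 2 * b x) →
  IntegrableOn (fun x => G x * lp ζ x) (Sd F (ball p R)) ∧
  IntegrableOn (fun x => H x * lp ζ x) (Sd (fun x => -F x) (ball p R)) ∧
  IntegrableOn (fun x => H x * lp (fun y => F y ^ 2 * b y) x) (Sd (fun x => -F x) (ball p R)) ∧
  (∫ x in Sd F (ball p R), G x * lp ζ x) + (∫ x in Sd (fun x => -F x) (ball p R), H x * lp ζ x) +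
      ∫ x in Sd (fun x => -F x) (ball p R), H x * lp (fun y => F y ^ 2 * b y) x ≤
    2 * L * ∫ x in Sd (fun x => -F x) (ball p R), (-ζ x - F x ^ 2 * b x)

/-- the odd test function. Uses OD1 LPC JBM GEF KER KF2 TON -/
def Stmt_ODD : Prop := ∀ m : ℕ, 0 < m → ∃ c > 0, ∃ C > 0, ∀ (F φ : E m → ℝ) (p : E m)
  (R L : ℝ) (i : Fin m) (G : E m → ℝ) (dG : E m → E m) (H : E m → ℝ) (dH : E m → E m),
  Geo F φ p R L i → Odd F (ball p R) L G dG H dH → ∀ r₀ : ℝ, 0 < r₀ → 2 * r₀ ≤ R → ∃ K : ℝ,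
  ∀ ρ : ℝ, 0 < ρ → 2 * ρ ≤ r₀ →
    c * (ρ ^ (m + 1))⁻¹ * ∫ x in Sd (fun x => -F x) (ball p (ρ / 2)), H x ≤
      C * (ρ ^ 2 * ∫ x in Sd F (ball p r₀), G x * (J ρ p x ^ (m + 3))⁻¹) +
      C * L * ((∫ x in Sd F (ball p r₀), G x * (J ρ p x ^ m)⁻¹) +
        ∫ x in Sd (fun x => -F x) (ball p r₀), H x * (J ρ p x ^ m)⁻¹) + K

/-- bootstrap over scales. Uses GEF HMO GL1 TON ODD -/
def Stmt_BOO : Prop := ∀ (m : ℕ) (F φ : E m → ℝ) (p : E m) (R L : ℝ) (i : Fin m)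
  (G : E m → ℝ) (dG : E m → E m) (H : E m → ℝ) (dH : E m → E m), 0 < m → Geo F φ p R L i →
  Odd F (ball p R) L G dG H dH → (∀ r : ℝ, 0 < r → r ≤ R / 8 → 0 < G (pN F p r)) →
  ∃ A > 0, ∃ r₁ > 0, 32 * r₁ ≤ R ∧ ∀ r : ℝ, 0 < r → r ≤ r₁ →
    r ≤ A * G (pN F p r) ∧
    ∫ x in Sd (fun x => -F x) (ball p r), H x ≤ A * r ^ m * G (pN F p r)

/-- layers: upper bound. Uses WBA WIB WEX LPC GEF FUB -/
def Stmt_LAY : Prop := ∀ d : ℕ, ∃ C > 0, ∀ (F φ : E (d + 1) → ℝ) (p : E (d + 1)) (R L : ℝ)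
  (i : Fin (d + 1)) (Z : Set (E (d + 1))) (z : E (d + 1) → ℝ) (dz : E (d + 1) → E (d + 1))
  (t r : ℝ), Geo F φ p R L i → (∀ x ∈ Z, x ∈ ball p R ∧ F x = 0) → TB (ball p R) z dz →
  (∀ x ∈ ball p R, 0 ≤ z x ∧ z x ≤ t) → (∀ x ∈ Z, z x = 0) → 0 < r → r ≤ R →
  (∀ x ∈ ball p R, r ≤ ‖x - p‖ → z x = 0) →
    -(∫ x in Sd F (ball p R), inner ℝ (gradient F x) (dz x)) +
      ∫ x in Sd (fun x => -F x) (ball p R), inner ℝ (gradient F x) (dz x) ≤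
      C * L * t * bad i Z p r + L * ∫ x in ball p R, z x

/-- layers: lower bound for the energy. Uses WBA WPP LPC GEF FUB -/
def Stmt_VLB : Prop := ∀ d : ℕ, ∃ c > 0, ∃ C > 0, ∀ (F φ : E (d + 1) → ℝ) (p : E (d + 1))
  (R L : ℝ) (i : Fin (d + 1)) (Z : Set (E (d + 1))) (z : E (d + 1) → ℝ)
  (dz : E (d + 1) → E (d + 1)) (t r h : ℝ), Geo F φ p R L i →
  (∀ x ∈ Z, x ∈ ball p R ∧ F x = 0) → PT F (ball p R) z dz → 0 < t →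
  (∀ x ∈ Sc F (ball p R), 0 ≤ z x ∧ z x ≤ t) → 0 < r → 8 * r ≤ R →
  (∀ x ∈ Z, ‖x - p‖ < r → z x = t) → 0 < h → h ≤ r →
  (∀ x ∈ Sd F (ball p R), ‖x - p‖ < r → h ≤ F x → z x = 0) →
    t * (c * (r / L) ^ d - bad i Z p r) ≤
      C * L ^ 2 * (Real.sqrt (h * r ^ d) *
        Real.sqrt (∫ x in Sd F (ball p R), ‖dz x‖ ^ 2) + t * h * r ^ d / r)

/-- a `C²` function that is `0` near `p` and large near the sphere. Uses LPC -/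
def Stmt_THE : Prop := ∀ m : ℕ, ∃ C > 0, ∀ (p : E m) (r S : ℝ), 0 < r → 0 < S →
  ∃ Θ : E m → ℝ, ContDiff ℝ 2 Θ ∧ (∀ x, 0 ≤ Θ x) ∧ (∀ x, ‖x - p‖ < r / 2 → Θ x = 0) ∧
    (∀ x, 3 / 4 * r ≤ ‖x - p‖ → S ≤ Θ x) ∧ ∀ x ∈ ball p r, |lp Θ x| ≤ C * S / r ^ 2

/-- test functions with small energy.
Uses WBA WUN WPP WMM WEX WIT TBA TPT GEF FUB LAY THE -/
def Stmt_ENF : Prop := ∀ d : ℕ, ∃ C > 0, ∀ (F φ : E (d + 1) → ℝ) (p : E (d + 1)) (R L : ℝ)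
  (i : Fin (d + 1)) (Z : Set (E (d + 1))) (P : E (d + 1) → ℝ) (dP : E (d + 1) → E (d + 1))
  (S t δ r : ℝ), Geo F φ p R L i → (∀ x ∈ Z, x ∈ ball p R ∧ F x = 0) →
  SH (ball p R) L P dP → (∀ x ∈ Z, P x = 0) → 0 < r → 2 * r ≤ R → 0 < S →
  (∀ x ∈ ball p r, P x ≤ S) → 0 < t → 0 < δ → δ ≤ 1 →
  ∃ (f : E (d + 1) → ℝ) (df : E (d + 1) → E (d + 1)), TB (ball p R) f df ∧
    (∀ x ∈ ball p R, 0 ≤ f x ∧ f x ≤ t) ∧
    (∀ x ∈ ball p R, F x = 0 → ‖x - p‖ < r / 2 → f x = min (P x) t) ∧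
    ∫ x in ball p R, ‖df x‖ ^ 2 ≤ C * L ^ 2 * (S * t / (δ * r) * bad i Z p r +
      t * δ * r ^ (d + 1) + S * t * r ^ d + S * t * δ * r ^ (d + 1) / r ^ 2)

/-! ### C. configurations -/

/-- the entries of sorted tuples with `{a} = {c} ∪ {b}` -/
def Stmt_STR : Prop := ∀ (k : ℕ) (a : Fin (k + 1) → ℝ) (b : Fin k → ℝ) (c : ℝ), Monotone a →
  Monotone b → ml a = c ::ₘ ml b →
  a 0 ≤ c ∧ c ≤ a (Fin.last k) ∧
  (∀ j : Fin k, (b j ≤ c → a j.castSucc = b j) ∧ (c ≤ b j → a j.succ = b j) ∧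
    a j.castSucc ≤ b j ∧ b j ≤ a j.succ ∧
    max (c - a j.castSucc) 0 = max (c - b j) 0 ∧ max (a j.succ - c) 0 = max (b j - c) 0) ∧
  (∀ (j : Fin k) (h : (j : ℕ) + 1 < k),
    a j.succ - b j = max (c - b j) 0 - max (c - b ⟨(j : ℕ) + 1, h⟩) 0) ∧
  (∀ j : Fin k, (j : ℕ) + 1 = k → a j.succ - b j = max (c - b j) 0) ∧
  (∀ (j : Fin k) (h : 0 < (j : ℕ)),
    b j - a j.castSucc = max (b j - c) 0 - max (b ⟨(j : ℕ) - 1, by omega⟩ - c) 0) ∧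
  (∀ j : Fin k, (j : ℕ) = 0 → b j - a j.castSucc = max (b j - c) 0) ∧
  (∀ j : Fin k, (∀ l, b l = c) → a j.castSucc = c ∧ a j.succ = c)

/-- traces of the competitors. Uses STR -/
def Stmt_TRP : Prop := ∀ (k : ℕ) (a : Fin (k + 1) → ℝ) (b : Fin k → ℝ) (c θ : ℝ) (j : Fin k),
  Monotone a → Monotone b → ml a = c ::ₘ ml b → 0 ≤ θ →
  (ml (Function.update (Function.update a j.castSucc (a j.castSucc + min (a j.succ - b j) θ))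
      j.succ (a j.succ + (θ - min (a j.succ - b j) θ))) =
    c ::ₘ ml (Function.update b j (b j + θ))) ∧
  (ml (Function.update (Function.update a j.castSucc
      (a j.castSucc - (θ - min (b j - a j.castSucc) θ)))
      j.succ (a j.succ - min (b j - a j.castSucc) θ)) =
    c ::ₘ ml (Function.update b j (b j - θ))) ∧
  θ - min (a j.succ - b j) θ - min (b j - a j.castSucc) θ =
    max (θ - (a j.succ - a j.castSucc)) 0 ∧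
  (∀ (i : Fin (k + 1)) (e : ℝ), a i = b j →
    ml (Function.update a i (a i + e)) = c ::ₘ ml (Function.update b j (b j + e)))

/-- Euler-Lagrange equations. Uses WEX TBA TPT GEF TRP -/
def Stmt_EUL : Prop := ∀ (m k : ℕ) (F φ : E m → ℝ) (p : E m) (R L : ℝ) (i : Fin m)
  (v : Fin (k + 1) → E m → ℝ) (gv : Fin (k + 1) → E m → E m) (w : Fin k → E m → ℝ)
  (gw : Fin k → E m → E m), Geo F φ p R L i → Cfg F φ (ball p R) v gv w gw →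
  (∀ i, WHar (Sd F (ball p R)) (v i) (gv i)) ∧
  (∀ j, WHar (Sd (fun x => -F x) (ball p R)) (w j) (gw j)) ∧
  (∀ (i : Fin (k + 1)) (j : Fin k) (ξ : E m → ℝ) (dξ : E m → E m), TB (ball p R) ξ dξ →
    (∀ x ∈ ball p R, F x = 0 → v i x ≠ w j x → ξ x = 0) →
    (∫ x in Sd F (ball p R), inner ℝ (gv i x) (dξ x)) +
      ∫ x in Sd (fun x => -F x) (ball p R), inner ℝ (gw j x) (dξ x) = 0)

/-- a glued pair is harmonic. Uses WBA WEX WGL TPT GEF EUL -/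
def Stmt_GLH : Prop := ∀ (m k : ℕ) (F φ : E m → ℝ) (p : E m) (R L ρ : ℝ) (l : Fin m)
  (v : Fin (k + 1) → E m → ℝ) (gv : Fin (k + 1) → E m → E m) (w : Fin k → E m → ℝ)
  (gw : Fin k → E m → E m) (i : Fin (k + 1)) (j : Fin k), Geo F φ p R L l →
  Cfg F φ (ball p R) v gv w gw → 0 < ρ → ρ ≤ R →
  (∀ x ∈ ball p ρ, F x = 0 → v i x = w j x) →
  ContinuousOn (fun x => if 0 ≤ F x then v i x else w j x) (ball p ρ) ∧
  ∃ dU, WHar (ball p ρ) (fun x => if 0 ≤ F x then v i x else w j x) dU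

/-- a criterion for subharmonicity (Kato). Uses WBA WUN WPP WMM WEX TBA -/
def Stmt_KAT : Prop := ∀ (m : ℕ) (B : Set (E m)) (K : ℝ) (P : E m → ℝ) (dP : E m → E m),
  IsOpen B → 0 ≤ K → HasWG B P dP → IntegrableOn (fun x => ‖dP x‖ ^ 2) B →
  (∀ x ∈ B, 0 ≤ P x) →
  (∀ ξ dξ, TB B ξ dξ → (∀ x ∈ B, 0 ≤ ξ x) → (∀ x ∈ B, P x = 0 → ξ x = 0) →
    ∫ x in B, inner ℝ (dP x) (dξ x) ≤ K * ∫ x in B, ξ x) → SH B K P dP

/-- `P_j` and `R_j` are almost subharmonic.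
Uses WBA WUN WPP WGL WEX WIT TBA TPT LPC GEF STR EUL KAT -/
def Stmt_PRS : Prop := ∀ (m k : ℕ) (F φ : E m → ℝ) (p : E m) (R L : ℝ) (i : Fin m)
  (v : Fin (k + 1) → E m → ℝ) (gv : Fin (k + 1) → E m → E m) (w : Fin k → E m → ℝ)
  (gw : Fin k → E m → E m) (j : Fin k), 0 < m → Geo F φ p R L i →
  Cfg F φ (ball p R) v gv w gw →
  ∃ dP dR, SH (ball p R) L (PP F φ v w j) dP ∧ SH (ball p R) L (RR F φ v w j) dR

/-- the data `G = v_last - v_0` and `H = P_0 + R_last`.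
Uses WBA WPP WEX TBA TPT LPC GEF BAR STR EUL PRS -/
def Stmt_SZ1 : Prop := ∀ (m k : ℕ) (F φ : E m → ℝ) (p : E m) (R L : ℝ) (i : Fin m)
  (v : Fin (k + 1 + 1) → E m → ℝ) (gv : Fin (k + 1 + 1) → E m → E m)
  (w : Fin (k + 1) → E m → ℝ) (gw : Fin (k + 1) → E m → E m), 0 < m → Geo F φ p R L i →
  Cfg F φ (ball p R) v gv w gw →
  (∃ dG dH, Odd F (ball p R) L (fun x => v (Fin.last (k + 1)) x - v 0 x) dG
    (fun x => PP F φ v w 0 x + RR F φ v w (Fin.last k) x) dH) ∧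
  ∃ K ≥ 0, ∀ x ∈ Sc F (ball p (R / 2)), ∀ j,
    PP F φ v w j x ≤ v (Fin.last (k + 1)) x - v 0 x + K * ‖x - p‖ ∧
    RR F φ v w j x ≤ v (Fin.last (k + 1)) x - v 0 x + K * ‖x - p‖

/-- size control. Uses MVG GEF FUB HMO GL1 BOO STR PRS SZ1 -/
def Stmt_SIZ : Prop := ∀ (d k : ℕ) (F φ : E (d + 1) → ℝ) (p : E (d + 1)) (R L : ℝ)
  (i : Fin (d + 1)) (v : Fin (k + 1 + 1) → E (d + 1) → ℝ)
  (gv : Fin (k + 1 + 1) → E (d + 1) → E (d + 1)) (w : Fin (k + 1) → E (d + 1) → ℝ)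
  (gw : Fin (k + 1) → E (d + 1) → E (d + 1)), Geo F φ p R L i →
  Cfg F φ (ball p R) v gv w gw →
  (∀ r : ℝ, 0 < r → r ≤ R / 8 →
    0 < v (Fin.last (k + 1)) (pN F p r) - v 0 (pN F p r)) →
  ∃ A > 0, ∃ r₁ > 0, 32 * r₁ ≤ R ∧ ∀ r : ℝ, 0 < r → r ≤ r₁ →
    r ≤ A * (v (Fin.last (k + 1)) (pN F p r) - v 0 (pN F p r)) ∧
    ∀ x ∈ ball p r, ∀ j,
      PP F φ v w j x ≤ A * (v (Fin.last (k + 1)) (pN F p r) - v 0 (pN F p r)) ∧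
      RR F φ v w j x ≤ A * (v (Fin.last (k + 1)) (pN F p r) - v 0 (pN F p r))

/-- the energy inequality from the two competitors.
Uses WBA WUN WMM WEX TBA TPT H0L GEF STR TRP EUL -/
def Stmt_CO0 : Prop := ∀ (m k : ℕ) (F φ : E m → ℝ) (p : E m) (R L : ℝ) (i : Fin m)
  (v : Fin (k + 1) → E m → ℝ) (gv : Fin (k + 1) → E m → E m)
  (w : Fin k → E m → ℝ) (gw : Fin k → E m → E m) (j : Fin k)
  (θ β β' : E m → ℝ) (dθ dβ dβ' : E m → E m), 0 < m → Geo F φ p R L i →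
  Cfg F φ (ball p R) v gv w gw → TB (ball p R) θ dθ → TB (ball p R) β dβ →
  TB (ball p R) β' dβ' → (∀ x ∈ ball p R, 0 ≤ θ x) →
  (∀ x ∈ ball p R, F x = 0 → β x = min (v j.succ x - w j x) (θ x) ∧
    β' x = min (w j x - v j.castSucc x) (θ x)) →
  ∃ dz, PT F (ball p R) (fun x => max (θ x - (v j.succ x - v j.castSucc x)) 0) dz ∧
    ∫ x in Sd F (ball p R), ‖dz x‖ ^ 2 ≤ 20 * ((∫ x in ball p R, ‖dθ x‖ ^ 2) +
      (∫ x in ball p R, ‖dβ x‖ ^ 2) + ∫ x in ball p R, ‖dβ' x‖ ^ 2)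

/-- the competitors. Uses WBA WUN WPP WMM WEX TBA GEF STR CO0 -/
def Stmt_CO1 : Prop := ∀ d : ℕ, ∃ C > 0, ∀ (k : ℕ) (F φ : E (d + 1) → ℝ) (p : E (d + 1))
  (R L : ℝ) (i : Fin (d + 1)) (v : Fin (k + 1 + 1) → E (d + 1) → ℝ)
  (gv : Fin (k + 1 + 1) → E (d + 1) → E (d + 1)) (w : Fin (k + 1) → E (d + 1) → ℝ)
  (gw : Fin (k + 1) → E (d + 1) → E (d + 1)) (j : Fin (k + 1)) (r t e : ℝ)
  (fP fR : Fin (k + 1) → E (d + 1) → ℝ) (dP dR : Fin (k + 1) → E (d + 1) → E (d + 1)),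
  Geo F φ p R L i → Cfg F φ (ball p R) v gv w gw → 0 < r → 2 * r ≤ R → 0 < t →
  (∀ l, TB (ball p R) (fP l) (dP l) ∧ TB (ball p R) (fR l) (dR l)) →
  (∀ l, ∀ x ∈ ball p R, 0 ≤ fP l x ∧ fP l x ≤ t ∧ 0 ≤ fR l x ∧ fR l x ≤ t) →
  (∀ l, ∀ x ∈ ball p R, F x = 0 → ‖x - p‖ < r / 2 →
    fP l x = min (PP F φ v w l x) t ∧ fR l x = min (RR F φ v w l x) t) →
  (∀ l, ∫ x in ball p R, ‖dP l x‖ ^ 2 ≤ e ∧ ∫ x in ball p R, ‖dR l x‖ ^ 2 ≤ e) →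
  ∃ (θ : E (d + 1) → ℝ) (dz : E (d + 1) → E (d + 1)),
    (∀ x ∈ ball p R, 0 ≤ θ x ∧ θ x ≤ t) ∧ (∀ x ∈ ball p R, r / 2 ≤ ‖x - p‖ → θ x = 0) ∧
    (∀ x ∈ ball p R, F x = 0 → (∀ l, w l x = φ x) → ‖x - p‖ < r / 4 → θ x = t) ∧
    PT F (ball p R) (fun x => max (θ x - (v j.succ x - v j.castSucc x)) 0) dz ∧
    ∫ x in Sd F (ball p R), ‖dz x‖ ^ 2 ≤ C * (e + t ^ 2 * r ^ (d + 1) / r ^ 2)

/-- a density point of the collapsed set is locally collapsed.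
Uses WBA GEF DCH HOP HMO FUB VLB ENF STR EUL PRS SIZ CO1 -/
def Stmt_CON : Prop := ∀ (d k : ℕ) (F φ : E (d + 1) → ℝ) (p : E (d + 1)) (R L : ℝ)
  (i : Fin (d + 1)) (v : Fin (k + 1 + 1) → E (d + 1) → ℝ)
  (gv : Fin (k + 1 + 1) → E (d + 1) → E (d + 1)) (w : Fin (k + 1) → E (d + 1) → ℝ)
  (gw : Fin (k + 1) → E (d + 1) → E (d + 1)), Geo F φ p R L i →
  Cfg F φ (ball p R) v gv w gw → (∀ j, w j p = φ p) →
  Dn i (ZZ F φ (ball p R) w univ) p →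
  ∀ x ∈ Sc F (ball p (R / 16)), ∀ l, v l x = v 0 x

/-- passing to the sheets `a ≤ j < a + n`. Uses WBA TBA TPT GEF STR -/
def Stmt_CLS : Prop := ∀ (m k : ℕ) (F φ : E m → ℝ) (p : E m) (R L : ℝ) (i : Fin m)
  (v : Fin (k + 1) → E m → ℝ) (gv : Fin (k + 1) → E m → E m) (w : Fin k → E m → ℝ)
  (gw : Fin k → E m → E m) (a n : ℕ) (hn : a + n ≤ k), Geo F φ p R L i →
  Cfg F φ (ball p R) v gv w gw → (∀ j : Fin k, (j : ℕ) < a → w j p < φ p) →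
  (∀ j : Fin k, a + n ≤ (j : ℕ) → φ p < w j p) →
  ∃ ρ > 0, ρ ≤ R ∧
    Geo F φ p ρ L i ∧
    Cfg F φ (ball p ρ) (fun l : Fin (n + 1) => v ⟨a + l, by omega⟩)
      (fun l : Fin (n + 1) => gv ⟨a + l, by omega⟩)
      (fun l : Fin n => w ⟨a + l, by omega⟩) (fun l : Fin n => gw ⟨a + l, by omega⟩) ∧
    ∀ x ∈ ball p ρ, F x = 0 →
      (∀ j : Fin k, (j : ℕ) < a → v j.castSucc x = w j x ∧ w j x < φ x) ∧
      (∀ j : Fin k, a + n ≤ (j : ℕ) → v j.succ x = w j x ∧ φ x < w j x)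

/-- local regularity. Uses WBA SMP GEF FUB STR GLH CON CLS -/
def Stmt_RLC : Prop := ∀ (d k : ℕ) (F φ : E (d + 1) → ℝ) (p : E (d + 1)) (R L : ℝ)
  (i : Fin (d + 1)) (v : Fin (k + 1) → E (d + 1) → ℝ)
  (gv : Fin (k + 1) → E (d + 1) → E (d + 1)) (w : Fin k → E (d + 1) → ℝ)
  (gw : Fin k → E (d + 1) → E (d + 1)), Geo F φ p R L i → Cfg F φ (ball p R) v gv w gw →
  ((∃ j, w j p = φ p) → Dn i (ZZ F φ (ball p R) w {j | w j p = φ p}) p) →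
  ∃ ρ > 0, ρ ≤ R ∧ ∃ (u : Fin k → E (d + 1) → ℝ) (u₁ : E (d + 1) → ℝ),
    (∀ j, ContinuousOn (u j) (ball p ρ)) ∧ ContinuousOn u₁ (Sc F (ball p ρ)) ∧
    (∀ x ∈ Sc F (ball p ρ), ml (fun l => v l x) = u₁ x ::ₘ ml (fun j => u j x)) ∧
    (∀ x ∈ Sc (fun x => -F x) (ball p ρ), ml (fun j => w j x) = ml (fun j => u j x)) ∧
    (∀ j l, (∀ x ∈ ball p ρ, u j x = u l x) ∨ (∀ x ∈ ball p ρ, u j x ≠ u l x)) ∧
    (∀ j, (∀ x ∈ Sc F (ball p ρ), u₁ x = u j x) ∨ (∀ x ∈ Sc F (ball p ρ), u₁ x ≠ u j x))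

/-! ### B. bridge to the definitions of the paper -/

/-- the sorted list of the entries -/
noncomputable def srt {Q : ℕ} (S : Sym ℝ Q) : Fin Q → ℝ :=
  fun i => (S.1.sort (· ≤ ·)).get (i.cast (by
    rw [Multiset.length_sort]; exact S.2.symm))

/-- sorted tuples and the metric -/
def Stmt_SRT : Prop := ∀ Q : ℕ,
  (∀ S : Sym ℝ Q, Monotone (srt S) ∧ tup (srt S) = S ∧ S.1 = ml (srt S)) ∧
  (∀ S T : Sym ℝ Q, GG S T = Real.sqrt (∑ i, (srt S i - srt T i) ^ 2)) ∧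
  (∀ a b : Fin Q → ℝ, GG (tup a) (tup b) ≤ Real.sqrt (∑ i, (a i - b i) ^ 2)) ∧
  (∀ (m : ℕ) (A : Set (E m)) (g : E m → Sym ℝ Q), ContQ A g →
    (∀ i, ContinuousOn (fun x => srt (g x) i) A) ∧
    ∀ T : Sym ℝ Q, ContinuousOn (fun x => GG (g x) T) A) ∧
  (∀ (m : ℕ) (A : Set (E m)) (a : Fin Q → E m → ℝ), (∀ i, ContinuousOn (a i) A) →
    ContQ A (fun x => tup fun i => a i x))

/-- bounded distributional derivatives give a weak gradient -/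
def Stmt_DBW : Prop := ∀ (m : ℕ) (U : Set (E m)) (f : E m → ℝ) (h : Fin m → E m → ℝ≥0∞),
  IsOpen U → ContinuousOn f U → (∀ j, Measurable (h j)) → ∫⁻ x in U, ∑ j, h j x ^ 2 < ⊤ →
  (∀ j, DerivBound U (bs j) f (h j)) → ∃ g : E m → E m, HasWG U f g ∧
    IntegrableOn (fun x => ‖g x‖ ^ 2) U ∧ ∀ᵐ x : E m, x ∈ U → ∀ j, ENNReal.ofReal |g x j| ≤ h j x

/-- weak gradients of the sorted sheets from Almgren's energy. Uses SRT DBW WBA WUN WCH WPP -/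
def Stmt_BR2 : Prop := ∀ (m Q : ℕ) (U : Set (E m)) (g : E m → Sym ℝ Q), IsOpen U → ContQ U g →
  energy U g < ⊤ → ∃ dg : Fin Q → E m → E m, (∀ i, HasWG U (fun x => srt (g x) i) (dg i)) ∧
    (∀ i, IntegrableOn (fun x => ‖dg i x‖ ^ 2) U) ∧
    ENNReal.ofReal (∑ i, ∫ x in U, ‖dg i x‖ ^ 2) ≤ energy U g

/-- energy of a labelled function. Uses SRT WMO -/
def Stmt_BR3 : Prop := ∀ (m Q : ℕ) (U : Set (E m)) (a : Fin Q → E m → ℝ)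
  (da : Fin Q → E m → E m), IsOpen U → (∀ i, HasWG U (a i) (da i)) →
  (∀ i, IntegrableOn (fun x => ‖da i x‖ ^ 2) U) →
  energy U (fun x => tup fun i => a i x) ≤ ENNReal.ofReal (∑ i, ∫ x in U, ‖da i x‖ ^ 2)

/-- the local configuration of a minimiser. Uses SRT BR2 BR3 WBA WLO WUN -/
def Stmt_BR4 : Prop := ∀ (m k : ℕ) (Om Op Omi ga : Set (E m)) (φ ψ : E m → ℝ)
  (gp : E m → Sym ℝ (k + 1)) (gm : E m → Sym ℝ k) (F : E m → ℝ) (p : E m) (R : ℝ),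
  IsSplit Om Op Omi ga → DirMin Om Op Omi ga φ gp gm → Continuous F → 0 < R →
  ball p R ⊆ Om →
  (∀ x ∈ ball p R, (x ∈ Op ↔ 0 < F x) ∧ (x ∈ Omi ↔ F x < 0) ∧ (x ∈ ga ↔ F x = 0)) →
  (∀ x ∈ ga ∩ ball p R, φ x = ψ x) →
  ∃ gv gw, Cfg F ψ (ball p R) (fun i x => srt (gp x) i) gv (fun j x => srt (gm x) j) gw

/-- charts. Uses LPC -/
def Stmt_CHT : Prop := ∀ (d : ℕ) (Om Op Omi ga : Set (E (d + 1))) (φ : E (d + 1) → ℝ)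
  (p₀ : E (d + 1)), IsSplit Om Op Omi ga → IsC2On ga φ → p₀ ∈ ga →
  ∃ (i : Fin (d + 1)) (R₀ L₀ : ℝ), 0 < R₀ ∧ closedBall p₀ R₀ ⊆ Om ∧
    (∀ x ∈ ga ∩ closedBall p₀ R₀, ∀ y ∈ ga ∩ closedBall p₀ R₀,
      ‖x - y‖ ≤ L₀ * dist (pj i x) (pj i y)) ∧
    ∀ p ∈ ga ∩ ball p₀ R₀, ∃ (F ψ : E (d + 1) → ℝ) (R L : ℝ), Geo F ψ p R L i ∧
      ball p R ⊆ ball p₀ R₀ ∧
      (∀ x ∈ ball p R, (x ∈ Op ↔ 0 < F x) ∧ (x ∈ Omi ↔ F x < 0) ∧ (x ∈ ga ↔ F x = 0)) ∧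
      (∀ x ∈ ga ∩ ball p R, φ x = ψ x)

/-- null sets -/
def Stmt_NUL : Prop := ∀ (d : ℕ) (i : Fin (d + 1)) (Z S : Set (E (d + 1))) (L : ℝ),
  IsCompact Z → (∀ x ∈ Z, ∀ y ∈ Z, ‖x - y‖ ≤ L * dist (pj i x) (pj i y)) → S ⊆ Z →
  (∀ p ∈ S, ¬ Dn i Z p) → Measure.hausdorffMeasure (d : ℝ) S = 0

/-- the final theorem. Uses SRT BR4 CHT NUL RLC -/
def Stmt_FIN : Prop := ∀ (d k : ℕ) (Om Op Omi ga : Set (E (d + 1))) (φ : E (d + 1) → ℝ)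
  (gp : E (d + 1) → Sym ℝ (k + 1)) (gm : E (d + 1) → Sym ℝ k), IsSplit Om Op Omi ga →
  IsC2On ga φ → DirMin Om Op Omi ga φ gp gm →
  Measure.hausdorffMeasure (d : ℝ) {p | p ∈ ga ∧ ¬ RegPt Op Omi ga gp gm p} = 0

end Pool.Agent.COB
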