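import Mathlib

/-!
Public definitions for the boundary regularity of linearised `(Q - 1/2)`-valued Dir-minimisers on
open subsets of `ℝᵐ`.  The target `V` is a normed space; the main theorem is about `V = ℝ`
(codimension `n = 1`).
-/

namespace Pool.Agent.COB

open MeasureTheory Set Metric Filter Topology
open scoped ENNReal

/-- The Euclidean space `ℝᵐ`. -/
abbrev E (m : ℕ) := EuclideanSpace ℝ (Fin m)

/-- The `j`-th vector of the standard basis. -/
noncomputable abbrev bs {m : ℕ} (j : Fin m) : E m := EuclideanSpace.single j (1 : ℝ)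

section general

variable {m Q k : ℕ} {V : Type*} [NormedAddCommGroup V]

/-- The unordered tuple `∑ᵢ ⟦aᵢ⟧`, an element of `𝒜_Q(V)`. -/
def tup (a : Fin Q → V) : Sym V Q :=
  ⟨Multiset.map a Finset.univ.val, by simp⟩

/-- The metric `𝒢` of `𝒜_Q(V)`: the least value of `(∑ᵢ |aᵢ - bᵢ|²)^(1/2)` over all ways of
listing the two tuples. -/
noncomputable def GG (S T : Sym V Q) : ℝ :=
  sInf {r : ℝ | ∃ a b : Fin Q → V, tup a = S ∧ tup b = T ∧
    r = Real.sqrt (∑ i, ‖a i - b i‖ ^ 2)}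

/-- The distributional derivative of `f` in the direction `v` is a function bounded by `h` on the
open set `U`. -/
def DerivBound (U : Set (E m)) (v : E m) (f : E m → ℝ) (h : E m → ℝ≥0∞) : Prop :=
  ∀ ζ : E m → ℝ, ContDiff ℝ (⊤ : ℕ∞) ζ → HasCompactSupport ζ → tsupport ζ ⊆ U →
    ENNReal.ofReal |∫ x, f x * fderiv ℝ ζ x v| ≤ ∫⁻ x, h x * ENNReal.ofReal |ζ x|

/-- `h₁, …, h_m` are admissible in Almgren's definition of the Sobolev class of `g` on `U`:
`|∂_j 𝒢(g, T)| ≤ h_j` for all `T`. -/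
def Adm (U : Set (E m)) (g : E m → Sym V Q) (h : Fin m → E m → ℝ≥0∞) : Prop :=
  (∀ j, Measurable (h j)) ∧ ∀ (T : Sym V Q) (j : Fin m),
    DerivBound U (bs j) (fun x => GG (g x) T) (h j)

/-- The Dirichlet energy of `g` on the open set `U`: the least value of `∫ ∑ⱼ h_j²`. -/
noncomputable def energy (U : Set (E m)) (g : E m → Sym V Q) : ℝ≥0∞ :=
  ⨅ (h : Fin m → E m → ℝ≥0∞) (_ : Adm U g h), ∫⁻ x in U, ∑ j, h j x ^ 2

/-- Continuity of a `Q`-valued function on a set. -/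
def ContQ (A : Set (E m)) (g : E m → Sym V Q) : Prop :=
  ∀ x ∈ A, Tendsto (fun y => GG (g y) (g x)) (𝓝[A] x) (𝓝 0)

/-- `ga` is a `C²` hypersurface in the open set `Om` which splits it into the disjoint open sets
`Op` and `Omi`: near each point of `ga` the three sets are `{f > 0}`, `{f < 0}` and `{f = 0}`
for a `C²` function `f` with non-zero differential. -/
structure IsSplit (Om Op Omi ga : Set (E m)) : Prop where
  openOm : IsOpen Om
  openOp : IsOpen Op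
  openOmi : IsOpen Omi
  union : Om = Op ∪ ga ∪ Omi
  disj1 : Disjoint Op ga
  disj2 : Disjoint Omi ga
  disj3 : Disjoint Op Omi
  loc : ∀ p ∈ ga, ∃ U : Set (E m), IsOpen U ∧ p ∈ U ∧ ∃ f : E m → ℝ, ContDiffOn ℝ 2 f U ∧
    fderiv ℝ f p ≠ 0 ∧ ∀ x ∈ U, (x ∈ Op ↔ 0 < f x) ∧ (x ∈ Omi ↔ f x < 0) ∧ (x ∈ ga ↔ f x = 0)

/-- `φ` is a `C²` function on the hypersurface `ga`. -/
def IsC2On [NormedSpace ℝ V] (ga : Set (E m)) (φ : E m → V) : Prop :=
  ∀ p ∈ ga, ∃ U : Set (E m), IsOpen U ∧ p ∈ U ∧ ∃ ψ : E m → V, ContDiffOn ℝ 2 ψ U ∧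
    ∀ x ∈ U ∩ ga, φ x = ψ x

/-- A (continuous) `(Q - 1/2)`-valued function of finite energy with interface `(ga, φ)`, where
`Q = k + 1`. -/
structure IsPair (Op Omi ga : Set (E m)) (φ : E m → V) (gp : E m → Sym V (k + 1))
    (gm : E m → Sym V k) : Prop where
  cp : ContQ (Op ∪ ga) gp
  cm : ContQ (Omi ∪ ga) gm
  bd : ∀ x ∈ ga, gp x = φ x ::ₛ gm x
  fp : energy Op gp < ⊤
  fm : energy Omi gm < ⊤

/-- The pair is Dir-minimising in `Om`. -/
def DirMin (Om Op Omi ga : Set (E m)) (φ : E m → V) (gp : E m → Sym V (k + 1))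
    (gm : E m → Sym V k) : Prop :=
  IsPair Op Omi ga φ gp gm ∧ ∀ (hp : E m → Sym V (k + 1)) (hm : E m → Sym V k),
    IsPair Op Omi ga φ hp hm →
    (∃ K ⊆ Om, IsCompact K ∧ (∀ x ∈ (Op ∪ ga) \ K, hp x = gp x) ∧
      (∀ x ∈ (Omi ∪ ga) \ K, hm x = gm x)) →
    energy Op gp + energy Omi gm ≤ energy Op hp + energy Omi hm

/-- The point `p` is a regular boundary point of the pair: near `p` there are continuous sheets
`u i` (on the whole ball) and `w` (on the upper side, up to `ga`) with (i), (ii), (iii). -/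
def RegPt (Op Omi ga : Set (E m)) (gp : E m → Sym V (k + 1)) (gm : E m → Sym V k)
    (p : E m) : Prop :=
  ∃ r > 0, ball p r ⊆ Op ∪ ga ∪ Omi ∧ ∃ (u : Fin k → E m → V) (w : E m → V),
    (∀ i, ContinuousOn (u i) (ball p r)) ∧ ContinuousOn w (ball p r ∩ (Op ∪ ga)) ∧
    (∀ x ∈ ball p r ∩ (Op ∪ ga), gp x = w x ::ₛ tup (fun i => u i x)) ∧
    (∀ x ∈ ball p r ∩ (Omi ∪ ga), gm x = tup (fun i => u i x)) ∧
    (∀ i j, (∀ x ∈ ball p r, u i x = u j x) ∨ (∀ x ∈ ball p r, u i x ≠ u j x)) ∧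
    (∀ i, (∀ x ∈ ball p r ∩ (Op ∪ ga), w x = u i x) ∨
      (∀ x ∈ ball p r ∩ (Op ∪ ga), w x ≠ u i x))

end general

end Pool.Agent.COB
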